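import Pool.Agent.Lib.MP_d6ddbd_nt.K11.R1

/-!
The cup product of two Kummer cocycles under the Weil pairing is a coboundary on every set of
automorphisms on which both take values in the points of order two.
-/

set_option autoImplicit false
set_option maxSynthPendingDepth 3

open Pool.Agent.Lib.MP_02f36d_nt (xc yc pt_ext xc_neg eq_or_neg_of_xc)
open Pool.Agent.Lib.MP_d6ddbd_nt.K11 Pool.Agent.Lib.MP_d6ddbd_nt.K11.R1

noncomputable section

namespace Pool.Agent.Lib.MP_d6ddbd_nt.KI.Ep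

open Classical in
/-- The Weil pairing on the points of order two. -/
def ep (T T' : Pt) : ZMod 2 := if T = 0 ∨ T' = 0 ∨ T = T' then 0 else 1

open Classical in
/-- The quadratic form that polarises to the Weil pairing. -/
def qf (T : Pt) : ZMod 2 := if T = 0 then 0 else 1

lemma root {T : Pt} (h : 2 • T = 0) (h0 : T ≠ 0) : fc (xc T) = 0 :=
  (((two_iff T).1 h).resolve_left h0).2

lemma xc_inj {T U : Pt} (hT : 2 • T = 0) (hU : 2 • U = 0) (h : T ≠ 0) (h' : U ≠ 0)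
    (e : xc T = xc U) : T = U :=
  pt_ext h h' e ((((two_iff T).1 hT).resolve_left h).1.trans
    (((two_iff U).1 hU).resolve_left h').1.symm)

lemma ep_comm (T U : Pt) : ep T U = ep U T := by
  unfold ep
  congr 1
  exact propext (by tauto)

@[simp] lemma ep_zero_right (T : Pt) : ep T 0 = 0 := by simp [ep]

@[simp] lemma ep_zero_left (T : Pt) : ep 0 T = 0 := by simp [ep]

@[simp] lemma ep_self (T : Pt) : ep T T = 0 := by simp [ep]

lemma ep_eq_wl {T U : Pt} (hT : 2 • T = 0) (hU : 2 • U = 0) (h : U ≠ 0) :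
    ep T U = wl (xc U) T := by
  unfold ep wl
  congr 1
  refine propext ⟨?_, ?_⟩
  · rintro (a | a | a)
    · exact Or.inl a
    · exact absurd a h
    · exact Or.inr (by rw [a])
  · rintro (a | a)
    · exact Or.inl a
    · by_cases h0 : T = 0
      · exact Or.inl h0
      · exact Or.inr (Or.inr (xc_inj hT hU h0 h a))

lemma two_add {T U : Pt} (hT : 2 • T = 0) (hU : 2 • U = 0) : 2 • (T + U) = 0 := by
  rw [smul_add, hT, hU, add_zero]

lemma two_smul' {T : Pt} (σ : G) (hT : 2 • T = 0) : 2 • (σ • T) = 0 := by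
  rw [← smul_comm, hT, smul_zero]

lemma neg_two {T : Pt} (hT : 2 • T = 0) : -T = T := by
  rw [neg_eq_iff_add_eq_zero, ← two_nsmul, hT]

lemma ep_add_left {T T' U : Pt} (hT : 2 • T = 0) (hT' : 2 • T' = 0) (hU : 2 • U = 0) :
    ep (T + T') U = ep T U + ep T' U := by
  by_cases h : U = 0
  · simp [h]
  rw [ep_eq_wl (two_add hT hT') hU h, ep_eq_wl hT hU h, ep_eq_wl hT' hU h,
    wl_add _ _ _ (root hU h) hT hT']

lemma ep_add_right {T U U' : Pt} (hT : 2 • T = 0) (hU : 2 • U = 0) (hU' : 2 • U' = 0) :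
    ep T (U + U') = ep T U + ep T U' := by
  rw [ep_comm, ep_add_left hU hU' hT, ep_comm U, ep_comm U']

lemma ep_smul (σ : G) (T U : Pt) : ep (σ • T) (σ • U) = ep T U := by
  simp only [ep, smul_eq_zero', smul_left_cancel_iff]

lemma qf_smul (σ : G) (T : Pt) : qf (σ • T) = qf T := by
  simp only [qf, smul_eq_zero']

lemma qf_add {T U : Pt} (hU : 2 • U = 0) : qf (T + U) = qf T + qf U + ep T U := by
  by_cases h : T = 0
  · simp [h, qf]
  by_cases h' : U = 0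
  · simp [h', qf]
  have k : T + U = 0 ↔ T = U := by rw [add_eq_zero_iff_eq_neg, neg_two hU]
  by_cases e : T = U
  · subst e
    simp only [qf, k.2 rfl, h, ep_self, if_true, if_false]
    decide
  · simp only [qf, k, e, h, h', ep, if_false, or_self]
    decide

/-- The sign attached to a residue modulo two. -/
def sg (a : ZMod 2) : ℂ := if a = 0 then 1 else -1

lemma sg_add (a b : ZMod 2) : sg (a + b) = sg a * sg b := by
  have h : ∀ a : ZMod 2, a = 0 ∨ a = 1 := by decide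
  have h2 : (1 + 1 : ZMod 2) = 0 := by decide
  rcases h a with rfl | rfl <;> rcases h b with rfl | rfl <;> simp [sg, h2]

lemma sg_inj {a b : ZMod 2} (e : sg a = sg b) : a = b := by
  have h : ∀ a : ZMod 2, a = 0 ∨ a = 1 := by decide
  rcases h a with rfl | rfl <;> rcases h b with rfl | rfl <;> simp [sg] at e ⊢ <;> norm_num at e

lemma map_sg (σ : G) (a : ZMod 2) : σ (sg a) = sg a := by
  unfold sg
  split_ifs <;> simp

lemma fin_roots : {e : ℂ | fc e = 0}.Finite := by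
  obtain ⟨a, b, c, h, -⟩ := roots
  refine (Set.toFinite {a, b, c}).subset fun x hx => ?_
  have hx' : fc x = 0 := hx
  rwa [h, mul_eq_zero, mul_eq_zero, sub_eq_zero, sub_eq_zero, sub_eq_zero, or_assoc] at hx'

/-- The roots of the cubic. -/
def Rt : Finset ℂ := fin_roots.toFinset

lemma mem_Rt {e : ℂ} : e ∈ Rt ↔ fc e = 0 := by simp [Rt]

lemma prod_Rt {a b : ℂ} (ha : fc a = 0) (hb : fc b = 0) (h : a ≠ b) :
    fc (4 - a - b) = 0 ∧ a ≠ 4 - a - b ∧ b ≠ 4 - a - b ∧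
      ∀ f : ℂ → ℂ, ∏ e ∈ Rt, f e = f a * f b * f (4 - a - b) := by
  classical
  have n1 : a ≠ 4 - a - b := fun k => fd_ne ha (by
    rw [fd_eq ha hb h]; linear_combination (a - b) * k)
  have n2 : b ≠ 4 - a - b := fun k => fd_ne hb (by
    rw [fd_eq hb ha h.symm]; linear_combination (b - a) * k)
  refine ⟨by rw [fc_eq ha hb h]; ring, n1, n2, fun f => ?_⟩
  have : Rt = {a, b, 4 - a - b} := by
    ext x
    rw [mem_Rt, fc_eq ha hb h, mul_eq_zero, mul_eq_zero, sub_eq_zero, sub_eq_zero, sub_eq_zero]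
    simp [or_assoc]
  rw [this, Finset.prod_insert (by simp [h, n1]), Finset.prod_insert (by simp [n2]),
    Finset.prod_singleton, mul_assoc]

lemma other (a : ℂ) : ∃ b, fc b = 0 ∧ a ≠ b := by
  obtain ⟨x, y, z, h, n, -⟩ := roots
  by_cases e : a = x
  · exact ⟨y, by rw [h]; ring, e ▸ n⟩
  · exact ⟨x, by rw [h]; ring, e⟩

lemma prod_smul (σ : G) (f : ℂ → ℂ) : ∏ e ∈ Rt, f (σ e) = ∏ e ∈ Rt, f e := by
  refine Finset.prod_nbij' σ σ.symm (fun e he => ?_) (fun e he => ?_) (by simp) (by simp)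
    (by simp)
  · rw [mem_Rt] at he ⊢
    rw [← map_fc, he, map_zero]
  · rw [mem_Rt] at he ⊢
    rw [← map_fc, he, map_zero]

lemma prod_sg {T : Pt} (hT : 2 • T = 0) : ∏ e ∈ Rt, sg (wl e T) = 1 := by
  by_cases h : T = 0
  · simp [h, wl0, sg]
  obtain ⟨b, hb, n⟩ := other (xc T)
  obtain ⟨-, n1, -, k⟩ := prod_Rt (root hT h) hb n
  rw [k, wl_eq rfl, wl_ne h n, wl_ne h n1]
  simp [sg]

section Alg

variable (u : ℂ → ℂ) (g : ℂ)

open Classical in
/-- The correction factor. -/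
def mm (T : Pt) : ℂ := if T = 0 then 1 else g * u (xc T) / ∏ e ∈ Rt, u e

/-- The conjugate of `u`, up to sign. -/
def vv (Y : Pt) (e : ℂ) : ℂ := if wl e Y = 0 then u e else g / u e

variable {u g}

lemma U_ne (hu : ∀ e, fc e = 0 → u e ≠ 0) : ∏ e ∈ Rt, u e ≠ 0 :=
  Finset.prod_ne_zero_iff.2 fun e he => hu e (mem_Rt.1 he)

lemma mm_ne (hu : ∀ e, fc e = 0 → u e ≠ 0) (hg : g ≠ 0) {T : Pt} (hT : 2 • T = 0) :
    mm u g T ≠ 0 := by
  unfold mm
  split_ifs with h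
  · exact one_ne_zero
  · exact div_ne_zero (mul_ne_zero hg (hu _ (root hT h))) (U_ne hu)

lemma prod_vv (hu : ∀ e, fc e = 0 → u e ≠ 0) {Y : Pt} (hY : 2 • Y = 0) :
    ∏ e ∈ Rt, vv u g Y e = (∏ e ∈ Rt, u e) * mm u g Y ^ 2 := by
  by_cases h : Y = 0
  · simp [h, vv, mm, wl0]
  obtain ⟨b, hb, n⟩ := other (xc Y)
  obtain ⟨hc, n1, -, k⟩ := prod_Rt (root hY h) hb n
  have a1 := hu _ (root hY h)
  have a2 := hu _ hb
  have a3 := hu _ hc
  rw [mm, if_neg h, k, k, vv, vv, vv, wl_eq rfl, wl_ne h n, wl_ne h n1]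
  simp only [if_true, one_ne_zero, if_false]
  field_simp

lemma vv_mm (hu : ∀ e, fc e = 0 → u e ≠ 0) {Y Z : Pt} (hY : 2 • Y = 0) (hZ : 2 • Z = 0)
    (h : Z ≠ 0) : g * vv u g Y (xc Z) = (∏ e ∈ Rt, u e) * mm u g Y * mm u g (Y + Z) := by
  have hU := U_ne hu
  by_cases h0 : Y = 0
  · simp only [h0, vv, mm, wl0, zero_add, h, if_true, if_false]
    field_simp
  by_cases e : Y = Z
  · subst e
    rw [← two_nsmul, hY]
    simp only [vv, mm, wl_eq rfl, h, if_true, if_false]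
    field_simp
  have n : xc Y ≠ xc Z := fun k => e (xc_inj hY hZ h0 h k)
  obtain ⟨s1, s2, -⟩ := add_TT h0 h hY hZ n
  obtain ⟨hc, -, -, k⟩ := prod_Rt (root hY h0) (root hZ h) n
  have a1 := hu _ (root hY h0)
  have a2 := hu _ (root hZ h)
  have a3 := hu _ hc
  rw [mm, mm, if_neg h0, if_neg s1, s2, k, vv, wl_ne h0 n]
  simp only [one_ne_zero, if_false]
  field_simp

/-- The effect of an automorphism that moves `u` by the rule of the pair `T`, `Y`. -/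
lemma step (hu : ∀ e, fc e = 0 → u e ≠ 0) (hg : g ≠ 0) (σ : G) (hσ : σ g = g) {T Y : Pt}
    (hT : 2 • T = 0) (hY : 2 • Y = 0)
    (h : ∀ e, fc e = 0 → σ (u e) = sg (wl (σ e) T) * vv u g Y (σ e)) :
    σ (∏ e ∈ Rt, u e) = (∏ e ∈ Rt, u e) * mm u g Y ^ 2 ∧
      ∀ Z : Pt, 2 • Z = 0 →
        σ (mm u g Z) * mm u g Y = sg (ep T (σ • Z)) * mm u g (Y + σ • Z) := by
  have A : σ (∏ e ∈ Rt, u e) = (∏ e ∈ Rt, u e) * mm u g Y ^ 2 := by
    rw [map_prod, Finset.prod_congr rfl fun e he => h e (mem_Rt.1 he),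
      prod_smul σ fun e => sg (wl e T) * vv u g Y e, Finset.prod_mul_distrib, prod_sg hT, one_mul,
      prod_vv hu hY]
  refine ⟨A, fun Z hZ => ?_⟩
  by_cases h0 : Z = 0
  · simp [h0, mm, sg]
  have h1 : σ • Z ≠ 0 := fun k => h0 ((smul_eq_zero' σ Z).1 k)
  have B := vv_mm (g := g) hu hY (two_smul' σ hZ) h1
  have hU := U_ne hu
  have hm := mm_ne hu hg hY
  rw [ep_eq_wl hT (two_smul' σ hZ) h1]
  conv_lhs => rw [mm, if_neg h0, map_div₀, map_mul, hσ, A, h _ (root hZ h0), ← xc_smul]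
  field_simp
  linear_combination sg (wl (xc (σ • Z)) T) * B

end Alg

/-- The Kummer cocycle of the point `S` for the action twisted by `χ`. -/
def kx (χ : G → ℤ) (S : Pt) (σ : G) : Pt := χ σ • σ • S - S

lemma smul_congr {σ τ : G} {P : Pt} (h1 : σ (xc P) = τ (xc P)) (h2 : σ (yc P) = τ (yc P)) :
    σ • P = τ • P :=
  act_ext (by simp only [smul_eq_zero']) (by rw [xc_smul, xc_smul, h1])
    (by rw [yc_smul, yc_smul, h2])

section Main

variable {s : ℂ} {χ : G → ℤ}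

lemma chi_two (hχ : ∀ σ : G, (χ σ = 1 ∨ χ σ = -1) ∧ σ s = χ σ * s) (σ : G) {T : Pt}
    (hT : 2 • T = 0) : χ σ • T = T := by
  rcases (hχ σ).1 with e | e
  · rw [e, one_smul]
  · rw [e, neg_smul, one_smul, neg_two hT]

lemma chi_mul (hs : s ≠ 0) (hχ : ∀ σ : G, (χ σ = 1 ∨ χ σ = -1) ∧ σ s = χ σ * s) (σ τ : G) :
    χ (σ * τ) = χ σ * χ τ := by
  have := (hχ (σ * τ)).2
  rw [RingAut.mul_apply, (hχ τ).2, map_mul, map_intCast, (hχ σ).2] at this
  have h : ((χ (σ * τ) : ℤ) : ℂ) = ((χ σ * χ τ : ℤ) : ℂ) :=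
    mul_right_cancel₀ hs (by push_cast; linear_combination -this)
  exact_mod_cast h

lemma chi_congr (hs : s ≠ 0) (hχ : ∀ σ : G, (χ σ = 1 ∨ χ σ = -1) ∧ σ s = χ σ * s) {σ τ : G}
    (h : σ s = τ s) : χ σ = χ τ := by
  rw [(hχ σ).2, (hχ τ).2] at h
  exact_mod_cast mul_right_cancel₀ hs h

lemma kx_mul (hs : s ≠ 0) (hχ : ∀ σ : G, (χ σ = 1 ∨ χ σ = -1) ∧ σ s = χ σ * s) (S : Pt)
    (σ : G) {τ : G} (hτ : 2 • kx χ S τ = 0) : kx χ S (σ * τ) = kx χ S σ + σ • kx χ S τ := by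
  rw [← chi_two hχ σ (two_smul' σ hτ), kx, kx, kx, chi_mul hs hχ, mul_smul, mul_smul, smul_sub,
    smul_sub, smul_comm σ (χ τ)]
  abel

lemma kx_congr (hs : s ≠ 0) (hχ : ∀ σ : G, (χ σ = 1 ∨ χ σ = -1) ∧ σ s = χ σ * s) {S : Pt}
    {σ τ : G} (h : σ s = τ s) (h1 : σ (xc S) = τ (xc S)) (h2 : σ (yc S) = τ (yc S)) :
    kx χ S σ = kx χ S τ := by
  rw [kx, kx, chi_congr hs hχ h, smul_congr h1 h2]

lemma hh_move (hχ : ∀ σ : G, (χ σ = 1 ∨ χ σ = -1) ∧ σ s = χ σ * s) {S : Pt} (h2 : 2 • S ≠ 0)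
    {σ : G} (hσ : 2 • kx χ S σ = 0) {e : ℂ} (he : fc e = 0) :
    σ (s * hh e S) = sg (wl (σ e) (kx χ S σ)) * (s * hh (σ e) S) := by
  have h0 : S ≠ 0 := fun k => h2 (by rw [k, smul_zero])
  have hy : yc S ≠ 0 := fun k => h2 ((two_iff S).2 (Or.inr ⟨k, by rw [← eq1 h0, k]; ring⟩))
  have k := key1 (e := σ e) (by rw [← map_fc, he, map_zero]) h0 hy hσ
  have a : S + kx χ S σ = χ σ • σ • S := by rw [kx]; abel
  have b : hh (σ e) (χ σ • σ • S) = χ σ * hh (σ e) (σ • S) := by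
    rcases (hχ σ).1 with e | e
    · simp [e]
    · rw [e, neg_smul, one_smul, hh_neg _ fun k => h0 ((smul_eq_zero' σ S).1 k)]
      simp
  rw [a, b] at k
  rw [map_mul, hh_smul, (hχ σ).2, sg]
  split_ifs with c
  · linear_combination s * k.1 c
  · linear_combination s * k.2 c

lemma xc_fix (hχ : ∀ σ : G, (χ σ = 1 ∨ χ σ = -1) ∧ σ s = χ σ * s) {S : Pt} {σ : G}
    (hσ : 2 • kx χ S σ = 0) : σ (xc (2 • S)) = xc (2 • S) := by
  rw [kx, smul_sub, sub_eq_zero, smul_comm, smul_comm 2 σ] at hσ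
  rw [← xc_smul]
  rcases (hχ σ).1 with e | e
  · rw [e, one_smul] at hσ
    rw [hσ]
  · rw [e, neg_smul, one_smul] at hσ
    conv_rhs => rw [← hσ, xc_neg]

lemma alg_root {e : ℂ} (he : fc e = 0) : e ∈ KK :=
  alg4 (neg_mem (ofNat_mem _ 4)) (neg_mem (ofNat_mem _ 160)) (neg_mem (ofNat_mem _ 1264))
    (zero_mem _) (by rw [fc] at he; linear_combination e * he)

lemma alg_hh {e : ℂ} (he : fc e = 0) {S : Pt} (hS : AlgP S) : hh e S ∈ KK := by
  have a := alg_root he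
  obtain ⟨p, q⟩ := algP.1 hS
  exact div_mem (sub_mem (pow_mem (sub_mem p a) 2) (sub_mem (sub_mem (mul_mem (ofNat_mem _ 3)
    (pow_mem a 2)) (mul_mem (ofNat_mem _ 8) a)) (ofNat_mem _ 160))) (mul_mem (ofNat_mem _ 2) q)

/-- The generic case. -/
lemma main (hs : s ≠ 0) (hsa : IsAlgebraic ℚ s)
    (hχ : ∀ σ : G, (χ σ = 1 ∨ χ σ = -1) ∧ σ s = χ σ * s) {S S' : Pt} (hS : AlgP S)
    (hS' : AlgP S') (h2 : 2 • S ≠ 0) (h2' : 2 • S' ≠ 0) (hx : xc (2 • S) ≠ xc (2 • S')) :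
    ∃ (w : ℂ) (μ : Pt → ℂ), IsAlgebraic ℚ w ∧ ∀ η : G → ZMod 2,
      (∀ σ : G, η σ = 0 ↔ σ w = μ (kx χ S σ + kx χ S' σ) * w) →
      ∀ σ τ : G, 2 • kx χ S σ = 0 → 2 • kx χ S' σ = 0 → 2 • kx χ S τ = 0 → 2 • kx χ S' τ = 0 →
        η (σ * τ) = η σ + η τ + ep (kx χ S σ) (σ • (kx χ S τ + kx χ S' τ)) := by
  have sq : ∀ {P : Pt}, 2 • P ≠ 0 → ∀ e, fc e = 0 → hh e P ^ 2 = xc (2 • P) - e := by
    intro P h e he
    have h0 : P ≠ 0 := fun k => h (by rw [k, smul_zero])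
    exact hh_sq he h0 fun k => h ((two_iff P).2 (Or.inr ⟨k, by rw [← eq1 h0, k]; ring⟩))
  obtain ⟨u, hu⟩ : ∃ u : ℂ → ℂ, ∀ e, u e = s * hh e S + s * hh e S' := ⟨_, fun _ => rfl⟩
  obtain ⟨g, hg⟩ : ∃ g : ℂ, g = s ^ 2 * (xc (2 • S) - xc (2 • S')) := ⟨_, rfl⟩
  have g0 : g ≠ 0 := hg ▸ mul_ne_zero (pow_ne_zero 2 hs) (sub_ne_zero.2 hx)
  have ug : ∀ e, fc e = 0 → u e * (s * hh e S - s * hh e S') = g := fun e he => by
    rw [hu, hg]
    linear_combination s ^ 2 * sq h2 e he - s ^ 2 * sq h2' e he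
  have u0 : ∀ e, fc e = 0 → u e ≠ 0 := fun e he k => g0 (by rw [← ug e he, k, zero_mul])
  obtain ⟨w, hw⟩ := IsAlgClosed.exists_pow_nat_eq (∏ e ∈ Rt, u e) two_pos
  have w0 : w ≠ 0 := fun k => U_ne u0 (by rw [← hw, k]; ring)
  have st : ∀ σ : G, 2 • kx χ S σ = 0 → 2 • kx χ S' σ = 0 → _ := fun σ a b =>
    step u0 g0 σ (T := kx χ S σ) (Y := kx χ S σ + kx χ S' σ) (by
      rw [hg, map_mul, map_pow, map_sub, xc_fix hχ a, xc_fix hχ b, (hχ σ).2]
      rcases (hχ σ).1 with e | e <;> simp [e]) a (two_add a b) fun e he => by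
      have he' : fc (σ e) = 0 := by rw [← map_fc, he, map_zero]
      have z : ∀ a : ZMod 2, a = 0 ∨ a = 1 := by decide
      have z2 : (1 + 1 : ZMod 2) = 0 := by decide
      have k : g / u (σ e) = s * hh (σ e) S - s * hh (σ e) S' := by
        rw [div_eq_iff (u0 _ he'), ← ug _ he', mul_comm]
      rw [hu, map_add, hh_move hχ h2 a he, hh_move hχ h2' b he, vv, wl_add _ _ _ he' a b, k, hu]
      rcases z (wl (σ e) (kx χ S σ)) with c | c <;> rcases z (wl (σ e) (kx χ S' σ)) with c' | c' <;>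
        simp [c, c', sg, z2] <;> ring
  refine ⟨w, mm u g, IsAlgebraic.of_pow two_pos ?_, fun η hη σ τ a b a' b' => ?_⟩
  · rw [hw, ← mem_algebraicClosure_iff]
    refine prod_mem fun e he => ?_
    have s' : s ∈ KK := mem_algebraicClosure_iff.2 hsa
    rw [hu]
    exact add_mem (mul_mem s' (alg_hh (mem_Rt.1 he) hS)) (mul_mem s' (alg_hh (mem_Rt.1 he) hS'))
  have ev : ∀ ρ : G, 2 • kx χ S ρ = 0 → 2 • kx χ S' ρ = 0 →
      ρ w = sg (η ρ) * (mm u g (kx χ S ρ + kx χ S' ρ) * w) := fun ρ c d => by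
    have k := (st ρ c d).1
    rw [← hw, map_pow, ← mul_pow, mul_comm w, sq_eq_sq_iff_eq_or_eq_neg] at k
    rw [sg]
    split_ifs with e
    · rw [one_mul]
      exact (hη ρ).1 e
    · rw [neg_one_mul]
      exact k.resolve_left fun k' => e ((hη ρ).2 k')
  have c1 := kx_mul hs hχ S σ a'
  have c2 := kx_mul hs hχ S' σ b'
  have d1 : 2 • kx χ S (σ * τ) = 0 := c1 ▸ two_add a (two_smul' σ a')
  have d2 : 2 • kx χ S' (σ * τ) = 0 := c2 ▸ two_add b (two_smul' σ b')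
  have e1 := ev _ d1 d2
  have e2 := (st σ a b).2 _ (two_add a' b')
  have e3 : kx χ S (σ * τ) + kx χ S' (σ * τ) =
      kx χ S σ + kx χ S' σ + σ • (kx χ S τ + kx χ S' τ) := by rw [c1, c2, smul_add]; abel
  have m0 := mm_ne u0 g0 (two_add d1 d2)
  rw [RingAut.mul_apply, ev τ a' b', map_mul, map_mul, map_sg, ev σ a b] at e1
  rw [← e3] at e2
  refine sg_inj (mul_right_cancel₀ (mul_ne_zero m0 w0) ?_)
  rw [sg_add, sg_add]
  linear_combination -e1 + sg (η σ) * sg (η τ) * w * e2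

/-- ISO. -/
theorem iso (hs : s ≠ 0) (hsa : IsAlgebraic ℚ s)
    (hχ : ∀ σ : G, (χ σ = 1 ∨ χ σ = -1) ∧ σ s = χ σ * s) {S S' : Pt} (hS : AlgP S)
    (hS' : AlgP S') :
    ∃ (η : G → ZMod 2) (J : Finset ℂ), (∀ z ∈ J, IsAlgebraic ℚ z) ∧
      (∀ σ τ : G, (∀ z ∈ J, σ z = τ z) → η σ = η τ) ∧
      ∀ σ τ : G, 2 • kx χ S σ = 0 → 2 • kx χ S' σ = 0 → 2 • kx χ S τ = 0 → 2 • kx χ S' τ = 0 →
        η (σ * τ) = η σ + η τ + ep (kx χ S σ) (σ • kx χ S' τ) := by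
  classical
  have z2 : ∀ a : ZMod 2, a + a = 0 := by decide
  have cob : ∀ {T : Pt} (σ : G), 2 • T = 0 → kx χ T σ = σ • T + T := fun σ hT => by
    rw [kx, chi_two hχ σ (two_smul' σ hT), sub_eq_add_neg, neg_two hT]
  have fin : ∀ (w : ℂ) (T : Pt) (F : ℂ → Pt → Pt → Pt → ZMod 2), IsAlgebraic ℚ w → AlgP T →
      ∃ J : Finset ℂ, (∀ z ∈ J, IsAlgebraic ℚ z) ∧ ∀ σ τ : G, (∀ z ∈ J, σ z = τ z) →
        F (σ w) (σ • T) (kx χ S σ) (kx χ S' σ) = F (τ w) (τ • T) (kx χ S τ) (kx χ S' τ) := by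
    intro w T F hw hT
    refine ⟨{w, s, xc T, yc T, xc S, yc S, xc S', yc S'}, fun z hz => ?_, fun σ τ h => ?_⟩
    · simp only [Finset.mem_insert, Finset.mem_singleton] at hz
      rcases hz with rfl | rfl | rfl | rfl | rfl | rfl | rfl | rfl
      exacts [hw, hsa, hT.1, hT.2, hS.1, hS.2, hS'.1, hS'.2]
    · simp only [Finset.mem_insert, Finset.mem_singleton, forall_eq_or_imp, forall_eq] at h
      obtain ⟨h1, h2, h3, h4, h5, h6, h7, h8⟩ := h
      rw [h1, smul_congr h3 h4, kx_congr hs hχ h2 h5 h6, kx_congr hs hχ h2 h7 h8]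
  by_cases h2 : 2 • S = 0
  · obtain ⟨J, j1, j2⟩ := fin 0 S (fun _ _ _ y => ep S y) isAlgebraic_zero hS
    refine ⟨fun σ => ep S (kx χ S' σ), J, j1, j2, fun σ τ _ b _ b' => ?_⟩
    have t := two_smul' σ b'
    simp only []
    rw [kx_mul hs hχ S' σ b', ep_add_right h2 b t, cob σ h2, ep_add_left (two_smul' σ h2) h2 t,
      ep_smul]
    linear_combination -z2 (ep S (kx χ S' τ))
  have near : ∀ T : Pt, AlgP T → 2 • T = 0 → ∀ a : ZMod 2,
      (∀ σ, 2 • kx χ S σ = 0 → ∀ U : Pt, 2 • U = 0 → ∀ ρ : G,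
        ep U (ρ • kx χ S' σ) = a * ep U (ρ • kx χ S σ) + ep U (ρ • kx χ T σ)) →
      ∃ (η : G → ZMod 2) (J : Finset ℂ), (∀ z ∈ J, IsAlgebraic ℚ z) ∧
      (∀ σ τ : G, (∀ z ∈ J, σ z = τ z) → η σ = η τ) ∧
      ∀ σ τ : G, 2 • kx χ S σ = 0 → 2 • kx χ S' σ = 0 → 2 • kx χ S τ = 0 → 2 • kx χ S' τ = 0 →
        η (σ * τ) = η σ + η τ + ep (kx χ S σ) (σ • kx χ S' τ) := by
    intro T hT t2 a h
    obtain ⟨J, j1, j2⟩ := fin 0 T (fun _ t x _ => a * qf x + ep x t) isAlgebraic_zero hT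
    refine ⟨fun σ => a * qf (kx χ S σ) + ep (kx χ S σ) (σ • T), J, j1, j2,
      fun σ τ b _ b' _ => ?_⟩
    have t := two_smul' σ b'
    simp only []
    rw [h τ b' _ b, kx_mul hs hχ S σ b', qf_add t, qf_smul, mul_smul,
      ep_add_left b t (two_smul' σ (two_smul' τ t2)), ep_smul, cob τ t2, smul_add,
      ep_add_right b (two_smul' σ (two_smul' τ t2)) (two_smul' σ t2)]
    linear_combination -z2 (ep (kx χ S σ) (σ • T))
  by_cases h2' : 2 • S' = 0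
  · exact near S' hS' h2' 0 fun σ _ U _ ρ => by simp
  by_cases hx : xc (2 • S) = xc (2 • S')
  · have hA := r1_thm.1
    rcases eq_or_neg_of_xc h2 h2' hx with e | e
    · have t2 : 2 • (S' - S) = 0 := by rw [smul_sub, e, sub_self]
      refine near (S' - S) (sub_eq_add_neg S' S ▸ hA.2.1 _ _ hS' (hA.2.2.1 _ hS)) t2 1
        fun σ b U hU ρ => ?_
      have t3 : 2 • kx χ (S' - S) σ = 0 := cob σ t2 ▸ two_add (two_smul' σ t2) t2
      rw [one_mul, ← ep_add_right hU (two_smul' ρ b) (two_smul' ρ t3), ← smul_add]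
      congr 2
      simp only [kx, smul_sub]
      abel
    · have t2 : 2 • (S' + S) = 0 := by rw [smul_add, e, add_neg_cancel]
      refine near (S' + S) (hA.2.1 _ _ hS' hS) t2 1 fun σ b U hU ρ => ?_
      have t3 : 2 • kx χ (S' + S) σ = 0 := cob σ t2 ▸ two_add (two_smul' σ t2) t2
      rw [one_mul, ← ep_add_right hU (two_smul' ρ b) (two_smul' ρ t3), ← smul_add]
      congr 2
      conv_rhs => rw [← neg_two b]
      simp only [kx, smul_add]
      abel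
  obtain ⟨w, μ, hw, h⟩ := main hs hsa hχ hS hS' h2 h2' hx
  obtain ⟨J, j1, j2⟩ := fin w S (fun z _ x y => (if z = μ (x + y) * w then 0 else 1) + qf x) hw hS
  refine ⟨fun σ => (if σ w = μ (kx χ S σ + kx χ S' σ) * w then 0 else 1) + qf (kx χ S σ), J, j1,
    j2, fun σ τ a b a' b' => ?_⟩
  have k := h (fun σ => if σ w = μ (kx χ S σ + kx χ S' σ) * w then 0 else 1) (fun σ => by simp)
    σ τ a b a' b'
  simp only [] at k ⊢
  rw [k, kx_mul hs hχ S σ a', qf_add (two_smul' σ a'), qf_smul, smul_add,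
    ep_add_right a (two_smul' σ a') (two_smul' σ b')]
  linear_combination z2 (ep (kx χ S σ) (σ • kx χ S τ))

end Main

end Pool.Agent.Lib.MP_d6ddbd_nt.KI.Ep
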