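import Pool.Agent.Lib.MP_d6ddbd_nt.K11.V1
import Pool.Agent.Lib.MP_d6ddbd_nt.K11.V2
import Pool.Agent.Lib.MP_d6ddbd_nt.K11.V4

/-!
Local tools: conjugacy of places, finiteness of ramification, density of the Weil group in the
decomposition group.
-/

set_option autoImplicit false

open NumberField IsDedekindDomain Filter Pointwise
open Pool.Agent.Stark (Pr og)
open Pool.Agent.Lib.MP_9177b7_ag

noncomputable section

namespace Pool.Agent.Lib.MP_d6ddbd_nt.K11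

namespace Loc0

variable {O O' : ValuationSubring ℂ}

theorem alg_emb {K : Type} [Field K] [NumberField K] (j : K →+* ℂ) (x : K) :
    IsAlgebraic ℚ (j x) := (Algebra.IsAlgebraic.isAlgebraic (R := ℚ) x).algHom j.toRatAlgHom

theorem prime_iff {K : Type} [Field K] [NumberField K] {j : K →+* ℂ} {𝔭 : Pr K}
    (h : ∀ a ∈ 𝔭.asIdeal, j a ∈ O.nonunits) (a : 𝓞 K) : j a ∈ O.nonunits ↔ a ∈ 𝔭.asIdeal :=
  ⟨fun h1 => by_contra fun h2 => by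
    rw [O.mem_nonunits_iff, V1.unit h h2] at h1
    exact lt_irrefl _ h1, h a⟩

/-- An automorphism of a Galois number field lifts to `ℂ`. -/
theorem lift {K : Type} [Field K] [NumberField K] (j : K →+* ℂ) (g : K ≃ₐ[ℚ] K) :
    ∃ σ : G, ∀ y, σ (j y) = j (g y) := V4.conj K j (j.comp (g : K →+* K))

theorem nu_iff {g : G} (h : ∀ x, IsAlgebraic ℚ x → (x ∈ O' ↔ g x ∈ O)) {x : ℂ}
    (hx : IsAlgebraic ℚ x) : x ∈ O'.nonunits ↔ g x ∈ O.nonunits := by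
  rw [ValuationSubring.mem_nonunits_iff_or, ValuationSubring.mem_nonunits_iff_or, h _ hx.inv,
    map_inv₀, map_eq_zero]

theorem tr_fin {v : ℕ} (hv : v.Prime) (h : Ov O v) (h' : Ov O' v) (J : Finset ℂ) : ∃ g : G,
    ∀ x ∈ J, IsAlgebraic ℚ x → (x ∈ O' ↔ g x ∈ O) := by
  have : Fact v.Prime := ⟨hv⟩
  obtain ⟨K, _, _, _, j, hj⟩ := CM.Frob.exists_field {x | x ∈ J ∧ IsAlgebraic ℚ x}
    (J.finite_toSet.subset fun _ hx => hx.1) fun _ hx => hx.2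
  obtain ⟨𝔭, h1, h2⟩ := V1.ex_prime j hv h
  obtain ⟨𝔮, h3, h4⟩ := V1.ex_prime j hv h'
  have := 𝔭.isPrime
  have := 𝔮.isPrime
  have un : ∀ 𝔯 : Pr K, (v : 𝓞 K) ∈ 𝔯.asIdeal → Ideal.span {(v : ℤ)} = 𝔯.asIdeal.under ℤ :=
    fun 𝔯 h5 => have := 𝔯.isPrime
      (inferInstance : (Ideal.span {(v : ℤ)}).IsMaximal).eq_of_le (Ideal.IsPrime.ne_top')
        ((Ideal.span_singleton_le_iff_mem _).2 (by simpa using h5))
  obtain ⟨g, hg⟩ := Algebra.IsInvariant.exists_smul_of_under_eq ℤ (𝓞 K) (K ≃ₐ[ℚ] K)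
    𝔮.asIdeal 𝔭.asIdeal ((un 𝔮 h3).symm.trans (un 𝔭 h1))
  obtain ⟨σ, hσ⟩ := lift j g
  have h5 : Below (j.comp (g : K →+* K)) O 𝔮 := V1.below fun a ha => by
    have := h2 (g • a) (hg ▸ Ideal.smul_mem_pointwise_smul g a _ ha)
    exact this
  refine ⟨σ, fun x hx ha => ?_⟩
  obtain ⟨y, rfl⟩ := hj x ⟨hx, ha⟩
  by_cases h0 : y = 0
  · simp [h0]
  rw [hσ, V1.below h4 y h0]
  exact (h5 y h0).symm

/-- Places over the same prime are conjugate on the algebraic numbers. -/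
theorem tr0 {v : ℕ} (hv : v.Prime) (h : Ov O v) (h' : Ov O' v) :
    ∃ g : G, ∀ x, IsAlgebraic ℚ x → (x ∈ O' ↔ g x ∈ O) := by
  choose Φ hΦ using tr_fin hv h h'
  obtain ⟨σ, hσ⟩ := V1.lim (Ultrafilter.of atTop) Φ
  refine ⟨σ, fun x ha => ?_⟩
  obtain ⟨J, h1, h2⟩ := ((hσ x ha).and ((eventually_ge_atTop ({x} : Finset ℂ)).filter_mono
    (Ultrafilter.of_le _))).exists
  rw [← h1]
  exact hΦ J x (h2 (Finset.mem_singleton_self x)) ha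

theorem frob_conj {g : G} (h : ∀ x, IsAlgebraic ℚ x → (x ∈ O' ↔ g x ∈ O)) (Q : ℕ) (σ : G) :
    Frob O' Q σ ↔ Frob O Q (g * σ * g⁻¹) := by
  have e : ∀ x, (g * σ * g⁻¹) (g x) = g (σ x) := fun x =>
    congrArg (fun z => g (σ z)) (g.symm_apply_apply x)
  constructor
  · intro h1 z hz hO
    obtain ⟨x, rfl⟩ := g.surjective z
    have hx : IsAlgebraic ℚ x := by
      have := V2.alg g⁻¹ hz
      rwa [show g⁻¹ (g x) = x from g.symm_apply_apply x] at this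
    obtain ⟨a1, a2⟩ := h1 x hx ((h x hx).2 hO)
    rw [e, ← map_pow, ← map_sub]
    exact ⟨(h _ (V2.alg σ hx)).1 a1, (nu_iff h ((V2.alg σ hx).sub (hx.pow Q))).1 a2⟩
  · intro h1 x hx hO
    obtain ⟨a1, a2⟩ := h1 (g x) (V2.alg g hx) ((h x hx).1 hO)
    rw [e] at a1
    rw [e, ← map_pow, ← map_sub] at a2
    exact ⟨(h _ (V2.alg σ hx)).2 a1, (nu_iff h ((V2.alg σ hx).sub (hx.pow Q))).2 a2⟩

/-- TR: places over the same prime are conjugate. -/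
theorem tr {v : ℕ} (hv : v.Prime) (h : Ov O v) (h' : Ov O' v) :
    ∃ g : G, (∀ x, IsAlgebraic ℚ x → (x ∈ O' ↔ g x ∈ O) ∧ (x ∈ O'.nonunits ↔ g x ∈ O.nonunits)) ∧
      ∀ (Q : ℕ) (σ : G), Frob O' Q σ ↔ Frob O Q (g * σ * g⁻¹) := by
  obtain ⟨g, hg⟩ := tr0 hv h h'
  exact ⟨g, fun x hx => ⟨hg x hx, nu_iff hg hx⟩, frob_conj hg⟩

/-- RAM: a finite set of algebraic numbers is fixed by inertia at all large primes. -/
theorem ram (J : Finset ℂ) (hJ : ∀ x ∈ J, IsAlgebraic ℚ x) : ∃ N : ℕ, ∀ v : ℕ, v.Prime → N < v →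
    ∀ O, Ov O v → ∀ σ : G, Frob O 1 σ → ∀ x ∈ J, σ x = x := by
  obtain ⟨K, _, _, _, j, hj⟩ := CM.Frob.exists_field J J.finite_toSet hJ
  obtain ⟨N, hN⟩ := eventually_atTop.1 (V4.sep K)
  refine ⟨N, fun v hv hN' O h σ hσ x hx => ?_⟩
  obtain ⟨𝔭, h1, h2⟩ := V1.ex_prime j hv h
  obtain ⟨σ₀, h0⟩ := V4.res j σ
  have h3 : σ₀ = 1 := hN v hN'.le σ₀ 1 hv 𝔭.asIdeal 𝔭.isPrime h1 fun a => by
    have h4 := (hσ (j a) (alg_emb j _) (V1.int_mem j O a)).2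
    rw [pow_one, ← h0, ← map_sub] at h4
    exact (prime_iff h2 _).1 h4
  obtain ⟨y, rfl⟩ := hj x hx
  rw [← h0, h3]
  rfl

theorem cong_frac {K : Type} [Field K] [NumberField K] {j : K →+* ℂ} {𝔭 : Pr K} {Q : ℕ}
    {σ : G} (h2 : ∀ a ∈ 𝔭.asIdeal, j a ∈ O.nonunits)
    (h4 : ∀ a : 𝓞 K, σ (j a) - j a ^ Q ∈ O.nonunits) (h00 : Q ≠ 0) (x : K) (hx : j x ∈ O) :
    σ (j x) - j x ^ Q ∈ O.nonunits := by
  by_cases h0 : x = 0
  · simp [h0, h00]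
  obtain ⟨n, d, hd⟩ := 𝔭.exists_primeCompl_mul_eq_of_integer x
    ((V1.og_iff 𝔭 h0).1 ((V1.below h2 x h0).1 hx))
  have hd' : x * ((d : 𝓞 K) : K) = n := hd
  have d1 : j (d : 𝓞 K) ^ Q ∉ O.nonunits := fun e => d.2 ((prime_iff h2 _).1 (V2.nu_of_pow e))
  have d2 : σ (j (d : 𝓞 K)) ∉ O.nonunits := fun e => d1 (by simpa using sub_mem e (h4 d))
  refine V2.nu_of_mul ?_ d2
  have e1 : σ (j (d : 𝓞 K)) * (σ (j x) - j x ^ Q) =
      (σ (j n) - j n ^ Q) - j x ^ Q * (σ (j (d : 𝓞 K)) - j (d : 𝓞 K) ^ Q) := by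
    rw [← hd', map_mul, map_mul]
    ring
  rw [e1]
  exact sub_mem (h4 n) (V2.mul_nu (pow_mem hx Q) (h4 d))

theorem dec_fin {v : ℕ} (hv : v.Prime) (h : Ov O v) {σ : G}
    (hσ : ∀ x, IsAlgebraic ℚ x → (x ∈ O ↔ σ x ∈ O)) (J : Finset ℂ) : ∃ n : ℕ, ∀ x ∈ J,
      IsAlgebraic ℚ x → x ∈ O → σ x - x ^ v ^ n ∈ O.nonunits := by
  have : Fact v.Prime := ⟨hv⟩
  obtain ⟨K, _, _, _, j, hj⟩ := CM.Frob.exists_field {x | x ∈ J ∧ IsAlgebraic ℚ x}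
    (J.finite_toSet.subset fun _ hx => hx.1) fun _ hx => hx.2
  obtain ⟨𝔭, h1, h2⟩ := V1.ex_prime j hv h
  obtain ⟨σ₀, h0⟩ := V4.res j σ
  have := 𝔭.isMaximal
  let _ := Ideal.Quotient.field 𝔭.asIdeal
  have : Finite (𝓞 K ⧸ 𝔭.asIdeal) := Ideal.finiteQuotientOfFreeOfNeBot _ 𝔭.ne_bot
  have : CharP (𝓞 K ⧸ 𝔭.asIdeal) v := (CharP.charP_iff_prime_eq_zero hv).2 (by
    rw [← map_natCast (Ideal.Quotient.mk 𝔭.asIdeal), Ideal.Quotient.eq_zero_iff_mem]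
    exact h1)
  let _ := ZMod.algebra (𝓞 K ⧸ 𝔭.asIdeal) v
  let f : (𝓞 K ⧸ 𝔭.asIdeal) →+* 𝓞 K ⧸ 𝔭.asIdeal := Ideal.quotientMap 𝔭.asIdeal
    (MulSemiringAction.toRingHom (K ≃ₐ[ℚ] K) (𝓞 K) σ₀) fun a ha => by
      refine (prime_iff h2 _).1 ?_
      have := (nu_iff hσ (alg_emb j (a : K))).1 (h2 a ha)
      rw [← h0] at this
      exact this
  obtain ⟨n, hn⟩ := (FiniteField.bijective_frobeniusAlgHom_pow (ZMod v) (𝓞 K ⧸ 𝔭.asIdeal)).2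
    ⟨f, fun c => RingHom.congr_fun
      (Subsingleton.elim (f.comp (algebraMap (ZMod v) _)) (algebraMap (ZMod v) _)) c⟩
  refine ⟨n, fun x hx ha hO => ?_⟩
  obtain ⟨y, rfl⟩ := hj x ⟨hx, ha⟩
  refine cong_frac h2 (fun a => ?_) (pow_ne_zero _ hv.ne_zero) y hO
  have h5 := AlgHom.congr_fun hn (Ideal.Quotient.mk _ a)
  simp only [AlgHom.coe_pow, FiniteField.coe_frobeniusAlgHom, pow_iterate, ZMod.card] at h5
  have h6 : Ideal.Quotient.mk 𝔭.asIdeal (σ₀ • a) = Ideal.Quotient.mk _ (a ^ v ^ (n : ℕ)) := by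
    rw [map_pow]
    exact h5.symm
  have h7 := h2 _ (Ideal.Quotient.eq.1 h6)
  rw [← h0, ← map_pow, ← map_sub]
  exact h7

theorem frob_pow {v : ℕ} {φ : G} (hφ : Frob O v φ) (n : ℕ) : Frob O (v ^ n) (φ ^ n) := by
  induction n with
  | zero => exact fun x _ hx => ⟨hx, by simp⟩
  | succ n ih => rw [pow_succ, pow_succ]; exact V2.c1 ih hφ

/-- DEC: an automorphism that stabilises the place agrees on a finite set with an element of the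
Weil group. -/
theorem dec {v : ℕ} (hv : v.Prime) (h : Ov O v) {σ : G}
    (hσ : ∀ x, IsAlgebraic ℚ x → (x ∈ O ↔ σ x ∈ O)) (J : Finset ℂ)
    (hJ : ∀ x ∈ J, IsAlgebraic ℚ x) :
    ∃ (n : ℕ) (τ : G), Frob O (v ^ n) τ ∧ ∀ x ∈ J, τ x = σ x := by
  obtain ⟨φ, hφ⟩ := V1.frob hv h
  choose n hn using dec_fin hv h hσ
  obtain ⟨ι, hι⟩ := V1.lim (Ultrafilter.of atTop) fun I => (φ ^ n I)⁻¹ * σ
  have h1 : Frob O 1 ι := fun x ha hx => by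
    obtain ⟨I, h1, h2⟩ := ((hι x ha).and ((eventually_ge_atTop ({x} : Finset ℂ)).filter_mono
      (Ultrafilter.of_le _))).exists
    have e : (φ ^ n I) (ι x) = σ x := h1 ▸ (φ ^ n I).apply_symm_apply _
    have a0 := V2.alg ι ha
    have a3 := (V2.c2 (frob_pow hφ (n I)) (pow_ne_zero _ hv.ne_zero) a0).1.1
      (e ▸ (hσ x ha).1 hx)
    have a4 := sub_mem (hn I x (h2 (Finset.mem_singleton_self x)) ha hx)
      (e ▸ (frob_pow hφ (n I) _ a0 a3).2)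
    rw [sub_sub_sub_cancel_left] at a4
    exact ⟨a3, by rw [pow_one]; exact V2.sub_of_pow hv h _ a3 hx a4⟩
  obtain ⟨I, hI⟩ := ((eventually_all_finset J).2 fun x hx => hι x (hJ x hx)).exists
  refine ⟨n I, φ ^ n I * ι, by simpa using V2.c1 (frob_pow hφ (n I)) h1, fun x hx => ?_⟩
  rw [RingAut.mul_apply, ← hI x hx]
  exact (φ ^ n I).apply_symm_apply _

end Loc0

end Pool.Agent.Lib.MP_d6ddbd_nt.K11
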