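import Pool.Agent.Lib.MP_d6ddbd_nt.K11.V3
import Pool.Agent.Lib.MP_d6ddbd_nt.KI.Loc0

/-!
Local tools: homomorphisms of tame inertia, unramified two-cocycles.
-/

set_option autoImplicit false

open NumberField IsDedekindDomain
open Pool.Agent.Lib.MP_9177b7_ag

noncomputable section

namespace Pool.Agent.Lib.MP_d6ddbd_nt.K11

namespace Loc0

variable {O : ValuationSubring ℂ}

theorem in_one : Frob O 1 1 := fun x _ hx => ⟨hx, by simp⟩

theorem in_mul {σ τ : G} (h : Frob O 1 σ) (h' : Frob O 1 τ) : Frob O 1 (σ * τ) := V2.c1 h h'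

theorem in_inv {v : ℕ} (hv : v.Prime) (hO : Ov O v) {σ : G} (h : Frob O 1 σ) : Frob O 1 σ⁻¹ := by
  simpa using V2.c3 (n := 0) hv hO h in_one

/-- The inertia group of a place. -/
def inertia {v : ℕ} (hv : v.Prime) (hO : Ov O v) : Subgroup G where
  carrier := {σ | Frob O 1 σ}
  one_mem' := in_one
  mul_mem' := in_mul
  inv_mem' := in_inv hv hO

/-- A continuous quadratic character of a subgroup is the character of a square root. -/
theorem quad (H : Subgroup G) (χ : G → ZMod 2) (J : Finset ℂ) (ha : ∀ x ∈ J, IsAlgebraic ℚ x)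
    (hm : ∀ σ ∈ H, ∀ τ ∈ H, χ (σ * τ) = χ σ + χ τ)
    (hJ : ∀ σ ∈ H, (∀ x ∈ J, σ x = x) → χ σ = 0) :
    ∃ s : ℂ, s ≠ 0 ∧ IsAlgebraic ℚ s ∧ ∀ σ ∈ H, (χ σ = 0 → σ s = s) ∧ (χ σ ≠ 0 → σ s = -s) := by
  by_cases h0 : ∀ σ ∈ H, χ σ = 0
  · exact ⟨1, one_ne_zero, isAlgebraic_one, fun σ hσ => by simp [h0 σ hσ]⟩
  push Not at h0
  obtain ⟨g, hg, hg1⟩ := h0
  have two : ∀ a b : ZMod 2, a ≠ 0 → b ≠ 0 → a + b = 0 := by decide
  have can : ∀ (σ : G) (z : ℂ), σ (σ⁻¹ z) = z := fun σ z => σ.apply_symm_apply z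
  have χ1 : χ 1 = 0 := hJ 1 H.one_mem fun _ _ => rfl
  have χi : ∀ σ ∈ H, χ σ⁻¹ = χ σ := fun σ h => by
    have h1 := hm σ h σ⁻¹ (H.inv_mem h)
    rw [mul_inv_cancel, χ1] at h1
    revert h1
    generalize χ σ = a
    generalize χ σ⁻¹ = b
    revert a b
    decide
  obtain ⟨K, _, _, _, j, hj⟩ := CM.Frob.exists_field J J.finite_toSet ha
  let Γ : Subgroup (K ≃ₐ[ℚ] K) :=
    { carrier := {τ | ∃ σ ∈ H, χ σ = 0 ∧ ∀ z, j (τ z) = σ (j z)}
      one_mem' := ⟨1, H.one_mem, χ1, fun _ => rfl⟩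
      mul_mem' := by
        rintro a b ⟨σ, h1, h2, h3⟩ ⟨τ, h4, h5, h6⟩
        exact ⟨σ * τ, H.mul_mem h1 h4, by rw [hm σ h1 τ h4, h2, h5, add_zero], fun z => by
          rw [AlgEquiv.mul_apply, h3, h6]; rfl⟩
      inv_mem' := by
        rintro a ⟨σ, h1, h2, h3⟩
        exact ⟨σ⁻¹, H.inv_mem h1, by rw [χi σ h1, h2], fun z => σ.injective (by
          rw [can, ← h3]; exact congrArg j (a.apply_symm_apply z))⟩ }
  obtain ⟨g₀, hg₀⟩ := V4.res j g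
  have hn : g₀ ∉ Γ := by
    rintro ⟨σ, h1, h2, h3⟩
    have h4 := hJ (g⁻¹ * σ) (H.mul_mem (H.inv_mem hg) h1) fun x hx => by
      obtain ⟨z, rfl⟩ := hj x hx
      exact g.injective (by rw [RingAut.mul_apply, can, ← h3, hg₀])
    rw [hm _ (H.inv_mem hg) _ h1, χi g hg, h2, add_zero] at h4
    exact hg1 h4
  rw [← IntermediateField.fixingSubgroup_fixedField Γ,
    IntermediateField.mem_fixingSubgroup_iff] at hn
  push Not at hn
  obtain ⟨y, hy, hgy⟩ := hn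
  have f0 : ∀ σ ∈ H, χ σ = 0 → σ (j y) = j y := fun σ h1 h2 => by
    obtain ⟨τ, hτ⟩ := V4.res j σ
    rw [← hτ, (IntermediateField.mem_fixedField_iff Γ y).1 hy τ ⟨σ, h1, h2, hτ⟩]
  refine ⟨j y - g (j y), fun h => hgy (j.injective (by rw [hg₀, ← sub_eq_zero.1 h])),
    (alg_emb j y).sub (V2.alg g (alg_emb j y)), fun σ h1 => ⟨fun h2 => ?_, fun h2 => ?_⟩⟩
  · have h3 := f0 (g⁻¹ * (σ * g)) (H.mul_mem (H.inv_mem hg) (H.mul_mem h1 hg)) (by
      rw [hm _ (H.inv_mem hg) _ (H.mul_mem h1 hg), hm _ h1 _ hg, χi g hg, h2, zero_add,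
        two _ _ hg1 hg1])
    have h4 := congrArg g h3
    rw [RingAut.mul_apply, can, RingAut.mul_apply] at h4
    rw [map_sub, f0 σ h1 h2, h4]
  · have h3 := f0 (σ * g) (H.mul_mem h1 hg) (by rw [hm _ h1 _ hg, two _ _ h2 hg1])
    have h4 := congrArg g (f0 (g⁻¹ * σ) (H.mul_mem (H.inv_mem hg) h1) (by
      rw [hm _ (H.inv_mem hg) _ h1, χi g hg, two _ _ hg1 h2]))
    rw [RingAut.mul_apply, can] at h4
    rw [RingAut.mul_apply] at h3
    rw [map_sub, h3, h4, neg_sub]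

theorem val_int {v : ℕ} (hv : v.Prime) (hO : Ov O v) {c : ℤ} (hc : ¬ (v : ℤ) ∣ c) :
    O.valuation (c : ℂ) = 1 :=
  le_antisymm ((O.valuation_le_one_iff _).2 (intCast_mem O c))
    (not_lt.1 fun h => V2.int_not hv hO hc (O.mem_nonunits_iff.2 h))

theorem val_rat {v : ℕ} (hv : v.Prime) (hO : Ov O v) {y : ℚ} (hy : y ≠ 0) :
    ∃ i : ℤ, O.valuation (y : ℂ) = O.valuation (v : ℂ) ^ i := by
  have hp : Prime (v : ℤ) := Nat.prime_iff_prime_int.1 hv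
  have key : ∀ c : ℤ, c ≠ 0 → ∃ i : ℕ, O.valuation (c : ℂ) = O.valuation (v : ℂ) ^ i := fun c hc => by
    obtain ⟨i, a, ha, rfl⟩ := WfDvdMonoid.max_power_factor hc hp.irreducible
    exact ⟨i, by push_cast; rw [map_mul, map_pow, val_int hv hO ha, mul_one]⟩
  obtain ⟨i, hi⟩ := key y.num (Rat.num_ne_zero.2 hy)
  obtain ⟨k, hk⟩ := key y.den (by exact_mod_cast y.den_nz)
  have h0 : O.valuation (v : ℂ) ≠ 0 := by simpa using hv.ne_zero
  refine ⟨i - k, ?_⟩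
  rw [zpow_sub₀ h0, zpow_natCast, zpow_natCast, ← hi, ← hk, Rat.cast_def, map_div₀,
    Int.cast_natCast]

theorem fix_of_val {v : ℕ} (hv : v.Prime) (h2 : v ≠ 2) (hO : Ov O v) {t : ℂ} {σ : G} {i : ℤ}
    (hσ : Frob O 1 σ) (ha : IsAlgebraic ℚ t) (e : σ t = t ∨ σ t = -t)
    (h : O.valuation (t ^ 2) = O.valuation (v : ℂ) ^ (2 * i)) : σ t = t := by
  have h0 : (v : ℂ) ≠ 0 := by exact_mod_cast hv.ne_zero
  have h1 : O.valuation (t / (v : ℂ) ^ i) = 1 := by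
    refine (pow_eq_one_iff_of_nonneg zero_le two_ne_zero).1 ?_
    rw [← map_pow, div_pow, map_div₀, h, ← zpow_natCast, ← zpow_mul, map_zpow₀, mul_comm]
    exact div_self (zpow_ne_zero _ (by simpa using hv.ne_zero))
  have h3 : σ (t / (v : ℂ) ^ i) = σ t / (v : ℂ) ^ i := by rw [map_div₀, map_zpow₀, map_natCast]
  have h4 := V2.c6 (y := -(t / (v : ℂ) ^ i)) hσ
    (by rw [div_eq_mul_inv, ← zpow_neg, ← Rat.cast_natCast, ← Rat.cast_zpow]
        exact ha.mul (isAlgebraic_algebraMap _))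
    ((O.valuation_le_one_iff _).1 h1.le)
    (by rw [h3]; exact e.imp (fun e => by rw [e]) fun e => by rw [e, neg_div])
    (by
      rw [O.mem_nonunits_iff, sub_neg_eq_add, ← two_mul, map_mul, h1, mul_one,
        show (2 : ℂ) = ((2 : ℤ) : ℂ) by norm_num, val_int hv hO fun d =>
          h2 ((Nat.prime_dvd_prime_iff_eq hv Nat.prime_two).1 (by exact_mod_cast d))]
      exact lt_irrefl _)
  rw [h3] at h4
  exact (div_left_inj' (zpow_ne_zero i h0)).1 h4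

theorem le_two {v : ℕ} (hv : v.Prime) (h2 : v ≠ 2) (hO : Ov O v) (χ : G → ZMod 2) (J : Finset ℂ)
    (ha : ∀ x ∈ J, IsAlgebraic ℚ x)
    (hm : ∀ σ τ, Frob O 1 σ → Frob O 1 τ → χ (σ * τ) = χ σ + χ τ)
    (hJ : ∀ σ, Frob O 1 σ → (∀ x ∈ J, σ x = x) → χ σ = 0) {c : ℤ} {u : ℂ} {s0 : G}
    (hu : u ^ 2 = c) (c1 : (v : ℤ) ∣ c) (c2 : ¬ (v : ℤ) ^ 2 ∣ c) (h0 : Frob O 1 s0)
    (h1 : s0 u = -u) (h3 : χ s0 = 0) (σ : G) (hσ : Frob O 1 σ) : χ σ = 0 := by
  obtain ⟨s, s1, s2, hs⟩ := quad (inertia hv hO) χ J ha (fun σ a τ b => hm σ τ a b) hJ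
  have hs' : ∀ τ, Frob O 1 τ → τ s = s ∨ τ s = -s := fun τ hτ =>
    (em (χ τ = 0)).imp (hs τ hτ).1 (hs τ hτ).2
  obtain ⟨y, y0, y1, y2⟩ := v3_thm v1_thm ℚ (algebraMap ℚ ℂ) v O (s ^ 2) hv hO (s2.pow 2)
    (pow_ne_zero 2 s1) fun τ hτ _ => by
      rcases hs' τ hτ with e | e <;> rw [map_pow, e]
      exact neg_sq s
  obtain ⟨i, hi⟩ := val_rat hv hO y0
  have h4 : O.valuation (s ^ 2) = O.valuation (v : ℂ) ^ i := by
    have h5 : O.valuation (s ^ 2 / algebraMap ℚ ℂ y) = 1 :=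
      le_antisymm ((O.valuation_le_one_iff _).2 y1) (not_lt.1 fun h => y2 (O.mem_nonunits_iff.2 h))
    rw [map_div₀, div_eq_one_iff_eq (by simpa using y0)] at h5
    rw [h5, ← hi]
    rfl
  obtain ⟨m, rfl | rfl⟩ := Int.even_or_odd' i
  · by_contra h5
    have h6 := fix_of_val hv h2 hO hσ s2 (hs' σ hσ) h4
    rw [(hs σ hσ).2 h5] at h6
    exact s1 (by linear_combination -h6 / 2)
  · obtain ⟨c', rfl⟩ := c1
    have h5 : O.valuation (u ^ 2) = O.valuation (v : ℂ) := by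
      rw [hu]
      push_cast
      rw [map_mul, val_int hv hO fun d => c2 (by rw [sq]; exact mul_dvd_mul_left _ d), mul_one]
    have h6 : O.valuation (v : ℂ) ≠ 0 := by simpa using hv.ne_zero
    have h7 : s0 (s * u) = -(s * u) := by rw [map_mul, (hs s0 h0).1 h3, h1, mul_neg]
    have h8 := fix_of_val (i := m + 1) hv h2 hO h0 (s2.mul (V2.alg_of_sq hu)) (Or.inr h7) (by
      rw [mul_pow, map_mul, h4, h5, ← zpow_add_one₀ h6]
      congr 1
      ring)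
    rw [h7] at h8
    have h9 : u ≠ 0 := fun e => h6 (by rw [← h5, e]; simp)
    exact absurd (by linear_combination -h8 / 2) (mul_ne_zero s1 h9)

/-- LE: a continuous homomorphism from inertia at an odd prime to a group that is killed by a
power of two vanishes as soon as it vanishes at one element that moves a ramified square root. -/
theorem le {A : Type*} [AddCommGroup A] {v : ℕ} (hv : v.Prime) (h2 : v ≠ 2) (hO : Ov O v)
    (J : Finset ℂ) (ha : ∀ x ∈ J, IsAlgebraic ℚ x) {c : ℤ} {u : ℂ} {s0 : G}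
    (hu : u ^ 2 = c) (c1 : (v : ℤ) ∣ c) (c2 : ¬ (v : ℤ) ^ 2 ∣ c) (h0 : Frob O 1 s0)
    (h1 : s0 u = -u) (k : ℕ) (f : G → A)
    (hm : ∀ σ τ, Frob O 1 σ → Frob O 1 τ → f (σ * τ) = f σ + f τ)
    (hk : ∀ σ, Frob O 1 σ → 2 ^ k • f σ = 0)
    (hJ : ∀ σ, Frob O 1 σ → (∀ x ∈ J, σ x = x) → f σ = 0) (h3 : f s0 = 0) :
    ∀ σ, Frob O 1 σ → f σ = 0 := by
  induction k generalizing f with
  | zero => simpa using hk
  | succ k ih =>
    have h4 := ih (fun σ => 2 • f σ) (fun σ τ a b => by rw [hm σ τ a b, smul_add])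
      (fun σ a => by rw [smul_smul, ← pow_succ, hk σ a]) (fun σ a b => by rw [hJ σ a b, smul_zero])
      (by rw [h3, smul_zero])
    classical
    let _ : Module (ZMod 2) (AddSubgroup.torsionBy A (2 : ℕ)) := AddSubgroup.torsionBy.zmodModule
    let f' : G → AddSubgroup.torsionBy A (2 : ℕ) := fun σ =>
      if h : Frob O 1 σ then ⟨f σ, AddSubgroup.torsionBy.nsmul_iff.2 (h4 σ h)⟩ else 0
    have e : ∀ σ, Frob O 1 σ → (f' σ : A) = f σ := fun σ h => by simp only [f', dif_pos h]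
    intro σ hσ
    rw [← e σ hσ, ZeroMemClass.coe_eq_zero, ← Module.forall_dual_apply_eq_zero_iff (ZMod 2)]
    intro l
    refine le_two hv h2 hO (fun σ => l (f' σ)) J ha (fun σ τ a b => ?_) (fun σ a b => ?_) hu c1 c2
      h0 h1 ?_ σ hσ
    · rw [← map_add]
      exact congrArg l (Subtype.ext (by
        rw [e _ (in_mul a b), AddSubgroup.coe_add, e _ a, e _ b, hm σ τ a b]))
    · rw [show f' σ = 0 from Subtype.ext ((e σ a).trans (hJ σ a b)), map_zero]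
    · rw [show f' s0 = 0 from Subtype.ext ((e s0 h0).trans h3), map_zero]

/-- The values of such a homomorphism are multiples of the value at the special element. -/
theorem le_cyc {A : Type*} [AddCommGroup A] {v : ℕ} (hv : v.Prime) (h2 : v ≠ 2) (hO : Ov O v)
    (J : Finset ℂ) (ha : ∀ x ∈ J, IsAlgebraic ℚ x) {c : ℤ} {u : ℂ} {s0 : G}
    (hu : u ^ 2 = c) (c1 : (v : ℤ) ∣ c) (c2 : ¬ (v : ℤ) ^ 2 ∣ c) (h0 : Frob O 1 s0)
    (h1 : s0 u = -u) (k : ℕ) (f : G → A)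
    (hm : ∀ σ τ, Frob O 1 σ → Frob O 1 τ → f (σ * τ) = f σ + f τ)
    (hk : ∀ σ, Frob O 1 σ → 2 ^ k • f σ = 0)
    (hJ : ∀ σ, Frob O 1 σ → (∀ x ∈ J, σ x = x) → f σ = 0) (σ : G) (hσ : Frob O 1 σ) :
    ∃ n : ℤ, f σ = n • f s0 := by
  have h := le hv h2 hO J ha hu c1 c2 h0 h1 k
    (fun σ => QuotientAddGroup.mk' (AddSubgroup.zmultiples (f s0)) (f σ))
    (fun σ τ a b => by rw [hm σ τ a b, map_add]) (fun σ a => by rw [← map_nsmul, hk σ a, map_zero])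
    (fun σ a b => by rw [hJ σ a b, map_zero])
    ((QuotientAddGroup.eq_zero_iff _).2 (AddSubgroup.mem_zmultiples _)) σ hσ
  obtain ⟨n, hn⟩ := AddSubgroup.mem_zmultiples_iff.1 ((QuotientAddGroup.eq_zero_iff _).1 h)
  exact ⟨n, hn.symm⟩

end Loc0

end Pool.Agent.Lib.MP_d6ddbd_nt.K11
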