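import Pool.Agent.Lib.MP_d6ddbd_nt.KI.Stmt
import Pool.Agent.Lib.MP_d6ddbd_nt.KI.Ep
import Pool.Agent.Lib.MP_d6ddbd_nt.KI.Loc1
import Pool.Agent.Lib.MP_d6ddbd_nt.K11.R2
import Pool.Agent.Lib.MP_d6ddbd_nt.K11.Cheb1
import Pool.Agent.Lib.MP_d6ddbd_nt.K11.Fin
import Pool.Agent.Lib.MP_d6ddbd_nt.K11.Link1
import Pool.Agent.Lib.MP_d6ddbd_nt.K11.KB1

/-!
The full two-converse for the quadratic twists of `X₀(11)`: basic calculus.
-/

set_option autoImplicit false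
set_option maxSynthPendingDepth 3

open Pool.Agent.Lib.MP_02f36d_nt (xc yc)
open Pool.Agent.Lib.MP_d6ddbd_nt.K11

noncomputable section

namespace Pool.Agent.Lib.MP_d6ddbd_nt.KI

theorem vA : VStmt := ⟨v1_thm, v2_thm, v3_thm v1_thm, v4_thm v1_thm⟩

theorem rA : RStmt := ⟨r1_thm, r2_thm v1_thm v2_thm r1_thm⟩

variable {c c' : ℤ} {σ τ : G} {k k' : ℕ} {x y : G → Pt} {O : ValuationSubring ℂ} {v : ℕ}
  {n : Finset ℕ}

/-! ### Quadratic characters -/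

theorem rt_alg (c : ℤ) : IsAlgebraic ℚ (rt c) := Cheb.alg_sq (rt_sq c)

theorem rt_ne (hc : c ≠ 0) : rt c ≠ 0 := fun h => hc (by
  have := rt_sq c
  rw [h] at this
  exact_mod_cast (by simpa using this.symm : (c : ℂ) = 0))

theorem rt_or (c : ℤ) (σ : G) : σ (rt c) = rt c ∨ σ (rt c) = -rt c := Fin.sq_or (rt_sq c) σ

theorem rt_neg (h : σ (rt c) ≠ rt c) : σ (rt c) = -rt c := (rt_or c σ).resolve_left h

theorem cq_or (c : ℤ) (σ : G) : cq c σ = 1 ∨ cq c σ = -1 := by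
  unfold cq; split_ifs <;> simp

theorem cq_eq_one : cq c σ = 1 ↔ σ (rt c) = rt c := by
  unfold cq; split_ifs with h <;> simp [h]

theorem cq_eq_neg : cq c σ = -1 ↔ σ (rt c) ≠ rt c := by
  unfold cq; split_ifs with h <;> simp [h]

theorem rt_map (c : ℤ) (σ : G) : σ (rt c) = cq c σ * rt c := by
  by_cases h : σ (rt c) = rt c
  · rw [cq_eq_one.2 h, h]; simp
  · rw [cq_eq_neg.2 h, rt_neg h]; simp

/-- The action on any square root of `c`. -/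
theorem sq_map {s : ℂ} (hs : s ^ 2 = c) (σ : G) : σ s = cq c σ * s := by
  rcases sq_eq_sq_iff_eq_or_eq_neg.1 (hs.trans (rt_sq c).symm) with rfl | rfl
  · exact rt_map c σ
  · rw [map_neg, rt_map]; ring

theorem cq_of (hc : c ≠ 0) {s : ℂ} (hs : s ^ 2 = c) {e : ℤ} (h : σ s = e * s) : cq c σ = e := by
  have s0 : s ≠ 0 := fun h0 => hc (by
    rw [h0] at hs
    exact_mod_cast (by simpa using hs.symm : (c : ℂ) = 0))
  exact_mod_cast mul_right_cancel₀ s0 ((sq_map hs σ).symm.trans h)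

theorem cq_zero (σ : G) : cq 0 σ = 1 := cq_eq_one.2 (by
  have : rt 0 = 0 := by simpa using rt_sq 0
  rw [this, map_zero])

theorem cq_mul (c : ℤ) (σ τ : G) : cq c (σ * τ) = cq c σ * cq c τ := by
  rcases eq_or_ne c 0 with rfl | hc
  · simp [cq_zero]
  · refine cq_of hc (rt_sq c) ?_
    show σ (τ (rt c)) = _
    rw [rt_map c τ, map_mul, map_intCast, rt_map c σ]; push_cast; ring

theorem cq_one (c : ℤ) : cq c 1 = 1 := cq_eq_one.2 rfl

theorem cq_sq (c : ℤ) (σ : G) : cq c σ * cq c σ = 1 := Fin.sgn_sq (cq_or c σ)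

theorem cq_two (c : ℤ) (σ : G) : cq c (σ * σ) = 1 := by rw [cq_mul, cq_sq]

theorem cq_inv (c : ℤ) (σ : G) : cq c σ⁻¹ = cq c σ := by
  have := cq_mul c σ σ⁻¹
  rw [mul_inv_cancel, cq_one] at this
  linear_combination cq c σ * this.symm - cq c σ⁻¹ * cq_sq c σ

theorem cq_conj (c : ℤ) (g σ : G) : cq c (g * σ * g⁻¹) = cq c σ := by
  rw [cq_mul, cq_mul, cq_inv]; linear_combination cq c σ * cq_sq c g

theorem cq_pow (c : ℤ) (σ : G) (a : ℕ) : cq c (σ ^ a) = cq c σ ^ a := by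
  induction a with
  | zero => simp [cq_one]
  | succ a ih => rw [pow_succ, cq_mul, ih, pow_succ]

theorem cq_congr (h : σ (rt c) = τ (rt c)) : cq c σ = cq c τ := by unfold cq; rw [h]

theorem cq_prod (hc : c ≠ 0) (hc' : c' ≠ 0) (σ : G) : cq (c * c') σ = cq c σ * cq c' σ :=
  cq_of (mul_ne_zero hc hc') (s := rt c * rt c') (by rw [mul_pow, rt_sq, rt_sq]; simp)
    (by rw [map_mul, rt_map, rt_map c']; push_cast; ring)

theorem cq_comm (c : ℤ) {h : G} (hh : h ∈ commutator G) : cq c h = 1 :=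
  cq_eq_one.2 ((Cheb.ab_sq (rt_sq c)).fix hh 1)

theorem cq_om {q : ℕ} : cq (-q) σ = 1 ↔ σ (om q) = om q := by
  have h := sq_map (Fin.om_sqi q) σ
  refine ⟨fun e => Fin.om_fix (by rw [h, e]; simp), fun e => ?_⟩
  rcases eq_or_ne q 0 with rfl | hq
  · simpa using cq_zero σ
  · exact cq_of (by simpa using hq) (Fin.om_sqi q)
      (by rw [map_sub, map_mul, map_ofNat, map_one, e]; simp)

theorem cq_qd {q : ℕ} {d : ℤ} (hq : q ≠ 0) (hd : d ≠ 0) (σ : G) :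
    cq (-(q * d)) σ = cq (-q) σ * cq d σ := by
  rw [← neg_mul, cq_prod (by simpa using hq) hd]

theorem cq_qd_fix {q : ℕ} {d : ℤ} (hq : q ≠ 0) (hd : d ≠ 0) (h : σ (om q) = om q) :
    cq (-(q * d)) σ = cq d σ := by rw [cq_qd hq hd, cq_om.2 h, one_mul]

theorem cq_qd_move {q : ℕ} {d : ℤ} (hq : q ≠ 0) (hd : d ≠ 0) (h : σ (om q) ≠ om q) :
    cq (-(q * d)) σ = -cq d σ := by
  rw [cq_qd hq hd, (cq_or _ σ).resolve_left fun e => h (cq_om.1 e), neg_one_mul]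

theorem ps_zero : ps c σ = 0 ↔ cq c σ = 1 := by
  unfold ps cq; split_ifs <;> simp

theorem ps_one : ps c σ = 1 ↔ cq c σ = -1 := by
  unfold ps cq; split_ifs <;> simp

theorem ps_mul (c : ℤ) (σ τ : G) : ps c (σ * τ) = ps c σ + ps c τ := by
  have h := cq_mul c σ τ
  rcases cq_or c σ with a | a <;> rcases cq_or c τ with b | b <;> rw [a, b] at h <;>
    norm_num at h <;> simp only [← ps_zero, ← ps_one] at a b h <;> rw [a, b, h] <;> decide

theorem ps_prod (hc : c ≠ 0) (hc' : c' ≠ 0) (σ : G) : ps (c * c') σ = ps c σ + ps c' σ := by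
  have h := cq_prod hc hc' σ
  rcases cq_or c σ with a | a <;> rcases cq_or c' σ with b | b <;> rw [a, b] at h <;>
    norm_num at h <;> simp only [← ps_zero, ← ps_one] at a b h <;> rw [a, b, h] <;> decide

theorem cq_ps (c : ℤ) (σ : G) : cq c σ = 1 - 2 * ((ps c σ).val : ℤ) := by
  unfold ps cq; split_ifs <;> rfl

/-! ### The twisted action -/

theorem tw_one (c : ℤ) (P : Pt) : tw c 1 P = P := by rw [tw, cq_one, one_smul, one_smul]

theorem tw_mul (c : ℤ) (σ τ : G) (P : Pt) : tw c (σ * τ) P = tw c σ (tw c τ P) := by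
  rw [tw, tw, tw, cq_mul, Fin.sm_z, mul_smul, mul_smul]

theorem tw_add (c : ℤ) (σ : G) (P Q : Pt) : tw c σ (P + Q) = tw c σ P + tw c σ Q := by
  rw [tw, tw, tw, smul_add, smul_add]

/-- The twisted action as a homomorphism. -/
def twh (c : ℤ) (σ : G) : Pt →+ Pt := AddMonoidHom.mk' (tw c σ) (tw_add c σ)

theorem twh_apply (c : ℤ) (σ : G) (P : Pt) : twh c σ P = tw c σ P := rfl

theorem tw_zero (c : ℤ) (σ : G) : tw c σ 0 = 0 := map_zero (twh c σ)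

theorem tw_neg (c : ℤ) (σ : G) (P : Pt) : tw c σ (-P) = -tw c σ P := map_neg (twh c σ) P

theorem tw_sub (c : ℤ) (σ : G) (P Q : Pt) : tw c σ (P - Q) = tw c σ P - tw c σ Q :=
  map_sub (twh c σ) P Q

theorem tw_n (c : ℤ) (σ : G) (a : ℕ) (P : Pt) : tw c σ (a • P) = a • tw c σ P :=
  map_nsmul (twh c σ) a P

theorem tw_z (c : ℤ) (σ : G) (a : ℤ) (P : Pt) : tw c σ (a • P) = a • tw c σ P :=
  map_zsmul (twh c σ) a P

theorem tw_inv (c : ℤ) (σ : G) (P : Pt) : tw c σ⁻¹ (tw c σ P) = P := by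
  rw [← tw_mul, inv_mul_cancel, tw_one]

theorem tw_inv' (c : ℤ) (σ : G) (P : Pt) : tw c σ (tw c σ⁻¹ P) = P := by
  rw [← tw_mul, mul_inv_cancel, tw_one]

theorem tw_eq_zero {P : Pt} : tw c σ P = 0 ↔ P = 0 :=
  ⟨fun h => by rw [← tw_inv c σ P, h, tw_zero], fun h => by rw [h, tw_zero]⟩

theorem tw_of (h : cq c σ = 1) (P : Pt) : tw c σ P = σ • P := by rw [tw, h, one_smul]

theorem tw_two (c : ℤ) (σ : G) {T : Pt} (h : 2 • T = 0) : tw c σ T = σ • T :=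
  Fin.sgn_two (Ep.two_smul' σ h) (cq_or c σ)

theorem tw_sq (c : ℤ) (σ : G) (P : Pt) : tw c (σ * σ) P = σ • σ • P := by
  rw [tw_of (cq_two c σ), mul_smul]

theorem tw_tor (c : ℤ) (σ : G) {a : ℕ} {T : Pt} (h : a • T = 0) : a • tw c σ T = 0 := by
  rw [← tw_n, h, tw_zero]

theorem sm_tor (σ : G) {a : ℕ} {T : Pt} (h : a • T = 0) : a • σ • T = 0 := by
  rw [← Fin.sm_n, h, smul_zero]

theorem tor_mono (h : k ≤ k') {T : Pt} (hT : 2 ^ k • T = 0) : 2 ^ k' • T = 0 := by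
  obtain ⟨j, rfl⟩ := Nat.exists_eq_add_of_le h
  rw [pow_add, mul_comm, mul_smul, hT, smul_zero]

theorem tor_one {T : Pt} : 2 ^ 1 • T = 0 ↔ 2 • T = 0 := by rw [pow_one]

theorem alg_zero : AlgP 0 := r1_thm.1.1

theorem alg_add {P Q : Pt} (h : AlgP P) (h' : AlgP Q) : AlgP (P + Q) := r1_thm.1.2.1 P Q h h'

theorem alg_neg {P : Pt} (h : AlgP P) : AlgP (-P) := r1_thm.1.2.2.1 P h

theorem alg_sub {P Q : Pt} (h : AlgP P) (h' : AlgP Q) : AlgP (P - Q) := by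
  rw [sub_eq_add_neg]; exact alg_add h (alg_neg h')

theorem alg_n (a : ℕ) {P : Pt} (h : AlgP P) : AlgP (a • P) := (KK.AlgS r1_thm).nsmul_mem h a

theorem alg_z (a : ℤ) {P : Pt} (h : AlgP P) : AlgP (a • P) := (KK.AlgS r1_thm).zsmul_mem h a

theorem alg_sm (σ : G) {P : Pt} (h : AlgP P) : AlgP (σ • P) := r1_thm.1.2.2.2.1 σ P h

theorem alg_tw (c : ℤ) (σ : G) {P : Pt} (h : AlgP P) : AlgP (tw c σ P) := alg_z _ (alg_sm σ h)

theorem alg_tor {T : Pt} (h : 2 ^ k • T = 0) : AlgP T := (Cheb.tors r1_thm k).2 T h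

theorem alg_of_pow {P : Pt} (h : AlgP (2 ^ k • P)) : AlgP P := by
  induction k generalizing P with
  | zero => simpa using h
  | succ k ih => exact r1_thm.1.2.2.2.2.1 P (ih (by rwa [pow_succ, mul_smul] at h))

theorem ex_div (k : ℕ) (P : Pt) : ∃ S : Pt, 2 ^ k • S = P := by
  induction k generalizing P with
  | zero => exact ⟨P, by simp⟩
  | succ k ih =>
    obtain ⟨Q, rfl⟩ := ih P
    obtain ⟨S, rfl⟩ := r1_thm.1.2.2.2.2.2 Q
    exact ⟨S, by rw [pow_succ, mul_smul]⟩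

theorem tw_congr {P : Pt} (h : σ (rt c) = τ (rt c)) (h1 : σ (xc P) = τ (xc P))
    (h2 : σ (yc P) = τ (yc P)) : tw c σ P = tw c τ P := by
  rw [tw, tw, cq_congr h, Ep.smul_congr h1 h2]

/-- There are no invariant torsion points. -/
theorem inv0 {T : Pt} (hT : 2 ^ k • T = 0) (h : ∀ σ, tw c σ T = T) : T = 0 := by
  obtain ⟨ω, hω⟩ := Fin.ex_w r1_thm
  induction k generalizing T with
  | zero => simpa using hT
  | succ k ih =>
    have h2 : 2 • T = 0 := ih (by rwa [pow_succ, mul_smul] at hT) fun σ => by rw [tw_n, h]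
    exact hω T h2 (by rw [← tw_sq c, h])

/-! ### Finite sets of algebraic numbers -/

theorem Al.union {J J' : Finset ℂ} (h : Al J) (h' : Al J') :
    ∃ J'', Al J'' ∧ (∀ x ∈ J, x ∈ J'') ∧ ∀ x ∈ J', x ∈ J'' := by
  classical
  exact ⟨J ∪ J', fun x hx => (Finset.mem_union.1 hx).elim (h x) (h' x),
    fun x hx => Finset.mem_union_left _ hx, fun x hx => Finset.mem_union_right _ hx⟩

theorem Ag.mono {J J' : Finset ℂ} (h : Ag J' σ τ) (hJ : ∀ x ∈ J, x ∈ J') : Ag J σ τ :=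
  fun x hx => h x (hJ x hx)

theorem Ag.fix {J : Finset ℂ} (h : Ag J σ τ) : ∀ x ∈ J, (σ⁻¹ * τ) x = x := fun x hx => by
  show σ⁻¹ (τ x) = x
  rw [← h x hx]; exact σ.symm_apply_apply x

/-- A finite set that controls the action on the points of level `k` and on `rt c`. -/
theorem ex_tor (c : ℤ) (k : ℕ) : ∃ J, Al J ∧ ∀ σ τ, Ag J σ τ →
    cq c σ = cq c τ ∧ ∀ T : Pt, 2 ^ k • T = 0 → σ • T = τ • T := by
  classical
  obtain ⟨hf, ha⟩ := Cheb.tors r1_thm k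
  refine ⟨insert (rt c) (hf.toFinset.image xc ∪ hf.toFinset.image yc), fun z hz => ?_,
    fun σ τ h => ⟨cq_congr (h _ (by simp)), fun T hT => Ep.smul_congr (h _ ?_) (h _ ?_)⟩⟩
  · simp only [Finset.mem_insert, Finset.mem_union, Finset.mem_image, Set.Finite.mem_toFinset,
      Set.mem_ofPred_eq] at hz
    rcases hz with rfl | ⟨T, hT, rfl⟩ | ⟨T, hT, rfl⟩
    exacts [rt_alg c, (ha T hT).1, (ha T hT).2]
  all_goals
    simp only [Finset.mem_insert, Finset.mem_union, Finset.mem_image, Set.Finite.mem_toFinset,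
      Set.mem_ofPred_eq]
  exacts [Or.inr (Or.inl ⟨T, hT, rfl⟩), Or.inr (Or.inr ⟨T, hT, rfl⟩)]

theorem Fn.map₂ {X Y Z : Type} {f : G → X} {g : G → Y} (hf : Fn f) (hg : Fn g) (F : X → Y → Z) :
    Fn fun σ => F (f σ) (g σ) := by
  obtain ⟨J, a, b⟩ := hf
  obtain ⟨J', a', b'⟩ := hg
  obtain ⟨J'', h, h1, h2⟩ := a.union a'
  exact ⟨J'', h, fun σ τ e => congrArg₂ F (b σ τ (e.mono h1)) (b' σ τ (e.mono h2))⟩

theorem Fn.map {X Y : Type} {f : G → X} (hf : Fn f) (F : X → Y) : Fn fun σ => F (f σ) :=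
  hf.map₂ hf fun a _ => F a

theorem FnOn.map₂ {X Y Z : Type} {D : G → Prop} {f : G → X} {g : G → Y} (hf : FnOn D f)
    (hg : FnOn D g) (F : X → Y → Z) : FnOn D fun σ => F (f σ) (g σ) := by
  obtain ⟨J, a, b⟩ := hf
  obtain ⟨J', a', b'⟩ := hg
  obtain ⟨J'', h, h1, h2⟩ := a.union a'
  exact ⟨J'', h, fun σ τ s t e => congrArg₂ F (b σ τ s t (e.mono h1)) (b' σ τ s t (e.mono h2))⟩

theorem Fn.on {X : Type} {f : G → X} (hf : Fn f) (D : G → Prop) : FnOn D f :=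
  let ⟨J, a, b⟩ := hf
  ⟨J, a, fun σ τ _ _ e => b σ τ e⟩

theorem fn_const {X : Type} (a : X) : Fn fun _ => a := ⟨∅, by simp [Al], fun _ _ _ => rfl⟩

theorem fn_ap {z : ℂ} (h : IsAlgebraic ℚ z) : Fn fun σ : G => σ z :=
  ⟨{z}, by simpa [Al] using h, fun σ τ e => e z (by simp)⟩

theorem fn_cq (c : ℤ) : Fn (cq c) := ⟨{rt c}, by simpa [Al] using rt_alg c,
  fun σ τ e => cq_congr (e _ (by simp))⟩

theorem fn_ps (c : ℤ) : Fn (ps c) := ⟨{rt c}, by simpa [Al] using rt_alg c,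
  fun σ τ e => by unfold ps; rw [e (rt c) (by simp)]⟩

theorem fn_sm {P : Pt} (h : AlgP P) : Fn fun σ : G => σ • P := by
  obtain ⟨J, a, b⟩ := (fn_ap h.1).map₂ (fn_ap h.2) Prod.mk
  exact ⟨J, a, fun σ τ e => Ep.smul_congr (congrArg Prod.fst (b σ τ e))
    (congrArg Prod.snd (b σ τ e))⟩

theorem fn_tw (c : ℤ) {P : Pt} (h : AlgP P) : Fn fun σ => tw c σ P :=
  (fn_cq c).map₂ (fn_sm h) fun a Q => a • Q

/-! ### Cocycles -/

theorem Cy.one (h : Cy c k x) : x 1 = 0 := by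
  have := h.mul 1 1
  rw [mul_one, tw_one] at this
  exact left_eq_add.1 this

theorem Cy.inv (h : Cy c k x) (σ : G) : x σ⁻¹ = -tw c σ⁻¹ (x σ) := by
  have := h.mul σ⁻¹ σ
  rw [inv_mul_cancel, h.one] at this
  exact eq_neg_of_add_eq_zero_left this.symm

theorem Cy.conj (h : Cy c k x) (g σ : G) :
    x (g * σ * g⁻¹) = tw c g (x σ) - (tw c (g * σ * g⁻¹) (x g) - x g) := by
  have := h.mul (g * σ * g⁻¹) g
  rw [inv_mul_cancel_right, h.mul g σ] at this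
  rw [eq_sub_of_add_eq this.symm]; abel

theorem Cy.fn (h : Cy c k x) : Fn x := by
  obtain ⟨J, a, b⟩ := h.fin
  refine ⟨J, a, fun σ τ e => ?_⟩
  have := h.mul σ (σ⁻¹ * τ)
  rw [mul_inv_cancel_left, b _ e.fix, tw_zero, add_zero] at this
  exact this.symm

theorem cy_of (h1 : ∀ σ, 2 ^ k • x σ = 0) (h2 : ∀ σ τ, x (σ * τ) = x σ + tw c σ (x τ))
    (h3 : Fn x) : Cy c k x := by
  obtain ⟨J, a, b⟩ := h3
  have h0 := h2 1 1
  rw [mul_one, tw_one] at h0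
  exact ⟨h1, h2, J, a, fun σ e => (b σ 1 e).trans (left_eq_add.1 h0)⟩

theorem Cy.of_tor (h : Cy c k x) (h' : ∀ σ, 2 ^ k' • x σ = 0) : Cy c k' x := ⟨h', h.mul, h.fin⟩

theorem Cy.mono (h : Cy c k x) (hk : k ≤ k') : Cy c k' x := h.of_tor fun σ => tor_mono hk (h.tor σ)

theorem cy_zero (c : ℤ) (k : ℕ) : Cy c k 0 :=
  cy_of (fun _ => smul_zero _) (fun σ _ => by simp [tw_zero]) (fn_const 0)

theorem Cy.add (h : Cy c k x) (h' : Cy c k y) : Cy c k (x + y) :=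
  cy_of (fun σ => by rw [Pi.add_apply, smul_add, h.tor, h'.tor, add_zero])
    (fun σ τ => by simp only [Pi.add_apply, h.mul, h'.mul, tw_add]; abel)
    (h.fn.map₂ h'.fn (· + ·))

theorem Cy.z (h : Cy c k x) (a : ℤ) : Cy c k (a • x) :=
  cy_of (fun σ => by rw [Pi.smul_apply, smul_comm, h.tor, smul_zero])
    (fun σ τ => by simp only [Pi.smul_apply, h.mul, tw_z, smul_add]) (h.fn.map (a • ·))

theorem Cy.nat (h : Cy c k x) (a : ℕ) : Cy c k (a • x) := by simpa using h.z a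

theorem Cy.neg (h : Cy c k x) : Cy c k (-x) := by simpa using h.z (-1)

theorem Cy.sub (h : Cy c k x) (h' : Cy c k y) : Cy c k (x - y) := by
  rw [sub_eq_add_neg]; exact h.add h'.neg

theorem Cy.pow {j : ℕ} (h : Cy c (j + k) x) : Cy c k (2 ^ j • x) := (h.nat _).of_tor fun σ => by
  rw [Pi.smul_apply, ← mul_smul, ← pow_add, add_comm, h.tor]

theorem Cy.two (h : Cy c 1 x) (σ : G) : 2 • x σ = 0 := tor_one.1 (h.tor σ)

theorem cy_one : Cy c 1 x ↔ Coc x :=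
  ⟨fun h => ⟨h.two, fun σ τ => by rw [h.mul, tw_two c σ (h.two τ)], h.fin⟩,
    fun h => ⟨fun σ => tor_one.2 (h.two σ), fun σ τ => by rw [h.mul, tw_two c σ (h.two τ)], h.fin⟩⟩

theorem Cy.coc (h : Cy c 1 x) : Coc x := cy_one.1 h

/-- The Kummer cocycle of a point. -/
theorem cy_pt {S : Pt} (hS : AlgP S) (h : ∀ σ, tw c σ (2 ^ k • S) = 2 ^ k • S) :
    Cy c k fun σ => tw c σ S - S :=
  cy_of (fun σ => by rw [smul_sub, ← tw_n, h, sub_self])
    (fun σ τ => by rw [tw_mul, tw_sub]; abel) ((fn_tw c hS).map (· - S))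

theorem cy_cob {T : Pt} (hT : 2 ^ k • T = 0) : Cy c k fun σ => tw c σ T - T :=
  cy_pt (alg_tor hT) fun σ => by rw [hT, tw_zero]

theorem Cy.sq (h : Cy c k x) (φ : G) : x (φ * φ) = x φ + tw c φ (x φ) := h.mul φ φ

/-- The value at the square of `φ` is an eigenvector. -/
theorem Cy.eig (h : Cy c k x) {φ : G} (hφ : ∀ T : Pt, 2 ^ k • T = 0 → φ • φ • T = T) :
    tw c φ (x (φ * φ)) = x (φ * φ) := by
  rw [h.sq, tw_add, ← tw_mul, tw_sq, hφ _ (h.tor φ), add_comm]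

theorem Cy.pow_of (h : Cy c k x) (hσ : ∀ T : Pt, 2 ^ k • T = 0 → tw c σ T = T) (a : ℕ) :
    x (σ ^ a) = a • x σ := by
  induction a with
  | zero => simp [h.one]
  | succ a ih => rw [pow_succ', h.mul, hσ _ (h.tor _), ih, succ_nsmul']

/-! ### Coboundaries -/

theorem cb_zero (c : ℤ) : Cb c 0 := ⟨0, 0, smul_zero _, fun σ => by simp [tw_zero]⟩

theorem cb_cob {T : Pt} (hT : 2 ^ k • T = 0) : Cb c fun σ => tw c σ T - T := ⟨T, k, hT, fun _ => rfl⟩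

theorem Cb.add (h : Cb c x) (h' : Cb c y) : Cb c (x + y) := by
  obtain ⟨T, k, a, b⟩ := h
  obtain ⟨T', k', a', b'⟩ := h'
  refine ⟨T + T', k + k', ?_, fun σ => by rw [Pi.add_apply, b, b', tw_add]; abel⟩
  rw [smul_add, tor_mono (Nat.le_add_right k k') a, tor_mono (Nat.le_add_left k' k) a', add_zero]

theorem Cb.z (h : Cb c x) (a : ℤ) : Cb c (a • x) := by
  obtain ⟨T, k, b, e⟩ := h
  exact ⟨a • T, k, by rw [smul_comm, b, smul_zero], fun σ => by rw [Pi.smul_apply, e, tw_z, smul_sub]⟩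

theorem Cb.nat (h : Cb c x) (a : ℕ) : Cb c (a • x) := by simpa using h.z a

theorem Cb.neg (h : Cb c x) : Cb c (-x) := by simpa using h.z (-1)

theorem Cb.sub (h : Cb c x) (h' : Cb c y) : Cb c (x - y) := by
  rw [sub_eq_add_neg]; exact h.add h'.neg

theorem Cb.symm (h : Cb c (x - y)) : Cb c (y - x) := by simpa using h.neg

theorem Cb.of_eq (h : Cb c x) (e : x = y) : Cb c y := e ▸ h

/-- The coboundaries as a subgroup. -/
def CbS (c : ℤ) : AddSubgroup (G → Pt) where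
  carrier := {x | Cb c x}
  zero_mem' := cb_zero c
  add_mem' := Cb.add
  neg_mem' := Cb.neg

theorem mem_CbS : x ∈ CbS c ↔ Cb c x := Iff.rfl

theorem Cb.level (h : Cb c x) (hx : ∀ σ, 2 ^ k • x σ = 0) :
    ∃ T : Pt, 2 ^ k • T = 0 ∧ ∀ σ, x σ = tw c σ T - T := by
  obtain ⟨T, j, a, b⟩ := h
  refine ⟨T, inv0 (c := c) (k := j) (by rw [smul_comm, a, smul_zero]) fun σ => ?_, b⟩
  have := hx σ
  rwa [b, smul_sub, sub_eq_zero, ← tw_n] at this

theorem cb_cob_iff (hx : ∀ σ, 2 • x σ = 0) : Cb c x ↔ Cob x :=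
  ⟨fun h => by
    obtain ⟨T, a, b⟩ := h.level (k := 1) fun σ => tor_one.2 (hx σ)
    exact ⟨T, tor_one.1 a, fun σ => by rw [b, tw_two c σ (tor_one.1 a)]⟩,
  fun ⟨T, a, b⟩ => ⟨T, 1, tor_one.2 a, fun σ => by rw [b, tw_two c σ a]⟩⟩

theorem Cb.swap (h : Cb c x) (hx : ∀ σ, 2 • x σ = 0) (c' : ℤ) : Cb c' x :=
  (cb_cob_iff hx).2 ((cb_cob_iff hx).1 h)

theorem cb_tor (h : ∀ σ, 2 ^ k • x σ = 0) (c : ℤ) : Cb c (2 ^ k • x) :=
  (cb_zero c).of_eq (funext fun σ => (h σ).symm)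

/-- A class that is killed by `2 ^ j` comes from level `j`. -/
theorem Cy.lift (h : Cy c k x) {j : ℕ} (hj : Cb c (2 ^ j • x)) : ∃ T : Pt, 2 ^ k • T = 0 ∧
    ∀ σ, 2 ^ j • (x σ - (tw c σ T - T)) = 0 := by
  rcases le_total k j with hkj | hkj
  · exact ⟨0, smul_zero _, fun σ => by simpa [tw_zero] using tor_mono hkj (h.tor σ)⟩
  obtain ⟨i, rfl⟩ := Nat.exists_eq_add_of_le hkj
  obtain ⟨T, a, b⟩ := hj.level h.pow.tor
  obtain ⟨S, rfl⟩ := ex_div j T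
  refine ⟨S, by rwa [add_comm, pow_add, mul_smul], fun σ => ?_⟩
  rw [smul_sub, smul_sub, ← tw_n, ← b σ, Pi.smul_apply, sub_self]

theorem ex_odd {u : ℤ} (hu : Odd u) (k : ℕ) : ∃ a b : ℤ, a * u + b * 2 ^ k = 1 :=
  ((Int.isCoprime_two_right.2 hu).pow_right : IsCoprime u (2 ^ k))

theorem odd_cancel {M : Type} [AddCommGroup M] {u : ℤ} (hu : Odd u) {T : M} (hT : 2 ^ k • T = 0) :
    ∃ a : ℤ, a • u • T = T := by
  obtain ⟨a, b, e⟩ := ex_odd hu k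
  have h2 : ((2 : ℤ) ^ k) • T = 0 := by rw [← hT, ← natCast_zsmul]; simp
  exact ⟨a, by rw [← mul_smul, eq_sub_of_add_eq e, sub_smul, mul_smul, h2]; simp⟩

theorem Cb.odd {u : ℤ} (h : Cb c (u • x)) (hu : Odd u) (hx : ∀ σ, 2 ^ k • x σ = 0) : Cb c x := by
  obtain ⟨a, e⟩ := odd_cancel (T := x) hu (funext hx)
  exact (h.z a).of_eq e

/-- A coboundary vanishes on an element that acts trivially. -/
theorem Cb.val (h : Cb c x) (hx : ∀ σ, 2 ^ k • x σ = 0)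
    (hσ : ∀ T : Pt, 2 ^ k • T = 0 → tw c σ T = T) : x σ = 0 := by
  obtain ⟨T, a, b⟩ := h.level hx
  rw [b, hσ T a, sub_self]

theorem Cb.val_sq (h : Cb c x) (hx : ∀ σ, 2 ^ k • x σ = 0) {φ : G}
    (hφ : ∀ T : Pt, 2 ^ k • T = 0 → φ • φ • T = T) : x (φ * φ) = 0 :=
  h.val hx fun T hT => by rw [tw_sq, hφ T hT]

/-! ### The Weil monoid and inertia -/

theorem ine_one (O : ValuationSubring ℂ) : Frob O 1 1 := Loc0.in_one

theorem ine_mul (h : Frob O 1 σ) (h' : Frob O 1 τ) : Frob O 1 (σ * τ) := Loc0.in_mul h h'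

theorem ine_inv (hv : v.Prime) (hO : Ov O v) (h : Frob O 1 σ) : Frob O 1 σ⁻¹ := Loc0.in_inv hv hO h

theorem wl_ine (v : ℕ) (h : Frob O 1 σ) : Wl O v σ := ⟨0, h⟩

theorem wl_one (O : ValuationSubring ℂ) (v : ℕ) : Wl O v 1 := wl_ine v (ine_one O)

theorem wl_frob (h : Frob O v σ) : Wl O v σ := ⟨1, by rwa [pow_one]⟩

theorem Wl.mul (h : Wl O v σ) (h' : Wl O v τ) : Wl O v (σ * τ) :=
  let ⟨a, e⟩ := h
  let ⟨b, e'⟩ := h'
  ⟨a + b, by rw [pow_add]; exact V2.c1 e e'⟩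

theorem Wl.pow (h : Wl O v σ) (a : ℕ) : Wl O v (σ ^ a) := by
  induction a with
  | zero => exact wl_one O v
  | succ a ih => rw [pow_succ]; exact ih.mul h

/-- An element of the Weil monoid is a power of the Frobenius element times inertia. -/
theorem Wl.dec (h : Wl O v σ) (hv : v.Prime) (hO : Ov O v) {φ : G} (hφ : Frob O v φ) :
    ∃ (a : ℕ) (ι : G), Frob O 1 ι ∧ σ = φ ^ a * ι ∧ Frob O (v ^ a) σ :=
  let ⟨a, e⟩ := h
  ⟨a, _, V2.c3 hv hO (Loc0.frob_pow hφ a) e, (mul_inv_cancel_left _ _).symm, e⟩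

theorem frob_ine {Q : ℕ} (h : Frob O Q σ) (h' : Frob O 1 τ) : Frob O Q (σ * τ) := by
  simpa using V2.c1 h h'

theorem ine_frob {Q : ℕ} (h : Frob O 1 σ) (h' : Frob O Q τ) : Frob O Q (σ * τ) := by
  simpa using V2.c1 h h'

theorem frob_quot (hv : v.Prime) (hO : Ov O v) (h : Frob O v σ) (h' : Frob O v τ) :
    Frob O 1 (σ⁻¹ * τ) := V2.c3 (n := 1) hv hO (by rwa [pow_one]) (by rwa [pow_one])

theorem Wl.conj (h : Wl O v σ) (hv : v.Prime) (hO : Ov O v) (h' : Frob O 1 τ) :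
    Frob O 1 (σ⁻¹ * τ * σ) := by
  obtain ⟨a, e⟩ := h
  rw [mul_assoc]
  exact V2.c3 hv hO e (ine_frob h' e)

theorem ex_ov (hv : v.Prime) : ∃ O, Ov O v := v1_thm.1 v hv

theorem ex_frob (hv : v.Prime) (hO : Ov O v) : ∃ φ, Frob O v φ := v1_thm.2.2.2.2 v O hv hO

/-- Inertia at a good prime fixes the torsion points. -/
theorem ine_tor (hv : v.Prime) (h2 : v ≠ 2) (h11 : v ≠ 11) (hO : Ov O v) (h : Frob O 1 σ) {T : Pt}
    (hT : 2 ^ k • T = 0) : σ • T = T := by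
  obtain ⟨-, -, a, -, b, -⟩ := rA.2 v O hv h2 h11 hO
  exact sub_eq_zero.1 (b k _ (by rw [smul_sub, sm_tor σ hT, hT, sub_self]) (a σ T h (alg_tor hT)))

theorem cq_ine (hv : v.Prime) (h2 : v ≠ 2) (hO : Ov O v) (hc : ¬ (v : ℤ) ∣ c) (h : Frob O 1 σ) :
    cq c σ = 1 := cq_eq_one.2 (Fin.ine_fix v2_thm hv h2 hO hc (rt_sq c) h)

theorem tw_ine (hv : v.Prime) (h2 : v ≠ 2) (h11 : v ≠ 11) (hO : Ov O v) (hc : ¬ (v : ℤ) ∣ c)
    (h : Frob O 1 σ) {T : Pt} (hT : 2 ^ k • T = 0) : tw c σ T = T := by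
  rw [tw_of (cq_ine hv h2 hO hc h), ine_tor hv h2 h11 hO h hT]

theorem ex_ine (hv : v.Prime) (hO : Ov O v) (hc : Squarefree c) (hd : (v : ℤ) ∣ c) :
    ∃ σ : G, Frob O 1 σ ∧ σ (rt c) ≠ rt c := by
  obtain ⟨σ, a, b⟩ := Link1.partB vA hv hO (rt_sq c) hc hd
  exact ⟨σ, a, fun e => rt_ne hc.ne_zero (self_eq_neg.1 (e.symm.trans b))⟩

theorem ex_ine_om {q : ℕ} (hq : q.Prime) (hO : Ov O q) : ∃ σ : G, Frob O 1 σ ∧ σ (om q) ≠ om q := by
  obtain ⟨σ, a, b⟩ := ex_ine (c := -q) hq hO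
    ((Nat.prime_iff_prime_int.1 hq).neg.irreducible.squarefree) (by simp)
  exact ⟨σ, a, fun e => b (cq_eq_one.1 (cq_om.2 e))⟩

theorem ex_ine_pst {p : ℕ} (hp : p.Prime) (hO : Ov O p) :
    ∃ σ : G, Frob O 1 σ ∧ σ (rt (GF.pst p)) ≠ rt (GF.pst p) := by
  have h : Associated (p : ℤ) (GF.pst p) := by
    unfold GF.pst
    rcases neg_one_pow_eq_or ℤ (p / 2) with e | e <;> simp [e]
  exact ex_ine hp hO (h.squarefree_iff.1 (Nat.prime_iff_prime_int.1 hp).irreducible.squarefree) h.dvd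

theorem ine_om {q : ℕ} (hq : q.Prime) (h4 : q % 4 = 3) (hv : v.Prime) (hn : v ≠ q) (hO : Ov O v)
    (h : Frob O 1 σ) : σ (om q) = om q := v2_thm.2.2.2.2.2.2.1 q v O σ hq h4 hv hn hO h

/-! ### The Kummer condition -/

theorem kl_zero (c : ℤ) (O : ValuationSubring ℂ) (v : ℕ) : Kl c O v 0 :=
  ⟨0, alg_zero, fun σ _ => by simp [tw_zero]⟩

theorem Kl.add (h : Kl c O v x) (h' : Kl c O v y) : Kl c O v (x + y) :=
  let ⟨S, a, b⟩ := h
  let ⟨S', a', b'⟩ := h'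
  ⟨S + S', alg_add a a', fun σ hσ => by rw [Pi.add_apply, b σ hσ, b' σ hσ, tw_add]; abel⟩

theorem Kl.z (h : Kl c O v x) (a : ℤ) : Kl c O v (a • x) :=
  let ⟨S, b, e⟩ := h
  ⟨a • S, alg_z a b, fun σ hσ => by rw [Pi.smul_apply, e σ hσ, tw_z, smul_sub]⟩

theorem Kl.nat (h : Kl c O v x) (a : ℕ) : Kl c O v (a • x) := by simpa using h.z a

theorem Kl.neg (h : Kl c O v x) : Kl c O v (-x) := by simpa using h.z (-1)

theorem Kl.sub (h : Kl c O v x) (h' : Kl c O v y) : Kl c O v (x - y) := by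
  rw [sub_eq_add_neg]; exact h.add h'.neg

theorem kl_pt {S : Pt} (hS : AlgP S) : Kl c O v fun σ => tw c σ S - S := ⟨S, hS, fun _ _ => rfl⟩

theorem Cb.kl (h : Cb c x) (O : ValuationSubring ℂ) (v : ℕ) : Kl c O v x :=
  let ⟨T, _, a, b⟩ := h
  ⟨T, alg_tor a, fun σ _ => b σ⟩

theorem Kl.congr (h : Kl c O v x) (e : ∀ σ, Wl O v σ → cq c σ = cq c' σ) : Kl c' O v x :=
  let ⟨S, a, b⟩ := h
  ⟨S, a, fun σ hσ => by rw [b σ hσ, tw, tw, e σ hσ]⟩

/-- A Kummer class at a good prime is unramified. -/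
theorem Kl.ine (h : Kl c O v x) (hv : v.Prime) (h2 : v ≠ 2) (h11 : v ≠ 11) (hO : Ov O v)
    (hx : 2 ^ k • x σ = 0) (hσ : Frob O 1 σ) (hc : cq c σ = 1) : x σ = 0 := by
  obtain ⟨S, a, b⟩ := h
  obtain ⟨-, -, e, -, e', -⟩ := rA.2 v O hv h2 h11 hO
  refine e' k _ hx ?_
  rw [b σ (wl_ine v hσ), tw_of hc]
  exact e σ S hσ a

theorem Kl.unr (h : Kl c O v x) (hx : ∀ σ, 2 • x σ = 0) (hc : ∀ σ, Frob O 1 σ → cq c σ = 1) :
    Unr O x := by
  obtain ⟨S, a, b⟩ := h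
  refine ⟨S, a, fun σ hσ => ?_⟩
  have e := b σ (wl_ine v hσ)
  rw [tw_of (hc σ hσ)] at e
  have := hx σ
  rw [e, smul_sub, sub_eq_zero, ← Fin.sm_n] at this
  exact ⟨this, e⟩

/-! ### Selmer cocycles -/

theorem sel_zero (c : ℤ) (k : ℕ) (n : Finset ℕ) : Sel c k n 0 :=
  ⟨cy_zero c k, fun v O _ _ _ => kl_zero c O v, fun _ _ _ _ _ _ => rfl⟩

theorem Sel.add (h : Sel c k n x) (h' : Sel c k n y) : Sel c k n (x + y) :=
  ⟨h.cy.add h'.cy, fun v O a b e => (h.kl v O a b e).add (h'.kl v O a b e),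
    fun p a O φ b e => by rw [Pi.add_apply, h.ff p a O φ b e, h'.ff p a O φ b e, add_zero]⟩

theorem Sel.z (h : Sel c k n x) (u : ℤ) : Sel c k n (u • x) :=
  ⟨h.cy.z u, fun v O a b e => (h.kl v O a b e).z u,
    fun p a O φ b e => by rw [Pi.smul_apply, h.ff p a O φ b e, smul_zero]⟩

theorem Sel.nat (h : Sel c k n x) (a : ℕ) : Sel c k n (a • x) := by simpa using h.z a

theorem Sel.neg (h : Sel c k n x) : Sel c k n (-x) := by simpa using h.z (-1)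

theorem Sel.sub (h : Sel c k n x) (h' : Sel c k n y) : Sel c k n (x - y) := by
  rw [sub_eq_add_neg]; exact h.add h'.neg

theorem Sel.of_tor (h : Sel c k n x) (h' : ∀ σ, 2 ^ k' • x σ = 0) : Sel c k' n x :=
  ⟨h.cy.of_tor h', h.kl, h.ff⟩

theorem Sel.mono (h : Sel c k n x) (hk : k ≤ k') : Sel c k' n x := ⟨h.cy.mono hk, h.kl, h.ff⟩

theorem Sel.pow {j : ℕ} (h : Sel c (j + k) n x) : Sel c k n (2 ^ j • x) :=
  (h.nat _).of_tor h.cy.pow.tor

theorem Sel.top (h : Sel c k n x) (hk : k ≠ 0) : Sel c 1 n (2 ^ (k - 1) • x) :=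
  Sel.pow (by rwa [Nat.sub_add_cancel (Nat.pos_of_ne_zero hk)])

theorem Sel.two (h : Sel c 1 n x) (σ : G) : 2 • x σ = 0 := h.cy.two σ

theorem Sel.coc (h : Sel c 1 n x) : Coc x := h.cy.coc

theorem Sel.ke (h : Sel c k n x) (hn : 11 ∉ n) : Ke c x :=
  fun O hO => h.kl 11 O (by norm_num) hn hO

/-- The Selmer cocycles as a subgroup. -/
def SelS (c : ℤ) (k : ℕ) (n : Finset ℕ) : AddSubgroup (G → Pt) where
  carrier := {x | Sel c k n x}
  zero_mem' := sel_zero c k n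
  add_mem' := Sel.add
  neg_mem' := Sel.neg

theorem mem_SelS : x ∈ SelS c k n ↔ Sel c k n x := Iff.rfl

theorem tv_empty (k : ℕ) : Tv k ∅ := fun _ h => absurd h (Finset.notMem_empty _)

theorem Tv.mono (h : Tv k' n) (hk : k ≤ k') : Tv k n :=
  fun p a O φ b e T hT => h p a O φ b e T (tor_mono hk hT)

theorem Pn.tv {q : ℕ} {d : ℤ} (h : Pn q d n) : Tv 1 n := fun p a O φ b e T hT => by
  obtain ⟨h1, h2, h3, -, -, h4⟩ := h p a
  exact (((rA.2 p O h1 h2 h3 b).2.2.2.2.2.2.2 φ e).2.1.1 h4).1 T (tor_one.1 hT)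

theorem KnI.pn {m q : ℕ} {d : ℤ} (h : KnI m q d n) : Pn q d n :=
  fun p a => ⟨(h p a).pr, (h p a).n2, (h p a).n11, (h p a).nq, (h p a).nd, (h p a).ty⟩

theorem sel_cob (hn : Tv k n) {T : Pt} (hT : 2 ^ k • T = 0) :
    Sel c k n fun σ => tw c σ T - T :=
  ⟨cy_cob hT, fun _ _ _ _ _ => kl_pt (alg_tor hT),
    fun p a O φ b e => by rw [tw_sq, hn p a O φ b e T hT, sub_self]⟩

theorem Cb.sel (h : Cb c x) (hx : ∀ σ, 2 ^ k • x σ = 0) (hn : Tv k n) : Sel c k n x := by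
  obtain ⟨T, a, b⟩ := h.level hx
  rw [funext b]
  exact sel_cob hn a

theorem sel_pt {S : Pt} (hS : AlgP S) (h : ∀ σ, tw c σ (2 ^ k • S) = 2 ^ k • S) :
    Sel c k ∅ fun σ => tw c σ S - S :=
  ⟨cy_pt hS h, fun _ _ _ _ _ => kl_pt hS, fun _ a => absurd a (Finset.notMem_empty _)⟩

theorem Sel.lift (h : Sel c k n x) (hn : Tv k n) {j : ℕ} (hj : Cb c (2 ^ j • x)) :
    ∃ x', Sel c j n x' ∧ Sel c k n x' ∧ Cb c (x - x') := by
  obtain ⟨T, a, b⟩ := h.cy.lift hj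
  have h' := h.sub (sel_cob hn a)
  exact ⟨_, h'.of_tor b, h', (cb_cob a).of_eq (sub_sub_cancel _ _).symm⟩

theorem BC.mono {j j' : ℕ} {z : G → Pt} (h : BC c k n j y z) (hj : j ≤ j') : BC c k n j' y z := by
  obtain ⟨i, rfl⟩ := Nat.exists_eq_add_of_le hj
  refine ⟨h.1, fun x hx => ?_⟩
  obtain ⟨u, w, e⟩ := h.2 _ (hx.nat (2 ^ i))
  exact ⟨u, w, by rwa [pow_add, mul_smul]⟩

theorem BC.any {j : ℕ} {z : G → Pt} (h : BC c k n j 0 z) (y : G → Pt) : BC c k n j y z :=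
  ⟨h.1, fun x hx =>
    let ⟨u, _, e⟩ := h.2 x hx
    ⟨u, 0, by simpa using e⟩⟩

theorem Two.mono {j j' : ℕ} (h : Two c j) (hj : j ≤ j') : Two c j' := by
  obtain ⟨i, rfl⟩ := Nat.exists_eq_add_of_le hj
  intro x y hx hy
  have e : j + i + 1 = i + (j + 1) := by ring
  rw [e] at hx hy
  simpa only [pow_add, mul_smul] using h _ _ hx.pow hy.pow

theorem Rl.mono {q : ℕ} {d : ℤ} {x : Finset ℕ → G → Pt} {a b : ℕ} (h : Rl q d x y n a)
    (hab : a ≤ b) : Rl q d x y n b := by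
  obtain ⟨i, rfl⟩ := Nat.exists_eq_add_of_le hab
  obtain ⟨u, e⟩ := h
  refine ⟨2 ^ i * u, (e.nat (2 ^ i)).of_eq ?_⟩
  rw [smul_sub, ← mul_smul, ← pow_add, add_comm, mul_smul, ← natCast_zsmul (u • _)]
  simp

theorem twn_or (q : ℕ) (d : ℤ) (n : Finset ℕ) : twn q d n = d ∨ twn q d n = -(q * d) := by
  unfold twn; split_ifs <;> simp

theorem qd_ne {q : ℕ} {d : ℤ} (hd : d ≠ 0) : -(q * d) ≠ d := fun h => by
  have : ((q : ℤ) + 1) * d = 0 := by linear_combination -h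
  rcases mul_eq_zero.1 this with e | e
  · omega
  · exact hd e

/-! ### The pairing and the cup product -/

theorem ep_comm (T U : Pt) : ep T U = ep U T := Ep.ep_comm T U

theorem ep_zero (T : Pt) : ep 0 T = 0 := if_pos (Or.inl rfl)

theorem ep_zero' (T : Pt) : ep T 0 = 0 := if_pos (Or.inr (Or.inl rfl))

theorem ep_self (T : Pt) : ep T T = 0 := if_pos (Or.inr (Or.inr rfl))

theorem ep_eq_zero {T U : Pt} : ep T U = 0 ↔ T = 0 ∨ U = 0 ∨ T = U := by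
  unfold ep; split_ifs with h <;> simp [h]

theorem ep_wl {T U : Pt} (hT : 2 • T = 0) (hU : 2 • U = 0) (h : U ≠ 0) : ep T U = wl (xc U) T :=
  Ep.ep_eq_wl hT hU h

theorem ep_add {T T' U : Pt} (hT : 2 • T = 0) (hT' : 2 • T' = 0) (hU : 2 • U = 0) :
    ep (T + T') U = ep T U + ep T' U := Ep.ep_add_left hT hT' hU

theorem ep_add' {T U U' : Pt} (hT : 2 • T = 0) (hU : 2 • U = 0) (hU' : 2 • U' = 0) :
    ep T (U + U') = ep T U + ep T U' := Ep.ep_add_right hT hU hU'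

theorem ep_sm (σ : G) (T U : Pt) : ep (σ • T) (σ • U) = ep T U := Ep.ep_smul σ T U

theorem coc_fn (h : Coc x) : Fn x := ((cy_one (c := 1)).2 h).fn

theorem cup_c2 (hx : Coc x) (hy : Coc y) : C2 (cup x y) := by
  refine ⟨?_, fun σ τ υ => ?_⟩
  · obtain ⟨J, a, b⟩ := (coc_fn hx).map₂ (coc_fn hy) Prod.mk
    obtain ⟨J', a', b'⟩ := ex_tor 1 1
    obtain ⟨J'', h, h1, h2⟩ := a.union a'
    refine ⟨J'', h, fun σ σ' τ τ' e e' => ?_⟩
    have e1 : x σ = x σ' := congrArg Prod.fst (b σ σ' (e.mono h1))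
    have e2 : y τ = y τ' := congrArg Prod.snd (b τ τ' (e'.mono h1))
    rw [cup, cup, e1, e2, (b' σ σ' (e.mono h2)).2 _ (tor_one.2 (hy.two τ'))]
  · have t := fun (g : G) (s : G) => Ep.two_smul' g (hy.two s)
    rw [cup, cup, cup, cup, hx.mul, hy.mul, smul_add, ← mul_smul,
      ep_add' (hx.two σ) (t _ _) (t _ _),
      ep_add (hx.two σ) (Ep.two_smul' σ (hx.two τ)) (t _ _), mul_smul, ep_sm]
    ring

theorem cup_add {x' : G → Pt} (hx : ∀ σ, 2 • x σ = 0) (hx' : ∀ σ, 2 • x' σ = 0)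
    (hy : ∀ σ, 2 • y σ = 0) (σ τ : G) : cup (x + x') y σ τ = cup x y σ τ + cup x' y σ τ :=
  ep_add (hx σ) (hx' σ) (Ep.two_smul' σ (hy τ))

theorem cup_add' {y' : G → Pt} (hx : ∀ σ, 2 • x σ = 0) (hy : ∀ σ, 2 • y σ = 0)
    (hy' : ∀ σ, 2 • y' σ = 0) (σ τ : G) : cup x (y + y') σ τ = cup x y σ τ + cup x y' σ τ := by
  rw [cup, Pi.add_apply, smul_add]
  exact ep_add' (hx σ) (Ep.two_smul' σ (hy τ)) (Ep.two_smul' σ (hy' τ))

theorem cup_one (hx : Coc x) (y : G → Pt) (τ : G) : cup x y 1 τ = 0 := by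
  rw [cup, ((cy_one (c := 1)).2 hx).one, ep_zero]

theorem cup_right {τ : G} (h : y τ = 0) (x : G → Pt) (σ : G) : cup x y σ τ = 0 := by
  rw [cup, h, smul_zero, ep_zero']

theorem Sp.add {a b : G → G → ZMod 2} (h : Sp O v a) (h' : Sp O v b) :
    Sp O v fun σ τ => a σ τ + b σ τ :=
  let ⟨η, e, f⟩ := h
  let ⟨η', e', f'⟩ := h'
  ⟨fun σ => η σ + η' σ, e.map₂ e' (· + ·), fun σ τ s t => by
    linear_combination f σ τ s t + f' σ τ s t⟩

theorem Sp.congr {a b : G → G → ZMod 2} (h : Sp O v a)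
    (e : ∀ σ τ, Wl O v σ → Wl O v τ → b σ τ = a σ τ) : Sp O v b :=
  let ⟨η, f, g⟩ := h
  ⟨η, f, fun σ τ s t => (e σ τ s t).trans (g σ τ s t)⟩

theorem Sg.sp {a : G → G → ZMod 2} {η : G → ZMod 2} (h : Sg a η) (O : ValuationSubring ℂ)
    (v : ℕ) : Sp O v a := ⟨η, h.1.on _, fun σ τ _ _ => h.2 σ τ⟩

theorem C2.add {a b : G → G → ZMod 2} (h : C2 a) (h' : C2 b) : C2 fun σ τ => a σ τ + b σ τ := by
  obtain ⟨J, e, f⟩ := h.fn
  obtain ⟨J', e', f'⟩ := h'.fn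
  obtain ⟨J'', g, h1, h2⟩ := e.union e'
  exact ⟨⟨J'', g, fun σ σ' τ τ' s t => by
    rw [f σ σ' τ τ' (s.mono h1) (t.mono h1), f' σ σ' τ τ' (s.mono h2) (t.mono h2)]⟩,
    fun σ τ υ => by linear_combination h.eq σ τ υ + h'.eq σ τ υ⟩

/-! ### The group `H` -/

section H

variable {m : ℕ} {W : Finset ℂ} {h h' : G}

theorem hm_one (m : ℕ) (W : Finset ℂ) : Hm m W 1 :=
  ⟨one_mem _, fun T _ => one_smul _ T, fun _ _ => rfl⟩

theorem Hm.mul (a : Hm m W h) (b : Hm m W h') : Hm m W (h * h') :=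
  ⟨mul_mem a.cm b.cm, fun T hT => by rw [mul_smul, b.tor T hT, a.tor T hT], fun w hw => by
    show h (h' w) = w
    rw [b.fx w hw, a.fx w hw]⟩

theorem Hm.inv (a : Hm m W h) : Hm m W h⁻¹ :=
  ⟨inv_mem a.cm, fun T hT => by rw [inv_smul_eq_iff, a.tor T hT], fun w hw =>
    (RingEquiv.symm_apply_eq h).2 (a.fx w hw).symm⟩

theorem Hm.pow (a : Hm m W h) (i : ℕ) : Hm m W (h ^ i) := by
  induction i with
  | zero => exact hm_one m W
  | succ i ih => rw [pow_succ]; exact ih.mul a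

theorem Hm.tw (a : Hm m W h) (hk : k ≤ m) (c : ℤ) {T : Pt} (hT : 2 ^ k • T = 0) : tw c h T = T := by
  rw [tw_of (cq_comm c a.cm), a.tor T (tor_mono hk hT)]

theorem Hm.cy (a : Hm m W h) (hk : k ≤ m) (hx : Cy c k x) (τ : G) : x (h * τ) = x h + x τ := by
  rw [hx.mul, a.tw hk c (hx.tor τ)]

theorem Hm.cy_pow (a : Hm m W h) (hk : k ≤ m) (hx : Cy c k x) (i : ℕ) : x (h ^ i) = i • x h :=
  hx.pow_of (fun _ hT => a.tw hk c hT) i

theorem Hm.cy_conj (a : Hm m W h) (hk : k ≤ m) (hx : Cy c k x) (g : G) :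
    x (g * h * g⁻¹) = KI.tw c g (x h) := by
  rw [hx.conj, tw_mul, tw_mul, a.tw hk c (tw_tor c _ (hx.tor g)), tw_inv', sub_self, sub_zero]

theorem Hm.cb (a : Hm m W h) (hk : k ≤ m) (hx : ∀ σ, 2 ^ k • x σ = 0) (hb : Cb c x) : x h = 0 :=
  hb.val hx fun _ hT => a.tw hk c hT

theorem cj_inv : cj⁻¹ = cj := inv_eq_of_mul_eq_one_right cj_mul_cj

/-- The value at the square of `cj * h`. -/
theorem Hm.nf (a : Hm m W h) (hk : k ≤ m) (hx : Cy c k x) :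
    x (cj * h * (cj * h)) = x h + KI.tw c cj (x h) := by
  have e : cj * h * (cj * h) = cj * h * cj⁻¹ * h := by rw [cj_inv]; group
  rw [e, hx.mul, a.cy_conj hk hx, tw_mul, tw_mul, a.tw hk c (tw_tor c _ (hx.tor h)), tw_inv',
    add_comm]

theorem Hm.sq (a : Hm m W h) {T : Pt} (hT : 2 ^ m • T = 0) : (cj * h) • (cj * h) • T = T := by
  rw [mul_smul, mul_smul, a.tor T hT, a.tor _ (sm_tor cj hT), ← mul_smul, cj_mul_cj, one_smul]

end H

end Pool.Agent.Lib.MP_d6ddbd_nt.KI
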