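import Pool.Agent.Lib.MP_d6ddbd_nt.KI.Defs

/-!
The full two-converse for the quadratic twists of `X₀(11)`: the statements of the blocks.
-/

set_option autoImplicit false

open NumberField IsDedekindDomain Pointwise
open Pool.Agent.Lib.MP_02f36d_nt (xc yc)
open Pool.Agent.Stark (Pr og hq LSq pw SqCl cl)
open Pool.Agent.Lib.MP_d6ddbd_nt.K11

noncomputable section

namespace Pool.Agent.Lib.MP_d6ddbd_nt.KI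

/-! ### Places -/

/-- Places over one prime are conjugate. -/
def TrStmt : Prop :=
  (∀ (v : ℕ) O O', v.Prime → Ov O v → Ov O' v →
    ∃ g : G, ∀ (Q : ℕ) (σ : G), Frob O' Q σ → Frob O Q (g⁻¹ * σ * g)) ∧
  (∀ (c : ℤ) (k v : ℕ) x O O', Cy c k x → v.Prime → Ov O v → Ov O' v → Kl c O v x → Kl c O' v x) ∧
  ∀ (k m q : ℕ) (d : ℤ) n, k ≤ m → KnI m q d n → Tv k n

/-- Almost all primes are unramified. -/
def RamStmt : Prop := ∀ J : Finset ℂ, Al J → ∃ N : ℕ, ∀ (v : ℕ) O (σ : G), v.Prime → N < v →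
  Ov O v → Frob O 1 σ → ∀ x ∈ J, σ x = x

/-- The Weil monoid is dense in the decomposition group. -/
def DecStmt : Prop := ∀ (v : ℕ) O (σ : G) (J : Finset ℂ), v.Prime → Ov O v → Dc O σ → Al J →
  ∃ w, Wl O v w ∧ Ag J w σ

/-- Tame inertia. -/
def LeStmt : Prop := ∀ (B : Type) [AddCommGroup B] (k v : ℕ) O (c : ℤ) (σ₀ : G) (f : G → B),
  v.Prime → v ≠ 2 → Ov O v → Frob O 1 σ₀ → σ₀ (rt c) ≠ rt c →
  (∀ σ, Frob O 1 σ → 2 ^ k • f σ = 0) →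
  (∀ σ τ, Frob O 1 σ → Frob O 1 τ → f (σ * τ) = f σ + f τ) → FnOn (Frob O 1) f →
  ∀ σ, Frob O 1 σ → ∃ u : ℤ, f σ = u • f σ₀

/-! ### Two-cocycles -/

/-- Unramified two-cocycles split. -/
def UnrStmt : Prop := ∀ (v : ℕ) O (c : G → G → ZMod 2), v.Prime → Ov O v → C2 c →
  (∀ (n n' : ℕ) σ σ' τ τ', Frob O (v ^ n) σ → Frob O (v ^ n) σ' → Frob O (v ^ n') τ →
    Frob O (v ^ n') τ' → c σ τ = c σ' τ') → Sp O v c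

/-- The local-global principle. -/
def AbhnStmt : Prop := ∀ c : G → G → ZMod 2, C2 c →
  (∀ (v : ℕ) O, v.Prime → Ov O v → Sp O v c) → c cj cj = c 1 1 → ∃ η, Sg c η

/-- Reciprocity. -/
def RecStmt : Prop := ∀ (c : G → G → ZMod 2) (q₁ q₂ : ℕ) O₁ O₂, C2 c → q₁.Prime → q₂.Prime →
  q₁ ≠ q₂ → Ov O₁ q₁ → Ov O₂ q₂ →
  (∀ (v : ℕ) O, v.Prime → v ≠ q₁ → v ≠ q₂ → Ov O v → Sp O v c) → c cj cj = c 1 1 →
  Sp O₁ q₁ c → Sp O₂ q₂ c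

/-- The product of an unramified and a ramified character. -/
def BlStmt : Prop := ∀ (v : ℕ) O (b : ℤ) (ε : G → ZMod 2) (c : G → G → ZMod 2) (σ₀ φ : G),
  v.Prime → v ≠ 2 → Ov O v → Frob O 1 σ₀ → σ₀ (rt b) ≠ rt b → Frob O v φ →
  (∀ σ τ, Wl O v σ → Wl O v τ → ε (σ * τ) = ε σ + ε τ) → (∀ σ, Frob O 1 σ → ε σ = 0) →
  (∀ σ τ, Wl O v σ → Wl O v τ → c σ τ = ps b σ * ε τ) → (Sp O v c ↔ ε φ = 0)

/-- The local Kummer condition is isotropic. -/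
def IsoStmt : Prop := ∀ (c : ℤ) (v : ℕ) O (x y : G → Pt), c ≠ 0 → v.Prime → Ov O v →
  (∀ σ, 2 • x σ = 0) → (∀ σ, 2 • y σ = 0) → Kl c O v x → Kl c O v y → Sp O v (cup x y)

/-! ### Torsion points and counting -/

/-- An involution that moves a point of order two acts freely. -/
def FrStmt : Prop := ∀ (k : ℕ) (f : G) (η : ℤ), (η = 1 ∨ η = -1) →
  (∀ T : Pt, 2 ^ k • T = 0 → f • f • T = T) → (∃ T : Pt, 2 • T = 0 ∧ f • T ≠ T) →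
  (∀ T : Pt, 2 ^ k • T = 0 → η • f • T + T = 0 → ∃ S : Pt, 2 ^ k • S = 0 ∧ T = η • f • S - S) ∧
  ∀ (u : ℤ) (T T' : Pt), 2 ^ k • T = 0 → 2 ^ k • T' = 0 → η • f • T = u • T →
    η • f • T' = u • T' → (∃ a : ℤ, T = a • T') ∨ ∃ a : ℤ, T' = a • T

/-- Unramified classes at a good prime satisfy the Kummer condition. -/
def GdStmt : Prop := ∀ (c : ℤ) (k v : ℕ) x O, v.Prime → v ≠ 2 → v ≠ 11 → Ov O v → Cy c k x →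
  (∀ σ, Frob O 1 σ → cq c σ = 1) → (∀ σ, Frob O 1 σ → x σ = 0) → Kl c O v x

/-- The structure of the Selmer groups. -/
def CntStmt : Prop := (∀ c, Bd c → FinSel c ∧ ∃ j, Two c j) ∧
  (∀ c j k, Two c j → ∃ z, BC c k ∅ j 0 z) ∧
  ∀ c k n y, k ≠ 0 → Tv k n → Sel c k n y →
    (∀ ξ, Sel c 1 n ξ → Cb c ξ ∨ Cb c (ξ - 2 ^ (k - 1) • y)) →
    ∀ x, Sel c k n x → ∃ u : ℤ, Cb c (x - u • y)

/-- An alternating matrix that avoids all but one of the prescribed rows. -/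
def AltStmt : Prop := ∀ (r : ℕ) (b : (Fin r → ZMod 2) → Fin r → ZMod 2),
  ∃ M : Fin r → Fin r → ZMod 2, (∀ i j, M i j = M j i) ∧ (∀ i, M i i = 0) ∧
    ∀ a a' : Fin r → ZMod 2, a ≠ 0 → a' ≠ 0 → (∀ j, ∑ i, a i * M i j = b a j) →
      (∀ j, ∑ i, a' i * M i j = b a' j) → a = a'

/-- A basis of the classes of level one. -/
def BasisStmt : Prop := ∀ (c : ℤ) a₀, FinSel c → Sel c 1 ∅ a₀ → ¬ Cb c a₀ →
  ∃ (r : ℕ) (B : Fin (r + 1) → G → Pt), Cb c (B 0 - a₀) ∧ (∀ i, Sel c 1 ∅ (B i) ∧ B i cj = 0) ∧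
    (∀ a, Cb c (rep B a) → a = 0) ∧ ∀ x, Sel c 1 ∅ x → ∃ a, Cb c (x - rep B a)

/-! ### The group `H` and the choice of primes -/

/-- Lemma K in the group `H`. -/
def CommIStmt : Prop := ∀ (L : Type) [Field L] [NumberField L] (θ : L), Cub θ →
  ∀ (α : L) (q m : ℕ) (W : Finset ℂ) (e : L →+* ℂ) (s : ℂ), m ≠ 0 → Wq q m W → α ≠ 0 →
    IsSquare (Algebra.norm ℚ α) → (∀ 𝔭 ∈ ab L 11, Even (og 𝔭 α)) → ¬ IsSquare α → s ^ 2 = e α →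
    ∃ g, Hm m W g ∧ g s = -s

/-- Prescribed values on finitely many classes. -/
def CmStmt : Prop := ∀ (L : Type) [Field L] [NumberField L] (θ : L), Cub θ →
  ∀ (q m : ℕ) (W : Finset ℂ) (T : Finset L) (lam : SqCl L →ₗ[ZMod 2] ZMod 2) (T₀ : Pt), m ≠ 0 →
    Wq q m W → (∀ α ∈ T, α ≠ 0 ∧ IsSquare (Algebra.norm ℚ α) ∧ ∀ 𝔭 ∈ ab L 11, Even (og 𝔭 α)) →
    2 • T₀ = 0 → ∃ h, Hm m W h ∧ ∀ α ∈ T,
      (∀ (e : L →+* ℂ) (s : ℂ), s ^ 2 = e α → (h s = s ↔ lam (cl α) = 0 ∨ wl (e θ) T₀ = 0)) ∧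
      ∀ ξ, Coc ξ → Kum θ α ξ → ξ h = (lam (cl α)).val • T₀

/-- The same for cocycles. -/
def SurjStmt : Prop :=
  (∀ (q m : ℕ) (W : Finset ℂ) (c : ℤ) (r : ℕ) (B : Fin r → G → Pt) (μ : Fin r → ZMod 2) (T₀ : Pt),
    m ≠ 0 → Wq q m W → ¬ (11 : ℤ) ∣ c → (∀ i, Cy c 1 (B i) ∧ Ke c (B i)) →
    (∀ a, Cb c (rep B a) → a = 0) → 2 • T₀ = 0 → ∃ h, Hm m W h ∧ ∀ i, B i h = (μ i).val • T₀) ∧
  ∀ (q m k : ℕ) (W : Finset ℂ) (c : ℤ) y, m ≠ 0 → k ≤ m → Wq q m W → ¬ (11 : ℤ) ∣ c → Cy c k y →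
    Ke c y → ∃ h, Hm m W h ∧ ∀ u : ℤ, u • y (cj * h * (cj * h)) = 0 → Cb c (u • y)

/-- A prime whose Frobenius element is an odd power of `cj * h`. -/
def FbStmt : Prop := ∀ (q m : ℕ) (W : Finset ℂ) (h : G) (J : Finset ℂ) (N : ℕ), m ≠ 0 → Wq q m W →
  Hm m W h → Al J → ∃ (p : ℕ) (O : ValuationSubring ℂ) (φ : G) (a : ℕ), N < p ∧ p.Prime ∧
    Ov O p ∧ Frob O p φ ∧ Odd a ∧ 2 ^ m ∣ p + 1 ∧ p % 8 = 7 ∧ nr p = 1 ∧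
    (∀ T : Pt, 2 ^ m • T = 0 → φ • T = cj • T) ∧ (∀ n, Ag J (φ ^ n) ((cj * h) ^ (a * n))) ∧
    (∀ l : ℕ, l.Prime → l ≠ 2 → l ≤ N → Spl p l ∧ (l % 4 = 3 → ¬ Spl l p)) ∧ Gp W p

/-- The finite part at a prime of type one. -/
def FvStmt : Prop := ∀ (L : Type) [Field L] [NumberField L] (θ : L), Cub θ →
  ∀ (p : ℕ) O (φ : G) (e : L →+* ℂ) (α : L) (s : ℂ), p.Prime → p ≠ 2 → p ≠ 11 → nr p = 1 →
    Ov O p → Frob O p φ → φ (e θ) = e θ → α ≠ 0 → (∀ 𝔭 ∈ ab L p, Even (og 𝔭 α)) → s ^ 2 = e α →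
    (fv p α = 0 ↔ φ s = s)

/-! ### The choice of `q` -/

/-- From the Kummer condition to the conditions in the cubic field. -/
def DkStmt : Prop := ∀ (L : Type) [Field L] [NumberField L] (θ : L), Cub θ →
  ∀ (d : ℤ) (B : Finset ℕ) (α : L) ξ, Fam d → 2 ∉ B → 11 ∉ B → (∀ p ∈ B, ¬ (p : ℤ) ∣ d) → α ≠ 0 →
    IsSquare (Algebra.norm ℚ α) → Coc ξ → Kum θ α ξ →
    (∀ (v : ℕ) O, v.Prime → v ∉ B → Ov O v → Kl d O v ξ) →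
    Wc d B α ∧ ∀ 𝔭 ∈ D1 L d, bv θ d 𝔭 α = 0

/-- Level one: the two twists. -/
def SubAStmt : Prop := ∀ (q : ℕ) (d : ℤ) (n : Finset ℕ) O (σ₀ φ : G), QD q d → q % 8 = 7 →
  Ov O q → Frob O 1 σ₀ → σ₀ (om q) ≠ om q → Frob O q φ → q ∉ n →
  (∀ z, Sel (-(q * d)) 1 n z → ∀ (v : ℕ) O', v.Prime → v ∉ n → v ≠ q → Ov O' v → Kl d O' v z) ∧
  (∀ z, Sel (-(q * d)) 1 n z → z σ₀ = 0 → Sel d 1 n z ∧ z (φ * φ) = 0) ∧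
  (∀ z z', Coc z → Coc z' → z σ₀ = 0 ∨ z' σ₀ = 0 ∨ z σ₀ = z' σ₀) ∧
  ∀ z z', Coc z → Coc z' → z (φ * φ) = 0 ∨ z' (φ * φ) = 0 ∨ z (φ * φ) = z' (φ * φ)

/-- Level one: reciprocity and core vertices. -/
def SubBStmt : Prop :=
  (∀ (q : ℕ) (d : ℤ) (n : Finset ℕ) O (σ₀ φ : G) z a, QD q d → q % 8 = 7 → Pn q d n → Ov O q →
    Frob O 1 σ₀ → σ₀ (om q) ≠ om q → Frob O q φ → Sel (-(q * d)) 1 n z → Sel d 1 n a →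
    a (φ * φ) ≠ 0 → z σ₀ = 0) ∧
  ∀ (L : Type) [Field L] [NumberField L] (θ : L), Cub θ →
    ∀ (q : ℕ) (d : ℤ) (n : Finset ℕ) O (φ : G) a, QD q d → Pn q d n → Ov O q → Frob O q φ →
      Core θ q d n → Sel d 1 n a → a (φ * φ) = 0 → Cb d a

/-- The relation between two auxiliary primes. -/
def RelStmt : Prop := ∀ (d : ℤ) (N q₁ q₂ : ℕ) O₁ O₂ (f₁ f₂ : G) x₁ x₂ β (ε : G → ZMod 2),
  11 ≤ N → d.natAbs ≤ N → Aq d N q₁ → Aq d N q₂ → q₁ ≠ q₂ → Ov O₁ q₁ → Ov O₂ q₂ →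
  Frob O₁ q₁ f₁ → Frob O₂ q₂ f₂ → Sel (-(q₁ * d)) 2 ∅ x₁ → Sel (-(q₂ * d)) 2 ∅ x₂ →
  2 • x₁ = 2 • x₂ → Sel d 1 ∅ β → β cj = 0 → β f₁ = 0 → β f₂ = 0 → Sg (cup (2 • x₁) β) ε →
  (∀ (v : ℕ) O (σ : G), v.Prime → N < v → Ov O v → Frob O 1 σ → ε σ = 0) → ε f₁ = ε f₂

/-- The Heisenberg extension. -/
def HeisStmt : Prop := ∀ (d : ℤ) (r : ℕ) (B : Fin (r + 1) → G → Pt), Fam d →
  (∀ i, Sel d 1 ∅ (B i) ∧ B i cj = 0) → (∀ a, Cb d (rep B a) → a = 0) →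
  ∃ (ε : Fin r → Fin r → G → ZMod 2) (g : G),
    (∀ i j, Sg (cup (B i.succ) (B j.succ)) (ε i j)) ∧ Hm 1 ∅ g ∧ (∀ i : Fin r, B i.succ g = 0) ∧
    cj • B 0 g ≠ B 0 g ∧ ∀ M : Fin r → Fin r → ZMod 2, (∀ i j, M i j = M j i) → (∀ i, M i i = 0) →
      ∃ h, Hm 1 ∅ h ∧ (∀ i, B i h = 0) ∧ ∀ i j, ε i j h = M i j

/-- The choice of `q`. -/
def QchStmt : Prop := ∀ (d : ℤ) a₀, Fam d → FinSel d → Sel d 1 ∅ a₀ →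
  ∃ q : ℕ, QD q d ∧ q % 8 = 7 ∧ Two (-(q * d)) 1 ∧
    (¬ Cb d a₀ → ∃ (O : ValuationSubring ℂ) (φ : G), Ov O q ∧ Frob O q φ ∧ a₀ (φ * φ) ≠ 0)

/-! ### The system of level `k` -/

def YchStmt : Prop := ∀ (L : Type) [Field L] [NumberField L] (θ : L), Cub θ →
  ∀ (q : ℕ) (d : ℤ) n p (a : L), QD q d → Pn q d (insert p n) → p ∉ n → Yn θ q d n a → fv p a = 1 →
    yn θ q d (insert p n) < yn θ q d n

def LocxStmt : Prop := ∀ (q : ℕ) (d c : ℤ) (k : ℕ) (n : Finset ℕ) x S, QD q d →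
  (c = d ∨ c = -(q * d)) → Cy c k x → AlgP S →
  (∀ (v : ℕ) O (σ : G), v.Prime → v ∉ n → Ov O v → Frob O 1 σ → σ (om q) = om q →
    x σ = tw c σ S - S) →
  (∀ v : ℕ, v = 2 ∨ v = 11 → ∃ (O : ValuationSubring ℂ) (φ : G), Ov O v ∧ Frob O v φ ∧
    x φ = tw c φ S - S) →
  (∀ p ∈ n, ∀ O (φ : G), Ov O p → Frob O p φ → x (φ * φ) = 0) → Sel c k n (2 • x)

def SysStmt : Prop := ∀ (L : Type) [Field L] [NumberField L] (θ : L), Cub θ →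
  ∀ (q : ℕ) (d : ℤ) (s : ℕ), QD q d → q % 8 = 7 →
    ∃ k m W x, k ≠ 0 ∧ k ≤ m ∧ Wq q m W ∧ KY θ q d k s m W x

/-! ### Chains -/

def ChaStmt : Prop := ∀ (q : ℕ) (d : ℤ) (k m : ℕ) (W : Finset ℂ) (g₀ : G) y z z', QD q d → k ≠ 0 →
  k ≤ m → Wq q m W → Hm m W g₀ → Cy d k y → Ke d y → Cy d k z → Ke d z → Cy (-(q * d)) k z' →
  Ke (-(q * d)) z' → (y = 0 ∨ ¬ Cb d (2 ^ (k - 1) • y) ∧ 2 ^ (k - 1) • y g₀ = 0) →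
  ∃ h, Hm m W h ∧
    (∀ s : ℂ, (∀ σ : G, (∀ T : Pt, 2 • T = 0 → σ • T = T) → σ (s ^ 2) = s ^ 2) → h s = g₀ s) ∧
    y (cj * h * (cj * h)) = 0 ∧
    (∀ u : ℤ, u • z (cj * h * (cj * h)) = 0 → ∃ v : ℤ, Cb d ((2 * u) • z - v • y)) ∧
    ∀ u : ℤ, u • z' (cj * h * (cj * h)) = 0 → Cb (-(q * d)) ((2 * u) • z')

def ChStmt : Prop := ∀ (L : Type) [Field L] [NumberField L] (θ : L), Cub θ →
  ∀ (q : ℕ) (d : ℤ) (k m : ℕ) (W : Finset ℂ) (n : Finset ℕ) (a : L) y z z' (N : ℕ), QD q d →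
    k ≠ 0 → k ≤ m → Wq q m W → Pn q d n → Yn θ q d n a → ¬ IsSquare a → Sel d k n y → Y0 q k y →
    Sel d k n z → Sel (-(q * d)) k n z' →
    ∃ (p : ℕ) (O : ValuationSubring ℂ) (φ : G), N < p ∧ KolI m q d p ∧ Gp W p ∧ Ov O p ∧
      Frob O p φ ∧ fv p a = 1 ∧ y (φ * φ) = 0 ∧
      (∀ u : ℤ, u • z (φ * φ) = 0 → ∃ v : ℤ, Cb d ((2 * u) • z - v • y)) ∧
      ∀ u : ℤ, u • z' (φ * φ) = 0 → Cb (-(q * d)) ((2 * u) • z')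

def StepStmt : Prop := ∀ (c : ℤ) (k : ℕ) (n : Finset ℕ) (j p : ℕ) O (σ₀ φ : G) y z, p.Prime →
  p ≠ 2 → p ≠ 11 → ¬ (p : ℤ) ∣ c → nr p = 1 → p ∉ n → Tv k {p} → Ov O p → Frob O 1 σ₀ →
  σ₀ (rt (GF.pst p)) ≠ rt (GF.pst p) → Frob O p φ → Sel c k n y → y (φ * φ) = 0 → BC c k n j y z →
  (∀ u : ℤ, u • z (φ * φ) = 0 → ∃ v : ℤ, Cb c ((2 * u) • z - v • y)) →
  Sel c k (insert p n) y ∧ y σ₀ = 0 ∧
    (∀ x, Sel c k n x → x (φ * φ) = 0 → ∃ v : ℤ, Cb c (2 ^ (j + 1) • x - v • y)) ∧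
    (∀ x, Sel c k (insert p n) x → x σ₀ = 0 → Sel c k n x ∧ x (φ * φ) = 0) ∧
    ∃ z', BC c k (insert p n) (j + 1) y z'

def ChainStmt : Prop := ∀ (L : Type) [Field L] [NumberField L] (θ : L), Cub θ →
  ∀ (q : ℕ) (d : ℤ) (j : ℕ), QD q d → ∃ A : ℕ, ∀ (k s m : ℕ) (W : Finset ℂ) x y z z', k ≠ 0 →
    k ≤ m → Wq q m W → KY θ q d k s m W x → Sel d k ∅ y → Y0 q k y → BC d k ∅ j y z →
    BC (-(q * d)) k ∅ j 0 z' →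
    ∃ n, KnI m q d n ∧ (∀ p ∈ n, Gp W p) ∧ Core θ q d n ∧ Sel d k n y ∧
      ∀ a, (Rl q d x y ∅ a → Rl q d x y n (a + A)) ∧ (Rl q d x y n a → Rl q d x y ∅ (a + A))

/-- Rational points and Kummer classes. -/
def PtStmt : Prop :=
  (∀ (d : ℤ) (k : ℕ) x S, d ≠ 0 → Cy d k x → AlgP S → (∀ σ, x σ = tw d σ S - S) → ¬ Cb d x →
    (Tw d).Infinite) ∧
  ∀ d : ℤ, d ≠ 0 → (Tw d).Infinite → ∃ S : Pt, AlgP S ∧ (∀ σ, tw d σ (2 • S) = 2 • S) ∧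
    ¬ Cb d fun σ => tw d σ S - S

def MainStmt : Prop := ∀ d : ℤ, Fam d → Bd d →
  ((Tw d).Infinite ↔ jacobiSym (-11) d.natAbs = -1)

end Pool.Agent.Lib.MP_d6ddbd_nt.KI
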