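import Pool.Agent.Lib.MP_d6ddbd_nt.KI.Cm1

/-!
The cocycle of a square class, and prescribed values on finitely many classes.
-/

set_option autoImplicit false
set_option maxSynthPendingDepth 3

open NumberField
open Pool.Agent.Lib.MP_02f36d_nt (xc yc)
open Pool.Agent.Stark (og SqCl cl)
open Pool.Agent.Lib.MP_d6ddbd_nt.K11
open Pool.Agent.Lib.MP_d6ddbd_nt.K11.R1 (wl_add wl_smul map_fc wl_iff wl0 wl_eq wl_ne)
open Pool.Agent.Lib.MP_d6ddbd_nt.K11.Cheb (sg sg_add map_sg)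

noncomputable section

namespace Pool.Agent.Lib.MP_d6ddbd_nt.KI

namespace Cm

open Iso

theorem wl_ext {T T' : Pt} (h : 2 • T = 0) (h' : 2 • T' = 0)
    (e : ∀ x, fc x = 0 → wl x T = wl x T') : T = T' := by
  have key : ∀ {P : Pt}, 2 • P = 0 → (∀ x, fc x = 0 → wl x P = 0) → P = 0 := fun {P} _ b => by
    by_contra P0
    obtain ⟨e₁, e₂, e₃, hf, n12, -⟩ := r1_thm.2.2.2.2.1
    exact n12 (((wl_iff.1 (b e₁ (by rw [hf]; ring))).resolve_left P0).symm.trans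
      ((wl_iff.1 (b e₂ (by rw [hf]; ring))).resolve_left P0))
  have a := key (P := T + T') (by rw [smul_add, h, h', add_zero]) fun x hx => by
    rw [wl_add x _ _ hx h h', e x hx, CharTwo.add_self_eq_zero]
  rw [two_nsmul, add_eq_zero_iff_eq_neg] at h'
  rw [add_eq_zero_iff_eq_neg, ← h'] at a
  exact a

/-- Duality, with Lemma K as a hypothesis. -/
theorem dual' {m : ℕ} (hm : m ≠ 0) {W : Finset ℂ} (hW : ∀ w ∈ W, Kw w) {ι : Type} [Fintype ι]
    (ξ : ι → G → Pt) (hξ : ∀ i, Coc (ξ i)) (lam : ι → ZMod 2)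
    (hl : ∀ S : Finset ι, ∑ i ∈ S, lam i ≠ 0 → ∀ x, fc x = 0 →
      ∃ h ∈ Hs m W, wl x ((∑ i ∈ S, ξ i) h) = 1) {T : Pt} (hT : 2 • T = 0) :
    ∃ h ∈ Hs m W, ∀ i, ξ i h = if lam i = 0 then 0 else T := by
  classical
  obtain ⟨e₁, e₂, e₃, hf, n12, n13, n23, c1, c2, hp, -, -⟩ := r1_thm.2.2.2.2.1
  have f1 : fc e₁ = 0 := by rw [hf]; ring
  have hV : ∀ h ∈ Hs m W, ∀ T : Pt, 2 • T = 0 → h • T = T := fun h a T b => a.2.1 T (tor_one hm b)
  let U : Submodule (ZMod 2) (ι → ZMod 2) :=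
    { carrier := {u | ∃ h ∈ Hs m W, ∀ i, wl e₁ (ξ i h) = u i}
      add_mem' := by
        rintro u v ⟨g, g1, g2⟩ ⟨h, h1, h2⟩
        refine ⟨g * h, mul_mem g1 h1, fun i => ?_⟩
        rw [(hξ i).mul, hV g g1 _ ((hξ i).two _), wl_add _ _ _ f1 ((hξ i).two _) ((hξ i).two _), g2,
          h2, Pi.add_apply]
      zero_mem' := ⟨1, one_mem _, fun i => by rw [coc_one (hξ i), wl0, Pi.zero_apply]⟩
      smul_mem' := by
        rintro c u hu
        rcases Iso.z2 c with rfl | rfl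
        · exact ⟨1, one_mem _, fun i => by rw [coc_one (hξ i), wl0, zero_smul, Pi.zero_apply]⟩
        · rwa [one_smul] }
  have hU : lam ∈ U := by
    by_contra hn
    obtain ⟨f, k1, k2⟩ := U.exists_dual_map_eq_bot_of_notMem hn inferInstance
    let S : Finset ι := Finset.univ.filter fun i => f (fun j => if i = j then 1 else 0) = 1
    have hf : ∀ u : ι → ZMod 2, f u = ∑ i ∈ S, u i := fun u => by
      rw [LinearMap.pi_apply_eq_sum_univ, Finset.sum_filter]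
      refine Finset.sum_congr rfl fun i _ => ?_
      rcases Iso.z2 (f fun j => if i = j then 1 else 0) with h | h <;> simp [h]
    have hS : ∀ S : Finset ι, Coc (∑ i ∈ S, ξ i) ∧
        ∀ h, wl e₁ ((∑ i ∈ S, ξ i) h) = ∑ i ∈ S, wl e₁ (ξ i h) := fun S => by
      induction S using Finset.induction_on with
      | empty => exact ⟨coc_zero, fun h => wl0 _⟩
      | insert i S hi ih =>
        simp only [Finset.sum_insert hi]
        exact ⟨coc_add (hξ i) ih.1, fun h => by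
          rw [Pi.add_apply, wl_add _ _ _ f1 ((hξ i).two _) (ih.1.two _), ih.2]⟩
    obtain ⟨h, h1, h2⟩ := hl S (fun k => k1 (by rw [hf, k])) _ f1
    have : f (fun i => wl e₁ (ξ i h)) ∈ U.map f := Submodule.mem_map_of_mem ⟨h, h1, fun _ => rfl⟩
    rw [k2, Submodule.mem_bot, hf, ← (hS S).2, h2] at this
    exact one_ne_zero this
  obtain ⟨g, g1, g2⟩ := hU
  by_cases T0 : T = 0
  · exact ⟨1, one_mem _, fun i => by rw [coc_one (hξ i), T0, ite_self]⟩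
  obtain ⟨ρ, hρ⟩ : ∃ ρ : G, ρ e₁ = xc T := by
    obtain ⟨ω, -, w⟩ := cyc
    obtain ⟨a1, a2, -⟩ := w _ f1
    have f2 : fc (ω e₁) = 0 := by rw [← map_fc, f1, map_zero]
    have f3 : fc (ω (ω e₁)) = 0 := by rw [← map_fc, f2, map_zero]
    have b := (((R1.two_iff T).1 hT).resolve_left T0).2
    rw [R1.fc_eq f1 f2 a1.symm, mul_eq_zero, mul_eq_zero, sub_eq_zero, sub_eq_zero,
      sub_eq_zero] at b f3
    rcases b with (b | b) | b
    · exact ⟨1, b.symm⟩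
    · exact ⟨ω, b.symm⟩
    · exact ⟨ω * ω, ((f3.resolve_left fun k => k.elim a2 (w _ f2).1).trans b.symm :)⟩
  have ci : cj⁻¹ = cj := inv_eq_of_mul_eq_one_right cj_mul_cj
  have nm := Hs_normal m hW
  have g3 := mul_mem (nm.conj_mem g g1 cj) g1
  refine ⟨_, nm.conj_mem _ g3 ρ, fun i => ?_⟩
  have t := (hξ i).two g
  rw [coc_conj (hξ i) (hV _ g3), (hξ i).mul, coc_conj (hξ i) (hV g g1),
    hV _ (nm.conj_mem g g1 cj) _ t, ← g2 i]
  generalize ξ i g = P at t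
  have c3 : cj e₃ = e₂ := by rw [← c2]; exact Complex.conj_conj _
  by_cases P0 : P = 0
  · simp [P0, wl0]
  have P1 : cj • P ≠ 0 := fun k => P0 ((smul_eq_zero' _ _).1 k)
  have b := (((R1.two_iff P).1 t).resolve_left P0).2
  split_ifs with k
  · have k1 := (wl_iff.1 k).resolve_left P0
    rw [two_ext (tor_smul cj t) t P1 P0 (by rw [xc_smul, k1, c1]), ← two_nsmul, t, smul_zero]
  · have k1 : xc P ≠ e₁ := fun a => k (wl_iff.2 (Or.inr a))
    have s4 : e₁ + e₂ + e₃ = 4 := by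
      have a0 := hf 0
      have a1 := hf 1
      have a2 := hf (-1)
      simp only [fc] at a0 a1 a2
      linear_combination (a1 + a2) / 2 - a0
    rw [hf, mul_eq_zero, mul_eq_zero, sub_eq_zero, sub_eq_zero, sub_eq_zero] at b
    have k2 : xc (cj • P) ≠ xc P ∧ 4 - xc (cj • P) - xc P = e₁ := by
      rw [xc_smul]
      rcases b with (b | b) | b
      · exact absurd b k1
      · rw [b, c2]
        exact ⟨n23.symm, by linear_combination -s4⟩
      · rw [b, c3]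
        exact ⟨n23, by linear_combination -s4⟩
    obtain ⟨d1, d2, -⟩ := R1.add_TT P1 P0 (tor_smul cj t) t k2.1
    exact two_ext (tor_smul ρ (by rw [smul_add, tor_smul cj t, t, add_zero])) hT
      (fun a => d1 ((smul_eq_zero' _ _).1 a)) T0 (by rw [xc_smul, d2, k2.2, hρ])

variable {L : Type} [Field L] [NumberField L] {θ : L}

theorem emb_ext (hPr : PrStmt) (hθ : Cub θ) {e e' : L →+* ℂ} (h : e θ = e' θ) (α : L) :
    e α = e' α := by
  obtain ⟨a, b, c, rfl⟩ := (hPr L θ hθ).2.2.2.2.2.2.1 α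
  simp only [map_add, map_mul, map_pow, map_ratCast, h]

theorem fc_emb (hθ : Cub θ) (e : L →+* ℂ) : fc (e θ) = 0 := by
  simpa [fc, map_ofNat] using congrArg e hθ.eq

/-- Every class of square norm comes from a cocycle. -/
theorem inv_kum (hPr : PrStmt) (hθ : Cub θ) {α : L} (h0 : α ≠ 0)
    (hN : IsSquare (Algebra.norm ℚ α)) : ∃ ξ, Coc ξ ∧ Kum θ α ξ := by
  classical
  obtain ⟨e₁, e₂, e₃, hf, n12, n13, n23, -⟩ := r1_thm.2.2.2.2.1
  have f1 : fc e₁ = 0 := by rw [hf]; ring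
  have f2 : fc e₂ = 0 := by rw [hf]; ring
  have f3 : fc e₃ = 0 := by rw [hf]; ring
  have hE : ∀ x, x ∈ ({e₁, e₂, e₃} : Finset ℂ) ↔ fc x = 0 := fun x => by
    rw [hf]
    simp [sub_eq_zero, or_assoc]
  have pr : ∀ f : ℂ → ℂ, ∏ x ∈ ({e₁, e₂, e₃} : Finset ℂ), f x = f e₁ * f e₂ * f e₃ := fun f => by
    rw [Finset.prod_insert (by simp [n12, n13]), Finset.prod_pair n23, mul_assoc]
  obtain ⟨-, -, -, -, -, -, -, p8, p9, -⟩ := hPr L θ hθ
  have ex : ∀ x, fc x = 0 → ∃ s : ℂ, ∀ e : L →+* ℂ, e θ = x → s ^ 2 = e α := fun x hx => by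
    obtain ⟨e, he⟩ := p8 x hx
    obtain ⟨s, hs⟩ := IsAlgClosed.exists_pow_nat_eq (e α) two_pos
    exact ⟨s, fun e' h => hs.trans (emb_ext hPr hθ (he.trans h.symm) α)⟩
  choose! s hs using ex
  have s0 : ∀ x, fc x = 0 → s x ≠ 0 := fun x hx k => by
    obtain ⟨e, he⟩ := p8 x hx
    exact h0 ((map_eq_zero e).1 (by rw [← hs x hx e he, k]; simp))
  have fi : ∀ (σ : G) x, fc x = 0 → fc (σ⁻¹ x) = 0 := fun σ x hx => by
    rw [← map_fc, hx, map_zero]
  have ex : ∀ (σ : G) x, fc x = 0 → ∃ ε, σ (s (σ⁻¹ x)) = sg ε * s x := fun σ x hx => ex_sg (by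
    obtain ⟨e, he⟩ := p8 _ (fi σ x hx)
    rw [← map_pow, hs _ (fi σ x hx) e he, hs x hx (σ.toRingHom.comp e)
      ((congrArg σ he).trans (σ.apply_symm_apply x))]
    rfl)
  choose! ε hε using ex
  have sum : ∀ σ, ε σ e₁ + ε σ e₂ + ε σ e₃ = 0 := fun σ => by
    obtain ⟨n, hn⟩ := hN
    obtain ⟨a1, b1⟩ := p8 _ f1
    obtain ⟨a2, b2⟩ := p8 _ f2
    obtain ⟨a3, b3⟩ := p8 _ f3
    have d := p9 α a1 a2 a3 (by rwa [b1, b2]) (by rwa [b1, b3]) (by rwa [b2, b3])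
    have d1 : (s e₁ * s e₂ * s e₃) ^ 2 = (n : ℂ) ^ 2 := by
      rw [mul_pow, mul_pow, hs _ f1 a1 b1, hs _ f2 a2 b2, hs _ f3 a3 b3, ← d, hn]
      push_cast
      ring
    have d2 : σ (s e₁ * s e₂ * s e₃) = s e₁ * s e₂ * s e₃ := by
      rcases sq_eq_sq_iff_eq_or_eq_neg.1 d1 with k | k <;> rw [k] <;> simp
    have d3 := congrArg σ (perm hE σ⁻¹ s)
    rw [pr, pr, d2, map_mul, map_mul, hε σ _ f1, hε σ _ f2, hε σ _ f3] at d3
    refine sg_inj (mul_right_cancel₀ (mul_ne_zero (mul_ne_zero (s0 _ f1) (s0 _ f2)) (s0 _ f3)) ?_)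
    rw [sg_add, sg_add, sg0]
    linear_combination d3
  have ex : ∀ σ, ∃ T : Pt, 2 • T = 0 ∧ ∀ x, fc x = 0 → wl x T = ε σ x := fun σ => by
    have k : ∀ {T : Pt}, wl e₁ T = ε σ e₁ → wl e₂ T = ε σ e₂ → wl e₃ T = ε σ e₃ →
        ∀ x, fc x = 0 → wl x T = ε σ x := fun a b c x hx => by
      have := (hE x).2 hx
      simp only [Finset.mem_insert, Finset.mem_singleton] at this
      rcases this with rfl | rfl | rfl
      exacts [a, b, c]
    have t := sum σ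
    obtain ⟨a1, a2, a3⟩ := pt_root f1
    obtain ⟨b1, b2, b3⟩ := pt_root f2
    obtain ⟨c1, c2, c3⟩ := pt_root f3
    rcases z2 (ε σ e₁) with p | p <;> rcases z2 (ε σ e₂) with q | q <;>
      rcases z2 (ε σ e₃) with r | r <;> rw [p, q, r] at t <;> try exact absurd t (by decide)
    · exact ⟨0, smul_zero _, k (by rw [p, wl0]) (by rw [q, wl0]) (by rw [r, wl0])⟩
    · exact ⟨_, a2, k (by rw [p, wl_eq a3]) (by rw [q, wl_ne a1 (by rwa [a3])])
        (by rw [r, wl_ne a1 (by rwa [a3])])⟩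
    · exact ⟨_, b2, k (by rw [p, wl_ne b1 (by rw [b3]; exact n12.symm)]) (by rw [q, wl_eq b3])
        (by rw [r, wl_ne b1 (by rwa [b3])])⟩
    · exact ⟨_, c2, k (by rw [p, wl_ne c1 (by rw [c3]; exact n13.symm)])
        (by rw [q, wl_ne c1 (by rw [c3]; exact n23.symm)]) (by rw [r, wl_eq c3])⟩
  choose ξ x2 hξ using ex
  refine ⟨ξ, ⟨x2, fun σ τ => wl_ext (x2 _) (by rw [smul_add, x2, tor_smul σ (x2 τ), add_zero])
    fun x hx => ?_, {e₁, e₂, e₃} ∪ ({e₁, e₂, e₃} : Finset ℂ).image s, fun z hz => ?_,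
    fun σ hσ => wl_ext (x2 σ) (smul_zero _) fun x hx => ?_⟩, fun e t σ ht hσ => ?_⟩
  · have a := wl_smul (σ⁻¹ x) σ (ξ τ)
    rw [show σ (σ⁻¹ x) = x from σ.apply_symm_apply x] at a
    rw [wl_add x _ _ hx (x2 σ) (tor_smul σ (x2 τ)), a, hξ _ x hx, hξ _ x hx, hξ _ _ (fi σ x hx)]
    refine sg_inj (mul_right_cancel₀ (s0 x hx) ?_)
    rw [← hε _ x hx, mul_inv_rev, RingAut.mul_apply, RingAut.mul_apply, hε τ _ (fi σ x hx), map_mul,
      map_sg, hε σ x hx, sg_add]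
    ring
  · have a : ∀ (e : L →+* ℂ) y, IsAlgebraic ℚ (e y) := fun e y =>
      (Algebra.IsAlgebraic.isAlgebraic (R := ℚ) y).algHom e.toRatAlgHom
    rcases Finset.mem_union.1 hz with b | b
    · obtain ⟨e, rfl⟩ := p8 z ((hE z).1 b)
      exact a e θ
    · obtain ⟨x, c, rfl⟩ := Finset.mem_image.1 b
      obtain ⟨e, he⟩ := p8 x ((hE x).1 c)
      exact IsAlgebraic.of_pow two_pos (by rw [hs x ((hE x).1 c) e he]; exact a e α)
  · have a : σ⁻¹ x = x := (RingEquiv.symm_apply_eq σ).2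
      (hσ x (Finset.mem_union_left _ ((hE x).2 hx))).symm
    have b := hε σ x hx
    rw [a, hσ _ (Finset.mem_union_right _ (Finset.mem_image_of_mem s ((hE x).2 hx)))] at b
    rw [hξ σ x hx, wl0]
    exact sg_inj (mul_right_cancel₀ (s0 x hx) (by rw [← b, sg0, one_mul]))
  · have hx := fc_emb hθ e
    have b := hε σ _ hx
    rw [show σ⁻¹ (e θ) = e θ from (RingEquiv.symm_apply_eq σ).2 hσ.symm] at b
    obtain ⟨δ, rfl⟩ := ex_sg (ht.trans (hs _ hx e rfl).symm)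
    rw [hξ σ _ hx, map_mul, map_sg, b, mul_right_inj' (sg_ne δ), mul_eq_right₀ (s0 _ hx), ← sg0]
    exact ⟨sg_inj, congrArg sg⟩

theorem kum_sg {α : L} {ξ : G → Pt} (hPr : PrStmt) (hθ : Cub θ) (h : Kum θ α ξ) {e : L →+* ℂ}
    {s : ℂ} {σ : G} (hs : s ^ 2 = e α) (hσ : σ (e θ) = e θ) : σ s = sg (wl (e θ) (ξ σ)) * s := by
  rcases z2 (wl (e θ) (ξ σ)) with a | a
  · rw [a, sg0, one_mul, (h e s σ hs hσ).2 a]
  · rw [a, sg1, neg_one_mul]
    refine (sq_eq_sq_iff_eq_or_eq_neg.1 ?_).resolve_left fun b => ?_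
    · rw [← map_pow, hs]
      exact emb_ext hPr hθ (e := σ.toRingHom.comp e) hσ α
    · rw [(h e s σ hs hσ).1 b] at a
      exact zero_ne_one a

theorem kum_mul {α β : L} {ξ ξ' : G → Pt} (hPr : PrStmt) (hθ : Cub θ) (a0 : α ≠ 0) (b0 : β ≠ 0)
    (c : Coc ξ) (c' : Coc ξ') (h : Kum θ α ξ) (h' : Kum θ β ξ') : Kum θ (α * β) (ξ + ξ') := by
  intro e s σ hs hσ
  obtain ⟨t, ht⟩ := IsAlgClosed.exists_pow_nat_eq (e α) two_pos
  have t0 : t ≠ 0 := fun k => a0 ((map_eq_zero e).1 (by rw [← ht, k]; simp))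
  have s0 : s ≠ 0 := fun k => mul_ne_zero a0 b0 ((map_eq_zero e).1 (by rw [← hs, k]; simp))
  have u : (s / t) ^ 2 = e β := by
    rw [div_pow, hs, ht, map_mul, mul_div_cancel_left₀ _ ((map_ne_zero e).2 a0)]
  have v : σ s = σ t * σ (s / t) := by rw [← map_mul, mul_div_cancel₀ _ t0]
  rw [v, kum_sg hPr hθ h ht hσ, kum_sg hPr hθ h' u hσ, mul_mul_mul_comm, mul_div_cancel₀ _ t0,
    ← sg_add, Pi.add_apply, wl_add _ _ _ (fc_emb hθ e) (c.two σ) (c'.two σ), mul_eq_right₀ s0,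
    ← sg0]
  exact ⟨sg_inj, congrArg sg⟩

end Cm

open Cm

theorem cm_thm (hPr : PrStmt) (hC : CommStmt) : CmStmt := by
  classical
  intro L _ _ θ hθ q m W T lam T₀ hm hW hT h2
  have ex : ∀ α : T, ∃ ξ, Coc ξ ∧ Kum θ α.1 ξ := fun α =>
    inv_kum hPr hθ (hT α.1 α.2).1 (hT α.1 α.2).2.1
  choose ξ c k using ex
  have hS : ∀ S : Finset T, Coc (∑ i ∈ S, ξ i) ∧ Kum θ (∏ i ∈ S, i.1) (∑ i ∈ S, ξ i) := fun S => by
    induction S using Finset.induction_on with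
    | empty =>
      refine ⟨coc_zero, fun e s σ hs _ => ?_⟩
      rw [Finset.prod_empty, map_one, sq_eq_one_iff] at hs
      rcases hs with rfl | rfl <;> simp [wl0]
    | insert i S hi ih =>
      rw [Finset.sum_insert hi, Finset.prod_insert hi]
      exact ⟨coc_add (c i) ih.1, kum_mul hPr hθ (hT _ i.2).1
        (Finset.prod_ne_zero_iff.2 fun j _ => (hT _ j.2).1) (c i) ih.1 (k i) ih.2⟩
  have fx : ∀ h ∈ Hs m W, ∀ e : L →+* ℂ, h (e θ) = e θ := fun h a e =>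
    fix_root (fun P b => a.2.1 P (tor_one hm b)) (fc_emb hθ e)
  obtain ⟨h, h1, h3⟩ := dual' hm (kw hW) ξ c (fun i => lam (cl i.1)) (fun S a x hx => by
    obtain ⟨⟨b1, b2, b3⟩, b4⟩ := Cheb.prod_gd S (fun i : T => i.1) fun i => hT i.1 i.2
    obtain ⟨e, rfl⟩ := (hPr L θ hθ).2.2.2.2.2.2.2.1 x hx
    obtain ⟨s, hs⟩ := IsAlgClosed.exists_pow_nat_eq (e (∏ i ∈ S, i.1)) two_pos
    obtain ⟨h, h1, h2⟩ := lemK hPr hC hθ m (kw hW) e b1 b2 b3 (fun b => a (by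
      rw [← map_sum, ← b4, (Pool.Agent.Stark.cl_eq_zero b1).2 b, map_zero])) hs
    refine ⟨h, h1, (Iso.z2 _).resolve_left fun b => b1 ((map_eq_zero e).1 ?_)⟩
    have := ((hS S).2 e s h hs (fx h h1 e)).2 b
    rw [← hs, show s = 0 by linear_combination (h2 - this) / 2]
    simp) h2
  refine ⟨h, hm_iff.2 h1, fun α hα => ?_⟩
  have a : ∀ (e : L →+* ℂ) (s : ℂ), s ^ 2 = e α → (h s = s ↔ wl (e θ) (ξ ⟨α, hα⟩ h) = 0) :=
    fun e s hs => k ⟨α, hα⟩ e s h hs (fx h h1 e)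
  refine ⟨fun e s hs => ?_, fun ζ c' k' => ?_⟩
  · rw [a e s hs, h3]
    split_ifs with b <;> simp [b, wl0]
  · have b : ζ h = ξ ⟨α, hα⟩ h := wl_ext (c'.two h) ((c _).two h) fun x hx => by
      obtain ⟨e, rfl⟩ := (hPr L θ hθ).2.2.2.2.2.2.2.1 x hx
      obtain ⟨s, hs⟩ := IsAlgClosed.exists_pow_nat_eq (e α) two_pos
      have d := (k' e s h hs (fx h h1 e)).symm.trans (a e s hs)
      revert d
      generalize wl (e θ) (ζ h) = u
      generalize wl (e θ) (ξ ⟨α, hα⟩ h) = v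
      revert u v
      decide
    rw [b, h3]
    rcases Iso.z2 (lam (cl α)) with d | d <;> rw [d]
    · simp
    · rw [if_neg one_ne_zero, ZMod.val_one, one_smul]

end Pool.Agent.Lib.MP_d6ddbd_nt.KI
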