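import Pool.Agent.Lib.MP_d6ddbd_nt.KI.Rel

/-!
The choice of the auxiliary prime `q`.
-/

set_option autoImplicit false
set_option maxSynthPendingDepth 3

open Pool.Agent.Lib.MP_02f36d_nt (xc yc)
open Pool.Agent.Lib.MP_d6ddbd_nt.K11

noncomputable section

namespace Pool.Agent.Lib.MP_d6ddbd_nt.KI

namespace QchA

open RelA

theorem tw_sub (c : ℤ) (σ : G) (P Q : Pt) : tw c σ (P - Q) = tw c σ P - tw c σ Q := by
  simp only [tw, smul_sub]

theorem tw_dbl (c : ℤ) (σ : G) (P : Pt) : tw c σ (2 • P) = 2 • tw c σ P := by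
  simp only [tw, two_nsmul, smul_add]

theorem tw_mul {c : ℤ} (hc : c ≠ 0) (σ τ : G) (P : Pt) : tw c (σ * τ) P = tw c σ (tw c τ P) := by
  rw [tw, tw, tw, Ep.chi_mul (rt_ne hc) (fun σ => ⟨cq_or c σ, cq_app c σ (rt_sq c)⟩), mul_smul,
    mul_smul, smul_comm σ (cq c τ)]

theorem noinv (c : ℤ) (k : ℕ) : ∀ U : Pt, 2 ^ k • U = 0 → (∀ σ, tw c σ U = U) → U = 0 := by
  induction k with
  | zero => exact fun U h _ => by simpa using h
  | succ k ih =>
    intro U h e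
    have h2 := ih (2 • U) (by rwa [← mul_smul, ← pow_succ]) fun σ => by rw [tw_dbl, e]
    by_contra h0
    obtain ⟨σ, hσ⟩ := R1.moved (Ep.root h2 h0)
    exact hσ (by rw [← xc_smul, ← tw_two c σ h2, e])

theorem cb_two {c : ℤ} {x : G → Pt} (h2 : ∀ σ, 2 • x σ = 0) (h : Cb c x) :
    ∃ T : Pt, 2 • T = 0 ∧ ∀ σ, x σ = σ • T - T := by
  obtain ⟨T, k, a, b⟩ := h
  have t : 2 • T = 0 := noinv c k _ (by rw [smul_comm, a, smul_zero]) fun σ => by
    rw [tw_dbl, ← sub_eq_zero, ← smul_sub, ← b, h2]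
  exact ⟨T, t, fun σ => by rw [b, tw_two c σ t]⟩

theorem two_cb (c : ℤ) {x : G → Pt} {T : Pt} (t : 2 • T = 0) (h : ∀ σ, x σ = σ • T - T) :
    Cb c x := ⟨T, 1, by rwa [pow_one], fun σ => by rw [h, tw_two c σ t]⟩

theorem alg_sub {P Q : Pt} (h : AlgP P) (h' : AlgP Q) : AlgP (P - Q) :=
  sub_eq_add_neg P Q ▸ rAll.1.1.2.1 _ _ h (rAll.1.1.2.2.1 _ h')

theorem sel_sub {c : ℤ} {k : ℕ} {x y : G → Pt} (h : Sel c k ∅ x) (h' : Sel c k ∅ y) :
    Sel c k ∅ (x - y) := by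
  classical
  refine ⟨⟨fun σ => by rw [Pi.sub_apply, smul_sub, h.cy.tor, h'.cy.tor, sub_self], fun σ τ => ?_,
    ?_⟩, fun v O hv hn hO => ?_, by simp⟩
  · simp only [Pi.sub_apply, h.cy.mul, h'.cy.mul, tw_sub]
    abel
  · obtain ⟨J, a, b⟩ := h.cy.fin
    obtain ⟨J', a', b'⟩ := h'.cy.fin
    exact ⟨J ∪ J', fun z hz => (Finset.mem_union.1 hz).elim (a z) (a' z), fun σ e => by
      rw [Pi.sub_apply, b σ fun z hz => e z (by simp [hz]), b' σ fun z hz => e z (by simp [hz]),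
        sub_self]⟩
  · obtain ⟨S, a, b⟩ := h.kl v O hv hn hO
    obtain ⟨S', a', b'⟩ := h'.kl v O hv hn hO
    exact ⟨S - S', alg_sub a a', fun σ e => by
      rw [Pi.sub_apply, b σ e, b' σ e, tw_sub]; abel⟩

theorem sel_dbl {c : ℤ} {x : G → Pt} (h : Sel c 2 ∅ x) : Sel c 1 ∅ (2 • x) := by
  refine ⟨⟨fun σ => by rw [Pi.smul_apply, ← mul_smul]; exact h.cy.tor σ, fun σ τ => ?_, ?_⟩,
    fun v O hv hn hO => ?_, by simp⟩
  · simp only [Pi.smul_apply, h.cy.mul, tw_dbl, smul_add]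
  · obtain ⟨J, a, b⟩ := h.cy.fin
    exact ⟨J, a, fun σ e => by rw [Pi.smul_apply, b σ e, smul_zero]⟩
  · obtain ⟨S, a, b⟩ := h.kl v O hv hn hO
    exact ⟨2 • S, two_nsmul S ▸ rAll.1.1.2.1 _ _ a a, fun σ e => by
      rw [Pi.smul_apply, b σ e, tw_dbl, smul_sub]⟩

theorem sel_cob {c : ℤ} (hc : c ≠ 0) {k : ℕ} {T : Pt} (h : 2 ^ k • T = 0) :
    Sel c k ∅ fun σ => tw c σ T - T := by
  classical
  have a := (Cheb.tors rAll.1 k).2 T h
  refine ⟨⟨fun σ => ?_, fun σ τ => ?_, {rt c, xc T, yc T}, fun z hz => ?_, fun σ e => ?_⟩,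
    fun v O _ _ _ => ⟨T, a, fun _ _ => rfl⟩, by simp⟩
  · rw [smul_sub, tw, smul_comm, smul_comm _ σ, h, smul_zero, smul_zero, sub_self]
  · rw [tw_mul hc, tw_sub]
    abel
  · simp only [Finset.mem_insert, Finset.mem_singleton] at hz
    rcases hz with rfl | rfl | rfl
    exacts [Cheb.alg_sq (rt_sq c), a.1, a.2]
  · rw [tw, cq, if_pos (e _ (by simp)), one_smul,
      Ep.smul_congr (τ := 1) (e _ (by simp)) (e _ (by simp)), one_smul, sub_self]

theorem coc {c : ℤ} {x : G → Pt} (h : Cy c 1 x) : Coc x := ⟨cy_two h, cy_mul1 h, h.fin⟩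

theorem cy_one {c : ℤ} {x : G → Pt} (h : Cy c 1 x) : x 1 = 0 := by
  simpa using cy_mul1 h 1 1

theorem cy_pow0 {c : ℤ} {x : G → Pt} (h : Cy c 1 x) {σ : G} (e : x σ = 0) (n : ℕ) :
    x (σ ^ n) = 0 := by
  induction n with
  | zero => exact cy_one h
  | succ n ih => rw [pow_succ, cy_right h _ e, ih]

theorem cy_pow {c : ℤ} {x : G → Pt} (h : Cy c 1 x) {σ : G} (e : ∀ T : Pt, 2 • T = 0 → σ • T = T)
    (n : ℕ) : x (σ ^ n) = n • x σ := by
  induction n with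
  | zero => rw [pow_zero, cy_one h, zero_smul]
  | succ n ih => rw [pow_succ', cy_mul1 h, e _ (cy_two h _), ih, succ_nsmul']

theorem odd_smul {T : Pt} (h : 2 • T = 0) {a : ℕ} (ha : Odd a) : a • T = T := by
  obtain ⟨k, rfl⟩ := ha
  rw [add_smul, mul_comm, mul_smul, h, smul_zero, zero_add, one_smul]

theorem sg_pow {x y : G → Pt} {ε : G → ZMod 2} (h : Sg (cup x y) ε) (h1 : ε 1 = 0) {σ : G}
    (e : x σ = 0) (n : ℕ) : ε (σ ^ n) = n * ε σ := by
  induction n with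
  | zero => simpa using h1
  | succ n ih =>
    rw [pow_succ', sg_mul h, e, epE, Ep.ep_zero_left, ih]
    push_cast
    ring

theorem rep_app {r : ℕ} (B : Fin r → G → Pt) (a : Fin r → ZMod 2) (σ : G) :
    rep B a σ = ∑ i, (a i).val • B i σ := by
  simp [rep]

theorem ep_sum {ι : Type} (s : Finset ι) (a : ι → ZMod 2) (T : ι → Pt) (hT : ∀ i, 2 • T i = 0)
    {U : Pt} (hU : 2 • U = 0) : 2 • ∑ i ∈ s, (a i).val • T i = 0 ∧
      ep (∑ i ∈ s, (a i).val • T i) U = ∑ i ∈ s, a i * ep (T i) U := by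
  classical
  induction s using Finset.induction_on with
  | empty => simp [epE]
  | insert i s hi ih =>
    have t : 2 • (a i).val • T i = 0 := by rw [smul_comm, hT, smul_zero]
    rw [Finset.sum_insert hi, Finset.sum_insert hi, ← ih.2, epE, Ep.ep_add_left t ih.1 hU]
    refine ⟨Ep.two_add t ih.1, congrArg (· + _) ?_⟩
    rcases Pool.Agent.Stark.zmod2_cases (a i) with e | e
    · simp [e]
    · rw [e, ZMod.val_one, one_smul, one_mul]

theorem sg_rep {r : ℕ} {B : Fin r → G → Pt} {β : G → Pt} {ε : Fin r → G → ZMod 2}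
    (hB : ∀ i σ, 2 • B i σ = 0) (hβ : ∀ σ, 2 • β σ = 0) (h : ∀ i, Sg (cup (B i) β) (ε i))
    (a : Fin r → ZMod 2) : Sg (cup (rep B a) β) fun σ => ∑ i, a i * ε i σ := by
  classical
  choose J j k using fun i => (h i).1
  refine ⟨⟨Finset.univ.biUnion J, fun z hz => ?_, fun σ τ e => Finset.sum_congr rfl fun i _ => ?_⟩,
    fun σ τ => ?_⟩
  · obtain ⟨i, -, hi⟩ := Finset.mem_biUnion.1 hz
    exact j i z hi
  · rw [k i σ τ fun z hz => e z (Finset.mem_biUnion.2 ⟨i, Finset.mem_univ i, hz⟩)]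
  · rw [cup, rep_app, (ep_sum _ a _ (fun i => hB i σ) (Ep.two_smul' σ (hβ τ))).2,
      ← Finset.sum_add_distrib, ← Finset.sum_add_distrib]
    refine Finset.sum_congr rfl fun i _ => ?_
    rw [← mul_add, ← mul_add, ← (h i).2, cup]

theorem hm_mul {g h : G} (a : Hm 1 ∅ g) (b : Hm 1 ∅ h) : Hm 1 ∅ (g * h) :=
  ⟨mul_mem a.cm b.cm, fun T hT => by rw [mul_smul, b.tor T hT, a.tor T hT], by simp⟩

theorem aq {d : ℤ} (hd : Fam d) {N N' p : ℕ} (h44 : 44 ≤ N) (hdN : d.natAbs ≤ N) (hN : N ≤ N')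
    (h : N' < p) (hp : p.Prime) (h8 : p % 8 = 7) (hn : nr p = 1)
    (hs : ∀ l : ℕ, l.Prime → l ≠ 2 → l ≤ N' → Spl p l ∧ (l % 4 = 3 → ¬ Spl l p)) : Aq d N p := by
  have d0 : 0 < d.natAbs := Int.natAbs_pos.2 fun h => by have := hd.m4; omega
  refine ⟨⟨hd, ⟨hp, by omega, by omega, (hs 11 (by norm_num) (by norm_num) (by omega)).1⟩,
    fun k => ?_, hn, fun l hl k => ?_⟩, h8, by omega, fun l hl h2 k => (hs l hl h2 (by omega)).1⟩
  · have := Nat.le_of_dvd d0 (Int.natCast_dvd.1 k)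
    omega
  · have := Nat.le_of_dvd d0 (Int.natCast_dvd.1 k)
    refine (hs l hl ?_ (by omega)).1
    rintro rfl
    have := hd.m4
    omega

theorem ex_ine {q : ℕ} (hq : q.Prime) {O : ValuationSubring ℂ} (hO : Ov O q) :
    ∃ σ : G, Frob O 1 σ ∧ σ (om q) ≠ om q := by
  obtain ⟨L, _, _, θ, hθ⟩ := Final.exists_cub
  obtain ⟨σ, a, b⟩ := (link1All L θ hθ).2.1 q O _ (-q) hq hO (Cheb.om_sqz q)
    (Int.squarefree_natAbs.1 (by simpa using hq.squarefree)) (by simp)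
  refine ⟨σ, a, fun k => ?_⟩
  rw [map_sub, map_mul, map_one, map_ofNat, k] at b
  have e := om_sq' q
  rw [show 2 * om q - 1 = 0 by linear_combination b / 2] at e
  exact hq.ne_zero (by simpa using e.symm)

/-- Admissible triples at which the class `α` is divisible by two. -/
structure Hit (d : ℤ) (N : ℕ) {r : ℕ} (B : Fin r → G → Pt) (α : G → Pt) (q : ℕ) (f : G) :
    Prop where
  aq : Aq d N q
  pl : ∃ O, Ov O q ∧ Frob O q f
  ze : ∀ i, B i f = 0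
  dv : ∃ x, Sel (-(q * d)) 2 ∅ x ∧ 2 • x = α

end QchA

open RelA QchA in
theorem qch_thm (hBasis : BasisStmt) (hHeis : HeisStmt) (hRam : RamStmt) (hFb : FbStmt)
    (hA : SubAStmt) (hB : SubBStmt) (hRel : RelStmt) (hAlt : AltStmt) : QchStmt := by
  classical
  intro d a₀ hd hfin ha₀
  have d0 : d ≠ 0 := fun h => by have := hd.m4; omega
  have hW : Wq 0 1 ∅ := fun w hw => by simp at hw
  by_cases hS : ∀ x, Sel d 1 ∅ x → Cb d x
  · obtain ⟨p, O, φ, a, h1, hp, hO, hφ, -, -, h8, hn, -, -, hs, -⟩ := hFb 0 1 ∅ 1 ∅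
      (44 + d.natAbs) one_ne_zero hW ⟨one_mem _, fun T _ => one_smul _ T, by simp⟩
      fun z hz => by simp at hz
    have A := aq hd (Nat.le_add_right _ _) (Nat.le_add_left _ _) le_rfl h1 hp h8 hn hs
    obtain ⟨σ₀, i₀, m₀⟩ := ex_ine hp hO
    obtain ⟨-, s2, s3, -⟩ := hA p d ∅ O σ₀ φ A.qd h8 hO i₀ m₀ hφ (by simp)
    have k : ∀ z, Sel (-(p * d)) 1 ∅ z → z σ₀ = 0 → Cb (-(p * d)) z := fun z hz e => by
      obtain ⟨T, t, u⟩ := cb_two (cy_two hz.cy) (hS z (s2 z hz e).1)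
      exact two_cb _ t u
    refine ⟨p, A.qd, h8, fun x y hx hy => ?_, fun h => absurd (hS a₀ ha₀) h⟩
    rw [pow_one]
    have a := sel_dbl hx
    have b := sel_dbl hy
    exact (s3 _ _ (coc a.cy) (coc b.cy)).imp (k _ a)
      (Or.imp (k _ b) fun e => k _ (sel_sub a b) (sub_eq_zero.2 e))
  obtain ⟨a₁, ha₁, n₁, e₁⟩ : ∃ a₁, Sel d 1 ∅ a₁ ∧ ¬ Cb d a₁ ∧ (¬ Cb d a₀ → a₁ = a₀) := by
    by_cases h : Cb d a₀
    · push Not at hS
      obtain ⟨x, a, b⟩ := hS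
      exact ⟨x, a, b, fun k => absurd h k⟩
    · exact ⟨a₀, ha₀, h, fun _ => rfl⟩
  obtain ⟨r, B, b0, b1, b2, b3⟩ := hBasis d a₁ hfin ha₁ n₁
  obtain ⟨ε, g, hε, hg, g1, g2, hM⟩ := hHeis d r B hd b1 b2
  have B2 : ∀ i σ, 2 • B i σ = 0 := fun i => cy_two (b1 i).1.cy
  have ε1 : ∀ i j, ε i j 1 = 0 := fun i j => sg_one (hε i j) (by
    rw [cup, cy_one (b1 _).1.cy, epE, Ep.ep_zero_left])
  obtain ⟨J, hJ, jB, jε⟩ : ∃ J : Finset ℂ, Al J ∧ (∀ i σ τ, Ag J σ τ → B i σ = B i τ) ∧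
      ∀ i j σ τ, Ag J σ τ → ε i j σ = ε i j τ := by
    choose J₁ j₁ k₁ using fun i => cy_fn (b1 i).1.cy
    choose J₂ j₂ k₂ using fun p : Fin r × Fin r => (hε p.1 p.2).1
    refine ⟨Finset.univ.biUnion J₁ ∪ Finset.univ.biUnion J₂, fun z hz => ?_,
      fun i σ τ e => k₁ i σ τ fun z hz => e z ?_, fun i j σ τ e => k₂ (i, j) σ τ fun z hz => e z ?_⟩
    · simp only [Finset.mem_union, Finset.mem_biUnion, Finset.mem_univ, true_and] at hz
      rcases hz with ⟨i, hi⟩ | ⟨i, hi⟩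
      exacts [j₁ i z hi, j₂ i z hi]
    · exact Finset.mem_union_left _ (Finset.mem_biUnion.2 ⟨i, Finset.mem_univ _, hz⟩)
    · exact Finset.mem_union_right _ (Finset.mem_biUnion.2 ⟨(i, j), Finset.mem_univ _, hz⟩)
  obtain ⟨N₀, hN₀⟩ := hRam J hJ
  obtain ⟨N, hN⟩ : ∃ N, N = N₀ + 44 + d.natAbs := ⟨_, rfl⟩
  obtain ⟨B', hB'⟩ : ∃ B' : Fin r → G → Pt, ∀ i, B' i = B i.succ := ⟨_, fun _ => rfl⟩
  obtain ⟨qa, fa, hit⟩ : ∃ (qa : (Fin r → ZMod 2) → ℕ) (fa : (Fin r → ZMod 2) → G),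
      ∀ a q f, Hit d N B' (rep B' a) q f → Hit d N B' (rep B' a) (qa a) (fa a) := by
    have : ∀ a, ∃ (q' : ℕ) (f' : G), ∀ q f, Hit d N B' (rep B' a) q f →
        Hit d N B' (rep B' a) q' f' := fun a => by
      by_cases h : ∃ q f, Hit d N B' (rep B' a) q f
      · obtain ⟨q, f, h⟩ := h
        exact ⟨q, f, fun _ _ _ => h⟩
      · exact ⟨0, 1, fun q f k => absurd ⟨q, f, k⟩ h⟩
    choose qa fa h using this
    exact ⟨qa, fa, h⟩
  obtain ⟨M, m1, m2, m3⟩ := hAlt r fun a j => ∑ i, a i * (ε i j (fa a) + ε i j (cj * g))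
  obtain ⟨h, hh, h1, h2⟩ := hM M m1 m2
  have gh := hm_mul hg hh
  obtain ⟨p, O, φ, a, hp1, hp, hO, hφ, ha, -, h8, hn, hT, hag, hs, -⟩ := hFb 0 1 ∅ (g * h) J
    (N + ∑ a, qa a) one_ne_zero hW gh hJ
  have A : Aq d N p := aq hd (by omega) (by omega) (Nat.le_add_right _ _) hp1 hp h8 hn hs
  have cc : ∀ T : Pt, cj • cj • T = T := fun T => by rw [← mul_smul, cj_mul_cj, one_smul]
  have φφ : ∀ T : Pt, 2 • T = 0 → (φ * φ) • T = T := fun T t => by
    rw [mul_smul, hT T (by rwa [pow_one]), hT _ (by rw [pow_one]; exact Ep.two_smul' cj t), cc]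
  have Bσ : ∀ i, B i (cj * (g * h)) = cj • B i g := fun i => by
    rw [cy_mul1 (b1 i).1.cy, (b1 i).2, zero_add, cy_right (b1 i).1.cy g (h1 i)]
  have Bσ' : ∀ i : Fin r, B i.succ (cj * (g * h)) = 0 := fun i => by rw [Bσ, g1, smul_zero]
  have Bφ : ∀ i : Fin r, B i.succ φ = 0 := fun i => by
    rw [← pow_one φ, jB _ _ _ (hag 1), cy_pow0 (b1 _).1.cy (Bσ' i)]
  have act : ∀ T : Pt, 2 • T = 0 → (cj * (g * h)) • T = cj • T := fun T t => by
    rw [mul_smul, gh.tor T (by rwa [pow_one])]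
  have B0 : B 0 (φ * φ) ≠ 0 := by
    rw [← pow_two, jB _ _ _ (hag 2), mul_comm a, pow_mul, cy_pow (b1 0).1.cy fun T t => by
      rw [pow_two, mul_smul, act T t, act _ (Ep.two_smul' cj t), cc], odd_smul (B2 _ _) ha, pow_two,
      cy_mul1 (b1 0).1.cy, act _ (B2 _ _), Bσ, cc, ← Ep.neg_two (B2 0 g), smul_neg,
      Ep.neg_two (Ep.two_smul' cj (B2 0 g)), ← sub_eq_add_neg]
    exact sub_ne_zero.2 g2
  have εφ : ∀ i j, ε i j φ = ε i j (cj * g) + M i j := fun i j => by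
    have : B i.succ (cj * g) = 0 := by rw [cy_right (b1 _).1.cy cj (g1 i), (b1 _).2]
    rw [← pow_one φ, jε _ _ _ _ (hag 1), sg_pow (hε i j) (ε1 i j) (Bσ' i), mul_one,
      (ZMod.natCast_eq_one_iff_odd).2 ha, one_mul, ← mul_assoc, sg_mul (hε i j), this, epE,
      Ep.ep_zero_left, add_zero, h2]
  obtain ⟨σ₀, i₀, m₀⟩ := ex_ine hp hO
  obtain ⟨-, s2, -, -⟩ := hA p d ∅ O σ₀ φ A.qd h8 hO i₀ m₀ hφ (by simp)
  have c0 : -((p : ℤ) * d) ≠ 0 := neg_ne_zero.2 (mul_ne_zero (by exact_mod_cast hp.ne_zero) d0)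
  have key : ∀ x, Sel (-(p * d)) 2 ∅ x → ∃ (a : Fin r → ZMod 2) (T : Pt), 2 • T = 0 ∧
      (∀ σ, (2 • x) σ - rep B' a σ = σ • T - T) ∧
      ∀ j, ∑ i, a i * M i j = ∑ i, a i * (ε i j (fa a) + ε i j (cj * g)) := by
    intro x hx
    have z := sel_dbl hx
    obtain ⟨z1, z2⟩ := s2 _ z (hB.1 p d ∅ O σ₀ φ _ (B 0) A.qd h8 (fun _ k => by simp at k) hO i₀ m₀
      hφ z (b1 0).1 B0)
    obtain ⟨a', ha'⟩ := b3 _ z1
    obtain ⟨T, t, u⟩ := cb_two (fun σ => by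
      rw [Pi.sub_apply, smul_sub, cy_two z.cy, rep_app,
        (ep_sum _ a' _ (fun i => B2 i σ) (smul_zero 2)).1, sub_self]) ha'
    have a0 : a' 0 = 0 := by
      have k := u (φ * φ)
      rw [Pi.sub_apply, z2, φφ T t, sub_self, zero_sub, neg_eq_zero, rep_app, Fin.sum_univ_succ,
        Finset.sum_eq_zero fun i _ => by rw [cy_right (b1 _).1.cy φ (Bφ i), Bφ, smul_zero],
        add_zero] at k
      refine (Pool.Agent.Stark.zmod2_cases _).resolve_right fun e => B0 ?_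
      rwa [e, ZMod.val_one, one_smul] at k
    have u' : ∀ σ, (2 • x) σ - rep B' (fun i => a' i.succ) σ = σ • T - T := fun σ => by
      rw [← u, Pi.sub_apply, rep_app, rep_app, Fin.sum_univ_succ, a0, ZMod.val_zero, zero_smul,
        zero_add]
      simp only [hB']
    refine ⟨fun i => a' i.succ, T, t, u', fun j => ?_⟩
    generalize (fun i : Fin r => a' i.succ) = b at u'
    obtain ⟨T', t'⟩ := rAll.1.1.2.2.2.2.2 T
    have x2 : 2 • (x - fun σ => tw (-(p * d)) σ T' - T') = rep B' b := funext fun σ => by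
      rw [Pi.smul_apply, Pi.sub_apply, smul_sub, smul_sub, ← tw_dbl, t', tw_two _ σ t, ← u' σ]
      simp
    have x1 := sel_sub hx (sel_cob c0 (k := 2) (T := T') (by rw [pow_two, mul_smul, t', t]))
    obtain ⟨f1, ⟨O', f2, f3⟩, f4, y, f5, f6⟩ :=
      hit b p φ ⟨A, ⟨O, hO, hφ⟩, fun i => by rw [hB', Bφ], _, x1, x2⟩
    have lt : qa b ≤ ∑ a, qa a :=
      Finset.single_le_sum (f := qa) (fun _ _ => Nat.zero_le _) (Finset.mem_univ b)
    have R := hRel d N p (qa b) O O' φ (fa b) _ y (B j.succ) (fun σ => ∑ i, b i * ε i j σ)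
      (by omega) (by omega) A f1 (by omega) hO f2 hφ f3 x1 f5 (x2.trans f6.symm) (b1 _).1 (b1 _).2
      (Bφ j) (by rw [← hB', f4]) (by
        rw [x2]
        exact sg_rep (fun i σ => by rw [hB', B2]) (B2 _) (fun i => by rw [hB']; exact hε i j) b)
      fun v O σ hv k o i => Finset.sum_eq_zero fun l _ => by
        rw [jε l j σ 1 (hN₀ v O σ hv (by omega) o i), ε1, mul_zero]
    simp only [εφ, mul_add, Finset.sum_add_distrib] at R ⊢
    rw [← R, add_right_comm, CharTwo.add_self_eq_zero, zero_add]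
  refine ⟨p, A.qd, h8, fun x y hx hy => ?_, fun k => ⟨O, φ, hO, hφ, fun e => B0 ?_⟩⟩
  · rw [pow_one]
    obtain ⟨b, T, t, u, w⟩ := key x hx
    obtain ⟨b', T', t', u', w'⟩ := key y hy
    by_cases e : b = 0
    · exact Or.inl (two_cb _ t fun σ => by rw [← u σ, e, rep_app]; simp)
    by_cases e' : b' = 0
    · exact Or.inr (Or.inl (two_cb _ t' fun σ => by rw [← u' σ, e', rep_app]; simp))
    obtain rfl := m3 b b' e e' w w'
    refine Or.inr (Or.inr (two_cb _ (T := T - T') (by rw [smul_sub, t, t', sub_self]) fun σ => ?_))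
    rw [Pi.sub_apply, smul_sub, ← sub_sub_sub_cancel_right _ _ (rep B' b σ), u, u']
    abel
  · obtain ⟨T, t, u⟩ := cb_two (fun σ => by
      rw [Pi.sub_apply, smul_sub, B2, cy_two ha₁.cy, sub_self]) b0
    have := u (φ * φ)
    rwa [Pi.sub_apply, φφ T t, sub_self, e₁ k, e, sub_zero] at this

end Pool.Agent.Lib.MP_d6ddbd_nt.KI
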