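import Pool.Agent.Lib.MP_d6ddbd_nt.KI.Bas
import Pool.Agent.Lib.MP_d6ddbd_nt.KI.Cm
import Pool.Agent.Lib.MP_d6ddbd_nt.KI.Qch

/-!
From the Selmer classes of the cubic field to Selmer cocycles.
-/

set_option autoImplicit false
set_option maxSynthPendingDepth 3

open NumberField
open Pool.Agent.Lib.MP_02f36d_nt (xc yc)
open Pool.Agent.Stark (Pr og LSq SqCl cl pw wv emb ord)
open Pool.Agent.Lib.MP_d6ddbd_nt.K11
open Pool.Agent.Lib.MP_d6ddbd_nt.K11.R1 (wl_add wl_smul map_fc hh hh_sq pt_spec)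

noncomputable section

namespace Pool.Agent.Lib.MP_d6ddbd_nt.KI

namespace Rev

variable {O : ValuationSubring ℂ}

theorem dc_mul {σ τ : G} (h : Dc O σ) (h' : Dc O τ) : Dc O (σ * τ) := fun x hx =>
  (h _ (V2.alg τ hx)).trans (h' x hx)

theorem dc_inv {σ : G} (h : Dc O σ) : Dc O σ⁻¹ := fun x hx => by
  have := h _ (V2.alg σ⁻¹ hx)
  rw [show σ (σ⁻¹ x) = x from σ.apply_symm_apply x] at this
  exact this.symm

theorem orb (O : ValuationSubring ℂ) : ∃ (r : ℂ → ℂ) (g : ℂ → G),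
    (∀ e, Dc O (g e) ∧ g e (r e) = e) ∧ ∀ (σ : G) e, Dc O σ → r (σ e) = r e := by
  let s : Setoid ℂ := ⟨fun a b => ∃ g : G, Dc O g ∧ g a = b,
    fun a => ⟨1, fun _ _ => Iff.rfl, rfl⟩,
    fun ⟨g, a, b⟩ => ⟨g⁻¹, dc_inv a, b ▸ g.symm_apply_apply _⟩,
    fun ⟨g, a, b⟩ ⟨g', a', b'⟩ => ⟨g' * g, dc_mul a' a, b' ▸ b ▸ rfl⟩⟩
  choose g hg using fun e : ℂ => (Quotient.mk_out e : s.r _ _)
  exact ⟨fun e => (Quotient.mk s e).out, g, hg, fun σ e h =>
    congrArg Quotient.out (Quotient.sound (s.symm ⟨σ, h, rfl⟩))⟩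

theorem stab {r : ℂ → ℂ} {g : ℂ → G} (h : ∀ e, Dc O (g e) ∧ g e (r e) = e)
    (h' : ∀ (σ : G) e, Dc O σ → r (σ e) = r e) {σ : G} (hσ : Dc O σ) (e : ℂ) :
    ∃ k : G, Dc O k ∧ k (r e) = r e ∧ σ * g e = g (σ e) * k :=
  ⟨(g (σ e))⁻¹ * (σ * g e), dc_mul (dc_inv (h _).1) (dc_mul hσ (h e).1), (g (σ e)).injective (by
    rw [← RingAut.mul_apply, mul_inv_cancel_left, RingAut.mul_apply, (h e).2, ← h' σ e hσ, (h _).2]),
    (mul_inv_cancel_left _ _).symm⟩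

theorem root_of {g : G} {x : ℂ} (h : fc (g x) = 0) : fc x = 0 := by
  rwa [← map_fc, map_eq_zero] at h

theorem root_map (g : G) {x : ℂ} (h : fc x = 0) : fc (g x) = 0 := by
  rw [← map_fc, h, map_zero]

/-- A cocycle on the decomposition group that is trivial for each root is a coboundary. -/
theorem shap {η : G → Pt} (h2 : ∀ σ, Dc O σ → 2 • η σ = 0)
    (hm : ∀ σ τ, Dc O σ → Dc O τ → η (σ * τ) = η σ + σ • η τ)
    (h0 : ∀ (σ : G) e, Dc O σ → fc e = 0 → σ e = e → wl e (η σ) = 0) :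
    ∃ T : Pt, 2 • T = 0 ∧ ∀ σ, Dc O σ → η σ = σ • T - T := by
  classical
  obtain ⟨r, g, h, h'⟩ := orb O
  obtain ⟨δ, hδ⟩ : ∃ δ : ℂ → ZMod 2, ∀ e, δ e = wl e (η (g e)) := ⟨_, fun _ => rfl⟩
  obtain ⟨P, hP⟩ : ∃ P : ℂ → Pt, ∀ e, P e = if fc e = 0 then pt e 0 else 0 := ⟨_, fun _ => rfl⟩
  have P2 : ∀ e, 2 • P e = 0 := fun e => by
    rw [hP]
    split_ifs with k
    exacts [(Cm.pt_root k).2.1, smul_zero _]
  have t := (QchA.ep_sum Ep.Rt δ P P2 (smul_zero 2)).1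
  have w : ∀ e, fc e = 0 → wl e (∑ x ∈ Ep.Rt, (δ x).val • P x) = δ e + ∑ x ∈ Ep.Rt, δ x := by
    intro e he
    obtain ⟨a1, a2, a3⟩ := Cm.pt_root he
    have := (QchA.ep_sum Ep.Rt δ P P2 a2).2
    rw [RelA.epE, Ep.ep_eq_wl t a2 a1, a3] at this
    rw [this, ← Finset.add_sum_erase _ _ (Ep.mem_Rt.2 he), ← Finset.add_sum_erase _ _
      (Ep.mem_Rt.2 he), hP, if_pos he, Ep.ep_self, mul_zero, zero_add, CharTwo.add_cancel_left]
    refine Finset.sum_congr rfl fun x hx => ?_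
    obtain ⟨b0, b⟩ := Finset.mem_erase.1 hx
    obtain ⟨b1, b2, b3⟩ := Cm.pt_root (Ep.mem_Rt.1 b)
    rw [hP, if_pos (Ep.mem_Rt.1 b), Ep.ep_eq_wl b2 a2 a1, a3, R1.wl_ne b1 (by rwa [b3]), mul_one]
  generalize ∑ x ∈ Ep.Rt, (δ x).val • P x = T at t w
  refine ⟨T, t, fun σ hσ => ?_⟩
  rw [sub_eq_add_neg, Ep.neg_two t]
  refine Cm.wl_ext (h2 σ hσ) (Ep.two_add (Ep.two_smul' σ t) t) fun x hx => ?_
  obtain ⟨e, rfl⟩ := σ.surjective x
  have he := root_of hx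
  obtain ⟨k, k1, k2, k3⟩ := stab h h' hσ e
  have a := congrArg (fun s => wl (σ e) (η s)) k3
  have b : wl (σ e) (g (σ e) • η k) = 0 := by
    rw [← h0 k (r e) k1 (root_of (by rwa [(h e).2])) k2, ← wl_smul (r e) (g (σ e)), ← h' σ e hσ,
      (h _).2]
  rw [hm _ _ hσ (h e).1, hm _ _ (h _).1 k1, wl_add _ _ _ hx (h2 σ hσ)
    (Ep.two_smul' σ (h2 _ (h e).1)), wl_add _ _ _ hx (h2 _ (h _).1) (Ep.two_smul' _ (h2 k k1)), b,
    wl_smul, ← hδ, ← hδ] at a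
  rw [wl_add _ _ _ hx (Ep.two_smul' σ t) t, wl_smul, w e he, w _ hx]
  have z : ∀ a : ZMod 2, a + a = 0 := by decide
  linear_combination a - z (δ e) - z (∑ x ∈ Ep.Rt, δ x)

variable {L : Type} [Field L] [NumberField L]

/-- The decomposition group fixes the square roots of local squares. -/
theorem fix_lsq {f : L →+* ℂ} {𝔭 : Pr L} (hb : Below f O 𝔭) {γ : L} (h0 : γ ≠ 0) (h : LSq 𝔭 γ)
    {c : ℂ} (hc : c ^ 2 = f γ) {σ : G} (hσ : Dc O σ) (hf : ∀ y, σ (f y) = f y) : σ c = c := by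
  obtain ⟨ρ, hρ⟩ := h
  have ρ0 : ρ ≠ 0 := fun k => (map_ne_zero (emb 𝔭)).2 h0 (by rw [hρ, k, mul_zero])
  have n4 : (4 : Stark.Kc 𝔭) ≠ 0 := by
    rw [← map_ofNat (emb 𝔭) 4]
    exact (map_ne_zero _).2 (by norm_num)
  obtain ⟨y, hy⟩ := Stark.exists_approx 𝔭 ρ (ord (wv 𝔭) ρ + (ord (wv 𝔭) 4 + 1))
  have d1 := Stark.ComplAux.pw_div ρ0 hy
  have d2 := Stark.ComplAux.pw_div n4 d1
  have v2 : wv 𝔭 2 ≤ 1 := by
    rw [← one_add_one_eq_two]
    exact ((wv 𝔭).map_add _ _).trans (by simp)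
  have v4 : wv 𝔭 4 ≤ 1 := by
    rw [show (4 : Stark.Kc 𝔭) = 2 * 2 by norm_num, map_mul]
    exact mul_le_one' v2 v2
  obtain ⟨m, hm⟩ : ∃ m : L, m = (y ^ 2 / γ - 1) / 4 := ⟨_, rfl⟩
  have m1 : m ∈ pw (𝔭.valuation L) 1 := by
    rw [← Stark.ComplAux.emb_mem_pw, Stark.mem_pw]
    rw [Stark.mem_pw] at d2
    have e : emb 𝔭 m = (emb 𝔭 y - ρ) / ρ / 4 * (2 + 4 * ((emb 𝔭 y - ρ) / ρ / 4)) := by
      rw [hm, map_div₀, map_sub, map_div₀, map_pow, hρ, map_one, map_ofNat]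
      field_simp
      ring
    rw [e, map_mul]
    refine (mul_le_of_le_one_right' (((wv 𝔭).map_add _ _).trans (max_le v2 ?_))).trans d2
    rw [map_mul]
    exact mul_le_one' v4 (d2.trans (by rw [← WithZero.exp_zero, WithZero.exp_le_exp]; norm_num))
  have m2 : f m ∈ O.nonunits := by
    by_cases k : m = 0
    · rw [k, map_zero]
      exact zero_mem _
    · exact (vA.1.2.2.2.1 L f O 𝔭 hb m k).2 ((Stark.mem_pw_iff.1 m1).resolve_left k)
  have c0 : c ≠ 0 := fun k => (map_ne_zero f).2 h0 (by rw [← hc, k]; ring)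
  obtain ⟨t, ht⟩ : ∃ t : ℂ, t = (f y / c - 1) / 2 := ⟨_, rfl⟩
  have t1 : t * (t + 1) = f m := by
    rw [ht, hm, map_div₀, map_sub, map_div₀, map_pow, ← hc, map_one, map_ofNat]
    field_simp
    ring
  have al : ∀ z, IsAlgebraic ℚ (f z) := fun z => Loc0.alg_emb f z
  have ta : IsAlgebraic ℚ t := by
    rw [ht, div_eq_mul_inv, div_eq_mul_inv]
    exact (((al y).mul (IsAlgebraic.of_pow two_pos (hc ▸ al γ)).inv).sub isAlgebraic_one).mul
      (isAlgebraic_natCast 2).inv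
  refine (sq_eq_sq_iff_eq_or_eq_neg.1 (by rw [← map_pow, hc, hf])).resolve_right fun k => ?_
  have s : σ t = -(t + 1) := by
    rw [ht, map_div₀, map_sub, map_div₀, hf, k, map_one, map_ofNat]
    field_simp
    ring
  have nu := fun {x : ℂ} (hx : IsAlgebraic ℚ x) =>
    Loc0.nu_iff (O := O) (O' := O) (g := σ) (fun x hx => (hσ x hx).symm) hx
  have u : t ∈ O.nonunits ↔ t + 1 ∈ O.nonunits := by rw [nu ta, s, neg_mem_iff]
  have u' : t ∈ O.nonunits := by_contra fun a => a (u.2 (V2.nu_of_mul (t1 ▸ m2) a))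
  exact V2.one_not (by simpa using sub_mem (u.1 u') u')

variable {θ : L}

theorem loc (hθ : Cub θ) {d : ℤ} (hd : d ≠ 0) {α : L} (h0 : α ≠ 0)
    (hN : IsSquare (Algebra.norm ℚ α)) {ξ : G → Pt} (hξ : Coc ξ) (hK : Kum θ α ξ) {v : ℕ}
    (hv : v.Prime) (hO : Ov O v) (hl : LocS θ d v α) : Kl d O v ξ := by
  obtain ⟨x, z, β0, hl⟩ := hl
  obtain ⟨β, hβ⟩ : ∃ β : L, β = x - d * (z : L) ^ 2 * θ := ⟨_, rfl⟩
  rw [← hβ] at β0 hl
  obtain ⟨-, -, -, -, -, -, -, p8, p9, -⟩ := pr_thm L θ hθ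
  choose! F hF using p8
  have Fm : ∀ (σ : G) e, fc e = 0 → ∀ y, σ (F e y) = F (σ e) y := fun σ e he y =>
    Cm.emb_ext pr_thm hθ (e := σ.toRingHom.comp (F e))
      ((congrArg σ (hF e he)).trans (hF _ (root_map σ he)).symm) y
  have Fβ : ∀ e, fc e = 0 → F e β = x - d * (z : ℂ) ^ 2 * e := fun e he => by
    rw [hβ]
    simp [hF e he]
  choose c hc using fun e => IsAlgClosed.exists_pow_nat_eq (F e (α * β)) two_pos
  have cf : ∀ (σ : G) e, Dc O σ → fc e = 0 → σ e = e → σ (c e) = c e := fun σ e hσ he k => by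
    obtain ⟨𝔭, a, b⟩ := vA.1.2.2.1 L (F e) v O hv hO
    exact fix_lsq b (mul_ne_zero h0 β0) (hl 𝔭 a) (hc e) hσ fun y => by rw [Fm σ e he, k]
  obtain ⟨n, hn⟩ := hN
  have n0 : (n : ℂ) ≠ 0 := by
    rw [Ne, Rat.cast_eq_zero]
    rintro rfl
    exact h0 (Algebra.norm_eq_zero_iff.1 (hn.trans (mul_zero _)))
  obtain ⟨Y, Y2, YD⟩ : ∃ Y : ℂ, Y ^ 2 = ∏ e ∈ Ep.Rt, ((x : ℂ) - d * (z : ℂ) ^ 2 * e) ∧
      ∀ σ : G, Dc O σ → σ Y = Y := by
    obtain ⟨r, g, h, h'⟩ := orb O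
    refine ⟨(∏ e ∈ Ep.Rt, g e (c (r e))) / n, ?_, fun σ hσ => ?_⟩
    · obtain ⟨a, ha, -⟩ := Ep.other 0
      obtain ⟨b, hb, ab⟩ := Ep.other a
      obtain ⟨k0, k1, k2, k3⟩ := Ep.prod_Rt ha hb ab
      have N := p9 α (F a) (F b) (F (4 - a - b)) (by rwa [hF a ha, hF b hb])
        (by rwa [hF a ha, hF _ k0]) (by rwa [hF b hb, hF _ k0])
      rw [← k3 fun e => F e α, hn, Rat.cast_mul] at N
      rw [div_pow, div_eq_iff (pow_ne_zero 2 n0), sq (n : ℂ), N, ← Finset.prod_pow,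
        ← Finset.prod_mul_distrib]
      refine Finset.prod_congr rfl fun e he => ?_
      have he' := Ep.mem_Rt.1 he
      rw [← map_pow, hc, Fm _ _ (root_of (by rwa [(h e).2])), (h e).2, map_mul, Fβ e he', mul_comm]
    · rw [map_div₀, map_ratCast, map_prod, ← Ep.prod_smul σ fun e => g e (c (r e))]
      refine congrArg (· / _) (Finset.prod_congr rfl fun e he => ?_)
      obtain ⟨k, k1, k2, k3⟩ := stab h h' hσ e
      rw [← RingAut.mul_apply, k3, RingAut.mul_apply,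
        cf k _ k1 (root_of (by rw [(h e).2]; exact Ep.mem_Rt.1 he)) k2, h' σ e hσ]
  have hχ : ∀ σ : G, (cq d σ = 1 ∨ cq d σ = -1) ∧ σ (rt d) = cq d σ * rt d := fun σ =>
    ⟨RelA.cq_or d σ, RelA.cq_app d σ (rt_sq d)⟩
  have r0 := RelA.rt_ne hd
  obtain ⟨S, b, s1, s2, s3⟩ : ∃ (S : Pt) (b : ℂ → ℂ), AlgP S ∧
      (∀ σ, Dc O σ → 2 • Ep.kx (cq d) S σ = 0) ∧ ∀ e, fc e = 0 → b e ^ 2 = F e β ∧
        ∀ σ : G, Dc O σ → σ e = e → σ (b e) = Ep.sg (wl e (Ep.kx (cq d) S σ)) * b e := by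
    obtain ⟨a, ha, -⟩ := Ep.other 0
    obtain ⟨b, hb, ab⟩ := Ep.other a
    obtain ⟨-, -, -, k3⟩ := Ep.prod_Rt ha hb ab
    rw [k3] at Y2
    by_cases z0 : z = 0
    · have x0 : (x : ℂ) ≠ 0 := by
        rw [Ne, Rat.cast_eq_zero]
        rintro rfl
        exact β0 (by simp [hβ, z0])
      refine ⟨0, fun _ => Y / x, rA.1.1.1, fun σ _ => by simp [Ep.kx], fun e he => ⟨?_,
        fun σ hσ _ => by simp [Ep.kx, R1.wl0, Ep.sg, YD σ hσ]⟩⟩
      rw [div_pow, Y2, Fβ e he, z0]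
      field_simp
      push_cast
      ring
    have z1 : (z : ℂ) ≠ 0 := by exact_mod_cast z0
    have d1 : (d : ℂ) ≠ 0 := by exact_mod_cast hd
    obtain ⟨R0, Rx, Ry⟩ := pt_spec (x := x / (d * z ^ 2)) (y := Y / (d * z ^ 3 * rt d)) (by
      rw [R1.fc_eq ha hb ab, div_pow, Y2, mul_pow, rt_sq]
      field_simp)
    generalize pt _ _ = R at R0 Rx Ry
    obtain ⟨S, rfl⟩ := R1.ex_half R
    have xa : IsAlgebraic ℚ (xc (2 • S)) := by
      rw [Rx]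
      exact_mod_cast isAlgebraic_ratCast (A := ℂ) ℚ (x / (d * z ^ (2 : ℕ)))
    have S0 : S ≠ 0 := fun k => R0 (by rw [k, smul_zero])
    have y0 : yc S ≠ 0 := fun k =>
      R0 ((R1.two_iff S).2 (Or.inr ⟨k, by rw [← R1.eq1 S0, k]; ring⟩))
    have inv : ∀ σ, Dc O σ → 2 • Ep.kx (cq d) S σ = 0 := fun σ hσ => by
      have n : σ • (2 • S) ≠ 0 := fun k => R0 ((smul_eq_zero' σ _).1 k)
      have e1 : xc (σ • (2 • S)) = xc (2 • S) := by rw [xc_smul, Rx]; simp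
      have e2 : (cq d σ : ℂ) * yc (σ • (2 • S)) = yc (2 • S) := by
        rw [yc_smul, Ry, map_div₀, map_mul, map_mul, map_pow, map_intCast, map_ratCast, YD σ hσ,
          (hχ σ).2]
        rcases (hχ σ).1 with k | k <;> rw [k] <;> field_simp
      rw [Ep.kx, smul_sub, sub_eq_zero, smul_comm, smul_comm 2 σ]
      rcases (hχ σ).1 with k | k <;> rw [k] at e2 ⊢
      · rw [one_smul]
        exact act_ext (by simp only [n, R0]) e1 (by simpa using e2)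
      · rw [neg_smul, one_smul]
        exact act_ext (by simp only [neg_eq_zero, n, R0])
          ((Pool.Agent.Lib.MP_02f36d_nt.xc_neg _).trans e1) (by rw [R1.ycn n]; simpa using e2)
    refine ⟨S, fun e => z * (rt d * hh e S), R1.alg_half S ⟨xa, IsAlgebraic.of_pow two_pos ?_⟩, inv,
      fun e he => ⟨?_, fun σ hσ k => ?_⟩⟩
    · rw [R1.eq1 R0, fc]
      exact (((xa.pow 3).sub ((isAlgebraic_natCast 4).mul (xa.pow 2))).sub
        ((isAlgebraic_natCast 160).mul xa)).sub (isAlgebraic_natCast 1264)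
    · rw [mul_pow, mul_pow, hh_sq he S0 y0, Rx, rt_sq, Fβ e he]
      field_simp
    · rw [map_mul, map_ratCast, Ep.hh_move hχ R0 (inv σ hσ) he, k]
      ring
  obtain ⟨T, t, u⟩ := shap (O := O) (η := fun σ => ξ σ + Ep.kx (cq d) S σ)
    (fun σ hσ => Ep.two_add (hξ.two σ) (s2 σ hσ)) (fun σ τ _ hτ => by
      rw [hξ.mul, Ep.kx_mul r0 hχ S σ (s2 τ hτ), smul_add]
      abel) fun σ e hσ he k => by
      obtain ⟨b1, b2⟩ := s3 e he
      have b0 : b e ≠ 0 := fun k => (map_ne_zero (F e)).2 β0 (by rw [← b1, k]; ring)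
      have a1 : (c e / b e) ^ 2 = F e α := by
        rw [div_pow, hc, b1, map_mul, mul_div_cancel_right₀ _ ((map_ne_zero (F e)).2 β0)]
      have a0 : c e / b e ≠ 0 := fun k => (map_ne_zero (F e)).2 h0 (by rw [← a1, k]; ring)
      have a2 := Cm.kum_sg pr_thm hθ hK a1 (σ := σ) (by rw [hF e he, k])
      rw [hF e he, map_div₀, cf σ e hσ he k, b2 σ hσ k] at a2
      rw [wl_add _ _ _ he (hξ.two σ) (s2 σ hσ)]
      refine Ep.sg_inj ?_
      have s0 : Ep.sg (wl e (Ep.kx (cq d) S σ)) ≠ 0 := Iso.sg_ne _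
      rw [Ep.sg_add, show Ep.sg 0 = 1 from if_pos rfl]
      refine mul_right_cancel₀ a0 ?_
      change _ = Ep.sg _ * _ at a2
      rw [mul_right_comm, ← a2]
      field_simp
  refine ⟨S + T, rA.1.1.2.1 _ _ s1 ((Cheb.tors rA.1 1).2 T (by simpa using t)), fun σ ⟨j, hσ⟩ => ?_⟩
  have D : Dc O σ := fun y hy => (vA.2.1.2.1 O _ σ y hσ (pow_ne_zero j hv.ne_zero) hy).1
  have e := u σ D
  rw [← Ep.neg_two (s2 σ D), ← sub_eq_add_neg, sub_eq_iff_eq_add, Ep.kx] at e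
  rw [e, tw_add, tw_two d σ t, tw]
  abel

end Rev

variable {L : Type} [Field L] [NumberField L] {θ : L}

/-- Every Selmer class of the cubic field comes from a Selmer cocycle. -/
theorem rev (hθ : Cub θ) {d : ℤ} (hd : d ≠ 0) {α : L} (h : SelC θ d α) :
    ∃ ξ, Sel d 1 ∅ ξ ∧ Kum θ α ξ := by
  obtain ⟨ξ, a, b⟩ := Cm.inv_kum pr_thm hθ h.1 h.2.1
  exact ⟨ξ, ⟨cy_one.2 a, fun v O hv _ hO => Rev.loc hθ hd h.1 h.2.1 a b hv hO (h.2.2 v hv),
    by simp⟩, b⟩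

/-- Fewer than four classes of cocycles give at most two classes in the cubic field. -/
theorem selN_le (hθ : Cub θ) {d : ℤ} (hd : d ≠ 0)
    (h : ∀ s : Finset (G → Pt), (∀ x ∈ s, Sel d 1 ∅ x) →
      (∀ x ∈ s, ∀ y ∈ s, Cb d (x - y) → x = y) → s.card < 4 ^ 1) :
    selN θ d = 2 ∨ selN θ d = 1 := by
  classical
  have one : SelC θ d 1 := ⟨one_ne_zero, by simp, fun p _ => ⟨1, 0, by simp, fun 𝔭 _ => by
    simp [LSq]⟩⟩
  have c1 : cl (1 : L) = 0 := (Stark.cl_eq_zero one_ne_zero).2 IsSquare.one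
  have key : ∀ α β : L, SelC θ d α → SelC θ d β → cl α = 0 ∨ cl β = 0 ∨ cl α = cl β := by
    intro α β a b
    by_contra! k
    obtain ⟨x, x1, x2⟩ := rev hθ hd a
    obtain ⟨y, y1, y2⟩ := rev hθ hd b
    have K := (kumAll L θ hθ).2
    have nx : ¬ Cb d x := fun e => k.1 ((Stark.cl_eq_zero a.1).2
      ((K α x a.1 x1.coc x2).2 ((cb_cob_iff x1.two).1 e)))
    have ny : ¬ Cb d y := fun e => k.2.1 ((Stark.cl_eq_zero b.1).2
      ((K β y b.1 y1.coc y2).2 ((cb_cob_iff y1.two).1 e)))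
    have nz : ¬ Cb d (x + y) := fun e => k.2.2 ((Stark.cl_eq_cl a.1 b.1).2
      ((K _ _ (mul_ne_zero a.1 b.1) (x1.add y1).coc
        (Cm.kum_mul pr_thm hθ a.1 b.1 x1.coc y1.coc x2 y2)).2 ((cb_cob_iff (x1.add y1).two).1 e)))
    have ex : -x = x := funext fun σ => Ep.neg_two (x1.two σ)
    have ey : -y = y := funext fun σ => Ep.neg_two (y1.two σ)
    have xx : x + x = 0 := by rw [← neg_eq_iff_add_eq_zero, ex]
    have n1 : x ≠ 0 := fun e => nx (e ▸ cb_zero d)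
    have n2 : y ≠ 0 := fun e => ny (e ▸ cb_zero d)
    have n3 : x + y ≠ 0 := fun e => nz (e ▸ cb_zero d)
    have n4 : x ≠ y := fun e => n3 (e ▸ xx)
    have := h {0, x, y, x + y} (fun w hw => ?_) fun w hw w' hw' e => ?_
    · rw [Finset.card_insert_of_notMem (by simp [n1.symm, n2.symm, n3.symm]),
        Finset.card_insert_of_notMem (by simp [n2, n4]), Finset.card_pair (by simp [n1])] at this
      omega
    · simp only [Finset.mem_insert, Finset.mem_singleton] at hw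
      rcases hw with rfl | rfl | rfl | rfl
      exacts [sel_zero _ _ _, x1, y1, x1.add y1]
    · simp only [Finset.mem_insert, Finset.mem_singleton] at hw hw'
      have f : ∀ {a b : G → Pt}, Cb d (a - b) → Cb d (b - a) := Cb.symm
      have p1 : ¬ Cb d (x - 0) := by rwa [sub_zero]
      have p2 : ¬ Cb d (y - 0) := by rwa [sub_zero]
      have p3 : ¬ Cb d (x + y - 0) := by rwa [sub_zero]
      have p4 : ¬ Cb d (x - y) := by rwa [sub_eq_add_neg, ey]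
      have p5 : ¬ Cb d (x + y - x) := by rwa [add_sub_cancel_left]
      have p6 : ¬ Cb d (x + y - y) := by rwa [add_sub_cancel_right]
      rcases hw with a | a | a | a <;> rcases hw' with a' | a' | a' | a' <;> rw [a, a'] at e ⊢ <;>
        exfalso
      exacts [p1 (f e), p2 (f e), p3 (f e), p1 e, p4 e, p5 (f e), p2 e, p4 (f e), p6 (f e), p3 e,
        p5 e, p6 e]
  by_cases e : ∀ α, SelC θ d α → cl α = 0
  · refine Or.inr (Nat.card_eq_one_iff_exists.2 ⟨⟨0, 1, one, c1⟩, ?_⟩)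
    rintro ⟨_, α, a, rfl⟩
    exact Subtype.ext (e α a)
  · push Not at e
    obtain ⟨β, b, n⟩ := e
    refine Or.inl (Nat.card_eq_two_iff.2 ⟨⟨0, 1, one, c1⟩, ⟨_, β, b, rfl⟩,
      fun k => n (congrArg Subtype.val k).symm, Set.eq_univ_of_forall ?_⟩)
    rintro ⟨_, α, a, rfl⟩
    rcases key α β a b with k | k | k
    exacts [Or.inl (Subtype.ext k), absurd k n, Or.inr (Subtype.ext k)]

end Pool.Agent.Lib.MP_d6ddbd_nt.KI
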