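import Pool.Agent.Lib.MP_d6ddbd_nt.KI.All
import Pool.Agent.Lib.MP_d6ddbd_nt.KI.Rev
import Pool.Agent.Lib.MP_d6ddbd_nt.K11.All
import Pool.Agent.Lib.MP_02f36d_nt.X11.Full

/-!
The full two-converse for the quadratic twists of `X₀(11)`: the algorithm.
-/

set_option autoImplicit false

open Pool.Agent.Lib.MP_d6ddbd_nt.K11

namespace Pool.Agent.Lib.MP_d6ddbd_nt.KI

theorem jac_iff {n : ℕ} (hn : Odd n) : jacobiSym (-11) n = -1 ↔
    n % 11 = 2 ∨ n % 11 = 6 ∨ n % 11 = 7 ∨ n % 11 = 8 ∨ n % 11 = 10 := by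
  have h : jacobiSym (-11) n = jacobiSym n 11 := by
    rw [jacobiSym.neg _ hn]
    rcases Nat.odd_mod_four_iff.1 (Nat.odd_iff.1 hn) with h4 | h4
    · rw [ZMod.χ₄_nat_one_mod_four h4, one_mul]
      exact (jacobiSym.quadratic_reciprocity_one_mod_four h4 (by decide)).symm
    · rw [ZMod.χ₄_nat_three_mod_four h4,
        jacobiSym.quadratic_reciprocity_three_mod_four h4 (b := 11) (by decide)]
      simp
  rw [h, jacobiSym.mod_left, show (n : ℤ) % (11 : ℕ) = (n % 11 : ℕ) by simp]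
  have : n % 11 < 11 := Nat.mod_lt _ (by norm_num)
  generalize n % 11 = r at this
  interval_cases r <;> norm_num

theorem fin_thm : ∃ A : ℤ → Bool × Bool, Computable A ∧
    (∀ d : ℤ, (A d).2 = true → ((Tw d).Infinite ↔ (A d).1 = true)) ∧
    ∀ d : ℤ, Fam d → ((A d).1 = true ↔ jacobiSym (-11) d.natAbs = -1) ∧
      (∀ k : ℕ, (MP_02f36d_nt.X11.Sel (MP_02f36d_nt.X11.Wd d) (2 ^ k)).encard < 4 ^ k →
        ((Tw d).Infinite ↔ (A d).1 = true)) ∧
      ((MP_02f36d_nt.X11.Sel (MP_02f36d_nt.X11.Wd d) 2).encard < 4 → (A d).2 = true) := by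
  classical
  obtain ⟨c, hc, h⟩ := comp_thm pr_thm (two_thm pr_thm pfAll) locdAll lAll
  obtain ⟨L, _, _, θ, hθ⟩ := Final.exists_cub
  have m : ∀ a : ℕ, PrimrecPred fun x : ℤ × ℕ => x.1.natAbs % 11 = a := fun a =>
    Primrec.eq.comp (Primrec.nat_mod.comp (G.Cp.absP.comp Primrec.fst) (Primrec.const 11))
      (Primrec.const a)
  have h1 : Primrec fun x : ℤ × ℕ =>
      (decide (x.1.natAbs % 11 = 2 ∨ x.1.natAbs % 11 = 6 ∨ x.1.natAbs % 11 = 7 ∨
        x.1.natAbs % 11 = 8 ∨ x.1.natAbs % 11 = 10), decide (Fam x.1 ∧ (x.2 = 2 ∨ x.2 = 1))) :=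
    Primrec.pair ((m 2).or ((m 6).or ((m 7).or ((m 8).or (m 10))))).decide
      ((Final.famP.comp Primrec.fst).and ((Primrec.eq.comp Primrec.snd (Primrec.const 2)).or
        (Primrec.eq.comp Primrec.snd (Primrec.const 1)))).decide
  have j : ∀ d : ℤ, Fam d → (decide (d.natAbs % 11 = 2 ∨ d.natAbs % 11 = 6 ∨ d.natAbs % 11 = 7 ∨
      d.natAbs % 11 = 8 ∨ d.natAbs % 11 = 10) = true ↔ jacobiSym (-11) d.natAbs = -1) :=
    fun d f => by
      rw [decide_eq_true_iff, jac_iff (Nat.odd_iff.2 (by have := f.m4; omega))]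
  refine ⟨_, h1.to_comp.comp (Computable.pair Computable.id hc), fun d hb => ?_,
    fun d f => ⟨j d f, fun k hk => ?_, fun hk => ?_⟩⟩
  · obtain ⟨f, a⟩ := of_decide_eq_true hb
    refine Iff.trans ?_ (j d f).symm
    rcases a with a | a
    · obtain ⟨x, y⟩ := (K11.mainAll L θ hθ d f).1 ((h L θ hθ d f).symm.trans a)
      exact iff_of_true x y
    · obtain ⟨x, y⟩ := (K11.mainAll L θ hθ d f).2 ((h L θ hθ d f).symm.trans a)
      exact iff_of_false x.not_infinite (by rw [y]; decide)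
  · exact (mainAll d f (MP_02f36d_nt.X11.bd_of f.sf.ne_zero hk)).trans (j d f).symm
  · refine decide_eq_true ⟨f, ?_⟩
    change c d = 2 ∨ c d = 1
    rw [h L θ hθ d f]
    exact selN_le hθ f.sf.ne_zero
      (MP_02f36d_nt.X11.card_lt (k := 1) f.sf.ne_zero (by rwa [pow_one, pow_one]))

end Pool.Agent.Lib.MP_d6ddbd_nt.KI
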