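import Pool.Agent.Lib.MP_d6ddbd_nt.KI.Stmt
import Pool.Agent.Lib.MP_d6ddbd_nt.K11.V2

/-! The product of an unramified and a ramified character. -/

set_option autoImplicit false

open Pool.Agent.Lib.MP_d6ddbd_nt.K11

noncomputable section

namespace Pool.Agent.Lib.MP_d6ddbd_nt.KI

namespace Bl

theorem rt_or (b : ℤ) (σ : G) : σ (rt b) = rt b ∨ σ (rt b) = -rt b :=
  sq_eq_sq_iff_eq_or_eq_neg.1 (by rw [← map_pow, rt_sq, map_intCast])

theorem ps_mul (b : ℤ) (σ τ : G) : ps b (σ * τ) = ps b σ + ps b τ := by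
  unfold ps
  rw [RingAut.mul_apply]
  by_cases h : τ (rt b) = rt b
  · rw [h, if_pos rfl, add_zero]
  · have h' := (rt_or b τ).resolve_left h
    rw [if_neg h, h', map_neg]
    by_cases g : σ (rt b) = rt b
    · rw [if_pos g, g, ← h', if_neg h, zero_add]
    · rw [if_neg g, (rt_or b σ).resolve_left g, neg_neg, if_pos rfl]
      decide

theorem alg_rt (c : ℤ) : IsAlgebraic ℚ (rt c) :=
  IsAlgebraic.of_pow two_pos (by rw [rt_sq]; exact isAlgebraic_intCast c)

theorem wl_one {O : ValuationSubring ℂ} {σ : G} (v : ℕ) (h : Frob O 1 σ) : Wl O v σ :=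
  ⟨0, by rwa [pow_zero]⟩

theorem frob_pow {O : ValuationSubring ℂ} {v : ℕ} {φ : G} (hv : v.Prime) (h : Frob O v φ)
    (n : ℕ) : Frob O (v ^ n) (φ ^ n) := by
  induction n with
  | zero => exact fun x _ hx => ⟨hx, by simp⟩
  | succ n ih =>
    rw [pow_succ, pow_succ]
    exact v2_thm.1 O _ _ _ _ ih h (pow_ne_zero n hv.ne_zero)

end Bl

open Bl in
theorem bl_thm (hLe : LeStmt) : BlStmt := by
  intro v O b ε c σ₀ φ hv h2 hO h0 hb hφ hε hI hc
  have wφ : Wl O v φ := ⟨1, by rwa [pow_one]⟩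
  have z2 : ∀ a : ZMod 2, a + a = 0 := by decide
  constructor
  · rintro ⟨η, ⟨J, hJ, hη⟩, he⟩
    have h1 : Frob O 1 (φ⁻¹ * (σ₀ * φ)) := v2_thm.2.2.1 O v 1 φ (σ₀ * φ) hv hO (by rwa [pow_one])
      (by simpa using v2_thm.1 O _ _ _ _ h0 hφ one_ne_zero)
    have p0 : ps b σ₀ = 1 := if_neg hb
    have p1 : ps b (φ⁻¹ * (σ₀ * φ)) = 1 := by
      have := ps_mul b φ (φ⁻¹ * (σ₀ * φ))
      rw [mul_inv_cancel_left, ps_mul, p0] at this
      linear_combination -this
    classical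
    obtain ⟨u, hu⟩ := hLe (ZMod 2 × ZMod 2) 1 v O b σ₀ (fun σ => (η σ, ps b σ)) hv h2 hO h0 hb
      (fun σ _ => by
        rw [pow_one, two_nsmul]
        exact Prod.ext (z2 _) (z2 _))
      (fun σ τ hσ hτ => by
        have := he σ τ (wl_one v hσ) (wl_one v hτ)
        rw [hc σ τ (wl_one v hσ) (wl_one v hτ), hI τ hτ, mul_zero] at this
        refine Prod.ext ?_ (ps_mul b σ τ)
        change η (σ * τ) = η σ + η τ
        linear_combination -this - z2 (η σ + η τ))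
      ⟨insert (rt b) J, fun x hx => (Finset.mem_insert.1 hx).elim (fun e => e ▸ alg_rt b) (hJ x),
        fun σ τ hσ hτ a => Prod.ext
          (hη σ τ (wl_one v hσ) (wl_one v hτ) fun x hx => a x (Finset.mem_insert_of_mem hx))
          (by simp only [ps, a _ (Finset.mem_insert_self _ _)])⟩ _ h1
    have u1 : η (φ⁻¹ * (σ₀ * φ)) = u • η σ₀ := congrArg Prod.fst hu
    have u2 : ps b (φ⁻¹ * (σ₀ * φ)) = u • ps b σ₀ := congrArg Prod.snd hu
    rw [p0, p1, zsmul_eq_mul, mul_one] at u2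
    rw [zsmul_eq_mul, ← u2, one_mul] at u1
    have e1 := he σ₀ φ (wl_one v h0) wφ
    have e2 := he φ _ wφ (wl_one v h1)
    rw [hc _ _ (wl_one v h0) wφ, p0, one_mul] at e1
    rw [hc _ _ wφ (wl_one v h1), hI _ h1, mul_zero, mul_inv_cancel_left, u1] at e2
    linear_combination e1 - e2
  · intro h
    have hp : ∀ n : ℕ, ε (φ ^ n) = 0 := fun n => by
      induction n with
      | zero => exact hI _ (by simpa using frob_pow hv hφ 0)
      | succ n ih => rw [pow_succ, hε _ _ ⟨n, frob_pow hv hφ n⟩ wφ, ih, h, add_zero]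
    refine ⟨0, ⟨∅, fun _ hx => absurd hx (Finset.notMem_empty _), fun _ _ _ _ _ => rfl⟩,
      fun σ τ hσ hτ => ?_⟩
    rw [hc σ τ hσ hτ]
    obtain ⟨n, hn⟩ := hτ
    have h1 := v2_thm.2.2.1 O v n _ _ hv hO (frob_pow hv hφ n) hn
    have := hε _ _ ⟨n, frob_pow hv hφ n⟩ (wl_one v h1)
    rw [mul_inv_cancel_left, hp, hI _ h1] at this
    simp [this]

end Pool.Agent.Lib.MP_d6ddbd_nt.KI
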