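import Pool.Agent.Lib.MP_d6ddbd_nt.KI.Stmt
import Pool.Agent.Lib.MP_d6ddbd_nt.K11.V1
import Pool.Agent.Lib.MP_d6ddbd_nt.K11.V2
import Pool.Agent.Lib.MP_d6ddbd_nt.K11.V3
import Pool.Agent.Lib.MP_b4b3cb_nt.Syl
import Pool.Agent.Lib.MP_b4b3cb_nt.Top
import Pool.Agent.Lib.MP_b4b3cb_nt.Kum
import Pool.Agent.Lib.MP_b4b3cb_nt.Br
import Pool.Agent.Lib.MP_b4b3cb_nt.Tr
import Pool.Agent.Lib.MP_b4b3cb_nt.Norm
import Pool.Agent.Lib.MP_b4b3cb_nt.Quad
import Pool.Agent.Lib.MP_b4b3cb_nt.Prime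
import Pool.Agent.Lib.MP_b4b3cb_nt.Emb
import Pool.Agent.Lib.MP_b4b3cb_nt.Loc
import Pool.Agent.Lib.MP_b4b3cb_nt.Frob
import Pool.Agent.Lib.MP_b4b3cb_nt.Ine
import Pool.Agent.Lib.MP_b4b3cb_nt.Cj
import Pool.Agent.Lib.MP_b4b3cb_nt.Sym
import Pool.Agent.Lib.MP_b4b3cb_nt.Abhn
import Pool.Agent.Lib.MP_b4b3cb_nt.Rec
import Pool.Agent.Lib.MP_b4b3cb_nt.TwoA
import Pool.Agent.Lib.MP_b4b3cb_nt.Two

/-!
The local-global principle and reciprocity for two-cocycles with values in signs.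
-/

set_option autoImplicit false

open NumberField IsDedekindDomain Filter
open Pool.Agent.Lib.MP_d6ddbd_nt.K11
open Pool.Agent.Stark (Pr og hq LSq)
open scoped Pointwise Topology

noncomputable section

namespace Pool.Agent.Lib.MP_d6ddbd_nt.KI

namespace Br

/-- The algebraic numbers. -/
abbrev Qb : Type := algebraicClosure ℚ ℂ

/-- The absolute Galois group. -/
abbrev Ga : Type := Qb ≃ₐ[ℚ] Qb

instance ac : IsAlgClosed Qb := (algebraicClosure.isAlgClosure ℚ ℂ).isAlgClosed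

instance gal : IsGalois ℚ Qb :=
  have : IsAlgClosure ℚ Qb := algebraicClosure.isAlgClosure ℚ ℂ
  {}

theorem alg (y : Qb) : IsAlgebraic ℚ (y : ℂ) := mem_algebraicClosure_iff.1 y.2

theorem ex_rs (s : G) : ∃ g : Ga, ∀ y : Qb, (g y : ℂ) = s y := by
  let σ : ℂ ≃ₐ[ℚ] ℂ := { s with commutes' := fun q => by simp }
  exact ⟨σ.restrictNormal Qb, fun y => AlgEquiv.restrictNormal_commutes σ Qb y⟩

theorem ex_lf (g : Ga) : ∃ s : G, ∀ y : Qb, s y = g y := by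
  have : Countable Qb := ((Algebraic.countable ℚ ℂ).mono
    fun x (hx : x ∈ algebraicClosure ℚ ℂ) => mem_algebraicClosure_iff.1 hx).to_subtype
  exact MP_9177b7_ag.CM.ext Qb (algebraicClosure ℚ ℂ).val.toRingHom
    ((algebraicClosure ℚ ℂ).val.toRingHom.comp g.toRingEquiv.toRingHom) (RingHom.injective _)
    (RingHom.injective _)

/-- Restriction to the algebraic numbers. -/
def rs : G →* Ga := MonoidHom.mk' (fun s => (ex_rs s).choose) fun s t =>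
  AlgEquiv.ext fun y => Subtype.ext (by
    rw [AlgEquiv.mul_apply, (ex_rs _).choose_spec, (ex_rs _).choose_spec, (ex_rs _).choose_spec]
    rfl)

theorem rs_coe (s : G) (y : Qb) : (rs s y : ℂ) = s y := (ex_rs s).choose_spec y

/-- A lift to `ℂ`. -/
def lf (g : Ga) : G := (ex_lf g).choose

theorem rs_lf (g : Ga) : rs (lf g) = g :=
  AlgEquiv.ext fun y => Subtype.ext ((rs_coe _ y).trans ((ex_lf g).choose_spec y))

theorem top : SC.TopSt ℚ Qb := SC.st_Top SC.st_Sz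

theorem pm : SC.PrimeSt ℚ Qb := SC.st_Prime

theorem fr : SC.FrobSt ℚ Qb := SC.st_Frob pm

/-- An open normal subgroup that fixes a finite set. -/
theorem exU {J : Finset ℂ} (hJ : ∀ z ∈ J, IsAlgebraic ℚ z) : ∃ U : Subgroup Ga,
    IsOpen (U : Set Ga) ∧ U.Normal ∧ ∀ s t : G, (rs s)⁻¹ * rs t ∈ U → ∀ z ∈ J, s z = t z := by
  have h : ∀ᶠ g : Ga in 𝓝 1, ∀ z : J, g ⟨z, mem_algebraicClosure_iff.2 (hJ z z.2)⟩ =
      ⟨z, mem_algebraicClosure_iff.2 (hJ z z.2)⟩ := eventually_all.2 fun z =>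
    (stabilizer_isOpen_of_isIntegral (K := ℚ)
      (⟨z, mem_algebraicClosure_iff.2 (hJ z z.2)⟩ : Qb)).mem_nhds (one_mem _)
  obtain ⟨U, a, b, c⟩ := top.nhds _ h
  refine ⟨U, a, b, fun s t e z hz => ?_⟩
  have h1 := congrArg (fun y : Qb => s y) (c e ⟨z, hz⟩)
  rw [← map_inv, ← map_mul] at h1
  simp only [rs_coe] at h1
  exact h1.symm.trans (s.apply_symm_apply _)

/-- A finite set whose fixer lies in an open subgroup. -/
theorem exJ {U : Subgroup Ga} (hU : IsOpen (U : Set Ga)) : ∃ J : Finset ℂ,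
    (∀ z ∈ J, IsAlgebraic ℚ z) ∧ ∀ s t : G, (∀ z ∈ J, s z = t z) → (rs s)⁻¹ * rs t ∈ U := by
  classical
  obtain ⟨F, _, rfl⟩ := top.field U hU
  let b := Module.finBasis ℚ F
  refine ⟨Finset.univ.image fun i => ((b i : Qb) : ℂ), fun z hz => ?_, fun s t h x => ?_⟩
  · obtain ⟨i, -, rfl⟩ := Finset.mem_image.1 hz
    exact alg _
  · have := b.ext (f₁ := (rs t).toLinearMap ∘ₗ F.val.toLinearMap)
      (f₂ := (rs s).toLinearMap ∘ₗ F.val.toLinearMap) fun i => Subtype.ext (by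
        change (rs t (b i) : ℂ) = rs s (b i)
        rw [rs_coe, rs_coe, h _ (Finset.mem_image_of_mem _ (Finset.mem_univ i))])
    have e : rs t x = rs s x := LinearMap.congr_fun this x
    change (rs s).symm (rs t x) = x
    rw [e, AlgEquiv.symm_apply_apply]

variable {O O' : ValuationSubring ℂ} {v : ℕ}

/-- The prime defined by a place. -/
abbrev pr (O : ValuationSubring ℂ) : Ideal (𝓞 Qb) := V3.pr (algebraicClosure ℚ ℂ).val.toRingHom O

theorem mem_pr {z : 𝓞 Qb} : z ∈ pr O ↔ ((z : Qb) : ℂ) ∈ O.nonunits := V3.mem_pr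

theorem int_mem (O : ValuationSubring ℂ) (z : 𝓞 Qb) : ((z : Qb) : ℂ) ∈ O :=
  V3.int_mem O (map_isIntegral_int (algebraicClosure ℚ ℂ).val.toRingHom z.isIntegral_coe)

theorem smul_coe (s : G) (z : 𝓞 Qb) : (((rs s • z : 𝓞 Qb) : Qb) : ℂ) = s (z : Qb) := rs_coe s z

theorem nat_mem (hO : Ov O v) : (v : 𝓞 Qb) ∈ pr O := mem_pr.2 (by simpa [Ov] using hO)

theorem max (hv : v.Prime) (hO : Ov O v) : (pr O).IsMaximal := by
  have : Fact v.Prime := ⟨hv⟩
  refine Ideal.isMaximal_of_isIntegral_of_isMaximal_comap (R := ℤ) _ ?_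
  have h : Ideal.span {(v : ℤ)} = (pr O).comap (algebraMap ℤ (𝓞 Qb)) :=
    (inferInstance : (Ideal.span {(v : ℤ)}).IsMaximal).eq_of_le (Ideal.IsPrime.ne_top')
      ((Ideal.span_singleton_le_iff_mem _).2 (by simpa using nat_mem hO))
  exact h ▸ inferInstance

theorem mem_iff {x : ℂ} {a b : 𝓞 Qb} (e : x * (b : Qb) = (a : Qb)) (h : a ∉ pr O ∨ b ∉ pr O) :
    x ∈ O ↔ b ∉ pr O := by
  rw [mem_pr, mem_pr] at h
  rw [mem_pr]
  refine ⟨fun hx hb => h.elim (fun k => k (e ▸ V2.mul_nu hx hb)) fun k => k hb, fun hb => ?_⟩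
  rw [ValuationSubring.mem_nonunits_iff_or, not_or, not_not] at hb
  rw [← mul_inv_cancel_right₀ hb.1 x, e]
  exact mul_mem (int_mem O a) hb.2

theorem frac (hm : (pr O).IsMaximal) {x : ℂ} (hx : IsAlgebraic ℚ x) :
    ∃ a b : 𝓞 Qb, x * (b : Qb) = (a : Qb) ∧ (a ∉ pr O ∨ b ∉ pr O) := by
  obtain ⟨a, b, e, -, h, -⟩ := pm.frac hm ⟨x, mem_algebraicClosure_iff.2 hx⟩
  exact ⟨a, b, congrArg Subtype.val e, h⟩

/-- The dictionary for Frobenius elements. -/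
theorem fr_iff (hm : (pr O).IsMaximal) {n : ℕ} {s : G} :
    Frob O n s ↔ SC.IsFr (pr O) n (rs s) := by
  have k : ∀ z : 𝓞 Qb, rs s • z - z ^ n ∈ pr O ↔ s (z : Qb) - ((z : Qb) : ℂ) ^ n ∈ O.nonunits :=
    fun z => by rw [mem_pr, ← smul_coe]; simp
  refine ⟨fun h z => (k z).2 (h _ (alg _) (int_mem O z)).2, fun h x hx m => ?_⟩
  obtain ⟨a, b, e, h1⟩ := frac hm hx
  have h2 := mem_pr.not.1 ((mem_iff e h1).1 m)
  have ha := (k a).1 (h a)
  have hb := (k b).1 (h b)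
  rw [← e, map_mul] at ha
  generalize ((b : Qb) : ℂ) = β at *
  have h3 : s β ∉ O.nonunits := fun c => h2 (V2.nu_of_pow (n := n) (by simpa using sub_mem c hb))
  have h4 : s x - x ^ n ∈ O.nonunits := V2.nu_of_mul (x := s β) (by
    have := sub_mem ha (V2.mul_nu (pow_mem m n) hb)
    rwa [show s x * s β - (x * β) ^ n - x ^ n * (s β - β ^ n) = s β * (s x - x ^ n) by ring]
      at this) h3
  exact ⟨by simpa using add_mem (ValuationSubring.nonunits_subset h4) (pow_mem m n), h4⟩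

open Rat.HeightOneSpectrum in
theorem span (q : Pr ℚ) : q.asIdeal = Ideal.span {(natGenerator q : 𝓞 ℚ)} := by
  let e := Rat.IsIntegralClosure.intEquiv (𝓞 ℚ)
  rw [← q.asIdeal.comap_map_of_bijective e e.bijective, ← span_natGenerator, ← Ideal.map_symm,
    Ideal.map_span, Set.image_singleton, map_natCast]

open Rat.HeightOneSpectrum in
theorem nrm (q : Pr ℚ) : Ideal.absNorm q.asIdeal = natGenerator q := by
  rw [span, Ideal.absNorm_span_natCast, RingOfIntegers.rank, Module.finrank_self, pow_one]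

open Rat.HeightOneSpectrum in
theorem ovr {q : Pr ℚ} (hO : Ov O (natGenerator q)) : SC.Over (pr O) q := by
  refine ⟨max (prime_natGenerator q) hO, fun x => ?_⟩
  have : q.asIdeal = (pr O).comap (algebraMap (𝓞 ℚ) (𝓞 Qb)) :=
    q.isMaximal.eq_of_le (Ideal.IsPrime.ne_top') (by
      rw [span, Ideal.span_singleton_le_iff_mem]
      simpa using nat_mem hO)
  rw [this, Ideal.mem_comap]

open Rat.HeightOneSpectrum in
theorem exq (hv : v.Prime) : ∃ q : Pr ℚ, natGenerator q = v :=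
  ⟨primesEquiv.symm ⟨v, hv⟩, congrArg Subtype.val (primesEquiv.apply_symm_apply ⟨v, hv⟩)⟩

open Rat.HeightOneSpectrum in
theorem le_og (q : Pr ℚ) {a : ℤ} (ha : a ≠ 0) (n : ℕ) :
    (n : ℤ) ≤ og q (a : ℚ) ↔ (natGenerator q : ℤ) ^ n ∣ a := by
  have := Pool.Agent.Stark.le_og_iff q (x := (a : 𝓞 ℚ)) (Int.cast_ne_zero.2 ha) n
  rw [span, Ideal.span_singleton_pow, Ideal.mem_span_singleton,
    ← map_dvd_iff (Rat.IsIntegralClosure.intEquiv (𝓞 ℚ)), map_pow, map_natCast, map_intCast] at this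
  exact this

theorem res_fix {𝔓 : Ideal (𝓞 Qb)} {q : Pr ℚ} (h : SC.Over 𝔓 q) {y : 𝓞 Qb}
    (hy : y - y ^ Ideal.absNorm q.asIdeal ∈ 𝔓) {g : Ga} (hg : g ∈ SC.Dec ℚ 𝔓) : g • y - y ∈ 𝔓 := by
  have := h.1
  have := q.isMaximal
  let _ := Ideal.Quotient.field 𝔓
  let _ := Ideal.Quotient.field q.asIdeal
  have : Finite (𝓞 ℚ ⧸ q.asIdeal) := Ideal.finiteQuotientOfFreeOfNeBot _ q.ne_bot
  let _ := Fintype.ofFinite (𝓞 ℚ ⧸ q.asIdeal)
  let i : 𝓞 ℚ ⧸ q.asIdeal →+* 𝓞 Qb ⧸ 𝔓 :=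
    Ideal.quotientMap 𝔓 (algebraMap (𝓞 ℚ) (𝓞 Qb)) fun x hx => (h.2 x).1 hx
  rw [Ideal.absNorm_apply, Submodule.cardQuot_apply, Nat.card_eq_fintype_card] at hy
  obtain ⟨a, ha⟩ := (Polynomial.splits_iff_card_roots.2 (by
    rw [FiniteField.roots_X_pow_card_sub_X, FiniteField.X_pow_card_sub_X_natDegree_eq _
      Fintype.one_lt_card]; rfl)).mem_range_of_isRoot
    (FiniteField.X_pow_card_sub_X_ne_zero (𝓞 ℚ ⧸ q.asIdeal) Fintype.one_lt_card) (i := i)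
    (x := Ideal.Quotient.mk 𝔓 y) (by
      simp only [Polynomial.IsRoot, Polynomial.map_sub, Polynomial.map_pow, Polynomial.map_X,
        Polynomial.eval_sub, Polynomial.eval_pow, Polynomial.eval_X]
      rw [sub_eq_zero, ← map_pow]
      exact (Ideal.Quotient.eq.2 hy).symm)
  obtain ⟨a, rfl⟩ := Ideal.Quotient.mk_surjective a
  have b : algebraMap (𝓞 ℚ) (𝓞 Qb) a - y ∈ 𝔓 := Ideal.Quotient.eq.1 ha
  have c := ((pm.mem_dec 𝔓 g).1 hg _).2 b
  have e : g • algebraMap (𝓞 ℚ) (𝓞 Qb) a = algebraMap (𝓞 ℚ) (𝓞 Qb) a :=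
    RingOfIntegers.ext (g.commutes a)
  rw [smul_sub, e] at c
  simpa using sub_mem b c

theorem w_one (O : ValuationSubring ℂ) (v : ℕ) : ∃ n, Frob O (v ^ n) 1 :=
  ⟨0, fun x _ m => ⟨m, by simp⟩⟩

theorem w_mul {s t : G} (hs : ∃ n, Frob O (v ^ n) s) (ht : ∃ n, Frob O (v ^ n) t) :
    ∃ n, Frob O (v ^ n) (s * t) := by
  obtain ⟨n, hn⟩ := hs
  obtain ⟨m, hm⟩ := ht
  exact ⟨n + m, pow_add v n m ▸ V2.c1 hn hm⟩

theorem ap_mul {U : Subgroup Ga} (hU : U.Normal) {s t : G} {g h : Ga} (a : (rs s)⁻¹ * g ∈ U)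
    (b : (rs t)⁻¹ * h ∈ U) : (rs (s * t))⁻¹ * (g * h) ∈ U := by
  have := mul_mem (hU.conj_mem' _ a (rs t)) b
  rwa [show (rs t)⁻¹ * ((rs s)⁻¹ * g) * rs t * ((rs t)⁻¹ * h) = (rs s * rs t)⁻¹ * (g * h) by
    group, ← map_mul] at this

theorem ine (hm : (pr O).IsMaximal) {g : Ga} (hg : g ∈ SC.Ine ℚ (pr O)) : Frob O 1 (lf g) :=
  (fr_iff hm).2 fun x => by
    rw [rs_lf, pow_one]
    exact (pm.mem_ine _ _).1 hg x

theorem w_dec (hv : v.Prime) (hO : Ov O v) {s : G} (hs : ∃ n, Frob O (v ^ n) s) :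
    rs s ∈ SC.Dec ℚ (pr O) := by
  obtain ⟨n, hn⟩ := hs
  exact fr.dec (max hv hO) (pow_ne_zero n hv.ne_zero) ((fr_iff (max hv hO)).1 hn)

/-- The powers of Frobenius elements are dense in the decomposition group. -/
theorem dense (hv : v.Prime) (hO : Ov O v) {U : Subgroup Ga} (hU : IsOpen (U : Set Ga))
    (hn : U.Normal) {g : Ga} (hg : g ∈ SC.Dec ℚ (pr O)) :
    ∃ s, (∃ n, Frob O (v ^ n) s) ∧ (rs s)⁻¹ * g ∈ U := by
  let M : Submonoid Ga :=
    { carrier := {g | ∃ s, (∃ n, Frob O (v ^ n) s) ∧ (rs s)⁻¹ * g ∈ U}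
      one_mem' := ⟨1, w_one O v, by simp⟩
      mul_mem' := by
        rintro a b ⟨s, s1, s2⟩ ⟨t, t1, t2⟩
        exact ⟨s * t, w_mul s1 t1, ap_mul hn s2 t2⟩ }
  have hM : ∀ u ∈ U, u ∈ M := fun u hu => ⟨1, w_one O v, by simpa using hu⟩
  have := top.fi U hU
  let H : Subgroup Ga :=
    { M with
      inv_mem' := fun {a} ha => by
        obtain ⟨k, hk⟩ := Nat.exists_eq_succ_of_ne_zero (Subgroup.FiniteIndex.index_ne_zero (H := U))
        have h1 := U.pow_index_mem a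
        have h2 := M.mul_mem (M.pow_mem ha k) (hM _ (inv_mem h1))
        rwa [hk, show a ^ k * (a ^ k.succ)⁻¹ = a⁻¹ by rw [pow_succ']; group] at h2 }
  obtain ⟨F, _, hF⟩ := top.field H (Subgroup.isOpen_mono (H₁ := U) hM hU)
  have := NumberField.of_module_finite ℚ F
  obtain ⟨q, rfl⟩ := exq hv
  obtain ⟨φ, hφ⟩ := V1.frob hv hO
  have hm := max hv hO
  have h1 : rs φ ∈ SC.Gs ℚ Qb F := hF ▸ ⟨φ, ⟨1, by rwa [pow_one]⟩, by simp⟩
  obtain ⟨l, l1, l2⟩ := fr.res (F := F) hm g hg fun y => res_fix (ovr hO) (by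
    have e : rs φ • algebraMap (𝓞 F) (𝓞 Qb) y = algebraMap (𝓞 F) (𝓞 Qb) y :=
      RingOfIntegers.ext (h1 y)
    have := (fr_iff hm).1 hφ (algebraMap (𝓞 F) (𝓞 Qb) y)
    rwa [e, ← nrm] at this) hg
  have h2 : g * l⁻¹ ∈ H := ⟨lf (g * l⁻¹), ⟨0, ine hm l2⟩, by simp [rs_lf]⟩
  have h3 := mul_mem h2 (hF ▸ l1.2 : l ∈ H)
  rwa [inv_mul_cancel_right] at h3

theorem kum : SC.KumSt ℚ Qb := SC.st_Kum SC.st_Sz top

theorem br : SC.BrSt ℚ Qb := SC.st_Br SC.st_Sz top kum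

theorem cjs : SC.CjSt ℚ Qb := SC.st_Cj

open SC in
theorem glob : AbhnKSt ℚ Qb ∧ RecSt ℚ Qb ∧ DictSt ℚ Qb ∧ TwoSt ℚ Qb := by
  have hTr : TrSt ℚ Qb := st_Tr top
  have hN : NormSt ℚ Qb := st_Norm st_Sz top kum br
  have hQ : QuadSt ℚ Qb := st_Quad st_Sz top kum br
  have hL : LocSt ℚ Qb := st_Loc (st_Emb pm) pm
  have hS : SymSt ℚ Qb := st_Sym hN hL kum top pm
  have hD : DictSt ℚ Qb := st_Dict hS hL (st_Ine pm fr hL) cjs kum top pm
  have hA : AbhnKSt ℚ Qb := st_AbhnK (st_Abhn st_Syl top kum br hTr hN hQ hS cjs pm) br pm cjs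
  exact ⟨hA, st_Rec hA st_Sz kum br hQ hD, hD, st_Two st_Syl st_Sz top kum br hTr hS pm
    (st_TwoA st_Proj st_Sz top kum hL hS pm) (st_TwoB st_Sz top kum br hQ hS pm)⟩

variable {c : G → G → ZMod 2}

/-- The cocycle on the absolute Galois group. -/
def cc (c : G → G → ZMod 2) (g h : Ga) : ZMod 2 := c (lf g) (lf h)

theorem cc_rs (hc : C2 c) (s t : G) : cc c (rs s) (rs t) = c s t := by
  obtain ⟨J, hJ, h⟩ := hc.fn
  obtain ⟨U, -, -, b⟩ := exU hJ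
  exact h _ _ _ _ (b _ _ (by simp [rs_lf])) (b _ _ (by simp [rs_lf]))

theorem near {U : Subgroup Ga} (hU : IsOpen (U : Set Ga)) (g : Ga) : ∀ᶠ h in 𝓝 g, g⁻¹ * h ∈ U :=
  (hU.preimage (continuous_const.mul continuous_id)).mem_nhds (by simp)

theorem cz (hc : C2 c) : SC.Cz ⊤ (cc c) := by
  obtain ⟨J, hJ, h⟩ := hc.fn
  obtain ⟨U, a, -, b⟩ := exU hJ
  refine ⟨Continuous.continuousOn (IsLocallyConstant.continuous
    ((IsLocallyConstant.iff_eventually_eq _).2 fun p => ?_)), fun g _ h _ k _ => ?_⟩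
  · filter_upwards [(near a p.1).prod_nhds (near a p.2)] with p' hp
    exact (h _ _ _ _ (b _ _ (by simpa only [rs_lf] using hp.1))
      (b _ _ (by simpa only [rs_lf] using hp.2))).symm
  · rw [← rs_lf g, ← rs_lf h, ← rs_lf k]
    simp only [← map_mul, cc_rs hc]
    exact hc.eq _ _ _

theorem sz_of_sp (hc : C2 c) (hv : v.Prime) (hO : Ov O v) (h : Sp O v c) :
    SC.Sz (SC.Dec ℚ (pr O)) (cc c) := by
  classical
  obtain ⟨η, ⟨J, hJ, h1⟩, h2⟩ := h
  obtain ⟨J', hJ', h3⟩ := hc.fn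
  obtain ⟨U, a, n, b⟩ := exU (J := J ∪ J') fun z hz => (Finset.mem_union.1 hz).elim (hJ z) (hJ' z)
  choose! w w1 w2 using fun g hg => dense hv hO a n (g := g) hg
  have k : ∀ g ∈ SC.Dec ℚ (pr O), ∀ s, Wl O v s → (rs s)⁻¹ * g ∈ U → η (w g) = η s :=
    fun g hg s s1 s2 => h1 _ _ (w1 g hg) s1 fun z hz => b _ _ (by
      simpa using mul_mem (w2 g hg) (inv_mem s2)) z (Finset.mem_union_left _ hz)
  refine ⟨fun g => η (w g), (SC.st_Sz.lc _ _).1 (top.lc_of _ U _ a fun g hg g' hg' e =>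
    (k g' hg' _ (w1 g hg) (by simpa [mul_assoc] using mul_mem (w2 g hg) e)).symm),
    fun g hg h hh => ?_⟩
  have e : ∀ g ∈ SC.Dec ℚ (pr O), Ag J' (w g) (lf g) := fun g hg z hz =>
    b _ _ (by simpa only [rs_lf] using w2 g hg) z (Finset.mem_union_right _ hz)
  simp only
  rw [k _ (mul_mem hg hh) _ (w_mul (w1 g hg) (w1 h hh)) (ap_mul n (w2 g hg) (w2 h hh)),
    ← h2 _ _ (w1 g hg) (w1 h hh)]
  exact (h3 _ _ _ _ (e g hg) (e h hh)).symm

theorem fn_of {D : Subgroup Ga} (hD : IsClosed (D : Set Ga)) {f : Ga → ZMod 2}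
    (hf : ContinuousOn f D) : ∃ J : Finset ℂ, Al J ∧
      ∀ s t : G, rs s ∈ D → rs t ∈ D → Ag J s t → f (rs s) = f (rs t) := by
  obtain ⟨U, a, -, b⟩ := top.unif D f hD ((SC.st_Sz.lc _ _).2 hf)
  obtain ⟨J, hJ, h⟩ := exJ a
  exact ⟨J, hJ, fun s t hs ht e => b _ hs _ ht (h s t e)⟩

theorem sp_of_sz (hc : C2 c) (hv : v.Prime) (hO : Ov O v)
    (h : SC.Sz (SC.Dec ℚ (pr O)) (cc c)) : Sp O v c := by
  obtain ⟨f, h1, h2⟩ := h
  obtain ⟨J, hJ, h3⟩ := fn_of (pm.closed _) h1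
  refine ⟨fun s => f (rs s), ⟨J, hJ, fun s t hs ht => h3 s t (w_dec hv hO hs) (w_dec hv hO ht)⟩,
    fun s t hs ht => ?_⟩
  simp only
  rw [← cc_rs hc, h2 _ (w_dec hv hO hs) _ (w_dec hv hO ht), map_mul]

theorem cj_rs : SC.Cj (algebraicClosure ℚ ℂ).val.toRingHom (rs cj) := fun x => rs_coe cj x

theorem sz_inf (hc : C2 c) (h : c cj cj = c 1 1) : SC.Sz (Subgroup.zpowers (rs cj)) (cc c) := by
  have e : ∀ a : ZMod 2, a = a + a + a := by decide
  have h1 : c 1 cj = c 1 1 := by simpa using hc.eq 1 1 cj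
  have h2 : c cj 1 = c 1 1 := by simpa using (hc.eq cj 1 1).symm
  refine ⟨fun _ => c 1 1, continuousOn_const, fun g hg k hk => ?_⟩
  rw [← e]
  rw [(cjs.sq cj_rs).2.1, ← map_one rs] at hg hk
  rcases hg with rfl | rfl <;> rcases hk with rfl | rfl <;> rw [cc_rs hc] <;> assumption

open Rat.HeightOneSpectrum in
/-- The places attached to a family of places of `ℂ`. -/
def plc (P : ℕ → ValuationSubring ℂ) (hP : ∀ v : ℕ, v.Prime → Ov (P v) v) : SC.Plc ℚ Qb where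
  pr q := pr (P (natGenerator q))
  hov q := ovr (hP _ (prime_natGenerator q))
  j _ := (algebraicClosure ℚ ℂ).val.toRingHom
  hj φ a := by simp
  c _ := rs cj
  hc _ := cj_rs

theorem sg_sq (ε : Ga → Ga → ZMod 2) (g h : Ga) : SC.sgc ε g h ^ 2 ^ 1 = 1 := by
  rw [pow_one, sq]
  exact Pool.Agent.Stark.sg_mul_self _

/-- One place over every prime suffices. -/
theorem abhn (hc : C2 c) (P : ℕ → ValuationSubring ℂ) (hP : ∀ v : ℕ, v.Prime → Ov (P v) v)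
    (h : ∀ v : ℕ, v.Prime → Sp (P v) v c) (hi : c cj cj = c 1 1) : ∃ η, Sg c η := by
  obtain ⟨f, h1, h2⟩ := (br.sz (by simp)).1 (glob.1 (plc P hP) ⊤ _ 1 (by simp) inferInstance
    (br.coc_sg (cz hc)) (sg_sq _) fun w => by
      rw [inf_top_eq, br.sz (glob.2.2.1.closed _ w)]
      rcases w with q | φ
      · have hq := Rat.HeightOneSpectrum.prime_natGenerator q
        exact sz_of_sp hc hq (hP _ hq) (h _ hq)
      · exact sz_inf hc hi)
  obtain ⟨J, hJ, h3⟩ := fn_of (by simp) h1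
  refine ⟨fun s => f (rs s), ⟨J, hJ, fun s t => h3 s t trivial trivial⟩, fun s t => ?_⟩
  simp only
  rw [← cc_rs hc, h2 _ trivial _ trivial, map_mul]

open Rat.HeightOneSpectrum in
/-- A class that splits at all places but one splits at that place. -/
theorem last (hc : C2 c) (P : ℕ → ValuationSubring ℂ) (hP : ∀ v : ℕ, v.Prime → Ov (P v) v)
    {l : ℕ} (hl : l.Prime) (h : ∀ v : ℕ, v.Prime → v ≠ l → Sp (P v) v c)
    (hi : c cj cj = c 1 1) : Sp (P l) l c := by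
  classical
  obtain ⟨-, hR, hD, hT⟩ := glob
  obtain ⟨q, rfl⟩ := exq hl
  have l0 : ((natGenerator q : ℤ) : ℚ) ≠ 0 := by exact_mod_cast hl.ne_zero
  have l1 : ¬ SC.lsq (.inl q) ((natGenerator q : ℤ) : ℚ) := by
    rintro ⟨x, hx⟩
    have a0 : (natGenerator q : ℤ) ≠ 0 := by exact_mod_cast hl.ne_zero
    have a1 := (le_og q a0 1).2 (by simp)
    have a2 := (le_og q a0 2).not.2 fun e => absurd (Int.le_of_dvd (by
      exact_mod_cast hl.pos) e) (by have := hl.two_le; nlinarith)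
    have a3 : x ≠ 0 := fun e => l0 ((map_eq_zero _).1 (hx.trans (by rw [e, mul_zero])))
    rw [← Pool.Agent.Stark.ord_emb, hx, Pool.Agent.Stark.ord_mul a3 a3] at a1 a2
    omega
  obtain ⟨b, b0, hb⟩ := hD.hp_nd _ l0 l1
  have hom : ∀ {a : ℚ}, a ≠ 0 → ∀ D : Subgroup Ga, SC.Hom D (SC.kr (SC.rt Qb a)) := fun ha D =>
    ⟨(hD.hom ha).1.mono (Set.subset_univ _), fun g _ k _ => (hD.hom ha).2 g trivial k trivial⟩
  rw [← hD.sym (plc P hP) _ l0 b0] at hb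
  refine sp_of_sz hc hl (hP _ hl) (by_contra fun hn => ?_)
  have z : ∀ (D : Subgroup Ga) (y : Ga → ZMod 2), SC.Sz D (SC.cup y 0) := fun D y =>
    SC.st_Sz.zero fun g _ k _ => mul_zero _
  have := hR (plc P hP) _ 1 _ (fun w => if w = .inl q then SC.kr (SC.rt Qb b) else 0)
    (br.coc_sg (cz hc)) (sg_sq _) (hD.hom l0) (fun w => by
      split_ifs
      exacts [hom b0 _, ⟨continuousOn_const, fun _ _ _ _ => (add_zero _).symm⟩]) (fun w => by
      rw [← br.sgc_add, br.sz (hD.closed _ w)]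
      split_ifs with e
      · subst e
        refine ((hT _ (max hl (hP _ hl)) _ _ (SC.st_Sz.cz_mono (cz hc) le_top)
          (SC.st_Sz.cz_cup (hom l0 _) (hom b0 _))).resolve_left hn).resolve_left fun k => ?_
        exact zero_ne_one ((if_pos k).symm.trans hb)
      · refine SC.st_Sz.add ?_ (z _ _)
        rcases w with p | φ
        · have hp := prime_natGenerator p
          exact sz_of_sp hc hp (hP _ hp) (h _ hp fun k => e (congrArg Sum.inl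
            (primesEquiv.injective (Subtype.ext k))))
        · exact sz_inf hc hi) {.inl q} fun w hw => by
      rw [if_neg (by simpa using hw), SC.symz, if_pos (z _ _)]
  rw [Finset.sum_singleton, if_pos rfl, hb] at this
  exact one_ne_zero this

end Br

theorem abhn_thm : AbhnStmt := by
  intro c hc h hi
  choose! P hP using v1_thm.1
  exact Br.abhn hc P hP (fun v hv => h v _ hv (hP v hv)) hi

theorem rec_thm : RecStmt := by
  intro c q₁ q₂ O₁ O₂ hc _ h₂ _ o₁ o₂ h hi s₁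
  choose! P hP using v1_thm.1
  have := Br.last hc (fun v => if v = q₂ then O₂ else if v = q₁ then O₁ else P v) (fun v hv => by
    split_ifs with a b
    exacts [a ▸ o₂, b ▸ o₁, hP v hv]) h₂ (fun v hv a => by
    rw [if_neg a]
    split_ifs with b
    exacts [b ▸ s₁, h v _ hv b a (hP v hv)]) hi
  rwa [if_pos rfl] at this

end Pool.Agent.Lib.MP_d6ddbd_nt.KI
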