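import Pool.Agent.Lib.MP_d6ddbd_nt.KI.Cm
import Pool.Agent.Lib.MP_d6ddbd_nt.K11.Asm
import Pool.Agent.Lib.MP_d6ddbd_nt.K11.CK

/-!
The choice of the next prime of a chain.
-/

set_option autoImplicit false
set_option maxSynthPendingDepth 3

open NumberField
open Pool.Agent.Lib.MP_02f36d_nt (xc yc)
open Pool.Agent.Stark (og SqCl cl)
open Pool.Agent.Lib.MP_d6ddbd_nt.K11
open Pool.Agent.Lib.MP_d6ddbd_nt.K11.R1 (wl_ne)

noncomputable section

namespace Pool.Agent.Lib.MP_d6ddbd_nt.KI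

namespace Ch

open Cm

variable {c : ℤ} {k m : ℕ} {x : G → Pt}

theorem odd_cancel {P : Pt} {a : ℕ} (ha : Odd a) (hP : 2 ^ k • P = 0) (h : a • P = 0) : P = 0 := by
  have := Nat.dvd_gcd (addOrderOf_dvd_iff_nsmul_eq_zero.2 hP) (addOrderOf_dvd_iff_nsmul_eq_zero.2 h)
  rw [Nat.Coprime.gcd_eq_one ((Nat.coprime_two_left.2 ha).pow_left k), Nat.dvd_one] at this
  exact AddMonoid.addOrderOf_eq_one_iff.1 this

theorem cy_ag (hx : Cy c k x) : ∃ J : Finset ℂ, Al J ∧ ∀ σ τ, Ag J σ τ → x σ = x τ := by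
  obtain ⟨J, a, b⟩ := hx.fin
  refine ⟨J, a, fun σ τ h => ?_⟩
  have := hx.mul τ (τ⁻¹ * σ)
  rwa [mul_inv_cancel_left, b (τ⁻¹ * σ) fun y hy => (RingEquiv.symm_apply_eq τ).2 (h y hy), tw_zero,
    add_zero] at this

theorem cy_pow {W : Finset ℂ} (hx : Cy c k x) (hk : k ≤ m) {g : G} (hg : g ∈ Hs m W) (a : ℕ) :
    x (g ^ a) = a • x g := by
  induction a with
  | zero => rw [pow_zero, cy_one hx, zero_smul]
  | succ a ih => rw [pow_succ', cy_H hx hk hg, ih, succ_nsmul']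

theorem cy_top (hx : Cy c k x) (hk : k ≠ 0) : Cy c 1 (2 ^ (k - 1) • x) := by
  have a := cy_zs hx ((2 ^ (k - 1) : ℕ) : ℤ)
  rw [natCast_zsmul] at a
  refine ⟨fun σ => ?_, a.mul, a.fin⟩
  rw [Pi.smul_apply, ← mul_smul, ← pow_add, show 1 + (k - 1) = k by omega, hx.tor]

theorem cb_ff (hx : Cy c 1 x) (hb : Cb c x) {g : G} (hg : ∀ T : Pt, 2 • T = 0 → g • T = T) :
    x g = 0 := by
  obtain ⟨T, j, p, q⟩ := hb
  have b : 2 • T = 0 := no_inv (c := c) (k := j) (by rw [smul_comm, p, smul_zero]) fun σ => by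
    have := hx.tor σ
    rwa [pow_one, q, smul_sub, sub_eq_zero, ← tw_ns] at this
  rw [q, tw_two b, hg T b, sub_self]

end Ch

open Cm Ch

theorem ch_thm (hR : RStmt) (hPr : PrStmt) (hK : KumStmt) (hL1 : Link1Stmt) (hL2 : Link2Stmt)
    (hCm : CmStmt) (hCha : ChaStmt) (hFb : FbStmt) (hFv : FvStmt) : ChStmt := by
  classical
  intro L _ _ θ hθ q d k m W n a y z z' N hq hk hkm hW hn ha hns hy hy0 hz hz'
  have hm : m ≠ 0 := by omega
  have n11 : 11 ∉ n := fun h => (hn 11 h).2.2.1 rfl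
  have ke : ∀ {c : ℤ} {x : G → Pt}, Sel c k n x → Ke c x := fun h O hO =>
    h.kl 11 O (by norm_num) n11 hO
  obtain ⟨e', -, he'⟩ := (hPr L θ hθ).2.2.2.2.2.2.2.2.2
  let e : L →+* ℂ := Complex.ofRealHom.comp e'
  have hce : ∀ y, cj (e y) = e y := fun y => Complex.conj_ofReal _
  obtain ⟨s, hs, hcs⟩ : ∃ s : ℂ, s ^ 2 = e a ∧ cj s = s := ⟨(Real.sqrt (e' a) : ℝ), by
    show ((Real.sqrt (e' a) : ℝ) : ℂ) ^ 2 = ((e' a : ℝ) : ℂ)
    rw [← Complex.ofReal_pow, Real.sq_sqrt (he' a ha.wc.ne ha.wc.sq).le], Complex.conj_ofReal _⟩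
  have s0 : s ≠ 0 := fun b => ha.wc.ne ((map_eq_zero e).1 (by rw [← hs, b]; simp))
  have f0 := fc_emb hθ e
  have fx : ∀ σ : G, (∀ T : Pt, 2 • T = 0 → σ • T = T) → σ (s ^ 2) = s ^ 2 := fun σ hσ => by
    rw [hs]
    exact emb_ext hPr hθ (e := σ.toRingHom.comp e) (fix_root hσ f0) a
  obtain ⟨T, T2, T1⟩ : ∃ T : Pt, 2 • T = 0 ∧ wl (e θ) T ≠ 0 := by
    obtain ⟨ω, -, w⟩ := cyc
    obtain ⟨b1, b2, b3⟩ := pt_root (x := ω (e θ)) (by rw [← R1.map_fc, f0, map_zero])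
    exact ⟨_, b2, by rw [wl_ne b1 (by rw [b3]; exact (w _ f0).1)]; exact one_ne_zero⟩
  have ga : a ≠ 0 ∧ IsSquare (Algebra.norm ℚ a) ∧ ∀ 𝔭 ∈ ab L 11, Even (og 𝔭 a) :=
    ⟨ha.wc.ne, ha.wc.sq, ha.wc.ev 11 (by norm_num) hq.fam.n11 n11⟩
  obtain ⟨l, hl⟩ : ∃ l : SqCl L →ₗ[ZMod 2] ZMod 2, l (cl a) = 1 := by
    by_contra! b
    exact hns ((Pool.Agent.Stark.cl_eq_zero ha.wc.ne).1
      ((Module.forall_dual_apply_eq_zero_iff (ZMod 2) _).1 fun f => (Iso.z2 _).resolve_right (b f)))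
  obtain ⟨g, g1, g2, g3⟩ : ∃ g, Hm m W g ∧ g s ≠ s ∧
      (y = 0 ∨ ¬ Cb d (2 ^ (k - 1) • y) ∧ 2 ^ (k - 1) • y g = 0) := by
    rcases hy0 with b | ⟨O, φ, b1, b2, b3⟩
    · obtain ⟨g, g1, g2⟩ := hCm L θ hθ q m W {a} l T hm hW (by simpa using ga) T2
      exact ⟨g, g1, fun i => by simpa [hl, T1] using ((g2 a (by simp)).1 e s hs).1 i, Or.inl b⟩
    have q2 : q ≠ 2 := by have := hq.qf.big; omega
    have q11 : q ≠ 11 := by have := hq.qf.big; omega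
    have c1 := cy_top hy.cy hk
    have c2 := cy_coc c1
    obtain ⟨α, a0, a1, a2⟩ := (hK L θ hθ).1 _ c2
    have a3 := (hL2 L θ hθ α _ a0 a1 c2 a2).2 (unr_of_ke hq.fam.n11 c2.two (by
      have := ke_zs (ke hy) ((2 ^ (k - 1) : ℕ) : ℤ)
      rwa [natCast_zsmul] at this))
    obtain ⟨σ, d1, d2⟩ := (hL1 L θ hθ).2.1 q O _ _ hq.qf.pr b1 (rt_sq (GF.pst q))
      (CK.pst_sf hq.qf.pr).1 (CK.pst_sf hq.qf.pr).2
    have a4 : fv q α = 1 := (Iso.z2 _).resolve_left fun i => b3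
      ((((hL1 L θ hθ).2.2 α _ a0 a1 c2 a2).2 q O σ φ _ hq.qf.pr q2 q11 hq.ty b1 d1 b2
        (rt_sq _) d2).2.1 i)
    obtain ⟨l', l1, l2⟩ : ∃ l' : SqCl L →ₗ[ZMod 2] ZMod 2, l' (cl a) = 1 ∧ l' (cl α) = 0 := by
      rcases Iso.z2 (l (cl α)) with i | i
      · exact ⟨l, hl, i⟩
      · exact ⟨l + Asm.lin (Asm.ad_fv q), by
          rw [LinearMap.add_apply, hl, Asm.lin_cl _ ha.wc.ne, ha.fq, add_zero], by
          rw [LinearMap.add_apply, i, Asm.lin_cl _ a0, a4]; rfl⟩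
    obtain ⟨g, g1, g2⟩ := hCm L θ hθ q m W {a, α} l' T hm hW (fun β hβ => by
      rcases Finset.mem_insert.1 hβ with rfl | i
      · exact ga
      · rw [Finset.mem_singleton.1 i]
        exact ⟨a0, a1, a3⟩) T2
    refine ⟨g, g1, fun i => by simpa [l1, T1] using ((g2 a (by simp)).1 e s hs).1 i,
      Or.inr ⟨fun i => b3 (cb_ff c1 i fun P hP => ?_), ?_⟩⟩
    · rw [mul_smul]
      exact (((hR.2 q O hq.qf.pr q2 q11 b1).2.2.2.2.2.2.2 φ b2).2.1.1 hq.ty).1 P hP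
    · simpa [l2] using (g2 α (by simp)).2 _ c2 a2
  obtain ⟨h, h1, h2, h3, h4, h5⟩ := hCha q d k m W g y z z' hq hk hkm hW g1 hy.cy (ke hy) hz.cy
    (ke hz) hz'.cy (ke hz') g3
  have h6 : h s = -s := by
    rw [h2 s fx]
    refine (sq_eq_sq_iff_eq_or_eq_neg.1 ?_).resolve_left g2
    rw [← map_pow, fx g fun P hP => g1.tor P (tor_one hm hP)]
  obtain ⟨J1, i1, j1⟩ := cy_ag hy.cy
  obtain ⟨J2, i2, j2⟩ := cy_ag hz.cy
  obtain ⟨J3, i3, j3⟩ := cy_ag hz'.cy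
  obtain ⟨p, O, φ, b, p1, p2, p3, p4, p5, p6, p7, p8, p9, p10, p11, p12⟩ := hFb q m W h
    (insert s (J1 ∪ (J2 ∪ J3))) (N + 11 + q + d.natAbs + ∑ x ∈ n, x) hm hW h1 (fun x hx => by
      simp only [Finset.mem_insert, Finset.mem_union] at hx
      rcases hx with rfl | i | i | i
      · exact IsAlgebraic.of_pow two_pos (by
          rw [hs]
          exact (Algebra.IsAlgebraic.isAlgebraic (R := ℚ) a).algHom e.toRatAlgHom)
      exacts [i1 x i, i2 x i, i3 x i])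
  have d0 : d ≠ 0 := hq.fam.sf.ne_zero
  have pd : ¬ (p : ℤ) ∣ d := fun i => by
    have := Nat.le_of_dvd (Int.natAbs_pos.2 d0) (Int.natCast_dvd.1 i)
    omega
  have pn : p ∉ n := fun i => by
    have : p ≤ ∑ x ∈ n, x := Finset.single_le_sum (f := fun x => x) (fun _ _ => zero_le) i
    omega
  have nn := nn_mem (kw hW) (hm_iff.1 h1)
  have val : ∀ {c : ℤ} {x : G → Pt} {J : Finset ℂ}, Cy c k x → (∀ σ τ, Ag J σ τ → x σ = x τ) →
      J ⊆ J1 ∪ (J2 ∪ J3) → x (φ * φ) = b • x (cj * h * (cj * h)) := fun hx hJ i => by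
    rw [← cy_pow hx hkm nn, ← pow_two, ← pow_two, ← pow_mul, mul_comm 2 b]
    exact hJ _ _ fun w hw => p10 2 w (Finset.mem_insert_of_mem (i hw))
  have can : ∀ {c : ℤ} {x : G → Pt} {u : ℤ}, Cy c k x → u • b • x (cj * h * (cj * h)) = 0 →
      u • x (cj * h * (cj * h)) = 0 := fun hx i =>
    odd_cancel p5 (k := k) (by rw [smul_comm, hx.tor, smul_zero]) (by rwa [smul_comm])
  refine ⟨p, O, φ, by omega, ⟨p2, by omega, by omega, by omega, pd, p6,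
    (p11 q hq.qf.pr (by have := hq.qf.big; omega) (by omega)).2 hq.qf.m4, p8, O, φ, p3, p4,
    fun P hP => by rw [p9 P hP, p9 _ (tor_smul cj hP), ← mul_smul, cj_mul_cj, one_smul]⟩, p12, p3,
    p4, (Iso.z2 _).resolve_left fun i => s0 ?_, ?_, fun u i => h4 u (can hz.cy ?_),
    fun u i => h5 u (can hz'.cy ?_)⟩
  · obtain ⟨-, t2, t3⟩ := pt_root f0
    have t4 := congrArg xc (p9 _ (tor_one hm t2))
    rw [xc_smul, xc_smul, t3, hce] at t4
    have t5 := (hFv L θ hθ p O φ e a s p2 (by omega) (by omega) p8 p3 p4 t4 ha.wc.ne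
      (ha.wc.ev p p2 pd pn) hs).1 i
    have t6 : (cj * h) s = -s := by rw [RingAut.mul_apply, h6, map_neg, hcs]
    have t7 := p10 1 s (Finset.mem_insert_self _ _)
    rw [pow_one, mul_one, Cheb.pow_odd (by rw [t6, map_neg, t6, neg_neg]) p5, t6, t5] at t7
    linear_combination t7 / 2
  · rw [val hy.cy j1 Finset.subset_union_left, h3, smul_zero]
  · rwa [val hz.cy j2 (Finset.subset_union_left.trans Finset.subset_union_right)] at i
  · rwa [val hz'.cy j3 (Finset.subset_union_right.trans Finset.subset_union_right)] at i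

end Pool.Agent.Lib.MP_d6ddbd_nt.KI
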