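import Pool.Agent.Lib.MP_d6ddbd_nt.KI.Iso0

/-!
Lemma K in a smaller group, and duality.
-/

set_option autoImplicit false
set_option maxSynthPendingDepth 3

open NumberField
open Pool.Agent.Lib.MP_02f36d_nt (xc yc xc_neg)
open Pool.Agent.Stark (og)
open Pool.Agent.Lib.MP_d6ddbd_nt.K11
open Pool.Agent.Lib.MP_d6ddbd_nt.K11.R1 (wl_add wl_smul map_fc wl_iff wl0)
open Pool.Agent.Lib.MP_d6ddbd_nt.K11.Cheb (Ab ab_root)

noncomputable section

namespace Pool.Agent.Lib.MP_d6ddbd_nt.KI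

/-- Numbers with a power that is fixed or inverted by every automorphism. -/
def Kw (w : ℂ) : Prop :=
  w ≠ 0 ∧ ∃ n : ℕ, n ≠ 0 ∧ ∀ σ : G, σ (w ^ n) = w ^ n ∨ σ (w ^ n) = (w ^ n)⁻¹

/-- Commutators that fix the points of order `2 ^ m` and the numbers in `W`. -/
def Hs (m : ℕ) (W : Finset ℂ) : Subgroup G where
  carrier := {h | h ∈ commutator G ∧ (∀ T : Pt, 2 ^ m • T = 0 → h • T = T) ∧ ∀ w ∈ W, h w = w}
  mul_mem' := fun {a b} ha hb => ⟨mul_mem ha.1 hb.1, fun T hT => by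
    rw [mul_smul, hb.2.1 T hT, ha.2.1 T hT], fun w hw => by
      rw [RingAut.mul_apply, hb.2.2 w hw, ha.2.2 w hw]⟩
  one_mem' := ⟨one_mem _, fun T _ => one_smul _ T, fun _ _ => rfl⟩
  inv_mem' := fun {a} ha => ⟨inv_mem ha.1, fun T hT => by
    rw [inv_smul_eq_iff, ha.2.1 T hT], fun w hw => (RingEquiv.symm_apply_eq a).2 (ha.2.2 w hw).symm⟩

theorem mem_Hs {m : ℕ} {W : Finset ℂ} {h : G} : h ∈ Hs m W ↔
    h ∈ commutator G ∧ (∀ T : Pt, 2 ^ m • T = 0 → h • T = T) ∧ ∀ w ∈ W, h w = w := Iff.rfl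

namespace Cm

theorem root_fix {ζ : ℂ} {n : ℕ} (hn : n ≠ 0) (h : ζ ^ n = 1) {g : G} (hg : g ∈ commutator G) :
    g ζ = ζ := by
  have : NeZero n := ⟨hn⟩
  have h0 := Complex.isPrimitiveRoot_exp n hn
  obtain ⟨i, -, rfl⟩ := h0.eq_pow_of_pow_eq_one h
  rw [map_pow]
  exact congrArg (· ^ i) ((ab_root hn h0).fix hg 1)

theorem swap {w : ℂ} (hw : Kw w) {a b : G} (ha : a ∈ commutator G) (hb : b ∈ commutator G)
    (ρ : G) : a (b (ρ w)) = b (a (ρ w)) := by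
  obtain ⟨w0, n, hn, h⟩ := hw
  have ab : Ab (w ^ n) := fun σ τ => by
    rcases h σ with p | p <;> rcases h τ with q | q <;> simp only [p, q, map_inv₀]
  have r0 : ρ w ≠ 0 := (map_ne_zero ρ).2 w0
  have key : ∀ g ∈ commutator G, ∃ ζ : ℂ, ζ ^ n = 1 ∧ g (ρ w) = ζ * ρ w := fun g hg =>
    ⟨g (ρ w) / ρ w, by
      rw [div_pow, ← map_pow, ← map_pow, ab.fix hg ρ, div_self ((map_ne_zero ρ).2 (pow_ne_zero _ w0))],
      by field_simp⟩
  obtain ⟨x, x1, x2⟩ := key a ha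
  obtain ⟨y, y1, y2⟩ := key b hb
  rw [y2, x2, map_mul, map_mul, x2, y2, root_fix hn y1 ha, root_fix hn x1 hb]
  ring

theorem tor_smul (σ : G) {n : ℕ} {T : Pt} (h : n • T = 0) : n • σ • T = 0 := by
  rw [← smul_comm, h, smul_zero]

theorem tor_one {m : ℕ} (hm : m ≠ 0) {T : Pt} (h : 2 • T = 0) : 2 ^ m • T = 0 := by
  obtain ⟨j, rfl⟩ := Nat.exists_eq_succ_of_ne_zero hm
  rw [pow_succ, mul_smul, h, smul_zero]

theorem pt_root {x : ℂ} (hx : fc x = 0) : pt x 0 ≠ 0 ∧ 2 • pt x 0 = 0 ∧ xc (pt x 0) = x := by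
  obtain ⟨b1, b2, b3⟩ := R1.pt_spec (x := x) (y := 0) (by rw [hx]; ring)
  exact ⟨b1, (R1.two_iff _).2 (Or.inr ⟨b3, by rw [b2, hx]⟩), b2⟩

theorem fix_root {g : G} (hg : ∀ T : Pt, 2 • T = 0 → g • T = T) {x : ℂ} (hx : fc x = 0) :
    g x = x := by
  have := xc_smul g (pt x 0)
  rw [hg _ (pt_root hx).2.1, (pt_root hx).2.2] at this
  exact this.symm

theorem two_ext {T T' : Pt} (h : 2 • T = 0) (h' : 2 • T' = 0) (h0 : T ≠ 0) (h0' : T' ≠ 0)
    (e : xc T = xc T') : T = T' :=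
  act_ext (by simp [h0, h0']) e ((((R1.two_iff T).1 h).resolve_left h0).1.trans
    (((R1.two_iff T').1 h').resolve_left h0').1.symm)

/-- A commutator that permutes the roots cyclically. -/
theorem cyc : ∃ ω ∈ commutator G, ∀ x, fc x = 0 → ω x ≠ x ∧ ω (ω x) ≠ x ∧ ω (ω (ω x)) = x := by
  obtain ⟨e₁, e₂, e₃, hf, n12, n13, n23, c1, c2, -, ⟨ω, w1, w2, w3⟩, -⟩ := r1_thm.2.2.2.2.1
  have c3 : cj e₃ = e₂ := by rw [← c2]; exact Complex.conj_conj _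
  have i1 : ω⁻¹ e₂ = e₁ := (RingEquiv.symm_apply_eq ω).2 w1.symm
  have i2 : ω⁻¹ e₃ = e₂ := (RingEquiv.symm_apply_eq ω).2 w2.symm
  have i3 : ω⁻¹ e₁ = e₃ := (RingEquiv.symm_apply_eq ω).2 w3.symm
  have ci : cj⁻¹ = cj := inv_eq_of_mul_eq_one_right cj_mul_cj
  have a : ∀ x, (ω * cj * ω⁻¹ * cj⁻¹) x = ω (cj (ω⁻¹ (cj x))) := fun x => by rw [ci]; rfl
  have a1 : (ω * cj * ω⁻¹ * cj⁻¹) e₁ = e₃ := by rw [a, c1, i3, c3, w2]
  have a2 : (ω * cj * ω⁻¹ * cj⁻¹) e₂ = e₁ := by rw [a, c2, i2, c2, w3]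
  have a3 : (ω * cj * ω⁻¹ * cj⁻¹) e₃ = e₂ := by rw [a, c3, i1, c1, w1]
  refine ⟨ω * cj * ω⁻¹ * cj⁻¹, Subgroup.commutator_mem_commutator (Subgroup.mem_top ω)
    (Subgroup.mem_top cj), fun x hx => ?_⟩
  rw [hf, mul_eq_zero, mul_eq_zero, sub_eq_zero, sub_eq_zero, sub_eq_zero] at hx
  rcases hx with (rfl | rfl) | rfl
  · rw [a1, a3, a2]
    exact ⟨n13.symm, n12.symm, rfl⟩
  · rw [a2, a1, a3]
    exact ⟨n12, n23.symm, rfl⟩
  · rw [a3, a2, a1]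
    exact ⟨n23, n13, rfl⟩

theorem unr_add {O : ValuationSubring ℂ} {ξ ξ' : G → Pt} (h : Unr O ξ) (h' : Unr O ξ') :
    Unr O (ξ + ξ') := by
  obtain ⟨S, a, b⟩ := h
  obtain ⟨S', a', b'⟩ := h'
  refine ⟨S + S', R1.alg_add _ _ a a', fun σ hσ => ⟨?_, ?_⟩⟩
  · rw [smul_add 2, smul_add, (b σ hσ).1, (b' σ hσ).1]
  · rw [Pi.add_apply, (b σ hσ).2, (b' σ hσ).2, smul_add]
    abel

theorem unr_zero (O : ValuationSubring ℂ) : Unr O 0 :=
  ⟨0, r1_thm.1.1, fun σ _ => by simp⟩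

theorem coc_zero : Coc 0 := ⟨fun _ => smul_zero _, fun _ _ => by simp, ∅, by simp, fun _ _ => rfl⟩

theorem coc_add {ξ ξ' : G → Pt} (h : Coc ξ) (h' : Coc ξ') : Coc (ξ + ξ') := by
  classical
  obtain ⟨J, a, b⟩ := h.fin
  obtain ⟨J', a', b'⟩ := h'.fin
  refine ⟨fun σ => by rw [Pi.add_apply, smul_add, h.two, h'.two, add_zero], fun σ τ => ?_,
    J ∪ J', fun x hx => (Finset.mem_union.1 hx).elim (a x) (a' x), fun σ hσ => ?_⟩
  · simp only [Pi.add_apply, h.mul, h'.mul, smul_add]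
    abel
  · rw [Pi.add_apply, b σ fun x hx => hσ x (Finset.mem_union_left _ hx),
      b' σ fun x hx => hσ x (Finset.mem_union_right _ hx), add_zero]

theorem coc_one {ξ : G → Pt} (h : Coc ξ) : ξ 1 = 0 := by
  have := h.mul 1 1
  rw [mul_one, one_smul] at this
  exact left_eq_add.1 this

theorem coc_conj {ξ : G → Pt} (h : Coc ξ) {g : G} (hg : ∀ T : Pt, 2 • T = 0 → g • T = T) (ρ : G) :
    ξ (ρ * g * ρ⁻¹) = ρ • ξ g := by
  have a := h.mul ρ ρ⁻¹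
  rw [mul_inv_cancel, coc_one h] at a
  rw [h.mul, h.mul, mul_smul, hg _ (h.two _), add_right_comm, ← a, zero_add]

end Cm

open Cm

theorem Hs_normal (m : ℕ) {W : Finset ℂ} (hW : ∀ w ∈ W, Kw w) : (Hs m W).Normal := ⟨by
  rintro h ⟨h1, h2, h3⟩ g
  refine ⟨(inferInstance : (commutator G).Normal).conj_mem h h1 g, fun T hT => ?_, fun w hw => ?_⟩
  · rw [mul_smul, mul_smul, h2 _ (tor_smul _ hT), smul_inv_smul]
  · obtain ⟨w0, n, hn, hσ⟩ := hW w hw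
    have key : h (g⁻¹ w) = g⁻¹ w := by
      rcases hσ g⁻¹ with p | p
      · have := root_fix (ζ := g⁻¹ w / w) hn (by
          rw [div_pow, ← map_pow, p, div_self (pow_ne_zero _ w0)]) h1
        rw [map_div₀, h3 w hw] at this
        exact (div_left_inj' w0).1 this
      · have := root_fix (ζ := g⁻¹ w * w) hn (by
          rw [mul_pow, ← map_pow, p, inv_mul_cancel₀ (pow_ne_zero _ w0)]) h1
        rw [map_mul, h3 w hw] at this
        exact mul_right_cancel₀ w0 this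
    show g (h (g⁻¹ w)) = w
    rw [key]
    exact g.apply_symm_apply w⟩

variable {L : Type} [Field L] [NumberField L] {θ : L}

/-- Lemma K in the group `Hs m W`. -/
theorem lemK (hPr : PrStmt) (hC : CommStmt) (hθ : Cub θ) (m : ℕ) {W : Finset ℂ}
    (hW : ∀ w ∈ W, Kw w) {α : L} (e : L →+* ℂ) {s : ℂ} (h0 : α ≠ 0)
    (hN : IsSquare (Algebra.norm ℚ α)) (h11 : ∀ 𝔭 ∈ ab L 11, Even (og 𝔭 α)) (hn : ¬ IsSquare α)
    (hs : s ^ 2 = e α) : ∃ h ∈ Hs m W, h s = -s := by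
  obtain ⟨g, g1, g2, g3⟩ := hC L θ hθ α m e s h0 hN h11 hn hs
  obtain ⟨ω, w1, w2⟩ := cyc
  obtain ⟨-, -, -, -, -, -, p7, -, p9, -⟩ := hPr L θ hθ
  have f0 : fc (e θ) = 0 := by simpa [fc, map_ofNat] using congrArg e hθ.eq
  have gV : ∀ T : Pt, 2 • T = 0 → g • T = T := fun T hT => g2 T (tor_one m.succ_ne_zero hT)
  have gs : ∀ ρ : G, g (ρ s) = ρ s ∨ g (ρ s) = -ρ s := fun ρ => by
    refine sq_eq_sq_iff_eq_or_eq_neg.1 ?_
    have a : g (ρ (e θ)) = ρ (e θ) := fix_root gV (by rw [← map_fc, f0, map_zero])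
    obtain ⟨a, b, c, rfl⟩ := p7 α
    rw [← map_pow, ← map_pow, hs]
    simp only [map_add, map_mul, map_pow, map_ratCast, *]
  have s0 : s ≠ 0 := fun k => h0 ((map_eq_zero e).1 (by rw [← hs, k]; simp))
  have fin : ∀ ρ ∈ commutator G, g (ρ s) = ρ s → ∃ h ∈ Hs m W, h s = -s := fun ρ hρ k => by
    refine ⟨ρ⁻¹ * g * ρ * g⁻¹, ⟨mul_mem (mul_mem (mul_mem (inv_mem hρ) g1) hρ) (inv_mem g1),
      fun T hT => ?_, fun w hw => ?_⟩, ?_⟩
    · have b : ∀ T : Pt, 2 ^ m • T = 0 → g • T = T := fun T hT =>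
        g2 T (by rw [pow_succ', mul_smul, hT, smul_zero])
      rw [mul_smul, mul_smul, mul_smul, inv_smul_eq_iff.2 (b T hT).symm, b _ (tor_smul ρ hT),
        inv_smul_smul]
    · show ρ⁻¹ (g (ρ (g⁻¹ w))) = w
      rw [swap (hW w hw) g1 hρ g⁻¹]
      exact (ρ.symm_apply_apply _).trans (g.apply_symm_apply w)
    · have b : g⁻¹ s = -s := (RingEquiv.symm_apply_eq g).2 (by rw [map_neg, g3, neg_neg])
      show ρ⁻¹ (g (ρ (g⁻¹ s))) = -s
      rw [b, map_neg, map_neg, k, map_neg]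
      exact congrArg Neg.neg (ρ.symm_apply_apply s)
  rcases gs ω with a | a
  · exact fin ω w1 a
  rcases gs (ω * ω) with b | b
  · exact fin _ (mul_mem w1 w1) b
  exfalso
  obtain ⟨n, hn⟩ := hN
  obtain ⟨c1, c2, -⟩ := w2 _ f0
  have d := p9 α e (ω.toRingHom.comp e) ((ω * ω : G).toRingHom.comp e) c1.symm c2.symm
    (fun k => c1 (ω.injective k).symm)
  have d1 : (s * ω s * (ω * ω) s) ^ 2 = (n : ℂ) ^ 2 := by
    rw [mul_pow, mul_pow, ← map_pow, ← map_pow, hs, pow_two (n : ℂ), ← Rat.cast_mul, ← hn, d]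
    rfl
  have d2 : g (s * ω s * (ω * ω) s) = s * ω s * (ω * ω) s := by
    rcases sq_eq_sq_iff_eq_or_eq_neg.1 d1 with k | k <;> rw [k] <;> simp
  rw [map_mul, map_mul, g3, a, b] at d2
  exact mul_ne_zero (mul_ne_zero s0 ((map_ne_zero ω).2 s0)) ((map_ne_zero (ω * ω)).2 s0)
    (by linear_combination -d2 / 2)

/-- Lemma K for cocycles. -/
theorem lemK' (hPr : PrStmt) (hC : CommStmt) (hK : KumStmt) (hL : Link2Stmt) (hθ : Cub θ) {m : ℕ}
    (hm : m ≠ 0) {W : Finset ℂ} (hW : ∀ w ∈ W, Kw w) {ξ : G → Pt} (hξ : Coc ξ)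
    (hu : ∀ O, Ov O 11 → Unr O ξ) (hn : ¬ Cob ξ) {x : ℂ} (hx : fc x = 0) :
    ∃ h ∈ Hs m W, wl x (ξ h) = 1 := by
  obtain ⟨α, a0, a1, a2⟩ := (hK L θ hθ).1 ξ hξ
  obtain ⟨e, rfl⟩ := (hPr L θ hθ).2.2.2.2.2.2.2.1 x hx
  obtain ⟨s, hs⟩ := IsAlgClosed.exists_pow_nat_eq (e α) two_pos
  obtain ⟨h, h1, h2⟩ := lemK hPr hC hθ m hW e a0 a1 ((hL L θ hθ α ξ a0 a1 hξ a2).2 hu)
    (fun k => hn (((hK L θ hθ).2 α ξ a0 hξ a2).1 k)) hs
  refine ⟨h, h1, (Iso.z2 _).resolve_left fun k => a0 ((map_eq_zero e).1 ?_)⟩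
  have := (a2 e s h hs (fix_root (fun T hT => h1.2.1 T (tor_one hm hT)) hx)).2 k
  rw [← hs, show s = 0 by linear_combination (h2 - this) / 2]
  simp

/-- Duality: the values on `Hs m W` of a finite family of cocycles. -/
theorem dual (hPr : PrStmt) (hC : CommStmt) (hK : KumStmt) (hL : Link2Stmt) (hθ : Cub θ) {m : ℕ}
    (hm : m ≠ 0) {W : Finset ℂ} (hW : ∀ w ∈ W, Kw w) {ι : Type} [Fintype ι] (ξ : ι → G → Pt)
    (hξ : ∀ i, Coc (ξ i)) (hu : ∀ i O, Ov O 11 → Unr O (ξ i)) (lam : ι → ZMod 2)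
    (hl : ∀ S : Finset ι, Cob (∑ i ∈ S, ξ i) → ∑ i ∈ S, lam i = 0) {T : Pt} (hT : 2 • T = 0) :
    ∃ h ∈ Hs m W, ∀ i, ξ i h = if lam i = 0 then 0 else T := by
  classical
  obtain ⟨e₁, e₂, e₃, hf, n12, n13, n23, c1, c2, hp, -, -⟩ := r1_thm.2.2.2.2.1
  have f1 : fc e₁ = 0 := by rw [hf]; ring
  have hV : ∀ h ∈ Hs m W, ∀ T : Pt, 2 • T = 0 → h • T = T := fun h a T b => a.2.1 T (tor_one hm b)
  let U : Submodule (ZMod 2) (ι → ZMod 2) :=
    { carrier := {u | ∃ h ∈ Hs m W, ∀ i, wl e₁ (ξ i h) = u i}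
      add_mem' := by
        rintro u v ⟨g, g1, g2⟩ ⟨h, h1, h2⟩
        refine ⟨g * h, mul_mem g1 h1, fun i => ?_⟩
        rw [(hξ i).mul, hV g g1 _ ((hξ i).two _), wl_add _ _ _ f1 ((hξ i).two _) ((hξ i).two _), g2,
          h2, Pi.add_apply]
      zero_mem' := ⟨1, one_mem _, fun i => by rw [coc_one (hξ i), wl0, Pi.zero_apply]⟩
      smul_mem' := by
        rintro c u hu
        rcases Iso.z2 c with rfl | rfl
        · exact ⟨1, one_mem _, fun i => by rw [coc_one (hξ i), wl0, zero_smul, Pi.zero_apply]⟩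
        · rwa [one_smul] }
  have hU : lam ∈ U := by
    by_contra hn
    obtain ⟨f, k1, k2⟩ := U.exists_dual_map_eq_bot_of_notMem hn inferInstance
    let S : Finset ι := Finset.univ.filter fun i => f (fun j => if i = j then 1 else 0) = 1
    have hf : ∀ u : ι → ZMod 2, f u = ∑ i ∈ S, u i := fun u => by
      rw [LinearMap.pi_apply_eq_sum_univ, Finset.sum_filter]
      refine Finset.sum_congr rfl fun i _ => ?_
      rcases Iso.z2 (f fun j => if i = j then 1 else 0) with h | h <;> simp [h]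
    have hS : ∀ S : Finset ι, Coc (∑ i ∈ S, ξ i) ∧ (∀ O, Ov O 11 → Unr O (∑ i ∈ S, ξ i)) ∧
        ∀ h, wl e₁ ((∑ i ∈ S, ξ i) h) = ∑ i ∈ S, wl e₁ (ξ i h) := fun S => by
      induction S using Finset.induction_on with
      | empty => exact ⟨coc_zero, fun O _ => unr_zero O, fun h => wl0 _⟩
      | insert i S hi ih =>
        simp only [Finset.sum_insert hi]
        exact ⟨coc_add (hξ i) ih.1, fun O hO => unr_add (hu i O hO) (ih.2.1 O hO), fun h => by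
          rw [Pi.add_apply, wl_add _ _ _ f1 ((hξ i).two _) (ih.1.two _), ih.2.2]⟩
    obtain ⟨h, h1, h2⟩ := lemK' hPr hC hK hL hθ hm hW (hS S).1 (hS S).2.1
      (fun k => k1 (by rw [hf, hl S k])) f1
    have : f (fun i => wl e₁ (ξ i h)) ∈ U.map f := Submodule.mem_map_of_mem ⟨h, h1, fun _ => rfl⟩
    rw [k2, Submodule.mem_bot, hf, ← (hS S).2.2, h2] at this
    exact one_ne_zero this
  obtain ⟨g, g1, g2⟩ := hU
  by_cases T0 : T = 0
  · exact ⟨1, one_mem _, fun i => by rw [coc_one (hξ i), T0, ite_self]⟩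
  obtain ⟨ρ, hρ⟩ : ∃ ρ : G, ρ e₁ = xc T := by
    obtain ⟨ω, -, w⟩ := cyc
    obtain ⟨a1, a2, -⟩ := w _ f1
    have f2 : fc (ω e₁) = 0 := by rw [← map_fc, f1, map_zero]
    have f3 : fc (ω (ω e₁)) = 0 := by rw [← map_fc, f2, map_zero]
    have b := (((R1.two_iff T).1 hT).resolve_left T0).2
    rw [R1.fc_eq f1 f2 a1.symm, mul_eq_zero, mul_eq_zero, sub_eq_zero, sub_eq_zero,
      sub_eq_zero] at b f3
    rcases b with (b | b) | b
    · exact ⟨1, b.symm⟩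
    · exact ⟨ω, b.symm⟩
    · exact ⟨ω * ω, ((f3.resolve_left fun k => k.elim a2 (w _ f2).1).trans b.symm :)⟩
  have ci : cj⁻¹ = cj := inv_eq_of_mul_eq_one_right cj_mul_cj
  have nm := Hs_normal m hW
  have g3 := mul_mem (nm.conj_mem g g1 cj) g1
  refine ⟨_, nm.conj_mem _ g3 ρ, fun i => ?_⟩
  have t := (hξ i).two g
  rw [coc_conj (hξ i) (hV _ g3), (hξ i).mul, coc_conj (hξ i) (hV g g1),
    hV _ (nm.conj_mem g g1 cj) _ t, ← g2 i]
  generalize ξ i g = P at t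
  have c3 : cj e₃ = e₂ := by rw [← c2]; exact Complex.conj_conj _
  by_cases P0 : P = 0
  · simp [P0, wl0]
  have P1 : cj • P ≠ 0 := fun k => P0 ((smul_eq_zero' _ _).1 k)
  have b := (((R1.two_iff P).1 t).resolve_left P0).2
  split_ifs with k
  · have k1 := (wl_iff.1 k).resolve_left P0
    rw [two_ext (tor_smul cj t) t P1 P0 (by rw [xc_smul, k1, c1]), ← two_nsmul, t, smul_zero]
  · have k1 : xc P ≠ e₁ := fun a => k (wl_iff.2 (Or.inr a))
    have s4 : e₁ + e₂ + e₃ = 4 := by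
      have a0 := hf 0
      have a1 := hf 1
      have a2 := hf (-1)
      simp only [fc] at a0 a1 a2
      linear_combination (a1 + a2) / 2 - a0
    rw [hf, mul_eq_zero, mul_eq_zero, sub_eq_zero, sub_eq_zero, sub_eq_zero] at b
    have k2 : xc (cj • P) ≠ xc P ∧ 4 - xc (cj • P) - xc P = e₁ := by
      rw [xc_smul]
      rcases b with (b | b) | b
      · exact absurd b k1
      · rw [b, c2]
        exact ⟨n23.symm, by linear_combination -s4⟩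
      · rw [b, c3]
        exact ⟨n23, by linear_combination -s4⟩
    obtain ⟨d1, d2, -⟩ := R1.add_TT P1 P0 (tor_smul cj t) t k2.1
    exact two_ext (tor_smul ρ (by rw [smul_add, tor_smul cj t, t, add_zero])) hT
      (fun a => d1 ((smul_eq_zero' _ _).1 a)) T0 (by rw [xc_smul, d2, k2.2, hρ])

end Pool.Agent.Lib.MP_d6ddbd_nt.KI
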