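import Pool.Agent.Lib.MP_d6ddbd_nt.KI.Stmt
import Pool.Agent.Lib.MP_d6ddbd_nt.KI.Cm0
import Pool.Agent.Lib.MP_d6ddbd_nt.KI.Loc1
import Pool.Agent.Lib.MP_d6ddbd_nt.K11.Link1
import Pool.Agent.Lib.MP_d6ddbd_nt.K11.R2
import Pool.Agent.Lib.MP_d6ddbd_nt.K11.V4

/-! The choice of an element of `H` that detects the classes on both twists. -/

set_option autoImplicit false
set_option maxSynthPendingDepth 3

open Pool.Agent.Lib.MP_02f36d_nt (xc yc)
open Pool.Agent.Lib.MP_d6ddbd_nt.K11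

noncomputable section

namespace Pool.Agent.Lib.MP_d6ddbd_nt.KI

namespace Cha

section Alg

variable {M : Type} [AddCommGroup M] {k : ℕ}

theorem cmp {a b : M} (ha : 2 ^ k • a = 0) (hb : 2 ^ k • b = 0) :
    (∀ u : ℤ, u • a = 0 → u • b = 0) ∨ ∀ u : ℤ, u • b = 0 → u • a = 0 := by
  obtain ⟨i, -, hi⟩ := (Nat.dvd_prime_pow Nat.prime_two).1 (addOrderOf_dvd_of_nsmul_eq_zero ha)
  obtain ⟨j, -, hj⟩ := (Nat.dvd_prime_pow Nat.prime_two).1 (addOrderOf_dvd_of_nsmul_eq_zero hb)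
  simp only [← addOrderOf_dvd_iff_zsmul_eq_zero, hi, hj]
  rcases le_total i j with h | h
  · exact Or.inr fun u hu => (Int.natCast_dvd_natCast.2 (pow_dvd_pow 2 h)).trans hu
  · exact Or.inl fun u hu => (Int.natCast_dvd_natCast.2 (pow_dvd_pow 2 h)).trans hu

theorem pick {a b : M} (ha : 2 ^ k • a = 0) (hb : 2 ^ k • b = 0) :
    ∃ e : ℤ, ∀ u : ℤ, u • (a + e • 2 • b) = 0 → (2 * u) • b = 0 := by
  have key : ∀ u : ℤ, u • a = 0 → u • (a + 2 • b) = 0 → (2 * u) • b = 0 := fun u p q => by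
    rw [smul_add, p, zero_add] at q
    rw [← q]
    module
  rcases cmp (b := a + 2 • b) ha (by rw [smul_add, ha, smul_comm, hb, smul_zero, add_zero]) with h | h
  · exact ⟨0, fun u hu => by
      rw [zero_smul, add_zero] at hu
      exact key u hu (h u hu)⟩
  · exact ⟨1, fun u hu => by
      rw [one_smul] at hu
      exact key u (h u hu) hu⟩

theorem odd_inv {a : M} (ha : 2 ^ k • a = 0) {c : ℤ} (hc : Odd c) : ∃ e : ℤ, a = e • c • a := by
  obtain ⟨e, f, h⟩ : IsCoprime c (2 ^ k) := (Int.isCoprime_two_right.2 hc).pow_right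
  refine ⟨e, ?_⟩
  have h2 : ((2 : ℤ) ^ k) • a = 0 := by exact_mod_cast ha
  calc a = (e * c + f * 2 ^ k) • a := by rw [h, one_smul]
    _ = _ := by rw [add_smul, mul_smul, mul_smul, h2, smul_zero, add_zero]

theorem even_of {a : M} (hk : k ≠ 0) (ha : 2 ^ k • a = 0) {c : ℤ} (hc : Even c) :
    2 ^ (k - 1) • c • a = 0 := by
  obtain ⟨j, rfl⟩ := Nat.exists_eq_succ_of_ne_zero hk
  obtain ⟨e, rfl⟩ := hc
  have : 2 ^ j • (e + e) • a = e • 2 ^ (j + 1) • a := by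
    rw [pow_succ, mul_smul]
    module
  rw [Nat.succ_sub_one, this, ha, smul_zero]

theorem gen {a b : M} (hk : k ≠ 0) (hb : 2 ^ k • b = 0) (ha : 2 ^ (k - 1) • a ≠ 0)
    (h : (∃ c : ℤ, b = c • a) ∨ ∃ c : ℤ, a = c • b) : ∃ c : ℤ, b = c • a := by
  refine h.elim id fun ⟨c, hc⟩ => ?_
  rcases Int.even_or_odd c with p | p
  · exact absurd (hc ▸ even_of hk hb p) ha
  · exact hc ▸ odd_inv hb p

theorem half {a : M} (ha : 2 ^ k • a = 0) (h : 2 ^ (k - 1) • a ≠ 0) {c : ℤ}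
    (hc : 2 ^ (k - 1) • c • a = 0) : ∃ e : ℤ, c • a = e • 2 • a := by
  rcases Int.even_or_odd c with ⟨e, rfl⟩ | p
  · exact ⟨e, by module⟩
  · obtain ⟨e, he⟩ := odd_inv ha p
    exact absurd (by rw [he, smul_comm, hc, smul_zero]) h

end Alg

variable {c : ℤ} {k m q : ℕ} {W : Finset ℂ} {x y : G → Pt} {g h : G}

theorem kw (hW : Wq q m W) : ∀ w ∈ W, Kw w := fun w hw => by
  obtain ⟨π, h1, h0, e⟩ := hW w hw
  obtain ⟨a, b, rfl⟩ := Submodule.mem_span_pair.1 h1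
  have c0 : starRingEnd ℂ (a • (1 : ℂ) + b • om q) ≠ 0 := (map_ne_zero _).2 h0
  have n0 : 2 ^ m ≠ 0 := by positivity
  have hc : starRingEnd ℂ (om q) = 1 - om q := by
    simp only [om, map_div₀, map_add, map_mul, map_one, Complex.conj_I, Complex.conj_ofReal,
      map_ofNat]
    ring
  have e2 : starRingEnd ℂ (a • (1 : ℂ) + b • om q) = a • (1 : ℂ) + b • (1 - om q) := by
    rw [map_add, map_zsmul, map_zsmul, map_one, hc]
  refine ⟨fun z => div_ne_zero c0 h0 (by rw [← e, z, zero_pow n0]), _, n0, fun σ => ?_⟩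
  rw [e, e2, map_div₀, map_add, map_add, map_zsmul, map_zsmul, map_zsmul, map_one, map_sub, map_one,
    Cheb.om_eq q σ]
  rcases V2.sq_cases σ (Cheb.om_sqz q) with p | p <;> rw [p]
  · left
    congr 3 <;> ring
  · right
    rw [inv_div]
    congr 3 <;> ring

theorem hm_iff : Hm m W h ↔ h ∈ Hs m W := ⟨fun a => ⟨a.1, a.2, a.3⟩, fun a => ⟨a.1, a.2.1, a.2.2⟩⟩

theorem tw_h (hk : k ≤ m) (hh : h ∈ Hs m W) {T : Pt} (hT : 2 ^ k • T = 0) : tw c h T = T := by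
  obtain ⟨j, rfl⟩ := Nat.exists_eq_add_of_le' hk
  have : h (rt c) = rt c := (Cheb.ab_sq (rt_sq c)).fix hh.1 1
  rw [tw, cq, if_pos this, one_smul, hh.2.1 T (by rw [pow_add, mul_smul, hT, smul_zero])]

/-- The twisted action as an additive map. -/
def twh (c : ℤ) (σ : G) : Pt →+ Pt :=
  AddMonoidHom.mk' (tw c σ) fun P Q => by simp only [tw, smul_add]

theorem one (hx : Cy c k x) : x 1 = 0 := by
  obtain ⟨J, -, hJ⟩ := hx.fin
  exact hJ 1 fun _ _ => rfl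

theorem mul (hx : Cy c k x) (hk : k ≤ m) (hh : h ∈ Hs m W) (g : G) : x (h * g) = x h + x g := by
  rw [hx.mul, tw_h hk hh (hx.tor g)]

theorem conj (hx : Cy c k x) (hk : k ≤ m) (hh : h ∈ Hs m W) (σ : G) :
    x (σ * h * σ⁻¹) = tw c σ (x h) := by
  have a := hx.mul σ σ⁻¹
  rw [mul_inv_cancel, one hx] at a
  rw [mul_assoc, hx.mul, mul hx hk hh]
  refine (congrArg _ ((twh c σ).map_add _ _)).trans ?_
  rw [add_left_comm]
  exact (congrArg _ a.symm).trans (add_zero _)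

/-- The norm for complex conjugation. -/
def nm (c : ℤ) : Pt →+ Pt := twh c cj + AddMonoidHom.id Pt

theorem nn (hx : Cy c k x) (hk : k ≤ m) (hW : Wq q m W) (hh : h ∈ Hs m W) :
    x (cj * h * (cj * h)) = nm c (x h) := by
  have ci : cj⁻¹ = cj := inv_eq_of_mul_eq_one_right cj_mul_cj
  have : cj * h * (cj * h) = cj * h * cj⁻¹ * h := by rw [ci]; simp only [mul_assoc]
  rw [this, mul hx hk ((Hs_normal m (kw hW)).conj_mem h hh cj), conj hx hk hh]
  rfl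

theorem nm_tor {n : ℕ} {T : Pt} (hT : n • T = 0) : n • nm c T = 0 := by
  rw [← map_nsmul, hT, map_zero]

theorem cq_or (c : ℤ) (σ : G) : cq c σ = 1 ∨ cq c σ = -1 := by
  unfold cq
  split_ifs <;> simp

theorem nm_cmp (hF : FrStmt) {T T' : Pt} (hT : 2 ^ k • T = 0) (hT' : 2 ^ k • T' = 0) :
    (∃ a : ℤ, nm c T = a • nm c T') ∨ ∃ a : ℤ, nm c T' = a • nm c T := by
  have cc : ∀ T : Pt, cj • cj • T = T := fun T => by rw [← mul_smul, cj_mul_cj, one_smul]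
  have fx : ∀ T : Pt, cq c cj • cj • nm c T = (1 : ℤ) • nm c T := fun T => by
    show cq c cj • cj • (cq c cj • cj • T + T) = (1 : ℤ) • (cq c cj • cj • T + T)
    rw [smul_add, smul_comm cj, cc]
    generalize cj • T = U
    rcases cq_or c cj with p | p <;> rw [p] <;> module
  obtain ⟨e₁, e₂, e₃, hf, -, -, n23, -, c2, -⟩ := r1_thm.2.2.2.2.1
  have r := Cm.pt_root (x := e₂) (by rw [hf]; ring)
  refine (hF k cj _ (cq_or c cj) (fun T _ => cc T) ⟨pt e₂ 0, r.2.1, fun e => n23 ?_⟩).2 1 _ _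
    (nm_tor hT) (nm_tor hT') (fx T) (fx T')
  have := xc_smul cj (pt e₂ 0)
  rwa [e, r.2.2, c2] at this

theorem cy_sub (hx : Cy c k x) (hy : Cy c k y) (v : ℤ) : Cy c k (x - v • y) := by
  classical
  obtain ⟨J, a, b⟩ := hx.fin
  obtain ⟨J', a', b'⟩ := hy.fin
  refine ⟨fun σ => ?_, fun σ τ => ?_, J ∪ J', fun z hz => (Finset.mem_union.1 hz).elim (a z) (a' z),
    fun σ hσ => ?_⟩
  · rw [Pi.sub_apply, Pi.smul_apply, smul_sub, smul_comm, hx.tor, hy.tor, smul_zero, sub_zero]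
  · have := (twh c σ).map_sub (x τ) (v • y τ)
    rw [map_zsmul] at this
    simp only [Pi.sub_apply, Pi.smul_apply, hx.mul, hy.mul]
    refine Eq.trans ?_ (congrArg _ this.symm)
    show _ = _ + (tw c σ (x τ) - v • tw c σ (y τ))
    module
  · rw [Pi.sub_apply, Pi.smul_apply, b σ fun z hz => hσ z (Finset.mem_union_left _ hz),
      b' σ fun z hz => hσ z (Finset.mem_union_right _ hz), smul_zero, sub_zero]

theorem alg_z {S : Pt} (hS : AlgP S) (v : ℤ) : AlgP (v • S) := by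
  obtain ⟨a0, a1, a2, -⟩ := r1_thm.1
  induction v using Int.induction_on with
  | zero => rwa [zero_smul]
  | succ n ih => rw [add_smul, one_smul]; exact a1 _ _ ih hS
  | pred n ih => rw [sub_smul, one_smul, sub_eq_add_neg]; exact a1 _ _ ih (a2 _ hS)

theorem ke_sub (hx : Ke c x) (hy : Ke c y) (v : ℤ) : Ke c (x - v • y) := fun O hO => by
  obtain ⟨S, a, b⟩ := hx O hO
  obtain ⟨S', a', b'⟩ := hy O hO
  refine ⟨S + (-v) • S', r1_thm.1.2.1 _ _ a (alg_z a' _), fun σ hσ => ?_⟩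
  have := (twh c σ).map_add S ((-v) • S')
  rw [map_zsmul] at this
  rw [Pi.sub_apply, Pi.smul_apply, b σ hσ, b' σ hσ]
  refine Eq.trans ?_ (congrArg (· - _) this.symm)
  show _ = tw c σ S + (-v) • tw c σ S' - _
  module

theorem sig {d : ℤ} (h : QD q d) : ∃ σ : G, (∀ (n : ℕ) (T : Pt), 2 ^ n • T = 0 → σ • T = T) ∧
    cq d σ = 1 ∧ cq (-(q * d)) σ = -1 := by
  have hq := h.qf.pr
  have b := h.qf.big
  have hp := Nat.prime_iff_prime_int.1 hq
  obtain ⟨O, hO⟩ := v1_thm.1 q hq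
  have sf : Squarefree (-(q * d : ℤ)) := by
    rw [← neg_mul, squarefree_mul_iff]
    exact ⟨(hp.neg.irreducible.isRelPrime_iff_not_dvd).2 fun e => h.nd ((neg_dvd).1 e),
      hp.neg.squarefree, h.fam.sf⟩
  obtain ⟨σ, h1, h2⟩ := Link1.partB ⟨v1_thm, v2_thm, v3_thm v1_thm, v4_thm v1_thm⟩ hq hO
    (rt_sq _) sf (dvd_neg.2 (dvd_mul_right _ _))
  obtain ⟨-, -, r3, -, r5, -⟩ := r2_thm v1_thm v2_thm r1_thm q O hq (by omega) (by omega) hO
  refine ⟨σ, fun n T hT => sub_eq_zero.1 (r5 n _ ?_ (r3 σ T h1 ((Cheb.tors r1_thm n).2 T hT))),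
    if_pos (Loc0.fix_of_val (i := 0) hq (by omega) hO h1 (V2.alg_of_sq (rt_sq d))
      (V2.sq_cases σ (rt_sq d)) ?_), if_neg fun e => sf.ne_zero ?_⟩
  · rw [smul_sub, Cm.tor_smul σ hT, hT, sub_zero]
  · rw [rt_sq, Loc0.val_int hq hO h.nd, mul_zero, zpow_zero]
  · have := rt_sq (-(q * d : ℤ))
    rw [self_eq_neg.1 (e.symm.trans h2), zero_pow two_ne_zero] at this
    exact_mod_cast this.symm

/-- The values of three homomorphisms on a subgroup. -/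
def vals (K : Subgroup G) (f : G → Pt × Pt × Pt) (hf : ∀ a ∈ K, ∀ b, f (a * b) = f a + f b) :
    AddSubgroup (Pt × Pt × Pt) where
  carrier := f '' K
  add_mem' := by
    rintro _ _ ⟨a, ha, rfl⟩ ⟨b, hb, rfl⟩
    exact ⟨a * b, mul_mem ha hb, hf a ha b⟩
  zero_mem' := ⟨1, one_mem K, by simpa using hf 1 (one_mem K) 1⟩
  neg_mem' := by
    rintro _ ⟨a, ha, rfl⟩
    have h1 : f 1 = 0 := by simpa using hf 1 (one_mem K) 1
    refine ⟨a⁻¹, inv_mem ha, eq_neg_of_add_eq_zero_right ?_⟩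
    rw [← hf a ha, mul_inv_cancel, h1]

/-- The automorphisms that fix the square roots of the numbers in the field of the points of
order two. -/
def Fx : Subgroup G where
  carrier := {h | ∀ s : ℂ,
    (∀ σ : G, (∀ T : Pt, 2 • T = 0 → σ • T = T) → σ (s ^ 2) = s ^ 2) → h s = s}
  mul_mem' := fun {a b} ha hb s hs => by rw [RingAut.mul_apply, hb s hs, ha s hs]
  one_mem' := fun _ _ => rfl
  inv_mem' := fun {a} ha s hs => (RingEquiv.symm_apply_eq a).2 (ha s hs).symm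

theorem fx {σ : G} (hσ : ∀ T : Pt, 2 • T = 0 → σ • T = T) (hh : ∀ T : Pt, 2 • T = 0 → h • T = T) :
    h * (σ * h * σ⁻¹) ∈ Fx ∧ h * (σ * h * σ⁻¹)⁻¹ ∈ Fx := by
  have pm : ∀ s : ℂ, (∀ σ : G, (∀ T : Pt, 2 • T = 0 → σ • T = T) → σ (s ^ 2) = s ^ 2) →
      (σ * h * σ⁻¹) s = h s ∧ h (h s) = s := fun s hs => by
    have a := sq_eq_sq_iff_eq_or_eq_neg.1 ((map_pow h s 2).symm.trans (hs h hh))
    have b := sq_eq_sq_iff_eq_or_eq_neg.1 ((map_pow σ s 2).symm.trans (hs σ hσ))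
    have e : σ (σ s) = s := by rcases b with b | b <;> simp [b]
    have i : σ⁻¹ s = σ s := (RingEquiv.symm_apply_eq σ).2 e.symm
    rw [RingAut.mul_apply, RingAut.mul_apply, i]
    rcases a with a | a <;> rcases b with b | b <;> simp [a, b]
  refine ⟨fun s hs => by rw [RingAut.mul_apply, (pm s hs).1, (pm s hs).2], fun s hs => ?_⟩
  have : (σ * h * σ⁻¹)⁻¹ (h s) = s := (RingEquiv.symm_apply_eq _).2 (pm s hs).1.symm
  have b := sq_eq_sq_iff_eq_or_eq_neg.1 ((map_pow h s 2).symm.trans (hs h hh))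
  rw [RingAut.mul_apply]
  rcases b with b | b
  · rw [b] at this
    rw [this, b]
  · rw [b, map_neg, neg_eq_iff_eq_neg] at this
    rw [this, map_neg, b, neg_neg]

end Cha

open Cha in
theorem cha_thm (hS : SurjStmt) (hF : FrStmt) : ChaStmt := by
  intro q d k m W g₀ y z z' hq hk hm hW hg hy ky hz kz hz' kz' h0
  have m0 : m ≠ 0 := by omega
  rw [hm_iff] at hg
  obtain ⟨σ, s1, s2, s3⟩ := sig hq
  have n11 : ¬ (11 : ℤ) ∣ -(q * d) := fun e => by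
    rcases (Int.prime_iff_natAbs_prime.2 (by norm_num)).dvd_or_dvd (dvd_neg.1 e) with e | e
    · have : 11 = q :=
        (Nat.prime_dvd_prime_iff_eq (by norm_num) hq.qf.pr).1 (Int.natCast_dvd_natCast.1 e)
      have := hq.qf.big
      omega
    · exact hq.fam.n11 e
  let f : G → Pt × Pt × Pt := fun h => (nm d (y h), nm d (z h), nm (-(q * d)) (z' h))
  have hf : ∀ a ∈ Hs m W, ∀ b, f (a * b) = f a + f b := fun a ha b => by
    simp only [f, mul hy hm ha, mul hz hm ha, mul hz' hm ha, map_add, Prod.mk_add_mk]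
  let R := vals (Hs m W) f hf
  let R0 := vals (Hs m W ⊓ Fx) f fun a ha => hf a ha.1
  have hp : ∀ t ∈ R, (2 • t.1, 2 • t.2.1, 0) ∈ R0 ∧ (0, 0, 2 • t.2.2) ∈ R0 := by
    rintro _ ⟨h, hh, rfl⟩
    have hc := (Hs_normal m (kw hW)).conj_mem h hh σ
    have e : f (σ * h * σ⁻¹) = ((f h).1, (f h).2.1, -(f h).2.2) := by
      simp only [f, conj hy hm hh, conj hz hm hh, conj hz' hm hh, tw, s2, s3, s1 k _ (hy.tor _),
        s1 k _ (hz.tor _), s1 k _ (hz'.tor _), one_smul, neg_smul, map_neg]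
    have e' : f (σ * h * σ⁻¹)⁻¹ = -f (σ * h * σ⁻¹) := eq_neg_of_add_eq_zero_right (by
      rw [← hf _ hc, mul_inv_cancel]
      simp only [f, one hy, one hz, one hz', map_zero, Prod.mk_zero_zero])
    have x := fx (h := h) (fun T hT => s1 1 T (by rwa [pow_one]))
      fun T hT => hh.2.1 T (Cm.tor_one m0 hT)
    refine ⟨⟨_, ⟨(Hs m W).mul_mem hh hc, x.1⟩, ?_⟩, _,
      ⟨(Hs m W).mul_mem hh ((Hs m W).inv_mem hc), x.2⟩, ?_⟩
    · rw [hf _ hh, e]
      ext <;> simp [two_smul]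
    · rw [hf _ hh, e', e]
      ext <;> simp [two_smul]
  have key : ∃ t ∈ R0, (f g₀ + t).1 = 0 ∧ ∃ v : ℤ, ∃ t₂ ∈ R, t₂.1 = 0 ∧
      ∀ u : ℤ, u • t₂.2.1 = 0 → Cb d (u • (z - v • y)) := by
    rcases h0 with rfl | ⟨h0, h1⟩
    · obtain ⟨h₂, a, b⟩ := hS.2 q m k W d z m0 hm hW hq.fam.n11 hz kz
      rw [hm_iff] at a
      refine ⟨0, zero_mem _, by simp [f], 0, f h₂, ⟨h₂, a, rfl⟩, by simp [f], fun u hu => ?_⟩
      rw [smul_zero, sub_zero]
      exact b u (by rwa [nn hz hm hW a])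
    · obtain ⟨h₁, a, b⟩ := hS.2 q m k W d y m0 hm hW hq.fam.n11 hy ky
      rw [hm_iff] at a
      rw [nn hy hm hW a] at b
      have ne : 2 ^ (k - 1) • nm d (y h₁) ≠ 0 := fun e => h0 (by
        have := b (2 ^ (k - 1) : ℕ) (by rwa [natCast_zsmul])
        rwa [natCast_zsmul] at this)
      have gn : ∀ T : Pt, 2 ^ k • T = 0 → ∃ c : ℤ, nm d T = c • nm d (y h₁) := fun T hT =>
        gen hk (nm_tor hT) ne (nm_cmp hF hT (hy.tor h₁))
      obtain ⟨c₀, e₀⟩ := gn _ (hy.tor g₀)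
      obtain ⟨u₀, f₀⟩ := half (c := c₀) (nm_tor (hy.tor h₁)) ne (e₀ ▸ nm_tor h1)
      obtain ⟨v, ev⟩ := gn _ (hz.tor h₁)
      obtain ⟨h₂, a₂, b₂⟩ := hS.2 q m k W d _ m0 hm hW hq.fam.n11 (cy_sub hz hy v) (ke_sub kz ky v)
      rw [hm_iff] at a₂
      rw [nn (cy_sub hz hy v) hm hW a₂] at b₂
      obtain ⟨u₂, e₂⟩ := gn _ (hy.tor h₂)
      have r1 : f h₁ ∈ R := ⟨h₁, a, rfl⟩
      refine ⟨_, zsmul_mem (hp _ r1).1 (-u₀), ?_, v, f h₂ - u₂ • f h₁,
        sub_mem ⟨h₂, a₂, rfl⟩ (zsmul_mem r1 _), sub_eq_zero.2 e₂, fun u hu => b₂ u ?_⟩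
      · show nm d (y g₀) + (-u₀) • 2 • nm d (y h₁) = 0
        rw [e₀, f₀, neg_smul, add_neg_cancel]
      · have : nm d ((z - v • y) h₂) = nm d (z h₂) - u₂ • nm d (z h₁) := by
          rw [Pi.sub_apply, Pi.smul_apply, map_sub, map_zsmul, e₂, ev, smul_comm]
        rwa [this]
  obtain ⟨t, ht, e, v, t₂, ht₂, e₂, b₂⟩ := key
  obtain ⟨h₃, a₃, b₃⟩ := hS.2 q m k W _ z' m0 hm hW n11 hz' kz'
  rw [hm_iff] at a₃
  rw [nn hz' hm hW a₃] at b₃
  have tor : ∀ t ∈ R, 2 ^ k • t.2.1 = 0 ∧ 2 ^ k • t.2.2 = 0 := by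
    rintro _ ⟨h, -, rfl⟩
    exact ⟨nm_tor (hz.tor h), nm_tor (hz'.tor h)⟩
  have r0 : f g₀ + t ∈ R := by
    obtain ⟨h, hh, rfl⟩ := ht
    exact add_mem ⟨g₀, hg, rfl⟩ ⟨h, hh.1, rfl⟩
  have r3 : f h₃ ∈ R := ⟨h₃, a₃, rfl⟩
  obtain ⟨i, hi⟩ := pick (tor _ r0).1 (tor _ ht₂).1
  obtain ⟨j, hj⟩ := pick (tor _ r0).2 (tor _ r3).2
  obtain ⟨h, hh, eh⟩ := add_mem ht
    (add_mem (zsmul_mem (hp _ ht₂).1 i) (zsmul_mem (hp _ r3).2 j))
  have hH := mul_mem hg hh.1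
  have ef := hf g₀ hg h
  rw [eh, ← add_assoc] at ef
  refine ⟨g₀ * h, hm_iff.2 hH, fun s hs => by rw [RingAut.mul_apply, hh.2 s hs], ?_,
    fun u hu => ⟨2 * u * v, ?_⟩, fun u hu => b₃ _ (hj u ?_)⟩
  · rw [nn hy hm hW hH]
    refine (congrArg Prod.fst ef).trans ?_
    simp only [Prod.fst_add, Prod.smul_fst, e₂, smul_zero, add_zero] at e ⊢
    exact e
  · rw [nn hz hm hW hH] at hu
    have := b₂ _ (hi u (by
      refine Eq.trans (congrArg _ ?_) hu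
      refine Eq.trans ?_ (congrArg (·.2.1) ef).symm
      simp))
    rwa [smul_sub, smul_smul] at this
  · rw [nn hz' hm hW hH] at hu
    refine Eq.trans (congrArg _ ?_) hu
    refine Eq.trans ?_ (congrArg (·.2.2) ef).symm
    simp

end Pool.Agent.Lib.MP_d6ddbd_nt.KI
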