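import Pool.Agent.Lib.MP_d6ddbd_nt.KI.Pt
import Pool.Agent.Lib.MP_d6ddbd_nt.K11.AllX

/-! Chains of Kolyvagin primes that end at a core vertex. -/

set_option autoImplicit false
set_option maxSynthPendingDepth 3

open NumberField IsDedekindDomain Pointwise
open Pool.Agent.Lib.MP_02f36d_nt (xc yc)
open Pool.Agent.Stark (Pr og hq LSq pw SqCl cl)
open Pool.Agent.Lib.MP_d6ddbd_nt.K11

noncomputable section

namespace Pool.Agent.Lib.MP_d6ddbd_nt.KI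

namespace Chain

variable {c : ℤ} {k : ℕ} {n : Finset ℕ} {x : G → Pt}

theorem cb_n (h : Cb c x) (a : ℕ) : Cb c (a • x) := by
  obtain ⟨T, i, h1, h2⟩ := h
  exact ⟨a • T, i, by rw [smul_comm, h1, smul_zero], fun σ => by
    rw [Pi.smul_apply, h2, Pts.tw_n, smul_sub]⟩

theorem alg_n {P : Pt} (h : AlgP P) (a : ℕ) : AlgP (a • P) := by
  induction a with
  | zero => rw [zero_smul]; exact r1_thm.1.1
  | succ a ih => rw [succ_nsmul]; exact r1_thm.1.2.1 _ _ ih h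

theorem sel_n (h : Sel c k n x) (a : ℕ) : Sel c k n (a • x) := by
  obtain ⟨J, hJ, hf⟩ := h.cy.fin
  refine ⟨⟨fun σ => ?_, fun σ τ => ?_, J, hJ, fun σ hσ => ?_⟩, fun v O h1 h2 h3 => ?_,
    fun p h1 O φ h2 h3 => ?_⟩
  · rw [Pi.smul_apply, smul_comm, h.cy.tor, smul_zero]
  · simp only [Pi.smul_apply]
    rw [h.cy.mul, Pts.tw_n, smul_add]
  · rw [Pi.smul_apply, hf σ hσ, smul_zero]
  · obtain ⟨S, s1, s2⟩ := h.kl v O h1 h2 h3
    exact ⟨a • S, alg_n s1 a, fun σ hσ => by rw [Pi.smul_apply, s2 σ hσ, Pts.tw_n, smul_sub]⟩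
  · rw [Pi.smul_apply, h.ff p h1 O φ h2 h3, smul_zero]

/-- A coboundary of level `k` vanishes at the elements that fix the points of level `k`. -/
theorem cb_ev (h : Cb c x) (hk : ∀ σ, 2 ^ k • x σ = 0) {g : G} (h1 : cq c g = 1)
    (h2 : ∀ T : Pt, 2 ^ k • T = 0 → g • T = T) : x g = 0 := by
  obtain ⟨T, i, t1, t2⟩ := h
  have h3 : 2 ^ k • T = 0 := Pts.no2 (d := c) i _ (fun σ => by
    have := hk σ
    rw [t2, smul_sub, sub_eq_zero] at this
    rw [Pts.tw_n, this]) (by rw [smul_comm, t1, smul_zero])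
  rw [t2, tw, h1, one_zsmul, h2 T h3, sub_self]

theorem cq_sq (c : ℤ) (φ : G) : cq c (φ * φ) = 1 := if_pos (by
  show φ (φ (rt c)) = rt c
  rcases Fin.sq_or (rt_sq c) φ with h | h
  · rw [h, h]
  · rw [h, map_neg, h, neg_neg])

theorem cq_in {p : ℕ} {O : ValuationSubring ℂ} {σ : G} (hp : p.Prime) (h2 : p ≠ 2)
    (hc : ¬ (p : ℤ) ∣ c) (hO : Ov O p) (hσ : Frob O 1 σ) : cq c σ = 1 := by
  have h1 : O.valuation (rt c) = 1 := Link1.sq1 (by rw [← map_pow, rt_sq, Link1.vint hp hO hc])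
  have h3 : O.valuation ((2 : ℤ) : ℂ) = 1 := Link1.vint hp hO fun h =>
    h2 ((Nat.prime_dvd_prime_iff_eq hp Nat.prime_two).1 (by exact_mod_cast h))
  refine if_pos (vAll.2.1.2.2.2.2.2.1 O σ _ (-rt c) hσ (Pts.alg_rt c) (Link1.le1.2 h1.le)
    (Fin.sq_or (rt_sq c) σ) fun h => ?_)
  rw [Link1.nu, show rt c - -rt c = (2 : ℤ) * rt c by push_cast; ring, map_mul, h1, h3,
    one_mul] at h
  exact lt_irrefl _ h

theorem tor_in {p : ℕ} {O : ValuationSubring ℂ} {σ : G} (hp : p.Prime) (h2 : p ≠ 2) (h11 : p ≠ 11)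
    (hO : Ov O p) (hσ : Frob O 1 σ) (T : Pt) (hT : 2 ^ k • T = 0) : σ • T = T := by
  obtain ⟨-, -, a, -, b, -⟩ := rAll.2 p O hp h2 h11 hO
  exact sub_eq_zero.1 (b k _ (by rw [smul_sub, ← Fin.sm_n, hT, smul_zero, sub_zero])
    (a σ T hσ ((Cheb.tors r1_thm k).2 T hT)))

theorem ex_in {p : ℕ} {O : ValuationSubring ℂ} (hp : p.Prime) (hO : Ov O p) :
    ∃ σ : G, Frob O 1 σ ∧ σ (rt (GF.pst p)) ≠ rt (GF.pst p) := by
  have h0 : GF.pst p = p ∨ GF.pst p = -p := by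
    unfold GF.pst
    rcases neg_one_pow_eq_or ℤ (p / 2) with h | h <;> simp [h]
  obtain ⟨σ, h1, h2⟩ := Aux.exists_move vAll.2.2.1 hp hO (t := rt (GF.pst p)) (by
    rw [rt_sq]
    rcases h0 with h | h <;> simp [h])
  refine ⟨σ, h1, fun h => Pts.rt_ne (d := GF.pst p) ?_ ?_⟩
  · rcases h0 with h | h <;> simp [h, hp.ne_zero]
  · linear_combination (h2 - h) / 2

theorem odd_kill {P : Pt} {u : ℤ} (hu : Odd u) (h1 : 2 ^ k • P = 0) (h2 : u • P = 0) : P = 0 := by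
  obtain ⟨a, b, h⟩ : IsCoprime u (2 ^ k) := (Int.isCoprime_two_right.2 hu).pow_right
  rw [← one_zsmul P, ← h, add_smul, mul_smul, mul_smul, h2, smul_zero, zero_add,
    show (2 : ℤ) ^ k = ((2 ^ k : ℕ) : ℤ) by push_cast; rfl, natCast_zsmul, h1, smul_zero]

variable {q : ℕ} {d : ℤ} {X : Finset ℕ → G → Pt} {y : G → Pt}

theorem rl_mono {a : ℕ} (h : Rl q d X y n a) (b : ℕ) : Rl q d X y n (a + b) := by
  obtain ⟨u, h⟩ := h
  refine ⟨(2 ^ b : ℕ) * u, ?_⟩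
  have := cb_n h (2 ^ b)
  rwa [smul_sub, ← mul_smul, ← pow_add, add_comm b, ← natCast_zsmul (u • yy q d n y),
    ← mul_smul] at this

theorem cases_tw {P : ℤ → (G → Pt) → Prop} (h1 : P d y) (h2 : P (-(q * d)) 0) (n : Finset ℕ) :
    P (twn q d n) (yy q d n y) := by
  unfold yy
  split_ifs with h
  · rwa [h]
  · have : twn q d n = -(q * d) := by
      unfold twn at h ⊢
      split_ifs at h ⊢
      · exact absurd rfl h
      · rfl
    rwa [this]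

/-- The facts that one step provides for one twist. -/
def St (k : ℕ) (n : Finset ℕ) (j p : ℕ) (σ₀ φ : G) (c : ℤ) (y : G → Pt) : Prop :=
  ¬ (p : ℤ) ∣ c ∧ (∀ σ, 2 ^ k • y σ = 0) ∧ y (φ * φ) = 0 ∧ y σ₀ = 0 ∧
    (∀ x, Sel c k n x → x (φ * φ) = 0 → ∃ v : ℤ, Cb c (2 ^ (j + 1) • x - v • y)) ∧
    ∀ x, Sel c k (insert p n) x → x σ₀ = 0 → Sel c k n x ∧ x (φ * φ) = 0

theorem ev {a : ℕ} {g : G} (h : Rl q d X y n a) (hx : ∀ σ, 2 ^ k • X n σ = 0)
    (hy : ∀ σ, 2 ^ k • yy q d n y σ = 0) (h0 : yy q d n y g = 0) (h1 : cq (twn q d n) g = 1)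
    (h2 : ∀ T : Pt, 2 ^ k • T = 0 → g • T = T) : 2 ^ a • X n g = 0 := by
  obtain ⟨u, h⟩ := h
  have := cb_ev (k := k) h (fun σ => by
    simp only [Pi.sub_apply, Pi.smul_apply]
    rw [smul_sub, smul_comm, hx, smul_comm, hy, smul_zero, smul_zero, sub_zero]) h1 h2
  simpa only [Pi.sub_apply, Pi.smul_apply, h0, smul_zero, sub_zero] using this

theorem pw2 (a j : ℕ) (x : G → Pt) : 2 ^ (j + 1) • 2 ^ a • 2 • x = 2 ^ (a + (j + 2)) • x := by
  rw [← mul_smul, ← mul_smul]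
  congr 1
  ring

variable {L : Type} [Field L] [NumberField L] {θ : L} {s m j p : ℕ} {W : Finset ℂ}
  {O : ValuationSubring ℂ} {σ₀ φ : G}

theorem step (hK : KY θ q d k s m W X) (hn : KnI m q d n) (hp : KolI m q d p) (hpn : p ∉ n)
    (gn : ∀ l ∈ insert p n, Gp W l) (hO : Ov O p) (hσ : Frob O 1 σ₀) (hφ : Frob O p φ)
    (mv : σ₀ (rt (GF.pst p)) ≠ rt (GF.pst p)) (tv : Tv k {p})
    (h : ∀ n', St k n j p σ₀ φ (twn q d n') (yy q d n' y)) (a : ℕ) :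
    (Rl q d X y n a → Rl q d X y (insert p n) (a + (j + 2))) ∧
      (Rl q d X y (insert p n) a → Rl q d X y n (a + (j + 2))) := by
  have hn' : KnI m q d (insert p n) := fun l hl => by
    rcases Finset.mem_insert.1 hl with rfl | hl
    exacts [hp, hn l hl]
  obtain ⟨⟨u, u1, u2⟩, -⟩ := hK.atp n p O σ₀ φ hn hp hpn hO hσ hφ mv
  obtain ⟨-, a2, a3, -, a5, -⟩ := h n
  obtain ⟨b1, b2, -, b4, b5, b6⟩ := h (insert p n)
  refine ⟨fun r => ?_, fun r => ?_⟩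
  · have e1 := ev r (hK.cy n hn).tor a2 a3 (cq_sq _ φ) fun T hT => by
      rw [mul_smul]
      exact tv p (Finset.mem_singleton_self p) O φ hO hφ T hT
    have e2 : 2 ^ a • X (insert p n) σ₀ = 0 := by
      rw [← smul_eq_zero' φ, Fin.sm_n, u2, smul_comm, e1, smul_zero]
    obtain ⟨c1, c2⟩ := b6 _ (sel_n (hK.sel _ hn' gn) (2 ^ a)) (by
      rw [Pi.smul_apply, Pi.smul_apply, smul_comm, e2, smul_zero])
    obtain ⟨v, hv⟩ := b5 _ c1 c2
    exact ⟨v, by rwa [pw2] at hv⟩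
  · have e1 := ev r (hK.cy _ hn').tor b2 b4 (cq_in hp.pr hp.n2 b1 hO hσ)
      (tor_in hp.pr hp.n2 hp.n11 hO hσ)
    have e2 : 2 ^ a • X n (φ * φ) = 0 := odd_kill (k := k) u1
      (by rw [smul_comm, (hK.cy n hn).tor, smul_zero])
      (by rw [smul_comm, ← u2, ← Fin.sm_n, e1, smul_zero])
    obtain ⟨v, hv⟩ := a5 _ (sel_n (hK.sel n hn fun l hl => gn l (Finset.mem_insert_of_mem hl))
      (2 ^ a)) (by rw [Pi.smul_apply, Pi.smul_apply, smul_comm, e2, smul_zero])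
    exact ⟨v, by rwa [pw2] at hv⟩

theorem ind (hT : TrStmt) (hY : YchStmt) (hC : ChStmt) (hS : StepStmt) (hθ : Cub θ) (hq : QD q d)
    (t : ℕ) : ∀ j : ℕ, ∃ A : ℕ, ∀ (k s m : ℕ) (W : Finset ℂ) X y z z' n, k ≠ 0 → k ≤ m →
      Wq q m W → KY θ q d k s m W X → Y0 q k y → KnI m q d n → (∀ p ∈ n, Gp W p) → Sel d k n y →
      BC d k n j y z → BC (-(q * d)) k n j 0 z' → yn θ q d n < t →
      ∃ n', KnI m q d n' ∧ (∀ p ∈ n', Gp W p) ∧ Core θ q d n' ∧ Sel d k n' y ∧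
        ∀ a, (Rl q d X y n a → Rl q d X y n' (a + A)) ∧ (Rl q d X y n' a → Rl q d X y n (a + A)) := by
  induction t with
  | zero => exact fun j => ⟨0, by intros; omega⟩
  | succ t ih =>
    intro j
    obtain ⟨A, hA⟩ := ih (j + 1)
    refine ⟨j + 2 + A, fun k s m W X y z z' n k0 km hW hK y0 hn gn sy bz bz' ht => ?_⟩
    by_cases hc : Core θ q d n
    · exact ⟨n, hn, gn, hc, sy, fun a => ⟨fun r => rl_mono r _, fun r => rl_mono r _⟩⟩
    obtain ⟨α, h1, h2⟩ : ∃ α, Yn θ q d n α ∧ ¬ IsSquare α := by simpa [Core] using hc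
    have pn : ∀ n, KnI m q d n → Pn q d n := fun n hn p hp =>
      ⟨(hn p hp).pr, (hn p hp).n2, (hn p hp).n11, (hn p hp).nq, (hn p hp).nd, (hn p hp).ty⟩
    obtain ⟨p, O, φ, big, hp, gp, hO, hφ, f1, f2, f3, f4⟩ := hC L θ hθ q d k m W n α y z z'
      (n.sup id) hq k0 km hW (pn n hn) h1 h2 sy y0 bz.1 bz'.1
    have hpn : p ∉ n := fun h => absurd (Finset.le_sup (f := id) h) (not_le.2 big)
    obtain ⟨σ₀, hσ, mv⟩ := ex_in hp.pr hO
    have tv : Tv k {p} := hT.2.2 k m q d _ km fun l hl => by rwa [Finset.mem_singleton.1 hl]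
    have nd : ¬ (p : ℤ) ∣ -(q * d) := fun h => by
      rcases (Nat.prime_iff_prime_int.1 hp.pr).dvd_or_dvd (dvd_neg.1 h) with h | h
      · exact hp.nq ((Nat.prime_dvd_prime_iff_eq hp.pr hq.qf.pr).1 (by exact_mod_cast h))
      · exact hp.nd h
    have s0 : Sel (-(q * d)) k n 0 := by simpa using sel_n bz'.1 0
    obtain ⟨a1, a2, a3, a4, w, a5⟩ := hS d k n j p O σ₀ φ y z hp.pr hp.n2 hp.n11 hp.nd hp.ty hpn tv
      hO hσ mv hφ sy f2 bz f3
    obtain ⟨-, -, b3, b4, w', b5⟩ := hS (-(q * d)) k n j p O σ₀ φ 0 z' hp.pr hp.n2 hp.n11 nd hp.ty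
      hpn tv hO hσ mv hφ s0 rfl bz' fun u hu => ⟨0, by simpa using f4 u hu⟩
    have hn' : KnI m q d (insert p n) := fun l hl => by
      rcases Finset.mem_insert.1 hl with rfl | hl
      exacts [hp, hn l hl]
    have gn' : ∀ l ∈ insert p n, Gp W l := fun l hl => by
      rcases Finset.mem_insert.1 hl with rfl | hl
      exacts [gp, gn l hl]
    have st := step hK hn hp hpn gn' hO hσ hφ mv tv (cases_tw (P := St k n j p σ₀ φ)
      ⟨hp.nd, sy.cy.tor, f2, a2, a3, a4⟩ ⟨nd, s0.cy.tor, rfl, rfl, b3, b4⟩)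
    obtain ⟨n', c1, c2, c3, c4, c5⟩ := hA k s m W X y w w' _ k0 km hW hK y0 hn' gn' a1 a5 b5
      ((hY L θ hθ q d n p α hq (pn _ hn') hpn h1 f1).trans_le (Nat.le_of_lt_succ ht))
    refine ⟨n', c1, c2, c3, c4, fun a => ⟨fun r => ?_, fun r => ?_⟩⟩
    · rw [← add_assoc]
      exact (c5 _).1 ((st a).1 r)
    · rw [add_comm _ A, ← add_assoc]
      exact (st _).2 ((c5 a).2 r)

end Chain

theorem chain_thm (hT : TrStmt) (hY : YchStmt) (hC : ChStmt) (hS : StepStmt) : ChainStmt := by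
  intro L _ _ θ hθ q d j hq
  obtain ⟨A, hA⟩ := Chain.ind hT hY hC hS hθ hq (yn θ q d ∅ + 1) j
  exact ⟨A, fun k s m W x y z z' k0 km hW hK sy y0 bz bz' => hA k s m W x y z z' ∅ k0 km hW hK y0
    (fun _ h => absurd h (Finset.notMem_empty _)) (fun _ h => absurd h (Finset.notMem_empty _))
    sy bz bz' (Nat.lt_succ_self _)⟩

end Pool.Agent.Lib.MP_d6ddbd_nt.KI
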