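import Pool.Agent.Lib.MP_d6ddbd_nt.KI.Stmt
import Pool.Agent.Lib.MP_d6ddbd_nt.KI.Cm0

/-!
The group `H`: isotropy, Lemma K and the values of cocycles.
-/

set_option autoImplicit false
set_option maxSynthPendingDepth 3

open NumberField
open Pool.Agent.Lib.MP_02f36d_nt (xc yc)
open Pool.Agent.Lib.MP_9177b7_ag.CM (mem_sp)
open Pool.Agent.Lib.MP_d6ddbd_nt.K11
open Pool.Agent.Lib.MP_d6ddbd_nt.K11.R1 (wl_add wl_smul map_fc wl_iff wl0)

noncomputable section

namespace Pool.Agent.Lib.MP_d6ddbd_nt.KI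

namespace Cm

variable {c : ℤ} {σ τ : G} {k m : ℕ} {x y : G → Pt}

theorem cq_or (c : ℤ) (σ : G) : cq c σ = 1 ∨ cq c σ = -1 := by
  unfold cq
  split_ifs <;> simp

theorem cq_rt (c : ℤ) (σ : G) : σ (rt c) = cq c σ * rt c := by
  unfold cq
  split_ifs with h
  · simpa using h
  · simpa using (Cheb.sq_cases (rt_sq c) σ).resolve_left h

theorem cq_mul (c : ℤ) (σ τ : G) : cq c (σ * τ) = cq c σ * cq c τ := by
  by_cases h : rt c = 0
  · simp [cq, h]
  · have a : ((cq c (σ * τ) : ℤ) : ℂ) * rt c = (cq c σ * cq c τ : ℤ) * rt c := by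
      rw [← cq_rt, RingAut.mul_apply, cq_rt c τ, map_mul, map_intCast, cq_rt c σ]
      push_cast
      ring
    exact_mod_cast mul_right_cancel₀ h a

theorem cq_comm (c : ℤ) (h : σ ∈ commutator G) : cq c σ = 1 :=
  if_pos ((Cheb.ab_sq (rt_sq c)).fix h 1)

theorem gz (σ : G) (u : ℤ) (P : Pt) : σ • u • P = u • σ • P :=
  map_zsmul (DistribSMul.toAddMonoidHom Pt σ) u P

/-- The twisted action as a homomorphism. -/
def twh (c : ℤ) (σ : G) : Pt →+ Pt :=
  AddMonoidHom.mk' (tw c σ) fun P Q => by simp only [tw, smul_add]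

theorem tw_add (P Q : Pt) : tw c σ (P + Q) = tw c σ P + tw c σ Q := map_add (twh c σ) P Q

theorem tw_sub (P Q : Pt) : tw c σ (P - Q) = tw c σ P - tw c σ Q := map_sub (twh c σ) P Q

theorem tw_zero : tw c σ 0 = 0 := map_zero (twh c σ)

theorem tw_ns (n : ℕ) (P : Pt) : tw c σ (n • P) = n • tw c σ P := map_nsmul (twh c σ) n P

theorem tw_zs (n : ℤ) (P : Pt) : tw c σ (n • P) = n • tw c σ P := map_zsmul (twh c σ) n P

theorem tw_mul (P : Pt) : tw c (σ * τ) P = tw c σ (tw c τ P) := by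
  rw [tw, tw, tw, cq_mul, gz, mul_smul, mul_smul]

theorem tw_one (P : Pt) : tw c 1 P = P := by
  rw [tw, cq_comm c (one_mem _), one_smul, one_smul]

theorem tw_two {T : Pt} (h : 2 • T = 0) : tw c σ T = σ • T := by
  rcases cq_or c σ with a | a <;> rw [tw, a]
  · rw [one_smul]
  · rw [neg_one_smul, neg_eq_iff_add_eq_zero, ← two_nsmul, tor_smul σ h]

theorem tw_H {W : Finset ℂ} (h : σ ∈ Hs m W) {T : Pt} (hT : 2 ^ m • T = 0) : tw c σ T = T := by
  rw [tw, cq_comm c h.1, one_smul, h.2.1 T hT]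

theorem tor_le (h : k ≤ m) {T : Pt} (hT : 2 ^ k • T = 0) : 2 ^ m • T = 0 := by
  obtain ⟨j, rfl⟩ := Nat.exists_eq_add_of_le h
  rw [add_comm, pow_add, mul_smul, hT, smul_zero]

/-- There are no invariant points of two-power order. -/
theorem no_inv {T : Pt} (hT : 2 ^ k • T = 0) (h : ∀ σ, tw c σ T = T) : T = 0 := by
  induction k generalizing T with
  | zero => simpa using hT
  | succ k ih =>
    have a : 2 • T = 0 := ih (by rwa [pow_succ, mul_smul] at hT) fun σ => by rw [tw_ns, h]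
    by_contra T0
    obtain ⟨ω, -, w⟩ := cyc
    have b := h ω
    rw [tw_two a] at b
    exact (w _ (((R1.two_iff T).1 a).resolve_left T0).2).1 (by rw [← xc_smul, b])

theorem cy_one (h : Cy c k x) : x 1 = 0 := by
  have := h.mul 1 1
  rw [mul_one, tw_one] at this
  exact left_eq_add.1 this

theorem cy_coc (h : Cy c 1 x) : Coc x :=
  have a : ∀ σ, 2 • x σ = 0 := fun σ => by simpa using h.tor σ
  ⟨a, fun σ τ => by rw [h.mul, tw_two (a τ)], h.fin⟩

theorem cob_cb (h : Cob x) : Cb c x := by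
  obtain ⟨T, a, b⟩ := h
  exact ⟨T, 1, by simpa using a, fun σ => by rw [b, tw_two a]⟩

theorem cb_zs (h : Cb c x) (u : ℤ) : Cb c (u • x) := by
  obtain ⟨T, j, a, b⟩ := h
  exact ⟨u • T, j, by rw [smul_comm, a, smul_zero], fun σ => by
    rw [Pi.smul_apply, b, tw_zs, smul_sub]⟩

theorem cb_zero : Cb c 0 := ⟨0, 0, smul_zero _, fun σ => by simp [tw_zero]⟩

theorem cb_add (h : Cb c x) (h' : Cb c y) : Cb c (x + y) := by
  obtain ⟨T, j, a, b⟩ := h
  obtain ⟨T', j', a', b'⟩ := h'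
  refine ⟨T + T', j + j', by
    rw [smul_add, tor_le (Nat.le_add_right j j') a, tor_le (Nat.le_add_left j' j) a', add_zero],
    fun σ => ?_⟩
  rw [Pi.add_apply, b, b', tw_add]
  abel

theorem cy_zs (h : Cy c k x) (u : ℤ) : Cy c k (u • x) :=
  ⟨fun σ => by rw [Pi.smul_apply, smul_comm, h.tor, smul_zero], fun σ τ => by
    simp only [Pi.smul_apply, h.mul, tw_zs, smul_add],
    h.fin.imp fun J a => ⟨a.1, fun σ b => by rw [Pi.smul_apply, a.2 σ b, smul_zero]⟩⟩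

theorem cy_add (h : Cy c k x) (h' : Cy c k y) : Cy c k (x + y) := by
  classical
  obtain ⟨J, a, b⟩ := h.fin
  obtain ⟨J', a', b'⟩ := h'.fin
  refine ⟨fun σ => by rw [Pi.add_apply, smul_add, h.tor, h'.tor, add_zero], fun σ τ => ?_,
    J ∪ J', fun x hx => (Finset.mem_union.1 hx).elim (a x) (a' x), fun σ hσ => ?_⟩
  · simp only [Pi.add_apply, h.mul, h'.mul, tw_add]
    abel
  · rw [Pi.add_apply, b σ fun x hx => hσ x (Finset.mem_union_left _ hx),
      b' σ fun x hx => hσ x (Finset.mem_union_right _ hx), add_zero]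

theorem ke_zs (h : Ke c x) (u : ℤ) : Ke c (u • x) := fun O hO => by
  obtain ⟨S, a, b⟩ := h O hO
  let H : AddSubgroup Pt := ⟨⟨⟨{P | AlgP P}, fun {x y} => R1.alg_add x y⟩, r1_thm.1.1⟩,
    fun {x} => r1_thm.1.2.2.1 x⟩
  exact ⟨u • S, H.zsmul_mem a u, fun σ hσ => by rw [Pi.smul_apply, b σ hσ, tw_zs, smul_sub]⟩

theorem ke_add (h : Ke c x) (h' : Ke c y) : Ke c (x + y) := fun O hO => by
  obtain ⟨S, a, b⟩ := h O hO
  obtain ⟨S', a', b'⟩ := h' O hO
  refine ⟨S + S', R1.alg_add _ _ a a', fun σ hσ => ?_⟩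
  rw [Pi.add_apply, b σ hσ, b' σ hσ, tw_add]
  abel

theorem cy_cb {T : Pt} (hT : 2 ^ k • T = 0) : Cy c k (fun σ => tw c σ T - T) ∧
    Ke c fun σ => tw c σ T - T := by
  classical
  have a := (Cheb.tors r1_thm k).2 T hT
  refine ⟨⟨fun σ => by rw [smul_sub, ← tw_ns, hT, tw_zero, sub_self], fun σ τ => ?_,
    {rt c, xc T, yc T}, fun z hz => ?_, fun σ hσ => ?_⟩, fun O _ => ⟨T, a, fun _ _ => rfl⟩⟩
  · rw [tw_mul, tw_sub]
    abel
  · simp only [Finset.mem_insert, Finset.mem_singleton] at hz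
    rcases hz with rfl | rfl | rfl
    exacts [Cheb.alg_sq (rt_sq c), a.1, a.2]
  · have b : σ • T = T := act_ext (smul_eq_zero' _ _) (by rw [xc_smul, hσ _ (by simp)])
      (by rw [yc_smul, hσ _ (by simp)])
    rw [tw, cq, if_pos (hσ _ (by simp)), one_smul, b, sub_self]

/-- Inertia fixes the square root of a unit. -/
theorem cq_iner {v : ℕ} (hv : v.Prime) (h2 : v ≠ 2) {O : ValuationSubring ℂ} (hO : Ov O v)
    (hc : ¬ (v : ℤ) ∣ c) (hσ : Frob O 1 σ) : cq c σ = 1 := by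
  refine if_pos (v2_thm.2.2.2.2.2.1 O σ _ (-rt c) hσ (Cheb.alg_sq (rt_sq c)) ?_
    (Cheb.sq_cases (rt_sq c) σ) fun a => ?_)
  · have a := (O.valuation_le_one_iff _).2 (intCast_mem O c)
    rw [← rt_sq, map_pow] at a
    exact (O.valuation_le_one_iff _).1 ((pow_le_one_iff_of_nonneg zero_le two_ne_zero).1 a)
  · refine V2.int_not hv hO (c := 2 * (2 * c)) (fun b => ?_) ?_
    · have p := Nat.prime_iff_prime_int.1 hv
      have n : ¬ (v : ℤ) ∣ 2 := fun e => h2 ((Nat.prime_dvd_prime_iff_eq hv Nat.prime_two).1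
        (by exact_mod_cast e))
      exact hc ((p.dvd_or_dvd ((p.dvd_or_dvd b).resolve_left n)).resolve_left n)
    · have b := V2.pow_nu two_ne_zero a
      rwa [show (rt c - -rt c) ^ 2 = ((2 * (2 * c) : ℤ) : ℂ) by
        push_cast; linear_combination 4 * rt_sq c] at b

theorem unr_of_ke (hc : ¬ (11 : ℤ) ∣ c) (h2 : ∀ σ, 2 • x σ = 0) (h : Ke c x)
    (O : ValuationSubring ℂ) (hO : Ov O 11) : Unr O x := by
  obtain ⟨S, a, b⟩ := h O hO
  refine ⟨S, a, fun σ hσ => ?_⟩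
  have e := b σ ⟨0, hσ⟩
  rw [tw, cq_iner (by norm_num) (by norm_num) hO hc hσ, one_smul] at e
  refine ⟨?_, e⟩
  have := h2 σ
  rwa [e, smul_sub, sub_eq_zero, ← smul_comm] at this

theorem kw {q : ℕ} {W : Finset ℂ} (h : Wq q m W) : ∀ w ∈ W, Kw w := fun w hw => by
  obtain ⟨π, a, b, e⟩ := h w hw
  have b' : starRingEnd ℂ π ≠ 0 := (map_ne_zero _).2 b
  refine ⟨fun z => div_ne_zero b' b (by rw [← e, z, zero_pow (by positivity)]), 2 ^ m,
    by positivity, fun σ => ?_⟩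
  obtain ⟨i, j, rfl⟩ := mem_sp.1 a
  have c1 : starRingEnd ℂ (om q) = 1 - om q := by
    simp only [om, map_div₀, map_add, map_one, map_mul, Complex.conj_I, Complex.conj_ofReal,
      map_ofNat]
    ring
  rw [e, inv_div]
  simp only [map_div₀, map_add, map_mul, map_intCast, map_one, map_sub, c1]
  have d := Cheb.om_eq q σ
  rcases Cheb.sq_cases (Cheb.om_sqz q) σ with p | p <;> rw [p] at d
  · left
    rw [d]
    ring
  · right
    rw [d]
    ring

theorem hm_iff {W : Finset ℂ} {h : G} : Hm m W h ↔ h ∈ Hs m W :=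
  ⟨fun a => ⟨a.1, a.2, a.3⟩, fun a => ⟨a.1, a.2.1, a.2.2⟩⟩

theorem cj_inv : cj⁻¹ = cj := inv_eq_of_mul_eq_one_right cj_mul_cj

theorem nn_mem {W : Finset ℂ} (hW : ∀ w ∈ W, Kw w) {h : G} (a : h ∈ Hs m W) :
    cj * h * (cj * h) ∈ Hs m W := by
  have := mul_mem ((Hs_normal m hW).conj_mem h a cj) a
  rwa [cj_inv, mul_assoc] at this

theorem cy_conj {W : Finset ℂ} (hx : Cy c k x) (hk : k ≤ m) {h : G} (a : h ∈ Hs m W) (ρ : G) :
    x (ρ * h * ρ⁻¹) = tw c ρ (x h) := by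
  have b := hx.mul ρ ρ⁻¹
  rw [mul_inv_cancel, cy_one hx] at b
  rw [hx.mul, hx.mul, tw_mul, tw_H a (tor_le hk (hx.tor _)), add_right_comm, ← b, zero_add]

theorem cy_H {W : Finset ℂ} (hx : Cy c k x) (hk : k ≤ m) {h : G} (a : h ∈ Hs m W) (g : G) :
    x (h * g) = x h + x g := by rw [hx.mul, tw_H a (tor_le hk (hx.tor _))]

theorem cy_nn {W : Finset ℂ} (hW : ∀ w ∈ W, Kw w) (hx : Cy c k x) (hk : k ≤ m) {h : G}
    (a : h ∈ Hs m W) : x (cj * h * (cj * h)) = tw c cj (x h) + x h := by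
  rw [← cy_conj hx hk a cj, ← cy_H hx hk ((Hs_normal m hW).conj_mem h a cj), cj_inv, mul_assoc,
    mul_assoc, mul_assoc]

theorem cb_H {W : Finset ℂ} (hx : Cy c k x) (hk : k ≤ m) (hb : Cb c x) {h : G} (a : h ∈ Hs m W) :
    x h = 0 := by
  obtain ⟨T, j, p, q⟩ := hb
  have b : 2 ^ k • T = 0 := no_inv (c := c) (k := j) (by rw [smul_comm, p, smul_zero]) fun σ => by
    have := hx.tor σ
    rwa [q, smul_sub, sub_eq_zero, ← tw_ns] at this
  rw [q, tw_H a (tor_le hk b), sub_self]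

end Cm

open Cm

theorem isoH_thm : IsoStmt := by
  rintro c v O x y hc hv hO hx hy ⟨S, a, b⟩ ⟨S', a', b'⟩
  obtain ⟨η, J, j1, j2, j3⟩ := iso0 hv hO hc (rt_sq c) (cq c) (cq_or c) (cq_rt c) a a' x y
    (fun s h => ⟨hx s, b s h⟩) fun s h => ⟨hy s, b' s h⟩
  refine ⟨η, ⟨J, j1, fun σ τ _ _ h => j2 σ τ h⟩, fun σ τ p q => ?_⟩
  rw [j3 σ τ p q, ← add_assoc, CharTwo.add_self_eq_zero, zero_add, cup, ep]

theorem commI_thm (hPr : PrStmt) (hC : CommStmt) : CommIStmt := by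
  intro L _ _ θ hθ α q m W e s _ hW h0 hN h11 hn hs
  exact (lemK hPr hC hθ m (kw hW) e h0 hN h11 hn hs).imp fun _ h => ⟨hm_iff.2 h.1, h.2⟩

/-- An element of `H` that sees the order of a class. -/
theorem see {L : Type} [Field L] [NumberField L] {θ : L} (hPr : PrStmt) (hC : CommStmt)
    (hK : KumStmt) (hL : Link2Stmt) (hθ : Cub θ) {m k : ℕ} {W : Finset ℂ} {c : ℤ} {y : G → Pt}
    (hm : m ≠ 0) (hk : k ≤ m) (hW : ∀ w ∈ W, Kw w) (hc : ¬ (11 : ℤ) ∣ c) (hy : Cy c k y)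
    (he : Ke c y) :
    ∃ h ∈ Hs m W, ∀ u : ℤ, u • y (cj * h * (cj * h)) = 0 → Cb c (u • y) := by
  classical
  have ex : ∃ j : ℕ, Cb c ((2 : ℤ) ^ j • y) := ⟨k, by
    rw [show (2 : ℤ) ^ k • y = 0 from funext fun σ => by exact_mod_cast hy.tor σ]
    exact cb_zero⟩
  have h1 := Nat.find_spec ex
  rcases hj : Nat.find ex with _ | i
  · rw [hj, pow_zero, one_smul] at h1
    exact ⟨1, one_mem _, fun u _ => cb_zs h1 u⟩
  have h2 := Nat.find_min ex (m := i) (by omega)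
  rw [hj] at h1
  obtain ⟨T, j, p, q⟩ := id h1
  obtain ⟨T', rfl⟩ := R1.ex_half T
  have t1 : 2 ^ (j + 1) • T' = 0 := by rw [pow_succ, mul_smul, p]
  obtain ⟨b1, b2⟩ := cy_cb (c := c) t1
  obtain ⟨ξ, hξ⟩ : ∃ ξ : G → Pt, ξ = (2 : ℤ) ^ i • y + (-1 : ℤ) • fun σ => tw c σ T' - T' :=
    ⟨_, rfl⟩
  have x1 : ∀ σ, ξ σ = (2 : ℤ) ^ i • y σ - (tw c σ T' - T') := fun σ => by
    rw [hξ, Pi.add_apply, Pi.smul_apply, Pi.smul_apply, neg_one_smul, ← sub_eq_add_neg]
  have x2 : ∀ σ, 2 • ξ σ = 0 := fun σ => by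
    have := q σ
    rw [Pi.smul_apply, tw_ns] at this
    rw [x1]
    linear_combination (norm := module) this
  have up : ∀ {a b : ℕ} {x : G → Pt}, a ≤ b → Cy c a x → Cy c b x := fun h hx =>
    ⟨fun σ => tor_le h (hx.tor σ), hx.mul, hx.fin⟩
  have x3 : Cy c (k + (j + 1)) ξ := hξ ▸ cy_add (cy_zs (up (by omega) hy) _)
    (cy_zs (up (by omega) b1) _)
  have x4 : Cy c 1 ξ := ⟨fun σ => by simpa using x2 σ, x3.mul, x3.fin⟩
  obtain ⟨e₁, e₂, e₃, hf, -, -, n23, c1, c2, -⟩ := r1_thm.2.2.2.2.1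
  obtain ⟨h, g1, g2⟩ := lemK' hPr hC hK hL hθ hm hW (cy_coc x4)
    (unr_of_ke hc x2 (hξ ▸ ke_add (ke_zs he _) (ke_zs b2 _))) (fun a => h2 (by
      have := cb_add (cob_cb (c := c) a) ⟨T', j + 1, t1, fun _ => rfl⟩
      rwa [hξ, neg_one_smul, neg_add_cancel_right] at this)) (x := e₁) (by rw [hf]; ring)
  have g3 := nn_mem hW g1
  have t2 : 2 ^ k • T' = 0 := no_inv (c := c) (k := j + 1) (by rw [smul_comm, t1, smul_zero])
    fun σ => by
      have ik : i + 1 ≤ k := hj ▸ Nat.find_min' ex (by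
        rw [show (2 : ℤ) ^ k • y = 0 from funext fun σ => by exact_mod_cast hy.tor σ]
        exact cb_zero)
      have a := tor_one (m := k) (by omega) (x2 σ)
      rwa [x1, smul_sub, smul_comm, hy.tor, smul_zero, zero_sub, neg_eq_zero, smul_sub,
        sub_eq_zero, ← tw_ns] at a
  have g4 := x1 (cj * h * (cj * h))
  rw [tw_H g3 (tor_le hk t2), sub_self, sub_zero] at g4
  have g5 : ξ (cj * h * (cj * h)) ≠ 0 := by
    rw [cy_nn hW x4 (by omega) g1, tw_two (x2 h)]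
    have t := x2 h
    generalize ξ h = P at t g2
    intro a
    have P0 : P ≠ 0 := fun b => by rw [b, wl0] at g2; exact zero_ne_one g2
    have b : cj • P = P := by
      rw [two_nsmul, add_eq_zero_iff_eq_neg] at t
      rw [add_eq_zero_iff_eq_neg, ← t] at a
      exact a
    have d := congrArg xc b
    have f := (((R1.two_iff P).1 t).resolve_left P0).2
    rw [xc_smul] at d
    rw [hf, mul_eq_zero, mul_eq_zero, sub_eq_zero, sub_eq_zero, sub_eq_zero] at f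
    rcases f with (f | f) | f
    · rw [R1.wl_eq f] at g2
      exact zero_ne_one g2
    · rw [f, c2] at d
      exact n23 d.symm
    · rw [f, ← c2] at d
      exact n23 (((Complex.conj_conj _).symm.trans d).trans c2)
  refine ⟨h, g1, fun u hu => ?_⟩
  have g6 := x2 (cj * h * (cj * h))
  rw [g4] at g5 g6
  have o : addOrderOf (y (cj * h * (cj * h))) = 2 ^ (i + 1) := addOrderOf_eq_prime_pow
    (by exact_mod_cast g5) (by rw [pow_succ', mul_smul]; exact_mod_cast g6)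
  obtain ⟨v, rfl⟩ := addOrderOf_dvd_iff_zsmul_eq_zero.2 hu
  rw [o, mul_comm, mul_smul]
  exact cb_zs (by exact_mod_cast h1) v

theorem surjH_thm {L : Type} [Field L] [NumberField L] {θ : L} (hθ : Cub θ) (hPr : PrStmt)
    (hC : CommStmt) (hK : KumStmt) (hL : Link2Stmt) : SurjStmt := by
  classical
  refine ⟨fun q m W c r B μ T hm hW hc hB hi hT => ?_, fun q m k W c y hm hk hW hc hy he =>
    (see hPr hC hK hL hθ hm hk (kw hW) hc hy he).imp fun _ h => ⟨hm_iff.2 h.1, h.2⟩⟩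
  obtain ⟨h, h1, h2⟩ := dual hPr hC hK hL hθ hm (kw hW) B (fun i => cy_coc (hB i).1)
    (fun i => unr_of_ke hc (cy_coc (hB i).1).two (hB i).2) μ (fun S hS => by
      have a := hi (fun i => if i ∈ S then 1 else 0) (by
        have : rep B (fun i => if i ∈ S then 1 else 0) = ∑ i ∈ S, B i := by
          rw [rep, ← Finset.sum_subset (Finset.subset_univ S) fun i _ b => by simp [b]]
          exact Finset.sum_congr rfl fun i b => by rw [if_pos b, ZMod.val_one, one_smul]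
        rw [this]
        exact cob_cb hS)
      refine Finset.sum_eq_zero fun i b => ?_
      have := congrFun a i
      simp [b] at this) hT
  refine ⟨h, hm_iff.2 h1, fun i => ?_⟩
  rw [h2]
  rcases Iso.z2 (μ i) with a | a <;> rw [a]
  · simp
  · rw [if_neg one_ne_zero, ZMod.val_one, one_smul]

end Pool.Agent.Lib.MP_d6ddbd_nt.KI
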