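import Pool.Agent.Lib.MP_d6ddbd_nt.KI.Fr
import Pool.Agent.Lib.MP_d6ddbd_nt.K11.Fin

/-!
The structure of the Selmer groups.
-/

set_option autoImplicit false

open Pool.Agent.Lib.MP_02f36d_nt (xc yc pt_ext)
open Pool.Agent.Lib.MP_d6ddbd_nt.K11

noncomputable section

namespace Pool.Agent.Lib.MP_d6ddbd_nt.KI

namespace Cnt

/-! ### Abstract counting -/

section Abs

variable {M : Type*} [AddCommGroup M]

/-- Fewer than `4 ^ k` classes at level `k` give a level with `Two`. -/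
theorem cnt4 (Cb : AddSubgroup M) (A : ℕ → AddSubgroup M) (hm : ∀ k, A k ≤ A (k + 1))
    (hk : ∀ k, ∀ x ∈ A k, 2 ^ k • x ∈ Cb) (hc : ∀ c, ¬ Alg0.Two Cb A c) (k : ℕ) :
    ∃ s : Finset M, (∀ x ∈ s, x ∈ A k) ∧ (∀ x ∈ s, ∀ y ∈ s, x - y ∈ Cb → x = y) ∧
      s.card = 4 ^ k := by
  classical
  induction k with
  | zero => exact ⟨{0}, by simp, by simp, by simp⟩
  | succ k ih =>
    obtain ⟨s, hs, hs', hcard⟩ := ih
    have h := hc k
    unfold Alg0.Two at h
    push Not at h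
    obtain ⟨x, hx, y, hy, hx0, hy0, hxy⟩ := h
    have hxy' : 2 ^ k • x + 2 ^ k • y ∉ Cb := fun e => hxy (by
      have := Cb.sub_mem e (hk _ y hy)
      convert this using 1
      rw [pow_succ, mul_comm, mul_smul, two_nsmul]; abel)
    let w : Fin 4 → M := ![0, x, y, x + y]
    have hwA : ∀ i, w i ∈ A (k + 1) := by
      intro i; fin_cases i
      · exact (A _).zero_mem
      · exact hx
      · exact hy
      · exact (A _).add_mem hx hy
    have hw : ∀ i j, 2 ^ k • w i - 2 ^ k • w j ∈ Cb → i = j := by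
      intro i j h
      have hn := Cb.neg_mem h
      rw [neg_sub] at hn
      fin_cases i <;> fin_cases j <;> simp_all [w]
    have inj : ∀ a ∈ s ×ˢ (Finset.univ : Finset (Fin 4)), ∀ b ∈ s ×ˢ (Finset.univ : Finset (Fin 4)),
        (a.1 + w a.2) - (b.1 + w b.2) ∈ Cb → a = b := by
      rintro ⟨a, i⟩ ha ⟨b, j⟩ hb h
      have ha' := (Finset.mem_product.1 ha).1
      have hb' := (Finset.mem_product.1 hb).1
      have e : i = j := by
        apply hw
        have h2 := Cb.sub_mem (Cb.nsmul_mem h (2 ^ k))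
          (Cb.sub_mem (hk k a (hs a ha')) (hk k b (hs b hb')))
        convert h2 using 1
        simp only [smul_sub, smul_add]; abel
      subst e
      have : a = b := hs' a ha' b hb' (by simpa using h)
      rw [this]
    refine ⟨(s ×ˢ (Finset.univ : Finset (Fin 4))).image fun a => a.1 + w a.2, ?_, ?_, ?_⟩
    · intro t ht
      obtain ⟨a, ha, rfl⟩ := Finset.mem_image.1 ht
      exact (A _).add_mem (hm k (hs _ (Finset.mem_product.1 ha).1)) (hwA _)
    · intro t ht t' ht' h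
      obtain ⟨a, ha, rfl⟩ := Finset.mem_image.1 ht
      obtain ⟨b, hb, rfl⟩ := Finset.mem_image.1 ht'
      rw [inj a ha b hb h]
    · rw [Finset.card_image_of_injOn, Finset.card_product, hcard]
      · simp [pow_succ]
      · intro a ha b hb h
        exact inj a ha b hb (by simp only at h; rw [h, sub_self]; exact Cb.zero_mem)

/-- A bound on the families of inequivalent elements gives finitely many classes. -/
theorem finCl (Cb A : AddSubgroup M) (N : ℕ) (h : ∀ s : Finset M, (∀ x ∈ s, x ∈ A) →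
    (∀ x ∈ s, ∀ y ∈ s, x - y ∈ Cb → x = y) → s.card < N) :
    ∃ s : Finset M, ∀ x ∈ A, ∃ y ∈ s, x - y ∈ Cb := by
  classical
  by_contra hc
  push Not at hc
  have key : ∀ i : ℕ, ∃ s : Finset M, (∀ x ∈ s, x ∈ A) ∧
      (∀ x ∈ s, ∀ y ∈ s, x - y ∈ Cb → x = y) ∧ s.card = i := by
    intro i
    induction i with
    | zero => exact ⟨∅, by simp, by simp, rfl⟩
    | succ i ih =>
      obtain ⟨s, h1, h2, h3⟩ := ih
      obtain ⟨x, hx, hx'⟩ := hc s
      have hn : x ∉ s := fun e => hx' x e (by rw [sub_self]; exact Cb.zero_mem)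
      refine ⟨insert x s, ?_, ?_, by rw [Finset.card_insert_of_notMem hn, h3]⟩
      · intro t ht
        rcases Finset.mem_insert.1 ht with rfl | ht
        · exact hx
        · exact h1 t ht
      · intro t ht t' ht' e
        rcases Finset.mem_insert.1 ht with a | a <;> rcases Finset.mem_insert.1 ht' with b | b
        · rw [a, b]
        · exact absurd (a ▸ e) (hx' _ b)
        · exact absurd (by simpa [b] using Cb.neg_mem e) (hx' _ a)
        · exact h2 t a t' b e
  obtain ⟨s, h1, h2, h3⟩ := key N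
  exact absurd (h s h1 h2) (by omega)

end Abs

/-! ### The twisted action -/

theorem cq_cases (c : ℤ) (σ : G) : cq c σ = 1 ∨ cq c σ = -1 := by
  unfold cq; split_ifs <;> simp

theorem rt_map (c : ℤ) (σ : G) : σ (rt c) = cq c σ * rt c := by
  unfold cq
  split_ifs with h
  · simp [h]
  · have : σ (rt c) ^ 2 = rt c ^ 2 := by rw [← map_pow, rt_sq, map_intCast]
    simpa using (sq_eq_sq_iff_eq_or_eq_neg.1 this).resolve_left h

theorem cq_mul (c : ℤ) (σ τ : G) : cq c (σ * τ) = cq c σ * cq c τ := by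
  by_cases h : rt c = 0
  · simp [cq, h]
  · have h1 := rt_map c (σ * τ)
    rw [RingAut.mul_apply, rt_map c τ, map_mul, map_intCast, rt_map c σ, ← mul_assoc] at h1
    have h2 := mul_right_cancel₀ h h1
    rw [mul_comm]
    exact_mod_cast h2.symm

/-- The twisted action as a homomorphism. -/
def tH (c : ℤ) (σ : G) : Pt →+ Pt := Fr.FF (cq c σ) σ

theorem tw_eq (c : ℤ) (σ : G) (P : Pt) : tw c σ P = tH c σ P := rfl

theorem tw_mul (c : ℤ) (σ τ : G) (P : Pt) : tw c (σ * τ) P = tw c σ (tw c τ P) := by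
  rw [tw_eq c σ, tw, tw, map_zsmul, ← tw_eq, tw, cq_mul, mul_comm, mul_smul, mul_smul]

/-- The coboundaries form a group. -/
def CbS (c : ℤ) : AddSubgroup (G → Pt) where
  carrier := {x | Cb c x}
  add_mem' := by
    rintro x y ⟨T, k, h1, h2⟩ ⟨T', k', h1', h2'⟩
    refine ⟨T + T', k + k', ?_, fun σ => ?_⟩
    · rw [nsmul_add, pow_add, mul_smul, mul_smul, h1', smul_comm, h1]; simp
    · rw [Pi.add_apply, h2, h2', tw_eq, tw_eq, tw_eq, map_add]; abel
  zero_mem' := ⟨0, 0, by simp, fun σ => by simp [tw_eq]⟩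
  neg_mem' := by
    rintro x ⟨T, k, h1, h2⟩
    exact ⟨-T, k, by rw [neg_nsmul, h1, neg_zero],
      fun σ => by rw [Pi.neg_apply, h2, tw_eq, tw_eq, map_neg]; abel⟩

/-- The Selmer cocycles form a group. -/
def SelS (c : ℤ) (k : ℕ) (n : Finset ℕ) : AddSubgroup (G → Pt) where
  carrier := {x | Sel c k n x}
  add_mem' := by
    classical
    rintro x y ⟨⟨a1, a2, J, a3, a4⟩, a5, a6⟩ ⟨⟨b1, b2, J', b3, b4⟩, b5, b6⟩
    refine ⟨⟨fun σ => by rw [Pi.add_apply, nsmul_add, a1, b1, add_zero], fun σ τ => ?_,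
      J ∪ J', fun t ht => (Finset.mem_union.1 ht).elim (a3 t) (b3 t), fun σ h => ?_⟩,
      fun v O hv hn hO => ?_, fun p hp O φ hO hφ => ?_⟩
    · simp only [Pi.add_apply, a2, b2, tw_eq, map_add]; abel
    · rw [Pi.add_apply, a4 σ fun t ht => h t (Finset.mem_union_left _ ht),
        b4 σ fun t ht => h t (Finset.mem_union_right _ ht), add_zero]
    · obtain ⟨S, s1, s2⟩ := a5 v O hv hn hO
      obtain ⟨S', t1, t2⟩ := b5 v O hv hn hO
      refine ⟨S + S', r1_thm.1.2.1 _ _ s1 t1, fun σ hσ => ?_⟩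
      rw [Pi.add_apply, s2 σ hσ, t2 σ hσ, tw_eq, tw_eq, tw_eq, map_add]; abel
    · rw [Pi.add_apply, a6 p hp O φ hO hφ, b6 p hp O φ hO hφ, add_zero]
  zero_mem' := ⟨⟨fun σ => by simp, fun σ τ => by simp [tw_eq], ∅, fun t ht => by simp at ht,
    fun _ _ => rfl⟩, fun v O _ _ _ => ⟨0, r1_thm.1.1, fun σ _ => by simp [tw_eq]⟩,
    fun _ _ _ _ _ _ => rfl⟩
  neg_mem' := by
    rintro x ⟨⟨a1, a2, J, a3, a4⟩, a5, a6⟩
    refine ⟨⟨fun σ => by rw [Pi.neg_apply, neg_nsmul, a1, neg_zero], fun σ τ => ?_,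
      J, a3, fun σ h => by rw [Pi.neg_apply, a4 σ h, neg_zero]⟩,
      fun v O hv hn hO => ?_, fun p hp O φ hO hφ => by rw [Pi.neg_apply, a6 p hp O φ hO hφ, neg_zero]⟩
    · simp only [Pi.neg_apply, a2, tw_eq, map_neg]; abel
    · obtain ⟨S, s1, s2⟩ := a5 v O hv hn hO
      refine ⟨-S, r1_thm.1.2.2.1 _ s1, fun σ hσ => ?_⟩
      rw [Pi.neg_apply, s2 σ hσ, tw_eq, tw_eq, map_neg]; abel

variable {c : ℤ} {k : ℕ} {n : Finset ℕ} {x : G → Pt}

theorem mono (h : Sel c k n x) {i : ℕ} (hi : k ≤ i) : Sel c i n x := by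
  obtain ⟨r, rfl⟩ := Nat.exists_eq_add_of_le hi
  exact ⟨⟨fun σ => by rw [add_comm, pow_add, mul_smul, h.cy.tor, nsmul_zero], h.cy.mul, h.cy.fin⟩,
    h.kl, h.ff⟩

theorem kill (h : Sel c k n x) : 2 ^ k • x ∈ CbS c := by
  have : 2 ^ k • x = 0 := funext h.cy.tor
  rw [this]; exact (CbS c).zero_mem

theorem noinv {a : ℕ} {P : Pt} (h : 2 ^ a • P = 0) (hP : ∀ σ, tw c σ P = P) : P = 0 := by
  obtain ⟨ω, hω⟩ := Fin.ex_w r1_thm
  induction a generalizing P with
  | zero => simpa using h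
  | succ a ih =>
    have h2 : 2 • P = 0 := ih (by rw [← mul_smul, ← pow_succ, h])
      fun σ => by rw [tw_eq, map_nsmul, ← tw_eq, hP]
    have h3 := hP (ω * ω)
    rw [tw, cq_mul, Fin.sgn_sq (cq_cases c ω), one_smul, mul_smul] at h3
    exact hω P h2 h3

theorem alg_tor {a : ℕ} {P : Pt} (h : 2 ^ a • P = 0) : AlgP P := by
  induction a generalizing P with
  | zero => rw [show P = 0 by simpa using h]; exact r1_thm.1.1
  | succ a ih => exact r1_thm.1.2.2.2.2.1 P (ih (by rw [← mul_smul, ← pow_succ, h]))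

theorem alg_rt (c : ℤ) : IsAlgebraic ℚ (rt c) :=
  IsAlgebraic.of_pow two_pos (by rw [rt_sq]; exact isAlgebraic_intCast c)

/-- Coboundaries of points of level `k` are Selmer cocycles. -/
theorem sel_cob (hT : Tv k n) {T : Pt} (h : 2 ^ k • T = 0) : Sel c k n fun σ => tw c σ T - T := by
  classical
  have ha := alg_tor h
  refine ⟨⟨fun σ => by rw [nsmul_sub, tw_eq, ← map_nsmul, h, map_zero, sub_self], fun σ τ => ?_,
    {xc T, yc T, rt c}, fun t ht => ?_, fun σ hσ => ?_⟩, fun v O _ _ _ => ⟨T, ha, fun _ _ => rfl⟩,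
    fun p hp O φ hO hφ => ?_⟩
  · rw [tw_mul, tw_eq c σ (_ - _), map_sub, ← tw_eq, ← tw_eq]; abel
  · simp only [Finset.mem_insert, Finset.mem_singleton] at ht
    rcases ht with rfl | rfl | rfl
    exacts [ha.1, ha.2, alg_rt c]
  · have e1 : σ • T = T := act_ext (smul_eq_zero' σ T) (by rw [xc_smul, hσ _ (by simp)])
      (by rw [yc_smul, hσ _ (by simp)])
    have e2 : cq c σ = 1 := if_pos (hσ _ (by simp))
    rw [tw, e1, e2, one_smul, sub_self]
  · rw [tw, cq_mul, Fin.sgn_sq (cq_cases c φ), one_smul, mul_smul, hT p hp O φ hO hφ T h, sub_self]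

/-- A class killed by `2 ^ i` comes from level `i`. -/
theorem lft (hT : Tv k n) (hx : Sel c k n x) {i : ℕ} (h : 2 ^ i • x ∈ CbS c) :
    ∃ x', Sel c i n x' ∧ x - x' ∈ CbS c := by
  rcases le_total k i with hi | hi
  · exact ⟨x, mono hx hi, by rw [sub_self]; exact (CbS c).zero_mem⟩
  obtain ⟨r, rfl⟩ := Nat.exists_eq_add_of_le hi
  obtain ⟨T, a, h1, h2⟩ := h
  obtain ⟨T, rfl⟩ := Alg0.div_pow Fr.half i T
  have h3 : 2 ^ (i + r) • T = 0 := by
    refine noinv (c := c) (a := a) (by rw [add_comm, pow_add, mul_smul, smul_comm, h1, nsmul_zero])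
      fun σ => ?_
    have := hx.cy.tor σ
    rw [add_comm, pow_add, mul_smul, ← Pi.smul_apply (2 ^ i) x σ, h2, nsmul_sub, tw_eq,
      ← map_nsmul, sub_eq_zero, ← mul_smul, ← pow_add, add_comm] at this
    exact this
  have h4 : Sel c (i + r) n (x - fun σ => tw c σ T - T) :=
    (SelS c (i + r) n).sub_mem hx (sel_cob hT h3)
  refine ⟨x - fun σ => tw c σ T - T, ⟨⟨fun σ => ?_, h4.cy.mul, h4.cy.fin⟩, h4.kl, h4.ff⟩, ?_⟩
  · rw [Pi.sub_apply, nsmul_sub, ← Pi.smul_apply (2 ^ i) x σ, h2, nsmul_sub, tw_eq, tw_eq, map_nsmul,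
      sub_self]
  · rw [sub_sub_cancel]
    exact ⟨T, _, h3, fun _ => rfl⟩

theorem tv_empty (k : ℕ) : Tv k ∅ := fun p hp => by simp at hp

theorem two_iff (c : ℤ) (j : ℕ) : Two c j ↔ Alg0.Two (CbS c) (fun k => SelS c k ∅) j := by
  refine ⟨fun h x hx y hy a b => ((h x y hx hy).resolve_left a).resolve_left b,
    fun h x y hx hy => ?_⟩
  by_cases a : Cb c (2 ^ j • x)
  · exact Or.inl a
  by_cases b : Cb c (2 ^ j • y)
  · exact Or.inr (Or.inl b)
  · exact Or.inr (Or.inr (h x hx y hy a b))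

end Cnt

open Cnt in
theorem cnt_thm : CntStmt := by
  refine ⟨fun c ⟨k, hk⟩ => ⟨?_, ?_⟩, fun c j k h => ?_, fun c k n y hk hT hy h1 x hx => ?_⟩
  · rcases k with _ | k
    · have := hk {0} (fun x hx => by
        rw [Finset.mem_singleton.1 hx]; exact (SelS c 0 ∅).zero_mem) (by simp)
      simp at this
    · exact finCl (CbS c) (SelS c 1 ∅) _ fun s h1 h2 =>
        hk s (fun x hx => mono (h1 x hx) (by omega)) h2
  · by_contra hc
    obtain ⟨s, h1, h2, h3⟩ := cnt4 (CbS c) (fun k => SelS c k ∅)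
      (fun k x hx => mono hx (Nat.le_succ k)) (fun k x hx => kill hx)
      (fun j hj => hc ⟨j, (two_iff c j).2 hj⟩) k
    exact absurd (hk s h1 h2) (by omega)
  · obtain ⟨z, hz, h⟩ := Alg0.str (CbS c) (fun k => SelS c k ∅) j k (fun x hx => kill hx)
      (fun x hx h => lft (tv_empty k) hx h) ((two_iff c j).1 h)
    refine ⟨z, hz, fun x hx => ?_⟩
    obtain ⟨u, hu⟩ := h x hx
    exact ⟨u, 0, by rw [zero_zsmul, sub_zero]; exact hu⟩
  · obtain ⟨k, rfl⟩ := Nat.exists_eq_succ_of_ne_zero hk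
    have one : ∀ t, Sel c (k + 1) n t → 2 • t ∈ CbS c → t ∉ CbS c → t - 2 ^ k • y ∈ CbS c := by
      intro t ht h2 h0
      obtain ⟨t', a, b⟩ := lft hT ht (i := 1) (by rwa [pow_one])
      rcases h1 t' a with e | e
      · exact absurd (by simpa using (CbS c).add_mem b e) h0
      · have := (CbS c).add_mem b e
        rwa [sub_add_sub_cancel] at this
    by_cases h0 : 2 ^ k • y ∈ CbS c
    · have key : ∀ i : ℕ, 2 ^ i • x ∈ CbS c → x ∈ CbS c := by
        intro i
        induction i with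
        | zero => simp
        | succ i ih =>
          intro h
          refine ih (by_contra fun e => e ?_)
          simpa using (CbS c).add_mem (one _ ((SelS c (k + 1) n).nsmul_mem hx _)
            (by rw [← mul_smul, ← pow_succ']; exact h) e) h0
      exact ⟨0, by rw [zero_zsmul, sub_zero]; exact key _ (kill hx)⟩
    · refine Alg0.desc (CbS c) (SelS c (k + 1) n) (fun a ha b hb a2 b2 a0 b0 => ?_) hy (kill hy) h0
        (k + 1) le_rfl x hx (kill hx)
      have := (CbS c).sub_mem (one a ha a2 a0) (one b hb b2 b0)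
      rwa [sub_sub_sub_cancel_right] at this

end Pool.Agent.Lib.MP_d6ddbd_nt.KI
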