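import Pool.Agent.Lib.MP_d6ddbd_nt.KI.Stmt
import Pool.Agent.Lib.MP_d6ddbd_nt.K11.CK
import Pool.Agent.Lib.MP_d6ddbd_nt.K11.V2
import Pool.Agent.Lib.MP_d6ddbd_nt.K11.Cheb1
import Pool.Agent.Lib.MP_d6ddbd_nt.K11.V1
import Pool.Agent.Lib.MP_d6ddbd_nt.K11.V3
import Pool.Agent.Lib.MP_d6ddbd_nt.K11.V4
import Pool.Agent.Lib.MP_d6ddbd_nt.K11.R1
import Pool.Agent.Lib.MP_d6ddbd_nt.K11.R2
import Pool.Agent.Lib.MP_d6ddbd_nt.K11.Pr
import Pool.Agent.Lib.MP_d6ddbd_nt.K11.PF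
import Pool.Agent.Lib.MP_d6ddbd_nt.K11.Link1
import Pool.Agent.Lib.MP_d6ddbd_nt.K11.Link2
import Pool.Agent.Lib.MP_d6ddbd_nt.K11.LocD

/-!
From the local Kummer condition to the conditions in the cubic field.
-/

set_option autoImplicit false

open NumberField IsDedekindDomain Pointwise
open Pool.Agent.Lib.MP_02f36d_nt (xc yc)
open Pool.Agent.Stark (Pr og hq LSq pw SqCl cl)
open Pool.Agent.Lib.MP_d6ddbd_nt.K11

noncomputable section

namespace Pool.Agent.Lib.MP_d6ddbd_nt.KI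

namespace Dk

/-- Inertia at a prime that does not divide `d` fixes the square roots of `d`. -/
theorem iner_fix {O : ValuationSubring ℂ} {d : ℤ} (h4 : d % 4 = 1) {v : ℕ} (hv : v.Prime)
    (hvd : ¬ (v : ℤ) ∣ d) (hO : Ov O v) {σ : G} (hσ : Frob O 1 σ) {r : ℂ} (hr : r ^ 2 = d) :
    σ r = r := by
  obtain ⟨m, hm⟩ : ∃ m : ℤ, d = 4 * m + 1 := ⟨d / 4, by omega⟩
  have h2 : (d : ℂ) = 4 * m + 1 := by exact_mod_cast hm
  have h3 : (1 + r) / 2 * ((1 + r) / 2 - 1) = m := by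
    linear_combination (1 / 4 : ℂ) * hr + (1 / 4 : ℂ) * h2
  have h5 : (1 + r) / 2 ∈ O := by
    by_contra b
    have h0 : (1 + r) / 2 ≠ 0 := fun e => b (e ▸ zero_mem _)
    have a1 := O.inv_mem_nonunits_iff.2 (Or.inr b)
    have a2 := add_mem a1 (V2.mul_nu (intCast_mem O m) (V2.pow_nu two_ne_zero a1))
    have a3 : ((1 + r) / 2)⁻¹ + m * ((1 + r) / 2)⁻¹ ^ 2 = 1 := by
      rw [← h3]
      generalize (1 + r) / 2 = x at h0
      field_simp
      ring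
    exact V2.one_not (a3 ▸ a2)
  have h6 : IsAlgebraic ℚ ((1 + r) / 2) := by
    rw [div_eq_mul_inv]
    exact (isAlgebraic_one.add (V2.alg_of_sq hr)).mul (isAlgebraic_natCast 2).inv
  have h7 : σ ((1 + r) / 2) = (1 + σ r) / 2 := by rw [map_div₀, map_add, map_one, map_ofNat]
  have h8 := V2.c6 (y := (1 - r) / 2) hσ h6 h5 ((V2.sq_cases σ hr).imp
    (fun e => by rw [h7, e]) fun e => by rw [h7, e]; ring) fun e => by
      refine V2.int_not hv hO hvd ?_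
      have : (1 + r) / 2 - (1 - r) / 2 = r := by ring
      rw [← hr, ← this]
      exact V2.pow_nu two_ne_zero e
  rw [h7] at h8
  linear_combination 2 * h8

theorem sn (σ : G) (n : ℕ) (P : Pt) : σ • n • P = n • σ • P :=
  map_nsmul (DistribSMul.toAddMonoidHom Pt σ) n P

theorem sz' (σ : G) (n : ℤ) (P : Pt) : σ • n • P = n • σ • P :=
  map_zsmul (DistribSMul.toAddMonoidHom Pt σ) n P

theorem tw_of_fix {c : ℤ} {σ : G} (h : σ (rt c) = rt c) (P : Pt) : tw c σ P = σ • P := by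
  rw [tw, cq, if_pos h, one_zsmul]

theorem tw_of_ne {c : ℤ} {σ : G} (h : σ (rt c) ≠ rt c) (P : Pt) : tw c σ P = -(σ • P) := by
  rw [tw, cq, if_neg h, neg_one_zsmul]

theorem wl_one {O : ValuationSubring ℂ} {v : ℕ} {σ : G} (h : Frob O 1 σ) : Wl O v σ :=
  ⟨0, by rwa [pow_zero]⟩

theorem wl_frob {O : ValuationSubring ℂ} {v : ℕ} {σ : G} (h : Frob O v σ) : Wl O v σ :=
  ⟨1, by rwa [pow_one]⟩

/-- The Kummer condition at an unramified prime gives the condition on inertia. -/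
theorem unr_of_kl {O : ValuationSubring ℂ} {d : ℤ} (h4 : d % 4 = 1) {v : ℕ} (hv : v.Prime)
    (hvd : ¬ (v : ℤ) ∣ d) (hO : Ov O v) {ξ : G → Pt} (hc : Coc ξ) (h : Kl d O v ξ) : Unr O ξ := by
  obtain ⟨S, hS, h⟩ := h
  refine ⟨S, hS, fun σ hσ => ?_⟩
  have e : ξ σ = σ • S - S := by
    rw [h σ (wl_one hσ), tw_of_fix (iner_fix h4 hv hvd hO hσ (rt_sq d))]
  refine ⟨?_, e⟩
  have := hc.two σ
  rwa [e, nsmul_sub, sub_eq_zero, ← sn] at this

/-- At a ramified prime the algebraic point can be replaced by a point of order four. -/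
theorem four (hR : RStmt) {O : ValuationSubring ℂ} {l : ℕ} (hl : l.Prime) (h2 : l ≠ 2)
    (h11 : l ≠ 11) (hO : Ov O l) {σ φ : G} (hσ : Frob O 1 σ) (hφ : Frob O l φ) {η : ℤ}
    {S a b : Pt} (hS : AlgP S) (ha : 2 • a = 0) (hb : 2 • b = 0) (e1 : a = -(σ • S) - S)
    (e2 : b = η • φ • S - S) : ∃ T : Pt, 4 • T = 0 ∧ a = -(2 • T) ∧ b = η • φ • T - T := by
  obtain ⟨-, -, r3, r4, r5, r6, -⟩ := hR.2 l O hl h2 h11 hO
  have A := hR.1.1
  have s1 : σ • S - S ∈ E1 O := r3 σ S hσ hS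
  have s2 : 2 ^ 2 • S ∈ E1 O := by
    have e : (2 ^ 2 : ℕ) • S = -(2 • a) - 2 • (σ • S - S) := by
      rw [e1]
      generalize σ • S = X
      module
    rw [e, ha, neg_zero, zero_sub]
    exact neg_mem (nsmul_mem s1 2)
  obtain ⟨T, hT, hST⟩ := r6 2 S s2
  have aT : AlgP T := (Cheb.tors hR.1 2).2 T hT
  have aD : AlgP (S - T) := by
    rw [sub_eq_add_neg]
    exact A.2.1 _ _ hS (A.2.2.1 _ aT)
  refine ⟨T, hT, ?_, ?_⟩
  · rw [← add_eq_zero_iff_eq_neg]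
    refine r5 2 _ ?_ ?_
    · have e : 2 ^ 2 • (a + 2 • T) = 2 • (2 • a) + 2 • (2 ^ 2 • T) := by module
      rw [e, ha, hT, nsmul_zero, add_zero]
    · have e : a + 2 • T = -(σ • S - S) - 2 • (S - T) := by
        rw [e1]
        generalize σ • S = X
        module
      rw [e]
      exact sub_mem (neg_mem s1) (nsmul_mem hST 2)
  · rw [← sub_eq_zero]
    refine r5 2 _ ?_ ?_
    · have e : 2 ^ 2 • (b - (η • φ • T - T)) =
          2 • (2 • b) - (η • φ • (2 ^ 2 • T) - 2 ^ 2 • T) := by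
        rw [sn]
        generalize φ • T = X
        module
      rw [e, hb, hT, CK.sz, zsmul_zero, nsmul_zero, sub_zero, sub_zero]
    · have e : b - (η • φ • T - T) = η • φ • (S - T) - (S - T) := by
        rw [e2, smul_sub φ]
        generalize φ • T = X
        generalize φ • S = Y
        module
      rw [e]
      exact sub_mem (zsmul_mem ((r4 l φ _ hφ hl.ne_zero aD).2 hST) η) hST

end Dk

open Dk CK in
theorem dk_of (hV : VStmt) (hR : RStmt) (hPr : PrStmt) (hL1 : Link1Stmt) (hL2 : Link2Stmt)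
    (hD : LocDStmt) : DkStmt := by
  intro L _ _ θ hθ d B α ξ hd h2B h11B hB hα hN hc hK hkl
  have un : ∀ v : ℕ, v.Prime → ¬ (v : ℤ) ∣ d → v ∉ B → ∀ O, Ov O v → Unr O ξ :=
    fun v hv hvd hvB O hO => unr_of_kl hd.m4 hv hvd hO hc (hkl v O hv hvB hO)
  have L2 := hL2 L θ hθ α ξ hα hN hc hK
  have a2 : At2 α := L2.1 (un 2 Nat.prime_two (fun g => (fam_ne hd g).1 rfl) h2B)
  refine ⟨⟨hα, hN, a2, fun p hp hpd hpB => ?_⟩, fun 𝔭 hp => ?_⟩
  · by_cases h2 : p = 2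
    · rw [h2]
      exact even_of_at2 hα a2
    by_cases h11 : p = 11
    · subst h11
      exact L2.2 (un 11 hp hpd hpB)
    · exact ((hL1 L θ hθ).2.2 α ξ hα hN hc hK).1 p hp h2 h11 (un p hp hpd hpB)
  obtain ⟨hp1, hp2⟩ := Finset.mem_filter.1 hp
  obtain ⟨-, l, hl, hpl, hl'⟩ := (hPr L θ hθ).2.2.2.2.1 𝔭
  have hld : (l : ℤ) ∣ d :=
    Int.natCast_dvd.2 ((hl' _ (Int.natAbs_ne_zero.2 hd.sf.ne_zero)).1 hp1)
  obtain ⟨h2, h11⟩ := fam_ne hd hld
  have hP := (hPr L θ hθ).2.2.1 l hl h2 h11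
  have hnm := (hP.1 𝔭 hpl).2.2.2.2.1 hp2
  obtain ⟨e₁, -, -, r1, -⟩ := roots hR
  obtain ⟨e, -⟩ := (hPr L θ hθ).2.2.2.2.2.2.2.1 e₁ r1
  obtain ⟨O, he⟩ := hV.1.2.1 L e 𝔭
  have hO : Ov O l := by
    have := (hV.1.2.2.2.1 L e O 𝔭 he l (Nat.cast_ne_zero.2 hl.ne_zero)).2
      (by rw [(hP.1 𝔭 hpl).1]; exact one_pos)
    rwa [map_natCast] at this
  have hs := rt_sq d
  have hs0 : rt d ≠ 0 := fun g => hd.sf.ne_zero (by
    rw [g, zero_pow two_ne_zero] at hs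
    exact_mod_cast hs.symm)
  obtain ⟨σ, hσ, hσs⟩ := (hL1 L θ hθ).2.1 l O (rt d) d hl hO hs hd.sf hld
  obtain ⟨φ, hφ⟩ := hV.1.2.2.2.2 l O hl hO
  have hη : cq d φ = 1 ∨ cq d φ = -1 := by
    unfold cq
    split_ifs <;> simp
  have hφs : φ (rt d) = cq d φ * rt d := by
    unfold cq
    split_ifs with g
    · simp [g]
    · simp [(V2.sq_cases φ hs).resolve_left g]
  obtain ⟨S, hS, h⟩ := hkl l O hl (fun g => hB l g hld) hO
  obtain ⟨T, hT, a, b⟩ := four hR hl h2 h11 hO hσ hφ hS (hc.two σ) (hc.two φ)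
    (by rw [h σ (wl_one hσ), tw_of_ne (by rw [hσs]; exact ne_neg hs0)]) (h φ (wl_frob hφ))
  have t2 : 2 • (2 • T) = 0 := by rw [← hT]; module
  have := (loc hV hR hPr hL1 hD hθ hd hl hld hpl hnm hO he hσ hφ hs hσs hη hφs hα hN hc hK).2.2 0
    (cq d φ • T) (nsmul_zero 2) (by
      rw [smul_comm, eta_two hη t2, a, eq_neg_iff_add_eq_zero, ← two_nsmul, t2]) (by
      rw [b, add_zero, sz', smul_smul (cq d φ) (cq d φ)]
      rcases hη with g | g <;> simp [g])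
  rw [this]
  exact wl_eq_zero.2 (Or.inl rfl)

theorem dk_thm : DkStmt :=
  have hV : VStmt := ⟨v1_thm, v2_thm, v3_thm v1_thm, v4_thm v1_thm⟩
  have hR : RStmt := ⟨r1_thm, r2_thm v1_thm v2_thm r1_thm⟩
  dk_of hV hR pr_thm (link1_thm hV hR pr_thm) (link2_thm hV hR pr_thm)
    (locd_thm pr_thm (pf_thm pr_thm))

end Pool.Agent.Lib.MP_d6ddbd_nt.KI
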