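import Mathlib

/-!
Pure algebra for the two-converse: bounded two-groups with one involution, counting of classes,
free modules over an involution, a surjectivity by counting, and a lemma on alternating forms.
-/

set_option autoImplicit false

namespace Pool.Agent.Lib.MP_d6ddbd_nt.KI.Alg0

/-! ### Bounded two-groups with at most one involution -/

section Cyc

variable {M : Type*} [AddCommGroup M]

/-- Descent along an element of large order, modulo a subgroup `Cb`. -/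
theorem desc (Cb A : AddSubgroup M)
    (h1 : ∀ x ∈ A, ∀ y ∈ A, 2 • x ∈ Cb → 2 • y ∈ Cb → x ∉ Cb → y ∉ Cb → x - y ∈ Cb)
    {z : M} (hz : z ∈ A) {j : ℕ} (hj : 2 ^ (j + 1) • z ∈ Cb) (hj' : 2 ^ j • z ∉ Cb) :
    ∀ i : ℕ, i ≤ j + 1 → ∀ x ∈ A, 2 ^ i • x ∈ Cb → ∃ u : ℤ, x - u • z ∈ Cb := by
  intro i
  induction i with
  | zero => intro _ x _ hx; exact ⟨0, by simpa using hx⟩
  | succ i ih =>
    intro hi x hxA hx
    by_cases h0 : 2 ^ i • x ∈ Cb
    · exact ih (by omega) x hxA h0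
    · obtain ⟨r, rfl⟩ : ∃ r, j = i + r := ⟨j - i, by omega⟩
      have h2 := h1 (2 ^ i • x) (A.nsmul_mem hxA _) (2 ^ (i + r) • z) (A.nsmul_mem hz _)
        (by rw [← mul_smul, ← pow_succ']; exact hx) (by rw [← mul_smul, ← pow_succ']; exact hj) h0 hj'
      obtain ⟨u, hu⟩ := ih (by omega) (x - 2 ^ r • z) (A.sub_mem hxA (A.nsmul_mem hz _))
        (by rw [smul_sub, ← mul_smul, ← pow_add]; exact h2)
      refine ⟨u + 2 ^ r, ?_⟩
      have e : x - (u + 2 ^ r) • z = x - 2 ^ r • z - u • z := by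
        rw [add_smul, ← natCast_zsmul z (2 ^ r)]; push_cast; abel
      rw [e]; exact hu

/-- A subgroup killed by `2 ^ k` modulo `Cb`, with at most one class of order two, is cyclic
modulo `Cb`. -/
theorem cycMod (Cb A : AddSubgroup M) (k : ℕ) (hk : ∀ x ∈ A, 2 ^ k • x ∈ Cb)
    (h1 : ∀ x ∈ A, ∀ y ∈ A, 2 • x ∈ Cb → 2 • y ∈ Cb → x ∉ Cb → y ∉ Cb → x - y ∈ Cb) :
    ∃ z ∈ A, ∀ x ∈ A, ∃ u : ℤ, x - u • z ∈ Cb := by
  induction k with
  | zero => exact ⟨0, A.zero_mem, fun x hx => ⟨0, by simpa using hk x hx⟩⟩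
  | succ k ih =>
    by_cases h : ∀ x ∈ A, 2 ^ k • x ∈ Cb
    · exact ih h
    · push Not at h
      obtain ⟨z, hz, hz'⟩ := h
      exact ⟨z, hz, fun x hx => desc Cb A h1 hz (hk z hz) hz' (k + 1) le_rfl x hx (hk x hx)⟩

/-- In the same situation any two elements are comparable. -/
theorem cmpMod (Cb A : AddSubgroup M) (k : ℕ) (hk : ∀ x ∈ A, 2 ^ k • x ∈ Cb)
    (h1 : ∀ x ∈ A, ∀ y ∈ A, 2 • x ∈ Cb → 2 • y ∈ Cb → x ∉ Cb → y ∉ Cb → x - y ∈ Cb)
    {x y : M} (hx : x ∈ A) (hy : y ∈ A) :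
    (∃ u : ℤ, x - u • y ∈ Cb) ∨ ∃ u : ℤ, y - u • x ∈ Cb := by
  have key : ∀ i : ℕ, 2 ^ i • x ∈ Cb → 2 ^ i • y ∈ Cb →
      (∃ u : ℤ, x - u • y ∈ Cb) ∨ ∃ u : ℤ, y - u • x ∈ Cb := by
    intro i
    induction i with
    | zero => intro h _; exact Or.inl ⟨0, by simpa using h⟩
    | succ i ih =>
      intro ha hb
      by_cases h0 : 2 ^ i • y ∈ Cb
      · by_cases h0' : 2 ^ i • x ∈ Cb
        · exact ih h0' h0
        · exact Or.inr (desc Cb A h1 hx ha h0' (i + 1) le_rfl y hy hb)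
      · exact Or.inl (desc Cb A h1 hy hb h0 (i + 1) le_rfl x hx ha)
  exact key k (hk x hx) (hk y hy)

/-- The cyclicity lemma without a modulus. -/
theorem cyc (A : AddSubgroup M) (k : ℕ) (hk : ∀ x ∈ A, 2 ^ k • x = 0)
    (h1 : ∀ x ∈ A, ∀ y ∈ A, 2 • x = 0 → 2 • y = 0 → x ≠ 0 → y ≠ 0 → x = y) :
    ∃ z ∈ A, ∀ x ∈ A, ∃ u : ℤ, x = u • z := by
  simpa [sub_eq_zero] using cycMod ⊥ A k (by simpa using hk) (by simpa [sub_eq_zero] using h1)

/-- The comparison lemma without a modulus. -/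
theorem cmp (A : AddSubgroup M) (k : ℕ) (hk : ∀ x ∈ A, 2 ^ k • x = 0)
    (h1 : ∀ x ∈ A, ∀ y ∈ A, 2 • x = 0 → 2 • y = 0 → x ≠ 0 → y ≠ 0 → x = y)
    {x y : M} (hx : x ∈ A) (hy : y ∈ A) : (∃ u : ℤ, x = u • y) ∨ ∃ u : ℤ, y = u • x := by
  simpa [sub_eq_zero] using
    cmpMod ⊥ A k (by simpa using hk) (by simpa [sub_eq_zero] using h1) hx hy

/-- `2 ^ c • A (c + 1)` has at most one nontrivial class modulo `Cb`. -/
def Two (Cb : AddSubgroup M) (A : ℕ → AddSubgroup M) (c : ℕ) : Prop :=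
  ∀ x ∈ A (c + 1), ∀ y ∈ A (c + 1), 2 ^ c • x ∉ Cb → 2 ^ c • y ∉ Cb → 2 ^ c • x - 2 ^ c • y ∈ Cb

/-- Counting: slow growth of the number of classes gives a level with `Two`. -/
theorem cnt (Cb : AddSubgroup M) (A : ℕ → AddSubgroup M) (hm : ∀ k, A k ≤ A (k + 1))
    (hk : ∀ k, ∀ x ∈ A k, 2 ^ k • x ∈ Cb) (C : ℕ)
    (hC : ∀ (k : ℕ) (s : Finset M), (∀ x ∈ s, x ∈ A k) →
      (∀ x ∈ s, ∀ y ∈ s, x - y ∈ Cb → x = y) → s.card ≤ C * 2 ^ k) :
    ∃ c, Two Cb A c := by
  classical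
  by_contra hc
  push Not at hc
  have key : ∀ k : ℕ, ∃ s : Finset M, (∀ x ∈ s, x ∈ A k) ∧
      (∀ x ∈ s, ∀ y ∈ s, x - y ∈ Cb → x = y) ∧ s.card = 3 ^ k := by
    intro k
    induction k with
    | zero => exact ⟨{0}, by simp, by simp, by simp⟩
    | succ k ih =>
      obtain ⟨s, hs, hs', hcard⟩ := ih
      have h := hc k
      unfold Two at h
      push Not at h
      obtain ⟨x, hx, y, hy, hx0, hy0, hxy⟩ := h
      let w : Fin 3 → M := ![0, x, y]
      have hwA : ∀ i, w i ∈ A (k + 1) := by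
        intro i; fin_cases i
        · exact (A _).zero_mem
        · exact hx
        · exact hy
      have hw : ∀ i j, 2 ^ k • w i - 2 ^ k • w j ∈ Cb → i = j := by
        intro i j h
        have hn := Cb.neg_mem h
        fin_cases i <;> fin_cases j <;> simp_all [w]
      have inj : ∀ a ∈ s ×ˢ (Finset.univ : Finset (Fin 3)), ∀ b ∈ s ×ˢ (Finset.univ : Finset (Fin 3)),
          (a.1 + w a.2) - (b.1 + w b.2) ∈ Cb → a = b := by
        rintro ⟨a, i⟩ ha ⟨b, j⟩ hb h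
        have ha' := (Finset.mem_product.1 ha).1
        have hb' := (Finset.mem_product.1 hb).1
        have e : i = j := by
          apply hw
          have h2 := Cb.sub_mem (Cb.nsmul_mem h (2 ^ k))
            (Cb.sub_mem (hk k a (hs a ha')) (hk k b (hs b hb')))
          convert h2 using 1
          simp only [smul_sub, smul_add]; abel
        subst e
        have : a = b := hs' a ha' b hb' (by simpa using h)
        rw [this]
      refine ⟨(s ×ˢ (Finset.univ : Finset (Fin 3))).image fun a => a.1 + w a.2, ?_, ?_, ?_⟩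
      · intro t ht
        obtain ⟨a, ha, rfl⟩ := Finset.mem_image.1 ht
        exact (A _).add_mem (hm k (hs _ (Finset.mem_product.1 ha).1)) (hwA _)
      · intro t ht t' ht' h
        obtain ⟨a, ha, rfl⟩ := Finset.mem_image.1 ht
        obtain ⟨b, hb, rfl⟩ := Finset.mem_image.1 ht'
        rw [inj a ha b hb h]
      · rw [Finset.card_image_of_injOn, Finset.card_product, hcard]
        · simp [pow_succ]
        · intro a ha b hb h
          exact inj a ha b hb (by simp only at h; rw [h, sub_self]; exact Cb.zero_mem)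
  have grow : ∀ k : ℕ, (k + 2) * 2 ^ k ≤ 2 * 3 ^ k := by
    intro k
    induction k with
    | zero => simp
    | succ k ih =>
      have : 2 ^ k ≤ 3 ^ k := Nat.pow_le_pow_left (by norm_num) k
      rw [pow_succ, pow_succ]; nlinarith
  obtain ⟨s, h1, h2, h3⟩ := key (2 * C)
  have h4 := hC _ s h1 h2
  have h5 := grow (2 * C)
  have h6 : 0 < 2 ^ (2 * C) := by positivity
  nlinarith

/-- `Two` passes to higher levels. -/
theorem two_mono (Cb : AddSubgroup M) (A : ℕ → AddSubgroup M)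
    (hl : ∀ k, ∀ x ∈ A (k + 1), 2 • x ∈ A k) {c c' : ℕ} (h : Two Cb A c) (hc : c ≤ c') :
    Two Cb A c' := by
  induction c', hc using Nat.le_induction with
  | base => exact h
  | succ n _ ih =>
    intro x hx y hy hx0 hy0
    have e : ∀ t : M, 2 ^ (n + 1) • t = 2 ^ n • (2 • t) := fun t => by rw [← mul_smul, pow_succ]
    rw [e] at hx0 hy0
    rw [e, e]
    exact ih _ (hl _ x hx) _ (hl _ y hy) hx0 hy0

/-- Structure: `Two` at level `c` makes `2 ^ c • A k` cyclic modulo `Cb`. -/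
theorem str (Cb : AddSubgroup M) (A : ℕ → AddSubgroup M) (c k : ℕ)
    (hk : ∀ x ∈ A k, 2 ^ k • x ∈ Cb)
    (lift : ∀ x ∈ A k, 2 ^ (c + 1) • x ∈ Cb → ∃ x' ∈ A (c + 1), x - x' ∈ Cb)
    (h : Two Cb A c) : ∃ z ∈ A k, ∀ x ∈ A k, ∃ u : ℤ, 2 ^ c • x - u • z ∈ Cb := by
  let B : AddSubgroup M := (A k).map (nsmulAddMonoidHom (2 ^ c))
  have hB : ∀ t ∈ B, ∃ x ∈ A k, 2 ^ c • x = t := fun t ht => ht
  obtain ⟨z, hz, hz'⟩ := cycMod Cb B k
    (fun t ht => by
      obtain ⟨x, hx, rfl⟩ := hB t ht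
      rw [smul_comm]; exact Cb.nsmul_mem (hk x hx) _)
    (fun t ht t' ht' h2 h2' h0 h0' => by
      obtain ⟨x, hx, rfl⟩ := hB t ht
      obtain ⟨y, hy, rfl⟩ := hB t' ht'
      obtain ⟨x', hx', ex⟩ := lift x hx (by rw [pow_succ', mul_smul]; exact h2)
      obtain ⟨y', hy', ey⟩ := lift y hy (by rw [pow_succ', mul_smul]; exact h2')
      have ex' := Cb.nsmul_mem ex (2 ^ c)
      have ey' := Cb.nsmul_mem ey (2 ^ c)
      rw [smul_sub] at ex' ey'
      have h3 := h x' hx' y' hy' (fun e => h0 (by simpa using Cb.add_mem ex' e))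
        (fun e => h0' (by simpa using Cb.add_mem ey' e))
      have h4 := Cb.sub_mem (Cb.add_mem h3 ex') ey'
      convert h4 using 1
      abel)
  obtain ⟨x0, hx0, rfl⟩ := hB z hz
  exact ⟨_, (A k).nsmul_mem hx0 _, fun x hx => hz' _ ⟨x, hx, rfl⟩⟩

end Cyc

/-! ### Two-divisible groups with four points of order at most two -/

section Free

variable {D : Type*} [AddCommGroup D]

variable (D) in
/-- There are at most four points of order at most two. -/
def V4 : Prop := ∃ T₁ T₂ T₃ : D, ∀ T : D, 2 • T = 0 → T = 0 ∨ T = T₁ ∨ T = T₂ ∨ T = T₃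

theorem V4.span (h : V4 D) {a b : D} (ha : 2 • a = 0) (hb : 2 • b = 0) (a0 : a ≠ 0) (b0 : b ≠ 0)
    (ab : a ≠ b) {T : D} (hT : 2 • T = 0) : T = 0 ∨ T = a ∨ T = b ∨ T = a + b := by
  obtain ⟨T₁, T₂, T₃, h⟩ := h
  have c0 : a + b ≠ 0 := fun e => ab (by
    have : a + b + b = b := by rw [e, zero_add]
    rwa [add_assoc, ← two_nsmul, hb, add_zero] at this)
  have ca : a + b ≠ a := fun e => b0 (by simpa using e)
  have cb : a + b ≠ b := fun e => a0 (by simpa using e)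
  have hc : 2 • (a + b) = 0 := by rw [smul_add, ha, hb, add_zero]
  have h1 := h a ha
  have h2 := h b hb
  have h3 := h _ hc
  have h4 := h T hT
  generalize a + b = c at *
  grind

theorem V4.finite (h : V4 D) (n : ℕ) : {T : D | 2 ^ n • T = 0}.Finite := by
  obtain ⟨T₁, T₂, T₃, h⟩ := h
  induction n with
  | zero => exact (Set.finite_singleton 0).subset fun T hT => by simpa using hT
  | succ n ih =>
    refine Set.Finite.of_finite_fibers (fun T => 2 • T) (ih.subset ?_) ?_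
    · rintro _ ⟨T, hT, rfl⟩
      simp only [Set.mem_ofPred_eq] at hT ⊢
      rwa [← mul_smul, ← pow_succ]
    · rintro _ ⟨S, -, rfl⟩
      refine (Set.toFinite {S, S + T₁, S + T₂, S + T₃}).subset ?_
      rintro T ⟨-, hT⟩
      have hT' : 2 • T = 2 • S := hT
      have := h (T - S) (by rw [smul_sub, hT', sub_self])
      simp only [sub_eq_iff_eq_add', add_zero] at this
      simpa using this

theorem div_pow (hd : ∀ T : D, ∃ S : D, 2 • S = T) (n : ℕ) (T : D) : ∃ S : D, 2 ^ n • S = T := by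
  induction n generalizing T with
  | zero => exact ⟨T, by simp⟩
  | succ n ih =>
    obtain ⟨S, rfl⟩ := ih T
    obtain ⟨R, rfl⟩ := hd S
    exact ⟨R, by rw [pow_succ, mul_smul]⟩

/-- The points killed by `2 ^ k` form a free module of rank one over the group ring of the
involution `F`. -/
theorem free (hd : ∀ T : D, ∃ S : D, 2 • S = T) (h4 : V4 D) (F : D →+ D) (k : ℕ)
    (hF : ∀ T : D, 2 • T = 0 → F (F T) = T) (hn : ∃ T : D, 2 • T = 0 ∧ F T ≠ T) :
    ∃ e : D, 2 ^ k • e = 0 ∧ (∀ T : D, 2 ^ k • T = 0 → ∃ a b : ℤ, T = a • e + b • F e) ∧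
      ∀ a b : ℤ, a • e + b • F e = 0 → 2 ^ k ∣ a ∧ 2 ^ k ∣ b := by
  rcases k with _ | k
  · exact ⟨0, by simp, fun T hT => ⟨0, 0, by simpa using hT⟩, by simp⟩
  obtain ⟨T₀, h2, hne⟩ := hn
  obtain ⟨e, rfl⟩ := div_pow hd k T₀
  have h2' : 2 • F (2 ^ k • e) = 0 := by rw [← map_nsmul, h2, map_zero]
  have n0 : 2 ^ k • e ≠ 0 := fun h => hne (by rw [h, map_zero])
  have n1 : F (2 ^ k • e) ≠ 0 := fun h => n0 (by rw [← hF _ h2, h, map_zero])
  have he : 2 ^ (k + 1) • e = 0 := by rw [pow_succ', mul_smul, h2]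
  have sp : ∀ T : D, 2 • T = 0 → ∃ a b : ℤ, T = 2 ^ k • (a • e + b • F e) := by
    intro T hT
    rcases h4.span h2 h2' n0 n1 hne.symm hT with h | h | h | h
    · exact ⟨0, 0, by simp [h]⟩
    · exact ⟨1, 0, by simp [h]⟩
    · exact ⟨0, 1, by simp [h]⟩
    · exact ⟨1, 1, by simp [h]⟩
  refine ⟨e, he, ?_, ?_⟩
  · have key : ∀ i : ℕ, i ≤ k + 1 → ∀ T : D, 2 ^ i • T = 0 → ∃ a b : ℤ, T = a • e + b • F e := by
      intro i
      induction i with
      | zero => intro _ T hT; exact ⟨0, 0, by simpa using hT⟩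
      | succ i ih =>
        intro hi T hT
        obtain ⟨r, rfl⟩ : ∃ r, k = i + r := ⟨k - i, by omega⟩
        obtain ⟨a, b, h⟩ := sp (2 ^ i • T) (by rw [← mul_smul, ← pow_succ', hT])
        obtain ⟨a', b', h'⟩ := ih (by omega) (T - 2 ^ r • (a • e + b • F e))
          (by rw [smul_sub, ← mul_smul, ← pow_add, h, sub_self])
        refine ⟨a' + 2 ^ r * a, b' + 2 ^ r * b, ?_⟩
        rw [sub_eq_iff_eq_add.1 h', ← natCast_zsmul]
        push_cast
        module
    exact key _ le_rfl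
  · have par : ∀ a b : ℤ, 2 ^ k • (a • e + b • F e) = 0 → 2 ∣ a ∧ 2 ∣ b := by
      intro a b h
      have z1 : (2 : ℤ) • (2 ^ k • e) = 0 := by rw [← h2, ← natCast_zsmul _ 2]; rfl
      have z2 : (2 : ℤ) • F (2 ^ k • e) = 0 := by rw [← h2', ← natCast_zsmul _ 2]; rfl
      have h' : a • (2 ^ k • e) + b • F (2 ^ k • e) = 0 := by
        rw [← h, map_nsmul, smul_add, smul_comm a, smul_comm b]
      generalize 2 ^ k • e = t at *
      rcases Int.even_or_odd' a with ⟨a, rfl | rfl⟩ <;> rcases Int.even_or_odd' b with ⟨b, rfl | rfl⟩ <;>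
        simp only [add_smul, mul_comm (2 : ℤ), mul_smul, z1, z2, smul_zero, one_smul, zero_add,
          add_zero] at h'
      · simp
      · exact absurd h' n1
      · exact absurd h' n0
      · refine absurd ?_ hne
        have : t + F t + t = t := by rw [h', zero_add]
        rwa [add_right_comm, ← two_nsmul, h2, zero_add] at this
    have key : ∀ i : ℕ, i ≤ k + 1 → ∀ a b : ℤ, 2 ^ (k + 1 - i) • (a • e + b • F e) = 0 →
        2 ^ i ∣ a ∧ 2 ^ i ∣ b := by
      intro i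
      induction i with
      | zero => intro _ a b _; simp
      | succ i ih =>
        intro hi a b h
        obtain ⟨r, rfl⟩ : ∃ r, k = r + i := ⟨k - i, by omega⟩
        have e1 : r + i + 1 - (i + 1) = r := by omega
        have e2 : r + i + 1 - i = r + 1 := by omega
        rw [e1] at h
        obtain ⟨⟨a, rfl⟩, ⟨b, rfl⟩⟩ := par a b (by rw [add_comm r i, pow_add, mul_smul, h, smul_zero])
        obtain ⟨ha, hb⟩ := ih (by omega) a b (by
          rw [e2, pow_succ, mul_smul, ← h, ← natCast_zsmul _ 2]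
          congr 1
          push_cast
          module)
        rw [pow_succ']
        exact ⟨mul_dvd_mul_left 2 ha, mul_dvd_mul_left 2 hb⟩
    intro a b h
    exact key (k + 1) le_rfl a b (by simpa using h)

/-- Vanishing of the first cohomology of an involution. -/
theorem frA (hd : ∀ T : D, ∃ S : D, 2 • S = T) (h4 : V4 D) (F : D →+ D) (k : ℕ)
    (hF : ∀ T : D, 2 ^ k • T = 0 → F (F T) = T) (hn : ∃ T : D, 2 • T = 0 ∧ F T ≠ T)
    {T : D} (hT : 2 ^ k • T = 0) (h : F T + T = 0) : ∃ S : D, 2 ^ k • S = 0 ∧ T = F S - S := by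
  rcases k with _ | k
  · exact ⟨0, by simp, by simpa using hT⟩
  obtain ⟨e, he, h1, h2⟩ := free hd h4 F (k + 1)
    (fun T hT => hF T (by rw [pow_succ, mul_smul, hT, smul_zero])) hn
  obtain ⟨a, b, rfl⟩ := h1 T hT
  obtain ⟨⟨c, hc⟩, -⟩ := h2 (a + b) (a + b) (by
    rw [← h, map_add, map_zsmul, map_zsmul, hF e he]; module)
  have he' : ((2 : ℤ) ^ (k + 1)) • e = 0 := by rw [← he, ← natCast_zsmul]; push_cast; rfl
  refine ⟨b • e, by rw [smul_comm, he, smul_zero], ?_⟩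
  have : a = c * 2 ^ (k + 1) - b := by linear_combination hc
  rw [this, map_zsmul, sub_smul, mul_smul, he']
  module

/-- The norms form a cyclic group. -/
theorem frC (hd : ∀ T : D, ∃ S : D, 2 • S = T) (h4 : V4 D) (F : D →+ D) (k : ℕ)
    (hF : ∀ T : D, 2 ^ k • T = 0 → F (F T) = T) (hn : ∃ T : D, 2 • T = 0 ∧ F T ≠ T) :
    ∃ e : D, 2 ^ k • e = 0 ∧ (∀ T : D, 2 ^ k • T = 0 → ∃ u : ℤ, F T + T = u • (F e + e)) ∧
      ∀ u : ℤ, u • (F e + e) = 0 → 2 ^ k ∣ u := by
  rcases k with _ | k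
  · exact ⟨0, by simp, fun T hT => ⟨0, by simp [show T = 0 by simpa using hT]⟩, by simp⟩
  obtain ⟨e, he, h1, h2⟩ := free hd h4 F (k + 1)
    (fun T hT => hF T (by rw [pow_succ, mul_smul, hT, smul_zero])) hn
  refine ⟨e, he, fun T hT => ?_, fun u hu => (h2 u u (by rw [← hu]; module)).1⟩
  obtain ⟨a, b, rfl⟩ := h1 T hT
  exact ⟨a + b, by rw [map_add, map_zsmul, map_zsmul, hF e he]; module⟩

/-- An eigenspace has at most one point of order two. -/
theorem eig_two (h4 : V4 D) (F : D →+ D) (hF : ∀ T : D, 2 • T = 0 → F (F T) = T)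
    (hn : ∃ T : D, 2 • T = 0 ∧ F T ≠ T) (u : ℤ) {x y : D} (hx : F x = u • x) (hy : F y = u • y)
    (x2 : 2 • x = 0) (y2 : 2 • y = 0) (x0 : x ≠ 0) (y0 : y ≠ 0) : x = y := by
  have fix : ∀ t : D, F t = u • t → 2 • t = 0 → t ≠ 0 → F t = t := by
    intro t ht t2 t0
    have z : (2 : ℤ) • t = 0 := by rw [← t2, ← natCast_zsmul _ 2]; rfl
    rcases Int.even_or_odd' u with ⟨a, rfl | rfl⟩
    · rw [mul_comm, mul_smul, z, smul_zero] at ht
      exact absurd (by rw [← hF t t2, ht, map_zero]) t0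
    · rwa [add_smul, mul_comm, mul_smul, z, smul_zero, zero_add, one_smul] at ht
  by_contra hxy
  obtain ⟨T, hT, hT'⟩ := hn
  have fx := fix x hx x2 x0
  have fy := fix y hy y2 y0
  rcases h4.span x2 y2 x0 y0 hxy hT with rfl | rfl | rfl | rfl
  · exact hT' (map_zero F)
  · exact hT' fx
  · exact hT' fy
  · exact hT' (by rw [map_add, fx, fy])

/-- The eigenspace of `F` for `u` in the points killed by `2 ^ k`. -/
def eig (F : D →+ D) (k : ℕ) (u : ℤ) : AddSubgroup D where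
  carrier := {T | 2 ^ k • T = 0 ∧ F T = u • T}
  add_mem' := fun ha hb => ⟨by rw [smul_add, ha.1, hb.1, add_zero],
    by rw [map_add, ha.2, hb.2, smul_add]⟩
  zero_mem' := ⟨by simp, by simp⟩
  neg_mem' := fun ha => ⟨by rw [smul_neg, ha.1, neg_zero], by rw [map_neg, ha.2, smul_neg]⟩

/-- Eigenspaces are cyclic. -/
theorem frB (h4 : V4 D) (F : D →+ D) (k : ℕ) (hF : ∀ T : D, 2 • T = 0 → F (F T) = T)
    (hn : ∃ T : D, 2 • T = 0 ∧ F T ≠ T) (u : ℤ) :
    ∃ z : D, 2 ^ k • z = 0 ∧ F z = u • z ∧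
      ∀ T : D, 2 ^ k • T = 0 → F T = u • T → ∃ a : ℤ, T = a • z := by
  obtain ⟨z, hz, h⟩ := cyc (eig F k u) k (fun x hx => hx.1)
    fun x hx y hy x2 y2 x0 y0 => eig_two h4 F hF hn u hx.2 hy.2 x2 y2 x0 y0
  exact ⟨z, hz.1, hz.2, fun T h1 h2 => h T ⟨h1, h2⟩⟩

/-- Two eigenvectors with the same eigenvalue are comparable. -/
theorem frB' (h4 : V4 D) (F : D →+ D) (k : ℕ) (hF : ∀ T : D, 2 • T = 0 → F (F T) = T)
    (hn : ∃ T : D, 2 • T = 0 ∧ F T ≠ T) (u : ℤ) {x y : D} (hx : 2 ^ k • x = 0)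
    (hy : 2 ^ k • y = 0) (ex : F x = u • x) (ey : F y = u • y) :
    (∃ a : ℤ, x = a • y) ∨ ∃ a : ℤ, y = a • x :=
  cmp (eig F k u) k (fun _ hx => hx.1)
    (fun _ hx _ hy x2 y2 x0 y0 => eig_two h4 F hF hn u hx.2 hy.2 x2 y2 x0 y0) ⟨hx, ex⟩ ⟨hy, ey⟩

/-- An endomorphism with finite kernel on the two-power torsion is onto there. -/
theorem onto (hd : ∀ T : D, ∃ S : D, 2 • S = T) (h4 : V4 D) (φ : D →+ D)
    (hk : {T : D | (∃ n : ℕ, 2 ^ n • T = 0) ∧ φ T = 0}.Finite) {k : ℕ} {T : D}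
    (hT : 2 ^ k • T = 0) : ∃ (n : ℕ) (S : D), 2 ^ n • S = 0 ∧ φ S = T := by
  obtain ⟨b, o, ho, hb⟩ := Nat.exists_eq_two_pow_mul_odd
    (Nat.factorial_ne_zero (Set.ncard {T : D | (∃ n : ℕ, 2 ^ n • T = 0) ∧ φ T = 0}))
  obtain ⟨T', rfl⟩ := div_pow hd b T
  let A : AddSubgroup D := (nsmulAddMonoidHom (2 ^ (k + b))).ker
  have hA : ∀ t : D, t ∈ A ↔ 2 ^ (k + b) • t = 0 := fun t => Iff.rfl
  have : Finite A := (h4.finite (k + b)).to_subtype
  let ψ : A →+ A := (φ.comp A.subtype).codRestrict A fun t => by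
    rw [hA, AddMonoidHom.comp_apply, ← map_nsmul, AddSubgroup.coe_subtype, (hA t).1 t.2, map_zero]
  have hle : Nat.card ψ.ker ≤ Set.ncard {T : D | (∃ n : ℕ, 2 ^ n • T = 0) ∧ φ T = 0} := by
    have := hk.to_subtype
    rw [← Nat.card_coe_set_eq]
    refine Nat.card_le_card_of_injective
      (fun t => ⟨t.1.1, ⟨_, (hA _).1 t.1.2⟩, congrArg Subtype.val t.2⟩) ?_
    intro s t h
    have h' := congrArg Subtype.val h
    exact Subtype.ext (Subtype.ext h')
  obtain ⟨c, hc⟩ := Nat.dvd_factorial (Nat.card_pos (α := ψ.ker)) hle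
  have hT' : T' ∈ A := by rw [hA, pow_add, mul_smul, hT]
  obtain ⟨S, hS⟩ := ψ.range.nsmul_index_mem ⟨T', hT'⟩
  rw [AddSubgroup.index_range] at hS
  have hS' : φ S = Nat.card ψ.ker • T' := congrArg Subtype.val hS
  have h1 : φ (c • (S : D)) = o • 2 ^ b • T' := by
    rw [map_nsmul, hS', ← mul_smul, mul_comm c, ← hc, hb, mul_comm, mul_smul]
  obtain ⟨u, v, huv⟩ : IsCoprime (o : ℤ) (2 ^ k) :=
    (Int.isCoprime_iff_gcd_eq_one.2 (by
      have := (Nat.coprime_two_right.2 ho)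
      simpa [Int.gcd] using this)).pow_right
  refine ⟨k + b, u • c • (S : D), ?_, ?_⟩
  · rw [smul_comm, smul_comm (2 ^ (k + b)), (hA _).1 S.2, smul_zero, smul_zero]
  · have z : ((2 : ℤ) ^ k) • 2 ^ b • T' = 0 := by rw [← hT, ← natCast_zsmul _ (2 ^ k)]; push_cast; rfl
    rw [map_zsmul, h1, ← natCast_zsmul _ o, ← mul_smul]
    have : u * (o : ℤ) = 1 - v * 2 ^ k := by linear_combination huv
    rw [this, sub_smul, mul_smul, z, smul_zero, sub_zero, one_smul]

/-- The same with a bounded kernel. -/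
theorem onto' (hd : ∀ T : D, ∃ S : D, 2 • S = T) (h4 : V4 D) (φ : D →+ D) (a : ℕ)
    (hk : ∀ (n : ℕ) (T : D), 2 ^ n • T = 0 → φ T = 0 → 2 ^ a • T = 0) {k : ℕ} {T : D}
    (hT : 2 ^ k • T = 0) : ∃ (n : ℕ) (S : D), 2 ^ n • S = 0 ∧ φ S = T :=
  onto hd h4 φ ((h4.finite a).subset fun t ⟨⟨n, h⟩, h'⟩ => hk n t h h') hT

end Free

/-! ### Alternating forms -/

section Alt

/-- First moment bound. -/
theorem moment {X D S : Type*} [AddCommGroup X] [Finite X] [AddCommGroup D] (s : Finset S)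
    (ev : S → X →+ D) (b : S → D) (h : ∀ a ∈ s, s.card < 2 * Nat.card (ev a).range) :
    ∃ x : X, ∀ a ∈ s, ∀ a' ∈ s, ev a x = b a → ev a' x = b a' → a = a' := by
  classical
  have := Fintype.ofFinite X
  by_contra hc
  push Not at hc
  have h1 : ∀ x : X, 2 ≤ (s.filter fun a => ev a x = b a).card := by
    intro x
    obtain ⟨a, ha, a', ha', e, e', hne⟩ := hc x
    exact Finset.one_lt_card.2 ⟨a, Finset.mem_filter.2 ⟨ha, e⟩, a', Finset.mem_filter.2 ⟨ha', e'⟩, hne⟩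
  have h2 : ∀ a ∈ s, (Finset.univ.filter fun x : X => ev a x = b a).card * s.card <
      2 * Fintype.card X := by
    intro a ha
    have hp : 0 < Fintype.card X := Fintype.card_pos
    rcases (Finset.univ.filter fun x : X => ev a x = b a).eq_empty_or_nonempty with e | ⟨x₀, hx₀⟩
    · rw [e]; simpa using hp
    · have e0 : ev a x₀ = b a := (Finset.mem_filter.1 hx₀).2
      have e1 : (Finset.univ.filter fun x : X => ev a x = b a).card = Nat.card (ev a).ker := by
        rw [← Fintype.card_coe, ← Nat.card_eq_fintype_card]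
        refine Nat.card_congr ⟨fun x => ⟨x.1 - x₀, ?_⟩, fun y => ⟨y.1 + x₀, ?_⟩, ?_, ?_⟩
        · rw [AddMonoidHom.mem_ker, map_sub, (Finset.mem_filter.1 x.2).2, e0, sub_self]
        · simp [(AddMonoidHom.mem_ker).1 y.2, e0]
        · intro x; simp
        · intro y; simp
      have e2 := (ev a).ker.card_mul_index
      rw [AddSubgroup.index_ker, Nat.card_eq_fintype_card (α := X)] at e2
      have e3 : 0 < Nat.card (ev a).ker := Nat.card_pos
      rw [e1, ← e2]
      nlinarith [h a ha]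
  have h3 : ∑ x : X, (s.filter fun a => ev a x = b a).card =
      ∑ a ∈ s, (Finset.univ.filter fun x : X => ev a x = b a).card := by
    simp only [Finset.card_filter]
    exact Finset.sum_comm
  have h4 : 2 * Fintype.card X ≤ ∑ x : X, (s.filter fun a => ev a x = b a).card := by
    have := Finset.card_nsmul_le_sum Finset.univ _ 2 fun x _ => h1 x
    simpa [mul_comm] using this
  have hne : s.Nonempty := by
    obtain ⟨a, ha, -⟩ := hc 0
    exact ⟨a, ha⟩
  have h5 := Finset.sum_lt_sum_of_nonempty hne h2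
  rw [← Finset.sum_mul, ← h3, Finset.sum_const, smul_eq_mul] at h5
  nlinarith [hne.card_pos]

variable {S : Type*} [AddCommGroup S] [Module (ZMod 2) S] [Finite S]

/-- For any choice of functionals `b a`, some member of `X` agrees with `b` at one nonzero vector
at most. -/
theorem alt (X : AddSubgroup (S →ₗ[ZMod 2] S →ₗ[ZMod 2] ZMod 2))
    (hX : ∀ a : S, a ≠ 0 → ∀ φ : S →ₗ[ZMod 2] ZMod 2, φ a = 0 → ∃ x ∈ X, x a = φ)
    (b : S → S →ₗ[ZMod 2] ZMod 2) :
    ∃ x ∈ X, ∀ a a' : S, a ≠ 0 → a' ≠ 0 → x a = b a → x a' = b a' → a = a' := by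
  classical
  have := Fintype.ofFinite S
  have fD : Finite (S →ₗ[ZMod 2] ZMod 2) := Finite.of_injective _ DFunLike.coe_injective
  have fX : Finite (S →ₗ[ZMod 2] S →ₗ[ZMod 2] ZMod 2) :=
    Finite.of_injective _ DFunLike.coe_injective
  let ev : S → X →+ (S →ₗ[ZMod 2] ZMod 2) := fun a =>
    { toFun := fun x => x.1 a, map_zero' := rfl, map_add' := fun _ _ => rfl }
  obtain ⟨x, hx⟩ := moment (Finset.univ.erase (0 : S)) ev b (by
    intro a ha
    have a0 : a ≠ 0 := Finset.ne_of_mem_erase ha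
    let ε : (S →ₗ[ZMod 2] ZMod 2) →+ ZMod 2 :=
      { toFun := fun φ => φ a, map_zero' := rfl, map_add' := fun _ _ => rfl }
    have h1 : ε.ker ≤ (ev a).range := fun φ hφ => by
      obtain ⟨x, hx, e⟩ := hX a a0 φ hφ
      exact ⟨⟨x, hx⟩, e⟩
    have h2 := AddSubgroup.card_le_of_le h1
    have h3 := ε.ker.card_mul_index
    rw [AddSubgroup.index_ker] at h3
    have h4 : Nat.card ε.range ≤ 2 := by
      simpa using AddSubgroup.card_le_card_addGroup ε.range
    have h5 : Nat.card (S →ₗ[ZMod 2] ZMod 2) = Fintype.card S := by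
      rw [← Nat.card_eq_fintype_card, Module.natCard_eq_pow_finrank (K := ZMod 2),
        Module.natCard_eq_pow_finrank (K := ZMod 2) (V := S)]
      exact congrArg _ Subspace.dual_finrank_eq
    rw [Finset.card_erase_of_mem (Finset.mem_univ _), Finset.card_univ]
    have h6 : 0 < Fintype.card S := Fintype.card_pos
    have h7 : Fintype.card S ≤ 2 * Nat.card (ev a).range := by nlinarith
    omega)
  exact ⟨x.1, x.2, fun a a' a0 a0' => hx a (by simpa using a0) a' (by simpa using a0')⟩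

/-- The same for a set of forms that is closed under addition and contains all the wedges. -/
theorem alt' (X : Set (S →ₗ[ZMod 2] S →ₗ[ZMod 2] ZMod 2)) (h0 : 0 ∈ X)
    (hadd : ∀ x ∈ X, ∀ y ∈ X, x + y ∈ X)
    (hw : ∀ lam mu : S →ₗ[ZMod 2] ZMod 2, ∃ x ∈ X, ∀ a a', x a a' = lam a * mu a' + mu a * lam a')
    (b : S → S →ₗ[ZMod 2] ZMod 2) :
    ∃ x ∈ X, ∀ a a' : S, a ≠ 0 → a' ≠ 0 → x a = b a → x a' = b a' → a = a' := by
  refine alt ⟨⟨⟨X, fun hx hy => hadd _ hx _ hy⟩, h0⟩, fun {x} hx => ?_⟩ ?_ b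
  · have : -x = x := by
      ext a a'
      simp
    rwa [this]
  · intro a a0 φ hφ
    obtain ⟨mu, hmu⟩ := Module.Projective.exists_dual_eq_one (ZMod 2) a0
    obtain ⟨x, hx, e⟩ := hw φ mu
    exact ⟨x, hx, LinearMap.ext fun a' => by rw [e, hφ, hmu]; simp⟩

/-- The matrix form: `X` is a set of matrices. -/
theorem altM {ι : Type*} [Fintype ι] (X : Set (ι → ι → ZMod 2)) (h0 : 0 ∈ X)
    (hadd : ∀ x ∈ X, ∀ y ∈ X, x + y ∈ X)
    (hw : ∀ lam mu : ι → ZMod 2, (fun i j => lam i * mu j + mu i * lam j) ∈ X)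
    (b : (ι → ZMod 2) → ι → ZMod 2) :
    ∃ x ∈ X, ∀ a a' : ι → ZMod 2, a ≠ 0 → a' ≠ 0 → (∀ j, ∑ i, a i * x i j = b a j) →
      (∀ j, ∑ i, a' i * x i j = b a' j) → a = a' := by
  classical
  let X' : AddSubgroup (ι → ι → ZMod 2) := ⟨⟨⟨X, fun hx hy => hadd _ hx _ hy⟩, h0⟩, fun {x} hx => by
    have : -x = x := by
      ext a a'
      simp
    rwa [this]⟩
  let ev : (ι → ZMod 2) → X' →+ (ι → ZMod 2) := fun a =>
    { toFun := fun x j => ∑ i, a i * x.1 i j
      map_zero' := by ext j; simp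
      map_add' := fun x y => by ext j; simp [mul_add, Finset.sum_add_distrib] }
  obtain ⟨x, hx⟩ := moment (Finset.univ.erase (0 : ι → ZMod 2)) ev b (by
    intro a ha
    obtain ⟨i₀, hi₀⟩ := Function.ne_iff.1 (Finset.ne_of_mem_erase ha)
    have a1 : a i₀ = 1 := (by decide : ∀ t : ZMod 2, t ≠ 0 → t = 1) _ hi₀
    let ε : (ι → ZMod 2) →+ ZMod 2 :=
      { toFun := fun φ => ∑ i, a i * φ i
        map_zero' := by simp
        map_add' := fun x y => by simp [mul_add, Finset.sum_add_distrib] }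
    have h1 : ε.ker ≤ (ev a).range := fun φ hφ => by
      refine ⟨⟨_, hw φ (Pi.single i₀ 1)⟩, funext fun j => ?_⟩
      have hφ' : ∑ i, a i * φ i = 0 := hφ
      show ∑ i, a i * (φ i * (Pi.single i₀ 1 : ι → ZMod 2) j +
        (Pi.single i₀ 1 : ι → ZMod 2) i * φ j) = φ j
      simp only [mul_add, Finset.sum_add_distrib, ← mul_assoc, ← Finset.sum_mul, hφ']
      simp [Pi.single_apply, a1]
    have h2 := AddSubgroup.card_le_of_le h1
    have h3 := ε.ker.card_mul_index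
    rw [AddSubgroup.index_ker, Nat.card_eq_fintype_card (α := ι → ZMod 2)] at h3
    have h4 : Nat.card ε.range ≤ 2 := by
      simpa using AddSubgroup.card_le_card_addGroup ε.range
    rw [Finset.card_erase_of_mem (Finset.mem_univ _), Finset.card_univ]
    have h6 : 0 < Fintype.card (ι → ZMod 2) := Fintype.card_pos
    have h7 : Fintype.card (ι → ZMod 2) ≤ 2 * Nat.card (ev a).range := by nlinarith
    omega)
  exact ⟨x.1, x.2, fun a a' a0 a0' e e' =>
    hx a (by simpa using a0) a' (by simpa using a0') (funext e) (funext e')⟩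

end Alt

end Pool.Agent.Lib.MP_d6ddbd_nt.KI.Alg0
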