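import Pool.Agent.Lib.MP_d6ddbd_nt.KI.Stmt
import Pool.Agent.Lib.MP_d6ddbd_nt.KI.Alg0
import Pool.Agent.Lib.MP_d6ddbd_nt.K11.R1

/-!
Involutions on the torsion points, and the choice of an alternating matrix.
-/

set_option autoImplicit false

open Pool.Agent.Lib.MP_02f36d_nt (xc yc pt_ext)
open Pool.Agent.Lib.MP_d6ddbd_nt.K11

noncomputable section

namespace Pool.Agent.Lib.MP_d6ddbd_nt.KI

namespace Fr

theorem half (T : Pt) : ∃ S : Pt, 2 • S = T := r1_thm.1.2.2.2.2.2 T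

theorem v4 : Alg0.V4 Pt := by
  obtain ⟨-, -, h1, h2, ⟨e₁, e₂, e₃, hf, -⟩, -⟩ := r1_thm
  refine ⟨pt e₁ 0, pt e₂ 0, pt e₃ 0, fun T hT => ?_⟩
  by_cases h0 : T = 0
  · exact Or.inl h0
  obtain ⟨hy, hx⟩ := ((h2 T).1 hT).resolve_left h0
  have key : ∀ e : ℂ, xc T = e → T = pt e 0 := by
    rintro _ rfl
    obtain ⟨a, b, c⟩ := h1 (xc T) 0 (by rw [hx]; ring)
    exact pt_ext h0 a b.symm (hy.trans c.symm)
  rw [hf, mul_eq_zero, mul_eq_zero, sub_eq_zero, sub_eq_zero, sub_eq_zero] at hx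
  rcases hx with (hx | hx) | hx
  · exact Or.inr (Or.inl (key _ hx))
  · exact Or.inr (Or.inr (Or.inl (key _ hx)))
  · exact Or.inr (Or.inr (Or.inr (key _ hx)))

/-- The endomorphism `η f`. -/
def FF (η : ℤ) (f : G) : Pt →+ Pt := η • DistribSMul.toAddMonoidHom Pt f

theorem FF_apply (η : ℤ) (f : G) (T : Pt) : FF η f T = η • f • T := rfl

theorem sgn {η : ℤ} (hη : η = 1 ∨ η = -1) {T : Pt} (h : 2 • T = 0) : η • T = T := by
  rcases hη with rfl | rfl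
  · exact one_zsmul T
  · rw [neg_zsmul, one_zsmul, neg_eq_iff_add_eq_zero, ← two_nsmul, h]

theorem FF_FF {η : ℤ} (hη : η = 1 ∨ η = -1) {f : G} {T : Pt} (h : f • f • T = T) :
    FF η f (FF η f T) = T := by
  rw [FF_apply η f T, map_zsmul, FF_apply, h]
  rcases hη with rfl | rfl <;> simp

theorem FF_ne {η : ℤ} (hη : η = 1 ∨ η = -1) {f : G} (h : ∃ T : Pt, 2 • T = 0 ∧ f • T ≠ T) :
    ∃ T : Pt, 2 • T = 0 ∧ FF η f T ≠ T := by
  obtain ⟨T, h2, hn⟩ := h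
  refine ⟨T, h2, ?_⟩
  have : FF η f T = f • η • T := (map_zsmul (DistribSMul.toAddMonoidHom Pt f) η T).symm
  rwa [this, sgn hη h2]

/-- The norms `η f T + T` are the multiples of one norm of exact order `2 ^ k`. -/
theorem norm (k : ℕ) (f : G) {η : ℤ} (hη : η = 1 ∨ η = -1)
    (hf : ∀ T : Pt, 2 ^ k • T = 0 → f • f • T = T) (hn : ∃ T : Pt, 2 • T = 0 ∧ f • T ≠ T) :
    ∃ e : Pt, 2 ^ k • e = 0 ∧
      (∀ T : Pt, 2 ^ k • T = 0 → ∃ u : ℤ, η • f • T + T = u • (η • f • e + e)) ∧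
      ∀ u : ℤ, u • (η • f • e + e) = 0 → 2 ^ k ∣ u :=
  Alg0.frC half v4 (FF η f) k (fun T h => FF_FF hη (hf T h)) (FF_ne hη hn)

end Fr

theorem fr_thm : FrStmt := by
  intro k f η hη hf hn
  refine ⟨fun T hT h => Alg0.frA Fr.half Fr.v4 (Fr.FF η f) k (fun T h => Fr.FF_FF hη (hf T h))
    (Fr.FF_ne hη hn) hT h, fun u T T' hT hT' e e' => ?_⟩
  rcases k with _ | k
  · exact Or.inl ⟨0, by simpa using hT⟩
  · exact Alg0.frB' Fr.v4 (Fr.FF η f) (k + 1)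
      (fun T h => Fr.FF_FF hη (hf T (by rw [pow_succ, mul_smul, h, nsmul_zero])))
      (Fr.FF_ne hη hn) u hT hT' e e'

theorem alt_thm : AltStmt := by
  intro r b
  obtain ⟨M, ⟨h1, h2⟩, h⟩ := Alg0.altM
    {M : Fin r → Fin r → ZMod 2 | (∀ i j, M i j = M j i) ∧ ∀ i, M i i = 0}
    ⟨fun _ _ => rfl, fun _ => rfl⟩
    (fun x hx y hy => ⟨fun i j => by simp [hx.1 i j, hy.1 i j], fun i => by simp [hx.2 i, hy.2 i]⟩)
    (fun lam mu => ⟨fun i j => by ring, fun i => by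
      show lam i * mu i + mu i * lam i = 0
      rw [mul_comm (mu i)]; exact CharTwo.add_self_eq_zero _⟩) b
  exact ⟨M, h1, h2, h⟩

end Pool.Agent.Lib.MP_d6ddbd_nt.KI
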