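import Pool.Agent.Lib.MP_d6ddbd_nt.KI.Stmt
import Pool.Agent.Lib.MP_d6ddbd_nt.K11.CK1
import Pool.Agent.Lib.MP_d6ddbd_nt.K11.Cheb1
import Pool.Agent.Lib.MP_d6ddbd_nt.K11.V1
import Pool.Agent.Lib.MP_d6ddbd_nt.K11.V2
import Pool.Agent.Lib.MP_d6ddbd_nt.K11.V3
import Pool.Agent.Lib.MP_d6ddbd_nt.K11.V4
import Pool.Agent.Lib.MP_d6ddbd_nt.K11.R1
import Pool.Agent.Lib.MP_d6ddbd_nt.K11.R2
import Pool.Agent.Lib.MP_d6ddbd_nt.K11.Pr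
import Pool.Agent.Lib.MP_d6ddbd_nt.K11.Link1

/-!
The finite part at a prime of type one.
-/

set_option autoImplicit false

open NumberField IsDedekindDomain Pointwise
open Pool.Agent.Stark (Pr og hq LSq pw)
open Pool.Agent.Lib.MP_d6ddbd_nt.K11

noncomputable section

namespace Pool.Agent.Lib.MP_d6ddbd_nt.KI

theorem fv_of (hV : VStmt) (hPr : PrStmt) (hL : Link1Stmt) : FvStmt := by
  intro L _ _ θ hθ p O φ e α s hp p2 p11 hnr hO hφ h1 hα hev hs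
  obtain ⟨𝔭, h𝔭, hb⟩ := hV.1.2.2.1 L e p O hp hO
  have hm : 𝔭 ∈ ab L p := (mem_ab' hp.ne_zero).2 h𝔭
  obtain ⟨r1, r2, -, r4, -⟩ := ((hPr L θ hθ).2.2.1 p hp p2 p11).1 𝔭 hm
  have hne := CK.xr_ne hPr hθ
  have hnm : nm 𝔭 = p := by
    have h0 : θ ≠ 0 := fun h => hne 0 (by simp [h])
    obtain ⟨n, h3⟩ := Cheb.exists_int hp hO hφ (CK.alg_emb e θ)
      ((hb θ h0).2 ((hPr L θ hθ).2.2.2.2.1 𝔭).1) h1
    have h4 : 0 < og 𝔭 ((n : L) - θ) :=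
      (hV.1.2.2.2.1 L e O 𝔭 hb _ (hne n)).1 (by simpa using h3)
    have h5 : ((xr θ 𝔭 : ℤ) : L) - θ ∈ pw (𝔭.valuation L) 1 :=
      Classical.epsilon_spec (p := fun x : ℤ => (x : L) - θ ∈ pw (𝔭.valuation L) 1)
        ⟨n, Pool.Agent.Stark.mem_pw_iff.2 (Or.inr h4)⟩
    exact r4.2 ((Pool.Agent.Stark.mem_pw_iff.1 h5).resolve_left (hne _))
  have hfil : ((ab L p).filter fun 𝔮 => nm 𝔮 = p) = {𝔭} := by
    obtain ⟨𝔟, -, k1, k3⟩ := CK.pair hPr hθ hp p2 p11 hm hnm hnr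
    ext 𝔮
    rw [Finset.mem_filter, Finset.mem_singleton]
    refine ⟨fun h => ((k1 𝔮).1 h.1).resolve_right fun k => ?_, fun h => h ▸ ⟨hm, hnm⟩⟩
    exact CK.sq_ne hp (by norm_num) (k3.symm.trans (k ▸ h.2))
  have hl := (((hL L θ hθ).1 e O 𝔭 p α s hp p2 p11 hm hb hα hs).2 φ
    (by rw [hnm]; exact hφ) (hev 𝔭 hm)).2
  rw [fv, hfil, Finset.sum_singleton, Cheb.hq_unr 𝔭 r2 hα (hev 𝔭 hm) r1, hl]
  split_ifs with h <;> simp [h]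

theorem fv_thm : FvStmt :=
  have hV : VStmt := ⟨v1_thm, v2_thm, v3_thm v1_thm, v4_thm v1_thm⟩
  fv_of hV pr_thm (link1_thm hV ⟨r1_thm, r2_thm v1_thm v2_thm r1_thm⟩ pr_thm)

end Pool.Agent.Lib.MP_d6ddbd_nt.KI
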