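import Pool.Agent.Lib.MP_d6ddbd_nt.KI.Stmt
import Pool.Agent.Lib.MP_d6ddbd_nt.KI.Alg0
import Pool.Agent.Lib.MP_d6ddbd_nt.K11.V1
import Pool.Agent.Lib.MP_d6ddbd_nt.K11.V2
import Pool.Agent.Lib.MP_d6ddbd_nt.K11.R1
import Pool.Agent.Lib.MP_d6ddbd_nt.K11.R2
import Pool.Agent.Lib.MP_d6ddbd_nt.K11.Cheb1

/-!
Unramified classes at a prime of good reduction satisfy the local Kummer condition.
-/

set_option autoImplicit false

open NumberField IsDedekindDomain Pointwise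
open Pool.Agent.Lib.MP_02f36d_nt (xc yc)
open Pool.Agent.Lib.MP_d6ddbd_nt.K11

noncomputable section

namespace Pool.Agent.Lib.MP_d6ddbd_nt.KI

namespace Gd

theorem sn (σ : G) (n : ℕ) (P : Pt) : σ • n • P = n • σ • P :=
  map_nsmul (DistribSMul.toAddMonoidHom Pt σ) n P

theorem sz (σ : G) (n : ℤ) (P : Pt) : σ • n • P = n • σ • P :=
  map_zsmul (DistribSMul.toAddMonoidHom Pt σ) n P

theorem cq_sq (c : ℤ) (σ : G) : cq c σ * cq c σ = 1 := by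
  unfold cq
  split_ifs <;> simp

theorem cq_mul (c : ℤ) (σ τ : G) : cq c (σ * τ) = cq c σ * cq c τ := by
  have e : (σ * τ) (rt c) = σ (τ (rt c)) := rfl
  by_cases h0 : rt c = 0
  · simp [cq, h0]
  have h1 : -rt c ≠ rt c := fun h => h0 (by linear_combination (-1 / 2) * h)
  unfold cq
  rcases V2.sq_cases σ (rt_sq c) with a | a <;> rcases V2.sq_cases τ (rt_sq c) with b | b <;>
    simp [e, a, b, h1]

theorem tw_mul (c : ℤ) (σ τ : G) (P : Pt) : tw c (σ * τ) P = tw c σ (tw c τ P) := by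
  rw [tw, tw, tw, cq_mul, sz, mul_smul, mul_smul]

theorem v4 (hR : R1Stmt) : Alg0.V4 Pt := by
  obtain ⟨-, -, hpt, h2, ⟨e₁, e₂, e₃, hf, -⟩, -⟩ := hR
  refine ⟨pt e₁ 0, pt e₂ 0, pt e₃ 0, fun T hT => ?_⟩
  by_cases h0 : T = 0
  · exact Or.inl h0
  obtain ⟨hy, hx⟩ := ((h2 T).1 hT).resolve_left h0
  have h3 : T = pt (xc T) 0 := by
    obtain ⟨b1, b2, b3⟩ := hpt (xc T) 0 (by rw [hx]; ring)
    exact act_ext (by simp [h0, b1]) b2.symm (hy.trans b3.symm)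
  rw [hf, mul_eq_zero, mul_eq_zero, sub_eq_zero, sub_eq_zero, sub_eq_zero] at hx
  rcases hx with (hx | hx) | hx <;> rw [hx] at h3 <;> simp [← h3]

open Classical in
/-- The residue of a number. -/
def rs (O : ValuationSubring ℂ) (x : ℂ) : IsLocalRing.ResidueField O :=
  if h : x ∈ O then IsLocalRing.residue O ⟨x, h⟩ else 0

theorem rs_eq {O : ValuationSubring ℂ} {x y : ℂ} (hx : x ∈ O) (hy : y ∈ O) (n : ℕ) :
    rs O x = rs O y ^ n ↔ x - y ^ n ∈ O.nonunits := by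
  rw [rs, rs, dif_pos hx, dif_pos hy, ← map_pow, ← sub_eq_zero, ← map_sub, ← Cheb.res0]
  rfl

/-- A Frobenius element fixes only finitely many points of two-power order. -/
theorem fix_fin (hR : RStmt) {O : ValuationSubring ℂ} {v : ℕ} (hv : v.Prime) (h2 : v ≠ 2)
    (h11 : v ≠ 11) (hO : Ov O v) {Q : ℕ} (hQ : 1 < Q) {φ : G} (hφ : Frob O Q φ) :
    {T : Pt | (∃ n : ℕ, 2 ^ n • T = 0) ∧ φ • T = T}.Finite := by
  obtain ⟨r1, r2, -, -, r5, -⟩ := hR.2 v O hv h2 h11 hO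
  have f1 : {z : IsLocalRing.ResidueField O | z = z ^ Q}.Finite :=
    (Polynomial.finite_setOfPred_isRoot (FiniteField.X_pow_card_sub_X_ne_zero _ hQ)).subset
      fun z hz => by
        have hz' : z = z ^ Q := hz
        simp [← hz']
  have mem : ∀ (n : ℕ) (T : Pt), 2 ^ n • T = 0 → T ≠ 0 → xc T ∈ O ∧ yc T ∈ O := fun n T a b => by
    have c : xc T ∈ O := by_contra fun c => b (r5 n T a ((r1 T).2 (Or.inr c)))
    exact ⟨c, (r2 T T b b c).1⟩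
  refine ((Set.finite_singleton (0 : Pt)).union (Set.Finite.of_injOn
    (s := {T : Pt | T ≠ 0 ∧ (∃ n : ℕ, 2 ^ n • T = 0) ∧ φ • T = T})
    (f := fun T => (rs O (xc T), rs O (yc T))) ?_ ?_ (f1.prod f1))).subset fun T hT => ?_
  · rintro T ⟨a, ⟨n, b⟩, c⟩
    obtain ⟨m1, m2⟩ := mem n T b a
    obtain ⟨a1, a2⟩ := (Cheb.tors hR.1 n).2 T b
    have c1 := (hφ _ a1 m1).2
    have c2 := (hφ _ a2 m2).2
    rw [← xc_smul, c] at c1
    rw [← yc_smul, c] at c2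
    exact ⟨(rs_eq m1 m1 Q).2 c1, (rs_eq m2 m2 Q).2 c2⟩
  · rintro T ⟨a, ⟨n, b⟩, -⟩ T' ⟨a', ⟨n', b'⟩, -⟩ h
    obtain ⟨m1, m2⟩ := mem n T b a
    obtain ⟨m1', m2'⟩ := mem n' T' b' a'
    obtain ⟨e1, e2⟩ := Prod.ext_iff.1 h
    have g1 := (rs_eq m1 m1' 1).1 (by rw [pow_one]; exact e1)
    have g2 := (rs_eq m2 m2' 1).1 (by rw [pow_one]; exact e2)
    rw [pow_one] at g1 g2
    rw [← sub_eq_zero]
    refine r5 (n + n') _ ?_ ((r2 T T' a a' m1').2.2 ⟨g1, g2⟩)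
    rw [nsmul_sub, pow_add, mul_smul, mul_smul, b', smul_comm, b, nsmul_zero, nsmul_zero, sub_zero]
  · by_cases h : T = 0
    · exact Or.inl h
    · exact Or.inr ⟨h, hT⟩

theorem frob_pow {O : ValuationSubring ℂ} {v : ℕ} {φ : G} (hφ : Frob O v φ) (n : ℕ) :
    Frob O (v ^ n) (φ ^ n) := by
  induction n with
  | zero => exact fun x _ hx => ⟨hx, by simp⟩
  | succ n ih => rw [pow_succ, pow_succ]; exact V2.c1 ih hφ

/-- The statement with a torsion point. -/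
theorem gd_tors (hV : V1Stmt) (hR : RStmt) {c : ℤ} {k v : ℕ} {x : G → Pt}
    {O : ValuationSubring ℂ} (hv : v.Prime) (h2 : v ≠ 2) (h11 : v ≠ 11) (hO : Ov O v)
    (hx : Cy c k x) (hc : ∀ σ, Frob O 1 σ → cq c σ = 1) (hI : ∀ σ, Frob O 1 σ → x σ = 0) :
    ∃ (n : ℕ) (T : Pt), 2 ^ n • T = 0 ∧ ∀ σ, Wl O v σ → x σ = tw c σ T - T := by
  obtain ⟨φ, hφ⟩ := hV.2.2.2.2 v O hv hO
  obtain ⟨-, -, r3, -, r5, -⟩ := hR.2 v O hv h2 h11 hO
  let F : Pt →+ Pt := cq c φ • DistribSMul.toAddMonoidHom Pt φ - AddMonoidHom.id Pt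
  have hF : ∀ T, F T = tw c φ T - T := fun T => rfl
  obtain ⟨n, T, hT, e⟩ := Alg0.onto hR.1.1.2.2.2.2.2 (v4 hR.1) F
    ((fix_fin hR hv h2 h11 hO (Q := v * v) (by have := hv.one_lt; nlinarith)
      (V2.c1 hφ hφ)).subset fun T ⟨a, b⟩ => ⟨a, by
        rw [hF, sub_eq_zero] at b
        have := tw_mul c φ φ T
        rwa [b, b, tw, cq_mul, cq_sq, one_zsmul] at this⟩) (hx.tor φ)
  have fx : ∀ σ, Frob O 1 σ → tw c σ T = T := fun σ hσ => by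
    rw [tw, hc σ hσ, one_zsmul, ← sub_eq_zero]
    refine r5 n _ ?_ (r3 σ T hσ ((Cheb.tors hR.1 n).2 T hT))
    rw [nsmul_sub, ← sn, hT, (smul_eq_zero' σ 0).2 rfl, sub_zero]
  have pw : ∀ m : ℕ, x (φ ^ m) = tw c (φ ^ m) T - T := fun m => by
    induction m with
    | zero =>
      have := frob_pow hφ 0
      rw [pow_zero v] at this
      rw [hI _ this, fx _ this, sub_self]
    | succ m ih =>
      rw [pow_succ, hx.mul, ih, ← e, hF, tw_mul]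
      generalize tw c φ T = X
      rw [tw, tw, tw, smul_sub (φ ^ m), zsmul_sub]
      abel
  refine ⟨n, T, hT, fun σ ⟨m, hσ⟩ => ?_⟩
  have hι := V2.c3 hv hO (frob_pow hφ m) hσ
  have e' : σ = φ ^ m * ((φ ^ m)⁻¹ * σ) := (mul_inv_cancel_left _ _).symm
  rw [e', hx.mul, tw_mul, hI _ hι, fx _ hι, pw, tw, tw, (smul_eq_zero' _ 0).2 rfl, zsmul_zero,
    add_zero]

end Gd

theorem gd_thm : GdStmt := fun _ _ _ _ _ hv h2 h11 hO hx hc hI => by
  obtain ⟨n, T, hT, h⟩ := Gd.gd_tors v1_thm ⟨r1_thm, r2_thm v1_thm v2_thm r1_thm⟩ hv h2 h11 hO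
    hx hc hI
  exact ⟨T, (Cheb.tors r1_thm n).2 T hT, h⟩

end Pool.Agent.Lib.MP_d6ddbd_nt.KI
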