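import Pool.Agent.Lib.MP_d6ddbd_nt.KI.Stmt
import Pool.Agent.Lib.MP_d6ddbd_nt.KI.Ep

/-!
The Heisenberg extension attached to a basis of the Selmer classes of level one: every alternating
matrix is the value of the splittings on a product of commutators.
-/

set_option autoImplicit false
set_option maxSynthPendingDepth 3

open Pool.Agent.Lib.MP_02f36d_nt (xc yc)
open Pool.Agent.Lib.MP_d6ddbd_nt.K11 Pool.Agent.Lib.MP_d6ddbd_nt.K11.R1

noncomputable section

namespace Pool.Agent.Lib.MP_d6ddbd_nt.KI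

namespace Heis

theorem ep_eq : ep = Ep.ep := rfl

variable {c : ℤ} {x y : G → Pt}

theorem tw_two (c : ℤ) (σ : G) {T : Pt} (h : 2 • T = 0) : tw c σ T = σ • T := by
  unfold tw cq
  split_ifs
  · rw [one_smul]
  · rw [neg_smul, one_smul, Ep.neg_two (Ep.two_smul' σ h)]

theorem tor (h : Cy c 1 x) (σ : G) : 2 • x σ = 0 := by simpa using h.tor σ

theorem mul (h : Cy c 1 x) (σ τ : G) : x (σ * τ) = x σ + σ • x τ := by
  rw [h.mul, tw_two _ _ (tor h τ)]

theorem one (h : Cy c 1 x) : x 1 = 0 := by simpa using mul h 1 1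

theorem fn (h : Cy c 1 x) : Fn x := by
  obtain ⟨J, h1, h2⟩ := h.fin
  refine ⟨J, h1, fun σ τ a => ?_⟩
  have e : x (τ⁻¹ * σ) = 0 := h2 _ fun z hz => by
    rw [RingAut.mul_apply, a z hz, ← RingAut.mul_apply, inv_mul_cancel, RingAut.one_apply]
  have := mul h τ (τ⁻¹ * σ)
  rwa [mul_inv_cancel_left, e, smul_zero, add_zero] at this

theorem act {σ τ : G} (h : Ag Ep.Rt σ τ) {T : Pt} (hT : 2 • T = 0) : σ • T = τ • T := by
  rcases (two_iff T).1 hT with e | e
  · rw [e, smul_zero, smul_zero]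
  · exact Ep.smul_congr (h _ (Ep.mem_Rt.2 e.2)) (by rw [e.1, map_zero, map_zero])

theorem c2 (hx : Cy c 1 x) (hy : Cy c 1 y) : C2 (cup x y) := by
  classical
  obtain ⟨J, j1, j2⟩ := fn hx
  obtain ⟨K, k1, k2⟩ := fn hy
  refine ⟨⟨J ∪ K ∪ Ep.Rt, fun z hz => ?_, fun σ σ' τ τ' a b => ?_⟩, fun σ τ υ => ?_⟩
  · rcases Finset.mem_union.1 hz with hz | hz
    · exact (Finset.mem_union.1 hz).elim (j1 z) (k1 z)
    · exact mem_algebraicClosure_iff.1 (Ep.alg_root (Ep.mem_Rt.1 hz))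
  · rw [cup, cup, j2 σ σ' fun z hz => a z (by simp [hz]), k2 τ τ' fun z hz => b z (by simp [hz]),
      act (fun z hz => a z (by simp [hz])) (tor hy τ')]
  · have t := fun σ τ => Ep.two_smul' σ (tor hy τ)
    simp only [cup, ep_eq]
    rw [mul hx, mul hy, smul_add, mul_smul, Ep.ep_add_right (tor hx σ) (t σ τ)
      (Ep.two_smul' σ (t τ υ)), Ep.ep_add_left (tor hx σ) (Ep.two_smul' σ (tor hx τ))
      (Ep.two_smul' σ (t τ υ)), Ep.ep_smul]
    ring

theorem hm_one : Hm 1 ∅ 1 := ⟨one_mem _, fun T _ => one_smul _ T, by simp⟩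

theorem hm_mul {g h : G} (a : Hm 1 ∅ g) (b : Hm 1 ∅ h) : Hm 1 ∅ (g * h) :=
  ⟨mul_mem a.cm b.cm, fun T hT => by rw [mul_smul, b.tor T hT, a.tor T hT], by simp⟩

theorem hm_inv {g : G} (a : Hm 1 ∅ g) : Hm 1 ∅ g⁻¹ :=
  ⟨inv_mem a.cm, fun T hT => by rw [inv_smul_eq_iff, a.tor T hT], by simp⟩

theorem add (hx : Cy c 1 x) {g : G} (a : Hm 1 ∅ g) (τ : G) : x (g * τ) = x g + x τ := by
  rw [mul hx, a.tor _ (hx.tor τ)]

theorem sg_mul {η : G → ZMod 2} (hy : Cy c 1 y) (h : Sg (cup x y) η) {g : G} (a : Hm 1 ∅ g)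
    (τ : G) : η (g * τ) = η g + η τ + ep (x g) (y τ) := by
  have := h.2 g τ
  rw [cup, a.tor _ (hy.tor τ)] at this
  rw [this]
  generalize η (g * τ) = u
  generalize η g = v
  generalize η τ = w
  revert u v w
  decide

theorem ex_pt : ∃ T : Pt, 2 • T = 0 ∧ cj • T ≠ T := by
  obtain ⟨a, b, e, h, -, -, n, -, k, -⟩ := roots
  have hb : fc b = 0 := by rw [h]; ring
  obtain ⟨-, p1, p2⟩ := pt_spec (x := b) (y := 0) (by rw [hb]; ring)
  refine ⟨pt b 0, (two_iff _).2 (Or.inr ⟨p2, by rwa [p1]⟩), fun u => n ?_⟩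
  have := congrArg xc u
  rwa [xc_smul, p1, k, eq_comm] at this

theorem ep_val {T U : Pt} (h : ep T U = 1) (a b : ZMod 2) :
    ep (a.val • T) (b.val • U) = a * b ∧ ep (b.val • U) (a.val • T) = b * a := by
  have z : ∀ a : ZMod 2, a = 0 ∨ a = 1 := by decide
  have h' : ep U T = 1 := by rw [ep_eq, Ep.ep_comm]; exact h
  have v : (1 : ZMod 2).val = 1 := rfl
  rcases z a with rfl | rfl <;> rcases z b with rfl | rfl <;> simp [v, h, h'] <;> simp [ep]

end Heis

open Heis in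
theorem heis_thm (hI : IsoStmt) (hA : AbhnStmt) (hS : SurjStmt) : HeisStmt := by
  intro d r B hd hB hi
  have cy := fun i => (hB i).1.cy
  have ex : ∀ i j : Fin r, ∃ η, Sg (cup (B i.succ) (B j.succ)) η := fun i j =>
    hA _ (c2 (cy _) (cy _)) (fun v O hv hO => hI d v O _ _ hd.sf.ne_zero hv hO (tor (cy _))
      (tor (cy _)) ((hB _).1.kl v O hv (by simp) hO) ((hB _).1.kl v O hv (by simp) hO))
      (by simp [cup, (hB _).2, one (cy _), ep])
  choose ε hε using ex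
  obtain ⟨T, t2, tc⟩ := ex_pt
  have su := fun μ U hU => hS.1 0 1 ∅ d (r + 1) B μ U one_ne_zero (by simp [Wq]) hd.n11
    (fun i => ⟨cy i, fun O hO => (hB i).1.kl 11 O (by norm_num) (by simp) hO⟩) hi hU
  have e1 : ep T (cj • T) = 1 := by
    have t0 : T ≠ 0 := fun k => tc (by rw [k, smul_zero])
    simp [ep, t0, tc.symm, smul_eq_zero']
  obtain ⟨g, g1, g2⟩ := su (Fin.cons 1 0) T t2
  refine ⟨ε, g, hε, g1, fun i => by simp [g2], by simpa [g2, ZMod.val_one] using tc,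
    fun M m1 m2 => ?_⟩
  let X : (Fin r → Fin r → ZMod 2) → Prop := fun M =>
    ∃ h, Hm 1 ∅ h ∧ (∀ i, B i h = 0) ∧ ∀ i j, ε i j h = M i j
  have x0 : X 0 := ⟨1, hm_one, fun i => one (cy i), fun i j => by
    have := sg_mul (cy _) (hε i j) hm_one 1
    rw [mul_one, one (cy _)] at this
    simpa [ep] using this⟩
  have xa : ∀ M M', X M → X M' → X (M + M') := by
    rintro M M' ⟨h, a1, a2, a3⟩ ⟨h', b1, b2, b3⟩
    refine ⟨h * h', hm_mul a1 b1, fun i => by rw [add (cy i) a1, a2, b2, add_zero], fun i j => ?_⟩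
    rw [sg_mul (cy _) (hε i j) a1, a2, a3, b3]
    simp [ep]
  have xw : ∀ l μ : Fin r → ZMod 2, X fun i j => l i * μ j + l j * μ i := fun l μ => by
    obtain ⟨u, u1, u2⟩ := su (Fin.cons 0 l) T t2
    obtain ⟨w, w1, w2⟩ := su (Fin.cons 0 μ) (cj • T) (Ep.two_smul' cj t2)
    have hh := hm_mul (hm_mul u1 w1) (hm_inv (hm_mul w1 u1))
    have e : u * w * (w * u)⁻¹ * (w * u) = u * w := inv_mul_cancel_right _ _
    have z : ∀ i, B i (u * w * (w * u)⁻¹) = 0 := fun i => by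
      have := add (cy i) hh (w * u)
      rwa [e, add (cy i) u1, add (cy i) w1, add_comm (B i w), right_eq_add] at this
    refine ⟨_, hh, z, fun i j => ?_⟩
    have := sg_mul (cy _) (hε i j) hh (w * u)
    rw [e, z, sg_mul (cy _) (hε i j) u1, sg_mul (cy _) (hε i j) w1, u2, u2, w2, w2,
      Fin.cons_succ, Fin.cons_succ, Fin.cons_succ, Fin.cons_succ, (ep_val e1 _ _).1,
      (ep_val e1 _ _).2, ep_eq, Ep.ep_zero_left] at this
    have t : μ i * l j + μ i * l j = 0 := CharTwo.add_self_eq_zero _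
    linear_combination -this - t
  have xs : ∀ (s : Finset (Fin r)) (f : Fin r → Fin r → Fin r → ZMod 2), (∀ a, X (f a)) →
      X (∑ a ∈ s, f a) := fun s f hf =>
    Finset.sum_induction f X xa x0 fun a _ => hf a
  have := xs Finset.univ _ fun a => xw (Pi.single a 1) fun j => if a < j then M a j else 0
  obtain ⟨h, h1, h2, h3⟩ := this
  refine ⟨h, h1, h2, fun i j => ?_⟩
  rw [h3]
  simp only [Finset.sum_apply, Finset.sum_add_distrib, Pi.single_apply, ite_mul, one_mul, zero_mul,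
    Finset.sum_ite_eq, Finset.mem_univ, if_true]
  rcases lt_trichotomy i j with k | k | k
  · simp [k, k.not_gt]
  · simp [k, m2]
  · simp [k, k.not_gt, m1 i j]

end Pool.Agent.Lib.MP_d6ddbd_nt.KI
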