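import Pool.Agent.Lib.MP_d6ddbd_nt.KI.Loc0

/-!
Local tools: unramified two-cocycles split.
-/

set_option autoImplicit false

open Pool.Agent.Lib.MP_9177b7_ag

noncomputable section

namespace Pool.Agent.Lib.MP_d6ddbd_nt.K11

namespace Loc0

variable {O : ValuationSubring ℂ}

/-- An automorphism has finite order on a finite set of algebraic numbers. -/
theorem fin_ord (φ : G) (J : Finset ℂ) (hJ : ∀ x ∈ J, IsAlgebraic ℚ x) :
    ∃ M : ℕ, 0 < M ∧ ∀ x ∈ J, (φ ^ M) x = x := by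
  obtain ⟨K, _, _, _, j, hj⟩ := CM.Frob.exists_field J J.finite_toSet hJ
  obtain ⟨φ₀, h0⟩ := V4.res j φ
  refine ⟨orderOf φ₀, orderOf_pos φ₀, fun x hx => ?_⟩
  obtain ⟨y, rfl⟩ := hj x hx
  rw [← V4.res_pow j h0, pow_orderOf_eq_one]
  rfl

/-- Roots of unity of order prime to `v` are distinct modulo a place over `v`. -/
theorem root_eq {v D : ℕ} (hv : v.Prime) (hO : Ov O v) (hD : ¬ v ∣ D) {x y : ℂ} (hx : x ^ D = 1)
    (hy : y ^ D = 1) (h : x - y ∈ O.nonunits) : x = y := by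
  have D0 : D ≠ 0 := fun e => hD (e ▸ dvd_zero v)
  have m : ∀ z : ℂ, z ^ D = 1 → z ∈ O := fun z hz => V2.mem_of_pow D0 (hz ▸ one_mem O)
  by_contra hn
  have h1 : ∑ i ∈ Finset.range D, x ^ i * y ^ (D - 1 - i) = 0 := by
    have := Commute.geom_sum₂_mul (Commute.all x y) D
    rw [hx, hy, sub_self] at this
    exact (mul_eq_zero.1 this).resolve_right (sub_ne_zero.2 hn)
  have h2 : ∑ i ∈ Finset.range D, (x ^ i * y ^ (D - 1 - i) - y ^ (D - 1)) ∈ O.nonunits :=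
    sum_mem fun i hi => by
      have h3 : D - 1 = i + (D - 1 - i) := by have := Finset.mem_range.1 hi; omega
      rw [show y ^ (D - 1) = y ^ i * y ^ (D - 1 - i) by rw [← pow_add, ← h3], ← sub_mul, mul_comm]
      exact V2.mul_nu (pow_mem (m y hy) _) (V2.pow_sub (m x hx) (m y hy) h i)
  rw [Finset.sum_sub_distrib, h1, Finset.sum_const, Finset.card_range, zero_sub, neg_mem_iff,
    nsmul_eq_mul] at h2
  have h3 := V2.mul_nu (m y hy) h2
  rw [mul_left_comm, ← pow_succ', Nat.sub_add_cancel (Nat.pos_of_ne_zero D0), hy, mul_one] at h3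
  exact V2.int_not hv hO (c := D) (fun e => hD (by exact_mod_cast e)) (by exact_mod_cast h3)

/-- The degree of an element of the Weil group modulo `M` is read on a root of unity. -/
theorem deg_root {v : ℕ} (hv : v.Prime) (hO : Ov O v) {M : ℕ} (hM : 0 < M) :
    ∃ ζ : ℂ, IsAlgebraic ℚ ζ ∧ (∀ (n : ℕ) (s : G), Frob O (v ^ n) s → s ζ = ζ ^ v ^ n) ∧
      ∀ n n' : ℕ, ζ ^ v ^ n = ζ ^ v ^ n' → n ≡ n' [MOD M] := by
  have v2 := hv.two_le
  have h1 : 1 < v ^ (2 * M) := Nat.one_lt_pow (by omega) hv.one_lt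
  obtain ⟨D, hD⟩ : ∃ D, v ^ (2 * M) = D + 1 := ⟨v ^ (2 * M) - 1, by omega⟩
  have D0 : D ≠ 0 := by omega
  have hζ := Complex.isPrimitiveRoot_exp D D0
  generalize Complex.exp (2 * Real.pi * Complex.I / D) = ζ at hζ
  have ha : IsAlgebraic ℚ ζ := IsAlgebraic.of_pow (Nat.pos_of_ne_zero D0)
    (hζ.pow_eq_one ▸ isAlgebraic_one)
  have nd : ¬ v ∣ D := fun e => by
    have h2 : v ∣ D + 1 := hD ▸ dvd_pow_self v (by omega)
    exact hv.one_lt.ne' (Nat.dvd_one.1 ((Nat.dvd_add_right e).1 h2))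
  have lt : ∀ r, r < 2 * M → v ^ r < D := fun r hr => by
    have h2 : v ^ (r + 1) ≤ v ^ (2 * M) := Nat.pow_le_pow_right hv.pos hr
    have h3 : v ^ 2 ≤ v ^ (2 * M) := Nat.pow_le_pow_right hv.pos (by omega)
    rw [pow_succ] at h2
    have h4 : 4 ≤ v ^ 2 := by nlinarith
    nlinarith [Nat.pow_pos (n := r) hv.pos]
  have red : ∀ n : ℕ, ζ ^ v ^ n = ζ ^ v ^ (n % (2 * M)) := fun n => by
    conv_lhs => rw [← Nat.mod_add_div n (2 * M)]
    induction n / (2 * M) with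
    | zero => simp
    | succ a ih =>
      rw [mul_add, mul_one, ← add_assoc, pow_add _ _ (2 * M), hD, mul_add, mul_one, pow_add, ih,
        mul_comm _ D, pow_mul, hζ.pow_eq_one, one_pow, one_mul]
  refine ⟨ζ, ha, fun n s hs => root_eq hv hO nd (by rw [← map_pow, hζ.pow_eq_one, map_one])
    (by rw [← pow_mul, mul_comm, pow_mul, hζ.pow_eq_one, one_pow])
    (hs ζ ha (V2.mem_of_pow D0 (hζ.pow_eq_one ▸ one_mem O))).2, fun n n' e => ?_⟩
  rw [red n, red n'] at e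
  exact Nat.ModEq.of_mul_left 2 (Nat.pow_right_injective v2
    (hζ.pow_inj (lt _ (Nat.mod_lt _ (by omega))) (lt _ (Nat.mod_lt _ (by omega))) e))

theorem nat_split (C : ℕ → ℕ → ZMod 2) (h : ∀ a b c, C a b + C (a + b) c = C b c + C a (b + c))
    {M : ℕ} (hM : ∀ a, C a M = C a 0) :
    ∃ η : ℕ → ZMod 2, (∀ a b, η (a + b) = η a + η b + C a b) ∧
      ∀ a b, a ≡ b [MOD 2 * M] → η a = η b := by
  let η : ℕ → ZMod 2 := fun a => C 0 0 + ∑ i ∈ Finset.range a, C i 1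
  have two : ∀ x : ZMod 2, x + x = 0 := by decide
  have h0 : ∀ a, C a 0 = C 0 0 := fun a => add_right_cancel (h a 0 0)
  have h1 : ∀ a b, η (a + b) = η a + η b + C a b := fun a b => by
    induction b with
    | zero => simp only [η, h0, add_zero, Finset.range_zero, Finset.sum_empty, add_assoc, two]
    | succ b ih =>
      simp only [η, ← add_assoc a, Finset.sum_range_succ] at ih ⊢
      linear_combination ih + h a b 1
  have h2 : ∀ a, η (a + 2 * M) = η a := fun a => by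
    rw [two_mul, ← add_assoc, h1, h1, hM, hM, h0 a, h0 (a + M)]
    linear_combination two (η M) + two (C 0 0)
  have h3 : ∀ a k, η (a + 2 * M * k) = η a := fun a k => by
    induction k with
    | zero => simp
    | succ k ih => rw [mul_add, mul_one, ← add_assoc, h2, ih]
  exact ⟨η, h1, fun a b e => by
    rw [← Nat.mod_add_div a (2 * M), ← Nat.mod_add_div b (2 * M), h3, h3, e]⟩

/-- UNR: a two-cocycle on the Weil group that depends only on the degrees and is continuous in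
the second variable splits; the splitting is read on one root of unity. -/
theorem unr {v : ℕ} (hv : v.Prime) (hO : Ov O v) (c : G → G → ZMod 2)
    (hc : ∀ s t r : G, (∃ n, Frob O (v ^ n) s) → (∃ n, Frob O (v ^ n) t) →
      (∃ n, Frob O (v ^ n) r) → c s t + c (s * t) r = c t r + c s (t * r))
    (hd : ∀ (n n' : ℕ) (s s' t t' : G), Frob O (v ^ n) s → Frob O (v ^ n) s' →
      Frob O (v ^ n') t → Frob O (v ^ n') t' → c s t = c s' t')
    (J : Finset ℂ) (hJ : ∀ x ∈ J, IsAlgebraic ℚ x)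
    (hf : ∀ s t : G, (∃ n, Frob O (v ^ n) s) → (∃ n, Frob O (v ^ n) t) → (∀ x ∈ J, t x = x) →
      c s t = c s 1) :
    ∃ (η : G → ZMod 2) (ζ : ℂ), IsAlgebraic ℚ ζ ∧ (∀ s t : G, s ζ = t ζ → η s = η t) ∧
      ∀ s t : G, (∃ n, Frob O (v ^ n) s) → (∃ n, Frob O (v ^ n) t) →
        η (s * t) = η s + η t + c s t := by
  obtain ⟨φ, hφ⟩ := V1.frob hv hO
  obtain ⟨M, M0, hM⟩ := fin_ord φ J hJ
  have p := frob_pow hφ
  obtain ⟨η, h1, h2⟩ := nat_split (fun a b => c (φ ^ a) (φ ^ b))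
    (fun a b r => by simp only [pow_add]; exact hc _ _ _ ⟨_, p a⟩ ⟨_, p b⟩ ⟨_, p r⟩)
    (M := M) fun a => by rw [pow_zero]; exact hf _ _ ⟨_, p a⟩ ⟨_, p M⟩ hM
  obtain ⟨ζ, ha, h3, h4⟩ := deg_root hv hO (M := 2 * M) (by omega)
  let d : ℂ → ℕ := fun z => Classical.epsilon fun n => z = ζ ^ v ^ n
  have h5 : ∀ n s, Frob O (v ^ n) s → η (d (s ζ)) = η n := fun n s hs => h2 _ _ (h4 _ _
    ((Classical.epsilon_spec (p := fun n => s ζ = ζ ^ v ^ n) ⟨n, h3 n s hs⟩).symm.trans (h3 n s hs)))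
  refine ⟨fun s => η (d (s ζ)), ζ, ha, fun s t e => by simp only [e], ?_⟩
  rintro s t ⟨n, hs⟩ ⟨n', ht⟩
  simp only
  rw [h5 n s hs, h5 n' t ht, h5 (n + n') _ (pow_add v n n' ▸ V2.c1 hs ht), h1,
    hd n n' s _ t _ hs (p n) ht (p n')]

/-- The same with invariance under inertia as the hypothesis. -/
theorem unr' {v : ℕ} (hv : v.Prime) (hO : Ov O v) (c : G → G → ZMod 2)
    (hc : ∀ s t r : G, (∃ n, Frob O (v ^ n) s) → (∃ n, Frob O (v ^ n) t) →
      (∃ n, Frob O (v ^ n) r) → c s t + c (s * t) r = c t r + c s (t * r))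
    (hd : ∀ s t i i' : G, (∃ n, Frob O (v ^ n) s) → (∃ n, Frob O (v ^ n) t) → Frob O 1 i →
      Frob O 1 i' → c (s * i) (t * i') = c s t)
    (J : Finset ℂ) (hJ : ∀ x ∈ J, IsAlgebraic ℚ x)
    (hf : ∀ s t : G, (∃ n, Frob O (v ^ n) s) → (∃ n, Frob O (v ^ n) t) → (∀ x ∈ J, t x = x) →
      c s t = c s 1) :
    ∃ (η : G → ZMod 2) (ζ : ℂ), IsAlgebraic ℚ ζ ∧ (∀ s t : G, s ζ = t ζ → η s = η t) ∧
      ∀ s t : G, (∃ n, Frob O (v ^ n) s) → (∃ n, Frob O (v ^ n) t) →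
        η (s * t) = η s + η t + c s t :=
  unr hv hO c hc (fun n n' s s' t t' a a' b b' => by
    rw [← hd s t _ _ ⟨n, a⟩ ⟨n', b⟩ (V2.c3 hv hO a a') (V2.c3 hv hO b b'), mul_inv_cancel_left,
      mul_inv_cancel_left]) J hJ hf

end Loc0

end Pool.Agent.Lib.MP_d6ddbd_nt.K11
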