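import Pool.Agent.Lib.MP_d6ddbd_nt.KI.Stmt
import Pool.Agent.Lib.MP_d6ddbd_nt.KI.Loc1
import Pool.Agent.Lib.MP_d6ddbd_nt.KI.Loc2

/-!
Tame inertia and unramified two-cocycles.
-/

set_option autoImplicit false

open Pool.Agent.Lib.MP_d6ddbd_nt.K11

noncomputable section

namespace Pool.Agent.Lib.MP_d6ddbd_nt.KI

namespace Le

/-- A square root that is moved by inertia comes from an integer of valuation one. -/
theorem odd {v : ℕ} {O : ValuationSubring ℂ} (hv : v.Prime) (h2 : v ≠ 2) (hO : Ov O v) {c : ℤ}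
    {r : ℂ} {σ : G} (hr : r ^ 2 = c) (hσ : Frob O 1 σ) (h : σ r ≠ r) :
    ∃ (c' : ℤ) (u : ℂ), u ^ 2 = c' ∧ (v : ℤ) ∣ c' ∧ ¬ (v : ℤ) ^ 2 ∣ c' ∧ σ u = -u := by
  have hp : Prime (v : ℤ) := Nat.prime_iff_prime_int.1 hv
  have c0 : c ≠ 0 := fun e => h (by
    rw [e, Int.cast_zero] at hr
    rw [pow_eq_zero_iff two_ne_zero |>.1 hr, map_zero])
  have v0 : (v : ℂ) ≠ 0 := by exact_mod_cast hv.ne_zero
  obtain ⟨i, a, ha, rfl⟩ := WfDvdMonoid.max_power_factor c0 hp.irreducible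
  obtain ⟨m, rfl | rfl⟩ := Nat.even_or_odd' i
  · refine absurd (Loc0.fix_of_val (i := m) hv h2 hO hσ (V2.alg_of_sq hr) (V2.sq_cases σ hr) ?_) h
    rw [hr]
    push_cast
    rw [map_mul, Loc0.val_int hv hO ha, mul_one, map_pow, ← zpow_natCast]
    rfl
  · refine ⟨v * a, r / (v : ℂ) ^ m, ?_, dvd_mul_right _ _, fun d => ha ?_, ?_⟩
    · rw [div_pow, hr]
      push_cast
      field_simp
      ring
    · rw [sq] at d
      exact (mul_dvd_mul_iff_left hp.ne_zero).1 d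
    · rw [map_div₀, map_pow, map_natCast, (V2.sq_cases σ hr).resolve_left h, neg_div]

end Le

theorem le_thm : LeStmt := by
  intro B _ k v O c σ₀ f hv h2 hO h0 h1 hk hm ⟨J, hJ, hf⟩ σ hσ
  obtain ⟨c', u, u1, u2, u3, u4⟩ := Le.odd hv h2 hO (rt_sq c) h0 h1
  refine Loc0.le_cyc hv h2 hO J hJ u1 u2 u3 h0 u4 k f hm hk (fun τ a b => ?_) σ hσ
  have e := hm 1 1 Loc0.in_one Loc0.in_one
  rw [mul_one, left_eq_add] at e
  exact (hf τ 1 a Loc0.in_one b).trans e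

theorem unr_thm : UnrStmt := by
  intro v O c hv hO ⟨⟨J, hJ, hf⟩, he⟩ hd
  obtain ⟨η, ζ, h1, h2, h3⟩ := Loc0.unr hv hO c
    (fun s t r _ _ _ => (add_comm _ _).trans (he s t r).symm) hd J hJ
    fun s t _ _ b => hf s s t 1 (fun _ _ => rfl) b
  refine ⟨η, ⟨{ζ}, fun x hx => Finset.mem_singleton.1 hx ▸ h1,
    fun σ τ _ _ b => h2 σ τ (b ζ (Finset.mem_singleton_self ζ))⟩, fun σ τ a b => ?_⟩
  rw [h3 σ τ a b, ← add_assoc, CharTwo.add_self_eq_zero, zero_add]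

end Pool.Agent.Lib.MP_d6ddbd_nt.KI
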