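import Pool.Agent.Lib.MP_d6ddbd_nt.KI.Tr

/-!
The doubled class satisfies the local conditions at all primes.
-/

set_option autoImplicit false

open Pool.Agent.Lib.MP_d6ddbd_nt.K11

noncomputable section

namespace Pool.Agent.Lib.MP_d6ddbd_nt.KI

namespace Locx

open Tr

theorem tw_neg (c : ℤ) (σ : G) (P : Pt) : tw c σ (-P) = -tw c σ P := by
  rw [tw, tw, smul_neg, zsmul_neg]

theorem tw_two (c : ℤ) (σ : G) (P : Pt) : tw c σ (2 • P) = 2 • tw c σ P := by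
  rw [two_nsmul, two_nsmul, ← sub_neg_eq_add, tw_sub, tw_neg, sub_neg_eq_add]

theorem tw_zero (c : ℤ) (σ : G) : tw c σ 0 = 0 := by
  rw [tw, (smul_eq_zero' σ 0).2 rfl, zsmul_zero]

theorem cq_or (c : ℤ) (σ : G) : cq c σ = 1 ∨ cq c σ = -1 := by
  unfold cq
  split_ifs <;> simp

theorem cq_one (c : ℤ) : cq c 1 = 1 := if_pos rfl

theorem tw_one (c : ℤ) (P : Pt) : tw c 1 P = P := by
  rw [tw, cq_one, one_smul, one_smul]

theorem cy_two {c : ℤ} {k : ℕ} {x : G → Pt} (hx : Cy c k x) : Cy c k (2 • x) where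
  tor σ := by rw [Pi.smul_apply, smul_comm, hx.tor, nsmul_zero]
  mul σ τ := by
    simp only [Pi.smul_apply]
    rw [hx.mul, tw_two, nsmul_add]
  fin := by
    obtain ⟨J, hJ, h⟩ := hx.fin
    exact ⟨J, hJ, fun σ a => by rw [Pi.smul_apply, h σ a, nsmul_zero]⟩

theorem cy_one {c : ℤ} {k : ℕ} {x : G → Pt} (hx : Cy c k x) : x 1 = 0 := by
  have := hx.mul 1 1
  rw [mul_one, tw_one] at this
  simpa using this

theorem frob_pow {O : ValuationSubring ℂ} {v : ℕ} {φ : G} (hv : v.Prime) (h : Frob O v φ)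
    (n : ℕ) : Frob O (v ^ n) (φ ^ n) := by
  induction n with
  | zero => exact fun x _ hx => ⟨hx, by simp⟩
  | succ n ih =>
    rw [pow_succ, pow_succ]
    exact v2_thm.1 O _ _ _ _ ih h (pow_ne_zero n hv.ne_zero)

/-- The number `om q` is fixed when `√(-q)` is. -/
theorem om_fix {q : ℕ} {σ : G} (h : σ (2 * om q - 1) = 2 * om q - 1) : σ (om q) = om q := by
  rw [map_sub, map_mul, map_one, map_ofNat] at h
  linear_combination h / 2

theorem om_or (q : ℕ) (σ : G) :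
    σ (2 * om q - 1) = 2 * om q - 1 ∨ σ (2 * om q - 1) = -(2 * om q - 1) :=
  sq_eq_sq_iff_eq_or_eq_neg.1 (by rw [← map_pow, om_sq', map_neg, map_natCast])

theorem om_sq_fix (q : ℕ) (σ : G) : (σ * σ) (om q) = om q := by
  apply om_fix
  rw [RingAut.mul_apply]
  rcases om_or q σ with a | a
  · rw [a, a]
  · rw [a, map_neg, a, neg_neg]

theorem om_cm (q : ℕ) (σ τ : G) : ((τ * σ)⁻¹ * (σ * τ)) (om q) = om q := by
  apply om_fix
  have e : (σ * τ) (2 * om q - 1) = (τ * σ) (2 * om q - 1) := by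
    rw [RingAut.mul_apply, RingAut.mul_apply]
    rcases om_or q σ with a | a <;> rcases om_or q τ with b | b <;> simp only [a, b, map_neg]
  rw [RingAut.mul_apply, e, ← RingAut.mul_apply, inv_mul_cancel, RingAut.one_apply]

theorem cq_cm (c : ℤ) (σ τ : G) : cq c ((τ * σ)⁻¹ * (σ * τ)) = 1 := by
  have h := cq_mul c (τ * σ) ((τ * σ)⁻¹ * (σ * τ))
  rw [mul_inv_cancel_left, cq_mul, cq_mul] at h
  rcases cq_or c σ with a | a <;> rcases cq_or c τ with b | b <;> rw [a, b] at h <;> omega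

/-- The condition at a place where the class is known on inertia and at a Frobenius element. -/
theorem gen {c : ℤ} {k v : ℕ} {x : G → Pt} {S : Pt} {O : ValuationSubring ℂ} {φ : G}
    (hx : Cy c k x) (hv : v.Prime) (hO : Ov O v) (hφ : Frob O v φ)
    (hI : ∀ σ, Frob O 1 σ → x σ = tw c σ S - S) (hF : x φ = tw c φ S - S) (σ : G)
    (hσ : Wl O v σ) : x σ = tw c σ S - S := by
  have mul : ∀ a b : G, x a = tw c a S - S → x b = tw c b S - S →
      x (a * b) = tw c (a * b) S - S := fun a b ha hb => by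
    rw [hx.mul, ha, hb, tw_sub, tw_mul]
    abel
  have pw : ∀ n : ℕ, x (φ ^ n) = tw c (φ ^ n) S - S := fun n => by
    induction n with
    | zero => rw [pow_zero, cy_one hx, tw_one, sub_self]
    | succ n ih => rw [pow_succ]; exact mul _ _ ih hF
  obtain ⟨n, hn⟩ := hσ
  have := mul _ _ (pw n) (hI _ (v2_thm.2.2.1 O v n _ σ hv hO (frob_pow hv hφ n) hn))
  rwa [mul_inv_cancel_left] at this

end Locx

open Tr Locx in
theorem locx_thm (hT : TrStmt) (hG : GdStmt) : LocxStmt := by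
  intro q d c k n x S hq _ hx hS hI hF hff
  refine ⟨cy_two hx, fun v O hv hn hO => ?_,
    fun p hp O φ hO hφ => by rw [Pi.smul_apply, hff p hp O φ hO hφ, nsmul_zero]⟩
  by_cases hb : v = 2 ∨ v = 11
  · obtain ⟨O', φ, hO', hφ, h⟩ := hF v hb
    have hvq : v ≠ q := by
      have := hq.qf.big
      omega
    refine hT.2.1 c k v _ O' O (cy_two hx) hv hO' hO ⟨2 • S, ?_, fun σ hσ => ?_⟩
    · rw [two_nsmul]
      exact r1_thm.1.2.1 _ _ hS hS
    · rw [Pi.smul_apply, gen hx hv hO' hφ (fun τ hτ => hI v O' τ hv hn hO' hτ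
        (v2_thm.2.2.2.2.2.2.1 q v O' τ hq.qf.pr hq.qf.m4 hv hvq hO' hτ)) h σ hσ, tw_two, nsmul_sub]
  push Not at hb
  obtain ⟨-, -, r3, -, r5, -⟩ := r2_thm v1_thm v2_thm r1_thm v O hv hb.1 hb.2 hO
  have fx : ∀ σ, Frob O 1 σ → ∀ τ, σ • x τ = x τ := fun σ hσ τ =>
    sub_eq_zero.1 (r5 k _ (by rw [nsmul_sub, tor_smul _ (hx.tor τ), hx.tor, sub_zero])
      (r3 _ _ hσ (alg_tor (hx.tor τ))))
  have z0 : ∀ σ, Frob O 1 σ → σ (om q) = om q → cq c σ = 1 → x σ = 0 := fun σ hσ a b => by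
    refine r5 k _ (hx.tor σ) ?_
    rw [hI v O σ hv hn hO hσ a, tw, b, one_smul]
    exact r3 _ _ hσ hS
  by_cases hu : ∀ σ, Frob O 1 σ → cq c σ = 1
  · refine hG c k v _ O hv hb.1 hb.2 hO (cy_two hx) hu fun σ hσ => ?_
    have h2 : Frob O 1 (σ * σ) := by simpa using v2_thm.1 O _ _ _ _ hσ hσ one_ne_zero
    have := z0 _ h2 (om_sq_fix q σ) (hu _ h2)
    rw [hx.mul, tw, hu σ hσ, one_smul, fx σ hσ] at this
    rw [Pi.smul_apply, two_nsmul, this]
  · push Not at hu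
    obtain ⟨σ₀, h0, hc⟩ := hu
    have hc' := (cq_or c σ₀).resolve_left hc
    refine ⟨-x σ₀, r1_thm.1.2.2.1 _ (alg_tor (hx.tor _)), fun σ ⟨m, hm⟩ => ?_⟩
    have a1 : Frob O (v ^ m) (σ₀ * σ) := by simpa using v2_thm.1 O _ _ _ _ h0 hm one_ne_zero
    have a2 : Frob O (v ^ m) (σ * σ₀) := by
      simpa using v2_thm.1 O _ _ _ _ hm h0 (pow_ne_zero m hv.ne_zero)
    have a3 := z0 _ (v2_thm.2.2.1 O v m _ _ hv hO a1 a2) (om_cm q σ σ₀) (cq_cm c σ σ₀)
    have a4 := hx.mul (σ₀ * σ) ((σ₀ * σ)⁻¹ * (σ * σ₀))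
    rw [mul_inv_cancel_left, a3, tw_zero, add_zero, hx.mul, hx.mul σ₀, tw.eq_1 c σ₀, hc',
      fx σ₀ h0, neg_smul, one_smul] at a4
    rw [Pi.smul_apply, tw_neg, two_nsmul, eq_sub_of_add_eq' a4]
    abel

end Pool.Agent.Lib.MP_d6ddbd_nt.KI
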