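import Pool.Agent.Lib.MP_d6ddbd_nt.KI.Bas
import Pool.Agent.Lib.MP_d6ddbd_nt.K11.Final

/-!
The full two-converse for the quadratic twists of `X₀(11)`: the two chains.
-/

set_option autoImplicit false
set_option maxSynthPendingDepth 3

open Pool.Agent.Lib.MP_d6ddbd_nt.K11

noncomputable section

namespace Pool.Agent.Lib.MP_d6ddbd_nt.KI

theorem rl_zero {q : ℕ} {d : ℤ} {x : Finset ℕ → G → Pt} {n : Finset ℕ} {a : ℕ} :
    Rl q d x 0 n a ↔ Cb (twn q d n) (2 ^ a • x n) := by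
  simp [Rl, yy]

theorem main_thm (hT : TrStmt) (hC : CntStmt) (hQ : QchStmt) (hS : SysStmt) (hCh : ChainStmt)
    (hA : SubAStmt) (hB : SubBStmt) (hP : PtStmt) : MainStmt := by
  intro d hd hb
  obtain ⟨L, _, _, θ, hθ⟩ := Final.exists_cub
  obtain ⟨hf, c, hc⟩ := hC.1 d hb
  have d0 := hd.sf.ne_zero
  have e0 : ∀ m q, KnI m q d ∅ := fun _ _ _ h => absurd h (Finset.notMem_empty _)
  have key : ∀ q, QD q d → q % 8 = 7 → Two (-(q * d)) 1 → ∃ A : ℕ, ∀ s, ∃ k m W x, k ≠ 0 ∧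
      k ≤ m ∧ KY θ q d k s m W x ∧ ∀ y, Sel d k ∅ y → Y0 q k y →
      ∃ n, KnI m q d n ∧ (∀ p ∈ n, Gp W p) ∧ Core θ q d n ∧ Sel d k n y ∧
      ∀ a, (Rl q d x y ∅ a → Rl q d x y n (a + A)) ∧ (Rl q d x y n a → Rl q d x y ∅ (a + A)) := by
    intro q hq h8 h2
    obtain ⟨A, hA⟩ := hCh L θ hθ q d (c + 1) hq
    refine ⟨A, fun s => ?_⟩
    obtain ⟨k, m, W, x, k0, km, hW, hK⟩ := hS L θ hθ q d s hq h8
    obtain ⟨z, hz⟩ := hC.2.1 d c k hc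
    obtain ⟨z', hz'⟩ := hC.2.1 _ 1 k h2
    exact ⟨k, m, W, x, k0, km, hK, fun y h1 h2 => hA k s m W x y z z' k0 km hW hK h1 h2
      ((hz.mono (by omega)).any y) (hz'.mono (by omega))⟩
  constructor
  · intro hi
    by_contra hJ
    obtain ⟨S, aS, fS, nS⟩ := hP.2 d d0 hi
    obtain ⟨q, hq, h8, h2, h3⟩ := hQ d _ hd hf (sel_pt (k := 1) aS (by simpa using fS))
    obtain ⟨O, φ, hO, hφ, h3⟩ := h3 nS
    obtain ⟨σ₀, i1, i2⟩ := ex_ine_om hq.qf.pr hO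
    obtain ⟨A, hA'⟩ := key q hq h8 h2
    obtain ⟨k, m, W, x, k0, km, hK, hch⟩ := hA' (1 + A + A)
    obtain ⟨R, rfl⟩ := ex_div (k - 1) S
    have ek : 2 ^ k • R = 2 • 2 ^ (k - 1) • R := by
      rw [← mul_smul, ← pow_succ', Nat.sub_add_cancel (Nat.pos_of_ne_zero k0)]
    have hy : Sel d k ∅ fun σ => tw d σ R - R := sel_pt (alg_of_pow aS) (by rwa [ek])
    have h4 : 2 ^ (k - 1) • (tw d (φ * φ) R - R) ≠ 0 := by rwa [smul_sub, ← tw_n]
    obtain ⟨n₀, a1, -, a2, -, a3⟩ := hch 0 (sel_zero d k ∅) (Or.inl rfl)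
    obtain ⟨n, b1, b2, b3, b4, b5⟩ := hch _ hy (Or.inr ⟨O, φ, hO, hφ, h4⟩)
    have t0 : twn q d ∅ ≠ d := by
      rw [twn, if_neg (by simpa using hJ)]
      exact qd_ne d0
    have nq : q ∉ n := fun h => (b1 q h).nq rfl
    obtain ⟨-, s2, -, s4⟩ := hA q d n O σ₀ φ hq h8 hO i1 i2 hφ nq
    have ha := b4.top k0
    have hc0 := fun a => hB.2 L θ hθ q d n O φ a hq b1.pn hO hφ b3
    obtain ⟨c1, c2⟩ := hK.core n b1 b3
    have hx := hK.sel n b1 b2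
    rcases twn_or q d n with t | t
    · rw [t] at hx
      obtain ⟨u, hu⟩ := hC.2.2 d k n _ k0 (hT.2.2 k m q d n km b1) b4 (fun ξ hξ => by
        rcases s4 _ _ hξ.coc ha.coc with e | e | e
        · exact Or.inl (hc0 ξ hξ e)
        · exact absurd e h4
        · exact Or.inr (hc0 _ (hξ.sub ha) (sub_eq_zero.2 e))) _ hx
      obtain ⟨w, hw⟩ := (b5 1).2 ⟨u, by rw [yy, if_pos t, t, pow_one]; exact hu⟩
      rw [yy, if_neg t0, smul_zero, sub_zero] at hw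
      exact (hK.core n₀ a1 a2).2 (rl_zero.1 ((a3 _).1 (rl_zero.2 hw)))
    · rw [t] at hx c2
      have e : 2 ^ (1 + A + A) • x n = 2 ^ (A + A) • 2 • x n := by
        rw [← mul_smul, ← pow_succ]; congr 2; ring
      have hz : Sel (-(q * d)) 1 n (2 ^ (1 + A + A) • x n) := by
        refine Sel.of_tor (k := k) (e ▸ hx.nat _) fun σ => ?_
        rw [Pi.smul_apply, ← mul_smul, ← pow_add, add_comm, c1]
      obtain ⟨f1, f2⟩ := s2 _ hz (hB.1 q d n O σ₀ φ _ _ hq h8 b1.pn hO i1 i2 hφ hz ha h4)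
      exact c2 ((hc0 _ f1 f2).swap hz.two _)
  · intro hJ
    obtain ⟨q, hq, h8, h2, -⟩ := hQ d 0 hd hf (sel_zero d 1 ∅)
    obtain ⟨A, hA'⟩ := key q hq h8 h2
    obtain ⟨k, m, W, x, k0, km, hK, hch⟩ := hA' (0 + A)
    obtain ⟨n, a1, -, a2, -, a3⟩ := hch 0 (sel_zero d k ∅) (Or.inl rfl)
    have t0 : twn q d ∅ = d := by rw [twn, if_pos (by simpa using hJ)]
    obtain ⟨S, aS, hS⟩ := hK.bot
    have hx := hK.cy ∅ (e0 m q)
    rw [t0] at hS hx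
    refine hP.1 d k _ S d0 hx aS hS fun h => ?_
    exact (hK.core n a1 a2).2 (rl_zero.1 ((a3 0).1 (rl_zero.2 (by rw [t0]; simpa using h))))

end Pool.Agent.Lib.MP_d6ddbd_nt.KI
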