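import Pool.Agent.Lib.MP_d6ddbd_nt.KI.Stmt
import Pool.Agent.Lib.MP_d6ddbd_nt.K11.R1
import Pool.Agent.Lib.MP_d6ddbd_nt.K11.V4
import Pool.Agent.Lib.MP_d6ddbd_nt.K11.No
import Pool.Agent.Lib.MP_d6ddbd_nt.K11.Fin

/-! Rational points of the twists and Kummer classes. -/

set_option autoImplicit false
set_option maxSynthPendingDepth 3

open Height
open Pool.Agent.Lib.MP_02f36d_nt (xc yc xc_neg pt_ext)
open Pool.Agent.Lib.MP_d6ddbd_nt.K11

noncomputable section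

namespace Pool.Agent.Lib.MP_d6ddbd_nt.KI

namespace Pts

variable {d : ℤ} {P : Pt}

theorem cq_or (c : ℤ) (σ : G) : cq c σ = 1 ∨ cq c σ = -1 := by
  unfold cq
  split_ifs <;> simp

theorem cq_rt (c : ℤ) (σ : G) : σ (rt c) = cq c σ * rt c := by
  unfold cq
  split_ifs with h
  · simp [h]
  · simpa using (Fin.sq_or (rt_sq c) σ).resolve_left h

theorem rt_ne (hd : d ≠ 0) : rt d ≠ 0 := fun h => hd (by
  have := rt_sq d
  rw [h, zero_pow two_ne_zero] at this
  exact_mod_cast this.symm)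

theorem tw_sub (c : ℤ) (σ : G) (P Q : Pt) : tw c σ (P - Q) = tw c σ P - tw c σ Q := by
  simp only [tw, smul_sub]

theorem tw_n (c : ℤ) (σ : G) (n : ℕ) (P : Pt) : tw c σ (n • P) = n • tw c σ P := by
  rw [tw, tw, Fin.sm_n, smul_comm]

/-- The rational points of the twist. -/
def Inv (d : ℤ) : AddSubgroup Pt where
  carrier := {P | ∀ σ, tw d σ P = P}
  add_mem' := fun {P Q} hP hQ σ => by
    have a := hP σ
    have b := hQ σ
    simp only [tw] at a b ⊢
    rw [smul_add, smul_add, a, b]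
  zero_mem' := fun σ => by simp only [tw, smul_zero]
  neg_mem' := fun {P} hP σ => by
    have a := hP σ
    simp only [tw] at a ⊢
    rw [smul_neg, smul_neg, a]

theorem toTw (hd : d ≠ 0) (hP : P ∈ Inv d) (h0 : P ≠ 0) :
    ∃ x y : ℚ, (x, y) ∈ Tw d ∧ (x : ℂ) = xc P ∧ (y : ℂ) * rt d = yc P := by
  have r0 := rt_ne hd
  have key : ∀ σ : G, σ (xc P) = xc P ∧ σ (yc P / rt d) = yc P / rt d := fun σ => by
    have a : cq d σ • σ • P = P := hP σ
    have n : σ • P ≠ 0 := fun e => h0 ((smul_eq_zero' σ P).1 e)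
    rw [map_div₀, cq_rt, ← xc_smul, ← yc_smul]
    rcases cq_or d σ with c | c <;> rw [c] at a ⊢
    · rw [one_zsmul] at a
      rw [a]
      simp
    · rw [neg_zsmul, one_zsmul] at a
      have a1 := congrArg xc a
      have a2 := congrArg yc a
      rw [xc_neg] at a1
      rw [R1.ycn n] at a2
      refine ⟨a1, ?_⟩
      rw [← a2]
      field_simp
      push_cast
      ring
  obtain ⟨x, hx⟩ := V4.fix ℚ (algebraMap ℚ ℂ) (xc P) fun σ _ => (key σ).1
  obtain ⟨y, hy⟩ := V4.fix ℚ (algebraMap ℚ ℂ) (yc P / rt d) fun σ _ => (key σ).2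
  have hx' : (x : ℂ) = xc P := hx
  have hy' : (y : ℂ) * rt d = yc P := (eq_div_iff r0).1 hy
  refine ⟨x, y, ?_, hx', hy'⟩
  have := R1.eq1 h0
  rw [← hx', ← hy', mul_pow, rt_sq, fc] at this
  have t : (((d : ℚ) * y ^ 2 : ℚ) : ℂ) = (x ^ 3 - 4 * x ^ 2 - 160 * x - 1264 : ℚ) := by
    push_cast
    linear_combination this
  exact_mod_cast t

theorem alg_rt (c : ℤ) : IsAlgebraic ℚ (rt c) :=
  IsAlgebraic.of_pow two_pos (by rw [rt_sq]; exact isAlgebraic_intCast c)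

theorem ofTw {x y : ℚ} (h : (x, y) ∈ Tw d) :
    ∃ P ∈ Inv d, P ≠ 0 ∧ AlgP P ∧ xc P = x ∧ yc P = y * rt d := by
  have e : ((y : ℂ) * rt d) ^ 2 = fc (x : ℂ) := by
    have t : (d : ℚ) * y ^ 2 = x ^ 3 - 4 * x ^ 2 - 160 * x - 1264 := h
    have t' := congrArg (fun z : ℚ => (z : ℂ)) t
    push_cast at t'
    rw [mul_pow, rt_sq, fc]
    linear_combination t'
  obtain ⟨n, a, b⟩ := R1.pt_spec e
  refine ⟨_, fun σ => ?_, n, ⟨?_, ?_⟩, a, b⟩
  · have n' : σ • pt x (y * rt d) ≠ 0 := fun e => n ((smul_eq_zero' σ _).1 e)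
    have a' : xc (σ • pt x (y * rt d)) = x := by rw [xc_smul, a, map_ratCast]
    have b' : yc (σ • pt x (y * rt d)) = y * (cq d σ * rt d) := by
      rw [yc_smul, b, map_mul, map_ratCast, cq_rt]
    rw [tw]
    rcases cq_or d σ with c | c <;> rw [c] at b' ⊢
    · rw [one_zsmul]
      exact pt_ext n' n (a'.trans a.symm) (by rw [b', b]; simp)
    · rw [neg_zsmul, one_zsmul]
      exact pt_ext (neg_ne_zero.2 n') n (by rw [xc_neg, a', a]) (by rw [R1.ycn n', b', b]; simp)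
  · rw [a]
    exact isAlgebraic_ratCast ℚ x
  · rw [b]
    exact (isAlgebraic_ratCast ℚ y).mul (alg_rt d)

theorem no2 (k : ℕ) : ∀ P ∈ Inv d, 2 ^ k • P = 0 → P = 0 := by
  obtain ⟨ω, hω⟩ := Fin.ex_w r1_thm
  induction k with
  | zero => simp
  | succ k ih =>
    intro P a b
    have h2 : 2 • P = 0 := ih _ (nsmul_mem a 2) (by rw [← mul_nsmul', ← pow_succ, b])
    have e : ω • P = P := by
      have := a ω
      rwa [tw, Fin.sgn_two (by rw [← Fin.sm_n, h2, smul_zero]) (cq_or d ω)] at this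
    exact hω P h2 (by rw [e, e])

theorem inv_fin (hd : d ≠ 0) (h : (Tw d).Finite) : Finite (Inv d) := by
  have : (Inv d : Set Pt).Finite := by
    refine ((h.image fun z : ℚ × ℚ => pt z.1 (z.2 * rt d)).insert 0).subset fun P hP => ?_
    by_cases h0 : P = 0
    · exact Or.inl h0
    obtain ⟨x, y, a, b, c⟩ := toTw hd hP h0
    refine Or.inr ⟨(x, y), a, ?_⟩
    obtain ⟨n, a', b'⟩ := R1.pt_spec (R1.eq1 h0)
    dsimp only
    rw [b, c]
    exact pt_ext n h0 a' b'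
  exact this

/-- With finitely many rational points, every rational point is divisible by `2 ^ k`. -/
theorem div (hd : d ≠ 0) (h : (Tw d).Finite) (k : ℕ) (hP : P ∈ Inv d) :
    ∃ Q ∈ Inv d, 2 ^ k • Q = P := by
  have := inv_fin hd h
  have hi : Function.Injective fun Q : Inv d => 2 ^ k • Q := fun Q Q' e =>
    Subtype.ext (sub_eq_zero.1 (no2 k _ (sub_mem Q.2 Q'.2) (by
      rw [smul_sub, sub_eq_zero]
      exact congrArg Subtype.val e)))
  obtain ⟨Q, hQ⟩ := Finite.injective_iff_surjective.1 hi ⟨P, hP⟩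
  exact ⟨Q, Q.2, congrArg Subtype.val hQ⟩

/-- Descent. -/
theorem fin (hd : d ≠ 0) (h : ∀ P ∈ Inv d, AlgP P → ∃ Q ∈ Inv d, 2 • Q = P) : (Tw d).Finite := by
  have hd' : (d : ℚ) ≠ 0 := Int.cast_ne_zero.2 hd
  let U : Set ℚ := {x | ∃ y : ℚ, (x, y) ∈ Tw d}
  have key : ∀ x ∈ U, ∃ u ∈ U, No.dl u = x := by
    rintro x ⟨y, hy⟩
    obtain ⟨P, a, n, b, e, -⟩ := ofTw hy
    obtain ⟨Q, c, rfl⟩ := h P a b
    have n0 : Q ≠ 0 := fun z => n (by rw [z, smul_zero])
    have e1 := R1.eq1 n0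
    have n1 : yc Q ≠ 0 := fun z => n ((R1.two_iff Q).2 (Or.inr ⟨z, by rw [← e1, z]; ring⟩))
    obtain ⟨u, v, f, g, -⟩ := toTw hd c n0
    have e2 := (R1.dbl n0 n1).2
    have n2 : fc (u : ℂ) ≠ 0 := by
      rw [g, ← e1]
      exact pow_ne_zero 2 n1
    rw [e, e1, ← g] at e2
    refine ⟨u, ⟨v, f⟩, ?_⟩
    have t : ((No.dl u : ℚ) : ℂ) = x := by
      have w : ((fc u : ℚ) : ℂ) = fc (u : ℂ) := by simp [fc]
      rw [No.dl]
      push_cast
      rw [w, div_eq_iff (mul_ne_zero (by norm_num) n2), e2, fd, fc]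
      ring
    exact_mod_cast t
  choose! s hs using key
  obtain ⟨C, hC⟩ := No.ht_dl
  have hU : U.Finite := No.fin_of_inj (C := C) s (fun u hu => (hs u hu).1)
    (fun u hu v hv e => by rw [← (hs u hu).2, e, (hs v hv).2])
    (fun u hu => by have := hC (s u); rwa [(hs u hu).2] at this)
  have hY : ∀ x : ℚ, {P : ℚ × ℚ | P ∈ Tw d ∧ P.1 = x}.Finite := by
    intro x
    rcases Set.eq_empty_or_nonempty {P : ℚ × ℚ | P ∈ Tw d ∧ P.1 = x} with
      h | ⟨⟨x', y⟩, hy, rfl⟩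
    · rw [h]; exact Set.finite_empty
    · refine (Set.toFinite {(x', y), (x', -y)}).subset ?_
      rintro ⟨_, z⟩ ⟨hz, rfl⟩
      have h1 : (d : ℚ) * z ^ 2 = d * y ^ 2 := hz.trans (Eq.symm hy)
      rcases sq_eq_sq_iff_eq_or_eq_neg.1 (mul_left_cancel₀ hd' h1) with rfl | rfl <;> simp
  refine (hU.biUnion fun x _ => hY x).subset ?_
  rintro ⟨x, y⟩ hx
  simp only [Set.mem_iUnion]
  exact ⟨x, ⟨y, hx⟩, hx, rfl⟩

end Pts

open Pts in
theorem pt_thm : PtStmt := by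
  refine ⟨fun d k x S hd hx _ e hc hf => hc ?_, fun d hd hi => ?_⟩
  · obtain ⟨Q, a, b⟩ := div hd hf k (P := 2 ^ k • S) fun σ => by
      rw [tw_n, ← sub_eq_zero, ← smul_sub, ← e, hx.tor]
    refine ⟨S - Q, k, by rw [smul_sub, b, sub_self], fun σ => ?_⟩
    rw [e, tw_sub, a σ]
    abel
  · by_contra hn
    refine hi (fin hd fun P a b => ?_)
    obtain ⟨S, rfl⟩ := R1.ex_half P
    obtain ⟨T, k, c, e⟩ : Cb d fun σ => tw d σ S - S :=
      by_contra fun z => hn ⟨S, R1.alg_half _ b, a, z⟩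
    have f : S - T ∈ Inv d := fun σ => by
      rw [tw_sub]
      linear_combination (norm := module) e σ
    have g : 2 • T = 0 := no2 k _ (by
      have := sub_mem a (nsmul_mem f 2)
      rwa [smul_sub, sub_sub_cancel] at this) (by rw [smul_comm, c, smul_zero])
    exact ⟨_, f, by rw [smul_sub, g, sub_zero]⟩

end Pool.Agent.Lib.MP_d6ddbd_nt.KI
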