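import Pool.Agent.Lib.MP_d6ddbd_nt.KI.Stmt
import Pool.Agent.Lib.MP_d6ddbd_nt.KI.Ep
import Pool.Agent.Lib.MP_d6ddbd_nt.KI.Loc0
import Pool.Agent.Lib.MP_d6ddbd_nt.K11.AllX
import Pool.Agent.Lib.MP_d6ddbd_nt.K11.Final

/-!
The relation between two auxiliary primes.
-/

set_option autoImplicit false
set_option maxSynthPendingDepth 3

open Pool.Agent.Lib.MP_02f36d_nt (xc yc)
open Pool.Agent.Lib.MP_d6ddbd_nt.K11

noncomputable section

namespace Pool.Agent.Lib.MP_d6ddbd_nt.KI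

namespace RelA

theorem epE : ep = Ep.ep := rfl

theorem rt_ne {c : ℤ} (hc : c ≠ 0) : rt c ≠ 0 := fun h => hc (by
  have := rt_sq c
  rw [h] at this
  exact_mod_cast this.symm.trans (by ring : (0 : ℂ) ^ 2 = 0))

theorem cq_or (c : ℤ) (σ : G) : cq c σ = 1 ∨ cq c σ = -1 := by
  unfold cq
  split_ifs <;> simp

theorem cq_app (c : ℤ) (σ : G) {u : ℂ} (hu : u ^ 2 = c) : σ u = cq c σ * u := by
  have h : σ (rt c) = cq c σ * rt c := by
    unfold cq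
    split_ifs with h
    · simpa using h
    · simpa using (Cheb.sq_cases (rt_sq c) σ).resolve_left h
  rcases sq_eq_sq_iff_eq_or_eq_neg.1 (hu.trans (rt_sq c).symm) with e | e
  · rw [e, h]
  · rw [e, map_neg, h, mul_neg]

theorem cq_eq {c : ℤ} (hc : c ≠ 0) {σ : G} {u : ℂ} {e : ℤ} (hu : u ^ 2 = c) (h : σ u = e * u) :
    cq c σ = e := by
  have u0 : u ≠ 0 := fun k => hc (by
    rw [k] at hu
    exact_mod_cast hu.symm.trans (by ring : (0 : ℂ) ^ 2 = 0))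
  rw [cq_app c σ hu] at h
  exact_mod_cast mul_right_cancel₀ u0 h

theorem cq_mul2 {a b : ℤ} (ha : a ≠ 0) (hb : b ≠ 0) (σ : G) : cq (a * b) σ = cq a σ * cq b σ :=
  cq_eq (mul_ne_zero ha hb) (u := rt a * rt b) (by rw [mul_pow, rt_sq, rt_sq, Int.cast_mul]) (by
    rw [map_mul, cq_app a σ (rt_sq a), cq_app b σ (rt_sq b), Int.cast_mul]; ring)

theorem ps_zero {c : ℤ} {σ : G} : ps c σ = 0 ↔ cq c σ = 1 := by
  unfold ps cq
  split_ifs <;> simp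

theorem ps_mul (c : ℤ) (σ τ : G) : ps c (σ * τ) = ps c σ + ps c τ := by
  by_cases hc : c = 0
  · have : rt c = 0 := pow_eq_zero_iff two_ne_zero |>.1 (by rw [rt_sq, hc, Int.cast_zero])
    simp [ps, this]
  have h := Ep.chi_mul (rt_ne hc) (fun σ => ⟨cq_or c σ, cq_app c σ (rt_sq c)⟩) σ τ
  have z : ∀ a b e : ZMod 2, (e = 0 ↔ (a = 0 ↔ b = 0)) → e = a + b := by decide
  refine z _ _ _ ?_
  rw [ps_zero, ps_zero, ps_zero, h]
  rcases cq_or c σ with a | a <;> rcases cq_or c τ with b | b <;> simp [a, b]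

theorem tw_two (c : ℤ) (σ : G) {T : Pt} (h : 2 • T = 0) : tw c σ T = σ • T :=
  Ep.chi_two (s := rt c) (fun σ => ⟨cq_or c σ, cq_app c σ (rt_sq c)⟩) σ (Ep.two_smul' σ h)

theorem cy_two {c : ℤ} {x : G → Pt} (h : Cy c 1 x) (σ : G) : 2 • x σ = 0 := by
  simpa using h.tor σ

theorem cy_mul1 {c : ℤ} {x : G → Pt} (h : Cy c 1 x) (σ τ : G) : x (σ * τ) = x σ + σ • x τ := by
  rw [h.mul, tw_two c σ (cy_two h τ)]

theorem cy_right {c : ℤ} {k : ℕ} {x : G → Pt} (h : Cy c k x) (σ : G) {τ : G} (e : x τ = 0) :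
    x (σ * τ) = x σ := by
  rw [h.mul, e, tw, smul_zero, smul_zero, add_zero]

theorem cy_fn {c : ℤ} {k : ℕ} {x : G → Pt} (h : Cy c k x) : Fn x := by
  obtain ⟨J, a, b⟩ := h.fin
  refine ⟨J, a, fun σ τ e => ?_⟩
  rw [← mul_inv_cancel_left σ τ, cy_right h σ (b _ fun y hy => ?_)]
  rw [RingAut.mul_apply, ← e y hy]
  exact σ.symm_apply_apply y

theorem sg_one {c : G → G → ZMod 2} {ε : G → ZMod 2} (h : Sg c ε) (e : c 1 1 = 0) : ε 1 = 0 := by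
  have := h.2 1 1
  rw [e, mul_one, CharTwo.add_self_eq_zero, zero_add] at this
  exact this.symm

theorem sg_mul {x y : G → Pt} {ε : G → ZMod 2} (h : Sg (cup x y) ε) (σ τ : G) :
    ε (σ * τ) = ε σ + ε τ + ep (x σ) (σ • y τ) := by
  have := h.2 σ τ
  rw [cup] at this
  rw [this, ← add_assoc, CharTwo.add_self_eq_zero, zero_add]

/-- The coordinates of the points of order two. -/
theorem fn_two : ∃ J : Finset ℂ, Al J ∧ ∀ σ τ, Ag J σ τ → ∀ T : Pt, 2 • T = 0 → σ • T = τ • T := by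
  classical
  obtain ⟨a, b⟩ := Cheb.tors rAll.1 1
  refine ⟨a.toFinset.image xc ∪ a.toFinset.image yc, fun z hz => ?_, fun σ τ h T hT => ?_⟩
  · simp only [Finset.mem_union, Finset.mem_image, Set.Finite.mem_toFinset] at hz
    rcases hz with ⟨T, hT, rfl⟩ | ⟨T, hT, rfl⟩
    exacts [(b T hT).1, (b T hT).2]
  · have m : T ∈ a.toFinset := a.mem_toFinset.2 (by simpa using hT)
    exact Ep.smul_congr (h _ (Finset.mem_union_left _ (Finset.mem_image_of_mem _ m)))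
      (h _ (Finset.mem_union_right _ (Finset.mem_image_of_mem _ m)))

variable {O : ValuationSubring ℂ} {v : ℕ}

theorem wl_ine {σ : G} (h : Frob O 1 σ) : Wl O v σ := ⟨0, by rwa [pow_zero]⟩

theorem wl_split (hv : v.Prime) (hO : Ov O v) {φ σ : G} (hφ : Frob O v φ) (h : Wl O v σ) :
    ∃ (n : ℕ) (i : G), Frob O 1 i ∧ σ = φ ^ n * i := by
  obtain ⟨n, h⟩ := h
  exact ⟨n, _, vAll.2.1.2.2.1 O v n _ _ hv hO (Loc0.frob_pow hφ n) h, by group⟩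

theorem ine_sq (hv : v.Prime) (h2 : v ≠ 2) (hO : Ov O v) {c : ℤ} (hc : ¬ (v : ℤ) ∣ c) {σ : G}
    (h : Frob O 1 σ) : cq c σ = 1 := by
  obtain ⟨φ, hφ⟩ := vAll.1.2.2.2.2 v O hv hO
  have c0 : c ≠ 0 := fun e => hc (e ▸ dvd_zero _)
  have a := vAll.2.1.2.2.2.2.2.2.2.2 v O φ _ c hv h2 hc hO hφ (rt_sq c)
  have b := vAll.2.1.2.2.2.2.2.2.2.2 v O (φ * σ) _ c hv h2 hc hO
    (by simpa using vAll.2.1.1 O v 1 φ σ hφ h hv.ne_zero) (rt_sq c)
  refine cq_eq c0 (rt_sq c) ?_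
  rw [← a, RingAut.mul_apply] at b
  simpa using φ.injective b

theorem ine_two (hv : v.Prime) (h2 : v ≠ 2) (h11 : v ≠ 11) (hO : Ov O v) {σ : G} (h : Frob O 1 σ)
    {T : Pt} (hT : 2 • T = 0) : σ • T = T := by
  obtain ⟨-, -, a, -, b, -⟩ := rAll.2 v O hv h2 h11 hO
  refine sub_eq_zero.1 (b 1 _ ?_ (a σ T h ((Cheb.tors rAll.1 1).2 T (by simpa using hT))))
  rw [pow_one, smul_sub, Ep.two_smul' σ hT, hT, sub_self]

theorem kl_ine (hv : v.Prime) (h2 : v ≠ 2) (h11 : v ≠ 11) (hO : Ov O v) {c : ℤ}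
    (hc : ¬ (v : ℤ) ∣ c) {k : ℕ} {x : G → Pt} (hx : Cy c k x) (hk : Kl c O v x) {σ : G}
    (h : Frob O 1 σ) : x σ = 0 := by
  obtain ⟨-, -, a, -, b, -⟩ := rAll.2 v O hv h2 h11 hO
  obtain ⟨S, s1, s2⟩ := hk
  refine b k _ (hx.tor σ) ?_
  rw [s2 σ (wl_ine h), tw, ine_sq hv h2 hO hc h, one_smul]
  exact a σ S h s1

theorem frob_two {q : ℕ} (h8 : q % 8 = 7) (hO : Ov O 2) {φ : G} (hφ : Frob O 2 φ) :
    φ (om q) = om q := by
  obtain ⟨n, hn⟩ : ∃ n : ℕ, (q + 1) / 4 = 2 * n := ⟨(q + 1) / 8, by omega⟩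
  have e : om q ^ 2 = om q - 2 * n := by
    rw [om_sq (by omega), hn]
    push_cast
    ring
  have a : IsAlgebraic ℚ (om q) := by
    have := Cheb.alg_sq (Cheb.om_sqz q)
    have k : om q = (2 * om q - 1 + 1) * ((2⁻¹ : ℚ) : ℂ) := by push_cast; ring
    rw [k]
    exact (this.add isAlgebraic_one).mul (isAlgebraic_ratCast _ _)
  have m : om q ∈ O := by
    by_contra h
    have h0 : om q ≠ 0 := fun k => h (k ▸ zero_mem O)
    have h1 : (om q)⁻¹ ∈ O := (O.mem_or_inv_mem _).resolve_left h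
    have k : om q = 1 - 2 * n * (om q)⁻¹ := by
      field_simp
      linear_combination e
    exact h (k ▸ sub_mem (one_mem O) (mul_mem (mul_mem (ofNat_mem O 2) (natCast_mem O n)) h1))
  have t : ∀ z ∈ O, 2 * z ∈ O.nonunits := fun z hz => by
    have h2 : O.valuation 2 < 1 := by simpa using O.mem_nonunits_iff.1 hO
    rw [O.mem_nonunits_iff, map_mul]
    exact mul_lt_one_of_lt_of_le h2 ((O.valuation_le_one_iff z).2 hz)
  by_contra h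
  have k : φ (om q) = 1 - om q := by
    rw [Cheb.om_eq, (Cheb.sq_cases (Cheb.om_sqz q) φ).resolve_left fun k => h (by
      rw [Cheb.om_eq, k]; ring)]
    ring
  have b := (hφ _ a m).2
  rw [k, e] at b
  have b' := add_mem b (t (om q - n) (sub_mem m (natCast_mem O n)))
  rw [show 1 - om q - (om q - 2 * n) + 2 * (om q - n) = 1 by ring, O.mem_nonunits_iff] at b'
  simp at b'

theorem wl_om {d : ℤ} {N q : ℕ} (h : Aq d N q) (hv : v.Prime) (hN : v ≤ N) (hO : Ov O v) {σ : G}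
    (hσ : Wl O v σ) : cq (-q) σ = 1 := by
  have hq := h.qd.qf.pr
  have n : v ≠ q := by have := h.big; omega
  obtain ⟨φ, hφ⟩ := vAll.1.2.2.2.2 v O hv hO
  obtain ⟨n', i, hi, rfl⟩ := wl_split hv hO hφ hσ
  have a : φ (om q) = om q := by
    by_cases h2 : v = 2
    · subst h2
      exact frob_two h.m8 hO hφ
    · exact (vAll.2.1.2.2.2.2.2.2.2.1 q v O φ hq h.qd.qf.m4 hv h2 n hO hφ).2 (h.spl v hv h2 hN)
  have b := vAll.2.1.2.2.2.2.2.2.1 q v O i hq h.qd.qf.m4 hv n hO hi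
  refine cq_eq (by simpa using hq.ne_zero) (Cheb.om_sqz q) ?_
  rw [map_sub, map_mul, map_one, map_ofNat, RingAut.mul_apply, b, Cheb.pow_fix a]
  simp

end RelA

open RelA in
theorem rel_thm (hIso : IsoStmt) (hUnr : UnrStmt) (hRec : RecStmt) (hBl : BlStmt) : RelStmt := by
  classical
  intro d N q₁ q₂ O₁ O₂ f₁ f₂ x₁ x₂ β ε h11 hdN a₁ a₂ hne o₁ o₂ φ₁ φ₂ s₁ s₂ h2 sβ βc β₁ β₂ hε hI
  have p₁ := a₁.qd.qf.pr
  have p₂ := a₂.qd.qf.pr
  have d0 : d ≠ 0 := fun h => by have := a₁.qd.fam.m4; omega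
  have n₁ : (q₁ : ℤ) ≠ 0 := by exact_mod_cast p₁.ne_zero
  have n₂ : (q₂ : ℤ) ≠ 0 := by exact_mod_cast p₂.ne_zero
  have b2 := cy_two sβ.cy
  have c₁ : ∀ σ, cq (-(q₁ * d)) σ = cq (-q₁) σ * cq d σ := fun σ => by
    rw [← neg_mul, cq_mul2 (neg_ne_zero.2 n₁) d0]
  have c₂ : ∀ σ, cq (-(q₂ * d)) σ = cq (-q₂) σ * cq d σ := fun σ => by
    rw [← neg_mul, cq_mul2 (neg_ne_zero.2 n₂) d0]
  have c₃ : ∀ σ, cq (q₁ * q₂) σ = cq (-q₁) σ * cq (-q₂) σ := fun σ => by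
    rw [← neg_mul_neg, cq_mul2 (neg_ne_zero.2 n₁) (neg_ne_zero.2 n₂)]
  obtain ⟨Γ, hΓ⟩ : ∃ Γ : G → Pt, ∀ σ, Γ σ = x₁ σ - x₂ σ := ⟨_, fun _ => rfl⟩
  obtain ⟨α, hα⟩ : ∃ α : G → Pt, α = 2 • x₁ := ⟨_, rfl⟩
  have α1 : ∀ σ, α σ = 2 • x₁ σ := fun σ => by rw [hα]; rfl
  have α2 : ∀ σ, 2 • α σ = 0 := fun σ => by
    rw [α1, ← mul_smul]
    exact s₁.cy.tor σ
  rw [← hα] at hε
  have Γ2 : ∀ σ, 2 • Γ σ = 0 := fun σ => by
    rw [hΓ, smul_sub, sub_eq_zero]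
    exact congrFun h2 σ
  have Γm : ∀ σ τ, Γ (σ * τ) = Γ σ + σ • Γ τ +
      if ps (q₁ * q₂) σ = 0 then 0 else σ • α τ := fun σ τ => by
    rw [← tw_two (-(q₂ * d)) σ (Γ2 τ), hΓ, hΓ, hΓ, s₁.cy.mul, s₂.cy.mul, tw, tw, tw, c₁, c₂,
      smul_sub, smul_sub]
    simp only [ps_zero, c₃]
    have t : σ • α τ = (2 : ℤ) • σ • x₁ τ := by rw [α1, smul_comm]; exact (natCast_zsmul _ 2).symm
    have t' : σ • α τ = (-2 : ℤ) • σ • x₁ τ := by
      rw [neg_smul, ← t, Ep.neg_two (Ep.two_smul' σ (α2 τ))]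
    rcases cq_or (-q₁) σ with a | a <;> rcases cq_or (-q₂) σ with b | b <;>
      rcases cq_or d σ with e | e <;> simp only [a, b, e] <;> norm_num <;>
      first | abel1 | (rw [t]; abel1) | (rw [t']; abel1)
  obtain ⟨c, hc⟩ : ∃ c : G → G → ZMod 2,
      ∀ σ τ, c σ τ = ep (Γ σ) (σ • β τ) + ps (q₁ * q₂) σ * ε τ := ⟨_, fun _ _ => rfl⟩
  have C : C2 c := by
    obtain ⟨J₁, j₁, k₁⟩ := cy_fn s₁.cy
    obtain ⟨J₂, j₂, k₂⟩ := cy_fn s₂.cy
    obtain ⟨J₃, j₃, k₃⟩ := cy_fn sβ.cy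
    obtain ⟨J₄, j₄, k₄⟩ := hε.1
    obtain ⟨J₅, j₅, k₅⟩ := fn_two
    refine ⟨⟨insert (rt (q₁ * q₂)) (J₁ ∪ (J₂ ∪ (J₃ ∪ (J₄ ∪ J₅)))), fun z hz => ?_,
      fun σ σ' τ τ' u w => ?_⟩, fun σ τ υ => ?_⟩
    · simp only [Finset.mem_insert, Finset.mem_union] at hz
      rcases hz with rfl | hz | hz | hz | hz | hz
      exacts [Cheb.alg_sq (rt_sq _), j₁ z hz, j₂ z hz, j₃ z hz, j₄ z hz, j₅ z hz]
    · rw [hc, hc, hΓ, hΓ, k₁ σ σ' fun z hz => u z (by simp [hz]),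
        k₂ σ σ' fun z hz => u z (by simp [hz]), k₃ τ τ' fun z hz => w z (by simp [hz]),
        k₄ τ τ' fun z hz => w z (by simp [hz]),
        k₅ σ σ' (fun z hz => u z (by simp [hz])) _ (b2 τ'), ps, ps, u _ (by simp)]
    · have t1 := Ep.two_smul' σ (b2 τ)
      have t2 := Ep.two_smul' σ (Ep.two_smul' τ (b2 υ))
      have t3 := Ep.two_smul' σ (Γ2 τ)
      have z : ∀ a : ZMod 2, a + a = 0 := by decide
      have z' : ∀ a : ZMod 2, a ≠ 0 → a = 1 := by decide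
      rw [hc, hc, hc, hc, Γm, cy_mul1 sβ.cy, sg_mul hε, ps_mul, smul_add, mul_smul, epE,
        Ep.ep_add_right (Γ2 σ) t1 t2]
      split_ifs with e
      · rw [add_zero, Ep.ep_add_left (Γ2 σ) t3 t2, Ep.ep_smul, e]
        ring
      · rw [Ep.ep_add_left (Ep.two_add (Γ2 σ) t3) (Ep.two_smul' σ (α2 τ)) t2,
          Ep.ep_add_left (Γ2 σ) t3 t2, Ep.ep_smul, Ep.ep_smul, z' _ e]
        ring
  have nd : ∀ v : ℕ, N < v → ¬ (v : ℤ) ∣ d := fun v hv h => by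
    have := Nat.le_of_dvd (Int.natAbs_pos.2 d0) (Int.natCast_dvd.1 h)
    omega
  have βI : ∀ (v : ℕ) O (σ : G), v.Prime → N < v → Ov O v → Frob O 1 σ → β σ = 0 :=
    fun v O σ hv h hO hσ => kl_ine hv (by omega) (by omega) hO (nd v h) sβ.cy
      (sβ.kl v O hv (by simp) hO) hσ
  have loc : ∀ (v : ℕ) O, v.Prime → v ≠ q₁ → v ≠ q₂ → Ov O v → Sp O v c := by
    intro v O hv v₁ v₂ hO
    by_cases h : v ≤ N
    · obtain ⟨S₁, t₁, u₁⟩ := s₁.kl v O hv (by simp) hO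
      obtain ⟨S₂, t₂, u₂⟩ := s₂.kl v O hv (by simp) hO
      obtain ⟨η, e₁, e₂⟩ := hIso d v O Γ β d0 hv hO Γ2 b2 ⟨S₁ - S₂,
        sub_eq_add_neg S₁ S₂ ▸ rAll.1.1.2.1 _ _ t₁ (rAll.1.1.2.2.1 _ t₂), fun σ hσ => by
          rw [hΓ, u₁ σ hσ, u₂ σ hσ, tw, tw, tw, c₁, c₂, wl_om a₁ hv h hO hσ, wl_om a₂ hv h hO hσ,
            one_mul, smul_sub, smul_sub]
          abel⟩ (sβ.kl v O hv (by simp) hO)
      refine ⟨η, e₁, fun σ τ hσ hτ => ?_⟩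
      rw [← e₂ σ τ hσ hτ, hc, ps_zero.2 (by
        rw [c₃, wl_om a₁ hv h hO hσ, wl_om a₂ hv h hO hσ, one_mul]), zero_mul, add_zero, cup]
    have h' : N < v := not_le.1 h
    have v2 : v ≠ 2 := by omega
    have v11 : v ≠ 11 := by omega
    have pv : Prime (v : ℤ) := Nat.prime_iff_prime_int.1 hv
    have w₁ : ¬ (v : ℤ) ∣ q₁ := fun k =>
      v₁ ((Nat.prime_dvd_prime_iff_eq hv p₁).1 (Int.natCast_dvd_natCast.1 k))
    have w₂ : ¬ (v : ℤ) ∣ q₂ := fun k =>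
      v₂ ((Nat.prime_dvd_prime_iff_eq hv p₂).1 (Int.natCast_dvd_natCast.1 k))
    refine hUnr v O c hv hO C fun n n' σ σ' τ τ' a a' b b' => ?_
    have i := vAll.2.1.2.2.1 O v n _ _ hv hO a a'
    have j := vAll.2.1.2.2.1 O v n' _ _ hv hO b b'
    rw [← mul_inv_cancel_left σ σ', ← mul_inv_cancel_left τ τ']
    generalize σ⁻¹ * σ' = i' at i
    generalize τ⁻¹ * τ' = j' at j
    rw [hc, hc, hΓ, hΓ,
      cy_right s₁.cy σ (kl_ine hv v2 v11 hO (fun k => (pv.dvd_or_dvd (dvd_neg.1 k)).elim w₁ (nd v h'))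
        s₁.cy (s₁.kl v O hv (by simp) hO) i),
      cy_right s₂.cy σ (kl_ine hv v2 v11 hO (fun k => (pv.dvd_or_dvd (dvd_neg.1 k)).elim w₂ (nd v h'))
        s₂.cy (s₂.kl v O hv (by simp) hO) i),
      cy_right sβ.cy τ (βI v O _ hv h' hO j), mul_smul, ine_two hv v2 v11 hO i (b2 τ), ps_mul,
      ps_zero.2 (ine_sq hv v2 hO (fun k => (pv.dvd_or_dvd k).elim w₁ w₂) i), sg_mul hε,
      hI v O _ hv h' hO j, βI v O _ hv h' hO j, smul_zero, epE, Ep.ep_zero_right]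
    simp
  have β1 : β 1 = 0 := by
    have := cy_mul1 sβ.cy 1 1
    simpa using this
  have inf : c cj cj = c 1 1 := by
    have r : cq (q₁ * q₂) cj = 1 := cq_eq (mul_ne_zero n₁ n₂) (u := (Real.sqrt (q₁ * q₂) : ℝ))
      (by rw [← Complex.ofReal_pow, Real.sq_sqrt (by positivity)]; simp) (by simp)
    rw [hc, hc, βc, β1, smul_zero, smul_zero, epE, Ep.ep_zero_right, Ep.ep_zero_right, ps_zero.2 r]
    simp [ps]
  have sf : Squarefree ((q₁ : ℤ) * q₂) := by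
    rw [← Nat.cast_mul, Int.squarefree_natCast,
      Nat.squarefree_mul ((Nat.coprime_primes p₁ p₂).2 hne)]
    exact ⟨p₁.squarefree, p₂.squarefree⟩
  have key : ∀ (q : ℕ) O (f : G), Aq d N q → (q : ℤ) ∣ q₁ * q₂ → Ov O q → Frob O q f → β f = 0 →
      (Sp O q c ↔ ε f = 0) := by
    intro q O f a hq hO hf hβ
    have p := a.qd.qf.pr
    obtain ⟨L, _, _, θ, hθ⟩ := Final.exists_cub
    obtain ⟨σ₀, i₀, m₀⟩ := (link1All L θ hθ).2.1 q O _ _ p hO (rt_sq (q₁ * q₂)) sf hq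
    have z : ∀ τ, Wl O q τ → β τ = 0 := fun τ hτ => by
      obtain ⟨n, i, hi, rfl⟩ := wl_split p hO hf hτ
      rw [cy_right sβ.cy _ (βI q O i p a.big hO hi)]
      clear hτ
      induction n with
      | zero => exact β1
      | succ n ih => rw [pow_succ, cy_right sβ.cy _ hβ, ih]
    refine hBl q O (q₁ * q₂) ε c σ₀ f p (by have := a.big; omega) hO i₀ (fun k => ?_) hf
      (fun σ τ _ hτ => ?_) (fun σ hσ => hI q O σ p a.big hO hσ) fun σ τ _ hτ => ?_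
    · exact rt_ne (mul_ne_zero n₁ n₂) (by linear_combination (m₀ - k) / 2)
    · rw [sg_mul hε, z τ hτ, smul_zero, epE, Ep.ep_zero_right, add_zero]
    · rw [hc, z τ hτ, smul_zero, epE, Ep.ep_zero_right, zero_add]
  have k₁ := key q₁ O₁ f₁ a₁ (dvd_mul_right _ _) o₁ φ₁ β₁
  have k₂ := key q₂ O₂ f₂ a₂ (dvd_mul_left _ _) o₂ φ₂ β₂
  have z : ∀ a b : ZMod 2, (a = 0 ↔ b = 0) → a = b := by decide
  exact z _ _ ⟨fun h => k₂.1 (hRec c q₁ q₂ O₁ O₂ C p₁ p₂ hne o₁ o₂ loc inf (k₁.2 h)),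
    fun h => k₁.1 (hRec c q₂ q₁ O₂ O₁ C p₂ p₁ hne.symm o₂ o₁
      (fun v O hv a b => loc v O hv b a) inf (k₂.2 h))⟩

end Pool.Agent.Lib.MP_d6ddbd_nt.KI
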