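import Pool.Agent.Lib.MP_d6ddbd_nt.K11.Stmt

/-! The system of classes modulo a power of two: definitions and statement. -/

set_option autoImplicit false

open NumberField

noncomputable section

namespace Pool.Agent.Lib.MP_d6ddbd_nt.K11

/-- Kolyvagin primes of level `m`. -/
structure KolM (q : ℕ) (d : ℤ) (m p : ℕ) : Prop where
  kol : Kol q d p
  dv : 2 ^ m ∣ p + 1
  fr : ∃ (O : ValuationSubring ℂ) (φ : G), Ov O p ∧ Frob O p φ ∧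
    ∀ T : Pt, 2 ^ m • T = 0 → φ • φ • T = T

/-- Good primes for the numbers `π v`, `v = 2, 11`. -/
structure Gd (q : ℕ) (d : ℤ) (m : ℕ) (π : ℕ → ℂ) (p : ℕ) : Prop where
  km : KolM q d m p
  gd : ∀ v, v = 2 ∨ v = 11 → ∃ O, Ov O p ∧
    (starRingEnd ℂ (π v) / π v) ^ ((p + 1) / 2 ^ m) - 1 ∈ O.nonunits

/-- The twist that carries the class of conductor `n`. -/
def tw (q : ℕ) (d : ℤ) (n : Finset ℕ) : ℤ :=
  if jacobiSym (-11) d.natAbs * (-1) ^ n.card = -1 then d else -q * d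

/-- Core vertices. -/
def Core {L : Type} [Field L] [NumberField L] (θ : L) (q : ℕ) (d : ℤ) (n : Finset ℕ) : Prop :=
  ∀ α : L, Wc d n α → (∀ 𝔭 ∈ D1 L d, bv θ d 𝔭 α = 0) → (∀ p ∈ n, fv p α = 0) → fv q α = 0 →
    IsSquare α

/-- The system of classes `x n` modulo `2 ^ (tt d + 1 + s)`, with the points `S n` and the sign
characters `χ n`. -/
structure KX {L : Type} [Field L] [NumberField L] (θ : L) (q : ℕ) (d : ℤ) (m s : ℕ) (π : ℕ → ℂ)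
    (x : Finset ℕ → G → Pt) (S : Finset ℕ → Pt) (χ : Finset ℕ → G → ℤ) : Prop where
  pi : ∀ v, v = 2 ∨ v = 11 → π v ∈ OK q ∧ ∃ h : ℕ, Complex.normSq (π v) = (v : ℝ) ^ h
  sgn : ∀ n σ, χ n σ = 1 ∨ χ n σ = -1
  chi : ∀ n (σ : G) (u : ℂ), u ^ 2 = tw q d n → σ u = χ n σ * u
  alg : ∀ n, AlgP (S n)
  tor : ∀ n σ, (∀ p ∈ n, KolM q d m p) → 2 ^ (tt d + 1 + s) • x n σ = 0
  mul : ∀ n σ τ, (∀ p ∈ n, KolM q d m p) → x n (σ * τ) = x n σ + χ n σ • σ • x n τ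
  fin : ∀ n, ∃ J : Finset ℂ, (∀ z ∈ J, IsAlgebraic ℚ z) ∧
    ∀ σ : G, (∀ z ∈ J, σ z = z) → x n σ = 0
  iner : ∀ n (v : ℕ) O (σ : G), (∀ p ∈ n, KolM q d m p) → v.Prime → v ∉ n → Ov O v →
    Frob O 1 σ → σ (om q) = om q → x n σ = χ n σ • σ • S n - S n
  frob : ∀ v, v = 2 ∨ v = 11 → ∃ (O : ValuationSubring ℂ) (φ : G), Ov O v ∧ Frob O v φ ∧
    φ (om q) = om q ∧ ∀ n, (∀ p ∈ n, Gd q d m π p) → x n φ = χ n φ • φ • S n - S n
  bot : ∀ σ, x ∅ σ = χ ∅ σ • σ • S ∅ - S ∅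
  atp : ∀ n p O (σ φ : G) (u : ℂ), (∀ p ∈ n, KolM q d m p) → KolM q d m p → p ∉ n → Ov O p →
    Frob O 1 σ → Frob O p φ → u ^ 2 = GF.pst p → σ u = -u →
    (∃ o : ℤ, Odd o ∧ φ • x (insert p n) σ = o • x n (φ * φ)) ∧ x (insert p n) (φ * φ) = 0
  core : ∀ n, (∀ p ∈ n, KolM q d m p) → Core θ q d n → ∃ α : L,
    Coc (fun σ => 2 ^ s • x n σ) ∧ Kum θ α (fun σ => 2 ^ s • x n σ) ∧ Wc d (insert q n) α ∧
      (∀ 𝔭 ∈ D1 L d, bv θ d 𝔭 α = 0) ∧ (∀ p ∈ n, fv p α = 0) ∧ ¬ IsSquare α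

/-- The system exists. -/
def SysStmt : Prop := ∀ (L : Type) [Field L] [NumberField L] (θ : L), Cub θ →
  ∀ (q : ℕ) (d : ℤ) (m s : ℕ), QD q d → q % 8 = 7 → tt d + s + 3 ≤ m →
    ∃ π x S χ, KX θ q d m s π x S χ

/-- The linear algebra at an arbitrary core vertex. -/
def AswStmt : Prop := ∀ (L : Type) [Field L] [NumberField L] (θ : L), Cub θ →
  ∀ (q : ℕ) (d : ℤ) (M : ℕ) (α : Finset ℕ → ℕ → L), QD q d → KL θ q d M α → M ≤ tt d →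
    ∀ n, Kn q d n → Core θ q d n → M = tt d ∧ ¬ IsSquare (α n 0)

/-- From cocycles to classes, with the dictionary at every vertex. -/
def CK2Stmt : Prop := ∀ (L : Type) [Field L] [NumberField L] (θ : L), Cub θ →
  ∀ (q : ℕ) (d : ℤ) (r M : ℕ) ξ, QD q d → RD q d r → KS q d r M ξ →
    ∃ α : Finset ℕ → ℕ → L, KL θ q d M α ∧ ∀ n, Kn q d n → Kum θ (α n 0) (ξ n 0)

/-- The Heegner system, with the coordinates of Frobenius elements. -/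
def P2Stmt : Prop := ∀ Pp a t0, XI Pp a t0 → ∀ (q : ℕ) (k : ℕ → ℕ), QF q → Adm q k →
  ∃ S ρ ν j, HS q k a S ρ ν j ∧ ∀ (v : ℕ) O (φ : G), v.Prime → Ov O v → Frob O v φ →
    φ (om q) = om q → ∃ π ∈ OK q, (∃ h : ℕ, Complex.normSq π = (v : ℝ) ^ h) ∧
      ∀ (l : ℕ) O', k l ≠ 0 → l ≠ v → ¬ Spl q l → Ov O' l →
        (starRingEnd ℂ π / π) ^ ((l + 1) / 2 ^ k l) - 1 ∈ O'.nonunits → ρ φ l = 0

end Pool.Agent.Lib.MP_d6ddbd_nt.K11
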