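import Pool.Agent.Lib.MP_d6ddbd_nt.KI.Bas
import Pool.Agent.Lib.MP_d6ddbd_nt.KI.SysD
import Pool.Agent.Lib.MP_d6ddbd_nt.K11.Kum
import Pool.Agent.Lib.MP_d6ddbd_nt.K11.Pr

/-!
The full two-converse for the quadratic twists of `X₀(11)`: the system of level `k`.
-/

set_option autoImplicit false

open Pool.Agent.Lib.MP_d6ddbd_nt.K11

noncomputable section

namespace Pool.Agent.Lib.MP_d6ddbd_nt.KI

theorem Sys.km {m q p : ℕ} {d : ℤ} (hm : tt d + 3 ≤ m) (h : KolI m q d p) : KolM q d m p :=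
  let ⟨O, φ, a, b, c⟩ := h.fr
  ⟨⟨h.pr, h.n11, h.nq, h.nd, (pow_dvd_pow 2 hm).trans h.dv, h.inert, h.ty, O, φ, a, b,
    fun T hT => c T (tor_mono hm hT)⟩, h.dv, h.fr⟩

theorem sys_thm (h1 : K11.SysStmt) (h2 : LocxStmt) : SysStmt := by
  classical
  intro L _ _ θ hθ q d s hq h7
  obtain ⟨π, x, S, χ, X⟩ := h1 L θ hθ q d (tt d + s + 3) s hq h7 le_rfl
  have hm : tt d + 3 ≤ tt d + s + 3 := by omega
  generalize hM : tt d + s + 3 = m at X hm
  choose w hw using fun v : ℕ =>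
    IsAlgClosed.exists_pow_nat_eq (starRingEnd ℂ (π v) / π v) (Nat.two_pow_pos m)
  have e : ∀ n, K11.tw q d n = twn q d n := fun n => by rw [K11.tw, twn, neg_mul]
  have d0 : d ≠ 0 := hq.fam.sf.ne_zero
  have t0 : ∀ n, twn q d n ≠ 0 := fun n => by
    rcases twn_or q d n with h | h <;> rw [h]
    · exact d0
    · exact neg_ne_zero.2 (mul_ne_zero (by exact_mod_cast hq.qf.pr.ne_zero) d0)
  have hχ : ∀ n σ P, χ n σ • σ • P = tw (twn q d n) σ P := fun n σ P => by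
    rw [tw, cq_of (t0 n) (rt_sq _) (X.chi n σ _ (by rw [e, rt_sq]))]
  have km : ∀ n, KnI m q d n → ∀ p ∈ n, KolM q d m p := fun n hn p hp => Sys.km hm (hn p hp)
  have cy : ∀ n, KnI m q d n → Cy (twn q d n) (tt d + 1 + s) (x n) := fun n hn =>
    ⟨fun σ => X.tor n σ (km n hn), fun σ τ => by rw [X.mul n σ τ (km n hn), hχ], X.fin n⟩
  have atp : AtK m q d x := fun n p O σ φ hn hp a b c f g =>
    X.atp n p O σ φ _ (km n hn) (Sys.km hm hp) a b c f (rt_sq _) (rt_neg g)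
  refine ⟨tt d + 1 + s, m, {w 2, w 11}, x, by omega, by omega, fun u hu => ?_, cy,
    fun n hn hg => ?_, atp, fun n hn hc => ?_, S ∅, X.alg ∅, fun σ => by rw [X.bot, hχ]⟩
  · obtain ⟨v, hv, rfl⟩ : ∃ v, (v = 2 ∨ v = 11) ∧ u = w v := by
      rcases Finset.mem_insert.1 hu with h | h
      · exact ⟨2, Or.inl rfl, h⟩
      · exact ⟨11, Or.inr rfl, Finset.mem_singleton.1 h⟩
    obtain ⟨a, h, b⟩ := X.pi v hv
    refine ⟨π v, a, fun z => ?_, hw v⟩
    rw [z, map_zero] at b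
    have : (0 : ℝ) < (v : ℝ) ^ h := by rcases hv with rfl | rfl <;> positivity
    exact this.ne b
  · refine h2 q d _ _ n _ (S n) hq (twn_or q d n) (cy n hn) (X.alg n)
      (fun v O σ a b c f g => by rw [X.iner n v O σ (km n hn) a b c f g, hχ]) (fun v hv => ?_)
      fun p hp O φ a b => ?_
    · obtain ⟨O, φ, a, b, -, c⟩ := X.frob v hv
      refine ⟨O, φ, a, b, ?_⟩
      rw [c n fun p hp => ⟨km n hn p hp, fun v' hv' => ?_⟩, hχ]
      obtain ⟨O', f, g⟩ := hg p hp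
      refine ⟨O', f, ?_⟩
      rw [← hw, ← pow_mul, Nat.mul_div_cancel' (hn p hp).dv]
      exact g _ (by rcases hv' with rfl | rfl <;> simp)
    · obtain ⟨σ, f, g⟩ := ex_ine_pst (hn p hp).pr a
      have := (atp (n.erase p) p O σ φ (fun p' h => hn p' (Finset.mem_of_mem_erase h)) (hn p hp)
        (Finset.notMem_erase p n) a f b g).2
      rwa [Finset.insert_erase hp] at this
  · obtain ⟨α, a, b, c, -, -, f⟩ := X.core n (km n hn) fun α a b c f => hc α ⟨a, b, c, f⟩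
    refine ⟨fun σ => ?_, fun h => f ?_⟩
    · rw [pow_succ', mul_smul]
      exact a.two σ
    · exact ((kum_thm vA rA pr_thm L θ hθ).2 α _ c.ne a b).2 ((cb_cob_iff a.two).1 h)

end Pool.Agent.Lib.MP_d6ddbd_nt.KI
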