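import Pool.Agent.Lib.MP_d6ddbd_nt.KI.SysD
import Pool.Agent.Lib.MP_d6ddbd_nt.K11.AllX

/-! The linear algebra at an arbitrary core vertex. -/

set_option autoImplicit false

open NumberField
open Pool.Agent.Stark (Pr og hq SqCl cl cl_surj cl_mul cl_eq_zero cl_eq_cl)

noncomputable section

namespace Pool.Agent.Lib.MP_d6ddbd_nt.K11

namespace Asw

open Module

variable {W U P : Type} [AddCommGroup W] [Module (ZMod 2) W] [AddCommGroup U] [Module (ZMod 2) U]

theorem cut (V V' : Submodule (ZMod 2) W) [Module.Finite (ZMod 2) V] (t : Finset P)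
    (f : P → W →ₗ[ZMod 2] ZMod 2) (h : V' ≤ V) (h' : ∀ x ∈ V, (∀ p ∈ t, f p x = 0) → x ∈ V') :
    Module.Finite (ZMod 2) V' ∧ finrank (ZMod 2) V ≤ t.card + finrank (ZMod 2) V' := by
  have := Submodule.finiteDimensional_of_le h
  let g := (LinearMap.pi fun p : t => f p).comp V.subtype
  have h1 := (LinearMap.range g).finrank_le
  have h2 : (LinearMap.ker g).map V.subtype ≤ V' := by
    rintro _ ⟨x, hx, rfl⟩
    exact h' _ x.2 fun p hp => congrFun hx ⟨p, hp⟩
  have h3 := Submodule.finrank_mono h2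
  have h4 := g.finrank_range_add_finrank_ker
  rw [Submodule.finrank_map_subtype_eq] at h3
  rw [finrank_fintype_fun_eq_card, Fintype.card_coe] at h1
  exact ⟨this, by omega⟩

theorem swap [Module.Finite (ZMod 2) U] [DecidableEq P] (n₀ : Finset P)
    (β : U →ₗ[ZMod 2] U →ₗ[ZMod 2] ZMod 2) (a b : W →ₗ[ZMod 2] U)
    (s f : P → W →ₗ[ZMod 2] ZMod 2) (sq fq : W →ₗ[ZMod 2] ZMod 2) (M : ℕ) (κ : Finset P → ℕ → W)
    (h1 : ∀ x, {p | s p x ≠ 0}.Finite)
    (h2 : ∀ x y (B : Finset P), (∀ p ∉ B, s p x = 0 ∧ s p y = 0) → β (a x) (b y) + β (b x) (a y) +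
      (sq x * fq y + fq x * sq y) + ∑ p ∈ B, (s p x * f p y + f p x * s p y) = 0)
    (h3 : ∀ n : Finset P,
      Module.Finite (ZMod 2) (⨅ p ∉ n, LinearMap.ker (s p) : Submodule (ZMod 2) W) ∧
      finrank (ZMod 2) U + 1 + n.card ≤
        finrank (ZMod 2) (⨅ p ∉ n, LinearMap.ker (s p) : Submodule (ZMod 2) W))
    (h4 : ∀ (T : Finset W) (lam : W →ₗ[ZMod 2] ZMod 2) (B : Finset P),
      ∃ p ∉ B, ∀ x ∈ T, f p x = lam x)
    (h5 : ∀ x, (∀ p ∉ n₀, s p x = 0) → (∀ p ∈ n₀, f p x = 0) → sq x = 0 → fq x = 0 → b x = 0 →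
      x = 0)
    (h6 : M ≤ finrank (ZMod 2) U) (h7 : ∀ n j, M < j → κ n j = 0) (h8 : ∃ n j, κ n j ≠ 0)
    (h9 : ∀ n, b (κ n 0) = 0) (k1 : ∀ n j, a (κ n j) = b (κ n (j + 1)))
    (k2 : ∀ n j, ∀ p ∉ n, s p (κ n j) = 0) (k3 : ∀ n j, ∀ p ∈ n, f p (κ n j) = 0)
    (k4 : ∀ n j, ∀ p ∉ n, s p (κ (insert p n) j) = f p (κ n j)) :
    M = finrank (ZMod 2) U ∧ κ n₀ 0 ≠ 0 := by
  have key := a_thm W U P β a b (fun p => if p ∈ n₀ then f p else s p)
    (fun p => if p ∈ n₀ then s p else f p) sq fq M (fun n => κ (symmDiff n₀ n)) (fun x => ?_)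
    (fun x y B h => ?_) (fun n => ?_) (fun T lam B => ?_) (fun x h => ?_) h6 (fun n => h7 _) ?_
    (fun n => h9 _) (fun n => k1 _) (fun n j p hp => ?_) (fun n j p hp => ?_) fun n j p hp => ?_
  · rwa [show symmDiff n₀ ∅ = n₀ from symmDiff_bot n₀] at key
  · refine ((h1 x).union n₀.finite_toSet).subset fun p hp => or_iff_not_imp_right.2 fun e => ?_
    simpa [show p ∉ n₀ from e] using hp
  · rw [← h2 x y (B ∪ n₀) fun p hp => by
      rw [Finset.notMem_union] at hp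
      simpa [hp.2] using h p hp.1, ← Finset.sum_subset Finset.subset_union_left fun p hp e => by
      have := h p e
      simp only [(Finset.mem_union.1 hp).resolve_left e, if_true] at this
      simp [this.1, this.2]]
    refine congrArg _ (Finset.sum_congr rfl fun p _ => ?_)
    split_ifs
    · exact add_comm _ _
    · rfl
  · obtain ⟨i, e⟩ := h3 (n ∪ n₀)
    have := cut (⨅ p ∉ n ∪ n₀, LinearMap.ker (s p))
      (⨅ p ∉ n, LinearMap.ker (if p ∈ n₀ then f p else s p)) (n₀ \ n) f (fun x hx => ?_)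
      fun x hx h => ?_
    · refine ⟨this.1, ?_⟩
      have e' := Finset.card_sdiff_add_card n₀ n
      rw [Finset.union_comm] at e'
      omega
    · simp only [Submodule.mem_iInf, Finset.notMem_union] at hx ⊢
      exact fun p hp => by simpa [hp.2] using hx p hp.1
    · simp only [Submodule.mem_iInf, Finset.notMem_union] at hx ⊢
      intro p hp
      split_ifs with e
      exacts [h p (Finset.mem_sdiff.2 ⟨e, hp⟩), hx p ⟨hp, e⟩]
  · obtain ⟨p, hp, e⟩ := h4 T lam (B ∪ n₀)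
    rw [Finset.notMem_union] at hp
    exact ⟨p, hp.1, by simpa [hp.2] using e⟩
  · exact h5 x (fun p hp => by simpa [hp] using h p) fun p hp => by simpa [hp] using h p
  · obtain ⟨n, j, h⟩ := h8
    exact ⟨symmDiff n₀ n, j, by rwa [symmDiff_symmDiff_cancel_left]⟩
  · split_ifs with e
    exacts [k3 _ j p (by simp [Finset.mem_symmDiff, e, hp]),
      k2 _ j p (by simp [Finset.mem_symmDiff, e, hp])]
  · split_ifs with e
    exacts [k2 _ j p (by simp [Finset.mem_symmDiff, e, hp]),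
      k3 _ j p (by simp [Finset.mem_symmDiff, e, hp])]
  · split_ifs with e
    · rw [← k4 _ j p (by simp [Finset.mem_symmDiff, e])]
      congr 2
      ext i
      by_cases h : i = p <;> simp [Finset.mem_symmDiff, e, hp, h]
    · rw [← k4 _ j p (by simp [Finset.mem_symmDiff, e, hp])]
      congr 2
      ext i
      by_cases h : i = p <;> simp [Finset.mem_symmDiff, e, hp, h]

end Asw

open Asm in
theorem asw_thm : AswStmt := by
  classical
  intro L _ _ θ hθ q d M α hQ hK hM n₁ hn hc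
  obtain ⟨-, hU, hB⟩ := lAll L θ hθ d hQ.fam
  obtain ⟨n₀, rfl⟩ : ∃ n₀ : Finset {p // Kol q d p}, n₁ = vs n₀ :=
    ⟨n₁.subtype _, (Finset.subtype_map_of_mem hn).symm⟩
  have hB' := fun n : Finset {p // Kol q d p} => hB _ (adm hQ n)
  let W : Submodule (ZMod 2) (SqCl L) := WW fun n x y hx hy => ((hB' n).1 x y hx hy).1
  have hW : ∀ c : W, ∃ (n : Finset {p // Kol q d p}) (x : L), Wc d (insert q (vs n)) x ∧
      cl x = c.1 := fun c => c.2
  have out : ∀ (n : Finset {p // Kol q d p}) (x : L), Wc d (insert q (vs n)) x →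
      ∀ p ∉ n, sv p.1 x = 0 := fun n x hx p hp =>
    ((hB' n).2.1 x hx).2.2.2 p.1 p.2.pr p.2.nd fun e =>
      (Finset.mem_insert.1 e).elim p.2.nq fun e' => hp (mem_vs.1 e')
  have shrink : ∀ (m n : Finset {p // Kol q d p}) (x : L), Wc d (insert q (vs m)) x →
      (∀ p ∉ n, sv p.1 x = 0) → Wc d (insert q (vs n)) x := fun m n x hx h0 =>
    ⟨hx.ne, hx.sq, hx.two, fun p h1 h2 h3 => by
      by_cases e : p ∈ insert q (vs m)
      · have e1 : p ∈ vs m := (Finset.mem_insert.1 e).resolve_left fun e' =>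
          h3 (Finset.mem_insert.2 (Or.inl e'))
        exact (((hB' m).2.1 x hx).2.2.1 p e (h0 ⟨p, kn_vs m p e1⟩ fun e' =>
          h3 (Finset.mem_insert_of_mem (mem_vs.2 e')))).ev p h1 h2 (Finset.notMem_erase _ _)
      · exact hx.ev p h1 h2 e⟩
  have ha : ∀ c : W, (fun 𝔭 : D1 L d => lin (ad_av 𝔭.1) c.1) ∈ UU L d := fun c => by
    obtain ⟨n, x, hx, e⟩ := hW c
    simp only [← e, lin_cl _ hx.ne]
    exact ((hB' n).2.1 x hx).1
  have hb : ∀ c : W, (fun 𝔭 : D1 L d => lin (ad_bv θ d 𝔭.1) c.1) ∈ UU L d := fun c => by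
    obtain ⟨n, x, hx, e⟩ := hW c
    simp only [← e, lin_cl _ hx.ne]
    exact ((hB' n).2.1 x hx).2.1
  have hmem : ∀ (n : Finset {p // Kol q d p}) j, Wc d (insert q (vs n)) (α (vs n) j) :=
    fun n j => hK.mem _ j (kn_vs n)
  let κ : Finset {p // Kol q d p} → ℕ → W := fun n j => ⟨cl (α (vs n) j), n, _, hmem n j, rfl⟩
  have hκ : ∀ n j, κ n j = 0 ↔ IsSquare (α (vs n) j) := fun n j =>
    Subtype.ext_iff.trans (cl_eq_zero (hmem n j).ne)
  have key := Asw.swap n₀ (dot d) (toU _ ha) (toU _ hb)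
    (fun p => (lin (ad_sv p.1)).comp W.subtype) (fun p => (lin (ad_fv p.1)).comp W.subtype)
    ((lin (ad_sv q)).comp W.subtype) ((lin (ad_fv q)).comp W.subtype) M κ ?_ ?_ ?_ ?_ ?_
    (hU ▸ hM) (fun n j h => (hκ n j).2 (hK.top _ j h)) ?_ ?_ ?_ ?_ ?_ ?_
  · exact ⟨key.1.trans hU, fun h => key.2 ((hκ n₀ 0).2 h)⟩
  · intro c
    obtain ⟨n, x, hx, e⟩ := hW c
    refine n.finite_toSet.subset fun p hp => by_contra fun h => hp ?_
    show lin (ad_sv p.1) c.1 = 0
    rw [← e, lin_cl _ hx.ne]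
    exact out n x hx p h
  · intro c c' B h0
    obtain ⟨n, x, hx, e⟩ := hW c
    obtain ⟨m, y, hy, e'⟩ := hW c'
    have h1 : ∀ p ∉ B, sv p.1 x = 0 ∧ sv p.1 y = 0 := fun p hp => by
      have := h0 p hp
      simp only [LinearMap.comp_apply, Submodule.subtype_apply, ← e, ← e', lin_cl _ hx.ne,
        lin_cl _ hy.ne] at this
      exact this
    have h2 := ((hB' B).1 x y (shrink n B x hx fun p hp => (h1 p hp).1)
      (shrink m B y hy fun p hp => (h1 p hp).2)).2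
    rw [Finset.sum_insert (q_notMem B), vs, Finset.sum_map, ← Finset.sum_coe_sort (D1 L d),
      Finset.sum_add_distrib, ← add_assoc] at h2
    show ∑ 𝔭 : D1 L d, lin (ad_av 𝔭.1) c.1 * lin (ad_bv θ d 𝔭.1) c'.1 +
      ∑ 𝔭 : D1 L d, lin (ad_bv θ d 𝔭.1) c.1 * lin (ad_av 𝔭.1) c'.1 + _ + _ = 0
    simp only [LinearMap.comp_apply, Submodule.subtype_apply, ← e, ← e', lin_cl _ hx.ne,
      lin_cl _ hy.ne]
    exact h2
  · intro n
    have e : (⨅ p ∉ n, LinearMap.ker ((lin (ad_sv p.1)).comp W.subtype) :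
        Submodule (ZMod 2) W).map W.subtype = WS L d (insert q (vs n)) := by
      refine le_antisymm ?_ (Submodule.span_le.2 ?_)
      · rintro _ ⟨c, hc, rfl⟩
        obtain ⟨m, x, hx, e⟩ := hW c
        refine Submodule.subset_span ⟨x, shrink m n x hx fun p hp => ?_, e⟩
        have : lin (ad_sv p.1) c.1 = 0 :=
          (Submodule.mem_iInf _).1 ((Submodule.mem_iInf _).1 hc p) hp
        rwa [← e, lin_cl _ hx.ne] at this
      · rintro _ ⟨x, hx, rfl⟩
        refine ⟨⟨cl x, n, x, hx, rfl⟩, (Submodule.mem_iInf _).2 fun p =>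
          (Submodule.mem_iInf _).2 fun hp => ?_, rfl⟩
        show lin (ad_sv p.1) (cl x) = 0
        rw [lin_cl _ hx.ne]
        exact out n x hx p hp
    obtain ⟨h1, h2⟩ := (hB' n).2.2
    rw [← e] at h1 h2
    refine ⟨Module.Finite.equiv (Submodule.equivMapOfInjective _ W.injective_subtype _).symm, ?_⟩
    rw [Submodule.finrank_map_subtype_eq, Finset.card_insert_of_notMem (q_notMem n), vs,
      Finset.card_map] at h2
    omega
  · intro T lam B
    obtain ⟨lam', hl⟩ := LinearMap.exists_extend lam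
    choose n x hx e using hW
    obtain ⟨p, h1, h2, h3⟩ := (chebAll L θ hθ d hQ.fam).2 q (T.image x) lam' (B.sup Subtype.val) hQ
      fun y hy => by
        obtain ⟨c, -, rfl⟩ := Finset.mem_image.1 hy
        exact ⟨_, fun h => (adm hQ (n c) 11 h).2.2.1 rfl, hx c⟩
    refine ⟨⟨p, h2⟩, fun h => h1.not_ge (Finset.le_sup (f := Subtype.val) h), fun c hc => ?_⟩
    show lin (ad_fv p) c.1 = _
    rw [← hl, ← e, lin_cl _ (hx c).ne, h3 _ (Finset.mem_image_of_mem x hc), e]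
    rfl
  · intro c h1 h0 h2 h3 h4
    obtain ⟨n, x, hx, e⟩ := hW c
    simp only [LinearMap.comp_apply, Submodule.subtype_apply, ← e, lin_cl _ hx.ne] at h0 h1 h2 h3
    have h5 := ((hB' n₀).2.1 x (shrink n n₀ x hx h1)).2.2.1 q (Finset.mem_insert_self _ _) h2
    rw [Finset.erase_insert (q_notMem n₀)] at h5
    refine Subtype.ext (e.symm.trans ((cl_eq_zero hx.ne).2 (hc x h5 (fun 𝔭 h𝔭 => ?_)
      (fun p hp => h0 ⟨p, hn p hp⟩ (mem_vs.1 hp)) h3)))
    have : lin (ad_bv θ d 𝔭) c.1 = 0 := congrFun (congrArg Subtype.val h4) ⟨𝔭, h𝔭⟩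
    rwa [← e, lin_cl _ hx.ne] at this
  · obtain ⟨n, j, h1, h2⟩ := hK.ne
    refine ⟨n.subtype _, j, fun h => h2 ?_⟩
    rwa [hκ, vs, Finset.subtype_map_of_mem h1] at h
  · exact fun n => Subtype.ext (funext fun 𝔭 =>
      (lin_cl (ad_bv θ d 𝔭.1) (hmem n 0).ne).trans (hK.b0 _ (kn_vs n) 𝔭.1 𝔭.2))
  · exact fun n j => Subtype.ext (funext fun 𝔭 => (lin_cl (ad_av 𝔭.1) (hmem n j).ne).trans
      ((hK.ab _ j (kn_vs n) 𝔭.1 𝔭.2).trans (lin_cl (ad_bv θ d 𝔭.1) (hmem n (j + 1)).ne).symm))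
  · exact fun n j p hp => (lin_cl (ad_sv p.1) (hmem n j).ne).trans (out n _ (hmem n j) p hp)
  · exact fun n j p hp => (lin_cl (ad_fv p.1) (hmem n j).ne).trans
      (hK.fp _ j (kn_vs n) p.1 (mem_vs.2 hp))
  · intro n j p hp
    refine (lin_cl (ad_sv p.1) (hmem (insert p n) j).ne).trans
      (Eq.trans ?_ (lin_cl (ad_fv p.1) (hmem n j).ne).symm)
    rw [show vs (insert p n) = insert p.1 (vs n) from Finset.map_insert _ _ _]
    exact hK.sp _ j p.1 (kn_vs n) p.2 fun e => hp (mem_vs.1 e)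

end Pool.Agent.Lib.MP_d6ddbd_nt.K11
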