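import Pool.Agent.Lib.MP_d6ddbd_nt.KI.SysD
import Pool.Agent.Lib.MP_d6ddbd_nt.K11.AllX

/-!
From the system of cocycles to the system of classes, with the dictionary at every vertex.
-/

set_option autoImplicit false

open NumberField IsDedekindDomain Pointwise
open Pool.Agent.Lib.MP_02f36d_nt (xc yc)
open Pool.Agent.Stark (Pr og hq LSq pw ord_mul ord_pow ord_one mem_pw_iff ord_add_of_lt zmod2_ext)

noncomputable section

namespace Pool.Agent.Lib.MP_d6ddbd_nt.K11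

open CK in
theorem ck2_aux (hV : VStmt) (hR : RStmt) (hPr : PrStmt) (hKum : KumStmt) (hLink1 : Link1Stmt)
    (hLink2 : Link2Stmt) (hLocD : LocDStmt) : CK2Stmt := by
  classical
  intro L _ _ θ hθ q d r M ξ hQ hr hK
  have hex : ∀ n j, ∃ α : L, α ≠ 0 ∧ IsSquare (Algebra.norm ℚ α) ∧
      (Kn q d n → Kum θ α (ξ n j)) ∧ (¬ Kn q d n → α = 1) := fun n j => by
    by_cases h : Kn q d n
    · obtain ⟨α, a, b, c⟩ := (hKum L θ hθ).1 _ (hK.coc n j h)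
      exact ⟨α, a, b, fun _ => c, fun g => absurd h g⟩
    · exact ⟨1, one_ne_zero, by simp, fun g => absurd g h, fun _ => rfl⟩
  choose α h0 hN hKu h1 using hex
  have hd := hQ.fam
  have sqc : ∀ n j, Kn q d n → (IsSquare (α n j) ↔ Cob (ξ n j)) := fun n j h =>
    (hKum L θ hθ).2 _ _ (h0 n j) (hK.coc n j h) (hKu n j h)
  have atd : ∀ n, Kn q d n → ∀ 𝔭 ∈ D1 L d, bv θ d 𝔭 (α n 0) = 0 ∧
      ∀ j, av 𝔭 (α n j) = bv θ d 𝔭 (α n (j + 1)) := fun n hn 𝔭 hp => by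
    obtain ⟨hp1, hp2⟩ := Finset.mem_filter.1 hp
    obtain ⟨-, l, hl, hpl, hl'⟩ := (hPr L θ hθ).2.2.2.2.1 𝔭
    have hld : (l : ℤ) ∣ d :=
      Int.natCast_dvd.2 ((hl' _ (Int.natAbs_ne_zero.2 hd.sf.ne_zero)).1 hp1)
    obtain ⟨h2, h11⟩ := fam_ne hd hld
    have hP := (hPr L θ hθ).2.2.1 l hl h2 h11
    have hnm := (hP.1 𝔭 hpl).2.2.2.2.1 hp2
    obtain ⟨e₁, -, -, r1, -⟩ := roots hR
    obtain ⟨e, -⟩ := (hPr L θ hθ).2.2.2.2.2.2.2.1 e₁ r1
    obtain ⟨O, he⟩ := hV.1.2.1 L e 𝔭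
    have hO : Ov O l := by
      have := (hV.1.2.2.2.1 L e O 𝔭 he l (Nat.cast_ne_zero.2 hl.ne_zero)).2
        (by rw [(hP.1 𝔭 hpl).1]; exact one_pos)
      rwa [map_natCast] at this
    obtain ⟨s, hs⟩ := exists_sqrt d
    obtain ⟨σ, hσ, hσs⟩ := (hLink1 L θ hθ).2.1 l O s d hl hO hs hd.sf hld
    obtain ⟨φ, hφ⟩ := hV.1.2.2.2.2 l O hl hO
    obtain ⟨η, hη, hφs⟩ : ∃ η : ℤ, (η = 1 ∨ η = -1) ∧ φ s = η * s := by
      rcases sgn (σ := φ) (s := s) (by rw [hs, map_intCast]) with g | g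
      · exact ⟨1, Or.inl rfl, by simp [g]⟩
      · exact ⟨-1, Or.inr rfl, by simp [g]⟩
    have hc := nr_cases hPr hθ hl h2 h11 hpl hnm
    obtain ⟨Z, S, a, b, c⟩ := hK.atd n l O σ φ η s hn hl hld (by omega) hO hσ hφ hs hσs hφs
    have lc := fun j => loc hV hR hPr hLink1 hLocD hθ hd hl hld hpl hnm hO he hσ hφ hs hσs hη hφs
      (h0 n j) (hN n j) (hK.coc n j hn) (hKu n j hn)
    have lb : ∀ j, bv θ d 𝔭 (α n j) = wl (e θ) (Z j) := fun j =>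
      (lc j).2.2 _ _ (a j).1 (a j).2.1 (a j).2.2
    rcases hc with g | g
    · have hφe : φ (e θ) = e θ := (((hLink1 L θ hθ).1 e O 𝔭 l 1 1 hl h2 h11 hpl he one_ne_zero
        (by simp)).2 φ (hnm ▸ hφ) (by simp [og])).1
      have fx := fun j => fix_iff hR (fc_emb hθ e) hφe
        (((hR.2 l O hl h2 h11 hO).2.2.2.2.2.2.2 φ hφ).2.1.1 g).2 (a j).1
      refine ⟨by rw [lb, ← fx]; exact (c g).1, fun j => zmod2_ext ?_⟩
      rw [(lc j).2.1 g, lb, ← fx, ← (c g).2 j, sub_eq_zero]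
    · refine ⟨by rw [lb, (b g).1]; exact wl_eq_zero.2 (Or.inl rfl), fun j => ?_⟩
      rw [(lc j).1 g, lb, (b g).2 j]
  have atp : ∀ n j p, Kn q d n → Kol q d p → p ∉ n →
      fv p (α (insert p n) j) = 0 ∧ sv p (α (insert p n) j) = fv p (α n j) := by
    intro n j p hn hp hpn
    have hn' : Kn q d (insert p n) := fun x hx => by
      rcases Finset.mem_insert.1 hx with rfl | hx
      exacts [hp, hn x hx]
    obtain ⟨O, φ, hO, hφ, hφ'⟩ := hp.fr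
    obtain ⟨s, hs⟩ := exists_sqrt (GF.pst p)
    obtain ⟨σ, hσ, hσs⟩ := (hLink1 L θ hθ).2.1 p O s _ hp.pr hO hs (pst_sf hp.pr).1
      (pst_sf hp.pr).2
    obtain ⟨a, b⟩ := hK.atp n j p O σ φ s hn hp hpn hO hσ hφ hφ' hs hσs
    have lk := fun m (hm : Kn q d m) => ((hLink1 L θ hθ).2.2 _ _ (h0 m j) (hN m j)
      (hK.coc m j hm) (hKu m j hm)).2 p O σ φ s hp.pr (ne_two hp.dv) hp.n11 hp.ty hO hσ hφ hs hσs
    refine ⟨(lk _ hn').2.2 b, zmod2_ext ?_⟩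
    rw [(lk _ hn').1, (lk _ hn).2, ← a, smul_eq_zero']
  refine ⟨α, ⟨fun n j hn => ?_, fun n j hj => ?_, ?_, fun n hn 𝔭 hp => (atd n hn 𝔭 hp).1,
    fun n j hn 𝔭 hp => (atd n hn 𝔭 hp).2 j, fun n j hn p hp => ?_,
    fun n j p hn hp hpn => (atp n j p hn hp hpn).2⟩, fun n hn => hKu n 0 hn⟩
  · have hq := hQ.qf.big
    have L2 := hLink2 L θ hθ _ _ (h0 n j) (hN n j) (hK.coc n j hn) (hKu n j hn)
    have a2 : At2 (α n j) := L2.1 fun O hO => hK.unr n j 2 O hn Nat.prime_two hO (by omega)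
      (ne_two (n := 3 * tt d + 1) hr.dv).symm (fun g => (fam_ne hd g).1 rfl)
      fun g => ne_two (hn 2 g).dv rfl
    refine ⟨h0 n j, hN n j, a2, fun p hp hpd hpn => ?_⟩
    rw [Finset.mem_insert, not_or] at hpn
    by_cases h2 : p = 2
    · rw [h2]
      exact even_of_at2 (h0 n j) a2
    by_cases hpr : p = r
    · intro 𝔭 h𝔭
      have h11 : p ≠ 11 := hpr ▸ hr.n11
      obtain ⟨𝔮, a, b⟩ := ((hPr L θ hθ).2.2.1 p hp h2 h11).2.2.1 (hpr ▸ hr.ty)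
      have c := ((hPr L θ hθ).2.2.2.1 p _ hp (h0 n j)).2 (hN n j)
      rw [a, Finset.mem_singleton] at h𝔭
      rw [a, Finset.sum_singleton, b, Nat.log_pow hp.one_lt, ← h𝔭] at c
      obtain ⟨c, hc⟩ := c
      exact ⟨c - og 𝔭 (α n j), by push_cast at hc; omega⟩
    have un := fun O hO => hK.unr n j p O hn hp hO hpn.1 hpr hpd hpn.2
    by_cases h11 : p = 11
    · subst h11
      exact L2.2 un
    · exact ((hLink1 L θ hθ).2.2 _ _ (h0 n j) (hN n j) (hK.coc n j hn) (hKu n j hn)).1 p hp h2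
        h11 un
  · by_cases hn : Kn q d n
    · exact (sqc n j hn).2 ⟨0, nsmul_zero 2, fun σ => by rw [hK.top n j σ hj, sz, sub_zero]⟩
    · rw [h1 n j hn]
      exact IsSquare.one
  · obtain ⟨n, j, hn, h⟩ := hK.ne
    exact ⟨n, j, hn, fun g => h ((sqc n j hn).1 g)⟩
  · have := (atp (n.erase p) j p (fun x hx => hn x (Finset.mem_of_mem_erase hx)) (hn p hp)
      (Finset.notMem_erase p n)).1
    rwa [Finset.insert_erase hp] at this

theorem ck2_thm : CK2Stmt :=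
  ck2_aux vAll rAll pr_thm kumAll link1All (link2_thm vAll rAll pr_thm) locdAll

end Pool.Agent.Lib.MP_d6ddbd_nt.K11
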