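import Pool.Agent.Lib.MP_d6ddbd_nt.KI.Cx

/-! The classes of level `m`: signs, invariance and local relations. -/

set_option autoImplicit false

open Pool.Agent.Lib.MP_02f36d_nt (xc yc)

noncomputable section

namespace Pool.Agent.Lib.MP_d6ddbd_nt.K11.KK

open Finset

section abs

variable {G E P : Type*} [Group G] [AddCommGroup E] [DistribMulAction G E] [DecidableEq P]
  {k m k' m' : ℕ} {H : Sys G E P k m} {H' : Sys G E P k' m'}

theorem Sys.InvX.level {χ : G → ℤ} {s : ℕ} {S : E} (h : H.InvX χ s S) (t : ℕ) (g : G) :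
    H.cx χ (t + s) S g = H.cx χ s S g := by
  obtain ⟨u, hu, h1, h2⟩ := h.ex g
  rw [h2, H.cx_eq hu]
  rw [gz] at h1 ⊢
  generalize g • S = y at *
  linear_combination (norm := module) (2 : ℤ) ^ t • h1

theorem Sys.Inv.cmp {X a : E} (h : H.Inv X) (le : H.A ≤ H'.A) (ha : a ∈ H'.A) (g : G) :
    H'.coc (X + (4 : ℤ) • a) g = H.coc X g := by
  obtain ⟨u, hu, h1, h2⟩ := h.ex g
  rw [h2, H'.coc_eq (u := u + (4 : ℤ) • (g • a - a)) (H'.A.add_mem (le hu)
    (H'.A.zsmul_mem (H'.A.sub_mem (H'.stab g a ha) ha) _))]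
  · rw [smul_add g, gz]
    generalize g • X = y
    generalize g • a = z
    module
  · rw [gz] at h1
    rw [gz, smul_add g, gz]
    generalize g • X = y at *
    generalize g • a = z
    linear_combination (norm := module) h1

end abs

theorem exists_div {hR : R1Stmt} (n : ℕ) (P : AlgS hR) : ∃ S : AlgS hR, (2 : ℤ) ^ n • S = P := by
  induction n generalizing P with
  | zero => exact ⟨P, by simp⟩
  | succ n ih =>
    obtain ⟨S, rfl⟩ := ih P
    obtain ⟨T, rfl⟩ := exists_half S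
    exact ⟨T, by rw [pow_succ, mul_smul]⟩

theorem coe_pow {hR : R1Stmt} (n : ℕ) (P : AlgS hR) :
    (((2 : ℤ) ^ n • P : AlgS hR) : Pt) = 2 ^ n • (P : Pt) := by
  rw [AddSubgroupClass.coe_zsmul, ← natCast_zsmul]
  push_cast
  rfl

/-- A square root. -/
def rtc (c : ℤ) : ℂ := Classical.choose (IsAlgClosed.exists_pow_nat_eq (c : ℂ) two_pos)

theorem rtc_sq (c : ℤ) : rtc c ^ 2 = c :=
  Classical.choose_spec (IsAlgClosed.exists_pow_nat_eq (c : ℂ) two_pos)

open Classical in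
/-- The sign character of the square root of `c`. -/
def sgc (c : ℤ) (σ : G) : ℤ := if σ (rtc c) = rtc c then 1 else -1

theorem sgc_or (c : ℤ) (σ : G) : sgc c σ = 1 ∨ sgc c σ = -1 := by
  unfold sgc
  split_ifs <;> simp

theorem sgc_sq (c : ℤ) (σ : G) : sgc c σ * sgc c σ = 1 := by
  rcases sgc_or c σ with h | h <;> simp [h]

theorem sgc_ap {c : ℤ} (σ : G) {u : ℂ} (hu : u ^ 2 = c) : σ u = sgc c σ * u := by
  have h1 : σ (rtc c) = sgc c σ * rtc c := by
    have : σ (rtc c) ^ 2 = rtc c ^ 2 := by rw [← map_pow, rtc_sq, map_intCast]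
    unfold sgc
    split_ifs with h
    · simp [h]
    · simpa using (sq_eq_sq_iff_eq_or_eq_neg.1 this).resolve_left h
  rcases sq_eq_sq_iff_eq_or_eq_neg.1 (hu.trans (rtc_sq c).symm) with e | e
  · rwa [e]
  · rw [e, map_neg, h1]; ring

theorem sgc_eq {c : ℤ} (hc : c ≠ 0) {σ : G} {u : ℂ} (hu : u ^ 2 = c) {e : ℤ} (h : σ u = e * u) :
    sgc c σ = e := by
  have h0 : u ≠ 0 := fun z => hc (by
    rw [z] at hu
    exact_mod_cast (by simpa using hu.symm : (c : ℂ) = 0))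
  exact_mod_cast mul_right_cancel₀ h0 ((sgc_ap σ hu).symm.trans h)

theorem sgc_mul {c : ℤ} (hc : c ≠ 0) (σ τ : G) : sgc c (σ * τ) = sgc c σ * sgc c τ :=
  sgc_eq hc (rtc_sq c) (by
    rw [mul_ap, sgc_ap τ (rtc_sq c), map_mul, map_intCast, sgc_ap σ (rtc_sq c)]
    push_cast
    ring)

theorem sgc_cj {c : ℤ} (hc : c ≠ 0) : sgc c cj = c.sign := by
  rcases lt_or_gt_of_ne hc with h | h
  · rw [Int.sign_eq_neg_one_of_neg h]
    refine sgc_eq hc (u := Complex.I * Real.sqrt (-c)) ?_ (by simp)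
    rw [mul_pow, ← Complex.ofReal_pow, Real.sq_sqrt (by exact_mod_cast (by omega : 0 ≤ -c))]
    simp
  · rw [Int.sign_eq_one_of_pos h]
    refine sgc_eq hc (u := Real.sqrt c) ?_ (by simp)
    rw [← Complex.ofReal_pow, Real.sq_sqrt (by exact_mod_cast h.le)]
    simp

theorem jac_sign {d : ℤ} (hd : Fam d) :
    jacobiSym (-11) d.natAbs = d.sign * jacobiSym 11 d.natAbs ∧
      (jacobiSym 11 d.natAbs = 1 ∨ jacobiSym 11 d.natAbs = -1) := by
  have h4 := hd.m4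
  constructor
  · rw [show (-11 : ℤ) = -1 * 11 by norm_num, jacobiSym.mul_left,
      jacobiSym.at_neg_one (Nat.odd_iff.2 (by omega))]
    congr 1
    rcases lt_or_gt_of_ne hd.sf.ne_zero with h | h
    · rw [Int.sign_eq_neg_one_of_neg h, ZMod.χ₄_nat_three_mod_four (by omega)]
    · rw [Int.sign_eq_one_of_pos h, ZMod.χ₄_nat_one_mod_four (by omega)]
  · apply jacobiSym.eq_one_or_neg_one
    have : Nat.Coprime 11 d.natAbs := (Nat.Prime.coprime_iff_not_dvd (by norm_num)).2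
      fun e => hd.n11 (Int.natCast_dvd.2 e)
    exact (Int.gcd_natCast_natCast 11 d.natAbs).trans this

theorem frob_two {q : ℕ} (hq : q % 8 = 7) {O : ValuationSubring ℂ} {φ : G}
    (hO : Ov O 2) (hφ : Frob O 2 φ) : φ (om q) = om q := by
  refine (om_or q φ).resolve_right fun e => ?_
  obtain ⟨n, hn⟩ : ∃ n : ℕ, (q + 1) / 4 = 2 * n := ⟨(q + 1) / 8, by omega⟩
  have h1 := om_sq (q := q) (by omega)
  rw [hn] at h1
  push_cast at h1
  have hi : IsIntegral ℤ (om q) := ⟨Polynomial.X ^ 2 - Polynomial.X + Polynomial.C (2 * n : ℤ),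
    by monicity!, by simp [h1]⟩
  have hm : om q ∈ O := by
    have : IsIntegral O (om q) := hi.tower_top
    obtain ⟨y, hy⟩ := (IsIntegrallyClosed.isIntegral_iff (R := O)).1 this
    exact hy ▸ y.2
  have h2 := (hφ _ (hi.tower_top (A := ℚ)).isAlgebraic hm).2
  have h3 : ((2 : ℕ) : ℂ) * (om q - n) ∈ O.nonunits := by
    rw [ValuationSubring.mem_nonunits_iff, map_mul]
    exact mul_lt_one_of_lt_of_le ((ValuationSubring.mem_nonunits_iff _).1 hO)
      ((O.valuation_le_one_iff _).2 (O.toSubring.sub_mem hm (natCast_mem O n)))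
  have h4 := O.nonunits.add_mem h2 h3
  rw [e, h1] at h4
  have h5 : (1 - om q - (om q - 2 * (n : ℂ)) + ((2 : ℕ) : ℂ) * (om q - n)) = 1 := by
    push_cast
    ring
  rw [h5, ValuationSubring.mem_nonunits_iff, map_one] at h4
  exact lt_irrefl _ h4

namespace Cx

variable {q : ℕ} {d : ℤ} {r m : ℕ} {k : ℕ → ℕ} {a : ℕ → ℤ} {S : Finset ℕ → (A k → ℤ) →+ Pt}
  {ρ : G → A k} {ν : A k} {j : ℕ → A k} (C : Cx q d r m k a S ρ ν j)

include C

theorem tw_ne (n : Finset ℕ) : tw q d n ≠ 0 := by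
  have h1 := C.qd.fam.sf.ne_zero
  have h2 := C.qd.qf.pr.ne_zero
  unfold tw
  split_ifs <;> simp [h1, h2]

theorem sgc_GK (n : Finset ℕ) {σ : G} (h : σ (om q) = om q) :
    sgc (tw q d n) σ = chi d.natAbs.primeFactors (ρ σ) := by
  have h1 := chi_rho C.hs h C.qd.fam C.cdD (rtc_sq d)
  have h0 := C.tw_ne n
  unfold tw at h0 ⊢
  split_ifs at h0 ⊢
  · exact sgc_eq h0 (rtc_sq d) h1
  · refine sgc_eq h0 (u := (2 * om q - 1) * rtc d) ?_ ?_
    · rw [mul_pow, om_sq', rtc_sq]; push_cast; ring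
    · rw [map_mul, map_sub, map_mul, h, h1, map_ofNat, map_one]; ring

theorem sgc_not (n : Finset ℕ) {σ : G} (h : σ (om q) ≠ om q) : sgc (tw q d n) σ =
    -chi d.natAbs.primeFactors (ν + ρ (σ * cj)) * (-1) ^ n.card := by
  have e : σ = σ * cj * cj := by rw [mul_assoc, cj_mul_cj, mul_one]
  have h1 := chi_sub C.cdD (ν + ρ (σ * cj)) (ρ (σ * cj))
  rw [add_sub_cancel_right, chi_nu C.hs C.qd.fam C.cdD] at h1
  conv_lhs => rw [e]
  rw [sgc_mul (C.tw_ne n), C.sgc_GK n (not_GK h), sgc_cj (C.tw_ne n)]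
  obtain ⟨j1, j2⟩ := jac_sign C.qd.fam
  have hq : (q : ℤ).sign = 1 := Int.sign_eq_one_of_pos (by exact_mod_cast C.qd.qf.pr.pos)
  have hd : d.sign = 1 ∨ d.sign = -1 := by
    rcases lt_or_gt_of_ne C.qd.fam.sf.ne_zero with h | h
    exacts [Or.inr (Int.sign_eq_neg_one_of_neg h), Or.inl (Int.sign_eq_one_of_pos h)]
  unfold tw
  rw [j1, h1, apply_ite Int.sign, Int.sign_mul, Int.sign_neg, hq]
  rcases chi_or d.natAbs.primeFactors (ν + ρ (σ * cj)) with a1 | a1 <;>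
    rcases chi_or d.natAbs.primeFactors (ρ (σ * cj)) with a2 | a2 <;>
    rcases neg_one_pow_eq_or ℤ n.card with a3 | a3 <;> rcases hd with a4 | a4 <;>
    simp [a1, a2, a3, a4]

theorem am (p : ℕ) : (2 : ℤ) ^ m ∣ C.sys.a p := by
  by_cases hp : KolM q d m p
  · have ha : C.sys.a p = a p := if_pos hp
    exact ha ▸ a_kolM C.hR C.hs hp
  · have ha : C.sys.a p = 0 := if_neg hp
    exact ha ▸ dvd_zero _

theorem invQ (n : Finset ℕ) (σ : G) :
    σ • C.sys.Q n 0 - sgc (tw q d n) σ • C.sys.Q n 0 ∈ C.sys.D m := by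
  by_cases h : σ (om q) = om q
  · rw [C.sgc_GK n h]
    exact C.sys.sh_Q0 C.am (C.sh_GK h) n
  · rw [C.sgc_not n h]
    exact C.sys.rf_Q0 C.am (C.rf_not h) n

theorem fixQ {n : Finset ℕ} {σ : G} (h : σ (om q) = om q) (h0 : ∀ p ∈ n, ρ σ p = 0) :
    sgc (tw q d n) σ • σ • C.sys.Q n 0 = C.sys.Q n 0 := by
  rw [C.sys.sh_exact (C.sh_GK h) fun p hp => by simp [pa, h0 p hp], ← C.sgc_GK n h, smul_smul,
    sgc_sq, one_smul]

theorem fixQ0 (σ : G) : sgc (tw q d ∅) σ • σ • C.sys.Q ∅ 0 = C.sys.Q ∅ 0 := by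
  by_cases h : σ (om q) = om q
  · exact C.fixQ h (by simp)
  · have e := C.sgc_not ∅ h
    rw [card_empty, pow_zero, mul_one] at e
    rw [C.sys.rf_exact (C.rf_not h), ← e, smul_smul, sgc_sq, one_smul]

theorem sgc_iner (n : Finset ℕ) {p : ℕ} (hp : KolM q d m p) {O : ValuationSubring ℂ} {σ : G}
    (hO : Ov O p) (hσ : Frob O 1 σ) : sgc (tw q d n) σ = 1 := by
  have hG := C.hV.2.1.2.2.2.2.2.2.1 q p O σ C.qd.qf.pr C.qd.qf.m4 hp.kol.pr hp.kol.nq hO hσ
  rw [C.sgc_GK n hG]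
  refine Finset.prod_eq_one fun l hl => ?_
  rw [C.hs.iner p O σ l hp.kol.pr hO hσ hG fun e => hp.kol.nd (e ▸ ((mem_D C.qd.fam).1 hl).2)]
  simp [sg]

end Cx

end Pool.Agent.Lib.MP_d6ddbd_nt.K11.KK
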