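import Pool.Agent.Lib.MP_d6ddbd_nt.KI.SysD
import Pool.Agent.Lib.MP_d6ddbd_nt.K11.AllX

/-! The Heegner system, with the coordinates of Frobenius elements. -/

set_option autoImplicit false

open Pointwise
open Pool.Agent.Lib.MP_9177b7_ag.CM (hyp mem_smul_iff isLat_ord)
open Pool.Agent.Lib.MP_9177b7_ag.CM.Idl (mem_O)

noncomputable section

namespace Pool.Agent.Lib.MP_d6ddbd_nt.K11

open PLoc in
theorem P2.frob_kp {q : ℕ} [hq : Fact (q % 4 = 3)] (hPic : PicStmt) (hp : q.Prime) (h44 : 44 < q)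
    (hV : VStmt) (hG1 : G1Stmt) (hKer : KerStmt) {v : ℕ} (hv : v.Prime) {O : ValuationSubring ℂ}
    {σ : G} (hO : Ov O v) (hF : Frob O v σ) (hσ : σ (om q) = om q) :
    ∃ π ∈ OK q, Complex.normSq π = (v : ℝ) ^ hh q ∧
      ∀ l : ℕ, l.Prime → v ≠ l → ar q l σ ^ hh q = kp q l π := by
  have hF' := frob_pow hV hF hv.ne_zero (hh q)
  have hσ' := pow_fix hσ (hh q)
  obtain ⟨M, hM⟩ := hyp.exists_conj ((σ ^ hh q : G) : ℂ →+* ℂ) (isLat_ord (him (q := q)))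
  have h1 := (((hPic q hp h44).2 1 one_ne_zero).2.2.2 _ hσ').1 1 _ M
    (Oc_one q ▸ cl_one : Cl (1 : Pic q 1) (OK q)) hM
  rw [ar_pow hPic hp h44 one_ne_zero hσ, hh, pow_card_eq_one', mul_one] at h1
  obtain ⟨μ, h2, rfl⟩ := cl_one.exists_smul h1
  rw [Oc_one] at hM
  obtain ⟨π, h3, h4, h5⟩ := hG1 q v _ O _ μ hp h44 hq.out hv hO hF' hσ' h2 hM
  refine ⟨π, h3, h4, fun l hl hvl => ?_⟩
  have hvl' : ¬ v ∣ l := fun h => hvl ((Nat.prime_dvd_prime_iff_eq hv hl).1 h)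
  obtain ⟨-, b1, b2, -⟩ := (hKer q hp h44 l hl.ne_zero).2.1 π (cop_pow hv hvl' h3 h4)
  have h6 := h5 l (Oc q l) hvl' (fun z hz => by
    obtain ⟨y, hy, rfl⟩ := mem_smul_iff.1 hz
    obtain ⟨a, b, rfl⟩ := mem_O.1 hy
    exact mem_O.2 ⟨l * a, b, by push_cast; ring⟩) (Oc_le_OK l)
  rw [b2] at h6
  have h7 := (((hPic q hp h44).2 l hl.ne_zero).2.2.2 _ hσ').1 1 _ _ cl_one h6
  rw [mul_one, ar_pow hPic hp h44 hl.ne_zero hσ] at h7
  exact h7.unique (b1.smul h2)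

open PAsm Classical in
theorem p2_of (hV : VStmt) (hG1 : G1Stmt) (hR : RStmt) (hPic : PicStmt) (hKer : KerStmt)
    (hCo : CoStmt) (hFib : FibStmt) (hGal : GalStmt) (hHk : HkStmt) (hPLoc : PLocStmt)
    (hBase : BaseStmt) : P2Stmt := by
  intro Pp a t0 hX q k hq hk
  have := Fact.mk hq.m4
  have fk := @P2.frob_kp q _ hPic hq.pr hq.big hV hG1 hKer
  replace hPic := (hPic q hq.pr hq.big).2
  replace hKer := hKer q hq.pr hq.big
  have h11 : Nat.Prime 11 := by norm_num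
  have q11 : 11 ≠ q := by have := hq.big; omega
  have rt := (hKer 1 one_ne_zero).2.2.2.2.1
  obtain ⟨b, hb⟩ := (rt 11 h11 (by norm_num)).1 hq.s11
  have hb' := ((hKer 1 one_ne_zero).2.2.2.2.2 11 b h11 q11 (by norm_num) hb).1
  choose! r hr using fun l h h' => (rt l h h').1
  have ex : ∀ l, ∃ (g : Pic q l → ZMod (2 ^ k l)) (dl : ℂ → ZMod (2 ^ k l)),
      k l ≠ 0 → Co l (k l) g dl := fun l => by
    by_cases h : k l = 0
    · exact ⟨0, 0, fun z => (z h).elim⟩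
    · obtain ⟨a1, a2, -, a4, a5, a6⟩ := hk l h
      exact (hCo q hq.pr hq.big l (k l) a1 a2 a4 h a5 a6).imp fun _ h => h.imp fun _ h _ => h
  choose g dl hC using ex
  have cs : ∀ {l} {x y : ZMod (2 ^ k l)}, (k l ≠ 0 → x = y) → x = y := fun {l x y} h =>
    (_root_.em (k l = 0)).elim (fun z => sub z x y) h
  have hg : ∀ l x y, g l (x * y) = g l x + g l y := fun l x y => cs fun h => (hC l h).g_mul x y
  have pl := fun l (h : k l ≠ 0) =>
    hPLoc q hq.pr hq.big l (k l) _ _ (hk l h).1 (hk l h).2.1 (hk l h).2.2.2.1 h (hC l h)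
  have ex : ∀ n, ∃ s : Finset (Pic q n), n ≠ 0 → ∀ x, x ∈ s := fun n => by
    by_cases h : n = 0
    · exact ⟨∅, fun z => (z h).elim⟩
    · have := (hPic n h).1
      exact ⟨Set.finite_univ.toFinset, fun _ x => by simp⟩
  choose s hs using ex
  have n0 : ∀ {c}, Cd k c → ∏ l ∈ c, l ≠ 0 := fun h =>
    Finset.prod_ne_zero_iff.2 fun l hl => (hk l (h l hl)).1.ne_zero
  have nd : ∀ {c l}, Cd k c → l.Prime → l ∉ c → ¬ l ∣ ∏ l ∈ c, l := fun {c l} h hl hc z => by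
    obtain ⟨l', a1, a2⟩ := (Prime.dvd_finsetProd_iff hl.prime _).1 z
    exact hc ((Nat.prime_dvd_prime_iff_eq hl (hk l' (h l' a1)).1).1 a2 ▸ a1)
  have n11 : ∀ {c}, Cd k c → ¬ 11 ∣ ∏ l ∈ c, l := fun h =>
    nd h h11 fun z => (hk 11 (h 11 z)).2.2.1 rfl
  have dv : ∀ c : Finset ℕ, ∀ l ∈ c, l ∣ ∏ l ∈ c, l := fun c l hl => Finset.dvd_prod_of_mem _ hl
  have gal := fun c (h : Cd k c) => hGal Pp a t0 hX q hq.pr hq.big b _ hb (n0 h) (n11 h)
  have hk' := fun c l (h : Cd k c) (hl : k l ≠ 0) (hc : l ∉ c) x =>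
    hHk Pp a t0 hX q hq.pr hq.big b _ l hb (n0 h) (n11 h) (hk l hl).1 (hk l hl).2.1
      (hk l hl).2.2.1 (hk l hl).2.2.2.1 (nd h (hk l hl).1 hc) x
      ((s (l * ∏ l ∈ c, l)).filter fun y => res _ y = x) fun y => by
        simp [hs _ (mul_ne_zero (hk l hl).1.ne_zero (n0 h))]
  refine ⟨fun c => T g s (fun _ x => 5 • hp Pp b x) (∏ l ∈ c, l), fun σ l => g l (ar q l σ),
    fun l => g l (lam q l 11 (1 - b)), fun v l => g l (lam q l v (r v)), ⟨fun c Φ h => ?_,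
    fun σ τ h h' => funext fun l => cs fun z => ?_, fun σ h => funext fun l => cs fun z => ?_,
    fun c Φ σ h hΦ hσ => ?_, fun c Φ h hΦ => ?_, fun c Φ l h hΦ hl hc sp => ?_,
    fun c Φ l h hΦ hl hc sp => ?_, fun c Φ p O φ h hΦ hl hc sp hO hφ => ?_,
    fun v O σ l h1 h2 h3 h4 h5 => cs fun z => (pl l z).1 v O σ h1 h5.symm h2 h3 h4,
    fun l O φ l' hl sp hO hφ ne => ?_, fun σ l s h hl => (pl l hl).2.1 σ s h,
    fun l hl => ((pl l hl).2.2 11 _ h11 (by norm_num) (hk l hl).2.2.1.symm q11 hb').1,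
    fun l p π i O hl sp hp sp' hi hπ hO => ?_, fun O hO => ?_, hX.es⟩,
    fun v O φ hv hO hF hφ => ?_⟩
  · let H : AddSubgroup Pt := ⟨⟨⟨{P | AlgP P}, fun {x y} => hR.1.1.2.1 x y⟩, hR.1.1.1⟩,
      fun {x} => hR.1.1.2.2.1 x⟩
    exact H.sum_mem fun x _ => H.zsmul_mem (H.nsmul_mem (gal c h x).2.1 5) _
  · exact (congrArg _ (((hPic l (hk l z).1.ne_zero).2.2.2 σ h).2.1 τ h')).trans (hg l _ _)
  · exact (congrArg _ ((hPic l (hk l z).1.ne_zero).2.2.2 σ h).2.2.1).trans (g_inv hg l _)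
  · rw [← shift hg (hs _ (n0 h)) hΦ (ar q _ σ) _ fun l hl =>
      congrArg (g l) (((hPic _ (n0 h)).2.2.2 σ hσ).2.2.2 l (dv c l hl)), T_eq, Finset.smul_sum]
    exact Finset.sum_congr rfl fun x _ => by rw [sm, (gal c h x).2.2.1 σ hσ]
  · rw [← PAsm.flip hg (hs _ (n0 h)) hΦ (lam q _ 11 (1 - b)) _ fun l hl => congrArg (g l)
      (((hKer _ (n0 h)).2.2.2.2.2 11 _ h11 q11 (n11 h) hb').2.2.2.2.2.2 l (dv c l hl)).2, T_eq,
      Finset.smul_sum, ← Finset.sum_neg_distrib]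
    exact Finset.sum_congr rfl fun x _ => by
      rw [sm, (gal c h x).2.2.2.1, z3 _ _ _ hX.five]
  · rw [Finset.prod_insert hc, push (hs _ (n0 h)) hΦ (dv c), T_eq, Finset.smul_sum]
    exact Finset.sum_congr rfl fun x _ => by
      rw [← Finset.smul_sum, ((hk' c l h hl hc x).1 sp).1, z1]
  · have r1 := hr l (hk l hl).1 (hk l hl).2.1 sp
    have r2 : ∀ l' ∈ c, gv g (lam q (∏ l ∈ c, l) l (r l)) l' = g l' (lam q l' l (r l)) :=
      fun l' hl' => congrArg (g l') (((hKer _ (n0 h)).2.2.2.2.2 l _ (hk l hl).1 (hk l hl).2.2.2.1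
        (nd h (hk l hl).1 hc) r1).2.2.2.2.2.2 l' (dv c l' hl')).2
    have r3 := shift (P := fun _ x => 5 • hp Pp b x) hg (hs _ (n0 h)) hΦ (lam q _ l (r l))⁻¹
      (-fun l' => g l' (lam q l' l (r l))) fun l' hl' => by
        rw [Pi.neg_apply, ← r2 l' hl', gv, gv, map_inv, g_inv hg]
    simp only [sub_neg_eq_add] at r3
    rw [Finset.prod_insert hc, push (hs _ (n0 h)) hΦ (dv c), ← shift hg (hs _ (n0 h)) hΦ _ _ r2,
      ← r3, T_eq, Finset.smul_sum, ← Finset.sum_sub_distrib, ← Finset.sum_sub_distrib]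
    exact Finset.sum_congr rfl fun x _ => by
      rw [← Finset.smul_sum, (hk' c l h hl hc x).2 _ r1, z2]
  · rw [Finset.prod_insert hc, T_eq, T_eq, fib (hs _ (n0 h)), Finset.smul_sum,
      ← Finset.sum_sub_distrib]
    refine (E1 O).sum_mem fun x _ => ?_
    rw [← cnt (hs _ (mul_ne_zero (hk p hl).1.ne_zero (n0 h))) hΦ (dv c) hc x
      (hFib q hq.pr hq.big _ p _ _ _ (n0 h) (hk p hl).1 (hk p hl).2.1 (hk p hl).2.2.2.1
        (nd h (hk p hl).1 hc) sp ((hk p hl).2.2.2.2.2 sp) (hC p hl) x), sm, z4,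
      ← Finset.sum_sub_distrib]
    refine (E1 O).sum_mem fun y hy => ?_
    rw [z5]
    exact (E1 O).zsmul_mem ((E1 O).nsmul_mem (((hk' c p h hl hc x).1 sp).2 O φ hO hφ y hy) 5) _
  · by_cases z : k l' = 0
    · exact ⟨1, odd_one, sub z _ _⟩
    · exact ((pl l' z).2.2 l _ (hk l hl).1 (hk l hl).2.1 ne.symm (hk l hl).2.2.2.1
        (hr l (hk l hl).1 (hk l hl).2.1 sp)).2.1 O φ hO hφ
  · obtain ⟨c1, u, hu, e⟩ := ((pl p hp).2.2 l _ (hk l hl).1 (hk l hl).2.1 (fun z => sp' (z ▸ sp))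
      (hk l hl).2.2.2.1 (hr l (hk l hl).1 (hk l hl).2.1 sp)).2.2 π hπ
    rw [← (hC p hp).val π i O sp' c1 hi hO, ← odd_val hu hi (dl p π), ← e]
  · rw [Finset.prod_empty, T_eq]
    simpa only [one_zsmul] using hBase Pp a t0 hX q hq.pr hq.big b _ O hb (hs 1 one_ne_zero) hO
  · obtain ⟨π, h1, h2, h3⟩ := fk hv hO hF hφ
    refine ⟨π, h1, ⟨_, h2⟩, fun l O' hl hlv sp hO' e => ?_⟩
    have hc := PLoc.cop_pow hv (fun h => hlv
      ((Nat.prime_dvd_prime_iff_eq hv (hk l hl).1).1 h).symm) h1 h2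
    exact ((hC l hl).g_eq _ π hc (h3 l (hk l hl).1 hlv.symm)).trans ((ZMod.val_eq_zero _).1
      (Nat.eq_zero_of_dvd_of_lt (((hC l hl).val π _ O' sp hc le_rfl hO').2 e) (ZMod.val_lt _)))

theorem p2_thm : P2Stmt :=
  p2_of vAll g1All rAll pic_thm kerAll (co_thm kerAll) (fib_thm pic_thm kerAll) galAll
    (hk_thm vAll pic_thm kerAll galAll) (ploc_thm vAll g1All pic_thm kerAll)
    (base_thm vAll rAll g2All pic_thm galAll)

end Pool.Agent.Lib.MP_d6ddbd_nt.K11
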