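import Pool.Agent.Lib.MP_d6ddbd_nt.K11.KB3

/-! Lowering the exponents of a Heegner system. -/

set_option autoImplicit false

noncomputable section

namespace Pool.Agent.Lib.MP_d6ddbd_nt.K11.KK

open Finset

theorem cz_val_mod {i m : ℕ} (h : m ≤ i) (x : ZMod (2 ^ i)) : (cz i m x).val = x.val % 2 ^ m := by
  simp only [cz, dif_pos h, RingHom.toAddMonoidHom_eq_coe, AddMonoidHom.coe_coe, ZMod.castHom_apply]
  rw [ZMod.cast_eq_val, ZMod.val_natCast]

theorem cz_dvd {i m n : ℕ} (h : m ≤ i) (hn : n ≤ m) (x : ZMod (2 ^ i)) :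
    2 ^ n ∣ (cz i m x).val ↔ 2 ^ n ∣ x.val := by
  rw [cz_val_mod h, Nat.dvd_mod_iff (pow_dvd_pow 2 hn)]

theorem cz_even {i m : ℕ} (h : m ≤ i) (h0 : m ≠ 0) (x : ZMod (2 ^ i)) :
    Even (cz i m x).val ↔ Even x.val := by
  have := cz_dvd (n := 1) h (by omega) x
  rwa [pow_one, ← even_iff_two_dvd, ← even_iff_two_dvd] at this

theorem cz_int (i m : ℕ) (u : ℤ) (x : ZMod (2 ^ i)) : cz i m (u * x) = u * cz i m x := by
  rw [← zsmul_eq_mul, map_zsmul, zsmul_eq_mul]

theorem cz_surj {i m : ℕ} (h : m ≤ i) : Function.Surjective (cz i m) := fun y => by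
  obtain ⟨x, hx⟩ := ZMod.castHom_surjective (pow_dvd_pow 2 h) y
  exact ⟨x, by rw [cz, dif_pos h]; exact hx⟩

theorem cz_fib {i m : ℕ} (h : m ≤ i) (w : ZMod (2 ^ m) → ℤ) :
    ∑ x : ZMod (2 ^ i), w (cz i m x) = 2 ^ (i - m) * ∑ z, w z := by
  classical
  have h1 : ∀ y, #{x | cz i m x = y} = #{x | cz i m x = 0} := fun y =>
    AddMonoidHom.card_fiber_eq_of_mem_range _ (cz_surj h y) (cz_surj h 0)
  have h2 := Finset.card_eq_sum_card_fiberwise (f := cz i m) (s := univ) (t := univ)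
    fun _ _ => mem_coe.2 (mem_univ _)
  simp only [h1, sum_const, card_univ, ZMod.card, smul_eq_mul] at h2
  have h3 : #{x | cz i m x = 0} = 2 ^ (i - m) := by
    apply Nat.eq_of_mul_eq_mul_left (Nat.two_pow_pos m)
    rw [← h2, ← pow_add, Nat.add_sub_cancel' h]
  rw [← Finset.sum_fiberwise univ (cz i m), Finset.mul_sum]
  refine Finset.sum_congr rfl fun y _ => ?_
  rw [Finset.sum_congr rfl (g := fun _ => w y) fun x hx => by rw [(mem_filter.1 hx).2],
    sum_const, h1, h3, nsmul_eq_mul]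
  push_cast
  rfl

/-- Reduction of all coordinates. -/
def rdA (k' k : ℕ → ℕ) : A k' →+ A k where
  toFun g l := cz (k' l) (k l) (g l)
  map_zero' := funext fun _ => map_zero _
  map_add' _ _ := funext fun _ => map_add _ _ _

theorem rdA_ap (k' k : ℕ → ℕ) (g : A k') (l : ℕ) : rdA k' k g l = cz (k' l) (k l) (g l) := rfl

/-- Pull back of test functions. -/
def plb (k' k : ℕ → ℕ) : (A k → ℤ) →+ (A k' → ℤ) where
  toFun Φ g := Φ (rdA k' k g)
  map_zero' := rfl
  map_add' _ _ := rfl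

theorem dep_plb {k' k : ℕ → ℕ} {c : Finset ℕ} {Φ : A k → ℤ} (h : K11.Dep c Φ) :
    K11.Dep c (plb k' k Φ) := fun g g' e => h _ _ fun l hl => by rw [rdA_ap, rdA_ap, e l hl]

theorem push {q : ℕ} {k k' : ℕ → ℕ} {a : ℕ → ℤ} {S : Finset ℕ → (A k' → ℤ) →+ Pt} {ρ : G → A k'}
    {ν : A k'} {j : ℕ → A k'} (hA : Adm q k') (le : ∀ l, k l ≤ k' l) (h : HS q k' a S ρ ν j) :
    HS q k a (fun c => (S c).comp (plb k' k)) (fun σ => rdA k' k (ρ σ)) (rdA k' k ν)
      fun l => rdA k' k (j l) := by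
  have nz : ∀ {l}, k l ≠ 0 → k' l ≠ 0 := fun {l} h => by have := le l; omega
  have cd : ∀ {c}, Cd k c → Cd k' c := fun h l hl => nz (h l hl)
  refine ⟨fun c Φ hc => h.alg c _ (cd hc), fun σ τ h1 h2 => by rw [h.rho_mul σ τ h1 h2, map_add],
    fun σ h1 => by rw [h.rho_cj σ h1, map_neg], fun c Φ σ hc hΦ h1 => ?_, fun c Φ hc hΦ => ?_,
    fun c Φ l hc hΦ h1 h2 h3 => h.inert c _ l (cd hc) (dep_plb hΦ) (nz h1) h2 h3,
    fun c Φ l hc hΦ h1 h2 h3 => ?_, fun c Φ p O φ hc hΦ h1 h2 h3 h4 h5 => ?_,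
    fun v O σ l h1 h2 h3 h4 h5 => by rw [rdA_ap, h.iner v O σ l h1 h2 h3 h4 h5, map_zero],
    fun l O φ l' h1 h2 h3 h4 h5 => ?_,
    fun σ l s h1 h2 h3 => by rw [rdA_ap, cz_even (le l) h2]; exact h.gen σ l s h1 (nz h2) h3,
    fun l h1 => by rw [rdA_ap, cz_even (le l) h1]; exact h.nu l (nz h1),
    fun l r π i O h1 h2 h3 h4 h5 h6 h7 => by
      rw [rdA_ap, cz_dvd (le r) h5]
      exact h.val l r π i O (nz h1) h2 (nz h3) h4 (h5.trans (le r)) h6 h7,
    h.base, h.es⟩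
  · refine (h.act c _ σ (cd hc) (dep_plb hΦ) h1).trans (congrArg (S c) (funext fun g => ?_))
    exact congrArg Φ (map_sub _ _ _)
  · refine (h.conj c _ (cd hc) (dep_plb hΦ)).trans
      (congrArg (fun f => -S c f) (funext fun g => ?_))
    exact congrArg Φ (map_sub _ _ _)
  · refine (h.split c _ l (cd hc) (dep_plb hΦ) (nz h1) h2 h3).trans ?_
    exact congrArg₂ (fun f f' => a l • S c (plb k' k Φ) - S c f - S c f')
      (funext fun g => congrArg Φ (map_sub (rdA k' k) g _))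
      (funext fun g => congrArg Φ (map_add (rdA k' k) g _))
  · have h6 := h.cong c _ p O φ (cd hc) (dep_plb hΦ) (nz h1) h2 h3 h4 h5
    have e : (fun g : A k' => (((p + 1) / 2 ^ k' p : ℕ) : ℤ) *
        ∑ x : ZMod (2 ^ k' p), plb k' k Φ (Function.update g p x)) =
        plb k' k fun g => (((p + 1) / 2 ^ k p : ℕ) : ℤ) *
          ∑ x : ZMod (2 ^ k p), Φ (Function.update g p x) := by
      funext g
      have e1 : ∀ x, plb k' k Φ (Function.update g p x) =
          Φ (Function.update (rdA k' k g) p (cz (k' p) (k p) x)) := fun x =>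
        congrArg Φ (funext fun l => by
          by_cases e : l = p
          · subst e; simp [rdA_ap]
          · simp [rdA_ap, Function.update_of_ne e])
      obtain ⟨u, hu⟩ := (hA p (nz h1)).2.2.2.2.2 h3
      have e2 : (p + 1) / 2 ^ k p = (p + 1) / 2 ^ k' p * 2 ^ (k' p - k p) := by
        rw [hu, Nat.mul_div_cancel_left _ (Nat.two_pow_pos _)]
        apply Nat.div_eq_of_eq_mul_right (Nat.two_pow_pos _)
        rw [mul_comm u, ← mul_assoc, ← pow_add, Nat.add_sub_cancel' (le p)]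
      simp only [e1]
      rw [cz_fib (le p) fun y => Φ (Function.update (rdA k' k g) p y), ← mul_assoc]
      show _ = (((p + 1) / 2 ^ k p : ℕ) : ℤ) * _
      rw [e2, Nat.cast_mul, Nat.cast_pow]
      rfl
    rw [e] at h6
    exact h6
  · obtain ⟨u, hu, e⟩ := h.frob l O φ l' (nz h1) h2 h3 h4 h5
    exact ⟨u, hu, by rw [rdA_ap, e, cz_int, rdA_ap]⟩

end Pool.Agent.Lib.MP_d6ddbd_nt.K11.KK
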