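import Pool.Agent.Lib.MP_d6ddbd_nt.K11.All
import Pool.Agent.Lib.MP_d6ddbd_nt.KI.Asw
import Pool.Agent.Lib.MP_d6ddbd_nt.KI.CK2
import Pool.Agent.Lib.MP_d6ddbd_nt.KI.Cx2
import Pool.Agent.Lib.MP_d6ddbd_nt.KI.KM
import Pool.Agent.Lib.MP_d6ddbd_nt.KI.P2
import Pool.Agent.Lib.MP_d6ddbd_nt.KI.Push

/-! The system of classes modulo a power of two: the assembly. -/

set_option autoImplicit false

open NumberField
open Pool.Agent.Lib.MP_02f36d_nt (xc yc)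

noncomputable section

namespace Pool.Agent.Lib.MP_d6ddbd_nt.K11

namespace KK

section two

variable {q : ℕ} {d : ℤ} {r m : ℕ} {k k' : ℕ → ℕ} {a : ℕ → ℤ} {S : Finset ℕ → (A k' → ℤ) →+ Pt}
  {ρ : G → A k'} {ν : A k'} {j : ℕ → A k'} {ν0 : A k} {j0 : ℕ → A k}
  (C : Ctx q d r k a (fun c => (S c).comp (plb k' k)) (fun σ => rdA k' k (ρ σ)) ν0 j0)
  (C' : Cx q d r m k' a S ρ ν j)

theorem A_le : C.sys.A ≤ C'.sys.A := fun _ hx σ h1 h2 => hx σ h1 (by simp only [h2, map_zero])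

theorem Q_cmp (hm : tt d + 3 ≤ m) {n : Finset ℕ} (hn : KnM q d m n) :
    ∃ b ∈ C'.sys.A, C'.sys.Q n 0 = C.sys.Q n 0 + (2 : ℤ) ^ (tt d + 3) • b := by
  have hk : Kn q d n := fun p hp => (hn p hp).kol
  obtain ⟨Φ', e'⟩ : ∃ Φ', Φ' = tst k' d r m n (tf2 (ph 0) n) := ⟨_, rfl⟩
  obtain ⟨Φ, e⟩ : ∃ Φ, Φ = plb k' k (tst k d r (tt d + 3) n (tf2 (ph 0) n)) := ⟨_, rfl⟩
  have d1 : K11.Dep (cc d r n) Φ' := e' ▸ dep_tst _ _ _ _ _ _
  have d2 : K11.Dep (cc d r n) Φ := e ▸ dep_plb (dep_tst _ _ _ _ _ _)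
  have dv : ∀ g, (2 : ℤ) ^ (tt d + 3) ∣ Φ' g - Φ g := by
    intro g
    have c1 : chi d.natAbs.primeFactors (rdA k' k g) = chi d.natAbs.primeFactors g :=
      Finset.prod_congr rfl fun l hl => by
        obtain ⟨p1, p2⟩ := (mem_D C.qd.fam).1 hl
        rw [sg, sg, rdA_ap, cz_val ((C'.kd l p1 p2).trans (C.kd l p1 p2).symm)]
    rw [e', e]
    change _ ∣ _ - tst k d r (tt d + 3) n (tf2 (ph 0) n) (rdA k' k g)
    rw [tst_eq d (dep_tf2 _ _), tst_eq d (dep_tf2 _ _), c1, ← mul_sub]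
    refine Dvd.dvd.mul_left ?_ _
    simp only [tf2, ps, ph, Ring.choose_zero_right, one_mul]
    refine Int.ModEq.dvd (Int.ModEq.prod fun p hp => ?_)
    change (((cz (k p) _ (cz (k' p) (k p) (g p))).val : ℕ) : ℤ) ≡ ((cz (k' p) m (g p)).val : ℕ) [ZMOD _]
    rw [cz_val (C.kp p (hk p hp)), cz_val (C'.kp p (hn p hp)),
      cz_val_mod (by rw [C.kp p (hk p hp), C'.kp p (hn p hp)]; exact hm), C.kp p (hk p hp)]
    push_cast
    exact Int.mod_modEq _ _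
  refine ⟨C'.pA (C'.cd hn) fun g => (Φ' g - Φ g) / 2 ^ (tt d + 3),
    C'.pA_mem _ fun g g' h => by rw [d1 g g' h, d2 g g' h], Subtype.ext ?_⟩
  have e1 : (C'.sys.Q n 0 : Pt) = S (cc d r n) Φ' := e' ▸ C'.YY_pos hn _
  have e2 : (C.sys.Q n 0 : Pt) = S (cc d r n) Φ := e ▸ C.YY_pos hk _
  rw [AddSubgroup.coe_add, AddSubgroupClass.coe_zsmul, e1, e2]
  change _ = _ + (2 : ℤ) ^ (tt d + 3) • S (cc d r n) _
  rw [← map_zsmul, ← map_add]
  congr 1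
  funext g
  rw [Pi.add_apply, Pi.smul_apply, smul_eq_mul, Int.mul_ediv_cancel' (dv g), add_sub_cancel]

include C C' in
theorem kx_of {L : Type} [Field L] [NumberField L] {θ : L} (hθ : Cub θ) {s : ℕ}
    (hm : tt d + s + 3 ≤ m) {π : ℕ → ℂ}
    (hπ : ∀ v, v = 2 ∨ v = 11 → (π v ∈ OK q ∧ ∃ h : ℕ, Complex.normSq (π v) = (v : ℝ) ^ h) ∧
      ∃ (O : ValuationSubring ℂ) (φ : G), Ov O v ∧ Frob O v φ ∧ φ (om q) = om q ∧
        ∀ p, Gd q d m π p → ρ φ p = 0) : ∃ x T χ, KX θ q d m s π x T χ := by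
  obtain ⟨M, ξ, hk, hX⟩ := C.main2
  obtain ⟨α, hl, hu⟩ := ck2_thm L θ hθ q d r M ξ C.qd C.rd hk
  have hsq := fun n => sgc_sq (tw q d n)
  have hex : ∀ n, ∃ T : AlgS C'.hR.1, (2 : ℤ) ^ (tt d + 1 + s) • T = C'.sys.Q n 0 ∧
      (M = tt d → KnM q d m n → ∀ σ, 2 ^ s • (C'.sys.cx (sgc (tw q d n)) (tt d + 1 + s) T σ : Pt) =
        ξ n 0 σ) := by
    intro n
    by_cases h : M = tt d ∧ KnM q d m n
    · obtain ⟨X, x1, x2, x3, x4⟩ := hX h.1 n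
      obtain ⟨b, hb, e⟩ := Q_cmp C C' (by omega) h.2
      obtain ⟨T, hT⟩ := exists_div s (X + (4 : ℤ) • b)
      have e1 : (2 : ℤ) ^ (s + 1) • T = (2 : ℤ) • X + (8 : ℤ) • b := by
        rw [pow_succ', mul_smul, hT]; module
      have e2 : (2 : ℤ) ^ tt d • (2 : ℤ) ^ (s + 1) • T = C'.sys.Q n 0 := by
        rw [e, ← x2, e1]; module
      have inv : C'.sys.InvX (sgc (tw q d n)) (s + 1) T := C'.sys.invX_of
        (e1 ▸ C'.sys.A.add_mem (A_le C C' x1) (C'.sys.A.zsmul_mem hb _)) e2 (by omega) (hsq n)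
        (C'.invQ n)
      have e3 : tt d + 1 + s = tt d + (s + 1) := by omega
      refine ⟨T, by rw [e3, pow_add, mul_smul, e2], fun _ _ σ => ?_⟩
      rw [e3, inv.level, ← coe_pow, inv.half (sgc_or _ _), hT, x3.cmp (A_le C C') hb, x4]
    · obtain ⟨T, hT⟩ := exists_div (tt d + 1 + s) (C'.sys.Q n 0)
      exact ⟨T, hT, fun h1 h2 => absurd ⟨h1, h2⟩ h⟩
  choose T hT hc using hex
  have hT0 : ∀ n, (2 : ℤ) ^ 0 • (2 : ℤ) ^ (tt d + 1 + s) • T n = C'.sys.Q n 0 := fun n => by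
    rw [pow_zero, one_smul, hT]
  have inv : ∀ n, C'.sys.InvX (sgc (tw q d n)) (tt d + 1 + s) (T n) := fun n =>
    C'.sys.invX_of (hT n ▸ C'.sys.Q_mem n 0) (hT0 n) (by omega) (hsq n) (C'.invQ n)
  have fx : ∀ n σ, sgc (tw q d n) σ • σ • C'.sys.Q n 0 = C'.sys.Q n 0 →
      (C'.sys.cx (sgc (tw q d n)) (tt d + 1 + s) (T n) σ : Pt) =
        sgc (tw q d n) σ • σ • (T n : Pt) - T n := fun n σ h =>
    congrArg Subtype.val (C'.sys.cx_fix (by rwa [hT]))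
  refine ⟨fun n σ => (C'.sys.cx (sgc (tw q d n)) (tt d + 1 + s) (T n) σ : Pt), fun n => T n,
    fun n => sgc (tw q d n), fun v hv => (hπ v hv).1, fun n => sgc_or _,
    fun n σ u hu => sgc_ap σ hu, fun n => (T n).2, fun n σ _ => ?_,
    fun n σ τ _ => congrArg Subtype.val ((inv n).mul (sgc_mul (C'.tw_ne n) σ τ)), fun n => ?_,
    fun n v O σ _ hv vn hO hσ hG => fx n σ (C'.fixQ hG fun p hp =>
      C'.hs.iner v O σ p hv hO hσ hG fun e => vn (e ▸ hp)),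
    fun v hv => ?_, fun σ => fx ∅ σ (C'.fixQ0 σ), fun n p O σ φ u hn hp pn hO hσ hφ hs e1 => ?_,
    fun n hn h => ?_⟩
  · rw [← coe_pow, (inv n).tor]; rfl
  · refine ⟨{xc (T n).1, yc (T n).1, rtc (tw q d n)}, fun z hz => ?_, fun σ hσ => ?_⟩
    · simp only [Finset.mem_insert, Finset.mem_singleton] at hz
      rcases hz with rfl | rfl | rfl
      exacts [(T n).2.1, (T n).2.2,
        IsAlgebraic.of_pow two_pos (by rw [rtc_sq]; exact isAlgebraic_intCast _)]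
    · have : σ • T n = T n := Subtype.ext (act_ext (smul_eq_zero' _ _)
        ((xc_smul _ _).trans (hσ _ (by simp))) ((yc_smul _ _).trans (hσ _ (by simp))))
      rw [C'.sys.cx_stab (if_pos (hσ _ (by simp))) this]; rfl
  · obtain ⟨-, O, φ, h1, h2, h3, h4⟩ := hπ v hv
    exact ⟨O, φ, h1, h2, h3, fun n hn => fx n φ (C'.fixQ h3 fun p hp => h4 p (hn p hp))⟩
  · have x2 : ∀ n, sgc (tw q d n) (φ * φ) = 1 := fun n => by rw [sgc_mul (C'.tw_ne n), hsq]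
    obtain ⟨⟨o, ho, m1⟩, m2⟩ := (C'.atP hn hp pn hO hσ hφ hs e1).mainX (by omega) (inv n) (hT0 n)
      (inv _) (hT0 _) (C'.sgc_iner _ hp hO hσ) (x2 _) (x2 _)
    exact ⟨⟨o, ho, congrArg Subtype.val m1⟩, congrArg Subtype.val m2⟩
  · have kn : Kn q d n := fun p hp => (hn p hp).kol
    obtain ⟨h1, h2⟩ := asw_thm L θ hθ q d M α C.qd hl hk.le n kn h
    rw [funext (hc n h1 hn)]
    exact ⟨α n 0, hk.coc n 0 kn, hu n kn, hl.mem n 0 kn, hl.b0 n kn, hl.fp n 0 kn, h2⟩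

end two

end KK

open KK Main in
theorem sysd_thm : SysStmt := by
  classical
  intro L _ _ θ hθ q d m s hq h8 hm
  obtain ⟨Pp, a, t0, hx⟩ := xAll
  have h1 : ∀ l : ℕ, ∃ π, l.Prime → (l : ℤ) ∣ d → Gen q l π := fun l => by
    by_cases h : l.Prime ∧ (l : ℤ) ∣ d
    · obtain ⟨π, hπ⟩ := odd_thm pic_thm kerAll q l hq.qf h.1 (d_ne_two hq.fam h.2)
        (by rintro rfl; exact hq.nd h.2) (hq.spl l h.1 h.2)
      exact ⟨π, fun _ _ => hπ⟩
    · exact ⟨0, fun h1 h2 => absurd ⟨h1, h2⟩ h⟩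
  choose π hπ using h1
  obtain ⟨r, O, hr, hO, h2⟩ := aux_thm vAll rAll q d π hq hπ
  obtain ⟨k', hk'⟩ : ∃ k' : ℕ → ℕ, ∀ l, k' l = if KolM q d m l then m else kk q d r l :=
    ⟨_, fun _ => rfl⟩
  have kp : ∀ p, KolM q d m p → k' p = m := fun p hp => by rw [hk', if_pos hp]
  have le : ∀ l, kk q d r l ≤ k' l := fun l => by
    rw [hk']
    split_ifs with h
    · rw [kk_kol hr h.kol]; omega
    · exact le_rfl
  have hA : Adm q k' := fun l hl => by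
    rw [hk'] at hl ⊢
    split_ifs at hl ⊢ with h
    · exact ⟨h.kol.pr, kol_ne_two h.kol, h.kol.n11, h.kol.nq, fun e => absurd e h.kol.inert,
        fun _ => h.dv⟩
    · exact adm hq hr l hl
  obtain ⟨S, ρ, ν, j, hs', hP⟩ := p2_thm Pp a t0 hx q k' hq.qf hA
  have hs := push hA le hs'
  have C : Ctx q d r (kk q d r) a _ _ _ _ := ⟨vAll, rAll, hq, hr, fun l => kk_d, kk_r hr,
    fun p => kk_kol hr, kk_le, hs, fun l hl hd => by
      have h4 := fun i hi => hs.val l r (π l) i O (by rw [kk_d hl hd]; omega) (hq.spl l hl hd)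
        (by rw [kk_r hr]; omega) hr.inert hi (hπ l hl hd) hO
      have h5 := h4 1 (by rw [kk_r hr]; omega)
      have h6 := h4 2 (by rw [kk_r hr]; omega)
      refine ⟨fun e => ?_, fun e => ?_⟩
      · have := mt h5.1 ((h2 l hl hd).1 e)
        omega
      · have h7 := h5.2 ((h2 l hl hd).2 e).1
        have h8 := mt h6.1 ((h2 l hl hd).2 e).2
        omega⟩
  have C' : Cx q d r m k' a S ρ ν j := ⟨vAll, rAll, hq, hr,
    fun l h1 h2 => by rw [hk', if_neg fun h => h.kol.nd h2, kk_d h1 h2],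
    by have := le r; rw [kk_r hr] at this; omega, kp,
    ⟨m + 3 * tt d + 4, fun l => by
      have := kk_le (q := q) (d := d) (r := r) l
      rw [hk']
      split_ifs <;> omega⟩, by omega, hs'⟩
  have h3 : ∀ v : ℕ, ∃ π : ℂ, v = 2 ∨ v = 11 →
      (π ∈ OK q ∧ ∃ h : ℕ, Complex.normSq π = (v : ℝ) ^ h) ∧
      ∃ (O : ValuationSubring ℂ) (φ : G), Ov O v ∧ Frob O v φ ∧ φ (om q) = om q ∧
        ∀ p O', KolM q d m p → Ov O' p →
          (starRingEnd ℂ π / π) ^ ((p + 1) / 2 ^ m) - 1 ∈ O'.nonunits → ρ φ p = 0 := fun v => by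
    by_cases hv : v = 2 ∨ v = 11
    · have vp : v.Prime := by rcases hv with rfl | rfl <;> norm_num
      obtain ⟨O, hO⟩ := vAll.1.1 v vp
      obtain ⟨φ, hφ⟩ := vAll.1.2.2.2.2 v O vp hO
      have hG : φ (om q) = om q := by
        rcases hv with rfl | rfl
        · exact frob_two h8 hO hφ
        · exact (vAll.2.1.2.2.2.2.2.2.2.1 q 11 O φ hq.qf.pr hq.qf.m4 vp (by norm_num)
            (by have := hq.qf.big; omega) hO hφ).2 hq.qf.s11
      obtain ⟨π, p1, p2, p3⟩ := hP v O φ vp hO hφ hG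
      refine ⟨π, fun _ => ⟨⟨p1, p2⟩, O, φ, hO, hφ, hG, fun p O' hp h1 h2 =>
        p3 p O' (by rw [kp p hp]; omega) ?_ hp.kol.inert h1 (by rwa [kp p hp])⟩⟩
      rcases hv with rfl | rfl
      exacts [kol_ne_two hp.kol, hp.kol.n11]
    · exact ⟨0, fun h => absurd h hv⟩
  choose π' hπ' using h3
  refine ⟨π', kx_of C C' hθ hm fun v hv => ?_⟩
  obtain ⟨p1, O, φ, p2, p3, p4, p5⟩ := hπ' v hv
  refine ⟨p1, O, φ, p2, p3, p4, fun p hp => ?_⟩
  obtain ⟨O', h1, h2⟩ := hp.gd v hv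
  exact p5 p O' hp.km h1 h2

end Pool.Agent.Lib.MP_d6ddbd_nt.K11
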