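import Pool.Agent.Lib.MP_d6ddbd_nt.K11.R1
import Pool.Agent.Lib.MP_d6ddbd_nt.K11.R2
import Pool.Agent.Lib.MP_d6ddbd_nt.KI.Stmt
import Pool.Agent.Lib.MP_d6ddbd_nt.KI.Loc0

/-!
Conjugacy of places, finiteness of ramification, density of the Weil monoid.
-/

set_option autoImplicit false

open Pool.Agent.Lib.MP_d6ddbd_nt.K11

noncomputable section

namespace Pool.Agent.Lib.MP_d6ddbd_nt.KI

namespace Tr

theorem conj {v : ℕ} {O O' : ValuationSubring ℂ} (hv : v.Prime) (h : Ov O v) (h' : Ov O' v) :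
    ∃ g : G, ∀ (Q : ℕ) (σ : G), Frob O' Q σ → Frob O Q (g⁻¹ * σ * g) := by
  obtain ⟨g, -, hg⟩ := Loc0.tr hv h h'
  exact ⟨g⁻¹, fun Q σ a => by rw [inv_inv]; exact (hg Q σ).1 a⟩

theorem cq_mul (c : ℤ) (σ τ : G) : cq c (σ * τ) = cq c σ * cq c τ := by
  by_cases h0 : rt c = 0
  · simp [cq, h0]
  have n : -rt c ≠ rt c := fun e => h0 (by linear_combination -e / 2)
  rcases V2.sq_cases σ (rt_sq c) with a | a <;> rcases V2.sq_cases τ (rt_sq c) with b | b <;>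
    simp [cq, RingAut.mul_apply, a, b, n]

theorem tw_mul (c : ℤ) (σ τ : G) (P : Pt) : tw c (σ * τ) P = tw c σ (tw c τ P) := by
  rw [tw, tw, tw, cq_mul, mul_zsmul, mul_smul, smul_comm (cq c τ) σ]

theorem tw_sub (c : ℤ) (σ : G) (P Q : Pt) : tw c σ (P - Q) = tw c σ P - tw c σ Q := by
  rw [tw, tw, tw, smul_sub, zsmul_sub]

theorem alg_tw (c : ℤ) (σ : G) {P : Pt} (h : AlgP P) : AlgP (tw c σ P) := by
  have h1 := r1_thm.1.2.2.2.1 σ P h
  unfold tw cq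
  split_ifs
  · rwa [one_zsmul]
  · rw [neg_zsmul, one_zsmul]
    exact r1_thm.1.2.2.1 _ h1

theorem alg_tor {k : ℕ} {P : Pt} (h : 2 ^ k • P = 0) : AlgP P := by
  induction k generalizing P with
  | zero => rw [pow_zero, one_smul] at h; exact h ▸ r1_thm.1.1
  | succ k ih => exact r1_thm.1.2.2.2.2.1 P (ih (by rw [smul_smul, ← pow_succ, h]))

theorem tor_smul {k : ℕ} (σ : G) {P : Pt} (h : 2 ^ k • P = 0) : 2 ^ k • σ • P = 0 := by
  rw [smul_comm, h]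
  exact (smul_eq_zero' σ 0).2 rfl

/-- Two Frobenius elements at a good place agree on the torsion points. -/
theorem frob_eq {v k : ℕ} {O : ValuationSubring ℂ} {φ ψ : G} (hv : v.Prime) (h2 : v ≠ 2)
    (h11 : v ≠ 11) (hO : Ov O v) (a : Frob O v φ) (b : Frob O v ψ) {T : Pt} (hT : 2 ^ k • T = 0) :
    φ • T = ψ • T := by
  obtain ⟨-, -, r3, -, r5, -⟩ := r2_thm v1_thm v2_thm r1_thm v O hv h2 h11 hO
  have h1 := r5 k _ (by rw [nsmul_sub, tor_smul _ hT, hT, sub_zero])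
    (r3 _ T (V2.c3 (n := 1) hv hO (by rwa [pow_one]) (by rwa [pow_one]) : Frob O 1 (ψ⁻¹ * φ))
      (alg_tor hT))
  rw [sub_eq_zero, mul_smul, inv_smul_eq_iff] at h1
  exact h1

end Tr

open Tr in
theorem tr_thm : TrStmt := by
  refine ⟨fun v O O' hv h h' => conj hv h h', fun c k v x O O' hx hv h h' ⟨S, hS, hK⟩ => ?_,
    fun k m q d n hk hn p hp O φ hO hφ T hT => ?_⟩
  · obtain ⟨g, hg⟩ := conj hv h h'
    refine ⟨tw c g S - x g, ?_, fun σ ⟨n, hσ⟩ => ?_⟩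
    · rw [sub_eq_add_neg]
      exact r1_thm.1.2.1 _ _ (alg_tw c g hS) (r1_thm.1.2.2.1 _ (alg_tor (hx.tor g)))
    · have e : σ * g = g * (g⁻¹ * σ * g) := by group
      have h1 := hx.mul σ g
      rw [e, hx.mul, hK _ ⟨n, hg _ σ hσ⟩, tw_sub, ← tw_mul, ← e, tw_mul] at h1
      rw [tw_sub, eq_sub_of_add_eq h1.symm]
      abel
  · obtain ⟨O', ψ, a1, a2, a3⟩ := (hn p hp).fr
    obtain ⟨g, hg⟩ := conj (hn p hp).pr a1 hO
    obtain ⟨j, rfl⟩ := Nat.exists_eq_add_of_le hk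
    have up : ∀ P : Pt, 2 ^ k • P = 0 → 2 ^ (k + j) • P = 0 := fun P h => by
      rw [pow_add, mul_comm, mul_nsmul', h, nsmul_zero]
    have e := fun (P : Pt) (h : 2 ^ k • P = 0) =>
      frob_eq (hn p hp).pr (hn p hp).n2 (hn p hp).n11 a1 (hg p φ hφ) a2 h
    have h1 := a3 _ (up _ (tor_smul g⁻¹ hT))
    rw [← e _ (tor_smul ψ (tor_smul g⁻¹ hT)), ← e _ (tor_smul g⁻¹ hT)] at h1
    simpa only [mul_smul, smul_inv_smul, smul_left_cancel_iff] using h1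

theorem ram_thm : RamStmt := fun J hJ => by
  obtain ⟨N, h⟩ := Loc0.ram J hJ
  exact ⟨N, fun v O σ hv hN hO hσ => h v hv hN O hO σ hσ⟩

theorem dec_thm : DecStmt := fun v O σ J hv hO hσ hJ => by
  obtain ⟨n, τ, h1, h2⟩ := Loc0.dec hv hO (fun x hx => (hσ x hx).symm) J hJ
  exact ⟨τ, ⟨n, h1⟩, h2⟩

end Pool.Agent.Lib.MP_d6ddbd_nt.KI
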