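import Pool.Agent.Lib.MP_d6ddbd_nt.KI.Stmt
import Pool.Agent.Lib.MP_d6ddbd_nt.K11.AllX

/-!
The number of strict classes drops at a Kolyvagin prime that detects one of them.
-/

set_option autoImplicit false

open Pool.Agent.Stark (SqCl cl)
open Pool.Agent.Lib.MP_d6ddbd_nt.K11

namespace Pool.Agent.Lib.MP_d6ddbd_nt.KI

theorem ych_thm : YchStmt := by
  intro L _ _ θ hθ q d n p a hq hn hp ha hf
  have hL := (lAll L θ hθ d hq.fam).2.2
  have h1 := hL (insert p n) fun l hl =>
    ⟨(hn l hl).1, (hn l hl).2.1, (hn l hl).2.2.1, (hn l hl).2.2.2.2⟩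
  have h0 := hL n fun l hl =>
    have := hn l (Finset.mem_insert_of_mem hl)
    ⟨this.1, this.2.1, this.2.2.1, this.2.2.2.2⟩
  have sub : ∀ y, Yn θ q d (insert p n) y → Yn θ q d n y := fun y hy => by
    have r := (h1.1 y a hy.wc (Main.wc_mono ha.wc (Finset.subset_insert p n))).2
    rw [Finset.sum_eq_zero fun 𝔭 h => by rw [hy.bv 𝔭 h, ha.bv 𝔭 h, mul_zero, zero_mul, add_zero],
      Finset.sum_insert hp, Finset.sum_eq_zero fun l h => by
        rw [hy.fp l (Finset.mem_insert_of_mem h), ha.fp l h, mul_zero, zero_mul, add_zero],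
      hf, hy.fp p (Finset.mem_insert_self p n), mul_one, zero_mul, add_zero, add_zero,
      zero_add] at r
    have w := (h1.2.1 y hy.wc).2.2.1 p (Finset.mem_insert_self p n) r
    rw [Finset.erase_insert hp] at w
    exact ⟨w, hy.bv, fun l h => hy.fp l (Finset.mem_insert_of_mem h), hy.fq⟩
  have := h0.2.2.1
  have fin : (WS L d n : Set (SqCl L)).Finite := Module.finite_of_finite (ZMod 2) (M := WS L d n)
  refine Set.ncard_lt_ncard ⟨Set.image_mono sub, fun h => ?_⟩
    (fin.subset ((Set.image_mono fun y hy => hy.wc).trans Submodule.subset_span))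
  obtain ⟨y, hy, e⟩ := h ⟨a, ha, rfl⟩
  have k := Main.fv_congr (hn p (Finset.mem_insert_self p n)).1.ne_zero hy.wc.ne ha.wc.ne e
  rw [hf, hy.fp p (Finset.mem_insert_self p n)] at k
  exact zero_ne_one k

end Pool.Agent.Lib.MP_d6ddbd_nt.KI
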