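import Pool.Agent.Lib.MP_d6ddbd_nt.KI.Basis
import Pool.Agent.Lib.MP_d6ddbd_nt.KI.Bl
import Pool.Agent.Lib.MP_d6ddbd_nt.KI.Br
import Pool.Agent.Lib.MP_d6ddbd_nt.KI.Ch
import Pool.Agent.Lib.MP_d6ddbd_nt.KI.Cha
import Pool.Agent.Lib.MP_d6ddbd_nt.KI.Chain
import Pool.Agent.Lib.MP_d6ddbd_nt.KI.Cm
import Pool.Agent.Lib.MP_d6ddbd_nt.KI.Cm1
import Pool.Agent.Lib.MP_d6ddbd_nt.KI.Cnt
import Pool.Agent.Lib.MP_d6ddbd_nt.KI.Dk
import Pool.Agent.Lib.MP_d6ddbd_nt.KI.Fb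
import Pool.Agent.Lib.MP_d6ddbd_nt.KI.Fr
import Pool.Agent.Lib.MP_d6ddbd_nt.KI.Fv
import Pool.Agent.Lib.MP_d6ddbd_nt.KI.Gd
import Pool.Agent.Lib.MP_d6ddbd_nt.KI.Heis
import Pool.Agent.Lib.MP_d6ddbd_nt.KI.Le
import Pool.Agent.Lib.MP_d6ddbd_nt.KI.Locx
import Pool.Agent.Lib.MP_d6ddbd_nt.KI.Main
import Pool.Agent.Lib.MP_d6ddbd_nt.KI.Pt
import Pool.Agent.Lib.MP_d6ddbd_nt.KI.Qch
import Pool.Agent.Lib.MP_d6ddbd_nt.KI.Rel
import Pool.Agent.Lib.MP_d6ddbd_nt.KI.SubA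
import Pool.Agent.Lib.MP_d6ddbd_nt.KI.Sys
import Pool.Agent.Lib.MP_d6ddbd_nt.KI.SysA
import Pool.Agent.Lib.MP_d6ddbd_nt.KI.Tr
import Pool.Agent.Lib.MP_d6ddbd_nt.KI.Ych

/-!
The full two-converse for the quadratic twists of `X₀(11)`: the blocks assembled.
-/

set_option autoImplicit false

open Pool.Agent.Lib.MP_d6ddbd_nt.K11

namespace Pool.Agent.Lib.MP_d6ddbd_nt.KI

theorem commAll : CommStmt := comm_thm vAll rAll pr_thm

theorem link2All : Link2Stmt := link2_thm vAll rAll pr_thm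

theorem surjAll : SurjStmt :=
  let ⟨_, _, _, _, hθ⟩ := Final.exists_cub
  surjH_thm hθ pr_thm commAll kumAll link2All

theorem blAll : BlStmt := bl_thm le_thm

theorem subAAll : SubAStmt := subA_thm tr_thm le_thm gd_thm

theorem chAll : ChStmt :=
  ch_thm rAll pr_thm kumAll link1All link2All (cm_thm pr_thm commAll) (cha_thm surjAll fr_thm)
    fb_thm fv_thm

theorem main_of (hB : SubBStmt) (hS : StepStmt) : MainStmt :=
  main_thm tr_thm cnt_thm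
    (qch_thm (basis_thm fr_thm) (heis_thm isoH_thm abhn_thm surjAll) ram_thm fb_thm subAAll hB
      (rel_thm isoH_thm unr_thm rec_thm blAll) alt_thm)
    (sys_thm sysd_thm (locx_thm tr_thm gd_thm)) (chain_thm tr_thm ych_thm chAll hS) subAAll hB
    pt_thm

end Pool.Agent.Lib.MP_d6ddbd_nt.KI
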