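import Pool.Agent.Lib.MP_d6ddbd_nt.KI.Bas

/-!
A basis of the Selmer classes of level one.
-/

set_option autoImplicit false
set_option maxSynthPendingDepth 3

open Pool.Agent.Lib.MP_d6ddbd_nt.K11

noncomputable section

namespace Pool.Agent.Lib.MP_d6ddbd_nt.KI

namespace BasisA

open Finset in
theorem ab {A : Type} [AddCommGroup A] (S C : AddSubgroup A) (h2 : ∀ x ∈ S, 2 • x = 0)
    (s : Finset A) (hs : ∀ x ∈ S, ∃ y ∈ s, x - y ∈ C) {a₀ : A} (h0 : a₀ ∈ S) (h1 : a₀ ∉ C) :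
    ∃ (r : ℕ) (B : Fin (r + 1) → A), B 0 = a₀ ∧ (∀ i, B i ∈ S) ∧
      (∀ a : Fin (r + 1) → ZMod 2, ∑ i, (a i).val • B i ∈ C → a = 0) ∧
      ∀ x ∈ S, ∃ a : Fin (r + 1) → ZMod 2, x - ∑ i, (a i).val • B i ∈ C := by
  classical
  have z : ∀ u : ZMod 2, u = 0 ∨ u = 1 := by decide
  let P : ℕ → Prop := fun r => ∃ B : Fin (r + 1) → A, B 0 = a₀ ∧ (∀ i, B i ∈ S) ∧
    ∀ a : Fin (r + 1) → ZMod 2, ∑ i, (a i).val • B i ∈ C → a = 0
  have p0 : P 0 := ⟨fun _ => a₀, rfl, fun _ => h0, fun a h => by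
    rcases z (a 0) with e | e
    · exact funext fun i => by rwa [Fin.fin_one_eq_zero i]
    · simp [e, h1, ZMod.val_one] at h⟩
  have bd : ∀ r, P r → r ≤ #s := fun r ⟨B, _, b, c⟩ => by
    choose! f f1 f2 using hs
    have m : ∀ a : Fin (r + 1) → ZMod 2, ∑ i, (a i).val • B i ∈ S := fun a =>
      S.sum_mem fun i _ => S.nsmul_mem (b i) _
    have := card_le_card_of_injOn (s := univ) (t := s)
      (fun a : Fin (r + 1) → ZMod 2 => f (∑ i, (a i).val • B i)) (fun a _ => f1 _ (m a))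
      fun a _ a' _ e => by
        have g := C.sub_mem (f2 _ (m a)) (f2 _ (m a'))
        rw [show f _ = f _ from e, sub_sub_sub_cancel_right, ← sum_sub_distrib] at g
        refine sub_eq_zero.1 (c _ (by
          rwa [sum_congr rfl fun i _ => ?_]
          have t := h2 _ (b i)
          rw [two_nsmul, add_eq_zero_iff_eq_neg] at t
          rw [Pi.sub_apply]
          rcases z (a i) with u | u <;> rcases z (a' i) with v | v <;>
            simp [u, v, ZMod.val_one, ← t]))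
    rw [card_univ, Fintype.card_fun, ZMod.card, Fintype.card_fin] at this
    have := Nat.lt_two_pow_self (n := r + 1)
    omega
  obtain ⟨B, a, b, c⟩ := Nat.findGreatest_spec (bd 0 p0) p0
  refine ⟨_, B, a, b, c, fun x hx => ?_⟩
  have n := Nat.findGreatest_is_greatest (P := P) (n := #s) (Nat.lt_succ_self _)
  by_contra! w
  have : P (Nat.findGreatest P #s + 1) := ⟨Fin.snoc B x, by simpa using a,
    fun i => Fin.lastCases (by simpa using hx) (fun j => by simpa using b j) i, fun u e => by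
      rw [Fin.sum_univ_castSucc] at e
      simp only [Fin.snoc_castSucc, Fin.snoc_last] at e
      rcases z (u (Fin.last _)) with v | v
      · rw [v, ZMod.val_zero, zero_nsmul, add_zero] at e
        exact funext fun i => Fin.lastCases v (fun j => congrFun (c _ e) j) i
      · rw [v, ZMod.val_one, one_nsmul] at e
        refine absurd ?_ (w fun i => u i.castSucc)
        have t := h2 x hx
        rw [two_nsmul, add_eq_zero_iff_eq_neg] at t
        rw [t, ← neg_add', add_comm]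
        exact C.neg_mem e⟩
  exact n (bd _ this) this

theorem mv : ∃ T : Pt, 2 • T = 0 ∧ cj • T ≠ T := by
  obtain ⟨-, -, p, t, ⟨e₁, e₂, e₃, f, -, -, n, -, c, -⟩, -⟩ := rA.1
  have f2 : fc e₂ = 0 := by rw [f, sub_self, mul_zero, zero_mul]
  obtain ⟨-, a, b⟩ := p e₂ 0 (by rw [f2]; ring)
  refine ⟨pt e₂ 0, (t _).2 (Or.inr ⟨b, by rwa [a]⟩), fun e => n ?_⟩
  rw [← c, ← a, ← xc_smul, e]

theorem nrm (hF : FrStmt) {c : ℤ} {x : G → Pt} (h : Sel c 1 ∅ x) :
    ∃ y, Sel c 1 ∅ y ∧ y cj = 0 ∧ Cb c (x - y) := by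
  obtain ⟨S, a, b⟩ := (hF 1 cj (cq c cj) (cq_or c cj)
    (fun T _ => by rw [← mul_smul, cj_mul_cj, one_smul]) mv).1 (x cj) (h.cy.tor cj) (by
      have := h.cy.sq cj
      rw [cj_mul_cj, h.cy.one, add_comm] at this
      exact this.symm)
  exact ⟨x - fun σ => tw c σ S - S, h.sub (sel_cob (tv_empty 1) a), sub_eq_zero.2 b,
    (cb_cob a).of_eq (sub_sub_cancel _ _).symm⟩

end BasisA

open BasisA in
theorem basis_thm (hF : FrStmt) : BasisStmt := fun c a₀ ⟨s, hs⟩ h0 h1 => by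
  obtain ⟨r, B, b0, b1, b2, b3⟩ := ab (SelS c 1 ∅) (CbS c) (fun x h => funext (Sel.two h)) s hs h0 h1
  choose B' p1 p2 p3 using fun i => nrm hF (b1 i)
  have d : ∀ a : Fin (r + 1) → ZMod 2, Cb c (rep B a - rep B' a) := fun a => by
    rw [rep, rep, ← Finset.sum_sub_distrib]
    exact (CbS c).sum_mem fun i _ => ((p3 i).nat _).of_eq (smul_sub _ _ _)
  refine ⟨r, B', (b0 ▸ p3 0).symm, fun i => ⟨p1 i, p2 i⟩,
    fun a h => b2 a (((d a).add h).of_eq (sub_add_cancel _ _)), fun x hx => ?_⟩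
  obtain ⟨a, h⟩ := b3 x hx
  exact ⟨a, (Cb.add h (d a)).of_eq (sub_add_sub_cancel _ _ _)⟩

end Pool.Agent.Lib.MP_d6ddbd_nt.KI
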