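import Pool.Agent.Lib.MP_d6ddbd_nt.KI.Stmt
import Pool.Agent.Lib.MP_d6ddbd_nt.KI.Loc0
import Pool.Agent.Lib.MP_d6ddbd_nt.K11.R1
import Pool.Agent.Lib.MP_d6ddbd_nt.K11.R2

/-! Level one: the Selmer groups of the twists by `d` and by `-q d`. -/

set_option autoImplicit false
set_option maxSynthPendingDepth 3

open Pool.Agent.Lib.MP_02f36d_nt (xc yc)
open Pool.Agent.Lib.MP_d6ddbd_nt.K11

noncomputable section

namespace Pool.Agent.Lib.MP_d6ddbd_nt.KI

namespace SubA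

variable {O : ValuationSubring ℂ} {q v : ℕ} {c d : ℤ} {σ τ φ : G} {T : Pt} {z : G → Pt}

theorem r2 : R2Stmt := r2_thm v1_thm v2_thm r1_thm

theorem cq_or (c : ℤ) (σ : G) : cq c σ = 1 ∨ cq c σ = -1 := by
  unfold cq
  split_ifs <;> simp

theorem sm2 (σ : G) (h : 2 • T = 0) : 2 • σ • T = 0 := by
  rw [two_nsmul, ← smul_add, ← two_nsmul, h, smul_zero]

theorem zs2 (u : ℤ) (h : 2 • T = 0) : u • T = 0 ∨ u • T = T := by
  have e : (2 : ℤ) • T = 0 := by exact_mod_cast h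
  rcases Int.even_or_odd' u with ⟨a, rfl | rfl⟩
  · left; rw [mul_comm, mul_smul, e, smul_zero]
  · right; rw [add_smul, mul_comm, mul_smul, e, smul_zero, zero_add, one_smul]

theorem tw2 (c : ℤ) (σ : G) (h : 2 • T = 0) : tw c σ T = σ • T := by
  rw [tw]
  rcases cq_or c σ with e | e <;> rw [e]
  · exact one_smul _ _
  · rw [neg_smul, one_smul, neg_eq_iff_add_eq_zero, ← two_nsmul, sm2 σ h]

theorem coc (h : Cy c 1 z) : Coc z :=
  ⟨h.tor, fun σ τ => by rw [h.mul, tw2 c σ (h.tor τ)], h.fin⟩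

theorem cy (h : Coc z) (c : ℤ) : Cy c 1 z :=
  ⟨h.two, fun σ τ => by rw [h.mul, tw2 c σ (h.two τ)], h.fin⟩

theorem in_fix (hv : v.Prime) (h2 : v ≠ 2) (h11 : v ≠ 11) (hO : Ov O v) (hσ : Frob O 1 σ)
    (h : 2 • T = 0) : σ • T = T := by
  obtain ⟨-, -, a, -, b, -⟩ := r2 v O hv h2 h11 hO
  exact sub_eq_zero.1 (b 1 _ (by rw [pow_one, smul_sub, sm2 σ h, h, sub_zero])
    (a σ T hσ (R1.alg_half T (h ▸ r1_thm.1.1))))

/-- An automorphism that moves a point of order two fixes at most one. -/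
theorem fix2 (hm : ∃ T : Pt, 2 • T = 0 ∧ φ • T ≠ T) {A B : Pt} (a2 : 2 • A = 0) (b2 : 2 • B = 0)
    (ha : φ • A = A) (hb : φ • B = B) : A = 0 ∨ B = 0 ∨ A = B := by
  obtain ⟨T, t2, ht⟩ := hm
  by_contra h
  obtain ⟨a0, b0, ab⟩ : A ≠ 0 ∧ B ≠ 0 ∧ A ≠ B := by tauto
  obtain ⟨y1, f1⟩ := ((R1.two_iff A).1 a2).resolve_left a0
  obtain ⟨y2, f2⟩ := ((R1.two_iff B).1 b2).resolve_left b0
  obtain ⟨y3, f3⟩ := ((R1.two_iff T).1 t2).resolve_left fun e => ht (by rw [e, smul_zero])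
  have e1 : φ (xc A) = xc A := by rw [← xc_smul, ha]
  have e2 : φ (xc B) = xc B := by rw [← xc_smul, hb]
  rw [R1.fc_eq f1 f2 fun e => ab (act_ext (by simp [a0, b0]) e (y1.trans y2.symm)),
    mul_eq_zero, mul_eq_zero, sub_eq_zero, sub_eq_zero, sub_eq_zero] at f3
  refine ht (act_ext (smul_eq_zero' φ T) ?_ (by rw [yc_smul, y3, map_zero]))
  rw [xc_smul]
  rcases f3 with (e | e) | e <;> rw [e]
  · exact e1
  · exact e2
  · rw [map_sub, map_sub, e1, e2, map_ofNat]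

theorem cq_in (hv : v.Prime) (h2 : v ≠ 2) (hO : Ov O v) (hc : ¬ (v : ℤ) ∣ c) (hσ : Frob O 1 σ) :
    σ (rt c) = rt c := by
  have e := rt_sq c
  refine V2.c6 hσ (V2.alg_of_sq e) (V2.mem_of_pow two_ne_zero (e ▸ intCast_mem O c))
    (V2.sq_cases σ e) fun h => V2.int_not hv hO (c := 2 * 2 * c) (fun k => ?_) ?_
  · have p := Nat.prime_iff_prime_int.1 hv
    have : ¬ (v : ℤ) ∣ 2 := fun d => h2 ((Nat.prime_dvd_prime_iff_eq hv Nat.prime_two).1
      (by exact_mod_cast d))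
    rcases p.dvd_or_dvd k with k | k
    · exact this ((p.dvd_or_dvd k).elim id id)
    · exact hc k
  · have := V2.pow_nu two_ne_zero h
    rwa [show (rt c - -rt c) ^ 2 = ((2 * 2 * c : ℤ) : ℂ) by
      push_cast; linear_combination 4 * e] at this

theorem s_ne (hq : q ≠ 0) : 2 * om q - 1 ≠ 0 := fun e => hq (by
  have := om_sq' q
  rw [e, zero_pow two_ne_zero, eq_comm, neg_eq_zero] at this
  exact_mod_cast this)

theorem rt_iff {s : ℂ} (h : s ^ 2 = c) (σ : G) : σ (rt c) = rt c ↔ σ s = s := by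
  rcases sq_eq_sq_iff_eq_or_eq_neg.1 ((rt_sq c).trans h.symm) with e | e <;> rw [e]
  rw [map_neg, neg_inj]

theorem sq_qd (q : ℕ) (d : ℤ) : ((2 * om q - 1) * rt d) ^ 2 = ((-(q * d) : ℤ) : ℂ) := by
  rw [mul_pow, om_sq', rt_sq]
  push_cast
  ring

theorem cq_om (hq : q ≠ 0) (d : ℤ) (h : σ (om q) = om q) : cq (-(q * d)) σ = cq d σ := by
  simp only [cq, rt_iff (sq_qd q d), map_mul σ (_ - 1), (V2.om_iff σ q).1 h,
    mul_right_inj' (s_ne hq)]

theorem cq_neg (hd : d ≠ 0) (h : σ (om q) ≠ om q) (h' : σ (rt d) = rt d) :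
    cq (-(q * d)) σ = -1 := by
  have r0 : rt d ≠ 0 := fun e => hd (by
    have := rt_sq d
    rw [e, zero_pow two_ne_zero, eq_comm] at this
    exact_mod_cast this)
  refine if_neg fun e => h ?_
  rwa [rt_iff (sq_qd q d), map_mul, h', mul_left_inj' r0, ← V2.om_iff] at e

theorem frob_two (h8 : q % 8 = 7) (hO : Ov O 2) (hφ : Frob O 2 φ) : φ (om q) = om q := by
  have h1 := V2.om_sq q
  obtain ⟨m, hm⟩ : ∃ m : ℕ, q + 1 = 8 * m := ⟨(q + 1) / 8, by omega⟩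
  have h2 : (q : ℂ) + 1 = 8 * m := by exact_mod_cast hm
  have h3 : om q ^ 2 = om q - m * (2 : ℕ) := by
    push_cast at h1 ⊢
    linear_combination (1 / 4 : ℂ) * h1 - (1 / 4 : ℂ) * h2
  have h5 : om q ∈ O := by
    by_contra b
    have h0 : om q ≠ 0 := fun e => b (e ▸ zero_mem _)
    have a1 := O.inv_mem_nonunits_iff.2 (Or.inr b)
    have a2 := sub_mem a1 (V2.mul_nu (natCast_mem O (m * 2)) (V2.pow_nu two_ne_zero a1))
    have a3 : (om q)⁻¹ - (m * 2 : ℕ) * (om q)⁻¹ ^ 2 = 1 := by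
      field_simp
      push_cast at h3 ⊢
      linear_combination -h3
    exact V2.one_not (a3 ▸ a2)
  have h6 : IsAlgebraic ℚ (om q) := by
    have : om q = ((2 * om q - 1) + 1) * (2 : ℂ)⁻¹ := by ring
    rw [this]
    exact ((V2.alg_of_sq h1).add isAlgebraic_one).mul (isAlgebraic_natCast 2).inv
  refine (V2.om_iff φ q).2 ((V2.sq_cases φ h1).resolve_right fun e => V2.one_not (O := O) ?_)
  have a := add_mem (hφ _ h6 h5).2 (V2.mul_nu (sub_mem h5 (natCast_mem O m)) hO)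
  rw [map_sub, map_mul, map_ofNat, map_one] at e
  rwa [show φ (om q) - om q ^ 2 + (om q - m) * (2 : ℕ) = 1 by
    push_cast at h3 ⊢; linear_combination e / 2 - h3] at a

theorem wl_om (hq : q.Prime) (h8 : q % 8 = 7) (hv : v.Prime) (hn : v ≠ q) (hO : Ov O v)
    (hs : v = 2 ∨ Spl q v) (h : Wl O v σ) : σ (om q) = om q := by
  obtain ⟨n, h⟩ := h
  obtain ⟨φ, hφ⟩ := v1_thm.2.2.2.2 v O hv hO
  have a : φ (om q) = om q := by
    by_cases h2 : v = 2
    · subst h2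
      exact frob_two h8 hO hφ
    · exact (V2.c8 hq hv h2 hn hO hφ).2 (hs.resolve_left h2)
  have b : ∀ n : ℕ, (φ ^ n) (om q) = om q := fun n => by
    induction n with
    | zero => rfl
    | succ n ih => rw [pow_succ, RingAut.mul_apply, a, ih]
  have e := V2.c7 hq (by omega) hv hn hO (V2.c3 hv hO (Loc0.frob_pow hφ n) h)
  rw [← mul_inv_cancel_left (φ ^ n) σ, RingAut.mul_apply, e, b]

/-- On inertia a cocycle of level one is a multiple of its value at a ramified element. -/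
theorem le (hL : LeStmt) (hq : QF q) (hO : Ov O q) (hσ : Frob O 1 σ) (h : σ (om q) ≠ om q)
    (hz : Coc z) (hτ : Frob O 1 τ) : ∃ u : ℤ, z τ = u • z σ := by
  have := hq.big
  refine hL Pt 1 q O (-q) σ z hq.pr (by omega) hO hσ
    (fun e => h ((V2.om_iff σ q).2 ((rt_iff (V2.om_sq q) σ).1 e))) (fun a _ => hz.two a)
    (fun a b ha _ => by rw [hz.mul, in_fix hq.pr (by omega) (by omega) hO ha (hz.two b)]) ?_ τ hτ
  obtain ⟨J, a, b⟩ := hz.fin
  refine ⟨J, a, fun s t _ _ e => ?_⟩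
  rw [← mul_inv_cancel_left s t, hz.mul, b (s⁻¹ * t) fun x hx => ?_, smul_zero, add_zero]
  rw [RingAut.mul_apply, ← e x hx]
  exact s.symm_apply_apply x

theorem one (hG : GdStmt) {n : Finset ℕ} (hq : QD q d) (h8 : q % 8 = 7)
    (hz : Sel (-(q * d)) 1 n z) (hv : v.Prime) (hn : v ∉ n) (h : v ≠ q) (hO : Ov O v) :
    Kl d O v z := by
  obtain ⟨S, a, b⟩ := hz.kl v O hv hn hO
  have p := hq.qf.pr
  by_cases hs : v = 2 ∨ Spl q v
  · exact ⟨S, a, fun σ hσ => by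
      rw [b σ hσ, tw, tw, cq_om p.ne_zero d (wl_om p h8 hv h hO hs hσ)]⟩
  rw [not_or] at hs
  have h11 : v ≠ 11 := fun e => hs.2 (e ▸ hq.qf.s11)
  have c1 : ∀ σ, Frob O 1 σ → cq d σ = 1 := fun σ hσ =>
    if_pos (cq_in hv hs.1 hO (fun e => hs.2 (hq.spl v hv e)) hσ)
  obtain ⟨-, -, e, -, f, -⟩ := r2 v O hv hs.1 h11 hO
  refine hG d 1 v z O hv hs.1 h11 hO (cy (coc hz.cy) d) c1 fun σ hσ => f 1 _ (hz.cy.tor σ) ?_
  rw [b σ ⟨0, hσ⟩, tw, cq_om p.ne_zero d (V2.c7 p hq.qf.m4 hv h hO hσ), c1 σ hσ, one_smul]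
  exact e σ S hσ a

end SubA

open SubA in
theorem subA_thm (hT : TrStmt) (hL : LeStmt) (hG : GdStmt) : SubAStmt := by
  intro q d n O σ φ hq h8 hO hσ hs hφ hn
  have p := hq.qf.pr
  have big := hq.qf.big
  have h2 : q ≠ 2 := by omega
  have h11 : q ≠ 11 := by omega
  obtain ⟨-, -, r3, r4, r5, r6, -, r8⟩ := r2 q O p h2 h11 hO
  obtain ⟨ff, mv⟩ := (r8 φ hφ).2.1.1 hq.ty
  have c1 := fun τ hτ => cq_in (σ := τ) p h2 hO hq.nd hτ
  refine ⟨fun z hz v O' hv a b c => one hG hq h8 hz hv a b c, fun z hz z0 => ⟨⟨cy (coc hz.cy) d,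
    fun v O' hv a b => ?_, hz.ff⟩, ?_⟩, fun z z' hz hz' => ?_, fun z z' hz hz' => ?_⟩
  · by_cases e : v = q
    · subst e
      refine hT.2.1 d 1 v z O O' (cy (coc hz.cy) d) p hO b (hG d 1 v z O p h2 h11 hO
        (cy (coc hz.cy) d) (fun τ hτ => if_pos (c1 τ hτ)) fun τ hτ => ?_)
      obtain ⟨u, hu⟩ := le hL hq.qf hO hσ hs (coc hz.cy) hτ
      rw [hu, z0, smul_zero]
    · exact one hG hq h8 hz hv a e b
  · obtain ⟨S, a, b⟩ := hz.kl q O p hn hO
    have e := b σ ⟨0, hσ⟩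
    rw [z0, tw, cq_neg hq.fam.sf.ne_zero hs (c1 σ hσ), neg_smul, one_smul] at e
    have e2 : 2 ^ 1 • S = -(σ • S - S) := by
      rw [pow_one, two_nsmul, neg_sub, sub_eq_add_neg, sub_eq_zero.1 e.symm]
    obtain ⟨T, t2, hT⟩ := r6 1 S (e2 ▸ neg_mem (r3 σ S hσ a))
    have f2 := V2.c1 hφ hφ
    have aT : AlgP (S - T) := by
      rw [sub_eq_add_neg]
      exact R1.alg_add _ _ a (r1_thm.1.2.2.1 _ (R1.alg_half T (t2 ▸ r1_thm.1.1)))
    refine r5 1 _ (hz.cy.tor _) ?_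
    have e3 : tw (-(q * d)) (φ * φ) S - S = tw (-(q * d)) (φ * φ) (S - T) - (S - T) := by
      have := tw2 (-(q * d)) (φ * φ) t2
      rw [mul_smul φ, ff T t2] at this
      simp only [tw, smul_sub] at this ⊢
      rw [this]
      abel
    rw [b (φ * φ) ⟨2, by rwa [pow_two]⟩, e3]
    exact sub_mem (zsmul_mem ((r4 _ _ _ f2 (by positivity) aT).2 hT) _) hT
  · have key : ∀ z, Coc z → φ • z σ = z σ := fun z hz => by
      have i : Frob O 1 (φ⁻¹ * (σ * φ)) := V2.c3 (n := 1) p hO (by rwa [pow_one])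
        (by simpa using V2.c1 hσ hφ)
      obtain ⟨u, hu⟩ := le hL hq.qf hO hσ hs hz i
      have e := hz.mul φ (φ⁻¹ * (σ * φ))
      rw [mul_inv_cancel_left, hz.mul, in_fix p h2 h11 hO hσ (hz.two φ), add_comm,
        add_right_inj, hu] at e
      rcases zs2 u (hz.two σ) with k | k <;> rw [k] at e
      · rw [smul_zero] at e
        rw [e, smul_zero]
      · exact e.symm
    exact fix2 mv (hz.two _) (hz'.two _) (key z hz) (key z' hz')
  · have key : ∀ z, Coc z → φ • z (φ * φ) = z (φ * φ) := fun z hz => by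
      rw [hz.mul, smul_add, ff _ (hz.two φ), add_comm]
    exact fix2 mv (hz.two _) (hz'.two _) (key z hz) (key z' hz')

end Pool.Agent.Lib.MP_d6ddbd_nt.KI
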