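import Pool.Agent.Lib.MP_d6ddbd_nt.KI.Stmt
import Pool.Agent.Lib.MP_d6ddbd_nt.K11.Cheb1
import Pool.Agent.Lib.MP_d6ddbd_nt.K11.V1
import Pool.Agent.Lib.MP_d6ddbd_nt.K11.V2
import Pool.Agent.Lib.MP_d6ddbd_nt.K11.V4
import Pool.Agent.Lib.MP_d6ddbd_nt.K11.R1
import Pool.Agent.Lib.MP_d6ddbd_nt.K11.R2

/-! Primes with a prescribed Frobenius element. -/

set_option autoImplicit false
set_option maxSynthPendingDepth 3

open NumberField IsDedekindDomain Pointwise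
open Pool.Agent.Lib.MP_02f36d_nt (xc yc)
open Pool.Agent.Stark (Pr og hq LSq pw SqCl cl)
open Pool.Agent.Lib.MP_d6ddbd_nt.K11

noncomputable section

namespace Pool.Agent.Lib.MP_d6ddbd_nt.KI

namespace Fb

theorem alg_map (σ : G) {x : ℂ} (h : IsAlgebraic ℚ x) : IsAlgebraic ℚ (σ x) :=
  h.algHom (σ : ℂ →+* ℂ).toRatAlgHom

theorem alg_om (q : ℕ) : IsAlgebraic ℚ (om q) := by
  have h := Cheb.alg_sq (Cheb.om_sqz q)
  have e : om q = ((1 / 2 : ℚ) : ℂ) * (2 * om q - 1 + 1) := by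
    push_cast
    ring
  rw [e]
  exact (isAlgebraic_ratCast ℚ _).mul (h.add isAlgebraic_one)

theorem alg_OK {q : ℕ} {π : ℂ} (h : π ∈ OK q) : IsAlgebraic ℚ π := by
  obtain ⟨a, b, rfl⟩ := Submodule.mem_span_pair.1 h
  rw [zsmul_eq_mul, zsmul_eq_mul]
  exact ((isAlgebraic_intCast a).mul isAlgebraic_one).add ((isAlgebraic_intCast b).mul (alg_om q))

theorem wq {q m : ℕ} {W : Finset ℂ} (h : Wq q m W) {w : ℂ} (hw : w ∈ W) :
    IsAlgebraic ℚ w ∧ w ≠ 0 ∧ cj w = w⁻¹ := by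
  obtain ⟨π, a, b, c⟩ := h w hw
  have hn : 2 ^ m ≠ 0 := by positivity
  have n1 : ‖w‖ = 1 := by
    have := congrArg norm c
    rw [norm_pow, norm_div, Complex.norm_conj, div_self (norm_ne_zero_iff.2 b)] at this
    exact (pow_eq_one_iff_of_nonneg (norm_nonneg w) hn).1 this
  refine ⟨IsAlgebraic.of_pow (Nat.pos_of_ne_zero hn) ?_, fun e => by simp [e] at n1, ?_⟩
  · rw [c, div_eq_mul_inv]
    exact (alg_map cj (alg_OK a)).mul (alg_OK a).inv
  · rw [cj_apply, Complex.inv_eq_conj n1]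

theorem gp {O : ValuationSubring ℂ} {p : ℕ} {φ : G} {w : ℂ} (hφ : Frob O p φ)
    (ha : IsAlgebraic ℚ w) (h0 : w ≠ 0) (h : φ w = w⁻¹) : w ^ (p + 1) - 1 ∈ O.nonunits := by
  have hw : w ∈ O := (O.mem_or_inv_mem w).elim id fun hi => by
    have := (hφ _ ha.inv hi).1
    rwa [map_inv₀, h, inv_inv] at this
  have h1 := (hφ _ ha hw).2
  rw [h, ValuationSubring.mem_nonunits_iff] at h1
  have e : w ^ (p + 1) - 1 = -(w * (w⁻¹ - w ^ p)) := by
    field_simp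
    ring
  rw [ValuationSubring.mem_nonunits_iff, e, Valuation.map_neg, map_mul]
  exact (mul_le_of_le_one_left' ((O.valuation_le_one_iff w).2 hw)).trans_lt h1

end Fb

open Fb Cheb in
theorem fb_thm : FbStmt := by
  classical
  intro q m W g J N hm hW ⟨g1, g2, g3⟩ hJ0
  obtain ⟨hfin, halg⟩ := tors r1_thm m
  obtain ⟨-, -, hpt, h2, ⟨e₁, e₂, e₃, hf, -, -, n23, -, c2, -⟩, -⟩ := r1_thm
  have one : ∀ P : Pt, 2 • P = 0 → 2 ^ m • P = 0 := fun P h => by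
    obtain ⟨j, rfl⟩ := Nat.exists_eq_succ_of_ne_zero hm
    rw [pow_succ, mul_smul, h, smul_zero]
  have hn : 2 ^ (m + 3) ≠ 0 := by positivity
  have hζ := Complex.isPrimitiveRoot_exp _ hn
  generalize Complex.exp (2 * Real.pi * Complex.I / (2 ^ (m + 3) : ℕ)) = ζ at hζ
  have hI : Complex.I ^ 2 = ((-1 : ℤ) : ℂ) := by simp
  have hsq : ∀ l : ℕ, ((Real.sqrt l : ℝ) : ℂ) ^ 2 = ((l : ℤ) : ℂ) := fun l => by
    rw [← Complex.ofReal_pow, Real.sq_sqrt (by positivity)]; simp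
  let J' : Finset ℂ := insert Complex.I (insert ζ (J ∪ (W ∪ (hfin.toFinset.image xc ∪
    (hfin.toFinset.image yc ∪
      (Finset.range (N + 1)).image fun l : ℕ => ((Real.sqrt l : ℝ) : ℂ))))))
  have mJ : ∀ x, x ∈ J' ↔ x = Complex.I ∨ x = ζ ∨ x ∈ J ∨ x ∈ W ∨
      (∃ P : Pt, 2 ^ m • P = 0 ∧ xc P = x) ∨ (∃ P : Pt, 2 ^ m • P = 0 ∧ yc P = x) ∨
      ∃ l : ℕ, l < N + 1 ∧ ((Real.sqrt l : ℝ) : ℂ) = x := fun x => by
    simp only [J', Finset.mem_insert, Finset.mem_union, Finset.mem_image, Set.Finite.mem_toFinset,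
      Set.mem_ofPred_eq, Finset.mem_range]
  have hJ : ∀ x ∈ J', IsAlgebraic ℚ x := fun x hx => by
    rcases (mJ x).1 hx with rfl | rfl | hx | hx | ⟨P, hP, rfl⟩ | ⟨P, hP, rfl⟩ | ⟨l, -, rfl⟩
    · exact alg_sq hI
    · exact IsAlgebraic.of_pow (Nat.pos_of_ne_zero hn)
        (by rw [hζ.pow_eq_one]; exact isAlgebraic_one)
    · exact hJ0 x hx
    · exact (wq hW hx).1
    · exact (halg P hP).1
    · exact (halg P hP).2
    · exact alg_sq (hsq l)
  obtain ⟨p, O, φ, a, b, hp, hN, hO, hφ, hab⟩ := (v4_thm v1_thm).1 J' (cj * g) (N + 11) hJ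
  have hcc : ∀ x, cj (cj x) = x := fun x => Complex.conj_conj x
  have hσ : ∀ x, (cj * g) x = cj (g x) := fun _ => rfl
  have hinv : ∀ x, g x = x → g (cj x) = cj x → (cj * g) ((cj * g) x) = x := fun x h1 h2 => by
    rw [hσ, hσ, h1, h2, hcc]
  have ha : Odd a := by
    by_contra h
    have h0 : g Complex.I = Complex.I := (ab_sq hI).fix g1 1
    obtain ⟨h3, h4⟩ := hab 1 Complex.I ((mJ _).2 (.inl rfl))
    rw [pow_one, mul_one, pow_even (hinv _ h0 ((ab_sq hI).fix g1 cj))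
      (Nat.not_odd_iff_even.1 h)] at h3
    rw [pow_one, pow_fix h3, hσ, h0, cj_apply, Complex.conj_I] at h4
    exact Complex.I_ne_zero (by linear_combination -h4 / 2)
  have st : ∀ x ∈ J', g x = x → g (cj x) = cj x → φ x = cj x := fun x hx h1 h2 => by
    have h3 := (hab 1 x hx).1
    rwa [pow_one, mul_one, pow_odd (hinv x h1 h2) ha, hσ, h1] at h3
  have htor : ∀ P : Pt, 2 ^ m • P = 0 → 2 ^ m • cj • P = 0 := fun P hP => by
    rw [smul_comm, hP, smul_zero]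
  have hP : ∀ P : Pt, 2 ^ m • P = 0 → φ • P = cj • P := fun P hP => by
    refine act_ext (by simp only [smul_eq_zero']) ?_ ?_
    · rw [xc_smul, xc_smul]
      refine st _ ((mJ _).2 (.inr (.inr (.inr (.inr (.inl ⟨P, hP, rfl⟩)))))) ?_ ?_
      · rw [← xc_smul, g2 P hP]
      · rw [← xc_smul cj, ← xc_smul, g2 _ (htor P hP)]
    · rw [yc_smul, yc_smul]
      refine st _ ((mJ _).2 (.inr (.inr (.inr (.inr (.inr (.inl ⟨P, hP, rfl⟩))))))) ?_ ?_
      · rw [← yc_smul, g2 P hP]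
      · rw [← yc_smul cj, ← yc_smul, g2 _ (htor P hP)]
  have p2 : p ≠ 2 := by omega
  have p11 : p ≠ 11 := by omega
  have hnr : nr p = 1 := by
    refine ((r2_thm v1_thm v2_thm r1_thm p O hp p2 p11 hO).2.2.2.2.2.2.2 φ hφ).2.1.2
      ⟨fun P h => ?_, pt e₂ 0, ?_⟩
    · rw [hP P (one P h), hP _ (htor P (one P h)), ← mul_smul, cj_mul_cj, one_smul]
    · have hx : fc e₂ = 0 := by rw [hf]; ring
      obtain ⟨-, b2, b3⟩ := hpt e₂ 0 (by rw [hx]; ring)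
      have b1 : 2 • pt e₂ 0 = 0 := (h2 _).2 (Or.inr ⟨b3, by rw [b2, hx]⟩)
      refine ⟨b1, fun h => n23 ?_⟩
      have := congrArg xc h
      rw [hP _ (one _ b1), xc_smul, b2, c2] at this
      exact this.symm
  have hdv : 2 ^ (m + 3) ∣ p + 1 := by
    refine dvd_of_frob hp p2 hO hφ hζ ?_
    rw [st ζ ((mJ _).2 (.inr (.inl rfl))) ((ab_root hn hζ).fix g1 1) ((ab_root hn hζ).fix g1 cj),
      cj_apply, mul_comm, Complex.mul_conj, Complex.normSq_eq_norm_sq, hζ.norm'_eq_one hn]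
    simp
  have h8 : p % 8 = 7 := by
    have : 2 ^ 3 ∣ p + 1 := (pow_dvd_pow 2 (by omega)).trans hdv
    omega
  refine ⟨p, O, φ, a, by omega, hp, hO, hφ, ha, (pow_dvd_pow 2 (by omega)).trans hdv, h8, hnr, hP,
    fun n x hx => (hab n x ((mJ _).2 (.inr (.inr (.inl hx))))).1, fun l h1 l2 hl => ?_,
    O, hO, fun w hw => ?_⟩
  · have k1 := v2_thm.2.2.2.2.2.2.2.2 p O φ _ l hp p2 (fun h => by
      have := Nat.le_of_dvd h1.pos (Int.natCast_dvd_natCast.1 h)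
      omega) hO hφ (hsq l)
    rw [st _ ((mJ _).2 (.inr (.inr (.inr (.inr (.inr (.inr ⟨l, by omega, rfl⟩)))))))
      ((ab_sq (hsq l)).fix g1 1) ((ab_sq (hsq l)).fix g1 cj), cj_apply, Complex.conj_ofReal] at k1
    have k2 : ((Real.sqrt l : ℝ) : ℂ) ≠ 0 := by
      have := h1.pos
      exact_mod_cast (Real.sqrt_pos.2 (by positivity)).ne'
    have k3 : ((jacobiSym l p : ℤ) : ℂ) = 1 := mul_right_cancel₀ k2 (by rw [← k1, one_mul])
    have k4 : jacobiSym l p = 1 := by exact_mod_cast k3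
    refine ⟨spl_of (by omega) h1 l2 k4, fun _ h => ?_⟩
    have k5 : jacobiSym (-(l : ℤ)) p = -1 := by
      rw [jacobiSym.neg _ (hp.odd_of_ne_two p2), ZMod.χ₄_nat_three_mod_four (by omega), k4]
      rfl
    exact ZMod.nonsquare_of_jacobiSym_eq_neg_one k5 (by simpa [Spl] using h)
  · obtain ⟨w1, w2, w3⟩ := wq hW hw
    refine gp hφ w1 w2 ?_
    rw [← w3]
    exact st w ((mJ _).2 (.inr (.inr (.inr (.inl hw))))) (g3 w hw) (by
      rw [w3, map_inv₀, g3 w hw])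

end Pool.Agent.Lib.MP_d6ddbd_nt.KI
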