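import Pool.Agent.Lib.MP_d6ddbd_nt.KI.Bas

/-!
The full two-converse for the quadratic twists of `X₀(11)`: one step of a chain.
-/

set_option autoImplicit false
set_option maxSynthPendingDepth 3

open Pool.Agent.Lib.MP_d6ddbd_nt.K11

noncomputable section

namespace Pool.Agent.Lib.MP_d6ddbd_nt.KI

namespace Step

variable {c : ℤ} {k p : ℕ} {x x' : G → Pt} {O : ValuationSubring ℂ} {σ₀ φ : G}

/-- A cocycle is additive on inertia at a good prime. -/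
theorem ine_add (hp : p.Prime) (h2 : p ≠ 2) (h11 : p ≠ 11) (hO : Ov O p) (hc : ¬ (p : ℤ) ∣ c)
    (hx : Cy c k x) {σ : G} (hσ : Frob O 1 σ) (τ : G) : x (σ * τ) = x σ + x τ := by
  rw [hx.mul, tw_ine hp h2 h11 hO hc hσ (hx.tor τ)]

/-- An unramified cocycle that vanishes at one square of a Frobenius element vanishes at all. -/
theorem ff_all (tr : TrStmt) (hp : p.Prime) (hT : Tv k {p}) (hO : Ov O p) (hφ : Frob O p φ)
    (hx : Cy c k x) (hu : ∀ σ, Frob O 1 σ → x σ = 0) (h0 : x (φ * φ) = 0)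
    {O' : ValuationSubring ℂ} {ψ : G} (hO' : Ov O' p) (hψ : Frob O' p ψ) : x (ψ * ψ) = 0 := by
  obtain ⟨g, hg⟩ := tr.1 p O O' hp hO hO'
  have h1 := frob_quot hp hO hφ (hg p ψ hψ)
  have h3 := ine_mul ((wl_frob hφ).conj hp hO h1) h1
  have e : ψ * ψ = g * (φ * φ * (φ⁻¹ * (φ⁻¹ * (g⁻¹ * ψ * g)) * φ * (φ⁻¹ * (g⁻¹ * ψ * g)))) * g⁻¹ := by
    group
  have := hx.conj g (φ * φ * (φ⁻¹ * (φ⁻¹ * (g⁻¹ * ψ * g)) * φ * (φ⁻¹ * (g⁻¹ * ψ * g))))
  rw [← e, hx.mul (φ * φ), h0, hu _ h3, tw_zero, add_zero, tw_zero, tw_sq,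
    hT p (Finset.mem_singleton_self p) O' ψ hO' hψ _ (hx.tor g), sub_self, sub_zero] at this
  exact this

/-- The value at a conjugate of an element of inertia. -/
theorem conj_val (hp : p.Prime) (h2 : p ≠ 2) (h11 : p ≠ 11) (hO : Ov O p) (hc : ¬ (p : ℤ) ∣ c)
    (hT : Tv k {p}) (hφ : Frob O p φ) (hσ : Frob O 1 σ₀) (hx : Cy c k x) :
    x (φ⁻¹ * σ₀ * φ) = tw c φ (x σ₀) := by
  have h1 := hx.conj φ⁻¹ σ₀
  rw [inv_inv, tw_ine hp h2 h11 hO hc ((wl_frob hφ).conj hp hO hσ) (hx.tor _), sub_self,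
    sub_zero] at h1
  have h3 : tw c (φ * φ) (x σ₀) = x σ₀ := by
    rw [tw_sq, hT p (Finset.mem_singleton_self p) O φ hO hφ _ (hx.tor σ₀)]
  have h4 := tw_inv c φ (tw c φ (x σ₀))
  rwa [← tw_mul c φ φ, h3, ← h1] at h4

/-- The values of two cocycles at a generator of tame inertia are comparable. -/
theorem comp (le : LeStmt) (fr : FrStmt) (hp : p.Prime) (h2 : p ≠ 2) (h11 : p ≠ 11) (hO : Ov O p)
    (hc : ¬ (p : ℤ) ∣ c) (hn : nr p = 1) (hT : Tv k {p}) (hφ : Frob O p φ) (hσ : Frob O 1 σ₀)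
    (hm : σ₀ (rt (GF.pst p)) ≠ rt (GF.pst p)) (hx : Cy c k x) (hx' : Cy c k x') :
    (∃ a : ℤ, x σ₀ = a • x' σ₀) ∨ ∃ a : ℤ, x' σ₀ = a • x σ₀ := by
  obtain ⟨u, hu⟩ := le (Pt × Pt) k p O _ σ₀ (fun σ => (x σ, x' σ)) hp h2 hO hσ hm
    (fun σ _ => Prod.ext (hx.tor σ) (hx'.tor σ))
    (fun σ τ a _ => Prod.ext (ine_add hp h2 h11 hO hc hx a τ) (ine_add hp h2 h11 hO hc hx' a τ))
    ((hx.fn.map₂ hx'.fn Prod.mk).on _) _ ((wl_frob hφ).conj hp hO hσ)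
  have e1 : x (φ⁻¹ * σ₀ * φ) = u • x σ₀ := congrArg Prod.fst hu
  have e2 : x' (φ⁻¹ * σ₀ * φ) = u • x' σ₀ := congrArg Prod.snd hu
  rw [conj_val hp h2 h11 hO hc hT hφ hσ hx] at e1
  rw [conj_val hp h2 h11 hO hc hT hφ hσ hx'] at e2
  exact (fr k φ (cq c φ) (cq_or c φ) (hT p (Finset.mem_singleton_self p) O φ hO hφ)
    (((rA.2 p O hp h2 h11 hO).2.2.2.2.2.2.2 φ hφ).2.1.1 hn).2).2 u _ _ (hx.tor σ₀) (hx'.tor σ₀) e1 e2

/-- A chain of elements of bounded two-power order has a largest element. -/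
theorem ex_max {X M : Type} [AddCommGroup M] (S : X → Prop) (f : X → M) (k : ℕ) {x₀ : X}
    (h0 : S x₀) (ht : ∀ x, S x → 2 ^ k • f x = 0)
    (hc : ∀ x x', S x → S x' → (∃ a : ℤ, f x = a • f x') ∨ ∃ a : ℤ, f x' = a • f x) :
    ∃ z, S z ∧ ∀ x, S x → ∃ a : ℤ, f x = a • f z := by
  induction k with
  | zero => exact ⟨x₀, h0, fun x hx => ⟨0, by simpa using ht x hx⟩⟩
  | succ k ih =>
    by_cases h : ∀ x, S x → 2 ^ k • f x = 0
    · exact ih h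
    push Not at h
    obtain ⟨z, hz, hz'⟩ := h
    refine ⟨z, hz, fun x hx => (hc x z hx hz).elim id fun ⟨a, e⟩ => ?_⟩
    rcases Int.even_or_odd a with ⟨b, rfl⟩ | ha
    · refine absurd ?_ hz'
      have := ht x hx
      rw [pow_succ', mul_smul, two_smul] at this
      rw [e, smul_comm, add_smul, ← smul_add, this, smul_zero]
    · obtain ⟨b, hb⟩ := odd_cancel ha (ht x hx)
      exact ⟨b, by rw [e, hb]⟩

end Step

open Step in
theorem step_thm (tr : TrStmt) (le : LeStmt) (gd : GdStmt) (fr : FrStmt) : StepStmt := by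
  intro c k n j p O σ₀ φ y z hp h2 h11 hc hn hpn hT hO hσ hm hφ hy hy0 hb hz
  have hφφ := hT p (Finset.mem_singleton_self p) O φ hO hφ
  have yu : ∀ σ, Frob O 1 σ → y σ = 0 := fun σ a =>
    (hy.kl p O hp hpn hO).ine hp h2 h11 hO (hy.cy.tor σ) a (cq_ine hp h2 hO hc a)
  have s1 : Sel c k (insert p n) y := ⟨hy.cy,
    fun v O' a b e => hy.kl v O' a (fun h => b (Finset.mem_insert_of_mem h)) e,
    fun r a O' ψ b e => by
      rcases Finset.mem_insert.1 a with rfl | a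
      · exact ff_all tr hp hT hO hφ hy.cy yu hy0 b e
      · exact hy.ff r a O' ψ b e⟩
  have s3 : ∀ x, Sel c k n x → x (φ * φ) = 0 → ∃ v : ℤ, Cb c (2 ^ (j + 1) • x - v • y) := by
    intro x hx h0
    obtain ⟨u, v, e⟩ := hb.2 x hx
    have e1 := e.val_sq (((hx.cy.nat _).sub (hb.1.cy.z u)).sub (hy.cy.z v)).tor hφφ
    simp only [Pi.sub_apply, Pi.smul_apply, h0, hy0, smul_zero, zero_sub, sub_zero,
      neg_eq_zero] at e1
    obtain ⟨w, e2⟩ := hz u e1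
    refine ⟨2 * v + w, ((e.nat 2).add e2).of_eq ?_⟩
    rw [pow_succ', mul_smul, mul_smul, add_smul, mul_smul]
    simp only [two_smul]
    abel
  have s4 : ∀ x, Sel c k (insert p n) x → x σ₀ = 0 → Sel c k n x ∧ x (φ * φ) = 0 := by
    intro x hx h0
    have xu : ∀ σ, Frob O 1 σ → x σ = 0 := fun σ a => by
      obtain ⟨u, e⟩ := le Pt k p O _ σ₀ x hp h2 hO hσ hm (fun σ _ => hx.cy.tor σ)
        (fun σ τ a _ => ine_add hp h2 h11 hO hc hx.cy a τ) (hx.cy.fn.on _) σ a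
      rw [e, h0, smul_zero]
    have kl := gd c k p x O hp h2 h11 hO hx.cy (fun σ a => cq_ine hp h2 hO hc a) xu
    refine ⟨⟨hx.cy, fun v O' a b e => ?_, fun r a => hx.ff r (Finset.mem_insert_of_mem a)⟩,
      hx.ff p (Finset.mem_insert_self p n) O φ hO hφ⟩
    rcases eq_or_ne v p with rfl | hv
    · exact tr.2.1 c k v x O O' hx.cy hp hO e kl
    · exact hx.kl v O' a (fun h => (Finset.mem_insert.1 h).elim hv b) e
  refine ⟨s1, yu σ₀ hσ, s3, s4, ?_⟩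
  obtain ⟨z', hz', hm'⟩ := ex_max (Sel c k (insert p n)) (fun x => x σ₀) k s1
    (fun x hx => hx.cy.tor σ₀)
    fun x x' a b => comp le fr hp h2 h11 hO hc hn hT hφ hσ hm a.cy b.cy
  refine ⟨z', hz', fun x hx => ?_⟩
  obtain ⟨a, e⟩ := hm' x hx
  obtain ⟨b1, b2⟩ := s4 _ (hx.sub (hz'.z a)) (by rw [Pi.sub_apply, Pi.smul_apply, sub_eq_zero]; exact e)
  obtain ⟨v, e'⟩ := s3 _ b1 b2
  refine ⟨2 ^ (j + 1) * a, v, e'.of_eq ?_⟩
  rw [smul_sub, mul_smul, ← natCast_zsmul (a • z')]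
  simp

end Pool.Agent.Lib.MP_d6ddbd_nt.KI
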