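import Pool.Agent.Lib.MP_d6ddbd_nt.KI.Stmt

/-!
Level one: reciprocity and core vertices (from the statements of the blocks).
-/

set_option autoImplicit false
set_option maxSynthPendingDepth 3

open NumberField
open Pool.Agent.Lib.MP_d6ddbd_nt.K11

namespace Pool.Agent.Lib.MP_d6ddbd_nt.KI.SubB

theorem tw_two (c : ℤ) (σ : G) {T : Pt} (h : 2 • T = 0) : tw c σ T = σ • T := by
  unfold tw cq
  split_ifs
  · exact one_smul _ _
  · have : 2 • σ • T = 0 := by rw [two_nsmul, ← smul_add, ← two_nsmul, h, smul_zero]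
    rw [neg_smul, one_smul, neg_eq_iff_add_eq_zero, ← two_nsmul, this]

theorem coc {c : ℤ} {x : G → Pt} (h : Cy c 1 x) : Coc x :=
  have t : ∀ σ, 2 • x σ = 0 := fun σ => by simpa using h.tor σ
  ⟨t, fun σ τ => by rw [h.mul, tw_two c σ (t τ)], h.fin⟩

theorem cb {c : ℤ} {x : G → Pt} (h : Cob x) : Cb c x := by
  obtain ⟨T, h2, h⟩ := h
  exact ⟨T, 1, by simpa using h2, fun σ => by rw [h, tw_two c σ h2]⟩

theorem sf {p : ℕ} (hp : p.Prime) : Squarefree (GF.pst p) ∧ (p : ℤ) ∣ GF.pst p := by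
  refine ⟨?_, Dvd.intro_left _ rfl⟩
  rw [← Int.squarefree_natAbs]
  simpa [GF.pst, Int.natAbs_mul, Int.natAbs_pow] using hp.squarefree

variable {L : Type} [Field L] [NumberField L] {θ : L}

/-- The finite part is read at any Frobenius element. -/
theorem fv_iff (h1 : Link1Stmt) (hθ : Cub θ) {α : L} {ξ : G → Pt} (h0 : α ≠ 0)
    (hs : IsSquare (Algebra.norm ℚ α)) (hξ : Coc ξ) (hk : Kum θ α ξ) {p : ℕ} (hp : p.Prime)
    (h2 : p ≠ 2) (h11 : p ≠ 11) (ht : nr p = 1) {O : ValuationSubring ℂ} {φ : G} (hO : Ov O p)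
    (hφ : Frob O p φ) : fv p α = 0 ↔ ξ (φ * φ) = 0 := by
  obtain ⟨σ, hσ, hu⟩ := (h1 L θ hθ).2.1 p O _ _ hp hO (rt_sq _) (sf hp).1 (sf hp).2
  exact (((h1 L θ hθ).2.2 α ξ h0 hs hξ hk).2 p O σ φ _ hp h2 h11 ht hO hσ hφ (rt_sq _) hu).2

theorem fp (hV : VStmt) (h1 : Link1Stmt) (hθ : Cub θ) {q : ℕ} {c d : ℤ} {n : Finset ℕ} {α : L}
    {ξ : G → Pt} (hn : Pn q d n) (h0 : α ≠ 0) (hs : IsSquare (Algebra.norm ℚ α))
    (hξ : Sel c 1 n ξ) (hk : Kum θ α ξ) : ∀ p ∈ n, fv p α = 0 := fun p hp => by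
  obtain ⟨a, b, e, -, -, f⟩ := hn p hp
  obtain ⟨O, hO⟩ := hV.1.1 p a
  obtain ⟨φ, hφ⟩ := hV.1.2.2.2.2 p O a hO
  exact (fv_iff h1 hθ h0 hs (coc hξ.cy) hk a b e f hO hφ).2 (hξ.ff p hp O φ hO hφ)

theorem om_move {q : ℕ} (hq : q % 4 = 3) {σ : G} (h : σ (om q) ≠ om q) :
    (2 * om q - 1) ^ 2 = GF.pst q ∧ σ (2 * om q - 1) = -(2 * om q - 1) := by
  have ho : Odd (q / 2) := Nat.odd_iff.2 (by omega)
  refine ⟨by rw [om_sq', GF.pst, ho.neg_one_pow]; simp, ?_⟩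
  have e : σ (2 * om q - 1) ^ 2 = (2 * om q - 1) ^ 2 := by
    rw [← map_pow, om_sq', map_neg, map_natCast]
  refine (sq_eq_sq_iff_eq_or_eq_neg.1 e).resolve_left fun g => h ?_
  rw [map_sub, map_mul, map_one, map_ofNat] at g
  linear_combination g / 2

theorem main (hV : VStmt) (hL : LStmt) (hK : KumStmt) (h1 : Link1Stmt)
    (ex : ∃ (L : Type) (_ : Field L) (_ : NumberField L) (θ : L), Cub θ)
    (hD : DkStmt) (hA : SubAStmt) : SubBStmt := by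
  refine ⟨fun q d n O σ₀ φ z a hq h8 hn hO hσ hm hφ hz ha hf => ?_,
    fun L _ _ θ hθ q d n O φ a hq hn hO hφ hc ha hf => ?_⟩
  · obtain ⟨L, _, _, θ, hθ⟩ := ex
    have qn : q ∉ n := fun h => (hn q h).2.2.2.1 rfl
    have q2 : q ≠ 2 := by have := hq.qf.big; omega
    have q11 : q ≠ 11 := by have := hq.qf.big; omega
    have hB : ∀ p ∈ insert q n, p.Prime ∧ p ≠ 2 ∧ p ≠ 11 ∧ ¬ (p : ℤ) ∣ d ∧ nr p = 1 :=
      fun p hp => by
        rcases Finset.mem_insert.1 hp with rfl | hp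
        · exact ⟨hq.qf.pr, q2, q11, hq.nd, hq.ty⟩
        · exact ⟨(hn p hp).1, (hn p hp).2.1, (hn p hp).2.2.1, (hn p hp).2.2.2.2⟩
    obtain ⟨α, a0, as, ak⟩ := (hK L θ hθ).1 z (coc hz.cy)
    obtain ⟨β, b0, bs, bk⟩ := (hK L θ hθ).1 a (coc ha.cy)
    have dk := fun (B : Finset ℕ) (hs : B ⊆ insert q n) γ ξ =>
      hD L θ hθ d B γ ξ hq.fam (fun h => (hB 2 (hs h)).2.1 rfl)
        (fun h => (hB 11 (hs h)).2.2.1 rfl) fun p h => (hB p (hs h)).2.2.2.1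
    obtain ⟨wa, va⟩ := dk _ subset_rfl α z a0 as (coc hz.cy) ak fun v O' hv hb hO' =>
      (hA q d n O σ₀ φ hq h8 hO hσ hm hφ qn).1 z hz v O' hv
        (fun h => hb (Finset.mem_insert_of_mem h)) (fun h => hb (h ▸ Finset.mem_insert_self _ _))
        hO'
    obtain ⟨wb, vb⟩ := dk _ subset_rfl β a b0 bs (coc ha.cy) bk fun v O' hv hb hO' =>
      ha.kl v O' hv (fun h => hb (Finset.mem_insert_of_mem h)) hO'
    obtain ⟨wb', -⟩ := dk n (Finset.subset_insert q n) β a b0 bs (coc ha.cy) bk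
      fun v O' hv hb hO' => ha.kl v O' hv hb hO'
    have sb : sv q β = 0 :=
      (((hL L θ hθ d hq.fam).2.2 n fun p h => hB p (Finset.mem_insert_of_mem h)).2.1 β wb').2.2.2
        q hq.qf.pr hq.nd qn
    have r := (((hL L θ hθ d hq.fam).2.2 _ hB).1 α β wa wb).2
    rw [Finset.sum_eq_zero fun 𝔭 h => by rw [va 𝔭 h, vb 𝔭 h, mul_zero, zero_mul, add_zero],
      Finset.sum_insert qn, Finset.sum_eq_zero fun l h => by
        rw [fp hV h1 hθ hn a0 as hz ak l h, fp hV h1 hθ hn b0 bs ha bk l h, mul_zero, zero_mul,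
          add_zero],
      sb, mul_zero, add_zero, add_zero, zero_add] at r
    have fb : fv q β ≠ 0 := fun h =>
      hf ((fv_iff h1 hθ b0 bs (coc ha.cy) bk hq.qf.pr q2 q11 hq.ty hO hφ).1 h)
    obtain ⟨u1, u2⟩ := om_move hq.qf.m4 hm
    exact (((h1 L θ hθ).2.2 α z a0 as (coc hz.cy) ak).2 q O σ₀ φ _ hq.qf.pr q2 q11 hq.ty hO hσ hφ
      u1 u2).1.1 ((mul_eq_zero.1 r).resolve_right fb)
  · have q2 : q ≠ 2 := by have := hq.qf.big; omega
    have q11 : q ≠ 11 := by have := hq.qf.big; omega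
    obtain ⟨β, b0, bs, bk⟩ := (hK L θ hθ).1 a (coc ha.cy)
    obtain ⟨wb, vb⟩ := hD L θ hθ d n β a hq.fam (fun h => (hn 2 h).2.1 rfl)
      (fun h => (hn 11 h).2.2.1 rfl) (fun p h => (hn p h).2.2.2.2.1) b0 bs (coc ha.cy) bk
      fun v O' hv hb hO' => ha.kl v O' hv hb hO'
    exact cb (((hK L θ hθ).2 β a b0 (coc ha.cy) bk).1 (hc β ⟨wb, vb, fp hV h1 hθ hn b0 bs ha bk,
      (fv_iff h1 hθ b0 bs (coc ha.cy) bk hq.qf.pr q2 q11 hq.ty hO hφ).2 hf⟩))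

end Pool.Agent.Lib.MP_d6ddbd_nt.KI.SubB
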