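import Mathlib
import Pool.Agent.Lib.MP_d6ddbd_nt.K11.KP

/-! Classes modulo a power of two attached to an abstract Heegner system. -/

set_option autoImplicit false

namespace Pool.Agent.Lib.MP_d6ddbd_nt.K11.KK

open Finset

variable {G E P Eb : Type*} [Group G] [AddCommGroup E] [DistribMulAction G E] [DecidableEq P]
  [AddCommGroup Eb] {k m : ℕ}

theorem Loc.inj_pow (w : Loc G E Eb) (s : ℕ) {v : E} (h : (2 : ℤ) ^ s • v = 0)
    (h0 : w.red v = 0) : v = 0 := by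
  induction s with
  | zero => simpa using h
  | succ s ih =>
    apply ih
    apply w.inj
    · rw [smul_smul, ← pow_succ', h]
    · rw [map_zsmul, h0, smul_zero]

theorem sum_val_pow {m s : ℕ} (hm : s + 1 ≤ m) :
    ∃ c : ℤ, ∑ z : ZMod (2 ^ m), (z.val : ℤ) = 2 ^ s * c := by
  obtain ⟨i, rfl⟩ := Nat.exists_eq_add_of_le hm
  have h := sum_val (2 ^ (s + 1 + i))
  refine ⟨2 ^ i * (2 ^ (s + 1 + i) - 1), mul_right_cancel₀ (two_ne_zero (α := ℤ)) (h.trans ?_)⟩
  push_cast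
  ring

namespace Sys

variable (H : Sys G E P k m)

open Classical in
/-- Division by `2 ^ s` inside `A`. -/
noncomputable def dv (s : ℕ) (x : E) : E := if h : x ∈ H.D s then Classical.choose h else 0

theorem dv_eq {s : ℕ} {x u : E} (hu : u ∈ H.A) (h : x = (2 : ℤ) ^ s • u) : H.dv s x = u := by
  have h' : x ∈ H.D s := ⟨u, hu, h⟩
  rw [dv, dif_pos h']
  obtain ⟨h1, h2⟩ := Classical.choose_spec h'
  exact H.cancel s h1 hu (h2.symm.trans h)

/-- The cocycle of a point `S` with `2 ^ s S` in `A`, for the action twisted by `χ`. -/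
noncomputable def cx (χ : G → ℤ) (s : ℕ) (S : E) (g : G) : E :=
  χ g • g • S - S - H.dv s (χ g • g • ((2 : ℤ) ^ s • S) - (2 : ℤ) ^ s • S)

/-- The point `2 ^ s S` lies in `A` and is invariant modulo `2 ^ s A`. -/
def InvX (χ : G → ℤ) (s : ℕ) (S : E) : Prop :=
  (2 : ℤ) ^ s • S ∈ H.A ∧ ∀ g : G, χ g • g • ((2 : ℤ) ^ s • S) - (2 : ℤ) ^ s • S ∈ H.D s

variable {χ χ' : G → ℤ} {s : ℕ} {S S' : E}

theorem cx_eq {u : E} {g : G} (hu : u ∈ H.A)
    (h : χ g • g • ((2 : ℤ) ^ s • S) - (2 : ℤ) ^ s • S = (2 : ℤ) ^ s • u) :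
    H.cx χ s S g = χ g • g • S - S - u := by
  rw [cx, H.dv_eq hu h]

theorem cx_fix {g : G} (h : χ g • g • ((2 : ℤ) ^ s • S) = (2 : ℤ) ^ s • S) :
    H.cx χ s S g = χ g • g • S - S := by
  rw [H.cx_eq (u := 0) H.A.zero_mem (by simp [h]), sub_zero]

theorem cx_stab {g : G} (h1 : χ g = 1) (h : g • S = S) : H.cx χ s S g = 0 := by
  rw [H.cx_fix (by rw [gz, h, h1, one_smul]), h, h1, one_smul, sub_self]

variable {H}

theorem InvX.ex (h : H.InvX χ s S) (g : G) : ∃ u ∈ H.A,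
    χ g • g • ((2 : ℤ) ^ s • S) - (2 : ℤ) ^ s • S = (2 : ℤ) ^ s • u ∧
      H.cx χ s S g = χ g • g • S - S - u := by
  obtain ⟨u, hu, h1⟩ := h.2 g
  exact ⟨u, hu, h1, H.cx_eq hu h1⟩

theorem InvX.tor (h : H.InvX χ s S) (g : G) : (2 : ℤ) ^ s • H.cx χ s S g = 0 := by
  obtain ⟨u, -, h1, h2⟩ := h.ex g
  rw [gz] at h1
  rw [h2]
  generalize g • S = y at *
  linear_combination (norm := module) h1

theorem InvX.mul (h : H.InvX χ s S) {g g' : G} (hχ : χ (g * g') = χ g * χ g') :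
    H.cx χ s S (g * g') = H.cx χ s S g + χ g • g • H.cx χ s S g' := by
  obtain ⟨u, hu, h1, h2⟩ := h.ex g
  obtain ⟨u', hu', h1', h2'⟩ := h.ex g'
  have h3 : χ (g * g') • (g * g') • ((2 : ℤ) ^ s • S) - (2 : ℤ) ^ s • S =
      (2 : ℤ) ^ s • (u + χ g • g • u') := by
    have := congrArg (g • ·) h1'
    simp only [smul_sub, gz] at this h1 ⊢
    rw [mul_smul g, hχ]
    generalize g • g' • S = y at *
    generalize g • S = y' at *
    generalize g • u' = y'' at *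
    linear_combination (norm := module) χ g • this + h1
  rw [H.cx_eq (H.A.add_mem hu (H.A.zsmul_mem (H.stab g _ hu') _)) h3, h2, h2', smul_sub g,
    smul_sub g, gz, mul_smul g, hχ]
  generalize g • g' • S = y
  generalize g • S = y'
  generalize g • u' = y''
  module

/-- The class modulo two. -/
theorem InvX.half (h : H.InvX χ (s + 1) S) {g : G} (hχ : χ g = 1 ∨ χ g = -1) :
    (2 : ℤ) ^ s • H.cx χ (s + 1) S g = H.coc ((2 : ℤ) ^ s • S) g := by
  obtain ⟨u, hu, h1, h2⟩ := h.ex g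
  have hS := h.1
  rw [gz] at h1
  rw [h2]
  rcases hχ with e | e <;> rw [e] at h1 ⊢
  · rw [H.coc_eq (u := (2 : ℤ) ^ s • u) (H.A.zsmul_mem hu _)]
    · rw [gz]
      generalize g • S = y
      module
    · rw [gz, gz]
      generalize g • S = y at *
      linear_combination (norm := module) h1
  · rw [H.coc_eq (u := -((2 : ℤ) ^ s • u) - (2 : ℤ) ^ (s + 1) • S)
      (H.A.sub_mem (H.A.neg_mem (H.A.zsmul_mem hu _)) hS)]
    · rw [gz]
      generalize g • S = y at *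
      linear_combination (norm := module) h1
    · rw [gz, gz]
      generalize g • S = y at *
      linear_combination (norm := module) -h1

/-- A multiple of the class that is a coboundary on the elements that fix `A`. -/
theorem of_cob {i : ℕ} {T : E} {g : G} (h1 : χ g = 1)
    (hg : g • ((2 : ℤ) ^ s • S) = (2 : ℤ) ^ s • S)
    (e : (2 : ℤ) ^ i • H.cx χ s S g = χ g • g • T - T) :
    g • ((2 : ℤ) ^ i • S - T) = (2 : ℤ) ^ i • S - T := by
  rw [H.cx_fix (by rw [hg, h1, one_smul]), h1] at e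
  rw [smul_sub, gz]
  generalize g • S = y at *
  generalize g • T = y' at *
  linear_combination (norm := module) e

variable (H)

theorem shiftP_pow (ha : ∀ p, (2 : ℤ) ^ m ∣ H.a p) (n : Finset P) (j : P → ℤ) :
    H.Y n (fun x => ∏ p ∈ n, (((x.2 p).val : ℤ) + j p)) - H.Q n 0 ∈ H.D m := by
  have h1 : (fun x : Co P k m => ∏ p ∈ n, (((x.2 p).val : ℤ) + j p)) =
      ∑ t ∈ n.powerset, (∏ p ∈ n \ t, j p) • tf2 (ph 0) t := by
    funext x
    rw [Finset.prod_add, Finset.sum_apply]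
    refine Finset.sum_congr rfl fun t _ => ?_
    simp only [Pi.smul_apply, smul_eq_mul, tf2, ps, ph, Ring.choose_zero_right]; ring
  rw [h1, map_sum, ← Finset.add_sum_erase _ _ (Finset.mem_powerset_self n), Q]
  simp only [sdiff_self, Finset.bot_eq_empty, Finset.prod_empty, one_smul, add_sub_cancel_left]
  refine AddSubgroup.sum_mem _ fun t ht => ?_
  rw [Finset.mem_erase, Finset.mem_powerset] at ht
  rw [map_zsmul]
  apply AddSubgroup.zsmul_mem
  have h2 := H.norm_iter t (dep_tf2 (ph 0) t) (n \ t) sdiff_disjoint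
  rw [Finset.sdiff_union_of_subset ht.2] at h2
  rw [h2]
  obtain ⟨p, hp⟩ : (n \ t).Nonempty := by
    rw [Finset.sdiff_nonempty]
    exact fun h => ht.1 (Finset.Subset.antisymm ht.2 h)
  simpa using H.D_smul ((ha p).trans (Finset.dvd_prod_of_mem _ hp)) (H.D_zero (H.mem t _))

theorem sh_Q0 (ha : ∀ p, (2 : ℤ) ^ m ∣ H.a p) {g : G} {e : ℤ} {c : Co P k m} (h : Sh H.Y g e c)
    (n : Finset P) : g • H.Q n 0 - e • H.Q n 0 ∈ H.D m := by
  have h1 := H.shiftP_pow ha n fun p => ((c.2 p).val : ℤ)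
  have h2 := H.Y_congr (N := m) n (f := fun x => tf2 (ph 0) n (x + c))
    (f' := fun x => ∏ p ∈ n, (((x.2 p).val : ℤ) + (c.2 p).val)) fun x => by
      simp only [tf2, ps, ph, Ring.choose_zero_right, one_mul]
      apply prod_dvd
      intro p
      simpa using val_add_dvd (x.2 p) (c.2 p) ((c.2 p).val : ℤ) (by simp)
  have h3 := (H.D m).add_mem h2 h1
  rw [sub_add_sub_cancel] at h3
  rw [Q, h n _ (dep_tf2 _ _), ← smul_sub]
  exact AddSubgroup.zsmul_mem _ h3 _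

theorem rf_Q0 (ha : ∀ p, (2 : ℤ) ^ m ∣ H.a p) {g : G} {e : ℤ} {c : Co P k m} (h : Rf H.Y g e c)
    (n : Finset P) : g • H.Q n 0 - (e * (-1) ^ n.card) • H.Q n 0 ∈ H.D m := by
  have h1 := (H.D m).zsmul_mem (H.shiftP_pow ha n fun p => -((c.2 p).val : ℤ)) ((-1) ^ n.card)
  have h2 := H.Y_congr (N := m) n (f := fun x => tf2 (ph 0) n (c - x))
    (f' := ((-1 : ℤ) ^ n.card) • fun x => ∏ p ∈ n, (((x.2 p).val : ℤ) + -((c.2 p).val : ℤ)))
    fun x => by
      simp only [tf2, ps, ph, Ring.choose_zero_right, one_mul, Pi.smul_apply, smul_eq_mul]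
      rw [← Finset.prod_const, ← Finset.prod_mul_distrib]
      apply prod_dvd
      intro p
      have := val_sub_dvd (x.2 p) (c.2 p)
      push_cast at this
      have e2 : -1 * (((x.2 p).val : ℤ) + -((c.2 p).val : ℤ)) =
        ((c.2 p).val : ℤ) - ((x.2 p).val : ℤ) := by ring
      rw [e2]
      exact this
  rw [map_zsmul] at h2
  have h3 := (H.D m).add_mem h2 h1
  rw [smul_sub, sub_add_sub_cancel] at h3
  rw [Q, h n _ (dep_tf2 _ _), mul_smul, ← smul_sub]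
  exact AddSubgroup.zsmul_mem _ h3 _

theorem sh_exact {g : G} {e : ℤ} {c : Co P k m} (h : Sh H.Y g e c) {n : Finset P}
    (hc : ∀ p ∈ n, c.2 p = 0) : g • H.Q n 0 = e • H.Q n 0 := by
  rw [Q, h n _ (dep_tf2 _ _)]
  congr 2
  funext x
  simp only [tf2, ps, ph, Ring.choose_zero_right, one_mul]
  exact Finset.prod_congr rfl fun p hp => by simp [hc p hp]

theorem rf_exact {g : G} {e : ℤ} {c : Co P k m} (h : Rf H.Y g e c) :
    g • H.Q ∅ 0 = e • H.Q ∅ 0 := by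
  rw [Q, h ∅ _ (dep_tf2 _ _)]
  congr 2
  funext x
  simp [tf2, ps, ph]

/-- Passing from `Q` to `R = Q / 2 ^ t`. -/
theorem invX_of {t : ℕ} {Q0 : E} (hS : (2 : ℤ) ^ s • S ∈ H.A)
    (e : (2 : ℤ) ^ t • (2 : ℤ) ^ s • S = Q0) (hm : t + s ≤ m) (hχ : ∀ g, χ g * χ g = 1)
    (h : ∀ g : G, g • Q0 - χ g • Q0 ∈ H.D m) : H.InvX χ s S := by
  refine ⟨hS, fun g => H.D_cancel (s := t)
    (H.A.sub_mem (H.A.zsmul_mem (H.stab g _ hS) _) hS) (H.D_anti hm ?_)⟩
  have h1 := (H.D m).zsmul_mem (h g) (χ g)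
  rw [smul_sub, smul_smul (χ g) (χ g), hχ, one_smul] at h1
  rwa [smul_sub, smul_comm, ← gz, e]

theorem fix_of {t : ℕ} {Q0 R : E} (hR : R ∈ H.A) (e : (2 : ℤ) ^ t • R = Q0) {g : G} {c : ℤ}
    (hc : c * c = 1) (h : g • Q0 = c • Q0) : c • g • R = R := by
  apply H.cancel t (H.A.zsmul_mem (H.stab g _ hR) _) hR
  rw [smul_comm, ← gz, e, h, smul_smul, hc, one_smul]

variable {H} {w : Loc G E Eb} {n : Finset P} {p : P} {l u : ℤ}

/-- The relations at a Kolyvagin prime, modulo `2 ^ s`. -/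
theorem AtP.mainX (h : H.AtP w n p l u) {b t : ℕ} (hm : t + s + 1 ≤ m) (inv : H.InvX χ s S)
    (eS : (2 : ℤ) ^ t • (2 : ℤ) ^ s • S = H.Q n b) (inv' : H.InvX χ' s S')
    (eS' : (2 : ℤ) ^ t • (2 : ℤ) ^ s • S' = H.Q (insert p n) b) (x1 : χ' w.σ = 1)
    (x2 : χ (w.φ * w.φ) = 1) (x3 : χ' (w.φ * w.φ) = 1) :
    (∃ o : ℤ, Odd o ∧ w.φ • H.cx χ' s S' w.σ = o • H.cx χ s S (w.φ * w.φ)) ∧
      H.cx χ' s S' (w.φ * w.φ) = 0 := by
  have hS := inv.1
  have hS' := inv'.1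
  obtain ⟨i, hi⟩ : ∃ i, m = t + s + (i + 1) := ⟨m - t - s - 1, by omega⟩
  have f1 := h.fix hS eS
  have f2 := h.fix hS' eS'
  have c1 : H.cx χ s S (w.φ * w.φ) = w.φ • w.φ • S - S := by
    rw [H.cx_fix (by rw [mul_smul, f1, x2, one_smul]), mul_smul, x2, one_smul]
  have c2 : H.cx χ' s S' (w.φ * w.φ) = w.φ • w.φ • S' - S' := by
    rw [H.cx_fix (by rw [mul_smul, f2, x3, one_smul]), mul_smul, x3, one_smul]
  obtain ⟨a', ha'⟩ := h.am
  have hu := h.hu
  have pw : (2 : ℤ) ^ m = 2 ^ t * 2 ^ s * (2 ^ i * 2) := by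
    conv_lhs => rw [hi]
    ring
  rw [pw] at ha' hu
  have rQ : w.red (H.Q n b) = (2 ^ t * 2 ^ s : ℤ) • w.red S := by
    rw [← eS, map_zsmul, map_zsmul, mul_smul]
  constructor
  · obtain ⟨c, hc, c0, cn, co⟩ := h.sh
    obtain ⟨ε, hε, sε⟩ := carry m (c.2 p)
    obtain ⟨J, hJ⟩ : ∃ J : ℤ, J = ((c.2 p).val : ℤ) := ⟨_, rfl⟩
    rw [← hJ] at hε sε
    have oJ : Odd J := by rw [hJ]; exact_mod_cast co
    obtain ⟨Z, hZ⟩ : ∃ Z, Z = H.Y (insert p n) fun x => tf2 (ph b) n x * ε (x.2 p) := ⟨_, rfl⟩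
    have hZA : Z ∈ H.A := hZ ▸ H.mem _ _
    have e1 : (fun x : Co P k m => tf2 (ph b) (insert p n) (x + c)) =
        tf2 (ph b) (insert p n) + J • tf2 (ph b) n -
          (2 : ℤ) ^ m • fun x => tf2 (ph b) n x * ε (x.2 p) := by
      funext x
      have e0 : tf2 (ph b) n (x + c) = tf2 (ph b) n x :=
        dep_tf2 _ _ _ _ (by simp [c0]) (fun p' hp' => by simp [cn p' hp'])
      simp only [Pi.add_apply, Pi.sub_apply, Pi.smul_apply, smul_eq_mul, tf2_insert h.nm, e0,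
        Prod.snd_add, hε]
      ring
    have e2 : w.σ • H.Q (insert p n) b =
        H.Q (insert p n) b + J • H.a p • H.Q n b - (2 : ℤ) ^ m • Z := by
      rw [Q, hc _ _ (dep_tf2 _ _), one_smul, e1, map_sub, map_add, map_zsmul, map_zsmul,
        H.norm n p h.nm _ (dep_tf2 _ _), ← hZ]
      rfl
    have hA : (J * (2 ^ t * (2 ^ i * 2) * a')) • (2 : ℤ) ^ s • S - (2 ^ i * 2 : ℤ) • Z ∈ H.A :=
      H.A.sub_mem (H.A.zsmul_mem hS _) (H.A.zsmul_mem hZA _)
    have e3 : χ' w.σ • w.σ • (2 : ℤ) ^ s • S' - (2 : ℤ) ^ s • S' = (2 : ℤ) ^ s •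
        ((J * (2 ^ t * (2 ^ i * 2) * a')) • (2 : ℤ) ^ s • S - (2 ^ i * 2 : ℤ) • Z) := by
      rw [x1, one_smul]
      apply H.cancel t (H.A.sub_mem (H.stab _ _ hS') hS') (H.A.zsmul_mem hA _)
      rw [smul_sub, ← gz, eS', e2, ← eS, ha', pw]
      module
    have e4 := congrArg w.red (H.cx_eq hA e3)
    have rZ : w.red Z = (u * J) • w.F (w.red (H.Q n b)) := by
      rw [hZ, h.cong _ _ (dep_tf2 _ _), sε]; rfl
    rw [rQ, map_zsmul] at rZ
    simp only [x1, one_smul, map_sub, map_zsmul, w.hσ, rZ] at e4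
    have ol : Odd (J * l) :=
      oJ.mul ⟨u * (2 ^ t * 2 ^ s * 2 ^ i) - 1, by linear_combination -hu⟩
    refine ⟨J * l, ol, sub_eq_zero.1 (w.inj_pow s ?_ ?_)⟩
    · rw [smul_sub, ← gz, inv'.tor, smul_comm, inv.tor, smul_zero, smul_zero, sub_self]
    rw [map_sub, map_zsmul, w.hF, e4, c1]
    have es := h.es S
    rw [ha'] at es
    simp only [map_sub, map_zsmul, w.hF, sub_self, map_zero]
    have hl : l = u * (2 ^ t * 2 ^ s * (2 ^ i * 2)) - 1 := by linear_combination -hu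
    subst hl
    linear_combination (norm := module) -J • es
  · obtain ⟨c, hc⟩ := sum_val_pow (m := m) (s := s) (by omega)
    have r1 : w.red (H.Q (insert p n) b) = (u * (2 ^ s * c)) • w.F (w.red (H.Q n b)) := by
      rw [← hc, Q, funext (tf2_insert h.nm (ph b))]
      exact h.cong _ (fun z => (z.val : ℤ)) (dep_tf2 _ _)
    rw [rQ, ← eS', map_zsmul, map_zsmul, map_zsmul] at r1
    obtain ⟨y, hy⟩ : ∃ y, y = S' - (u * c) • w.φ • (2 : ℤ) ^ s • S := ⟨_, rfl⟩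
    have r2 : (2 ^ t * 2 ^ s : ℤ) • w.red y = 0 := by
      rw [hy, map_sub, map_zsmul, w.hF, map_zsmul, map_zsmul]
      linear_combination (norm := module) r1
    have r3 : (2 ^ t * 2 ^ s : ℤ) • w.F (w.red y) = 0 := by rw [← map_zsmul, r2, map_zero]
    have es := h.es y
    rw [ha'] at es
    have r4 : w.F (w.F (w.red y)) = w.red y := by
      have hl : l = u * (2 ^ t * 2 ^ s * (2 ^ i * 2)) - 1 := by linear_combination -hu
      subst hl
      linear_combination (norm := module) -es + (2 ^ i * 2 * a') • r3 - (u * (2 ^ i * 2)) • r2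
    apply w.inj_pow s (inv'.tor _)
    rw [c2]
    have e5 : S' = y + (u * c) • w.φ • (2 : ℤ) ^ s • S := by rw [hy, sub_add_cancel]
    have e6 : w.φ • w.φ • w.φ • (2 : ℤ) ^ s • S = w.φ • (2 : ℤ) ^ s • S := by rw [f1]
    rw [e5, smul_add, smul_add, gz _ (u * c), gz _ (u * c), e6, add_sub_add_right_eq_sub, map_sub,
      w.hF, w.hF, r4, sub_self]

end Sys

end Pool.Agent.Lib.MP_d6ddbd_nt.K11.KK
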