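import Pool.Agent.Lib.MP_d6ddbd_nt.KI.SubB0
import Pool.Agent.Lib.MP_d6ddbd_nt.K11.AllX
import Pool.Agent.Lib.MP_d6ddbd_nt.K11.Final

/-!
Level one: reciprocity and core vertices.
-/

set_option autoImplicit false

open Pool.Agent.Lib.MP_d6ddbd_nt.K11

namespace Pool.Agent.Lib.MP_d6ddbd_nt.KI

theorem subB_thm (hD : DkStmt) (hA : SubAStmt) : SubBStmt :=
  SubB.main vAll lAll kumAll link1All Final.exists_cub hD hA

end Pool.Agent.Lib.MP_d6ddbd_nt.KI
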