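import Pool.Agent.Lib.MP_d6ddbd_nt.KI.AllX
import Pool.Agent.Lib.MP_d6ddbd_nt.KI.Step
import Pool.Agent.Lib.MP_d6ddbd_nt.KI.SubB

/-!
The full two-converse for the quadratic twists of `X₀(11)`: everything assembled.
-/

set_option autoImplicit false

namespace Pool.Agent.Lib.MP_d6ddbd_nt.KI

theorem mainAll : MainStmt :=
  main_of (subB_thm dk_thm subAAll) (step_thm tr_thm le_thm gd_thm fr_thm)

end Pool.Agent.Lib.MP_d6ddbd_nt.KI
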