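import Pool.Agent.Lib.MP_d6ddbd_nt.K11.KB3
import Pool.Agent.Lib.MP_d6ddbd_nt.KI.KX
import Pool.Agent.Lib.MP_d6ddbd_nt.KI.SysD

/-! The abstract system attached to the Kolyvagin primes of level `m`. -/

set_option autoImplicit false

noncomputable section

namespace Pool.Agent.Lib.MP_d6ddbd_nt.K11.KK

open Finset

/-- Finite sets of Kolyvagin primes of level `m`. -/
def KnM (q : ℕ) (d : ℤ) (m : ℕ) (n : Finset ℕ) : Prop := ∀ p ∈ n, KolM q d m p

theorem a_kolM {q : ℕ} {k : ℕ → ℕ} {a : ℕ → ℤ} {S : Finset ℕ → (A k → ℤ) →+ Pt} {ρ : G → A k}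
    {ν : A k} {j : ℕ → A k} (hR : RStmt) (h : HS q k a S ρ ν j) {d : ℤ} {m p : ℕ}
    (hp : KolM q d m p) : (2 : ℤ) ^ m ∣ a p := by
  rcases m with _ | m
  · simp
  obtain ⟨O, φ, hO, hφ, hf⟩ := hp.fr
  obtain ⟨T, hA, t1, t2⟩ := exists_ord hR.1 m
  have h1 := es_tor hR h hp.kol.pr (kol_ne_two hp.kol) hp.kol.n11 hO hφ hA t1
  have h2 : φ⁻¹ • T = φ • T := inv_smul_eq_iff.2 (hf T t1).symm
  obtain ⟨c, hc⟩ := hp.dv
  rw [h2, add_comm, ← succ_nsmul, hc, mul_comm, mul_smul, ← gn φ, t1, g0, n0] at h1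
  have h3 : addOrderOf T = 2 ^ (m + 1) := addOrderOf_eq_prime_pow t2 t1
  have h4 := addOrderOf_dvd_iff_zsmul_eq_zero.2 h1
  rw [h3] at h4
  exact_mod_cast h4

/-- The hypotheses for the system of level `m`. -/
structure Cx (q : ℕ) (d : ℤ) (r m : ℕ) (k : ℕ → ℕ) (a : ℕ → ℤ)
    (S : Finset ℕ → (A k → ℤ) →+ Pt) (ρ : G → A k) (ν : A k) (j : ℕ → A k) : Prop where
  hV : VStmt
  hR : RStmt
  qd : QD q d
  rd : RD q d r
  kd : ∀ l : ℕ, l.Prime → (l : ℤ) ∣ d → k l = 1
  kr : k r ≠ 0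
  kp : ∀ p, KolM q d m p → k p = m
  kle : ∃ N, ∀ l, k l ≤ N
  hm : 3 ≤ m
  hs : HS q k a S ρ ν j

namespace Cx

variable {q : ℕ} {d : ℤ} {r m : ℕ} {k : ℕ → ℕ} {a : ℕ → ℤ} {S : Finset ℕ → (A k → ℤ) →+ Pt}
  {ρ : G → A k} {ν : A k} {j : ℕ → A k} (C : Cx q d r m k a S ρ ν j)

include C

theorem cdD : Cd k d.natAbs.primeFactors := fun l hl => by
  obtain ⟨p1, p2⟩ := (mem_D C.qd.fam).1 hl
  rw [C.kd l p1 p2]; omega

theorem cd {n : Finset ℕ} (hn : KnM q d m n) : Cd k (cc d r n) := by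
  intro l hl
  simp only [cc, mem_union, mem_insert] at hl
  rcases hl with (rfl | hl) | hl
  · exact C.kr
  · exact C.cdD l hl
  · rw [C.kp l (hn l hl)]; have := C.hm; omega

theorem not_mem_cc {n : Finset ℕ} {v : ℕ} (h1 : v ≠ r) (h2 : ¬ (v : ℤ) ∣ d) (h3 : v ∉ n) :
    v ∉ cc d r n := by
  simp only [cc, mem_union, mem_insert, mem_D C.qd.fam]
  tauto

theorem kol_ne_r {p : ℕ} (hp : KolM q d m p) : p ≠ r := by
  rintro rfl
  have h1 := hp.kol.ty
  rw [C.rd.ty] at h1
  omega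

/-- A Heegner point as an algebraic point. -/
def pA {c : Finset ℕ} (hc : Cd k c) (Φ : A k → ℤ) : AlgS C.hR.1 := ⟨S c Φ, C.hs.alg c Φ hc⟩

open Classical in
/-- The twisted Heegner points. -/
def YY (n : Finset ℕ) : (Co ℕ (k r) m → ℤ) →+ AlgS C.hR.1 :=
  if h : KnM q d m n then
    { toFun := fun f => C.pA (C.cd h) (tst k d r _ n f)
      map_zero' := Subtype.ext (by
        have : tst k d r m n 0 = 0 := funext fun g => by simp [tst]
        simp only [pA, this, map_zero]; rfl)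
      map_add' := fun f f' => Subtype.ext (by
        have : tst k d r m n (f + f') = tst k d r _ n f + tst k d r _ n f' :=
          funext fun g => by simp [tst, mul_add]
        simp only [pA, this, map_add]; rfl) }
  else 0

theorem YY_pos {n : Finset ℕ} (h : KnM q d m n) (f : Co ℕ (k r) m → ℤ) :
    (C.YY n f : Pt) = S (cc d r n) (tst k d r _ n f) := by
  rw [YY, dif_pos h]; rfl

theorem YY_neg {n : Finset ℕ} (h : ¬ KnM q d m n) (f : Co ℕ (k r) m → ℤ) :
    C.YY n f = 0 := by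
  rw [YY, dif_neg h]; rfl

/-- The points that are fixed by the kernel of the coordinates. -/
def AA : AddSubgroup (AlgS C.hR.1) where
  carrier := {x | ∀ σ : G, σ (om q) = om q → ρ σ = 0 → σ • x = x}
  zero_mem' := fun σ _ _ => smul_zero σ
  add_mem' := fun {x y} hx hy σ h1 h2 => by rw [smul_add, hx σ h1 h2, hy σ h1 h2]
  neg_mem' := fun {x} hx σ h1 h2 => by rw [smul_neg, hx σ h1 h2]

theorem pA_mem {c : Finset ℕ} (hc : Cd k c) {Φ : A k → ℤ} (hΦ : K11.Dep c Φ) :
    C.pA hc Φ ∈ C.AA := fun σ h1 h2 => Subtype.ext (by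
  have := C.hs.act c Φ σ hc hΦ h1
  simp only [h2, sub_zero] at this
  exact this)

theorem sh_GK {σ : G} (hσ : σ (om q) = om q) :
    Sh C.YY σ (chi d.natAbs.primeFactors (ρ σ)) (pa k r _ (-ρ σ)) := by
  intro n f hf
  by_cases hn : KnM q d m n
  · apply Subtype.ext
    rw [coe_sm, AddSubgroupClass.coe_zsmul, C.YY_pos hn, C.YY_pos hn,
      C.hs.act _ _ σ (C.cd hn) (dep_tst _ _ _ _ _ _) hσ, ← map_zsmul]
    congr 1
    funext g
    rw [Pi.smul_apply, tst_eq d hf, tst_eq d (hf.shift _), chi_sub C.cdD, ← map_add,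
      ← sub_eq_add_neg, smul_eq_mul]
    ring
  · simp [C.YY_neg hn]

theorem rf_not {σ : G} (hσ : σ (om q) ≠ om q) :
    Rf C.YY σ (-chi d.natAbs.primeFactors (ν + ρ (σ * cj))) (pa k r _ (ν + ρ (σ * cj))) := by
  intro n f hf
  by_cases hn : KnM q d m n
  · apply Subtype.ext
    rw [coe_sm, AddSubgroupClass.coe_zsmul, C.YY_pos hn, C.YY_pos hn,
      act_not C.hs (C.cd hn) (dep_tst _ _ _ _ _ _) hσ, ← map_zsmul, ← map_neg]
    congr 1
    funext g
    rw [Pi.smul_apply, Pi.neg_apply, tst_eq d hf, tst_eq d (hf.refl _), chi_sub C.cdD, ← map_sub,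
      smul_eq_mul]
    ring
  · simp [C.YY_neg hn]

open Classical in
/-- The abstract system. -/
def sys : Sys G (AlgS C.hR.1) ℕ (k r) m where
  A := C.AA
  stab := fun g x hx σ h1 h2 => by
    obtain ⟨h3, h4⟩ := rho_conj C.hs h1 h2 g
    have := congrArg (g • ·) (hx _ h3 h4)
    simpa only [mul_smul, smul_inv_smul] using this
  tf := fun x hx h2 => by
    obtain ⟨ω, w1, w2, w3⟩ := C.kle.elim fun _ h => exists_om C.hR.1 C.hs h
    exact Subtype.ext (w3 x.1 ((two_iff x).1 h2) (congrArg Subtype.val (hx ω w1 w2)))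
  Y := C.YY
  mem := fun n f => by
    by_cases hn : KnM q d m n
    · have : C.YY n f = C.pA (C.cd hn) (tst k d r _ n f) := Subtype.ext (C.YY_pos hn f)
      rw [this]
      exact C.pA_mem _ (dep_tst _ _ _ _ _ _)
    · rw [C.YY_neg hn]; exact AddSubgroup.zero_mem _
  a := fun p => if KolM q d m p then a p else 0
  norm := fun n p hp f hf => by
    by_cases hk : KolM q d m p
    · rw [if_pos hk]
      by_cases hn : KnM q d m n
      · have hn' : KnM q d m (insert p n) := fun x hx => by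
          rcases Finset.mem_insert.1 hx with rfl | hx
          exacts [hk, hn x hx]
        apply Subtype.ext
        have e : tst k d r _ (insert p n) f = tst k d r _ n f := funext fun g => by
          rw [tst_eq d hf, tst_eq d (hf.mono (Finset.subset_insert _ _))]
        rw [AddSubgroupClass.coe_zsmul, C.YY_pos hn, C.YY_pos hn', e, cc, Finset.union_insert]
        exact C.hs.inert _ _ p (C.cd hn) (dep_tst _ _ _ _ _ _) (by rw [C.kp p hk]; have := C.hm; omega)
          (C.not_mem_cc (C.kol_ne_r hk) hk.kol.nd hp) hk.kol.inert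
      · rw [C.YY_neg hn, C.YY_neg fun h => hn fun x hx => h x (Finset.mem_insert_of_mem hx),
          smul_zero]
    · rw [if_neg hk, C.YY_neg fun h => hk (h p (Finset.mem_insert_self _ _)), zero_smul]
  a4 := fun p => by
    split_ifs with hk
    · exact (pow_dvd_pow (2 : ℤ) (by have := C.hm; omega : 2 ≤ m)).trans (a_kolM C.hR C.hs hk)
    · simp
  act := fun g => by
    by_cases hg : g (om q) = om q
    · exact ⟨_, _, chi_or _ _, Or.inl (C.sh_GK hg)⟩
    · refine ⟨_, _, ?_, Or.inr (C.rf_not hg)⟩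
      rcases chi_or d.natAbs.primeFactors (ν + ρ (g * cj)) with h | h <;> simp [h]

theorem chi_of {σ : G} (hG : σ (om q) = om q) {s : ℂ} (hs : s ^ 2 = d) {η : ℤ}
    (h : σ s = η * s) : chi d.natAbs.primeFactors (ρ σ) = η := by
  have h1 := chi_rho C.hs hG C.qd.fam C.cdD hs
  have h0 : s ≠ 0 := fun e => C.qd.fam.sf.ne_zero (by
    rw [e] at hs
    exact_mod_cast (by simpa using hs.symm : (d : ℂ) = 0))
  exact_mod_cast mul_right_cancel₀ h0 (h1.symm.trans h)

theorem atP {p : ℕ} {O : ValuationSubring ℂ} {σ φ : G} {s : ℂ} {n : Finset ℕ}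
    (hn : KnM q d m n) (hp : KolM q d m p) (pn : p ∉ n) (hO : Ov O p)
    (hσ : Frob O 1 σ) (hφ : Frob O p φ) (hs : s ^ 2 = GF.pst p) (e1 : σ s = -s) :
    C.sys.AtP (mkLoc C.hR hp.kol.pr (kol_ne_two hp.kol) hp.kol.n11 hO hσ hφ) n p p
      (((p + 1) / 2 ^ k p : ℕ) : ℤ) := by
  have kp := C.kp p hp
  have kp0 : k p ≠ 0 := by have := C.hm; omega
  have pr := C.kol_ne_r hp
  have hG := C.hV.2.1.2.2.2.2.2.2.1 q p O σ C.qd.qf.pr C.qd.qf.m4 hp.kol.pr hp.kol.nq hO hσ
  have hG' : φ (om q) ≠ om q := fun e => hp.kol.inert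
    ((C.hV.2.1.2.2.2.2.2.2.2.1 q p O φ C.qd.qf.pr C.qd.qf.m4 hp.kol.pr (kol_ne_two hp.kol) hp.kol.nq hO hφ).1 e)
  have ha : C.sys.a p = a p := if_pos hp
  have hn' : KnM q d m (insert p n) := fun x hx => by
    rcases Finset.mem_insert.1 hx with rfl | hx
    exacts [hp, hn x hx]
  have pc := C.not_mem_cc pr hp.kol.nd pn
  refine ⟨pn, ?_, ha ▸ a_kolM C.hR C.hs hp, ?_, ?_, ?_, ?_⟩
  · rw [kp]
    exact_mod_cast Nat.div_mul_cancel hp.dv
  · have c1 : chi d.natAbs.primeFactors (ρ σ) = 1 := Finset.prod_eq_one fun l hl => by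
      rw [C.hs.iner p O σ l hp.kol.pr hO hσ hG fun e => hp.kol.nd (e ▸ ((mem_D C.qd.fam).1 hl).2)]
      simp [sg]
    refine ⟨_, c1 ▸ C.sh_GK hG, ?_, fun p' hp' => ?_, ?_⟩
    · simp [pa, C.hs.iner p O σ r hp.kol.pr hO hσ hG pr.symm]
    · simp [pa, C.hs.iner p O σ p' hp.kol.pr hO hσ hG (fun e => pn (e ▸ hp'))]
    · have h0 : s ≠ 0 := fun e => by
        have h1 : GF.pst p = 0 := by
          rw [e] at hs
          exact_mod_cast (by simpa using hs.symm : (GF.pst p : ℂ) = 0)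
        have h2 := (pst_mod (hp.kol.pr.eq_two_or_odd.resolve_left (kol_ne_two hp.kol))).1
        omega
      have h3 : ¬ Even (ρ σ p).val := fun e => h0 (by
        have := (C.hs.gen σ p s hG kp0 hs).2 e
        linear_combination (e1 - this) / 2)
      change Odd (cz (k p) _ (-ρ σ p)).val
      rw [cz_val kp, ← Nat.not_even_iff_odd, ← sg_eq_one, ← zero_sub, sg_sub kp0]
      rw [← sg_eq_one] at h3
      simpa [sg] using h3
  · intro n' f hf
    have h1 := C.rf_not hG'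
    change φ • φ • C.YY n' f = C.YY n' f
    rw [h1 n' f hf, gz, h1 n' _ (hf.refl _), smul_smul]
    rcases chi_or d.natAbs.primeFactors (ν + ρ (φ * cj)) with h | h <;> simp [h]
  · intro x
    rw [ha, ← Loc.hF, ← Loc.hF, ← map_zsmul, ← map_zsmul, ← map_add]
    apply (red_eq _ _).2
    have := C.hs.es p O φ (φ • x.1) hp.kol.pr (kol_ne_two hp.kol) hp.kol.n11 hO hφ (φ • x).2
    rw [inv_smul_smul, ← natCast_zsmul] at this
    exact this
  · intro g ω hg
    rw [← map_zsmul, ← map_zsmul, ← map_zsmul, ← Loc.hF]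
    apply (red_eq _ _).2
    have dg : Dep (insert p n) fun x => g x * ω (x.2 p) := fun x y h1 h2 => by
      simp only [hg x y h1 fun p' hp' => h2 p' (Finset.mem_insert_of_mem hp'),
        h2 p (Finset.mem_insert_self _ _)]
    have e : cc d r (insert p n) = insert p (cc d r n) := Finset.union_insert _ _ _
    have h1 := C.hs.cong (cc d r n) _ p O φ (C.cd hn)
      (e ▸ dep_tst k d r _ (insert p n) fun x => g x * ω (x.2 p)) kp0 pc hp.kol.inert hO hφ
    change (C.YY _ _ : Pt) - φ • (C.YY _ _ : Pt) ∈ _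
    rw [C.YY_pos hn', C.YY_pos hn, e]
    have e2 : ∀ (y : A k) (x : ZMod (2 ^ k p)), tst k d r _ (insert p n) (fun x => g x * ω (x.2 p))
        (Function.update y p x) = tst k d r _ n g y * ω (cz (k p) _ x) := by
      intro y x
      have h2 := dep_tst k d r _ n g (Function.update y p x) y fun l hl =>
        Function.update_of_ne (by rintro rfl; exact pc hl) _ _
      rw [← h2, tst_eq d dg, tst_eq d hg, mul_assoc]
      simp [pa]
    have e3 : tst k d r _ n (((((p + 1) / 2 ^ k p : ℕ) : ℤ) * ∑ z, ω z) • g) =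
        fun y => (((p + 1) / 2 ^ k p : ℕ) : ℤ) * ∑ x : ZMod (2 ^ k p),
          tst k d r _ (insert p n) (fun x => g x * ω (x.2 p)) (Function.update y p x) := by
      funext y
      simp only [e2, ← Finset.mul_sum, cz_sum kp]
      simp only [tst, Pi.smul_apply, smul_eq_mul]
      ring
    rw [e3]
    exact h1

end Cx

end Pool.Agent.Lib.MP_d6ddbd_nt.K11.KK
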