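import Pool.Agent.Lib.MP_d6ddbd_nt.K11.Stmt

/-!
The full two-converse for the quadratic twists of `X₀(11)`: definitions.
-/

set_option autoImplicit false

open NumberField IsDedekindDomain Pointwise
open Pool.Agent.Lib.MP_02f36d_nt (xc yc)
open Pool.Agent.Stark (Pr og hq LSq pw SqCl cl)
open Pool.Agent.Lib.MP_d6ddbd_nt.K11

noncomputable section

namespace Pool.Agent.Lib.MP_d6ddbd_nt.KI

/-! ### Twisted action and cocycles -/

/-- A chosen square root. -/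
def rt (c : ℤ) : ℂ := (IsAlgClosed.exists_pow_nat_eq (c : ℂ) two_pos).choose

theorem rt_sq (c : ℤ) : rt c ^ 2 = c := (IsAlgClosed.exists_pow_nat_eq (c : ℂ) two_pos).choose_spec

open Classical in
/-- The quadratic character of `c`, with values `± 1`. -/
def cq (c : ℤ) (σ : G) : ℤ := if σ (rt c) = rt c then 1 else -1

open Classical in
/-- The quadratic character of `c`, written additively. -/
def ps (c : ℤ) (σ : G) : ZMod 2 := if σ (rt c) = rt c then 0 else 1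

/-- The action twisted by `c`. -/
def tw (c : ℤ) (σ : G) (P : Pt) : Pt := cq c σ • σ • P

/-- A finite set of algebraic numbers. -/
def Al (J : Finset ℂ) : Prop := ∀ x ∈ J, IsAlgebraic ℚ x

/-- Two automorphisms agree on `J`. -/
def Ag (J : Finset ℂ) (σ τ : G) : Prop := ∀ x ∈ J, σ x = τ x

/-- On `D`, the function depends only on the action on finitely many algebraic numbers. -/
def FnOn {X : Type} (D : G → Prop) (f : G → X) : Prop :=
  ∃ J : Finset ℂ, Al J ∧ ∀ σ τ, D σ → D τ → Ag J σ τ → f σ = f τ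

/-- Continuous functions. -/
def Fn {X : Type} (f : G → X) : Prop := ∃ J : Finset ℂ, Al J ∧ ∀ σ τ, Ag J σ τ → f σ = f τ

/-- Continuous cocycles of level `k` for the twisted action. -/
structure Cy (c : ℤ) (k : ℕ) (x : G → Pt) : Prop where
  tor : ∀ σ, 2 ^ k • x σ = 0
  mul : ∀ σ τ, x (σ * τ) = x σ + tw c σ (x τ)
  fin : ∃ J : Finset ℂ, Al J ∧ ∀ σ : G, (∀ y ∈ J, σ y = y) → x σ = 0

/-- Coboundaries of torsion points. -/
def Cb (c : ℤ) (x : G → Pt) : Prop :=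
  ∃ (T : Pt) (k : ℕ), 2 ^ k • T = 0 ∧ ∀ σ, x σ = tw c σ T - T

/-- The Weil monoid of the place `O` over `v`. -/
def Wl (O : ValuationSubring ℂ) (v : ℕ) (σ : G) : Prop := ∃ n : ℕ, Frob O (v ^ n) σ

/-- The decomposition group. -/
def Dc (O : ValuationSubring ℂ) (σ : G) : Prop := ∀ x : ℂ, IsAlgebraic ℚ x → (σ x ∈ O ↔ x ∈ O)

/-- The local Kummer condition. -/
def Kl (c : ℤ) (O : ValuationSubring ℂ) (v : ℕ) (x : G → Pt) : Prop :=
  ∃ S : Pt, AlgP S ∧ ∀ σ, Wl O v σ → x σ = tw c σ S - S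

/-- Selmer cocycles, transverse at the primes in `n`. -/
structure Sel (c : ℤ) (k : ℕ) (n : Finset ℕ) (x : G → Pt) : Prop where
  cy : Cy c k x
  kl : ∀ (v : ℕ) O, v.Prime → v ∉ n → Ov O v → Kl c O v x
  ff : ∀ p ∈ n, ∀ O (φ : G), Ov O p → Frob O p φ → x (φ * φ) = 0

/-- The squares of the Frobenius elements at the primes in `n` fix the points of level `k`. -/
def Tv (k : ℕ) (n : Finset ℕ) : Prop := ∀ p ∈ n, ∀ O (φ : G), Ov O p → Frob O p φ →
  ∀ T : Pt, 2 ^ k • T = 0 → φ • φ • T = T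

/-- The Kummer condition at all places over `11`. -/
def Ke (c : ℤ) (x : G → Pt) : Prop := ∀ O, Ov O 11 → Kl c O 11 x

/-- The bound on the number of Selmer classes. -/
def Bd (c : ℤ) : Prop := ∃ k : ℕ, ∀ s : Finset (G → Pt), (∀ x ∈ s, Sel c k ∅ x) →
  (∀ x ∈ s, ∀ y ∈ s, Cb c (x - y) → x = y) → s.card < 4 ^ k

/-- There are finitely many classes of level one. -/
def FinSel (c : ℤ) : Prop :=
  ∃ s : Finset (G → Pt), ∀ x, Sel c 1 ∅ x → ∃ y ∈ s, Cb c (x - y)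

/-- At most two classes of level one are divisible by `2 ^ j`. -/
def Two (c : ℤ) (j : ℕ) : Prop := ∀ x y, Sel c (j + 1) ∅ x → Sel c (j + 1) ∅ y →
  Cb c (2 ^ j • x) ∨ Cb c (2 ^ j • y) ∨ Cb c (2 ^ j • x - 2 ^ j • y)

/-- Up to `2 ^ j`, the Selmer group is generated by `z` and `y`. -/
def BC (c : ℤ) (k : ℕ) (n : Finset ℕ) (j : ℕ) (y z : G → Pt) : Prop :=
  Sel c k n z ∧ ∀ x, Sel c k n x → ∃ u v : ℤ, Cb c (2 ^ j • x - u • z - v • y)

/-! ### Two-cocycles with values in signs -/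

open Classical in
/-- The Weil pairing on points of order two. -/
def ep (T T' : Pt) : ZMod 2 := if T = 0 ∨ T' = 0 ∨ T = T' then 0 else 1

/-- The cup product. -/
def cup (x y : G → Pt) (σ τ : G) : ZMod 2 := ep (x σ) (σ • y τ)

/-- Continuous two-cocycles. -/
structure C2 (c : G → G → ZMod 2) : Prop where
  fn : ∃ J : Finset ℂ, Al J ∧ ∀ σ σ' τ τ', Ag J σ σ' → Ag J τ τ' → c σ τ = c σ' τ'
  eq : ∀ σ τ υ, c τ υ + c σ (τ * υ) = c (σ * τ) υ + c σ τ

/-- The cochain splits at the place `O`. -/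
def Sp (O : ValuationSubring ℂ) (v : ℕ) (c : G → G → ZMod 2) : Prop :=
  ∃ η : G → ZMod 2, FnOn (Wl O v) η ∧
    ∀ σ τ, Wl O v σ → Wl O v τ → c σ τ = η σ + η τ + η (σ * τ)

/-- `η` is a continuous splitting of `c`. -/
def Sg (c : G → G → ZMod 2) (η : G → ZMod 2) : Prop :=
  Fn η ∧ ∀ σ τ, c σ τ = η σ + η τ + η (σ * τ)

/-- The combination of the cocycles `B i`. -/
def rep {r : ℕ} (B : Fin r → G → Pt) (a : Fin r → ZMod 2) : G → Pt := ∑ i, (a i).val • B i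

/-! ### The group `H` -/

/-- Commutators that fix the points of level `m` and the numbers in `W`. -/
structure Hm (m : ℕ) (W : Finset ℂ) (h : G) : Prop where
  cm : h ∈ commutator G
  tor : ∀ T : Pt, 2 ^ m • T = 0 → h • T = T
  fx : ∀ w ∈ W, h w = w

/-- Roots of numbers of norm one of the quadratic field. -/
def Wq (q m : ℕ) (W : Finset ℂ) : Prop :=
  ∀ w ∈ W, ∃ π ∈ OK q, π ≠ 0 ∧ w ^ 2 ^ m = starRingEnd ℂ π / π

/-- Good primes. -/
def Gp (W : Finset ℂ) (p : ℕ) : Prop := ∃ O, Ov O p ∧ ∀ w ∈ W, w ^ (p + 1) - 1 ∈ O.nonunits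

/-! ### The systems of level `m` -/

/-- Kolyvagin primes of level `m`. -/
structure KolI (m q : ℕ) (d : ℤ) (p : ℕ) : Prop where
  pr : p.Prime
  n2 : p ≠ 2
  n11 : p ≠ 11
  nq : p ≠ q
  nd : ¬ (p : ℤ) ∣ d
  dv : 2 ^ m ∣ p + 1
  inert : ¬ Spl q p
  ty : nr p = 1
  fr : ∃ (O : ValuationSubring ℂ) (φ : G), Ov O p ∧ Frob O p φ ∧
    ∀ T : Pt, 2 ^ m • T = 0 → φ • φ • T = T

/-- Finite sets of Kolyvagin primes. -/
def KnI (m q : ℕ) (d : ℤ) (n : Finset ℕ) : Prop := ∀ p ∈ n, KolI m q d p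

/-- Finite sets of primes of the type of Kolyvagin primes. -/
def Pn (q : ℕ) (d : ℤ) (n : Finset ℕ) : Prop :=
  ∀ p ∈ n, p.Prime ∧ p ≠ 2 ∧ p ≠ 11 ∧ p ≠ q ∧ ¬ (p : ℤ) ∣ d ∧ nr p = 1

/-- Admissible auxiliary primes. -/
structure Aq (d : ℤ) (N q : ℕ) : Prop where
  qd : QD q d
  m8 : q % 8 = 7
  big : N < q
  spl : ∀ l : ℕ, l.Prime → l ≠ 2 → l ≤ N → Spl q l

/-- The twist on which the class of conductor `n` lives. -/
def twn (q : ℕ) (d : ℤ) (n : Finset ℕ) : ℤ :=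
  if jacobiSym (-11) d.natAbs * (-1) ^ n.card = -1 then d else -(q * d)

/-- The relation at a Kolyvagin prime. -/
def AtK (m q : ℕ) (d : ℤ) (x : Finset ℕ → G → Pt) : Prop :=
  ∀ n p O (σ φ : G), KnI m q d n → KolI m q d p → p ∉ n → Ov O p → Frob O 1 σ → Frob O p φ →
    σ (rt (GF.pst p)) ≠ rt (GF.pst p) →
    (∃ u : ℤ, Odd u ∧ φ • x (insert p n) σ = u • x n (φ * φ)) ∧ x (insert p n) (φ * φ) = 0

section Cubic

variable {L : Type} [Field L] [NumberField L]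

/-- The strict Selmer classes of level one. -/
structure Yn (θ : L) (q : ℕ) (d : ℤ) (n : Finset ℕ) (α : L) : Prop where
  wc : Wc d n α
  bv : ∀ 𝔭 ∈ D1 L d, bv θ d 𝔭 α = 0
  fp : ∀ p ∈ n, fv p α = 0
  fq : fv q α = 0

/-- Core vertices. -/
def Core (θ : L) (q : ℕ) (d : ℤ) (n : Finset ℕ) : Prop := ∀ α, Yn θ q d n α → IsSquare α

/-- The number of strict classes. -/
def yn (θ : L) (q : ℕ) (d : ℤ) (n : Finset ℕ) : ℕ := (cl '' {α | Yn θ q d n α}).ncard

/-- The classes of level `k`, with their Selmer properties. -/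
structure KY (θ : L) (q : ℕ) (d : ℤ) (k s m : ℕ) (W : Finset ℂ) (x : Finset ℕ → G → Pt) :
    Prop where
  cy : ∀ n, KnI m q d n → Cy (twn q d n) k (x n)
  sel : ∀ n, KnI m q d n → (∀ p ∈ n, Gp W p) → Sel (twn q d n) k n (2 • x n)
  atp : AtK m q d x
  core : ∀ n, KnI m q d n → Core θ q d n →
    (∀ σ, 2 ^ (s + 1) • x n σ = 0) ∧ ¬ Cb (twn q d n) (2 ^ s • x n)
  bot : ∃ S, AlgP S ∧ ∀ σ, x ∅ σ = tw (twn q d ∅) σ S - S

end Cubic

/-- The class `y` is zero, or has exact level `k` and is not trivial at `q`. -/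
def Y0 (q k : ℕ) (y : G → Pt) : Prop :=
  y = 0 ∨ ∃ (O : ValuationSubring ℂ) (φ : G), Ov O q ∧ Frob O q φ ∧ 2 ^ (k - 1) • y (φ * φ) ≠ 0

/-- The class `y` on the twist by `d`, zero on the other twist. -/
def yy (q : ℕ) (d : ℤ) (n : Finset ℕ) (y : G → Pt) : G → Pt := if twn q d n = d then y else 0

/-- `2 ^ a x(n)` is a multiple of `y`. -/
def Rl (q : ℕ) (d : ℤ) (x : Finset ℕ → G → Pt) (y : G → Pt) (n : Finset ℕ) (a : ℕ) : Prop :=
  ∃ u : ℤ, Cb (twn q d n) (2 ^ a • x n - u • yy q d n y)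

end Pool.Agent.Lib.MP_d6ddbd_nt.KI
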