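import Pool.Agent.Lib.MP_d6ddbd_nt.K11.R1
import Pool.Agent.Lib.MP_d6ddbd_nt.K11.V2
import Pool.Agent.Lib.MP_d6ddbd_nt.K11.Cheb

/-!
The cup product of two local Kummer classes splits.
-/

set_option autoImplicit false
set_option maxSynthPendingDepth 3

open Pool.Agent.Lib.MP_02f36d_nt (xc yc xc_neg)
open Pool.Agent.Lib.MP_d6ddbd_nt.K11
open Pool.Agent.Lib.MP_d6ddbd_nt.K11.R1 (hh hh_sq hh_smul hh_neg key1 wl_add wl_smul ycn map_fc
  wl_iff KK algP)
open Pool.Agent.Lib.MP_d6ddbd_nt.K11.Cheb (sg sg_add sg_sum map_sg)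

noncomputable section

namespace Pool.Agent.Lib.MP_d6ddbd_nt.KI

namespace Iso

theorem z2 (a : ZMod 2) : a = 0 ∨ a = 1 := by revert a; decide

theorem sg0 : sg 0 = 1 := if_pos rfl

theorem sg1 : sg 1 = -1 := if_neg one_ne_zero

theorem sg_inj {a b : ZMod 2} (h : sg a = sg b) : a = b := by
  rcases z2 a with rfl | rfl <;> rcases z2 b with rfl | rfl <;> simp only [sg0, sg1] at h <;>
    first | rfl | norm_num at h

theorem sg_ne (a : ZMod 2) : sg a ≠ 0 := by
  rcases z2 a with rfl | rfl <;> simp [sg0, sg1]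

theorem ex_sg {a b : ℂ} (h : a ^ 2 = b ^ 2) : ∃ c, a = sg c * b := by
  rcases sq_eq_sq_iff_eq_or_eq_neg.1 h with e | e
  · exact ⟨0, by rw [sg0, one_mul, e]⟩
  · exact ⟨1, by rw [sg1, e]; ring⟩

/-- The roots of the cubic. -/
theorem roots : ∃ E : Finset ℂ, (∀ e, e ∈ E ↔ fc e = 0) ∧
    (∀ T : Pt, 2 • T = 0 → ∑ e ∈ E, wl e T = 0) ∧ E.card = 3 := by
  classical
  obtain ⟨e₁, e₂, e₃, hf, n12, n13, n23, -, -, -, -, hs⟩ := r1_thm.2.2.2.2.1
  refine ⟨{e₁, e₂, e₃}, fun e => ?_, fun T hT => ?_, ?_⟩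
  · rw [hf]
    simp [sub_eq_zero, or_assoc]
  · rw [Finset.sum_insert (by simp [n12, n13]), Finset.sum_pair n23, ← add_assoc, hs T hT]
  · rw [Finset.card_insert_of_notMem (by simp [n12, n13]), Finset.card_pair n23]

theorem perm {E : Finset ℂ} (hE : ∀ e, e ∈ E ↔ fc e = 0) (s : G) (f : ℂ → ℂ) :
    ∏ e ∈ E, f (s e) = ∏ e ∈ E, f e :=
  Finset.prod_equiv s.toEquiv (fun e => by
    rw [hE, hE]
    change _ ↔ fc (s e) = 0
    rw [← map_fc, map_eq_zero_iff s s.injective]) fun _ _ => rfl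

theorem act {s : G} {χ : ℤ} (hχ : χ = 1 ∨ χ = -1) {r : ℂ} (hr : s r = χ * r) {S T : Pt}
    (h2 : 2 • S ≠ 0) (hT : 2 • T = 0) (h : T = χ • s • S - S) {e : ℂ} (he : fc e = 0) :
    s (r * hh e S) = sg (wl (s e) T) * (r * hh (s e) S) := by
  have h0 : S ≠ 0 := fun k => h2 (by rw [k, smul_zero])
  have hy : yc S ≠ 0 := fun k => h2 ((R1.two_iff S).2 (Or.inr ⟨k, by rw [← R1.eq1 h0, k]; ring⟩))
  have he' : fc (s e) = 0 := by rw [← map_fc, he, map_zero]
  have k1 := key1 he' h0 hy hT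
  have k2 : hh (s e) (S + T) = sg (wl (s e) T) * hh (s e) S := by
    rcases z2 (wl (s e) T) with a | a
    · rw [k1.1 a, a, sg0, one_mul]
    · rw [k1.2 (by rw [a]; exact one_ne_zero), a, sg1, neg_one_mul]
  have k3 : S + T = χ • s • S := by rw [h, add_sub_cancel]
  rw [map_mul, hr, hh_smul, mul_left_comm, ← k2, k3]
  rcases hχ with rfl | rfl
  · simp
  · rw [neg_one_smul, hh_neg _ (fun k => h0 ((smul_eq_zero' s S).1 k))]
    simp

theorem xc_fix {s : G} {χ : ℤ} (hχ : χ = 1 ∨ χ = -1) {S : Pt} (h : 2 • (χ • s • S - S) = 0) :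
    s (xc (2 • S)) = xc (2 • S) := by
  rw [smul_sub, sub_eq_zero, smul_comm 2 χ, ← smul_comm s 2 S] at h
  rw [← xc_smul]
  rcases hχ with rfl | rfl
  · rw [one_smul] at h
    rw [h]
  · rw [neg_one_smul] at h
    rw [← h, xc_neg, h]

theorem one_factor {u γ : ℂ} (hu : u ≠ 0) (hγ : γ ≠ 0) (α β ε δ : ZMod 2) :
    (if α = 0 then 1 else γ / u) *
      (if β = 0 then 1 else sg δ * γ / (sg ε * (u * (if α = 0 then 1 else γ / u) ^ 2))) =
      sg (β * δ) * (sg (ε * β) * if α + β = 0 then 1 else γ / u) := by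
  have := sg_ne ε
  rcases z2 α with rfl | rfl <;> rcases z2 β with rfl | rfl <;> rcases z2 ε with rfl | rfl <;>
    simp [sg0, sg1, show (1 + 1 : ZMod 2) = 0 from rfl] <;> field_simp

theorem core {E : Finset ℂ} (hE : ∀ e, e ∈ E ↔ fc e = 0)
    (hs : ∀ T : Pt, 2 • T = 0 → ∑ e ∈ E, wl e T = 0) (W : G → Prop)
    (hW : ∀ s t, W s → W t → W (s * t)) (χ : G → ℤ) (hχ : ∀ s, χ s = 1 ∨ χ s = -1) {r : ℂ}
    (r0 : r ≠ 0) (hr : ∀ s, s r = χ s * r) (ra : IsAlgebraic ℚ r) {S S' : Pt} (ha : AlgP S)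
    (ha' : AlgP S') (h2 : 2 • S ≠ 0) (h2' : 2 • S' ≠ 0) (hne : xc (2 • S) ≠ xc (2 • S'))
    (x x' : G → Pt) (hx : ∀ s, W s → 2 • x s = 0 ∧ x s = χ s • s • S - S)
    (hx' : ∀ s, W s → 2 • x' s = 0 ∧ x' s = χ s • s • S' - S') :
    ∃ (η : G → ZMod 2) (J : Finset ℂ), (∀ z ∈ J, IsAlgebraic ℚ z) ∧
      (∀ s t : G, (∀ z ∈ J, s z = t z) → η s = η t) ∧ ∀ s t, W s → W t →
        η (s * t) = η s + η t + ∑ e ∈ E, wl e (x s) * wl e (s • (x t + x' t)) := by
  classical
  have sq : ∀ {S : Pt}, 2 • S ≠ 0 → ∀ e ∈ E, (r * hh e S) ^ 2 = r ^ 2 * (xc (2 • S) - e) := by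
    intro S h2 e he
    have h0 : S ≠ 0 := fun k => h2 (by rw [k, smul_zero])
    rw [mul_pow, hh_sq ((hE e).1 he) h0 fun k =>
      h2 ((R1.two_iff S).2 (Or.inr ⟨k, by rw [← R1.eq1 h0, k]; ring⟩))]
  obtain ⟨g, hg⟩ : ∃ g, g = r ^ 2 * (xc (2 • S) - xc (2 • S')) := ⟨_, rfl⟩
  have g0 : g ≠ 0 := hg ▸ mul_ne_zero (pow_ne_zero 2 r0) (sub_ne_zero.2 hne)
  obtain ⟨γ, hγ⟩ := IsAlgClosed.exists_pow_nat_eq g two_pos
  have γ0 : γ ≠ 0 := fun k => g0 (by rw [← hγ, k]; ring)
  obtain ⟨u, hu⟩ : ∃ u : ℂ → ℂ, u = fun e => r * hh e S + r * hh e S' := ⟨_, rfl⟩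
  have ug : ∀ e ∈ E, u e * (r * hh e S - r * hh e S') = g := fun e he => by
    rw [hu, hg]
    linear_combination sq h2 e he - sq h2' e he
  have u0 : ∀ e ∈ E, u e ≠ 0 := fun e he k => g0 (by rw [← ug e he, k, zero_mul])
  obtain ⟨k, hk⟩ : ∃ k : Pt → ℂ → ℂ, k = fun T e => if wl e T = 0 then 1 else γ / u e := ⟨_, rfl⟩
  have k0 : ∀ T, ∀ e ∈ E, k T e ≠ 0 := fun T e he => by
    simp only [hk]
    split_ifs
    exacts [one_ne_zero, div_ne_zero γ0 (u0 e he)]
  have mem : ∀ (s : G), ∀ e ∈ E, s e ∈ E := fun s e he => by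
    rw [hE, ← map_fc, (hE e).1 he, map_zero]
  have su : ∀ s, W s → ∀ e ∈ E,
      s (u e) = sg (wl (s e) (x s)) * (u (s e) * k (x s + x' s) (s e) ^ 2) := by
    intro s hs e he
    have a := act (hχ s) (hr s) h2 (hx s hs).1 (hx s hs).2 ((hE e).1 he)
    have b := act (hχ s) (hr s) h2' (hx' s hs).1 (hx' s hs).2 ((hE e).1 he)
    have c := ug _ (mem s e he)
    have d := u0 _ (mem s e he)
    have e1 : s (u e) = s (r * hh e S) + s (r * hh e S') := by rw [hu, map_add]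
    have e2 : u (s e) = r * hh (s e) S + r * hh (s e) S' := by rw [hu]
    rw [e1, a, b]
    simp only [hk, wl_add _ _ _ ((hE _).1 (mem s e he)) (hx s hs).1 (hx' s hs).1]
    have e3 : u (s e) * (γ / u (s e)) ^ 2 = r * hh (s e) S - r * hh (s e) S' := by
      rw [div_pow, hγ, ← c]
      field_simp
    rcases z2 (wl (s e) (x s)) with p | p <;> rcases z2 (wl (s e) (x' s)) with p' | p' <;>
      rw [p, p']
    · rw [if_pos (add_zero _), e2, sg0]; ring
    · rw [if_neg (by decide), e3, sg0, sg1]; ring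
    · rw [if_neg (by decide), e3, sg0, sg1]; ring
    · rw [if_pos (by decide), e2, sg1]; ring
  obtain ⟨w, hw⟩ := IsAlgClosed.exists_pow_nat_eq (∏ e ∈ E, u e) two_pos
  have w0 : w ≠ 0 := fun a => Finset.prod_ne_zero_iff.2 u0 (by rw [← hw, a]; ring)
  obtain ⟨y, hy⟩ : ∃ y : G → Pt, y = fun s => χ s • s • S - S + (χ s • s • S' - S') := ⟨_, rfl⟩
  have ey : ∀ s, W s → y s = x s + x' s := fun s h => by rw [hy, (hx s h).2, (hx' s h).2]
  have y2 : ∀ s, W s → 2 • (x s + x' s) = 0 := fun s h => by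
    rw [smul_add, (hx s h).1, (hx' s h).1, add_zero]
  obtain ⟨η, hη⟩ : ∃ η : G → ZMod 2, η = fun s =>
    if s w = (∏ e ∈ E, k (y s) e) * w then 0 else 1 := ⟨_, rfl⟩
  have sw : ∀ s, W s → s w = sg (η s) * ((∏ e ∈ E, k (x s + x' s) e) * w) := by
    intro s h
    have a : s w ^ 2 = ((∏ e ∈ E, k (x s + x' s) e) * w) ^ 2 := by
      rw [← map_pow, hw, map_prod, Finset.prod_congr rfl (su s h),
        perm hE s fun e => sg (wl e (x s)) * (u e * k (x s + x' s) e ^ 2), Finset.prod_mul_distrib,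
        ← sg_sum, hs _ (hx s h).1, sg0, Finset.prod_mul_distrib, mul_pow, hw, Finset.prod_pow]
      ring
    simp only [hη, ey s h]
    split_ifs with b
    · rw [sg0, one_mul, b]
    · rw [sg1, neg_one_mul]
      exact (sq_eq_sq_iff_eq_or_eq_neg.1 a).resolve_left b
  have χm : ∀ s t, χ (s * t) = χ s * χ t := fun s t => by
    have a : ((χ (s * t) : ℤ) : ℂ) * r = (χ s * χ t : ℤ) * r := by
      rw [← hr, RingAut.mul_apply, hr t, map_mul, map_intCast, hr s]
      push_cast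
      ring
    exact_mod_cast mul_right_cancel₀ r0 a
  have co : ∀ (s t : G) (P : Pt), 2 • (χ t • t • P - P) = 0 →
      χ (s * t) • (s * t) • P - P = χ s • s • P - P + s • (χ t • t • P - P) := by
    intro s t P h
    have a : χ s • s • (χ t • t • P - P) = s • (χ t • t • P - P) := by
      rcases hχ s with b | b <;> rw [b]
      · rw [one_smul]
      · rw [neg_one_smul, neg_eq_iff_add_eq_zero, ← smul_add, ← two_nsmul, h, smul_zero]
    rw [← a, smul_sub s, smul_comm s (χ t), χm, mul_smul, mul_smul, smul_sub (χ s)]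
    abel
  have ua : ∀ e ∈ E, u e ∈ KK := by
    intro e he
    have a : e ∈ KK := R1.alg4 (neg_mem (ofNat_mem _ 4)) (neg_mem (ofNat_mem _ 160))
      (neg_mem (ofNat_mem _ 1264)) (zero_mem _) (by
        have := (hE e).1 he
        rw [fc] at this
        linear_combination e * this)
    have b : ∀ {P : Pt}, AlgP P → r * hh e P ∈ KK := fun {P} hP =>
      mul_mem (mem_algebraicClosure_iff.2 ra) (div_mem (sub_mem (pow_mem (sub_mem (algP.1 hP).1 a) 2)
        (sub_mem (sub_mem (mul_mem (ofNat_mem _ 3) (pow_mem a 2)) (mul_mem (ofNat_mem _ 8) a))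
          (ofNat_mem _ 160))) (mul_mem (ofNat_mem _ 2) (algP.1 hP).2))
    rw [hu]
    exact add_mem (b ha) (b ha')
  refine ⟨η, {w, r, xc S, yc S, xc S', yc S'}, fun z hz => ?_, fun s t h => ?_, fun s t p q => ?_⟩
  · simp only [Finset.mem_insert, Finset.mem_singleton] at hz
    rcases hz with rfl | rfl | rfl | rfl | rfl | rfl
    · refine IsAlgebraic.of_pow two_pos ?_
      rw [hw]
      exact mem_algebraicClosure_iff.1 (prod_mem ua)
    exacts [ra, ha.1, ha.2, ha'.1, ha'.2]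
  · have a : ∀ P : Pt, s (xc P) = t (xc P) → s (yc P) = t (yc P) → s • P = t • P := fun P b c =>
      act_ext (by simp only [smul_eq_zero']) (by rw [xc_smul, xc_smul, b])
        (by rw [yc_smul, yc_smul, c])
    have b : χ s = χ t := by
      have := h r (by simp)
      rw [hr, hr] at this
      exact_mod_cast mul_right_cancel₀ r0 this
    simp only [hη, hy, h w (by simp), b, a S (h _ (by simp)) (h _ (by simp)),
      a S' (h _ (by simp)) (h _ (by simp))]
  · obtain ⟨δ, hδ⟩ : ∃ δ, s γ = sg δ * γ := ex_sg (by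
      rw [← map_pow, hγ, hg, map_mul, map_pow, map_sub, hr, xc_fix (hχ s) ((hx s p).2 ▸ (hx s p).1),
        xc_fix (hχ s) ((hx' s p).2 ▸ (hx' s p).1)]
      rcases hχ s with b | b <;> rw [b] <;> simp)
    obtain ⟨T, hT⟩ : ∃ T, T = x t + x' t := ⟨_, rfl⟩
    have T2 : 2 • s • T = 0 := by rw [← smul_comm, hT, y2 t q, smul_zero]
    have e1 : x (s * t) + x' (s * t) = x s + x' s + s • T := by
      rw [hT, (hx _ (hW s t p q)).2, (hx' _ (hW s t p q)).2, co s t S ((hx t q).2 ▸ (hx t q).1),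
        co s t S' ((hx' t q).2 ▸ (hx' t q).1), ← (hx s p).2, ← (hx t q).2, ← (hx' s p).2,
        ← (hx' t q).2, smul_add]
      abel
    have e2 : s (∏ e ∈ E, k T e) = ∏ e ∈ E, if wl e (s • T) = 0 then 1 else
        sg δ * γ / (sg (wl e (x s)) * (u e * k (x s + x' s) e ^ 2)) := by
      rw [map_prod]
      refine (Finset.prod_congr rfl fun e he => ?_).trans (perm hE s _)
      rw [wl_smul, ← su s p e he, ← hδ]
      simp only [hk]
      split_ifs <;> simp
    have e3 : (∏ e ∈ E, k (x s + x' s) e) * s (∏ e ∈ E, k T e) =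
        sg (∑ e ∈ E, wl e (x s) * wl e (s • T)) * ∏ e ∈ E, k (x s + x' s + s • T) e := by
      have a : ∏ e ∈ E, sg (wl e (s • T) * δ) = 1 := by
        rw [← sg_sum, ← Finset.sum_mul, hs _ T2, zero_mul, sg0]
      rw [e2, ← Finset.prod_mul_distrib, sg_sum, ← Finset.prod_mul_distrib]
      refine Eq.trans ?_ (((congrArg (· * _) a).trans (one_mul _)))
      rw [← Finset.prod_mul_distrib]
      refine Finset.prod_congr rfl fun e he => ?_
      simp only [hk, wl_add _ _ _ ((hE e).1 he) (y2 s p) T2]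
      exact one_factor (u0 e he) γ0 _ _ _ _
    have e4 := sw _ (hW s t p q)
    rw [RingAut.mul_apply, sw t q, map_mul, map_mul, map_sg, sw s p, e1, ← hT] at e4
    refine sg_inj (mul_right_cancel₀ (mul_ne_zero (Finset.prod_ne_zero_iff.2
      (k0 (x s + x' s + s • T))) w0) ?_)
    rw [← e4, ← hT, sg_add, sg_add]
    linear_combination sg (η s) * sg (η t) * w * e3

/-- Points near the origin that are fixed by the twisted action. -/
theorem fixed {v : ℕ} (hv : v.Prime) {O : ValuationSubring ℂ} (hO : Ov O v) {c : ℤ} (hc : c ≠ 0)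
    {r : ℂ} (hr : r ^ 2 = c) : {P : Pt | AlgP P ∧ ∀ (s : G) (Q : ℕ) (χ : ℤ), Q ≠ 0 → Frob O Q s →
      (χ = 1 ∨ χ = -1) → s r = χ * r → χ • s • P = P}.Infinite := by
  have v0 : (v : ℂ) ≠ 0 := by exact_mod_cast hv.ne_zero
  have c0 : (c : ℂ) ≠ 0 := by exact_mod_cast hc
  have key : ∀ j : ℕ, ∃ P : Pt, xc P = (c * ((v : ℂ) ^ (j + 1)) ^ 2)⁻¹ ∧ AlgP P ∧
      ∀ (s : G) (Q : ℕ) (χ : ℤ), Q ≠ 0 → Frob O Q s → (χ = 1 ∨ χ = -1) → s r = χ * r →
        χ • s • P = P := by
    intro j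
    obtain ⟨a, ha⟩ : ∃ a : ℤ, a = (v : ℤ) ^ (j + 1) := ⟨_, rfl⟩
    have a0 : (a : ℂ) ≠ 0 := by rw [ha]; push_cast; exact pow_ne_zero _ v0
    obtain ⟨n, hn⟩ : ∃ n : ℤ, n = -(c * a ^ 2) - 40 * (c * a ^ 2) ^ 2 - 316 * (c * a ^ 2) ^ 3 :=
      ⟨_, rfl⟩
    have n1 : (n : ℂ) ∈ O.nonunits := by
      have : (n : ℂ) = ((-(c * a * v ^ j) - 40 * (c ^ 2 * a ^ 3 * v ^ j) -
          316 * (c ^ 3 * a ^ 5 * v ^ j) : ℤ) : ℂ) * v := by
        rw [hn, ha]; push_cast; ring
      rw [this]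
      exact V2.mul_nu (intCast_mem O _) hO
    obtain ⟨t, t1, t2⟩ : ∃ t : ℂ, t * (t + 1) = n ∧ t ∈ O.nonunits := by
      obtain ⟨D, hD⟩ := IsAlgClosed.exists_pow_nat_eq (1 + 4 * (n : ℂ)) two_pos
      have e : (D - 1) / 2 * ((D - 1) / 2 + 1) = n := by linear_combination hD / 4
      by_cases h : (D - 1) / 2 ∈ O.nonunits
      · exact ⟨_, e, h⟩
      · exact ⟨-((D - 1) / 2 + 1), by linear_combination e, neg_mem (V2.nu_of_mul (e ▸ n1) h)⟩
    have ta : t ∈ KK := R1.alg4 (ofNat_mem _ 2) (one_mem _) (zero_mem _)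
      (neg_mem (pow_mem (intCast_mem KK n) 2)) (by
        linear_combination (t * (t + 1) + n) * t1)
    obtain ⟨p0, p1, p2⟩ := R1.pt_spec (x := (c * (a : ℂ) ^ 2)⁻¹)
      (y := (1 + 2 * t) * r / (c ^ 2 * (a : ℂ) ^ 3)) (by
        have e : (1 + 2 * t) ^ 2 = 1 + 4 * (n : ℂ) := by linear_combination 4 * t1
        rw [div_pow, mul_pow, e, hr, hn, fc]
        push_cast
        field_simp
        ring)
    refine ⟨_, by rw [p1, ha]; push_cast; rfl, algP.2 ⟨?_, ?_⟩, fun s Q χ hQ hs hχ e => ?_⟩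
    · rw [p1]
      exact inv_mem (mul_mem (intCast_mem _ c) (pow_mem (intCast_mem _ a) 2))
    · rw [p2]
      exact div_mem (mul_mem (add_mem (one_mem _) (mul_mem (ofNat_mem _ 2) ta))
        (mem_algebraicClosure_iff.2 (Cheb.alg_sq hr)))
        (mul_mem (pow_mem (intCast_mem _ c) 2) (pow_mem (intCast_mem _ a) 3))
    · have st : s t = t := by
        have b : (s t - t) * (s t + t + 1) = 0 := by
          have := congrArg s t1
          rw [map_mul, map_add, map_one, map_intCast] at this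
          linear_combination this - t1
        refine sub_eq_zero.1 ((mul_eq_zero.1 b).resolve_right fun b => V2.one_not (O := O) ?_)
        have d := (v2_thm.2.1 O Q s t hs hQ (mem_algebraicClosure_iff.1 ta)).2.2 t2
        rw [show (1 : ℂ) = -(s t + t) by linear_combination b]
        exact neg_mem (add_mem d t2)
      generalize pt _ _ = P at p0 p1 p2
      have q0 : s • P ≠ 0 := fun k => p0 ((smul_eq_zero' s P).1 k)
      have q1 : xc (s • P) = xc P := by rw [xc_smul, p1]; simp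
      have q2 : yc (s • P) = χ * yc P := by
        rw [yc_smul, p2]
        simp only [map_div₀, map_mul, map_add, map_one, map_ofNat, map_pow, map_intCast, st, e]
        ring
      rcases hχ with rfl | rfl
      · rw [one_smul]
        exact act_ext (by simp [p0, q0]) q1 (by simpa using q2)
      · rw [neg_one_smul]
        exact act_ext (by simp [p0, q0]) (by rw [xc_neg, q1]) (by rw [ycn q0, q2]; simp)
  choose P h1 h2 using key
  refine Set.infinite_of_injective_forall_mem (f := P) (fun i j e => ?_) h2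
  have a := (h1 i).symm.trans ((congrArg xc e).trans (h1 j))
  rw [inv_inj, mul_right_inj' c0, ← pow_mul, ← pow_mul] at a
  have b : v ^ ((i + 1) * 2) = v ^ ((j + 1) * 2) := by exact_mod_cast a
  have := Nat.pow_right_injective hv.two_le b
  omega

theorem fin_half (S Q : Pt) : {P : Pt | 2 • (S + P) = Q}.Finite := by
  obtain ⟨H, rfl⟩ := R1.ex_half Q
  refine ((Cheb.tors r1_thm 1).1.image fun T => T + H - S).subset fun P hP => ⟨S + P - H, ?_, ?_⟩
  · show 2 ^ 1 • (S + P - H) = 0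
    rw [pow_one, smul_sub, hP, sub_self]
  · show S + P - H + H - S = P
    abel

theorem pair {E : Finset ℂ} (hE : ∀ e, e ∈ E ↔ fc e = 0)
    (hs : ∀ T : Pt, 2 • T = 0 → ∑ e ∈ E, wl e T = 0) {T T' : Pt}
    (h : 2 • T = 0) (h' : 2 • T' = 0) [Decidable (T = 0 ∨ T' = 0 ∨ T = T')] :
    ∑ e ∈ E, wl e T * wl e T' = if T = 0 ∨ T' = 0 ∨ T = T' then 0 else 1 := by
  classical
  split_ifs with a
  · rcases a with rfl | rfl | rfl
    · simp [R1.wl0]
    · simp [R1.wl0]
    · rw [← hs T h]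
      exact Finset.sum_congr rfl fun e _ => by rcases z2 (wl e T) with b | b <;> rw [b] <;> rfl
  · push Not at a
    obtain ⟨y1, f1⟩ := ((R1.two_iff T).1 h).resolve_left a.1
    obtain ⟨y2, f2⟩ := ((R1.two_iff T').1 h').resolve_left a.2.1
    have n : xc T' ≠ xc T := fun e => a.2.2 (act_ext (by simp [a.1, a.2.1]) e.symm (y1.trans y2.symm))
    have m := (hE _).2 f1
    have b := hs T' h'
    rw [← Finset.add_sum_erase _ _ m] at b ⊢
    rw [R1.wl_eq rfl, zero_mul, zero_add, Finset.sum_congr rfl fun e he =>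
      by rw [R1.wl_ne a.1 (Finset.ne_of_mem_erase he).symm, one_mul]]
    rw [R1.wl_ne a.2.1 n] at b
    rcases z2 (∑ e ∈ E.erase (xc T), wl e T') with d | d
    · rw [d] at b
      exact absurd b (by decide)
    · exact d

end Iso

open Iso Classical in
/-- The cup product of two local Kummer classes of level one splits. -/
theorem iso0 {v : ℕ} (hv : v.Prime) {O : ValuationSubring ℂ} (hO : Ov O v) {c : ℤ} (hc : c ≠ 0)
    {r : ℂ} (hr : r ^ 2 = c) (χ : G → ℤ) (hχ : ∀ s, χ s = 1 ∨ χ s = -1) (hs : ∀ s, s r = χ s * r)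
    {S S' : Pt} (ha : AlgP S) (ha' : AlgP S') (x x' : G → Pt)
    (hx : ∀ s, (∃ n, Frob O (v ^ n) s) → 2 • x s = 0 ∧ x s = χ s • s • S - S)
    (hx' : ∀ s, (∃ n, Frob O (v ^ n) s) → 2 • x' s = 0 ∧ x' s = χ s • s • S' - S') :
    ∃ (η : G → ZMod 2) (J : Finset ℂ), (∀ z ∈ J, IsAlgebraic ℚ z) ∧
      (∀ s t : G, (∀ z ∈ J, s z = t z) → η s = η t) ∧
      ∀ s t, (∃ n, Frob O (v ^ n) s) → (∃ n, Frob O (v ^ n) t) → η (s * t) = η s + η t +
        if x s = 0 ∨ s • x' t = 0 ∨ x s = s • x' t then 0 else 1 := by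
  obtain ⟨E, hE, hE0, -⟩ := roots
  have r0 : r ≠ 0 := fun k => hc (by rw [k] at hr; exact_mod_cast (by simpa using hr.symm : (c : ℂ) = 0))
  have inf := fixed hv hO hc hr
  obtain ⟨P, ⟨p1, p2⟩, p3⟩ := inf.exists_notMem_finite (fin_half S 0)
  obtain ⟨P', ⟨q1, q2⟩, q3⟩ := inf.exists_notMem_finite ((fin_half S' 0).union
    ((fin_half S' (2 • (S + P))).union (fin_half S' (-(2 • (S + P))))))
  simp only [Set.mem_union, Set.mem_ofPred_eq, not_or] at p3 q3
  have mv : ∀ {S P : Pt} {s : G}, χ s • s • P = P →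
      χ s • s • S - S = χ s • s • (S + P) - (S + P) := fun {S P s} h => by
    rw [smul_add, smul_add, h]
    abel
  have hW : ∀ s t : G, (∃ n, Frob O (v ^ n) s) → (∃ n, Frob O (v ^ n) t) →
      ∃ n, Frob O (v ^ n) (s * t) := by
    rintro s t ⟨n, h⟩ ⟨n', h'⟩
    exact ⟨n + n', pow_add v n n' ▸ v2_thm.1 O _ _ s t h h' (pow_ne_zero _ hv.ne_zero)⟩
  obtain ⟨η, J, j1, j2, j3⟩ := core hE hE0 _ hW χ hχ r0 hs (Cheb.alg_sq hr) (R1.alg_add _ _ ha p1)
    (R1.alg_add _ _ ha' q1) p3 q3.1 (fun e => by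
      rcases Pool.Agent.Lib.MP_02f36d_nt.eq_or_neg_of_xc q3.1 p3 e.symm with a | a
      exacts [q3.2.1 a, q3.2.2 a]) x x'
    (fun s h => ⟨(hx s h).1, (hx s h).2.trans (mv (h.elim fun n h =>
      p2 s _ _ (pow_ne_zero _ hv.ne_zero) h (hχ s) (hs s)))⟩)
    (fun s h => ⟨(hx' s h).1, (hx' s h).2.trans (mv (h.elim fun n h =>
      q2 s _ _ (pow_ne_zero _ hv.ne_zero) h (hχ s) (hs s)))⟩)
  refine ⟨fun s => η s + if χ s • s • S - S = 0 then 0 else 1, J ∪ {r, xc S, yc S}, fun z hz => ?_,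
    fun s t h => ?_, fun s t p q => ?_⟩
  · simp only [Finset.mem_union, Finset.mem_insert, Finset.mem_singleton] at hz
    rcases hz with hz | rfl | rfl | rfl
    exacts [j1 z hz, Cheb.alg_sq hr, ha.1, ha.2]
  · have a : s • S = t • S := act_ext (by simp only [smul_eq_zero'])
      (by rw [xc_smul, xc_smul, h _ (by simp)]) (by rw [yc_smul, yc_smul, h _ (by simp)])
    have b : χ s = χ t := by
      have := h r (by simp)
      rw [hs, hs] at this
      exact_mod_cast mul_right_cancel₀ r0 this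
    simp only [a, b, j2 s t fun z hz => h z (Finset.mem_union_left _ hz)]
  · have t2 : ∀ {T : Pt}, 2 • T = 0 → 2 • s • T = 0 := fun h => by rw [← smul_comm, h, smul_zero]
    have χm : χ (s * t) = χ s * χ t := by
      have a : ((χ (s * t) : ℤ) : ℂ) * r = (χ s * χ t : ℤ) * r := by
        rw [← hs, RingAut.mul_apply, hs t, map_mul, map_intCast, hs s]
        push_cast
        ring
      exact_mod_cast mul_right_cancel₀ r0 a
    have co : x (s * t) = x s + s • x t := by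
      have a : χ s • s • x t = s • x t := by
        rcases hχ s with b | b <;> rw [b]
        · rw [one_smul]
        · rw [neg_one_smul, neg_eq_iff_add_eq_zero, ← two_nsmul, t2 (hx t q).1]
      rw [← a, (hx _ (hW s t p q)).2, (hx s p).2, (hx t q).2, smul_sub s, smul_comm s (χ t), χm,
        mul_smul, mul_smul, smul_sub (χ s)]
      abel
    have a := pair hE hE0 (hx s p).1 (t2 (hx t q).1)
    have b := pair hE hE0 (hx s p).1 (t2 (hx' t q).1)
    simp only [← (hx s p).2, ← (hx t q).2, ← (hx _ (hW s t p q)).2]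
    rw [j3 s t p q, smul_add, Finset.sum_congr rfl fun e he => by
      rw [wl_add e _ _ ((hE e).1 he) (t2 (hx t q).1) (t2 (hx' t q).1), mul_add],
      Finset.sum_add_distrib, a, b, co]
    have d : (if x s + s • x t = 0 then 0 else 1 : ZMod 2) = (if x s = 0 then 0 else 1) +
        (if x t = 0 then 0 else 1) + if x s = 0 ∨ s • x t = 0 ∨ x s = s • x t then 0 else 1 := by
      have n : ∀ {A B : Pt}, 2 • B = 0 → (A + B = 0 ↔ A = B) := fun {A B} h => by
        rw [two_nsmul, add_eq_zero_iff_eq_neg] at h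
        rw [add_eq_zero_iff_eq_neg, ← h]
      simp only [n (t2 (hx t q).1), ← smul_eq_zero' s (x t)]
      generalize s • x t = B
      generalize x s = A
      by_cases h1 : A = 0 <;> by_cases h2 : B = 0 <;> by_cases h3 : A = B <;>
        simp_all <;> decide
    rw [d]
    generalize (if x s = 0 ∨ s • x t = 0 ∨ x s = s • x t then 0 else 1 : ZMod 2) = z
    linear_combination (CharTwo.add_self_eq_zero z)

end Pool.Agent.Lib.MP_d6ddbd_nt.KI
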